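import Pool.Agent.ADP.KG3

/-!
# ADP-A0: the seven identities (`p = 3`)

`T` a T-ideal with `3 P⁺ ≤ T`, `Fge 4 ≤ T`, neither contained in `GP 3 1` nor in `TM`, contains one of seven identities of degree 3.
`N = T ∩ Ml 3` modulo 3 is a submodule of `F_3[S_3]`.  Write an element as `(a, b)`, `a` the even, `b` the odd coefficients, and put
`U_± = {a : (a, ± a) ∈ N}`: `N` is the sum of the two parts, `U_±` is closed under `a ↦ Σ a (1,1,1)`, and `δ = ρ - ρ⁻¹` maps `U_±` into `U_∓`.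
An `a ∈ U_±` with `Σ a ≢ 0` gives one of `g1`, `g4`, `g4'` (`U_+`), `g2`, `g3`, `g3'` (`U_-`).  If there is none, there are
`a ∈ U_+`, `b ∈ U_-` which are not multiples of `(1,1,1)`; `δ` shows `(1,1,1) ∈ U_±`, so `(1,-1,0) ∈ U_+ ∩ U_-` and `g5 ∈ N`.
-/

namespace ADP

open AD ADN ADC

private theorem a0_tri (a b c : ℤ) (h : ¬ (3 : ℤ) ∣ a + b + c) :
    (3 : ℤ) ∣ b - c ∨ (3 : ℤ) ∣ a - c ∨ (3 : ℤ) ∣ a - b := by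
  rcases (by omega : a % 3 = 0 ∨ a % 3 = 1 ∨ a % 3 = 2) with ha | ha | ha <;>
  rcases (by omega : b % 3 = 0 ∨ b % 3 = 1 ∨ b % 3 = 2) with hb | hb | hb <;>
  rcases (by omega : c % 3 = 0 ∨ c % 3 = 1 ∨ c % 3 = 2) with hc | hc | hc <;> omega

/-- the finite fact, for a set `S` of vectors `(a, b)` of integers which is closed under linear combinations modulo 3,
the exchange `s` of `a` and `b` and the rotation `r` -/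
private theorem a0_core (S : ℤ → ℤ → ℤ → ℤ → ℤ → ℤ → Prop)
    (hl : ∀ a1 a2 a3 a4 a5 a6 b1 b2 b3 b4 b5 b6 : ℤ, S a1 a2 a3 a4 a5 a6 → S b1 b2 b3 b4 b5 b6 →
      ∀ c d x1 x2 x3 x4 x5 x6 : ℤ, (3 : ℤ) ∣ x1 - (c * a1 + d * b1) → (3 : ℤ) ∣ x2 - (c * a2 + d * b2) →
        (3 : ℤ) ∣ x3 - (c * a3 + d * b3) → (3 : ℤ) ∣ x4 - (c * a4 + d * b4) →
        (3 : ℤ) ∣ x5 - (c * a5 + d * b5) → (3 : ℤ) ∣ x6 - (c * a6 + d * b6) → S x1 x2 x3 x4 x5 x6)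
    (hs : ∀ a1 a2 a3 a4 a5 a6 : ℤ, S a1 a2 a3 a4 a5 a6 → S a4 a5 a6 a1 a2 a3)
    (hr : ∀ a1 a2 a3 a4 a5 a6 : ℤ, S a1 a2 a3 a4 a5 a6 → S a3 a1 a2 a5 a6 a4)
    {u1 u2 u3 u4 u5 u6 : ℤ} (hu : S u1 u2 u3 u4 u5 u6)
    (hu' : ¬ ((3 : ℤ) ∣ u1 + u2 + u3 + u4 + u5 + u6 ∧ (3 : ℤ) ∣ u1 + u5 - u2 - u6 ∧
      (3 : ℤ) ∣ u2 + u4 - u3 - u5 ∧ (3 : ℤ) ∣ u3 + u6 - u1 - u4))
    {v1 v2 v3 v4 v5 v6 : ℤ} (hv : S v1 v2 v3 v4 v5 v6)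
    (hv' : ¬ ((3 : ℤ) ∣ v1 + v2 + v3 - v4 - v5 - v6 ∧ (3 : ℤ) ∣ v1 - v5 - v2 + v6 ∧
      (3 : ℤ) ∣ v2 - v4 - v3 + v5 ∧ (3 : ℤ) ∣ v3 - v6 - v1 + v4)) :
    S 1 0 0 0 0 1 ∨ S 1 0 0 0 0 (-1) ∨ S 1 0 0 (-1) 0 0 ∨ S 1 0 0 0 (-1) 0 ∨ S 1 0 0 1 0 0 ∨
      S 1 0 0 0 1 0 ∨ S 1 (-1) 0 0 0 0 := by
  -- the two parts
  have up : ∀ a1 a2 a3 a4 a5 a6 : ℤ, S a1 a2 a3 a4 a5 a6 →
      S (a1 + a4) (a2 + a5) (a3 + a6) (a1 + a4) (a2 + a5) (a3 + a6) := by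
    intro a1 a2 a3 a4 a5 a6 h
    refine hl _ _ _ _ _ _ _ _ _ _ _ _ h (hs _ _ _ _ _ _ h) 1 1 _ _ _ _ _ _ ?_ ?_ ?_ ?_ ?_ ?_ <;> omega
  have um : ∀ a1 a2 a3 a4 a5 a6 : ℤ, S a1 a2 a3 a4 a5 a6 →
      S (a1 - a4) (a2 - a5) (a3 - a6) (-(a1 - a4)) (-(a2 - a5)) (-(a3 - a6)) := by
    intro a1 a2 a3 a4 a5 a6 h
    refine hl _ _ _ _ _ _ _ _ _ _ _ _ h (hs _ _ _ _ _ _ h) 1 (-1) _ _ _ _ _ _ ?_ ?_ ?_ ?_ ?_ ?_ <;> omega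
  -- `σ`
  have sp : ∀ a b c : ℤ, S a b c a b c → S (a + b + c) (a + b + c) (a + b + c) (a + b + c) (a + b + c) (a + b + c) := by
    intro a b c h
    have h1 := up _ _ _ _ _ _ (hr _ _ _ _ _ _ h)
    refine hl _ _ _ _ _ _ _ _ _ _ _ _ h h1 1 1 _ _ _ _ _ _ ?_ ?_ ?_ ?_ ?_ ?_ <;> omega
  have sm : ∀ a b c : ℤ, S a b c (-a) (-b) (-c) →
      S (a + b + c) (a + b + c) (a + b + c) (-(a + b + c)) (-(a + b + c)) (-(a + b + c)) := by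
    intro a b c h
    have h1 := um _ _ _ _ _ _ (hr _ _ _ _ _ _ h)
    refine hl _ _ _ _ _ _ _ _ _ _ _ _ h h1 1 1 _ _ _ _ _ _ ?_ ?_ ?_ ?_ ?_ ?_ <;> omega
  -- `δ`
  have dp : ∀ a b c : ℤ, S a b c a b c → S (c - b) (a - c) (b - a) (-(c - b)) (-(a - c)) (-(b - a)) := by
    intro a b c h
    exact um _ _ _ _ _ _ (hr _ _ _ _ _ _ h)
  have dm : ∀ a b c : ℤ, S a b c (-a) (-b) (-c) → S (c - b) (a - c) (b - a) (c - b) (a - c) (b - a) := by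
    intro a b c h
    have h1 := up _ _ _ _ _ _ (hr _ _ _ _ _ _ h)
    refine hl _ _ _ _ _ _ _ _ _ _ _ _ h1 h1 1 0 _ _ _ _ _ _ ?_ ?_ ?_ ?_ ?_ ?_ <;> omega
  -- nonzero sum in `U_+`
  have kp : ∀ a b c : ℤ, S a b c a b c → ¬ (3 : ℤ) ∣ a + b + c →
      S 1 0 0 0 0 1 ∨ S 1 0 0 1 0 0 ∨ S 1 0 0 0 1 0 := by
    intro a b c h hn
    have h1 : S 1 1 1 1 1 1 := by
      have h2 := sp _ _ _ h
      rcases (by omega : (3 : ℤ) ∣ a + b + c - 1 ∨ (3 : ℤ) ∣ a + b + c + 1) with h3 | h3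
      · refine hl _ _ _ _ _ _ _ _ _ _ _ _ h2 h2 1 0 _ _ _ _ _ _ ?_ ?_ ?_ ?_ ?_ ?_ <;> omega
      · refine hl _ _ _ _ _ _ _ _ _ _ _ _ h2 h2 (-1) 0 _ _ _ _ _ _ ?_ ?_ ?_ ?_ ?_ ?_ <;> omega
    rcases a0_tri a b c hn with h4 | h4 | h4
    · have h5 : S 1 0 0 1 0 0 := by
        rcases (by omega : (3 : ℤ) ∣ a + b + c - 1 ∨ (3 : ℤ) ∣ a + b + c + 1) with h3 | h3
        · refine hl _ _ _ _ _ _ _ _ _ _ _ _ h h1 1 (-b) _ _ _ _ _ _ ?_ ?_ ?_ ?_ ?_ ?_ <;> omega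
        · refine hl _ _ _ _ _ _ _ _ _ _ _ _ h h1 (-1) b _ _ _ _ _ _ ?_ ?_ ?_ ?_ ?_ ?_ <;> omega
      exact Or.inr (Or.inl h5)
    · have h5 : S 1 0 1 1 0 1 := by
        rcases (by omega : (3 : ℤ) ∣ a + b + c - 1 ∨ (3 : ℤ) ∣ a + b + c + 1) with h3 | h3
        · refine hl _ _ _ _ _ _ _ _ _ _ _ _ h h1 (-1) (a + 1) _ _ _ _ _ _ ?_ ?_ ?_ ?_ ?_ ?_ <;> omega
        · refine hl _ _ _ _ _ _ _ _ _ _ _ _ h h1 1 (1 - a) _ _ _ _ _ _ ?_ ?_ ?_ ?_ ?_ ?_ <;> omega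
      have h6 := dp _ _ _ h5
      refine Or.inl ?_
      refine hl _ _ _ _ _ _ _ _ _ _ _ _ h5 h6 2 2 _ _ _ _ _ _ ?_ ?_ ?_ ?_ ?_ ?_ <;> omega
    · have h5 : S 1 1 0 1 1 0 := by
        rcases (by omega : (3 : ℤ) ∣ a + b + c - 1 ∨ (3 : ℤ) ∣ a + b + c + 1) with h3 | h3
        · refine hl _ _ _ _ _ _ _ _ _ _ _ _ h h1 (-1) (a + 1) _ _ _ _ _ _ ?_ ?_ ?_ ?_ ?_ ?_ <;> omega
        · refine hl _ _ _ _ _ _ _ _ _ _ _ _ h h1 1 (1 - a) _ _ _ _ _ _ ?_ ?_ ?_ ?_ ?_ ?_ <;> omega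
      have h6 := dp _ _ _ h5
      refine Or.inr (Or.inr ?_)
      refine hl _ _ _ _ _ _ _ _ _ _ _ _ h5 h6 2 1 _ _ _ _ _ _ ?_ ?_ ?_ ?_ ?_ ?_ <;> omega
  -- nonzero sum in `U_-`
  have km : ∀ a b c : ℤ, S a b c (-a) (-b) (-c) → ¬ (3 : ℤ) ∣ a + b + c →
      S 1 0 0 0 0 (-1) ∨ S 1 0 0 (-1) 0 0 ∨ S 1 0 0 0 (-1) 0 := by
    intro a b c h hn
    have h1 : S 1 1 1 (-1) (-1) (-1) := by
      have h2 := sm _ _ _ h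
      rcases (by omega : (3 : ℤ) ∣ a + b + c - 1 ∨ (3 : ℤ) ∣ a + b + c + 1) with h3 | h3
      · refine hl _ _ _ _ _ _ _ _ _ _ _ _ h2 h2 1 0 _ _ _ _ _ _ ?_ ?_ ?_ ?_ ?_ ?_ <;> omega
      · refine hl _ _ _ _ _ _ _ _ _ _ _ _ h2 h2 (-1) 0 _ _ _ _ _ _ ?_ ?_ ?_ ?_ ?_ ?_ <;> omega
    rcases a0_tri a b c hn with h4 | h4 | h4
    · have h5 : S 1 0 0 (-1) 0 0 := by
        rcases (by omega : (3 : ℤ) ∣ a + b + c - 1 ∨ (3 : ℤ) ∣ a + b + c + 1) with h3 | h3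
        · refine hl _ _ _ _ _ _ _ _ _ _ _ _ h h1 1 (-b) _ _ _ _ _ _ ?_ ?_ ?_ ?_ ?_ ?_ <;> omega
        · refine hl _ _ _ _ _ _ _ _ _ _ _ _ h h1 (-1) b _ _ _ _ _ _ ?_ ?_ ?_ ?_ ?_ ?_ <;> omega
      exact Or.inr (Or.inl h5)
    · have h5 : S 1 0 1 (-1) (-0) (-1) := by
        rcases (by omega : (3 : ℤ) ∣ a + b + c - 1 ∨ (3 : ℤ) ∣ a + b + c + 1) with h3 | h3
        · refine hl _ _ _ _ _ _ _ _ _ _ _ _ h h1 (-1) (a + 1) _ _ _ _ _ _ ?_ ?_ ?_ ?_ ?_ ?_ <;> omega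
        · refine hl _ _ _ _ _ _ _ _ _ _ _ _ h h1 1 (1 - a) _ _ _ _ _ _ ?_ ?_ ?_ ?_ ?_ ?_ <;> omega
      have h6 := dm _ _ _ h5
      refine Or.inl ?_
      refine hl _ _ _ _ _ _ _ _ _ _ _ _ h5 h6 2 2 _ _ _ _ _ _ ?_ ?_ ?_ ?_ ?_ ?_ <;> omega
    · have h5 : S 1 1 0 (-1) (-1) (-0) := by
        rcases (by omega : (3 : ℤ) ∣ a + b + c - 1 ∨ (3 : ℤ) ∣ a + b + c + 1) with h3 | h3
        · refine hl _ _ _ _ _ _ _ _ _ _ _ _ h h1 (-1) (a + 1) _ _ _ _ _ _ ?_ ?_ ?_ ?_ ?_ ?_ <;> omega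
        · refine hl _ _ _ _ _ _ _ _ _ _ _ _ h h1 1 (1 - a) _ _ _ _ _ _ ?_ ?_ ?_ ?_ ?_ ?_ <;> omega
      have h6 := dm _ _ _ h5
      refine Or.inr (Or.inr ?_)
      refine hl _ _ _ _ _ _ _ _ _ _ _ _ h5 h6 2 1 _ _ _ _ _ _ ?_ ?_ ?_ ?_ ?_ ?_ <;> omega
  have a1 := up _ _ _ _ _ _ hu
  have a2 := um _ _ _ _ _ _ hu
  have b1 := up _ _ _ _ _ _ hv
  have b2 := um _ _ _ _ _ _ hv
  by_cases c1 : (3 : ℤ) ∣ (u1 + u4) + (u2 + u5) + (u3 + u6)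
  swap
  · rcases kp _ _ _ a1 c1 with h | h | h <;> tauto
  by_cases c2 : (3 : ℤ) ∣ (u1 - u4) + (u2 - u5) + (u3 - u6)
  swap
  · rcases km _ _ _ a2 c2 with h | h | h <;> tauto
  by_cases c3 : (3 : ℤ) ∣ (v1 + v4) + (v2 + v5) + (v3 + v6)
  swap
  · rcases kp _ _ _ b1 c3 with h | h | h <;> tauto
  by_cases c4 : (3 : ℤ) ∣ (v1 - v4) + (v2 - v5) + (v3 - v6)
  swap
  · rcases km _ _ _ b2 c4 with h | h | h <;> tauto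
  -- `a ∈ U_+`, `b ∈ U_-`, not multiples of `(1,1,1)`
  have n1 : ¬ (3 : ℤ) ∣ (u1 + u4) - (u3 + u6) := by
    intro h
    apply hu'
    refine ⟨?_, ?_, ?_, ?_⟩ <;> omega
  have n2 : ¬ (3 : ℤ) ∣ (v1 - v4) - (v3 - v6) := by
    intro h
    apply hv'
    refine ⟨?_, ?_, ?_, ?_⟩ <;> omega
  have d1 := dp _ _ _ a1
  have d2 := dm _ _ _ b2
  have e1 : S 1 1 1 (-1) (-1) (-1) := by
    rcases (by omega : (3 : ℤ) ∣ (u1 + u4) - (u3 + u6) - 1 ∨ (3 : ℤ) ∣ (u1 + u4) - (u3 + u6) + 1) with h3 | h3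
    · refine hl _ _ _ _ _ _ _ _ _ _ _ _ d1 d1 1 0 _ _ _ _ _ _ ?_ ?_ ?_ ?_ ?_ ?_ <;> omega
    · refine hl _ _ _ _ _ _ _ _ _ _ _ _ d1 d1 (-1) 0 _ _ _ _ _ _ ?_ ?_ ?_ ?_ ?_ ?_ <;> omega
  have e2 : S 1 1 1 1 1 1 := by
    rcases (by omega : (3 : ℤ) ∣ (v1 - v4) - (v3 - v6) - 1 ∨ (3 : ℤ) ∣ (v1 - v4) - (v3 - v6) + 1) with h3 | h3
    · refine hl _ _ _ _ _ _ _ _ _ _ _ _ d2 d2 1 0 _ _ _ _ _ _ ?_ ?_ ?_ ?_ ?_ ?_ <;> omega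
    · refine hl _ _ _ _ _ _ _ _ _ _ _ _ d2 d2 (-1) 0 _ _ _ _ _ _ ?_ ?_ ?_ ?_ ?_ ?_ <;> omega
  have f1 : S 1 (-1) 0 1 (-1) 0 := by
    rcases (by omega : (3 : ℤ) ∣ (u1 + u4) - (u3 + u6) - 1 ∨ (3 : ℤ) ∣ (u1 + u4) - (u3 + u6) + 1) with h3 | h3
    · refine hl _ _ _ _ _ _ _ _ _ _ _ _ a1 e2 1 (-(u3 + u6)) _ _ _ _ _ _ ?_ ?_ ?_ ?_ ?_ ?_ <;> omega
    · refine hl _ _ _ _ _ _ _ _ _ _ _ _ a1 e2 (-1) (u3 + u6) _ _ _ _ _ _ ?_ ?_ ?_ ?_ ?_ ?_ <;> omega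
  have f2 : S 1 (-1) 0 (-1) 1 0 := by
    rcases (by omega : (3 : ℤ) ∣ (v1 - v4) - (v3 - v6) - 1 ∨ (3 : ℤ) ∣ (v1 - v4) - (v3 - v6) + 1) with h3 | h3
    · refine hl _ _ _ _ _ _ _ _ _ _ _ _ b2 e1 1 (-(v3 - v6)) _ _ _ _ _ _ ?_ ?_ ?_ ?_ ?_ ?_ <;> omega
    · refine hl _ _ _ _ _ _ _ _ _ _ _ _ b2 e1 (-1) (v3 - v6) _ _ _ _ _ _ ?_ ?_ ?_ ?_ ?_ ?_ <;> omega
  have f3 : S 1 (-1) 0 0 0 0 := by
    refine hl _ _ _ _ _ _ _ _ _ _ _ _ f1 f2 2 2 _ _ _ _ _ _ ?_ ?_ ?_ ?_ ?_ ?_ <;> omega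
  tauto

/-- the polynomial with given coefficients -/
private noncomputable def a0_v (a1 a2 a3 a4 a5 a6 : ℤ) : P :=
  a1 • (X 0 * X 1 * X 2) + a2 • (X 1 * X 2 * X 0) + a3 • (X 2 * X 0 * X 1) +
    a4 • (X 1 * X 0 * X 2) + a5 • (X 0 * X 2 * X 1) + a6 • (X 2 * X 1 * X 0)

private theorem a0_X3 (i j k : ℕ) : (X i * X j * X k : P) ∈ Pp := by
  have h : (X i * X j * X k : P) = mon [i, j, k] := by
    simp [mon, mul_assoc]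
  rw [h]
  exact mon_mem (by simp)

private theorem a0_Pp (a1 a2 a3 a4 a5 a6 : ℤ) : a0_v a1 a2 a3 a4 a5 a6 ∈ Pp := by
  unfold a0_v
  exact Submodule.add_mem _ (Submodule.add_mem _ (Submodule.add_mem _ (Submodule.add_mem _
    (Submodule.add_mem _ (Submodule.smul_mem _ _ (a0_X3 0 1 2)) (Submodule.smul_mem _ _ (a0_X3 1 2 0)))
    (Submodule.smul_mem _ _ (a0_X3 2 0 1))) (Submodule.smul_mem _ _ (a0_X3 1 0 2)))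
    (Submodule.smul_mem _ _ (a0_X3 0 2 1))) (Submodule.smul_mem _ _ (a0_X3 2 1 0))

private theorem a0_lin (c d a1 a2 a3 a4 a5 a6 b1 b2 b3 b4 b5 b6 k1 k2 k3 k4 k5 k6 : ℤ) :
    a0_v (c * a1 + d * b1 + 3 * k1) (c * a2 + d * b2 + 3 * k2) (c * a3 + d * b3 + 3 * k3)
      (c * a4 + d * b4 + 3 * k4) (c * a5 + d * b5 + 3 * k5) (c * a6 + d * b6 + 3 * k6) =
    c • a0_v a1 a2 a3 a4 a5 a6 + d • a0_v b1 b2 b3 b4 b5 b6 + (3 : ℤ) • a0_v k1 k2 k3 k4 k5 k6 := by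
  unfold a0_v
  module

theorem A0 {T : Submodule ℤ P} (hT : IsT T) (hm : Mul 3 T) (hF : Fge 4 ≤ T) (h1 : ¬ T ≤ GP 3 1) (h2 : ¬ T ≤ TM) :
    g1 ∈ T ∨ g2 ∈ T ∨ g3 ∈ T ∨ g3' ∈ T ∨ g4 ∈ T ∨ g4' ∈ T ∨ g5 ∈ T := by
  obtain ⟨u, huT, huM, hu⟩ : ∃ g ∈ T, g ∈ Ml 3 ∧ g ∉ KG 3 1 := by
    by_contra h
    push Not at h
    exact h1 (le_TK hT hF h)
  obtain ⟨v, hvT, hvM, hv⟩ : ∃ g ∈ T, g ∈ Ml 3 ∧ g ∉ KM := by
    by_contra h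
    push Not at h
    exact h2 (le_TK hT hF h)
  rw [KG31_iff huM] at hu
  rw [M3_words huM] at huT
  rw [M3_words hvM] at hvT
  have hv' : ¬ ((3 : ℤ) ∣ e1 v + e2 v + e3 v - o1 v - o2 v - o3 v ∧ (3 : ℤ) ∣ e1 v - o2 v - e2 v + o3 v ∧
      (3 : ℤ) ∣ e2 v - o1 v - e3 v + o2 v ∧ (3 : ℤ) ∣ e3 v - o3 v - e1 v + o1 v) := hv
  have key := a0_core (fun a1 a2 a3 a4 a5 a6 => a0_v a1 a2 a3 a4 a5 a6 ∈ T) ?_ ?_ ?_ huT hu hvT hv'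
  · unfold a0_v at key
    rcases key with h | h | h | h | h | h | h
    · refine Or.inl ?_
      have e : g1 = (1 : ℤ) • (X 0 * X 1 * X 2) + (0 : ℤ) • (X 1 * X 2 * X 0) + (0 : ℤ) • (X 2 * X 0 * X 1) +
          (0 : ℤ) • (X 1 * X 0 * X 2) + (0 : ℤ) • (X 0 * X 2 * X 1) + (1 : ℤ) • (X 2 * X 1 * X 0) := by
        unfold g1; module
      rw [e]; exact h
    · refine Or.inr (Or.inl ?_)
      have e : g2 = (1 : ℤ) • (X 0 * X 1 * X 2) + (0 : ℤ) • (X 1 * X 2 * X 0) + (0 : ℤ) • (X 2 * X 0 * X 1) +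
          (0 : ℤ) • (X 1 * X 0 * X 2) + (0 : ℤ) • (X 0 * X 2 * X 1) + (-1 : ℤ) • (X 2 * X 1 * X 0) := by
        unfold g2; module
      rw [e]; exact h
    · refine Or.inr (Or.inr (Or.inl ?_))
      have e : g3 = (1 : ℤ) • (X 0 * X 1 * X 2) + (0 : ℤ) • (X 1 * X 2 * X 0) + (0 : ℤ) • (X 2 * X 0 * X 1) +
          (-1 : ℤ) • (X 1 * X 0 * X 2) + (0 : ℤ) • (X 0 * X 2 * X 1) + (0 : ℤ) • (X 2 * X 1 * X 0) := by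
        unfold g3; rw [sub_mul]; module
      rw [e]; exact h
    · refine Or.inr (Or.inr (Or.inr (Or.inl ?_)))
      have e : g3' = (1 : ℤ) • (X 0 * X 1 * X 2) + (0 : ℤ) • (X 1 * X 2 * X 0) + (0 : ℤ) • (X 2 * X 0 * X 1) +
          (0 : ℤ) • (X 1 * X 0 * X 2) + (-1 : ℤ) • (X 0 * X 2 * X 1) + (0 : ℤ) • (X 2 * X 1 * X 0) := by
        unfold g3'; rw [mul_sub, ← mul_assoc, ← mul_assoc]; module
      rw [e]; exact h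
    · refine Or.inr (Or.inr (Or.inr (Or.inr (Or.inl ?_))))
      have e : g4 = (1 : ℤ) • (X 0 * X 1 * X 2) + (0 : ℤ) • (X 1 * X 2 * X 0) + (0 : ℤ) • (X 2 * X 0 * X 1) +
          (1 : ℤ) • (X 1 * X 0 * X 2) + (0 : ℤ) • (X 0 * X 2 * X 1) + (0 : ℤ) • (X 2 * X 1 * X 0) := by
        unfold g4; rw [add_mul]; module
      rw [e]; exact h
    · refine Or.inr (Or.inr (Or.inr (Or.inr (Or.inr (Or.inl ?_)))))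
      have e : g4' = (1 : ℤ) • (X 0 * X 1 * X 2) + (0 : ℤ) • (X 1 * X 2 * X 0) + (0 : ℤ) • (X 2 * X 0 * X 1) +
          (0 : ℤ) • (X 1 * X 0 * X 2) + (1 : ℤ) • (X 0 * X 2 * X 1) + (0 : ℤ) • (X 2 * X 1 * X 0) := by
        unfold g4'; rw [mul_add, ← mul_assoc, ← mul_assoc]; module
      rw [e]; exact h
    · refine Or.inr (Or.inr (Or.inr (Or.inr (Or.inr (Or.inr ?_)))))
      have e : g5 = (1 : ℤ) • (X 0 * X 1 * X 2) + (-1 : ℤ) • (X 1 * X 2 * X 0) + (0 : ℤ) • (X 2 * X 0 * X 1) +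
          (0 : ℤ) • (X 1 * X 0 * X 2) + (0 : ℤ) • (X 0 * X 2 * X 1) + (0 : ℤ) • (X 2 * X 1 * X 0) := by
        unfold g5; module
      rw [e]; exact h
  · intro a1 a2 a3 a4 a5 a6 b1 b2 b3 b4 b5 b6 ha hb c d x1 x2 x3 x4 x5 x6 q1 q2 q3 q4 q5 q6
    obtain ⟨k1, q1⟩ := q1
    obtain ⟨k2, q2⟩ := q2
    obtain ⟨k3, q3⟩ := q3
    obtain ⟨k4, q4⟩ := q4
    obtain ⟨k5, q5⟩ := q5
    obtain ⟨k6, q6⟩ := q6
    have r1 : x1 = c * a1 + d * b1 + 3 * k1 := by linarith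
    have r2 : x2 = c * a2 + d * b2 + 3 * k2 := by linarith
    have r3 : x3 = c * a3 + d * b3 + 3 * k3 := by linarith
    have r4 : x4 = c * a4 + d * b4 + 3 * k4 := by linarith
    have r5 : x5 = c * a5 + d * b5 + 3 * k5 := by linarith
    have r6 : x6 = c * a6 + d * b6 + 3 * k6 := by linarith
    show a0_v x1 x2 x3 x4 x5 x6 ∈ T
    rw [r1, r2, r3, r4, r5, r6, a0_lin]
    exact Submodule.add_mem _ (Submodule.add_mem _ (Submodule.smul_mem _ _ ha) (Submodule.smul_mem _ _ hb))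
      (hm _ (a0_Pp _ _ _ _ _ _))
  · intro a1 a2 a3 a4 a5 a6 ha
    have h := sb_mem hT (φ := fun z => if z = 0 then X 1 else if z = 1 then X 0 else X z)
      (fun z => by
        show (if z = 0 then X 1 else if z = 1 then X 0 else X z) ∈ Pp
        split_ifs <;> exact X_mem _) ha
    unfold a0_v at h
    simp only [map_add, map_zsmul, map_mul, sb_X, if_true, if_false, one_ne_zero, OfNat.ofNat_ne_zero,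
      OfNat.ofNat_ne_one] at h
    show a0_v a4 a5 a6 a1 a2 a3 ∈ T
    unfold a0_v
    convert h using 1
    abel
  · intro a1 a2 a3 a4 a5 a6 ha
    have h := sb_mem hT (φ := fun z => if z = 0 then X 1 else if z = 1 then X 2 else if z = 2 then X 0 else X z)
      (fun z => by
        show (if z = 0 then X 1 else if z = 1 then X 2 else if z = 2 then X 0 else X z) ∈ Pp
        split_ifs <;> exact X_mem _) ha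
    unfold a0_v at h
    simp only [map_add, map_zsmul, map_mul, sb_X, if_true, if_false, one_ne_zero, OfNat.ofNat_ne_zero,
      OfNat.ofNat_ne_one] at h
    show a0_v a3 a1 a2 a5 a6 a4 ∈ T
    unfold a0_v
    convert h using 1
    abel

end ADP
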