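import Pool.Agent.ADP.K3

/-!
# ADP-K3b: the sets `KM`, `KE`, `KF` are additive and invariant under renaming, and their T-ideals
-/

namespace ADP

open AD ADN ADC

private theorem k3b_zero (w : List ℕ) : cf w (0 : P) = 0 := by
  have h := cf_smul w 0 (0 : P)
  rwa [zero_smul, zero_mul] at h

private theorem k3b_neg (w : List ℕ) (f : P) : cf w (-f) = - cf w f := by
  have h := cf_smul w (-1) f
  rwa [neg_one_smul, neg_one_mul] at h

private theorem k3b_rn0 {n : ℕ} (σ : Equiv.Perm (Fin n)) (w : List ℕ) (g : P) :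
    cf (w.map (pN n σ)) (rn n σ g) = cf w g := by
  refine ind_mon (C := fun g => cf (w.map (pN n σ)) (rn n σ g) = cf w g) ?_ ?_ ?_ ?_ g
  · show cf _ (rn n σ 0) = cf w 0
    rw [map_zero, k3b_zero, k3b_zero]
  · intro f g hf hg
    rw [map_add, cf_add, cf_add, hf, hg]
  · intro c f hf
    rw [map_zsmul, cf_smul, cf_smul, hf]
  · intro u
    rw [rn_mon, cf_mon, cf_mon]
    by_cases h : u = w
    · rw [if_pos h, if_pos (by rw [h])]
    · rw [if_neg h, if_neg fun h' => h (List.map_injective_iff.2 (pN_inj n σ) h')]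

private theorem k3b_inv {n : ℕ} (σ : Equiv.Perm (Fin n)) (i : ℕ) : pN n σ (pN n σ⁻¹ i) = i := by
  unfold pN
  by_cases h : i < n
  · rw [dif_pos h, dif_pos (σ⁻¹ ⟨i, h⟩).2]
    simp
  · rw [dif_neg h, dif_neg h]

private theorem k3b_rn {n : ℕ} (σ : Equiv.Perm (Fin n)) (w : List ℕ) (g : P) :
    cf w (rn n σ g) = cf (w.map (pN n σ⁻¹)) g := by
  have h := k3b_rn0 σ (w.map (pN n σ⁻¹)) g
  rw [List.map_map] at h
  have h1 : pN n σ ∘ pN n σ⁻¹ = id := funext fun i => k3b_inv σ i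
  rwa [h1, List.map_id] at h

private theorem k3b_words (τ : Equiv.Perm (Fin 3)) :
    ([0,1,2].map (pN 3 τ), [1,2,0].map (pN 3 τ), [2,0,1].map (pN 3 τ),
      [1,0,2].map (pN 3 τ), [0,2,1].map (pN 3 τ), [2,1,0].map (pN 3 τ)) ∈
    ([([0,1,2],[1,2,0],[2,0,1],[1,0,2],[0,2,1],[2,1,0]),
      ([1,2,0],[2,0,1],[0,1,2],[2,1,0],[1,0,2],[0,2,1]),
      ([2,0,1],[0,1,2],[1,2,0],[0,2,1],[2,1,0],[1,0,2]),
      ([1,0,2],[0,2,1],[2,1,0],[0,1,2],[1,2,0],[2,0,1]),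
      ([0,2,1],[2,1,0],[1,0,2],[2,0,1],[0,1,2],[1,2,0]),
      ([2,1,0],[1,0,2],[0,2,1],[1,2,0],[2,0,1],[0,1,2])] :
      List (List ℕ × List ℕ × List ℕ × List ℕ × List ℕ × List ℕ)) := by
  revert τ
  decide

private theorem k3b_mulTK {n : ℕ} {K : Set P} (c : ℤ) (h : ∀ f : P, c • f ∈ K) : Mul c (TK n K) := by
  intro f hf
  have hJ : IsT (Fge (n + 1) ⊔ mulI c Pp) :=
    isT_sup (isT_Fge (n + 1) (by omega)) (isT_mulI isT_Pp c)
  refine le_TK hJ le_sup_left ?_ (Submodule.mem_sup_right ⟨f, hf, rfl⟩)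
  intro g hg hgM
  obtain ⟨r, hr, s, ⟨t, ht, rfl⟩, hrs⟩ := Submodule.mem_sup.1 hg
  have h1 : wp (fun w => w.Perm (List.range n)) g = g := wp_id hgM
  have h2 : wp (fun w => w.Perm (List.range n)) r = 0 := by
    have h0 : Fge (n + 1) ≤ LinearMap.ker (wp (fun w => w.Perm (List.range n))) := by
      refine Submodule.span_le.2 ?_
      rintro x ⟨w, hw, rfl⟩
      refine LinearMap.mem_ker.2 (wp_neg fun h3 => ?_)
      have h4 := h3.length_eq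
      rw [List.length_range] at h4
      omega
    exact LinearMap.mem_ker.1 (h0 hr)
  rw [← h1, ← hrs, map_add, h2, zero_add]
  have h3 : wp (fun w => w.Perm (List.range n)) ((LinearMap.lsmul ℤ P c) t) =
      c • wp (fun w => w.Perm (List.range n)) t := map_smul _ _ _
  rw [h3]
  exact h _

private theorem k3b_perm {w : List ℕ} (h : w.Perm (List.range 3)) :
    w = [0,1,2] ∨ w = [1,2,0] ∨ w = [2,0,1] ∨ w = [1,0,2] ∨ w = [0,2,1] ∨ w = [2,1,0] := by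
  have h1 : w ∈ (List.range 3).permutations' := List.mem_permutations'.2 h
  have h2 : (List.range 3).permutations' = [[0,1,2],[1,0,2],[1,2,0],[0,2,1],[2,0,1],[2,1,0]] := by decide
  rw [h2] at h1
  simp only [List.mem_cons, List.not_mem_nil, or_false] at h1
  tauto

private theorem k3b_dec {g : P} (hg : g ∈ Ml 3) :
    g = cf [0,1,2] g • mon [0,1,2] + cf [1,2,0] g • mon [1,2,0] + cf [2,0,1] g • mon [2,0,1] +
      cf [1,0,2] g • mon [1,0,2] + cf [0,2,1] g • mon [0,2,1] + cf [2,1,0] g • mon [2,1,0] := by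
  refine Ml_ind (n := 3) (C := fun g => g = cf [0,1,2] g • mon [0,1,2] + cf [1,2,0] g • mon [1,2,0] +
    cf [2,0,1] g • mon [2,0,1] + cf [1,0,2] g • mon [1,0,2] + cf [0,2,1] g • mon [0,2,1] +
    cf [2,1,0] g • mon [2,1,0]) ?_ ?_ ?_ ?_ hg
  · have h : ∀ w : List ℕ, cf w (0 : P) = 0 := fun w => by
      have h := cf_smul w 0 (0 : P)
      rwa [zero_smul, zero_mul] at h
    simp only [h, zero_smul, add_zero]
  · intro f g hf hg
    simp only [cf_add, add_smul]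
    calc f + g = _ := congrArg₂ (fun a b : P => a + b) hf hg
      _ = _ := by
        show _ + _ = _
        abel
  · intro c f hf
    simp only [cf_smul, mul_smul, ← smul_add]
    rw [← hf]
  · intro w hw
    rcases k3b_perm hw with rfl | rfl | rfl | rfl | rfl | rfl <;> simp [cf_mon]

theorem M3_words {g : P} (hg : g ∈ Ml 3) :
    g = e1 g • (X 0 * X 1 * X 2) + e2 g • (X 1 * X 2 * X 0) + e3 g • (X 2 * X 0 * X 1) +
      o1 g • (X 1 * X 0 * X 2) + o2 g • (X 0 * X 2 * X 1) + o3 g • (X 2 * X 1 * X 0) := by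
  have h := k3b_dec hg
  simp only [mon_cons, mon_nil, mul_one, ← mul_assoc] at h
  exact h

theorem KM_add : AddS KM := by
  refine ⟨?_, fun f hf g hg => ?_, fun f hf => ?_⟩
  · show _ ∧ _ ∧ _ ∧ _
    simp only [e1, e2, e3, o1, o2, o3]
    simp only [k3b_zero]
    norm_num
  · obtain ⟨a1, a2, a3, a4⟩ := hf
    obtain ⟨b1, b2, b3, b4⟩ := hg
    simp only [e1, e2, e3, o1, o2, o3] at a1 a2 a3 a4 b1 b2 b3 b4
    show _ ∧ _ ∧ _ ∧ _
    simp only [e1, e2, e3, o1, o2, o3]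
    simp only [cf_add]
    refine ⟨?_, ?_, ?_, ?_⟩ <;> omega
  · obtain ⟨a1, a2, a3, a4⟩ := hf
    simp only [e1, e2, e3, o1, o2, o3] at a1 a2 a3 a4
    show _ ∧ _ ∧ _ ∧ _
    simp only [e1, e2, e3, o1, o2, o3]
    simp only [k3b_neg]
    refine ⟨?_, ?_, ?_, ?_⟩ <;> omega

theorem KE_add : AddS KE := by
  refine ⟨?_, fun f hf g hg => ?_, fun f hf => ?_⟩
  · show _ ∧ _ ∧ _ ∧ _
    simp only [e1, e2, e3, o1, o2, o3]
    simp only [k3b_zero]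
    norm_num
  · obtain ⟨a1, a2, a3, a4⟩ := hf
    obtain ⟨b1, b2, b3, b4⟩ := hg
    simp only [e1, e2, e3, o1, o2, o3] at a1 a2 a3 a4 b1 b2 b3 b4
    show _ ∧ _ ∧ _ ∧ _
    simp only [e1, e2, e3, o1, o2, o3]
    simp only [cf_add]
    refine ⟨?_, ?_, ?_, ?_⟩ <;> omega
  · obtain ⟨a1, a2, a3, a4⟩ := hf
    simp only [e1, e2, e3, o1, o2, o3] at a1 a2 a3 a4
    show _ ∧ _ ∧ _ ∧ _
    simp only [e1, e2, e3, o1, o2, o3]
    simp only [k3b_neg]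
    refine ⟨?_, ?_, ?_, ?_⟩ <;> omega

theorem KF_add : AddS KF := by
  refine ⟨?_, fun f hf g hg => ?_, fun f hf => ?_⟩
  · show _ ∧ _ ∧ _ ∧ _
    simp only [e1, e2, e3, o1, o2, o3]
    simp only [k3b_zero]
    norm_num
  · obtain ⟨a1, a2, a3, a4⟩ := hf
    obtain ⟨b1, b2, b3, b4⟩ := hg
    simp only [e1, e2, e3, o1, o2, o3] at a1 a2 a3 a4 b1 b2 b3 b4
    show _ ∧ _ ∧ _ ∧ _
    simp only [e1, e2, e3, o1, o2, o3]
    simp only [cf_add]
    refine ⟨?_, ?_, ?_, ?_⟩ <;> omega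
  · obtain ⟨a1, a2, a3, a4⟩ := hf
    simp only [e1, e2, e3, o1, o2, o3] at a1 a2 a3 a4
    show _ ∧ _ ∧ _ ∧ _
    simp only [e1, e2, e3, o1, o2, o3]
    simp only [k3b_neg]
    refine ⟨?_, ?_, ?_, ?_⟩ <;> omega

theorem KM_rn {g : P} (hg : g ∈ Ml 3) (h : g ∈ KM) (σ : Equiv.Perm (Fin 3)) : rn 3 σ g ∈ KM := by
  obtain ⟨a1, a2, a3, a4⟩ := h
  simp only [e1, e2, e3, o1, o2, o3] at a1 a2 a3 a4
  show _ ∧ _ ∧ _ ∧ _
  simp only [e1, e2, e3, o1, o2, o3]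
  rw [k3b_rn, k3b_rn, k3b_rn, k3b_rn, k3b_rn, k3b_rn]
  have h1 := k3b_words σ⁻¹
  simp only [List.mem_cons, List.not_mem_nil, or_false, Prod.mk.injEq] at h1
  rcases h1 with h1 | h1 | h1 | h1 | h1 | h1 <;>
  · obtain ⟨w1, w2, w3, w4, w5, w6⟩ := h1
    rw [w1, w2, w3, w4, w5, w6]
    refine ⟨?_, ?_, ?_, ?_⟩ <;> omega

theorem KE_rn {g : P} (hg : g ∈ Ml 3) (h : g ∈ KE) (σ : Equiv.Perm (Fin 3)) : rn 3 σ g ∈ KE := by
  obtain ⟨a1, a2, a3, a4⟩ := h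
  simp only [e1, e2, e3, o1, o2, o3] at a1 a2 a3 a4
  show _ ∧ _ ∧ _ ∧ _
  simp only [e1, e2, e3, o1, o2, o3]
  rw [k3b_rn, k3b_rn, k3b_rn, k3b_rn, k3b_rn, k3b_rn]
  have h1 := k3b_words σ⁻¹
  simp only [List.mem_cons, List.not_mem_nil, or_false, Prod.mk.injEq] at h1
  rcases h1 with h1 | h1 | h1 | h1 | h1 | h1 <;>
  · obtain ⟨w1, w2, w3, w4, w5, w6⟩ := h1
    rw [w1, w2, w3, w4, w5, w6]
    refine ⟨?_, ?_, ?_, ?_⟩ <;> omega

theorem KF_rn {g : P} (hg : g ∈ Ml 3) (h : g ∈ KF) (σ : Equiv.Perm (Fin 3)) : rn 3 σ g ∈ KF := by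
  obtain ⟨a1, a2, a3, a4⟩ := h
  simp only [e1, e2, e3, o1, o2, o3] at a1 a2 a3 a4
  show _ ∧ _ ∧ _ ∧ _
  simp only [e1, e2, e3, o1, o2, o3]
  rw [k3b_rn, k3b_rn, k3b_rn, k3b_rn, k3b_rn, k3b_rn]
  have h1 := k3b_words σ⁻¹
  simp only [List.mem_cons, List.not_mem_nil, or_false, Prod.mk.injEq] at h1
  rcases h1 with h1 | h1 | h1 | h1 | h1 | h1 <;>
  · obtain ⟨w1, w2, w3, w4, w5, w6⟩ := h1
    rw [w1, w2, w3, w4, w5, w6]
    refine ⟨?_, ?_, ?_, ?_⟩ <;> omega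

theorem TM_isT : IsT TM := TK_isT (by norm_num) KM_add
theorem TE_isT : IsT TE := TK_isT (by norm_num) KE_add
theorem TF_isT : IsT TF := TK_isT (by norm_num) KF_add

theorem TM_Fge : Fge 4 ≤ TM := Fge_le_TK (by norm_num) KM_add
theorem TE_Fge : Fge 4 ≤ TE := Fge_le_TK (by norm_num) KE_add
theorem TF_Fge : Fge 4 ≤ TF := Fge_le_TK (by norm_num) KF_add

theorem TM_p : Mul 3 TM := by
  refine k3b_mulTK (3 : ℤ) fun f => ?_
  show _ ∧ _ ∧ _ ∧ _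
  simp only [e1, e2, e3, o1, o2, o3]
  simp only [cf_smul]
  refine ⟨?_, ?_, ?_, ?_⟩ <;> omega

theorem TE_sq : Mul 9 TE := by
  refine k3b_mulTK (9 : ℤ) fun f => ?_
  show _ ∧ _ ∧ _ ∧ _
  simp only [e1, e2, e3, o1, o2, o3]
  simp only [cf_smul]
  refine ⟨?_, ?_, ?_, ?_⟩ <;> omega

theorem TF_sq : Mul 9 TF := by
  refine k3b_mulTK (9 : ℤ) fun f => ?_
  show _ ∧ _ ∧ _ ∧ _
  simp only [e1, e2, e3, o1, o2, o3]
  simp only [cf_smul]
  refine ⟨?_, ?_, ?_, ?_⟩ <;> omega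

end ADP
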