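import Pool.Agent.ADP.K2
import Pool.Agent.ADP.K3b
import Pool.Agent.ADC.TOpW

/-!
# ADP-B1: `p = 2`, the three types modulo `Fge 4`

`T` a T-ideal with `2 P⁺ ≤ T`, `Fge 4 ≤ T` (`T = J ⊔ Fge 4`).  `x = X 0`, `z = X 1`, `y = X 2` in `La`, `Lb`:
`La = [x,y]z + [z,y]x`, `Lb = x[z,y] + z[x,y]`; signs do not matter modulo `2 P⁺`.
* `wEx`: `¬ T ≤ WP 2`: there is `v ∈ T ∩ Ml 3` not in `KW 2` (`le_TK`).  Modulo 2; coordinates `e1, e2, e3, o1, o2, o3` (ADP.K3).  `v + ρ v` (`ρ` the rotation `rn 3 (x_0→x_1→x_2→x_0)`) has coordinates `(e1+e3, e2+e1, e3+e2; ...)`: so we may assume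
  `e1+e2+e3 ≡ 0`, `o1+o2+o3 ≡ 0` and `v ≢ 0` (`v ∉ KW 2` says that `v + ρ v ≢ 0`).  These `v` form `V ⊕ V` (dimension 4 over `F_2`), the three submodules isomorphic to `V` are spanned by the renamed `La`, `Lb`, `La + Lb`; each nonzero `v`
  generates one of them or everything: 15 vectors, each with an explicit combination of renamed copies.
* `nEx`: `¬ T ≤ TN`: some `g ∈ T` has an odd functional (`le_LT`).  Project on the words in exactly the letters `0, 1` (T-operators `TOp_lt`, `TOp_full` for `p = 2`; `Mul 4 T`).  If `cf [0,1] g` or `cf [1,0] g` is odd: both odd: `xy + yx ∈ T ⊔ Fge 3`, so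
  `cm 0 1 ∈ T ⊔ Fge 3`; one odd: `xy` and (renamed) `yx ∈ T ⊔ Fge 3`.  Otherwise both are even and `ct 2 1 g + ct 1 2 g` is odd; renaming `0 ↔ 1` we may assume `ct 2 1 g` odd, `ct 1 2 g` even: modulo `2 P⁺ ⊔ Fge 4` `g ≡ a1 xxy + a2 xyx + a3 yxx + b1 xyy + b2 yxy + b3 yyx`,
  `a1+a2+a3` odd, `b1+b2+b3` even: `= x^2 y + e1 [x,y]x + e2 x[x,y] + e3 [x,y]y + e4 y[x,y]` with integers `e_i` (modulo 2).
* `tri`: from `h = x^2 y + e1 [x,y]x + e2 x[x,y] + e3 [x,y]y + e4 y[x,y] ∈ T` and one of `La, Lb, La + Lb ∈ T`.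
  (1) linearise `x` (`x ↦ x + z`, minus the two pure parts: T-operator of substitutions; `x = X 0`, new letter `X 2` or any): `[x,z]y + e1 La' + e2 Lb' ∈ T` (`La' = [x,y]z + [z,y]x`, `Lb' = x[z,y] + z[x,y]`); sum over the three cyclic renamings: `s = sum of all six
  words ∈ T`; since `[x,z]y ≡ s + La'` modulo 2: `(1 + e1) La' + e2 Lb' ∈ T`.   (2) linearise `y`: `e3 La + e4 Lb ∈ T` (in renamed variables).
  (3) If `La, Lb ∈ T`: `[x,y]z ≡ s + La ∈ T` (renamed), so `h` gives `x^2 y ∈ T`: (a).  If `La ∈ T`, `Lb ∉ T`: `2 ∣ e2`, `2 ∣ e4`, `[x,y]z ≡ s + La ∈ T`, so `x^2 y ∈ T`: (a).  If `Lb ∈ T`, `La ∉ T`: `2 ∣ 1 + e1`, `2 ∣ e3`, `z[x,y] ≡ s + Lb ∈ T`, `h ≡ x^2 y + [x,y] x ≡ xxy + xyx + yxx`,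
  `xxy - xyx = x[x,y] ∈ T`: `y x^2 ∈ T`: (b).  If `La + Lb ∈ T`, `La ∉ T`: `e2 ≡ 1 + e1`, `e4 ≡ e3`; `D(x,y,z) = [x,[y,z]]` is modulo `T` symmetric in `x, z`.. (`La + Lb ≡ [x,[z,y]] + [z,[x,y]]`), hence totally symmetric, and the Jacobi identity gives `3 D ∈ T`, `D ∈ T`;
  `h ≡ xxy + xyx + yxx` (as `[x,y]x ≡ x[x,y]`, `[x,y]y ≡ y[x,y]`), `D(x,x,y) ≡ xxy + yxx ∈ T`, so `xyx ∈ T`: (c).
-/

namespace ADP

open AD ADN ADC

noncomputable def La : P := cm 0 2 * X 1 + cm 1 2 * X 0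
noncomputable def Lb : P := X 0 * cm 1 2 + X 1 * cm 0 2

/-- the identity of degree 3 used for `N_2` -/
noncomputable def hh (a b c d : ℤ) : P := X 0 ^ 2 * X 1 + a • (cm 0 1 * X 0) + b • (X 0 * cm 0 1) +
  c • (cm 0 1 * X 1) + d • (X 1 * cm 0 1)

private noncomputable def Mem (T : Submodule ℤ P) (W : Fin 6 → P) (b : Fin 6 → Bool) : Prop :=
  ∑ i, (if b i then (1 : ℤ) else 0) • W i ∈ T

private noncomputable def W3 (x y z : P) : Fin 6 → P :=
  ![x * y * z, y * z * x, z * x * y, y * x * z, x * z * y, z * y * x]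

private noncomputable def W2 (x y : P) : Fin 6 → P :=
  ![x * x * y, x * y * x, y * x * x, x * y * y, y * x * y, y * y * x]

private theorem mulPp {f g : P} (hf : f ∈ Pp) : f * g ∈ Pp := isT_Pp.mul_right f hf g

private theorem W3_mem {x y z : P} (hx : x ∈ Pp) (hy : y ∈ Pp) (hz : z ∈ Pp) (i : Fin 6) : W3 x y z i ∈ Pp := by
  fin_cases i
  · exact mulPp (mulPp hx)
  · exact mulPp (mulPp hy)
  · exact mulPp (mulPp hz)
  · exact mulPp (mulPp hy)
  · exact mulPp (mulPp hx)
  · exact mulPp (mulPp hz)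

private theorem W2_mem {x y : P} (hx : x ∈ Pp) (hy : y ∈ Pp) (i : Fin 6) : W2 x y i ∈ Pp := by
  fin_cases i
  · exact mulPp (mulPp hx)
  · exact mulPp (mulPp hx)
  · exact mulPp (mulPp hy)
  · exact mulPp (mulPp hx)
  · exact mulPp (mulPp hy)
  · exact mulPp (mulPp hy)

private theorem par {T : Submodule ℤ P} (hm : Mul 2 T) {W : Fin 6 → P} (hW : ∀ i, W i ∈ Pp) {c : Fin 6 → ℤ}
    {b : Fin 6 → Bool} (hb : ∀ i, (2 : ℤ) ∣ c i - (if b i then (1 : ℤ) else 0)) :
    ∑ i, c i • W i ∈ T ↔ Mem T W b := by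
  have h : ∑ i, c i • W i - ∑ i, (if b i then (1 : ℤ) else 0) • W i ∈ T := by
    rw [← Finset.sum_sub_distrib]
    refine Submodule.sum_mem _ fun i _ => ?_
    obtain ⟨k, hk⟩ := hb i
    rw [← sub_smul, hk, mul_smul]
    exact hm _ (Pp.smul_mem _ (hW i))
  constructor
  · intro h1
    have h2 := T.sub_mem h1 h
    rwa [sub_sub_cancel] at h2
  · intro h1
    have h2 := T.add_mem h h1
    rwa [sub_add_cancel] at h2

private theorem xr {T : Submodule ℤ P} (hm : Mul 2 T) {W : Fin 6 → P} (hW : ∀ i, W i ∈ Pp)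
    {b b' : Fin 6 → Bool} (h : Mem T W b) (h' : Mem T W b') : Mem T W (fun i => xor (b i) (b' i)) := by
  have h1 := T.add_mem h h'
  rw [← Finset.sum_add_distrib] at h1
  simp only [← add_smul] at h1
  refine (par hm hW ?_).1 h1
  intro i
  cases b i <;> cases b' i <;> simp

private theorem cg {T : Submodule ℤ P} {W : Fin 6 → P} {b b' : Fin 6 → Bool} (h : Mem T W b) (e : b = b') :
    Mem T W b' := e ▸ h

private noncomputable def sb3 (x y z : P) : P →ₐ[ℤ] P :=
  sb (fun i => if i = 0 then x else if i = 1 then y else if i = 2 then z else X i)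

private theorem sb3_0 (x y z : P) : sb3 x y z (X 0) = x := by
  unfold sb3; rw [sb_X]; simp

private theorem sb3_1 (x y z : P) : sb3 x y z (X 1) = y := by
  unfold sb3; rw [sb_X]; simp

private theorem sb3_2 (x y z : P) : sb3 x y z (X 2) = z := by
  unfold sb3; rw [sb_X]; simp

private theorem sb3_mem {T : Submodule ℤ P} (hT : IsT T) {x y z : P} (hx : x ∈ Pp) (hy : y ∈ Pp) (hz : z ∈ Pp)
    {f : P} (hf : f ∈ T) : sb3 x y z f ∈ T := by
  refine sb_mem hT (fun i => ?_) hf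
  show (if i = 0 then x else if i = 1 then y else if i = 2 then z else X i) ∈ Pp
  split_ifs
  · exact hx
  · exact hy
  · exact hz
  · exact X_mem i

private theorem sb3_W3 (x y z : P) (i : Fin 6) : sb3 x y z (W3 (X 0) (X 1) (X 2) i) = W3 x y z i := by
  fin_cases i <;> simp only [W3, Fin.reduceFinMk, Matrix.cons_val] <;>
    simp only [map_mul, sb3_0, sb3_1, sb3_2]

private theorem sb3_W2 (x y z : P) (i : Fin 6) : sb3 x y z (W2 (X 0) (X 1) i) = W2 x y i := by
  fin_cases i <;> simp only [W2, Fin.reduceFinMk, Matrix.cons_val] <;>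
    simp only [map_mul, sb3_0, sb3_1]

private theorem sb3_Mem3 {T : Submodule ℤ P} (hT : IsT T) {x y z : P} (hx : x ∈ Pp) (hy : y ∈ Pp) (hz : z ∈ Pp)
    {b : Fin 6 → Bool} (h : Mem T (W3 (X 0) (X 1) (X 2)) b) : Mem T (W3 x y z) b := by
  have h1 := sb3_mem hT hx hy hz h
  rw [map_sum] at h1
  simp only [map_zsmul, sb3_W3] at h1
  exact h1

private theorem sb3_Mem2 {T : Submodule ℤ P} (hT : IsT T) {x y : P} (hx : x ∈ Pp) (hy : y ∈ Pp)
    {b : Fin 6 → Bool} (h : Mem T (W2 (X 0) (X 1)) b) : Mem T (W2 x y) b := by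
  have h1 := sb3_mem hT hx hy (X_mem 2) h
  rw [map_sum] at h1
  simp only [map_zsmul, sb3_W2] at h1
  exact h1

/-- reindexing by a permutation -/
private theorem rei {T : Submodule ℤ P} {W W' : Fin 6 → P} {π : Fin 6 → Fin 6} (hπ : Function.Bijective π)
    (hW : ∀ i, W' i = W (π i)) {b : Fin 6 → Bool} (h : Mem T W' b) {b' : Fin 6 → Bool}
    (hb : ∀ i, b i = b' (π i)) : Mem T W b' := by
  unfold Mem at h ⊢
  have h1 : ∑ i, (if b i then (1 : ℤ) else 0) • W' i = ∑ i, (if b' i then (1 : ℤ) else 0) • W i := by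
    rw [← hπ.sum_comp (fun j => (if b' j then (1 : ℤ) else 0) • W j)]
    refine Finset.sum_congr rfl fun i _ => ?_
    rw [hb, hW]
  rwa [h1] at h

private theorem m3 (i : Fin 6) : W3 (X 0) (X 1) (X 2) i ∈ Pp := W3_mem (X_mem 0) (X_mem 1) (X_mem 2) i

private theorem m2 (i : Fin 6) : W2 (X 0) (X 1) i ∈ Pp := W2_mem (X_mem 0) (X_mem 1) i

private theorem r021 {T : Submodule ℤ P} (hT : IsT T) {b : Fin 6 → Bool} (h : Mem T (W3 (X 0) (X 1) (X 2)) b) :
    Mem T (W3 (X 0) (X 1) (X 2)) ![b 4, b 5, b 3, b 2, b 0, b 1] := by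
  refine rei (π := ![4,5,3,2,0,1]) (by decide) ?_ (sb3_Mem3 hT (X_mem 0) (X_mem 2) (X_mem 1) h) ?_
  · intro i; fin_cases i <;> rfl
  · intro i; fin_cases i <;> rfl

private theorem r102 {T : Submodule ℤ P} (hT : IsT T) {b : Fin 6 → Bool} (h : Mem T (W3 (X 0) (X 1) (X 2)) b) :
    Mem T (W3 (X 0) (X 1) (X 2)) ![b 3, b 4, b 5, b 0, b 1, b 2] := by
  refine rei (π := ![3,4,5,0,1,2]) (by decide) ?_ (sb3_Mem3 hT (X_mem 1) (X_mem 0) (X_mem 2) h) ?_
  · intro i; fin_cases i <;> rfl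
  · intro i; fin_cases i <;> rfl

private theorem r210 {T : Submodule ℤ P} (hT : IsT T) {b : Fin 6 → Bool} (h : Mem T (W3 (X 0) (X 1) (X 2)) b) :
    Mem T (W3 (X 0) (X 1) (X 2)) ![b 5, b 3, b 4, b 1, b 2, b 0] := by
  refine rei (π := ![5,3,4,1,2,0]) (by decide) ?_ (sb3_Mem3 hT (X_mem 2) (X_mem 1) (X_mem 0) h) ?_
  · intro i; fin_cases i <;> rfl
  · intro i; fin_cases i <;> rfl

private theorem r120 {T : Submodule ℤ P} (hT : IsT T) {b : Fin 6 → Bool} (h : Mem T (W3 (X 0) (X 1) (X 2)) b) :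
    Mem T (W3 (X 0) (X 1) (X 2)) ![b 2, b 0, b 1, b 4, b 5, b 3] := by
  refine rei (π := ![1,2,0,5,3,4]) (by decide) ?_ (sb3_Mem3 hT (X_mem 1) (X_mem 2) (X_mem 0) h) ?_
  · intro i; fin_cases i <;> rfl
  · intro i; fin_cases i <;> rfl

private theorem r201 {T : Submodule ℤ P} (hT : IsT T) {b : Fin 6 → Bool} (h : Mem T (W3 (X 0) (X 1) (X 2)) b) :
    Mem T (W3 (X 0) (X 1) (X 2)) ![b 1, b 2, b 0, b 5, b 3, b 4] := by
  refine rei (π := ![2,0,1,4,5,3]) (by decide) ?_ (sb3_Mem3 hT (X_mem 2) (X_mem 0) (X_mem 1) h) ?_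
  · intro i; fin_cases i <;> rfl
  · intro i; fin_cases i <;> rfl

private theorem La_iff {T : Submodule ℤ P} (hm : Mul 2 T) :
    La ∈ T ↔ Mem T (W3 (X 0) (X 1) (X 2)) ![false, true, true, false, true, true] := by
  rw [← par hm m3 (c := ![0, 1, -1, 0, 1, -1]) (by decide)]
  have h : La = ∑ i, ((![0, 1, -1, 0, 1, -1] : Fin 6 → ℤ) i) • W3 (X 0) (X 1) (X 2) i := by
    simp only [Fin.sum_univ_six, W3, La, cm, Matrix.cons_val, zero_smul, add_zero, zero_add]
    noncomm_ring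
  rw [h]

private theorem Lb_iff {T : Submodule ℤ P} (hm : Mul 2 T) :
    Lb ∈ T ↔ Mem T (W3 (X 0) (X 1) (X 2)) ![true, true, false, true, true, false] := by
  rw [← par hm m3 (c := ![1, -1, 0, 1, -1, 0]) (by decide)]
  have h : Lb = ∑ i, ((![1, -1, 0, 1, -1, 0] : Fin 6 → ℤ) i) • W3 (X 0) (X 1) (X 2) i := by
    simp only [Fin.sum_univ_six, W3, Lb, cm, Matrix.cons_val, zero_smul, add_zero]
    noncomm_ring
  rw [h]

private theorem Lc_iff {T : Submodule ℤ P} (hm : Mul 2 T) :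
    La + Lb ∈ T ↔ Mem T (W3 (X 0) (X 1) (X 2)) ![true, false, true, true, false, true] := by
  rw [← par hm m3 (c := ![1, 0, -1, 1, 0, -1]) (by decide)]
  have h : La + Lb = ∑ i, ((![1, 0, -1, 1, 0, -1] : Fin 6 → ℤ) i) • W3 (X 0) (X 1) (X 2) i := by
    simp only [Fin.sum_univ_six, W3, La, Lb, cm, Matrix.cons_val, zero_smul, add_zero]
    noncomm_ring
  rw [h]

private def sA (b0 b1 b2 b3 b4 b5 : Bool) : Fin 6 → Bool := fun i =>
  xor (xor (xor ((![b4, b5, b3, b2, b0, b1] : Fin 6 → Bool) i) ((![b2, b0, b1, b4, b5, b3] : Fin 6 → Bool) i))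
    ((![b1, b2, b0, b5, b3, b4] : Fin 6 → Bool) i)) ((![b5, b3, b4, b1, b2, b0] : Fin 6 → Bool) i)

private def sB (b0 b1 b2 b3 b4 b5 : Bool) : Fin 6 → Bool := fun i =>
  xor ((![b2, b0, b1, b4, b5, b3] : Fin 6 → Bool) i) ((![b1, b2, b0, b5, b3, b4] : Fin 6 → Bool) i)

private theorem wdec : ∀ b0 b1 b2 b3 b4 b5 : Bool, ¬ ((b0 = b1 ∧ b0 = b2) ∧ b3 = b4 ∧ b3 = b5) →
    (sA b0 b1 b2 b3 b4 b5 = ![false, true, true, false, true, true] ∨
      sA b0 b1 b2 b3 b4 b5 = ![true, true, false, true, true, false] ∨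
      sA b0 b1 b2 b3 b4 b5 = ![true, false, true, true, false, true]) ∨
    (sB b0 b1 b2 b3 b4 b5 = ![false, true, true, false, true, true] ∨
      sB b0 b1 b2 b3 b4 b5 = ![true, true, false, true, true, false] ∨
      sB b0 b1 b2 b3 b4 b5 = ![true, false, true, true, false, true]) := by
  decide

theorem wEx {T : Submodule ℤ P} (hT : IsT T) (hm : Mul 2 T) (hF : Fge 4 ≤ T) (h : ¬ T ≤ WP 2) :
    La ∈ T ∨ Lb ∈ T ∨ La + Lb ∈ T := by
  by_contra hcon
  apply h
  refine le_TK hT hF fun g hg hM => ?_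
  by_contra hK
  have hw := M3_words hM
  set c : Fin 6 → ℤ := ![e1 g, e2 g, e3 g, o1 g, o2 g, o3 g] with hc
  have h1 : ∑ i, c i • W3 (X 0) (X 1) (X 2) i ∈ T := by
    have h2 : ∑ i, c i • W3 (X 0) (X 1) (X 2) i = g := by
      rw [hw, Fin.sum_univ_six]
      rfl
    rwa [h2]
  rw [par hm m3 (b := fun i => decide (c i % 2 = 1)) (fun i => by
    by_cases h3 : c i % 2 = 1
    · simp only [h3, decide_true, if_true]; omega
    · simp only [h3, decide_false]; simp; omega)] at h1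
  set b : Fin 6 → Bool := fun i => decide (c i % 2 = 1) with hb
  have hS := wdec (b 0) (b 1) (b 2) (b 3) (b 4) (b 5) (by
    rintro ⟨⟨k1, k2⟩, k3, k4⟩
    apply hK
    have q0 : c 0 = cf [0,1,2] g := rfl
    have q1 : c 1 = cf [1,2,0] g := rfl
    have q2 : c 2 = cf [2,0,1] g := rfl
    have q3 : c 3 = cf [1,0,2] g := rfl
    have q4 : c 4 = cf [0,2,1] g := rfl
    have q5 : c 5 = cf [2,1,0] g := rfl
    simp only [hb, q0, q1, q2, q3, q4, q5, decide_eq_decide] at k1 k2 k3 k4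
    show _ ∧ _ ∧ _ ∧ _
    refine ⟨?_, ?_, ?_, ?_⟩ <;> push_cast <;> omega)
  have hA : Mem T (W3 (X 0) (X 1) (X 2)) (sA (b 0) (b 1) (b 2) (b 3) (b 4) (b 5)) :=
    xr hm m3 (xr hm m3 (xr hm m3 (r021 hT h1) (r120 hT h1)) (r201 hT h1)) (r210 hT h1)
  have hB : Mem T (W3 (X 0) (X 1) (X 2)) (sB (b 0) (b 1) (b 2) (b 3) (b 4) (b 5)) :=
    xr hm m3 (r120 hT h1) (r201 hT h1)
  apply hcon
  rw [La_iff hm, Lb_iff hm, Lc_iff hm]
  rcases hS with (h4 | h4 | h4) | (h4 | h4 | h4)
  · exact Or.inl (h4 ▸ hA)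
  · exact Or.inr (Or.inl (h4 ▸ hA))
  · exact Or.inr (Or.inr (h4 ▸ hA))
  · exact Or.inl (h4 ▸ hB)
  · exact Or.inr (Or.inl (h4 ▸ hB))
  · exact Or.inr (Or.inr (h4 ▸ hB))

/-- linearisation of `x` and of `y` -/
private theorem lin1 {T : Submodule ℤ P} (hT : IsT T) (hm : Mul 2 T) {b : Fin 6 → Bool}
    (h : Mem T (W2 (X 0) (X 1)) b) :
    Mem T (W3 (X 0) (X 1) (X 2)) ![b 1, b 2, b 0, b 2, b 0, b 1] := by
  have h1 := sb3_Mem2 hT (x := X 0 + X 2) (y := X 1) (Pp.add_mem (X_mem 0) (X_mem 2)) (X_mem 1) h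
  have h2 := sb3_Mem2 hT (x := X 2) (y := X 1) (X_mem 2) (X_mem 1) h
  have h3 := T.sub_mem (T.sub_mem h1 h) h2
  have e : ∀ c : Fin 6 → ℤ, (∑ i, c i • W2 (X 0 + X 2) (X 1) i - ∑ i, c i • W2 (X 0) (X 1) i) -
      ∑ i, c i • W2 (X 2) (X 1) i =
      ∑ i, ((![c 1, c 2, c 0, c 2, c 0, c 1] : Fin 6 → ℤ) i) • W3 (X 0) (X 1) (X 2) i := by
    intro c
    simp only [Fin.sum_univ_six, W3, W2, Matrix.cons_val]
    simp only [mul_add, add_mul, smul_add]
    module
  rw [e (fun i => if b i then (1 : ℤ) else 0)] at h3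
  refine (par hm m3 ?_).1 h3
  intro i
  fin_cases i <;> exact ⟨0, sub_self _⟩

private theorem lin2 {T : Submodule ℤ P} (hT : IsT T) (hm : Mul 2 T) {b : Fin 6 → Bool}
    (h : Mem T (W2 (X 0) (X 1)) b) :
    Mem T (W3 (X 0) (X 1) (X 2)) ![b 3, b 5, b 4, b 4, b 3, b 5] := by
  have h1 := sb3_Mem2 hT (x := X 0) (y := X 1 + X 2) (X_mem 0) (Pp.add_mem (X_mem 1) (X_mem 2)) h
  have h2 := sb3_Mem2 hT (x := X 0) (y := X 2) (X_mem 0) (X_mem 2) h
  have h3 := T.sub_mem (T.sub_mem h1 h) h2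
  have e : ∀ c : Fin 6 → ℤ, (∑ i, c i • W2 (X 0) (X 1 + X 2) i - ∑ i, c i • W2 (X 0) (X 1) i) -
      ∑ i, c i • W2 (X 0) (X 2) i =
      ∑ i, ((![c 3, c 5, c 4, c 4, c 3, c 5] : Fin 6 → ℤ) i) • W3 (X 0) (X 1) (X 2) i := by
    intro c
    simp only [Fin.sum_univ_six, W3, W2, Matrix.cons_val]
    simp only [mul_add, add_mul, smul_add]
    module
  rw [e (fun i => if b i then (1 : ℤ) else 0)] at h3
  refine (par hm m3 ?_).1 h3
  intro i
  fin_cases i <;> exact ⟨0, sub_self _⟩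

/-- specialisation `z ↦ y` -/
private theorem spc {T : Submodule ℤ P} (hT : IsT T) (hm : Mul 2 T) {b : Fin 6 → Bool}
    (h : Mem T (W3 (X 0) (X 1) (X 2)) b) :
    Mem T (W2 (X 0) (X 1)) ![false, false, false, xor (b 0) (b 4), xor (b 2) (b 3), xor (b 1) (b 5)] := by
  have h1 := sb3_Mem3 hT (X_mem 0) (X_mem 1) (X_mem 1) h
  have e : ∑ i, (if b i then (1 : ℤ) else 0) • W3 (X 0) (X 1) (X 1) i =
      ∑ i, ((![0, 0, 0, (if b 0 then (1 : ℤ) else 0) + (if b 4 then (1 : ℤ) else 0),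
        (if b 2 then (1 : ℤ) else 0) + (if b 3 then (1 : ℤ) else 0),
        (if b 1 then (1 : ℤ) else 0) + (if b 5 then (1 : ℤ) else 0)] : Fin 6 → ℤ) i) • W2 (X 0) (X 1) i := by
    simp only [Fin.sum_univ_six, W3, W2, Matrix.cons_val]
    module
  unfold Mem at h1
  rw [e] at h1
  refine (par hm m2 ?_).1 h1
  intro i
  fin_cases i
  · exact dvd_zero _
  · exact dvd_zero _
  · exact dvd_zero _
  · show (2 : ℤ) ∣ ((if b 0 then (1 : ℤ) else 0) + (if b 4 then (1 : ℤ) else 0)) -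
      (if xor (b 0) (b 4) then (1 : ℤ) else 0)
    cases b 0 <;> cases b 4 <;> decide
  · show (2 : ℤ) ∣ ((if b 2 then (1 : ℤ) else 0) + (if b 3 then (1 : ℤ) else 0)) -
      (if xor (b 2) (b 3) then (1 : ℤ) else 0)
    cases b 2 <;> cases b 3 <;> decide
  · show (2 : ℤ) ∣ ((if b 1 then (1 : ℤ) else 0) + (if b 5 then (1 : ℤ) else 0)) -
      (if xor (b 1) (b 5) then (1 : ℤ) else 0)
    cases b 1 <;> cases b 5 <;> decide

private theorem sw2 {T : Submodule ℤ P} (hT : IsT T) {b : Fin 6 → Bool} (h : Mem T (W2 (X 0) (X 1)) b) :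
    Mem T (W2 (X 0) (X 1)) ![b 5, b 4, b 3, b 2, b 1, b 0] := by
  refine rei (π := ![5,4,3,2,1,0]) (by decide) ?_ (sb3_Mem2 hT (X_mem 1) (X_mem 0) h) ?_
  · intro i; fin_cases i <;> rfl
  · intro i; fin_cases i <;> rfl

private def vA : Fin 6 → Bool := ![false, true, true, false, true, true]
private def vB : Fin 6 → Bool := ![true, true, false, true, true, false]
private def vC : Fin 6 → Bool := ![true, false, true, true, false, true]
private def vS : Fin 6 → Bool := ![true, true, true, true, true, true]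

private def cmb (p q : Bool) : Fin 6 → Bool := fun i => xor (p && vA i) (q && vB i)

private def hv (a b c d : Bool) : Fin 6 → Bool := ![!b, xor a b, a, c, xor c d, d]

private theorem cnd {T : Submodule ℤ P} {W : Fin 6 → P} {v : Fin 6 → Bool} (p : Bool)
    (h : p = true → Mem T W v) : Mem T W (fun i => p && v i) := by
  cases p
  · unfold Mem
    simp
  · simpa using h rfl

private theorem triA {T : Submodule ℤ P} (hT : IsT T) (hm : Mul 2 T) {a b c d : Bool}
    (h : Mem T (W2 (X 0) (X 1)) (hv a b c d)) (hS : Mem T (W3 (X 0) (X 1) (X 2)) vS)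
    (hA : Mem T (W3 (X 0) (X 1) (X 2)) vA) (hB : b = true ∨ d = true → Mem T (W3 (X 0) (X 1) (X 2)) vB) :
    Mem T (W3 (X 0) (X 1) (X 2)) ![true, false, false, true, false, false] ∧
      Mem T (W2 (X 0) (X 1)) ![true, false, false, false, false, false] := by
  have h0 : Mem T (W3 (X 0) (X 1) (X 2)) ![true, false, false, true, false, false] :=
    cg (xr hm m3 hS hA) (by decide)
  refine ⟨h0, ?_⟩
  have k1 : Mem T (W2 (X 0) (X 1)) ![false, false, false, true, true, false] :=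
    cg (spc hT hm h0) (by decide)
  have k2 : Mem T (W2 (X 0) (X 1)) ![false, true, true, false, false, false] :=
    cg (sw2 hT k1) (by decide)
  have k3 : b = true ∨ d = true → Mem T (W2 (X 0) (X 1)) ![false, false, false, false, true, true] :=
    fun q => cg (spc hT hm (hB q)) (by decide)
  have k4 : b = true ∨ d = true → Mem T (W2 (X 0) (X 1)) ![true, true, false, false, false, false] :=
    fun q => cg (sw2 hT (k3 q)) (by decide)
  refine cg (xr hm m2 (xr hm m2 (xr hm m2 (xr hm m2 h (cnd a fun _ => k2)) (cnd c fun _ => k1))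
    (cnd b fun q => k4 (Or.inl q))) (cnd d fun q => k3 (Or.inr q))) ?_
  clear * -
  revert a b c d
  decide

private theorem triB {T : Submodule ℤ P} (hT : IsT T) (hm : Mul 2 T) {b d : Bool}
    (h : Mem T (W2 (X 0) (X 1)) (hv true b false d)) (hS : Mem T (W3 (X 0) (X 1) (X 2)) vS)
    (hB : Mem T (W3 (X 0) (X 1) (X 2)) vB) :
    Mem T (W3 (X 0) (X 1) (X 2)) ![true, false, false, false, true, false] ∧
      Mem T (W2 (X 0) (X 1)) ![false, false, true, false, false, false] := by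
  have h0 : Mem T (W3 (X 0) (X 1) (X 2)) ![true, false, false, false, true, false] :=
    cg (r120 hT (xr hm m3 hS hB)) (by decide)
  refine ⟨h0, ?_⟩
  have k3 : Mem T (W2 (X 0) (X 1)) ![false, false, false, false, true, true] :=
    cg (spc hT hm hB) (by decide)
  have k4 : Mem T (W2 (X 0) (X 1)) ![true, true, false, false, false, false] :=
    cg (sw2 hT k3) (by decide)
  refine cg (xr hm m2 (xr hm m2 (xr hm m2 h (cnd b fun _ => k4)) (cnd d fun _ => k3)) k4) ?_
  clear * -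
  revert b d
  decide

private theorem triC {T : Submodule ℤ P} (hT : IsT T) (hm : Mul 2 T) {a c : Bool}
    (h : Mem T (W2 (X 0) (X 1)) (hv a (!a) c c))
    (hC : Mem T (W3 (X 0) (X 1) (X 2)) vC) :
    Mem T (W2 (X 0) (X 1)) ![false, true, false, false, false, false] ∧
      Mem T (W2 (X 0) (X 1)) ![true, false, true, false, false, false] := by
  have k3 : Mem T (W2 (X 0) (X 1)) ![false, false, false, true, false, true] :=
    cg (spc hT hm hC) (by decide)
  have k4 : Mem T (W2 (X 0) (X 1)) ![true, false, true, false, false, false] :=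
    cg (sw2 hT k3) (by decide)
  refine ⟨cg (xr hm m2 (xr hm m2 h (cnd a fun _ => k4)) (cnd c fun _ => k3)) ?_, k4⟩
  clear * -
  revert a c
  decide

private theorem triD {T : Submodule ℤ P} (hT : IsT T) (hm : Mul 2 T) {a b c d : Bool}
    (h : Mem T (W2 (X 0) (X 1)) (hv a b c d))
    (h1 : Mem T (W3 (X 0) (X 1) (X 2)) vA ∨ Mem T (W3 (X 0) (X 1) (X 2)) vB ∨ Mem T (W3 (X 0) (X 1) (X 2)) vC) :
    (Mem T (W3 (X 0) (X 1) (X 2)) ![true, false, false, true, false, false] ∧
      Mem T (W2 (X 0) (X 1)) ![true, false, false, false, false, false]) ∨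
    (Mem T (W3 (X 0) (X 1) (X 2)) ![true, false, false, false, true, false] ∧
      Mem T (W2 (X 0) (X 1)) ![false, false, true, false, false, false]) ∨
    (Mem T (W2 (X 0) (X 1)) ![false, true, false, false, false, false] ∧
      Mem T (W2 (X 0) (X 1)) ![true, false, true, false, false, false]) := by
  have l1 := lin1 hT hm h
  have l2 := lin2 hT hm h
  have hS : Mem T (W3 (X 0) (X 1) (X 2)) vS := by
    refine cg (xr hm m3 (xr hm m3 l1 (r021 hT l1)) (r102 hT l1)) ?_
    clear * -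
    revert a b c d
    decide
  have hK1 : Mem T (W3 (X 0) (X 1) (X 2)) (cmb (!a) b) := by
    refine cg (xr hm m3 l1 (r102 hT l1)) ?_
    clear * -
    revert a b c d
    decide
  have hK2 : Mem T (W3 (X 0) (X 1) (X 2)) (cmb c d) := by
    refine cg (r201 hT l2) ?_
    clear * -
    revert a b c d
    decide
  clear l1 l2
  by_cases hA : Mem T (W3 (X 0) (X 1) (X 2)) vA
  · refine Or.inl (triA hT hm h hS hA ?_)
    rintro (rfl | rfl)
    · refine cg (xr hm m3 hK1 (cnd (!a) fun _ => hA)) ?_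
      clear * -
      revert a
      decide
    · refine cg (xr hm m3 hK2 (cnd c fun _ => hA)) ?_
      clear * -
      revert c
      decide
  · rcases h1 with h1 | h1 | h1
    · exact absurd h1 hA
    · have ha : a = true := by
        by_contra hn
        apply hA
        have ha : a = false := by simpa using hn
        subst ha
        refine cg (xr hm m3 hK1 (cnd b fun _ => h1)) ?_
        clear * -
        revert b
        decide
      have hc : c = false := by
        by_contra hn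
        apply hA
        have hc : c = true := by simpa using hn
        subst hc
        refine cg (xr hm m3 hK2 (cnd d fun _ => h1)) ?_
        clear * -
        revert d
        decide
      subst ha hc
      exact Or.inr (Or.inl (triB hT hm h hS h1))
    · have hb : b = !a := by
        by_contra hn
        apply hA
        have hb : b = a := by cases a <;> cases b <;> simp_all
        subst hb
        refine cg (xr hm m3 hK1 (cnd b fun _ => h1)) ?_
        clear * -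
        revert b
        decide
      have hd : d = c := by
        by_contra hn
        apply hA
        have hd : d = !c := by cases c <;> cases d <;> simp_all
        subst hd
        refine cg (xr hm m3 hK2 (cnd (!c) fun _ => h1)) ?_
        clear * -
        revert c
        decide
      subst hb hd
      exact Or.inr (Or.inr (triC hT hm h h1))

private theorem hh_iff {T : Submodule ℤ P} (hm : Mul 2 T) {a b c d : ℤ} : hh a b c d ∈ T ↔
    Mem T (W2 (X 0) (X 1)) (hv (decide (a % 2 = 1)) (decide (b % 2 = 1)) (decide (c % 2 = 1)) (decide (d % 2 = 1))) := by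
  have e : hh a b c d = ∑ i, ((![1 + b, a - b, -a, c, d - c, -d] : Fin 6 → ℤ) i) • W2 (X 0) (X 1) i := by
    simp only [Fin.sum_univ_six, W2, hh, cm, Matrix.cons_val, pow_two, mul_sub, sub_mul, ← mul_assoc]
    module
  rw [e, par hm m2 (b := hv (decide (a % 2 = 1)) (decide (b % 2 = 1)) (decide (c % 2 = 1)) (decide (d % 2 = 1)))
    (by
      have key : ∀ (x : ℤ) (q : Bool), (x % 2 = 1 ↔ q = true) → (2 : ℤ) ∣ x - (if q then (1 : ℤ) else 0) := by
        intro x q hq
        cases q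
        · simp at hq ⊢; omega
        · simp at hq ⊢; omega
      intro i
      apply key
      rcases Int.emod_two_eq_zero_or_one a with ha | ha <;> rcases Int.emod_two_eq_zero_or_one b with hb | hb <;>
      rcases Int.emod_two_eq_zero_or_one c with hc | hc <;> rcases Int.emod_two_eq_zero_or_one d with hd | hd <;>
      fin_cases i <;> simp [hv, ha, hb, hc, hd] <;> omega)]

private def ww (w : List ℕ) : Prop := (∀ i ∈ w, i < 2) ∧ ∀ i < 2, i ∈ w

private instance : DecidablePred ww := fun w => by unfold ww; infer_instance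

private theorem ww_cases {w : List ℕ} (h : ww w) (hl : ¬ 4 ≤ w.length) :
    w = [0,1] ∨ w = [1,0] ∨ w = [0,0,1] ∨ w = [0,1,0] ∨ w = [1,0,0] ∨ w = [0,1,1] ∨ w = [1,0,1] ∨ w = [1,1,0] := by
  obtain ⟨h1, h2⟩ := h
  have k0 := h2 0 (by norm_num)
  have k1 := h2 1 (by norm_num)
  rcases w with _ | ⟨a, _ | ⟨b, _ | ⟨c, _ | ⟨d, t⟩⟩⟩⟩
  · simp at k0
  · simp at k0 k1; omega
  · have ha := h1 a (by simp)
    have hb := h1 b (by simp)
    interval_cases a <;> interval_cases b <;> simp_all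
  · have ha := h1 a (by simp)
    have hb := h1 b (by simp)
    have hc := h1 c (by simp)
    interval_cases a <;> interval_cases b <;> interval_cases c <;> simp_all
  · simp at hl

private noncomputable def S8 (g : P) : P := cf [0,1] g • mon [0,1] + cf [1,0] g • mon [1,0] + cf [0,0,1] g • mon [0,0,1] +
  cf [0,1,0] g • mon [0,1,0] + cf [1,0,0] g • mon [1,0,0] + cf [0,1,1] g • mon [0,1,1] +
  cf [1,0,1] g • mon [1,0,1] + cf [1,1,0] g • mon [1,1,0]

private theorem cf0 (w : List ℕ) : cf w (0 : P) = 0 := by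
  have h := cf_smul w 0 (0 : P)
  rwa [zero_smul, zero_mul] at h

private theorem dec8 (g : P) : wp ww g - S8 g ∈ Fge 4 := by
  refine ind_mon (C := fun g => wp ww g - S8 g ∈ Fge 4) ?_ ?_ ?_ ?_ g
  · unfold S8
    simp only [map_zero, cf0, zero_smul, add_zero, sub_zero]
    exact Submodule.zero_mem _
  · intro f g hf hg
    have h : wp ww (f + g) - S8 (f + g) = (wp ww f - S8 f) + (wp ww g - S8 g) := by
      unfold S8
      simp only [map_add, cf_add, add_smul]
      abel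
    rw [h]
    exact Submodule.add_mem _ hf hg
  · intro c f hf
    have h : wp ww (c • f) - S8 (c • f) = c • (wp ww f - S8 f) := by
      unfold S8
      simp only [map_smul, cf_smul, mul_smul, smul_sub, smul_add]
    rw [h]
    exact Submodule.smul_mem _ _ hf
  · intro w
    by_cases hw : ww w
    · by_cases hl : 4 ≤ w.length
      · have h : S8 (mon w) = 0 := by
          unfold S8
          have h1 : ∀ u : List ℕ, u.length < 4 → cf u (mon w) = 0 := by
            intro u hu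
            rw [cf_mon, if_neg]
            rintro rfl
            omega
          rw [h1 _ (by simp), h1 _ (by simp), h1 _ (by simp), h1 _ (by simp), h1 _ (by simp), h1 _ (by simp),
            h1 _ (by simp), h1 _ (by simp)]
          simp only [zero_smul, add_zero]
        rw [h, sub_zero, wp_pos hw]
        exact Submodule.subset_span ⟨w, hl, rfl⟩
      · have h : wp ww (mon w) - S8 (mon w) = 0 := by
          rw [wp_pos hw]
          unfold S8
          rcases ww_cases hw hl with rfl | rfl | rfl | rfl | rfl | rfl | rfl | rfl <;> simp [cf_mon]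
        rw [h]
        exact Submodule.zero_mem _
    · have h : S8 (mon w) = 0 := by
        unfold S8
        have h1 : ∀ u : List ℕ, ww u → cf u (mon w) = 0 := by
          intro u hu
          rw [cf_mon, if_neg]
          rintro rfl
          exact hw hu
        rw [h1 _ (by decide), h1 _ (by decide), h1 _ (by decide), h1 _ (by decide), h1 _ (by decide),
          h1 _ (by decide), h1 _ (by decide), h1 _ (by decide)]
        simp only [zero_smul, add_zero]
      rw [h, sub_zero, wp_neg hw]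
      exact Submodule.zero_mem _

private noncomputable def Dw (w : List ℕ) : ℕ →₀ ℕ := Multiset.toFinsupp (w : Multiset ℕ)

private theorem Dw_cons (a : ℕ) (w : List ℕ) : Dw (a :: w) = Finsupp.single a 1 + Dw w := by
  unfold Dw
  rw [← Multiset.cons_coe, ← Multiset.singleton_add, map_add, Multiset.toFinsupp_singleton]

private theorem com_word (w : List ℕ) : com (mon w) = MvPolynomial.monomial (Dw w) (1 : ℤ) := by
  induction w with
  | nil => rw [mon_nil, map_one]; simp [Dw]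
  | cons a w ih =>
    have h : com (X a) = MvPolynomial.X a := by simp [com]
    rw [mon_cons, map_mul, ih, Dw_cons, h, MvPolynomial.X, MvPolynomial.monomial_mul, one_mul]

private theorem Dw_inj {u w : List ℕ} : Dw u = Dw w ↔ u.Perm w := by
  unfold Dw
  rw [Multiset.toFinsupp.injective.eq_iff, Multiset.coe_eq_coe]

private theorem coeff_word (w u : List ℕ) :
    (com (mon w)).coeff (Dw u) = if w.Perm u then 1 else 0 := by
  classical
  rw [com_word, MvPolynomial.coeff_monomial]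
  by_cases h : w.Perm u
  · rw [if_pos h, if_pos (Dw_inj.2 h)]
  · rw [if_neg h, if_neg fun h' => h (Dw_inj.1 h')]

private theorem ct21 (g : P) : ct 2 1 g = cf [0,0,1] g + cf [0,1,0] g + cf [1,0,0] g := by
  have hd : Finsupp.single 0 2 + Finsupp.single 1 1 = Dw [0,0,1] := by
    rw [Dw_cons, Dw_cons, Dw_cons]
    simp only [Dw, Multiset.coe_nil, map_zero, add_zero]
    rw [← add_assoc, ← Finsupp.single_add]
  unfold ct
  rw [hd]
  refine ind_mon (C := fun g => (com g).coeff (Dw [0,0,1]) = cf [0,0,1] g + cf [0,1,0] g + cf [1,0,0] g) ?_ ?_ ?_ ?_ g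
  · rw [map_zero, MvPolynomial.coeff_zero, cf0, cf0, cf0]; rfl
  · intro f g hf hg
    rw [map_add, MvPolynomial.coeff_add, hf, hg, cf_add, cf_add, cf_add]
    ring
  · intro c f hf
    rw [map_smul, MvPolynomial.coeff_smul, hf, cf_smul, cf_smul, cf_smul, smul_eq_mul]
    ring
  · intro w
    rw [coeff_word, cf_mon, cf_mon, cf_mon]
    by_cases h : w.Perm [0,0,1]
    · rw [if_pos h]
      have h1 : w ∈ [0,0,1].permutations' := List.mem_permutations'.2 h
      have h3 : ∀ v ∈ ([0,0,1] : List ℕ).permutations', v = [0,0,1] ∨ v = [0,1,0] ∨ v = [1,0,0] := by decide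
      rcases h3 w h1 with rfl | rfl | rfl <;> simp
    · rw [if_neg h, if_neg, if_neg, if_neg]
      · rfl
      · rintro rfl; exact h (by decide)
      · rintro rfl; exact h (by decide)
      · rintro rfl; exact h (by decide)

private theorem ct12 (g : P) : ct 1 2 g = cf [0,1,1] g + cf [1,0,1] g + cf [1,1,0] g := by
  have hd : Finsupp.single 0 1 + Finsupp.single 1 2 = Dw [0,1,1] := by
    rw [Dw_cons, Dw_cons, Dw_cons]
    simp only [Dw, Multiset.coe_nil, map_zero, add_zero]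
    rw [← Finsupp.single_add]
  unfold ct
  rw [hd]
  refine ind_mon (C := fun g => (com g).coeff (Dw [0,1,1]) = cf [0,1,1] g + cf [1,0,1] g + cf [1,1,0] g) ?_ ?_ ?_ ?_ g
  · rw [map_zero, MvPolynomial.coeff_zero, cf0, cf0, cf0]; rfl
  · intro f g hf hg
    rw [map_add, MvPolynomial.coeff_add, hf, hg, cf_add, cf_add, cf_add]
    ring
  · intro c f hf
    rw [map_smul, MvPolynomial.coeff_smul, hf, cf_smul, cf_smul, cf_smul, smul_eq_mul]
    ring
  · intro w
    rw [coeff_word, cf_mon, cf_mon, cf_mon]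
    by_cases h : w.Perm [0,1,1]
    · rw [if_pos h]
      have h1 : w ∈ [0,1,1].permutations' := List.mem_permutations'.2 h
      have h3 : ∀ v ∈ ([0,1,1] : List ℕ).permutations', v = [0,1,1] ∨ v = [1,0,1] ∨ v = [1,1,0] := by decide
      rcases h3 w h1 with rfl | rfl | rfl <;> simp
    · rw [if_neg h, if_neg, if_neg, if_neg]
      · rfl
      · rintro rfl; exact h (by decide)
      · rintro rfl; exact h (by decide)
      · rintro rfl; exact h (by decide)

private theorem hh_ex {T : Submodule ℤ P} (hm : Mul 2 T) {b : Fin 6 → Bool}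
    (h : Mem T (W2 (X 0) (X 1)) b) (h1 : xor (xor (b 0) (b 1)) (b 2) = true)
    (h2 : xor (xor (b 3) (b 4)) (b 5) = false) : ∃ a b c d : ℤ, hh a b c d ∈ T := by
  refine ⟨if b 2 then 1 else 0, if b 0 then 0 else 1, if b 3 then 1 else 0, if b 5 then 1 else 0, ?_⟩
  rw [hh_iff hm]
  refine cg h ?_
  have hb : b = ![b 0, b 1, b 2, b 3, b 4, b 5] := by
    funext i
    fin_cases i <;> rfl
  rw [hb]
  simp only [Matrix.cons_val]
  revert h1 h2
  generalize b 0 = b0
  generalize b 1 = b1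
  generalize b 2 = b2
  generalize b 3 = b3
  generalize b 4 = b4
  generalize b 5 = b5
  clear * -
  revert b0 b1 b2 b3 b4 b5
  decide

theorem nEx {T : Submodule ℤ P} (hT : IsT T) (hm : Mul 2 T) (hF : Fge 4 ≤ T) (h : ¬ T ≤ TN) :
    cm 0 1 ∈ T ⊔ Fge 3 ∨ ∃ a b c d : ℤ, hh a b c d ∈ T := by
  by_contra hcon
  rw [not_or] at hcon
  obtain ⟨hc1, hc2⟩ := hcon
  apply h
  refine le_LT hT fun g hg => ?_
  by_contra hK
  have hm4 : Mul (((2 : ℕ) : ℤ) ^ 2) T := by
    have := Mul.sq (p := 2) hm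
    exact_mod_cast this
  have g1 : wp ww g ∈ T := by
    have k1 := TOp_lt 2 2 T hT hm4 _ (TOp_full 2 2 T hT hm4 g hg)
    rw [wp_wp] at k1
    exact k1
  have g2 : S8 g ∈ T := by
    have k2 := T.sub_mem g1 (hF (dec8 g))
    rwa [sub_sub_cancel] at k2
  -- degree two
  have ev : (2 : ℤ) ∣ cf [0,1] g ∧ (2 : ℤ) ∣ cf [1,0] g := by
    by_contra hodd
    apply hc1
    have hT3 : IsT (T ⊔ Fge 3) := isT_sup hT (isT_Fge 3 (by norm_num))
    have h3 : ∀ w : List ℕ, 3 ≤ w.length → mon w ∈ T ⊔ Fge 3 := fun w hw =>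
      Submodule.mem_sup_right (Submodule.subset_span ⟨w, hw, rfl⟩)
    have k1 : cf [0,1] g • mon [0,1] + cf [1,0] g • mon [1,0] ∈ T ⊔ Fge 3 := by
      have k2 : cf [0,1] g • mon [0,1] + cf [1,0] g • mon [1,0] = S8 g - (cf [0,0,1] g • mon [0,0,1] +
          cf [0,1,0] g • mon [0,1,0] + cf [1,0,0] g • mon [1,0,0] + cf [0,1,1] g • mon [0,1,1] +
          cf [1,0,1] g • mon [1,0,1] + cf [1,1,0] g • mon [1,1,0]) := by
        unfold S8
        abel
      rw [k2]
      refine Submodule.sub_mem _ (Submodule.mem_sup_left g2) ?_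
      refine Submodule.add_mem _ (Submodule.add_mem _ (Submodule.add_mem _ (Submodule.add_mem _
        (Submodule.add_mem _ ?_ ?_) ?_) ?_) ?_) ?_ <;>
        exact Submodule.smul_mem _ _ (h3 _ (by simp))
    have k3 : ∀ (c : ℤ) (f : P), f ∈ Pp → (2 : ℤ) ∣ c → c • f ∈ T ⊔ Fge 3 := by
      rintro c f hf ⟨k, rfl⟩
      rw [mul_smul]
      exact Submodule.mem_sup_left (hm _ (Pp.smul_mem _ hf))
    have k4 : ∀ (c : ℤ) (f : P), f ∈ Pp → ¬ (2 : ℤ) ∣ c → c • f - f ∈ T ⊔ Fge 3 := by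
      intro c f hf hc
      have := k3 (c - 1) f hf (by omega)
      rwa [sub_smul, one_smul] at this
    have p01 : mon [0,1] ∈ Pp := mon_mem (by simp)
    have p10 : mon [1,0] ∈ Pp := mon_mem (by simp)
    have e01 : mon [0,1] = X 0 * X 1 := by rw [mon_cons, mon_single]
    have e10 : mon [1,0] = X 1 * X 0 := by rw [mon_cons, mon_single]
    have s01 : mon [0,1] ∈ T ⊔ Fge 3 → mon [1,0] ∈ T ⊔ Fge 3 := by
      intro q
      have := sb3_mem hT3 (X_mem 1) (X_mem 0) (X_mem 2) q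
      rwa [e01, map_mul, sb3_0, sb3_1, ← e10] at this
    have s10 : mon [1,0] ∈ T ⊔ Fge 3 → mon [0,1] ∈ T ⊔ Fge 3 := by
      intro q
      have := sb3_mem hT3 (X_mem 1) (X_mem 0) (X_mem 2) q
      rwa [e10, map_mul, sb3_0, sb3_1, ← e01] at this
    have ec : cm 0 1 = mon [0,1] - mon [1,0] := by rw [e01, e10]; rfl
    rw [ec]
    by_cases q1 : (2 : ℤ) ∣ cf [0,1] g
    · have q2 : ¬ (2 : ℤ) ∣ cf [1,0] g := fun q2 => hodd ⟨q1, q2⟩
      have l1 : mon [1,0] ∈ T ⊔ Fge 3 := by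
        have l2 := Submodule.sub_mem _ (Submodule.sub_mem _ k1 (k3 _ _ p01 q1)) (k4 _ _ p10 q2)
        have l3 : cf [0,1] g • mon [0,1] + cf [1,0] g • mon [1,0] - cf [0,1] g • mon [0,1] -
            (cf [1,0] g • mon [1,0] - mon [1,0]) = mon [1,0] := by abel
        rwa [l3] at l2
      exact Submodule.sub_mem _ (s10 l1) l1
    · by_cases q2 : (2 : ℤ) ∣ cf [1,0] g
      · have l1 : mon [0,1] ∈ T ⊔ Fge 3 := by
          have l2 := Submodule.sub_mem _ (Submodule.sub_mem _ k1 (k3 _ _ p10 q2)) (k4 _ _ p01 q1)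
          have l3 : cf [0,1] g • mon [0,1] + cf [1,0] g • mon [1,0] - cf [1,0] g • mon [1,0] -
              (cf [0,1] g • mon [0,1] - mon [0,1]) = mon [0,1] := by abel
          rwa [l3] at l2
        exact Submodule.sub_mem _ l1 (s01 l1)
      · have l2 := Submodule.sub_mem _ (Submodule.sub_mem _ (Submodule.sub_mem _ k1 (k4 _ _ p10 q2))
          (k4 _ _ p01 q1)) (k3 2 _ p10 (dvd_refl _))
        have l3 : cf [0,1] g • mon [0,1] + cf [1,0] g • mon [1,0] - (cf [1,0] g • mon [1,0] - mon [1,0]) -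
            (cf [0,1] g • mon [0,1] - mon [0,1]) - (2 : ℤ) • mon [1,0] = mon [0,1] - mon [1,0] := by
          rw [two_smul]
          abel
        rwa [l3] at l2
  -- degree three
  have od : ¬ (2 : ℤ) ∣ ct 2 1 g + ct 1 2 g := fun q => hK ⟨ev.1, ev.2, q⟩
  rw [ct21, ct12] at od
  have k1 : ∑ i, ((![cf [0,0,1] g, cf [0,1,0] g, cf [1,0,0] g, cf [0,1,1] g, cf [1,0,1] g, cf [1,1,0] g] :
      Fin 6 → ℤ) i) • W2 (X 0) (X 1) i ∈ T := by
    have k2 : ∑ i, ((![cf [0,0,1] g, cf [0,1,0] g, cf [1,0,0] g, cf [0,1,1] g, cf [1,0,1] g, cf [1,1,0] g] :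
        Fin 6 → ℤ) i) • W2 (X 0) (X 1) i = S8 g - cf [0,1] g • mon [0,1] - cf [1,0] g • mon [1,0] := by
      unfold S8
      simp only [Fin.sum_univ_six, W2, Matrix.cons_val, mon_cons, mon_nil, mul_one, mul_assoc]
      abel
    rw [k2]
    obtain ⟨u, hu⟩ := ev.1
    obtain ⟨v, hv⟩ := ev.2
    refine T.sub_mem (T.sub_mem g2 ?_) ?_
    · rw [hu, mul_smul]
      exact hm _ (Pp.smul_mem _ (mon_mem (by simp)))
    · rw [hv, mul_smul]
      exact hm _ (Pp.smul_mem _ (mon_mem (by simp)))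
  revert k1 od
  generalize cf [0,0,1] g = a1
  generalize cf [0,1,0] g = a2
  generalize cf [1,0,0] g = a3
  generalize cf [0,1,1] g = b1
  generalize cf [1,0,1] g = b2
  generalize cf [1,1,0] g = b3
  intro od k1
  have key : ∀ x : ℤ, (2 : ℤ) ∣ x - (if decide (x % 2 = 1) = true then (1 : ℤ) else 0) := by
    intro x
    by_cases hx : x % 2 = 1
    · simp [hx]; omega
    · simp [hx]; omega
  rw [par hm m2 (b := ![decide (a1 % 2 = 1), decide (a2 % 2 = 1), decide (a3 % 2 = 1), decide (b1 % 2 = 1),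
    decide (b2 % 2 = 1), decide (b3 % 2 = 1)]) (fun i => by fin_cases i <;> exact key _)] at k1
  have hx : ∀ x y z : ℤ, xor (xor (decide (x % 2 = 1)) (decide (y % 2 = 1))) (decide (z % 2 = 1)) =
      decide ((x + y + z) % 2 = 1) := by
    intro x y z
    rcases Int.emod_two_eq_zero_or_one x with h1 | h1 <;> rcases Int.emod_two_eq_zero_or_one y with h2 | h2 <;>
      rcases Int.emod_two_eq_zero_or_one z with h3 | h3 <;> simp [h1, h2, h3] <;> omega
  by_cases hA : (a1 + a2 + a3) % 2 = 1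
  · apply hc2
    refine hh_ex hm k1 ?_ ?_
    · show xor (xor (decide (a1 % 2 = 1)) (decide (a2 % 2 = 1))) (decide (a3 % 2 = 1)) = true
      rw [hx]
      simpa using hA
    · show xor (xor (decide (b1 % 2 = 1)) (decide (b2 % 2 = 1))) (decide (b3 % 2 = 1)) = false
      rw [hx]
      simp
      omega
  · apply hc2
    refine hh_ex hm (sw2 hT k1) ?_ ?_
    · show xor (xor (decide (b3 % 2 = 1)) (decide (b2 % 2 = 1))) (decide (b1 % 2 = 1)) = true
      rw [hx]
      simp
      omega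
    · show xor (xor (decide (a3 % 2 = 1)) (decide (a2 % 2 = 1))) (decide (a1 % 2 = 1)) = false
      rw [hx]
      simp
      omega

theorem tri {T : Submodule ℤ P} (hT : IsT T) (hm : Mul 2 T) (hF : Fge 4 ≤ T) (h1 : La ∈ T ∨ Lb ∈ T ∨ La + Lb ∈ T)
    {a b c d : ℤ} (h2 : hh a b c d ∈ T) :
    (g3 ∈ T ∧ X 0 ^ 2 * X 1 ∈ T) ∨ (g3' ∈ T ∧ X 1 * X 0 ^ 2 ∈ T) ∨
      (X 0 * X 1 * X 0 ∈ T ∧ X 0 ^ 2 * X 1 + X 1 * X 0 ^ 2 ∈ T) := by
  rw [hh_iff hm] at h2
  rw [La_iff hm, Lb_iff hm, Lc_iff hm] at h1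
  have f1 : g3 ∈ T ↔ Mem T (W3 (X 0) (X 1) (X 2)) ![true, false, false, true, false, false] := by
    rw [← par hm m3 (c := ![1, 0, 0, -1, 0, 0]) (by decide)]
    have h : g3 = ∑ i, ((![1, 0, 0, -1, 0, 0] : Fin 6 → ℤ) i) • W3 (X 0) (X 1) (X 2) i := by
      simp only [Fin.sum_univ_six, W3, g3, Matrix.cons_val, zero_smul, add_zero, sub_mul]
      module
    rw [h]
  have f2 : g3' ∈ T ↔ Mem T (W3 (X 0) (X 1) (X 2)) ![true, false, false, false, true, false] := by
    rw [← par hm m3 (c := ![1, 0, 0, 0, -1, 0]) (by decide)]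
    have h : g3' = ∑ i, ((![1, 0, 0, 0, -1, 0] : Fin 6 → ℤ) i) • W3 (X 0) (X 1) (X 2) i := by
      simp only [Fin.sum_univ_six, W3, g3', Matrix.cons_val, zero_smul, add_zero, mul_sub, ← mul_assoc]
      module
    rw [h]
  have f3 : X 0 ^ 2 * X 1 ∈ T ↔ Mem T (W2 (X 0) (X 1)) ![true, false, false, false, false, false] := by
    rw [← par hm m2 (c := ![1, 0, 0, 0, 0, 0]) (by decide)]
    have h : X 0 ^ 2 * X 1 = ∑ i, ((![1, 0, 0, 0, 0, 0] : Fin 6 → ℤ) i) • W2 (X 0) (X 1) i := by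
      simp only [Fin.sum_univ_six, W2, Matrix.cons_val, zero_smul, add_zero, one_smul, pow_two]
    rw [h]
  have f4 : X 1 * X 0 ^ 2 ∈ T ↔ Mem T (W2 (X 0) (X 1)) ![false, false, true, false, false, false] := by
    rw [← par hm m2 (c := ![0, 0, 1, 0, 0, 0]) (by decide)]
    have h : X 1 * X 0 ^ 2 = ∑ i, ((![0, 0, 1, 0, 0, 0] : Fin 6 → ℤ) i) • W2 (X 0) (X 1) i := by
      simp only [Fin.sum_univ_six, W2, Matrix.cons_val, zero_smul, add_zero, zero_add, one_smul, pow_two, mul_assoc]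
    rw [h]
  have f5 : X 0 * X 1 * X 0 ∈ T ↔ Mem T (W2 (X 0) (X 1)) ![false, true, false, false, false, false] := by
    rw [← par hm m2 (c := ![0, 1, 0, 0, 0, 0]) (by decide)]
    have h : X 0 * X 1 * X 0 = ∑ i, ((![0, 1, 0, 0, 0, 0] : Fin 6 → ℤ) i) • W2 (X 0) (X 1) i := by
      simp only [Fin.sum_univ_six, W2, Matrix.cons_val, zero_smul, add_zero, zero_add, one_smul]
    rw [h]
  have f6 : X 0 ^ 2 * X 1 + X 1 * X 0 ^ 2 ∈ T ↔
      Mem T (W2 (X 0) (X 1)) ![true, false, true, false, false, false] := by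
    rw [← par hm m2 (c := ![1, 0, 1, 0, 0, 0]) (by decide)]
    have h : X 0 ^ 2 * X 1 + X 1 * X 0 ^ 2 =
        ∑ i, ((![1, 0, 1, 0, 0, 0] : Fin 6 → ℤ) i) • W2 (X 0) (X 1) i := by
      simp only [Fin.sum_univ_six, W2, Matrix.cons_val, zero_smul, add_zero, one_smul, pow_two, mul_assoc]
    rw [h]
  rw [f1, f2, f3, f4, f5, f6]
  exact triD hT hm h2 h1

end ADP
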