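import Pool.Agent.ADC.Bas
import Pool.Agent.ADC.Opp

/-!
# ADP-Base: the almost distributive varieties of rings for `p = 2, 3`, and the complete list

Paper proof: /team-store/cf90_h65.md (cases `p = 3`, `p = 2`), /team-store/cf90_h70.md (near-commutative T-ideals).
`Bs p J`: a nilpotent T-ideal with `p P⁺ ≤ J`, for any prime `p` (`ADC.Bas` without `5 ≤ p`); `Bt` the same with `3 ≤ p`.
The modules Sh, Trf, TrC, Tm1, NonM, NEx, UEx, Pair1, Qred, C1a, NoC1, NPs, GenN, NdN, IncN, IncU, IncG, Npn, Core1 are those of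
ADC with `3 ≤ p` instead of `5 ≤ p`.
-/

namespace ADP

open AD ADN ADC

/-- a basic situation: a nilpotent T-ideal containing `p P⁺` -/
structure Bs (p : ℕ) (J : Submodule ℤ P) : Prop where
  pp : p.Prime
  isT : IsT J
  mul : Mul p J
  nil : ∃ N, NilAt J N
  ne : X 0 ∉ J

/-- the same for odd `p` -/
structure Bt (p : ℕ) (J : Submodule ℤ P) : Prop extends Bs p J where
  three : 3 ≤ p

/-- a linked pair of multilinear polynomials `a`, `b` of degree `n`, with `a ≡ q h` modulo `I` (`ADC.Pr` with `3 ≤ p`) -/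
structure Pr (p : ℕ) (I J A B C : Submodule ℤ P) (n : ℕ) (q : ℤ) (a b h : P) : Prop
    extends Lk p I A B C where
  bJ : Bt p J
  IJ : I ≤ J
  pJ : ∀ f ∈ J, (p : ℤ) • f ∈ I
  qJ : ∀ f ∈ J, q • f ∈ I
  ex : ∀ f ∈ Ml n, f ∈ J → ∃ g ∈ Ml n, f - (p : ℤ) • g ∈ I
  ha : a ∈ Ml n
  hb : b ∈ Ml n
  hh : h ∈ Ml n
  lk : Lnk A B C a b
  aq : a - q • h ∈ I
  na : a ∉ I

theorem Bs_op {p : ℕ} {J : Submodule ℤ P} (h : Bs p J) : Bs p (op J) where
  pp := h.pp
  isT := isT_op h.isT
  mul := Mul_op h.mul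
  nil := by
    obtain ⟨N, hN⟩ := h.nil
    refine ⟨N, fun w hw => ?_⟩
    rw [mem_op, rv_mon]
    exact hN _ (by rw [List.length_reverse]; exact hw)
  ne := by
    rw [mem_op]
    have e : rv (X 0) = X 0 := by
      rw [← mon_single, rv_mon, List.reverse_singleton]
    rw [e]
    exact h.ne

theorem Bt_op {p : ℕ} {J : Submodule ℤ P} (h : Bt p J) : Bt p (op J) :=
  { Bs_op h.toBs with three := h.three }

end ADP
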