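import Pool.Agent.ADC.TKc
import Pool.Agent.ADC.KGs
import Pool.Agent.ADP.Base

/-!
# ADP-K3: the identities of degree 3 for `p = 3`

The six words: `e1 = [0,1,2]`, `e2 = [1,2,0]`, `e3 = [2,0,1]` (even), `o1 = [1,0,2]`, `o2 = [0,2,1]`, `o3 = [2,1,0]` (odd).
`KM` = identities of `W_3`, `KE`, `KF` = identities of `E`, `E'` (opposite).
-/

namespace ADP

open AD ADN ADC

/-- `x y z + z y x` -/
noncomputable def g1 : P := X 0 * X 1 * X 2 + X 2 * X 1 * X 0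
/-- `x y z - z y x` -/
noncomputable def g2 : P := X 0 * X 1 * X 2 - X 2 * X 1 * X 0
/-- `[x,y] z` -/
noncomputable def g3 : P := (X 0 * X 1 - X 1 * X 0) * X 2
/-- `x [y,z]` -/
noncomputable def g3' : P := X 0 * (X 1 * X 2 - X 2 * X 1)
/-- `(x y + y x) z` -/
noncomputable def g4 : P := (X 0 * X 1 + X 1 * X 0) * X 2
/-- `x (y z + z y)` -/
noncomputable def g4' : P := X 0 * (X 1 * X 2 + X 2 * X 1)
/-- `x y z - y z x` -/
noncomputable def g5 : P := X 0 * X 1 * X 2 - X 1 * X 2 * X 0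

noncomputable def e1 (g : P) : ℤ := cf [0,1,2] g
noncomputable def e2 (g : P) : ℤ := cf [1,2,0] g
noncomputable def e3 (g : P) : ℤ := cf [2,0,1] g
noncomputable def o1 (g : P) : ℤ := cf [1,0,2] g
noncomputable def o2 (g : P) : ℤ := cf [0,2,1] g
noncomputable def o3 (g : P) : ℤ := cf [2,1,0] g

/-- the identities of degree 3 of `W_3` -/
def KM : Set P := {g | (3 : ℤ) ∣ e1 g + e2 g + e3 g - o1 g - o2 g - o3 g ∧ (3 : ℤ) ∣ e1 g - o2 g - e2 g + o3 g ∧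
  (3 : ℤ) ∣ e2 g - o1 g - e3 g + o2 g ∧ (3 : ℤ) ∣ e3 g - o3 g - e1 g + o1 g}

/-- the identities of degree 3 of `E`: the signed sums over the words with a given last letter -/
def KE : Set P := {g | (3 : ℤ) ∣ e1 g - o1 g ∧ (3 : ℤ) ∣ e2 g - o3 g ∧ (3 : ℤ) ∣ e3 g - o2 g ∧
  (9 : ℤ) ∣ e1 g + e2 g + e3 g - o1 g - o2 g - o3 g}

/-- the identities of degree 3 of `E'`: the same with the first letter -/
def KF : Set P := {g | (3 : ℤ) ∣ e1 g - o2 g ∧ (3 : ℤ) ∣ e2 g - o1 g ∧ (3 : ℤ) ∣ e3 g - o3 g ∧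
  (9 : ℤ) ∣ e1 g + e2 g + e3 g - o1 g - o2 g - o3 g}

/-- the T-ideals of `W_3`, `E`, `E'` -/
noncomputable def TM : Submodule ℤ P := TK 3 KM
noncomputable def TE : Submodule ℤ P := TK 3 KE
noncomputable def TF : Submodule ℤ P := TK 3 KF

end ADP
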