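import Pool.Agent.ADP.Nf2
import Pool.Agent.ADP.K3

/-!
# ADP-B2: `p = 2`, the types are exact

`Bs 2 J`.  General tool (`lift` of ADP.Nf2): an element `f ∈ Qf n` (`f ∈ Ml n` or e.g. `x^2 y ∈ Qf 2`) with `f ∈ J ⊔ Fge m` is in `J` plus a combination of words in exactly the letters `0, ..., n-1` of length `≥ m`.  Substituting words for the letters and multiplying by
words: every consequence of total length `L` of `f` is in `J` + (combination of words of length `≥ L + (m - deg f)` with the same set of letters); if `m > n` these words have a repeated letter.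
* `ex2c` (`xyx`, `x^2 y + y x^2 ∈ J ⊔ Fge 4`).  Linearise `xyx`: `xyz + zyx ∈ J ⊔ Fge 4` (in `Ml 3`).  Claim `R(m)`: all words of length `≥ m` with a repeated letter are in `J`, for all `m ≥ 4`, by downward induction (`NilAt J N`).  Let `w` have length `L ≥ 4`, a repeated letter.
  Modulo (words of length `> L` with a repeated letter, in `J` by induction): `x(yz)t ≡ t(yz)x`, `xyzt ≡ zyxt`, `txyz ≡ tzyx` and the same inside longer words: the letters in positions `i, i+2` and `i, i+3` can be exchanged (any letters, equal or not: substitute letters in the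
  multilinear identity; the error words have a repeated letter as they come from words in exactly `x, y, z` of length `≥ 4`), so all arrangements of the letters of `w` are congruent, `w ≡ s a s u` with `s` the repeated letter, a consequence of `xyx`: in `J` + longer words with
  repeated letter.  So `R(4)`.  Then `xyx ∈ J` + (words in exactly `x, y` of length `≥ 4`) `≤ J`, and `x^2 y + y x^2 ∈ J` in the same way.
* `ex2a` (`[x,y]z`, `x^2 y ∈ J ⊔ Fge 4`).  For a word `w` put `exc w = w.length - (number of different letters)`.  Claim: every word with `exc w ≥ 2`, `w.length ≥ 3` is in `J`; and every `w = w' ++ [t]` with `w'` having a repeated letter and `w.length ≥ 3` is in `J`.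
  Downward induction on the length.  In a word `w = w' ++ [t]` of length `L ≥ 3` adjacent letters of `w'` can be exchanged modulo words of length `> L` with the same set of letters (so with larger `exc`, at least 1; is their `exc ≥ 2`?  the error of `u [a,b] v`, `v ≠ []`, coming from
  `[x,y]z ∈ J` + words in exactly `x,y,z` of length `≥ 4`: it has the same letters as `w` and length `≥ L + 1`).  If `w'` has a repeated letter `s`: `exc w ≥ 1`, errors have `exc ≥ 2`; `w ≡ s s r t`, a consequence of `x^2 y`: in `J` + (words with the same letters, length `≥ L+1`,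
  `exc ≥ 2`).  If `exc w ≥ 2` then `w'` has a repeated letter automatically.  So both claims follow by downward induction on the length (prove them together, the first one being a special case of the second).
  So `x^2 y ∈ J` + (words in exactly `x, y` of length `≥ 4`, `exc ≥ 2`) `≤ J`.  `[x,y]z ∈ J` + (words in exactly `x,y,z`, length `≥ 4`): length `≥ 5`: in `J`; length 4: `exc = 1`: in `J` unless the last letter is the repeated one: `≡ Om_i = mon [j,k,i,i]` modulo `J`
  (the first three letters can be permuted modulo words of `exc ≥ 2`).  So `[x,y]z - ∑ r_i Om_i ∈ J`.  Linearise `x_i ↦ x_i + x_3` (substitution minus the two pure parts; T-operator, so the result is in `J`): `[x,y]z ↦ 0`, `Om_j ↦ 0` (`j ≠ i`),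
  `Om_i ↦ mon [j,k,i,3] + mon [j,k,3,i]`.  If `r_i` is odd: `x_j x_k [x_i, x_3] ∈ J`, so all words `u [a,b]` of length 4 are in `J` (substitute letters), in particular `Om_i = x_j x_k x_i x_i`: with `x_k := x_i`, `x_i := x_k`, `x_3 := x_i`:
  `x_j x_i x_k x_i - x_j x_i x_i x_k ∈ J`; `x_j x_i x_i x_k ∈ J` (claim), `x_j x_i x_k x_i ≡ x_j x_k x_i x_i = Om_i` modulo `J` (exchange of non-last letters, errors in `J`): so all `Om_i ∈ J`, `[x,y]z ∈ J`.  If all `r_i` are even: `[x,y]z ∈ J`.
-/

namespace ADP

open AD ADN ADC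

/-- all words of length at least `m` with a repeated letter are in `J` -/
private def Rw (J : Submodule ℤ P) (m : ℕ) : Prop :=
  ∀ w : List ℕ, m ≤ w.length → (∃ i, 2 ≤ w.count i) → mon w ∈ J

private theorem sb_word (σ : ℕ → List ℕ) (w : List ℕ) :
    sb (fun i => mon (σ i)) (mon w) = mon (w.flatMap σ) := by
  induction w with
  | nil => simp [mon_nil]
  | cons a w ih => rw [mon_cons, map_mul, ih, sb_X, List.flatMap_cons, mon_append]

private theorem rep_word {n : ℕ} {σ : ℕ → List ℕ} (hσ : ∀ i < n, σ i ≠ []) {w : List ℕ} (hw : fw n w)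
    (h : ∃ i, 2 ≤ w.count i) : ∃ s, 2 ≤ (w.flatMap σ).count s := by
  obtain ⟨i, hi⟩ := h
  have hin : i < n := hw.1 i (List.count_pos_iff.1 (by omega))
  obtain ⟨s, hs⟩ := List.exists_mem_of_ne_nil _ (hσ i hin)
  obtain ⟨l, hl⟩ := (List.replicate_sublist_iff.2 hi).exists_perm_append
  refine ⟨s, ?_⟩
  have h1 : (w.flatMap σ).Perm ((List.replicate 2 i ++ l).flatMap σ) := hl.flatMap_right σ
  rw [h1.count_eq]
  have h2 : 1 ≤ (σ i).count s := List.count_pos_iff.2 hs
  simp only [List.replicate_succ, List.replicate_zero, List.cons_append, List.nil_append,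
    List.flatMap_cons, List.count_append]
  omega

private theorem len_word {n : ℕ} {σ : ℕ → List ℕ} (hσ : ∀ i < n, σ i ≠ []) {w : List ℕ} (hw : fw n w) :
    ((List.range n).flatMap σ).length + (w.length - n) ≤ (w.flatMap σ).length := by
  obtain ⟨l0, hl0, hs0⟩ :=
    List.subperm_of_subset (List.nodup_range (n := n)) (fun i hi => hw.2 i (List.mem_range.1 hi))
  obtain ⟨l, hl⟩ := hs0.exists_perm_append
  replace hl := hl.trans (hl0.append_right l)
  have h2 := (hl.flatMap_right σ).length_eq
  have h3 : w.length = n + l.length := by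
    rw [hl.length_eq, List.length_append, List.length_range]
  have h4 : ∀ i ∈ l, i < n := fun i hi => hw.1 i (hl.symm.subset (List.mem_append_right _ hi))
  have h5 : ∀ l : List ℕ, (∀ i ∈ l, i < n) → l.length ≤ (l.flatMap σ).length := by
    intro l hl
    induction l with
    | nil => simp
    | cons a l ih =>
      rw [List.flatMap_cons, List.length_append, List.length_cons]
      have h6 := ih (fun i hi => hl i (List.mem_cons_of_mem _ hi))
      have h7 := List.length_pos_of_ne_nil (hσ a (hl a (by simp)))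
      omega
  rw [h2, List.flatMap_append, List.length_append]
  have := h5 l h4
  omega

/-- consequences of `f ∈ J ⊔ Fge m` -/
private theorem cons_mem {J : Submodule ℤ P} (hJ : Bs 2 J) {n m K : ℕ} (hnm : n < m) {f : P}
    (hf : f ∈ Qf n) (h : f ∈ J ⊔ Fge m) (hR : Rw J K) {σ : ℕ → List ℕ} (hσ : ∀ i, σ i ≠ [])
    (u v : List ℕ) (hK : K ≤ u.length + ((List.range n).flatMap σ).length + (m - n) + v.length) :
    mon u * sb (fun i => mon (σ i)) f * mon v ∈ J := by
  have h1 := lift hJ.isT (Mul.sq hJ.mul) hf h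
  obtain ⟨j, hj, e, he, rfl⟩ := Submodule.mem_sup.1 h1
  rw [map_add, mul_add, add_mul]
  refine J.add_mem (IsT.lm hJ.isT _ _ (sb_mem hJ.isT (fun i => mon_mem (hσ i)) hj)) ?_
  clear h1 h hf
  induction he using Submodule.span_induction with
  | mem x hx =>
    obtain ⟨w, hw, hl, rfl⟩ := hx
    rw [sb_word, ← mon_append, ← mon_append]
    apply hR
    · have h2 := len_word (fun i _ => hσ i) hw (n := n)
      rw [List.length_append, List.length_append]
      omega
    · obtain ⟨s, hs⟩ := rep_word (fun i _ => hσ i) hw (fw_rep hw (by omega))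
      refine ⟨s, ?_⟩
      rw [List.count_append, List.count_append]
      omega
  | zero => rw [map_zero, mul_zero, zero_mul]; exact J.zero_mem
  | add x y _ _ hx hy => rw [map_add, mul_add, add_mul]; exact J.add_mem hx hy
  | smul c x _ hx => rw [map_smul, mul_smul_comm, smul_mul_assoc]; exact J.smul_mem _ hx

private theorem Qf_mon {n : ℕ} {w : List ℕ} (h : fw n w) : mon w ∈ Qf n :=
  Submodule.subset_span ⟨w, h, rfl⟩

private theorem J4_T {J : Submodule ℤ P} (hJ : Bs 2 J) : IsT (J ⊔ Fge 4) :=
  isT_sup hJ.isT (isT_Fge 4 (by norm_num))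

/-- `x y z + z y x` -/
private theorem lin_mem {J : Submodule ℤ P} (hJ : Bs 2 J) (h1 : X 0 * X 1 * X 0 ∈ J ⊔ Fge 4) :
    mon [0, 1, 2] + mon [2, 1, 0] ∈ J ⊔ Fge 4 := by
  have hT := J4_T hJ
  have a1 := sb_mem hT (φ := fun i => if i = 0 then X 0 + X 2 else X i)
    (fun i => by split_ifs; exacts [Pp.add_mem (X_mem _) (X_mem _), X_mem _]) h1
  have a2 := sb_mem hT (φ := fun i => if i = 0 then X 2 else X i)
    (fun i => by split_ifs; exacts [X_mem _, X_mem _]) h1
  have a3 := Submodule.sub_mem _ (Submodule.sub_mem _ a1 a2) h1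
  convert a3 using 1
  simp only [map_mul, sb_X, mon_cons, mon_nil]
  simp only [if_true, one_ne_zero, if_false]
  noncomm_ring

private theorem fw3a : fw 3 [0, 1, 2] := by
  refine ⟨by decide, by decide⟩

private theorem fw3b : fw 3 [2, 1, 0] := by
  refine ⟨by decide, by decide⟩

/-- exchange of two blocks -/
private theorem xch {J : Submodule ℤ P} (hJ : Bs 2 J) (hg : mon [0, 1, 2] + mon [2, 1, 0] ∈ J ⊔ Fge 4) {L : ℕ}
    (hR : Rw J (L + 1)) (u a b c v : List ℕ) (ha : a ≠ []) (hb : b ≠ []) (hc : c ≠ [])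
    (hL : L ≤ u.length + a.length + b.length + c.length + v.length) :
    mon (u ++ (a ++ (b ++ (c ++ v)))) + mon (u ++ (c ++ (b ++ (a ++ v)))) ∈ J := by
  let σ : ℕ → List ℕ := fun i => if i = 0 then a else if i = 1 then b else c
  have hσ : ∀ i, σ i ≠ [] := by
    intro i
    show (if i = 0 then a else if i = 1 then b else c) ≠ []
    split_ifs
    exacts [ha, hb, hc]
  have h0 : σ 0 = a := rfl
  have h1 : σ 1 = b := rfl
  have h2 : σ 2 = c := rfl
  have hr : (List.range 3).flatMap σ = a ++ (b ++ (c ++ [])) := by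
    rw [show List.range 3 = [0, 1, 2] from rfl]
    simp only [List.flatMap_cons, List.flatMap_nil, h0, h1, h2]
  have h := cons_mem hJ (n := 3) (m := 4) (K := L + 1) (by norm_num)
    (Submodule.add_mem _ (Qf_mon fw3a) (Qf_mon fw3b)) hg hR hσ u v (by
      rw [hr]
      simp only [List.length_append, List.length_nil]
      omega)
  rw [map_add, sb_word, sb_word, mul_add, add_mul, ← mon_append, ← mon_append, ← mon_append,
    ← mon_append] at h
  simp only [List.flatMap_cons, List.flatMap_nil, h0, h1, h2, List.append_nil, List.append_assoc] at h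
  exact h

private theorem add_iff {J : Submodule ℤ P} (hJ : Bs 2 J) {a b : P} (hb : b ∈ Pp) : a + b ∈ J ↔ a - b ∈ J := by
  have h2 : (2 : ℤ) • b ∈ J := hJ.mul b hb
  have e : a + b = (a - b) + (2 : ℤ) • b := by rw [two_smul]; abel
  constructor
  · intro h
    have := J.sub_mem h h2
    rwa [e, add_sub_cancel_right] at this
  · intro h
    rw [e]
    exact J.add_mem h h2

/-- congruence modulo `J` -/
private def Cg (J : Submodule ℤ P) (v w : List ℕ) : Prop := mon v - mon w ∈ J

private theorem Cg.refl (J : Submodule ℤ P) (v : List ℕ) : Cg J v v := by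
  unfold Cg; rw [sub_self]; exact J.zero_mem

private theorem Cg.symm {J : Submodule ℤ P} {v w : List ℕ} (h : Cg J v w) : Cg J w v := by
  unfold Cg at *; rw [← neg_sub]; exact J.neg_mem h

private theorem Cg.trans {J : Submodule ℤ P} {u v w : List ℕ} (h : Cg J u v) (h' : Cg J v w) : Cg J u w := by
  unfold Cg at *
  have := J.add_mem h h'
  rwa [sub_add_sub_cancel] at this

private theorem Cg.mem {J : Submodule ℤ P} {v w : List ℕ} (h : Cg J v w) (hw : mon w ∈ J) : mon v ∈ J := by
  have := J.add_mem h hw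
  rwa [sub_add_cancel] at this

private theorem xcg {J : Submodule ℤ P} (hJ : Bs 2 J) (hg : mon [0, 1, 2] + mon [2, 1, 0] ∈ J ⊔ Fge 4) {L : ℕ}
    (hR : Rw J (L + 1)) (u a b c v : List ℕ) (ha : a ≠ []) (hb : b ≠ []) (hc : c ≠ [])
    (hL : L ≤ u.length + a.length + b.length + c.length + v.length) :
    Cg J (u ++ (a ++ (b ++ (c ++ v)))) (u ++ (c ++ (b ++ (a ++ v)))) := by
  refine (add_iff hJ (mon_mem ?_)).1 (xch hJ hg hR u a b c v ha hb hc hL)
  simp [ha, hb, hc]

/-- positions 1, 3 -/
private theorem x13 {J : Submodule ℤ P} (hJ : Bs 2 J) (hg : mon [0, 1, 2] + mon [2, 1, 0] ∈ J ⊔ Fge 4) {L : ℕ}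
    (hR : Rw J (L + 1)) (u v : List ℕ) (x y z t : ℕ) (hL : L ≤ u.length + 4 + v.length) :
    Cg J (u ++ x :: y :: z :: t :: v) (u ++ z :: y :: x :: t :: v) := by
  have h := xcg hJ hg hR u [x] [y] [z] (t :: v) (by simp) (by simp) (by simp) (by simp; omega)
  simpa using h

/-- positions 2, 4 -/
private theorem x24 {J : Submodule ℤ P} (hJ : Bs 2 J) (hg : mon [0, 1, 2] + mon [2, 1, 0] ∈ J ⊔ Fge 4) {L : ℕ}
    (hR : Rw J (L + 1)) (u v : List ℕ) (x y z t : ℕ) (hL : L ≤ u.length + 4 + v.length) :
    Cg J (u ++ x :: y :: z :: t :: v) (u ++ x :: t :: z :: y :: v) := by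
  have h := xcg hJ hg hR (u ++ [x]) [y] [z] [t] v (by simp) (by simp) (by simp) (by simp; omega)
  simpa using h

/-- positions 1, 4 -/
private theorem x14 {J : Submodule ℤ P} (hJ : Bs 2 J) (hg : mon [0, 1, 2] + mon [2, 1, 0] ∈ J ⊔ Fge 4) {L : ℕ}
    (hR : Rw J (L + 1)) (u v : List ℕ) (x y z t : ℕ) (hL : L ≤ u.length + 4 + v.length) :
    Cg J (u ++ x :: y :: z :: t :: v) (u ++ t :: y :: z :: x :: v) := by
  have h := xcg hJ hg hR u [x] [y, z] [t] v (by simp) (by simp) (by simp) (by simp; omega)
  simpa using h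

/-- adjacent letters -/
private theorem xadj {J : Submodule ℤ P} (hJ : Bs 2 J) (hg : mon [0, 1, 2] + mon [2, 1, 0] ∈ J ⊔ Fge 4) {L : ℕ}
    (hR : Rw J (L + 1)) (u v : List ℕ) (x y : ℕ) (hL : L ≤ u.length + 2 + v.length) (h4 : 4 ≤ L) :
    Cg J (u ++ x :: y :: v) (u ++ y :: x :: v) := by
  match v, hL with
  | z :: t :: v, hL =>
    have hL' : L ≤ u.length + 4 + v.length := by simp at hL; omega
    exact ((x14 hJ hg hR u v x y z t hL').trans (x24 hJ hg hR u v t y z x hL')).trans
      (x14 hJ hg hR u v t x z y hL')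
  | [t], hL =>
    rcases List.eq_nil_or_concat u with rfl | ⟨u, z, rfl⟩
    · simp at hL; omega
    · rw [List.concat_eq_append, List.append_assoc, List.append_assoc]
      simp only [List.cons_append, List.nil_append]
      have hL' : L ≤ u.length + 4 + ([] : List ℕ).length := by simp at hL ⊢; omega
      exact ((((x24 hJ hg hR u [] z x y t hL').trans (x13 hJ hg hR u [] z t y x hL')).trans
        (x14 hJ hg hR u [] y t z x hL')).trans (x13 hJ hg hR u [] x t z y hL')).trans
        (x24 hJ hg hR u [] z t x y hL')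
  | [], hL =>
    rcases List.eq_nil_or_concat u with rfl | ⟨u, t, rfl⟩
    · simp at hL; omega
    · rcases List.eq_nil_or_concat u with rfl | ⟨u, z, rfl⟩
      · simp at hL; omega
      · simp only [List.concat_eq_append, List.append_assoc, List.cons_append, List.nil_append]
        have hL' : L ≤ u.length + 4 + ([] : List ℕ).length := by simp at hL ⊢; omega
        exact ((x14 hJ hg hR u [] z t x y hL').trans (x13 hJ hg hR u [] y t x z hL')).trans
          (x14 hJ hg hR u [] x t y z hL')

private theorem xperm {J : Submodule ℤ P} (hJ : Bs 2 J) (hg : mon [0, 1, 2] + mon [2, 1, 0] ∈ J ⊔ Fge 4) {L : ℕ}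
    (hR : Rw J (L + 1)) (h4 : 4 ≤ L) {v w : List ℕ} (h : v.Perm w) :
    ∀ u : List ℕ, L ≤ u.length + v.length → Cg J (u ++ v) (u ++ w) := by
  induction h with
  | nil => intro u _; exact Cg.refl _ _
  | cons x _ ih =>
    intro u hu
    have := ih (u ++ [x]) (by simp at hu ⊢; omega)
    simpa using this
  | swap x y l =>
    intro u hu
    exact xadj hJ hg hR u l y x (by simp at hu; omega) h4
  | trans h1 _ ih1 ih2 =>
    intro u hu
    exact (ih1 u hu).trans (ih2 u (by rw [← h1.length_eq]; exact hu))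

private theorem fw2a : fw 2 [0, 1, 0] := by
  refine ⟨by decide, by decide⟩

private theorem Rw_succ {J : Submodule ℤ P} (hJ : Bs 2 J) (h1 : X 0 * X 1 * X 0 ∈ J ⊔ Fge 4)
    (hg : mon [0, 1, 2] + mon [2, 1, 0] ∈ J ⊔ Fge 4) {L : ℕ} (h4 : 4 ≤ L) (hR : Rw J (L + 1)) : Rw J L := by
  rintro w hw ⟨s, hs⟩
  obtain ⟨l, hl⟩ := (List.replicate_sublist_iff.2 hs).exists_perm_append
  have hlen := hl.length_eq
  simp at hlen
  obtain ⟨r, l, rfl⟩ : ∃ r l', l = r :: l' := by
    cases l with
    | nil => simp at hlen; omega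
    | cons r l => exact ⟨r, l, rfl⟩
  have hp : w.Perm ([s, r, s] ++ l) := hl.trans (by
    show (s :: s :: r :: l).Perm (s :: r :: s :: l)
    exact (List.Perm.swap r s l).cons s)
  refine Cg.mem (xperm hJ hg hR h4 hp [] (by simpa using hw)) ?_
  rw [List.nil_append]
  let σ : ℕ → List ℕ := fun i => if i = 0 then [s] else [r]
  have hσ : ∀ i, σ i ≠ [] := by
    intro i
    show (if i = 0 then [s] else [r]) ≠ []
    split_ifs <;> simp
  have h := cons_mem hJ (n := 2) (m := 4) (K := L + 1) (by norm_num) (f := mon [0, 1, 0]) (Qf_mon fw2a)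
    (by simpa [mon_cons, mon_nil, mul_assoc] using h1) hR hσ [] l (by
      rw [show List.range 2 = [0, 1] from rfl]
      simp [σ] at hlen ⊢
      omega)
  rw [sb_word, mon_nil, one_mul, ← mon_append] at h
  exact h

theorem ex2c {J : Submodule ℤ P} (hJ : Bs 2 J) (h1 : X 0 * X 1 * X 0 ∈ J ⊔ Fge 4)
    (h2 : X 0 ^ 2 * X 1 + X 1 * X 0 ^ 2 ∈ J ⊔ Fge 4) :
    X 0 * X 1 * X 0 ∈ J ∧ X 0 ^ 2 * X 1 + X 1 * X 0 ^ 2 ∈ J := by
  have hg := lin_mem hJ h1
  obtain ⟨N, hN⟩ := hJ.nil
  have hR : ∀ k m, 4 ≤ m → N ≤ m + k → Rw J m := by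
    intro k
    induction k with
    | zero => intro m _ hm w hw _; exact hN w (by omega)
    | succ k ih => intro m h4 hm; exact Rw_succ hJ h1 hg h4 (ih (m + 1) (by omega) (by omega))
  have hR4 : Rw J 4 := hR N 4 le_rfl (by omega)
  have key : ∀ f ∈ Qf 2, f ∈ J ⊔ Fge 4 → f ∈ J := by
    intro f hf hf'
    have h := cons_mem hJ (n := 2) (m := 4) (K := 4) (by norm_num) hf hf' hR4 (σ := fun i => [i])
      (by simp) [] [] (by simp)
    have e : sb (fun i => mon [i]) = AlgHom.id ℤ P := hom_ext_X fun i => by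
      rw [sb_X, mon_single]; rfl
    rw [e] at h
    simpa [mon_nil] using h
  refine ⟨key _ ?_ h1, key _ ?_ h2⟩
  · have : X 0 * X 1 * X 0 = mon [0, 1, 0] := by simp [mon_cons, mon_nil, mul_assoc]
    rw [this]
    exact Qf_mon fw2a
  · have : X 0 ^ 2 * X 1 + X 1 * X 0 ^ 2 = mon [0, 0, 1] + mon [1, 0, 0] := by
      simp [mon_cons, mon_nil, mul_assoc, pow_two]
    rw [this]
    exact Submodule.add_mem _ (Qf_mon ⟨by decide, by decide⟩) (Qf_mon ⟨by decide, by decide⟩)

end ADP
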