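import Pool.Agent.ADP.Nf2
import Pool.Agent.ADP.K3

/-!
# ADP-B2a: `p = 2`, the types are exact

`Bs 2 J`.  General tool (`lift` of ADP.Nf2): an element `f ∈ Qf n` (`f ∈ Ml n` or e.g. `x^2 y ∈ Qf 2`) with `f ∈ J ⊔ Fge m` is in `J` plus a combination of words in exactly the letters `0, ..., n-1` of length `≥ m`.  Substituting words for the letters and multiplying by
words: every consequence of total length `L` of `f` is in `J` + (combination of words of length `≥ L + (m - deg f)` with the same set of letters); if `m > n` these words have a repeated letter.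
* `ex2c` (`xyx`, `x^2 y + y x^2 ∈ J ⊔ Fge 4`).  Linearise `xyx`: `xyz + zyx ∈ J ⊔ Fge 4` (in `Ml 3`).  Claim `R(m)`: all words of length `≥ m` with a repeated letter are in `J`, for all `m ≥ 4`, by downward induction (`NilAt J N`).  Let `w` have length `L ≥ 4`, a repeated letter.
  Modulo (words of length `> L` with a repeated letter, in `J` by induction): `x(yz)t ≡ t(yz)x`, `xyzt ≡ zyxt`, `txyz ≡ tzyx` and the same inside longer words: the letters in positions `i, i+2` and `i, i+3` can be exchanged (any letters, equal or not: substitute letters in the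
  multilinear identity; the error words have a repeated letter as they come from words in exactly `x, y, z` of length `≥ 4`), so all arrangements of the letters of `w` are congruent, `w ≡ s a s u` with `s` the repeated letter, a consequence of `xyx`: in `J` + longer words with
  repeated letter.  So `R(4)`.  Then `xyx ∈ J` + (words in exactly `x, y` of length `≥ 4`) `≤ J`, and `x^2 y + y x^2 ∈ J` in the same way.
* `ex2a` (`[x,y]z`, `x^2 y ∈ J ⊔ Fge 4`).  For a word `w` put `exc w = w.length - (number of different letters)`.  Claim: every word with `exc w ≥ 2`, `w.length ≥ 3` is in `J`; and every `w = w' ++ [t]` with `w'` having a repeated letter and `w.length ≥ 3` is in `J`.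
  Downward induction on the length.  In a word `w = w' ++ [t]` of length `L ≥ 3` adjacent letters of `w'` can be exchanged modulo words of length `> L` with the same set of letters (so with larger `exc`, at least 1; is their `exc ≥ 2`?  the error of `u [a,b] v`, `v ≠ []`, coming from
  `[x,y]z ∈ J` + words in exactly `x,y,z` of length `≥ 4`: it has the same letters as `w` and length `≥ L + 1`).  If `w'` has a repeated letter `s`: `exc w ≥ 1`, errors have `exc ≥ 2`; `w ≡ s s r t`, a consequence of `x^2 y`: in `J` + (words with the same letters, length `≥ L+1`,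
  `exc ≥ 2`).  If `exc w ≥ 2` then `w'` has a repeated letter automatically.  So both claims follow by downward induction on the length (prove them together, the first one being a special case of the second).
  So `x^2 y ∈ J` + (words in exactly `x, y` of length `≥ 4`, `exc ≥ 2`) `≤ J`.  `[x,y]z ∈ J` + (words in exactly `x,y,z`, length `≥ 4`): length `≥ 5`: in `J`; length 4: `exc = 1`: in `J` unless the last letter is the repeated one: `≡ Om_i = mon [j,k,i,i]` modulo `J`
  (the first three letters can be permuted modulo words of `exc ≥ 2`).  So `[x,y]z - ∑ r_i Om_i ∈ J`.  Linearise `x_i ↦ x_i + x_3` (substitution minus the two pure parts; T-operator, so the result is in `J`): `[x,y]z ↦ 0`, `Om_j ↦ 0` (`j ≠ i`),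
  `Om_i ↦ mon [j,k,i,3] + mon [j,k,3,i]`.  If `r_i` is odd: `x_j x_k [x_i, x_3] ∈ J`, so all words `u [a,b]` of length 4 are in `J` (substitute letters), in particular `Om_i = x_j x_k x_i x_i`: with `x_k := x_i`, `x_i := x_k`, `x_3 := x_i`:
  `x_j x_i x_k x_i - x_j x_i x_i x_k ∈ J`; `x_j x_i x_i x_k ∈ J` (claim), `x_j x_i x_k x_i ≡ x_j x_k x_i x_i = Om_i` modulo `J` (exchange of non-last letters, errors in `J`): so all `Om_i ∈ J`, `[x,y]z ∈ J`.  If all `r_i` are even: `[x,y]z ∈ J`.
-/

namespace ADP

open AD ADN ADC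

/-- the span of the words with the given set of letters and length at least `L` -/
private noncomputable def bSp (S : Finset ℕ) (L : ℕ) : Submodule ℤ P :=
  Submodule.span ℤ {f | ∃ w : List ℕ, w.toFinset = S ∧ L ≤ w.length ∧ f = mon w}

/-- consequences -/
private theorem b2a_cons {J : Submodule ℤ P} (hJ : IsT J) {n m : ℕ} {f : P}
    (h : f ∈ J ⊔ Submodule.span ℤ {g | ∃ w, fw n w ∧ m ≤ w.length ∧ g = mon w}) (φ : ℕ → ℕ)
    (u v : List ℕ) : mon u * sb (fun i => X (φ i)) f * mon v ∈
      J ⊔ bSp (u.toFinset ∪ (Finset.range n).image φ ∪ v.toFinset) (u.length + m + v.length) := by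
  obtain ⟨j, hj, s, hs, rfl⟩ := Submodule.mem_sup.1 h
  rw [map_add, mul_add, add_mul]
  refine Submodule.add_mem _ (Submodule.mem_sup_left ?_) (Submodule.mem_sup_right ?_)
  · exact ADC.IsT.lm hJ _ _ (sb_mem hJ (fun i => X_mem _) hj)
  · clear h
    induction hs using Submodule.span_induction with
    | mem x hx =>
      obtain ⟨w, hw, hl, rfl⟩ := hx
      refine Submodule.subset_span ⟨u ++ w.map φ ++ v, ?_, ?_, ?_⟩
      · rw [List.toFinset_append, List.toFinset_append]
        congr 2
        ext a
        rw [List.mem_toFinset, List.mem_map, Finset.mem_image]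
        constructor
        · rintro ⟨b, hb, rfl⟩
          exact ⟨b, Finset.mem_range.2 (hw.1 b hb), rfl⟩
        · rintro ⟨b, hb, rfl⟩
          exact ⟨b, hw.2 b (Finset.mem_range.1 hb), rfl⟩
      · rw [List.length_append, List.length_append, List.length_map]
        omega
      · rw [sb_mon, mon_append, mon_append]
        congr 2
        unfold mon
        rw [List.map_map]
        rfl
    | zero => rw [map_zero, mul_zero, zero_mul]; exact Submodule.zero_mem _
    | add x y _ _ hx hy =>
      rw [map_add, mul_add, add_mul]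
      exact Submodule.add_mem _ hx hy
    | smul c x _ hx =>
      rw [map_zsmul, mul_smul_comm, smul_mul_assoc]
      exact Submodule.smul_mem _ _ hx

/-- exchange of two letters, not at the end -/
private theorem b2a_E1 {J : Submodule ℤ P} (hJ : IsT J)
    (h1 : g3 ∈ J ⊔ Submodule.span ℤ {g | ∃ w, fw 3 w ∧ 4 ≤ w.length ∧ g = mon w})
    (u v : List ℕ) (a b : ℕ) (hv : v ≠ []) : mon u * cm a b * mon v ∈
      J ⊔ bSp (u ++ a :: b :: v).toFinset (u.length + v.length + 3) := by
  obtain ⟨c, v', rfl⟩ := List.exists_cons_of_ne_nil hv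
  have h2 := b2a_cons hJ h1 (fun i => if i = 0 then a else if i = 1 then b else c) u v'
  have e1 : sb (fun i => X (if i = 0 then a else if i = 1 then b else c)) g3 = cm a b * X c := by
    unfold g3 cm
    simp only [map_mul, map_sub, sb_X]
    simp
  have e2 : u.toFinset ∪ (Finset.range 3).image
      (fun i => if i = 0 then a else if i = 1 then b else c) ∪ v'.toFinset =
      (u ++ a :: b :: c :: v').toFinset := by
    have e3 : (Finset.range 3).image (fun i => if i = 0 then a else if i = 1 then b else c) =
        {a, b, c} := by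
      rw [show Finset.range 3 = {0, 1, 2} from rfl]
      simp [Finset.image_insert]
    rw [e3]
    ext x
    simp only [Finset.mem_union, List.mem_toFinset, Finset.mem_insert, Finset.mem_singleton,
      List.mem_append, List.mem_cons]
    tauto
  rw [e1, e2] at h2
  have e3 : mon u * (cm a b * X c) * mon v' = mon u * cm a b * mon (c :: v') := by
    rw [mon_cons, mul_assoc, mul_assoc, mul_assoc]
  rw [e3] at h2
  have e4 : u.length + 4 + v'.length = u.length + (c :: v').length + 3 := by
    rw [List.length_cons]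
    omega
  rwa [e4] at h2

/-- squares, not at the end -/
private theorem b2a_E2 {J : Submodule ℤ P} (hJ : IsT J)
    (h1 : X 0 ^ 2 * X 1 ∈ J ⊔ Submodule.span ℤ {g | ∃ w, fw 2 w ∧ 4 ≤ w.length ∧ g = mon w})
    (s t : ℕ) (v : List ℕ) : mon (s :: s :: t :: v) ∈
      J ⊔ bSp (s :: s :: t :: v).toFinset (v.length + 4) := by
  have h2 := b2a_cons hJ h1 (fun i => if i = 0 then s else t) [] v
  have e1 : sb (fun i => X (if i = 0 then s else t)) (X 0 ^ 2 * X 1) = X s ^ 2 * X t := by
    simp only [map_mul, map_pow, sb_X]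
    simp
  have e2 : ([] : List ℕ).toFinset ∪ (Finset.range 2).image
      (fun i => if i = 0 then s else t) ∪ v.toFinset = (s :: s :: t :: v).toFinset := by
    have e3 : (Finset.range 2).image (fun i => if i = 0 then s else t) = {s, t} := by
      rw [show Finset.range 2 = {0, 1} from rfl]
      simp [Finset.image_insert]
    rw [e3]
    ext x
    simp only [Finset.mem_union, List.mem_toFinset, Finset.mem_insert, Finset.mem_singleton,
      List.mem_cons, List.not_mem_nil]
    tauto
  rw [e1, e2] at h2
  have e3 : mon [] * (X s ^ 2 * X t) * mon v = mon (s :: s :: t :: v) := by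
    rw [mon_cons, mon_cons, mon_cons, mon_nil, one_mul, pow_two]
    simp only [mul_assoc]
  rw [e3] at h2
  have e4 : ([] : List ℕ).length + 4 + v.length = v.length + 4 := by
    simp
    omega
  rwa [e4] at h2

/-- words of length at least `M` whose beginning has a repeated letter are in `J` -/
private def bHB (J : Submodule ℤ P) (M : ℕ) : Prop :=
  ∀ (w : List ℕ) (t : ℕ), M ≤ w.length + 1 → 2 ≤ w.length → ¬ w.Nodup → mon (w ++ [t]) ∈ J

private theorem b2a_Sp {J : Submodule ℤ P} {M L : ℕ} (h : bHB J M) (hM : M ≤ L + 1) (hL : 3 ≤ L)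
    {S : Finset ℕ} (hS : S.card + 1 ≤ L) : bSp S (L + 1) ≤ J := by
  refine Submodule.span_le.2 ?_
  rintro f ⟨w, hw, hl, rfl⟩
  have hne : w ≠ [] := by
    rintro rfl
    simp at hl
  obtain ⟨w', t, rfl⟩ : ∃ w' t, w = w' ++ [t] :=
    ⟨w.dropLast, w.getLast hne, (List.dropLast_append_getLast hne).symm⟩
  rw [List.length_append, List.length_singleton] at hl
  refine h w' t (by omega) (by omega) fun hnd => ?_
  have h1 : w'.toFinset.card = w'.length := List.toFinset_card_of_nodup hnd
  have h2 : w'.toFinset ⊆ S := by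
    rw [← hw, List.toFinset_append]
    exact Finset.subset_union_left
  have h3 := Finset.card_le_card h2
  omega

private theorem b2a_ex {J : Submodule ℤ P} (hJ : IsT J)
    (h1 : g3 ∈ J ⊔ Submodule.span ℤ {g | ∃ w, fw 3 w ∧ 4 ≤ w.length ∧ g = mon w})
    {M L : ℕ} (h : bHB J M) (hM : M ≤ L + 1) (hL : 3 ≤ L) {u v : List ℕ} (hp : u.Perm v)
    (p : List ℕ) (t : ℕ) (hlen : (p ++ u ++ [t]).length = L)
    (hc : (p ++ u ++ [t]).toFinset.card + 1 ≤ L) :
    mon (p ++ u ++ [t]) - mon (p ++ v ++ [t]) ∈ J := by
  induction hp generalizing p with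
  | nil => rw [sub_self]; exact J.zero_mem
  | cons x _ ih =>
    have h2 := ih (p ++ [x]) (by simpa using hlen) (by simpa using hc)
    simpa using h2
  | swap x y l =>
    have h2 := b2a_E1 hJ h1 p (l ++ [t]) y x (by simp)
    have e1 : mon p * cm y x * mon (l ++ [t]) = mon (p ++ (y :: x :: l) ++ [t]) -
        mon (p ++ (x :: y :: l) ++ [t]) := by
      simp only [mon_append, mon_cons, cm]
      noncomm_ring
    have e2 : p ++ y :: x :: (l ++ [t]) = p ++ (y :: x :: l) ++ [t] := by simp
    rw [e1, e2] at h2
    refine (sup_le le_rfl ?_ : J ⊔ _ ≤ J) h2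
    have e3 : p.length + (l ++ [t]).length + 3 = L + 1 := by
      rw [← hlen]
      simp only [List.length_append, List.length_cons, List.length_nil]
      omega
    rw [e3]
    exact b2a_Sp h hM hL hc
  | trans h2 h3 ih1 ih2 =>
    rename_i l1 l2 l3
    have e : (p ++ l1 ++ [t]).Perm (p ++ l2 ++ [t]) :=
      (List.Perm.append_left p h2).append_right [t]
    have a1 := ih1 p hlen hc
    have a2 := ih2 p (by rw [← e.length_eq]; exact hlen)
      (by rw [← List.toFinset_eq_of_perm _ _ e]; exact hc)
    have := J.add_mem a1 a2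
    rwa [sub_add_sub_cancel] at this

private theorem b2a_step {J : Submodule ℤ P} (hJ : IsT J)
    (h1 : g3 ∈ J ⊔ Submodule.span ℤ {g | ∃ w, fw 3 w ∧ 4 ≤ w.length ∧ g = mon w})
    (h2 : X 0 ^ 2 * X 1 ∈ J ⊔ Submodule.span ℤ {g | ∃ w, fw 2 w ∧ 4 ≤ w.length ∧ g = mon w})
    {M : ℕ} (h : bHB J (M + 1)) : bHB J M := by
  intro w t hM hw hnd
  rcases Nat.lt_or_ge M (w.length + 1) with hlt | hge
  · exact h w t hlt hw hnd
  have hMe : M = w.length + 1 := le_antisymm hM hge
  obtain ⟨s, hs⟩ := List.exists_duplicate_iff_not_nodup.2 hnd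
  rw [List.duplicate_iff_two_le_count] at hs
  have hs1 : s ∈ w := List.count_pos_iff.1 (by omega)
  have hp1 : w.Perm (s :: w.erase s) := List.perm_cons_erase hs1
  have hs2 : s ∈ w.erase s := by
    apply List.count_pos_iff.1
    rw [List.count_erase_self]
    omega
  have hp2 : (w.erase s).Perm (s :: (w.erase s).erase s) := List.perm_cons_erase hs2
  have hp : w.Perm (s :: s :: (w.erase s).erase s) := hp1.trans (hp2.cons s)
  set r := (w.erase s).erase s with hr
  have hcard : (w ++ [t]).toFinset.card + 1 ≤ w.length + 1 := by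
    have a1 : w.toFinset.card < w.length := by
      rcases Nat.lt_or_ge w.toFinset.card w.length with h3 | h3
      · exact h3
      · exfalso
        apply hnd
        have h4 : w.dedup.length = w.length := by
          have h5 : w.toFinset.card = w.dedup.length := rfl
          have h6 := (List.dedup_sublist w).length_le
          omega
        have h7 := (List.dedup_sublist w).eq_of_length h4
        rw [← h7]
        exact List.nodup_dedup w
    have a2 : (w ++ [t]).toFinset.card ≤ w.toFinset.card + 1 := by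
      rw [List.toFinset_append]
      refine (Finset.card_union_le _ _).trans ?_
      simp
    omega
  have a1 := b2a_ex hJ h1 h (L := w.length + 1) (by omega) (by omega) hp [] t (by simp)
    (by simpa using hcard)
  obtain ⟨c, v, hcv⟩ : ∃ c v, r ++ [t] = c :: v :=
    List.exists_cons_of_ne_nil (by simp)
  have a2 := b2a_E2 hJ h2 s c v
  have e1 : s :: s :: c :: v = [] ++ (s :: s :: r) ++ [t] := by
    rw [← hcv]
    simp
  have e2 : (w ++ [t]).Perm ([] ++ (s :: s :: r) ++ [t]) := by
    simpa using hp.append_right [t]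
  rw [e1] at a2
  have a3 : mon ([] ++ (s :: s :: r) ++ [t]) ∈ J := by
    refine (sup_le le_rfl ?_ : J ⊔ _ ≤ J) a2
    have e3 : v.length + 4 = (w.length + 1) + 1 := by
      have e4 := hp.length_eq
      have e5 := congrArg List.length hcv
      simp only [List.length_append, List.length_cons, List.length_nil] at e4 e5
      omega
    rw [e3]
    refine b2a_Sp h (by omega) (by omega) ?_
    rw [← List.toFinset_eq_of_perm _ _ e2]
    exact hcard
  have a4 := J.add_mem a1 a3
  rw [sub_add_cancel] at a4
  simpa using a4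

private theorem b2a_HB {J : Submodule ℤ P} (hJ : IsT J)
    (h1 : g3 ∈ J ⊔ Submodule.span ℤ {g | ∃ w, fw 3 w ∧ 4 ≤ w.length ∧ g = mon w})
    (h2 : X 0 ^ 2 * X 1 ∈ J ⊔ Submodule.span ℤ {g | ∃ w, fw 2 w ∧ 4 ≤ w.length ∧ g = mon w})
    {N : ℕ} (hN : NilAt J N) : bHB J 0 := by
  have key : ∀ k M, M + k = N → bHB J M := by
    intro k
    induction k with
    | zero =>
      intro M hM w t hl _ _
      refine hN _ ?_
      rw [List.length_append, List.length_singleton]
      omega
    | succ k ih =>
      intro M hM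
      exact b2a_step hJ h1 h2 (ih (M + 1) (by omega))
  exact key N 0 (by omega)

/-- linearisation in `x_i` -/
private noncomputable def bD (i : ℕ) (f : P) : P :=
  sb (fun j => if j = i then X i + X 3 else X j) f - f - sb (fun j => if j = i then X 3 else X j) f

private theorem bD_mem {J : Submodule ℤ P} (hJ : IsT J) (i : ℕ) {f : P} (hf : f ∈ J) : bD i f ∈ J := by
  refine J.sub_mem (J.sub_mem (sb_mem hJ (fun j => ?_) hf) hf) (sb_mem hJ (fun j => ?_) hf)
  · split_ifs
    · exact Pp.add_mem (X_mem _) (X_mem _)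
    · exact X_mem _
  · split_ifs <;> exact X_mem _

private theorem bD_add (i : ℕ) (f g : P) : bD i (f + g) = bD i f + bD i g := by
  unfold bD
  rw [map_add, map_add]
  abel

private theorem bD_smul (i : ℕ) (c : ℤ) (f : P) : bD i (c • f) = c • bD i f := by
  unfold bD
  rw [map_zsmul, map_zsmul, smul_sub, smul_sub]

private theorem b2a_fin {J : Submodule ℤ P} (hJ : Bs 2 J)
    (h1 : g3 ∈ J ⊔ Submodule.span ℤ {g | ∃ w, fw 3 w ∧ 4 ≤ w.length ∧ g = mon w})
    (hB : bHB J 0) {i j k : ℕ} (hi : i < 3) (hj : j < 3) (hk : k < 3) (hij : i ≠ j) (hik : i ≠ k)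
    (hjk : j ≠ k) {r : ℤ} (hr : r • (mon [j, k, i, 3] + mon [j, k, 3, i]) ∈ J) :
    r • mon [j, k, i, i] ∈ J := by
  have h2P : ∀ f ∈ Pp, (2 : ℤ) • f ∈ J := hJ.mul
  have hm : ∀ w : List ℕ, w ≠ [] → mon w ∈ Pp := fun w hw => mon_mem hw
  rcases Int.even_or_odd r with ⟨m, rfl⟩ | ⟨m, rfl⟩
  · rw [← two_mul, mul_comm, mul_smul]
    exact J.smul_mem _ (h2P _ (hm _ (by simp)))
  · refine J.smul_mem _ ?_
    have a1 : mon [j, k, i, 3] + mon [j, k, 3, i] ∈ J := by
      have a2 : (2 * m) • (mon [j, k, i, 3] + mon [j, k, 3, i]) ∈ J := by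
        rw [mul_comm, mul_smul]
        exact J.smul_mem _ (h2P _ (Pp.add_mem (hm _ (by simp)) (hm _ (by simp))))
      have a3 := J.sub_mem hr a2
      rwa [add_smul, one_smul, add_sub_cancel_left] at a3
    have a2 := sb_mem hJ.isT (φ := fun a => X (if a = k then i else if a = i then k else
      if a = 3 then i else a)) (fun a => X_mem _) a1
    have h3i : (3 : ℕ) ≠ i := by omega
    have h3k : (3 : ℕ) ≠ k := by omega
    have h3j : (3 : ℕ) ≠ j := by omega
    have e1 : ∀ w : List ℕ, sb (fun a => X (if a = k then i else if a = i then k else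
        if a = 3 then i else a)) (mon w) = mon (w.map fun a => if a = k then i else
        if a = i then k else if a = 3 then i else a) := by
      intro w
      rw [sb_mon]
      unfold mon
      rw [List.map_map]
      rfl
    rw [map_add, e1, e1] at a2
    simp only [List.map_cons, List.map_nil, if_neg hjk, if_neg hij.symm, if_neg h3j.symm, if_neg hik,
      if_true, if_neg h3k, if_neg h3i] at a2
    have a3 : mon [j, i, i, k] ∈ J := hB [j, i, i] k (by simp) (by simp) (by simp)
    have a4 := b2a_ex hJ.isT h1 hB (L := 4) (by omega) (by omega) (List.Perm.swap k i []) [j] i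
      (by simp) (by
        have : ([j] ++ [i, k] ++ [i]).toFinset.card ≤ 3 := by
          have e : ([j] ++ [i, k] ++ [i]).toFinset = {j, i, k} := by
            ext x
            simp
            tauto
          rw [e]
          exact Finset.card_le_three
        omega)
    have a5 : mon [j, i, k, i] - mon [j, k, i, i] ∈ J := a4
    have a6 := J.sub_mem (J.sub_mem a2 a3) a5
    have e2 : mon [j, i, k, i] + mon [j, i, i, k] - mon [j, i, i, k] -
        (mon [j, i, k, i] - mon [j, k, i, i]) = mon [j, k, i, i] := by abel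
    rwa [e2] at a6

theorem ex2a {J : Submodule ℤ P} (hJ : Bs 2 J) (h1 : g3 ∈ J ⊔ Fge 4) (h2 : X 0 ^ 2 * X 1 ∈ J ⊔ Fge 4) :
    g3 ∈ J ∧ X 0 ^ 2 * X 1 ∈ J := by
  have hT := hJ.isT
  have hw1 : g3 = mon [0, 1, 2] - mon [1, 0, 2] := by
    unfold g3
    simp only [mon_cons, mon_nil, mul_one, sub_mul, mul_assoc]
  have hw2 : (X 0 ^ 2 * X 1 : P) = mon [0, 0, 1] := by
    simp only [mon_cons, mon_nil, mul_one, pow_two, mul_assoc]
  have hq1 : g3 ∈ Qf 3 := by
    rw [hw1]
    refine (Qf 3).sub_mem (Submodule.subset_span ⟨_, fw_of_perm (by decide), rfl⟩)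
      (Submodule.subset_span ⟨_, fw_of_perm (by decide), rfl⟩)
  have hq2 : (X 0 ^ 2 * X 1 : P) ∈ Qf 2 := by
    rw [hw2]
    refine Submodule.subset_span ⟨_, ⟨by simp, fun i hi => ?_⟩, rfl⟩
    interval_cases i <;> simp
  have l1 := lift (p := 2) hT (Mul.sq hJ.mul) hq1 h1
  have l2 := lift (p := 2) hT (Mul.sq hJ.mul) hq2 h2
  obtain ⟨N, hN⟩ := hJ.nil
  have hB := b2a_HB hT l1 l2 hN
  have hx : X 0 ^ 2 * X 1 ∈ J := by
    rw [hw2]
    exact hB [0, 0] 1 (by simp) (by simp) (by simp)
  refine ⟨?_, hx⟩
  have hspan : Submodule.span ℤ {g | ∃ w, fw 3 w ∧ 4 ≤ w.length ∧ g = mon w} ≤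
      J ⊔ Submodule.span ℤ {mon [1, 2, 0, 0], mon [0, 2, 1, 1], mon [0, 1, 2, 2]} := by
    refine Submodule.span_le.2 ?_
    rintro f ⟨w, hw, hl, rfl⟩
    have hne : w ≠ [] := by
      rintro rfl
      simp at hl
    obtain ⟨w', t, rfl⟩ : ∃ w' t, w = w' ++ [t] :=
      ⟨w.dropLast, w.getLast hne, (List.dropLast_append_getLast hne).symm⟩
    rw [List.length_append, List.length_singleton] at hl
    by_cases hnd : w'.Nodup
    · have hlt : ∀ a ∈ w', a < 3 := fun a ha => hw.1 a (List.mem_append_left _ ha)
      have ht : t < 3 := hw.1 t (by simp)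
      have hsub : List.Subperm w' (List.range 3) :=
        List.subperm_of_subset hnd fun a ha => List.mem_range.2 (hlt a ha)
      have hle := hsub.length_le
      rw [List.length_range] at hle
      have hperm : w'.Perm (List.range 3) := hsub.perm_of_length_le (by
        rw [List.length_range]
        omega)
      have hlen : w'.length = 3 := by omega
      have hex : ∀ v : List ℕ, w'.Perm v → mon (w' ++ [t]) - mon (v ++ [t]) ∈ J := by
        intro v hv
        have a4 := b2a_ex hT l1 hB (L := 4) (by omega) (by omega) hv [] t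
          (by simp [hlen]) (by
            have e : ([] ++ w' ++ [t]).toFinset ⊆ Finset.range 3 := by
              intro a ha
              rw [List.nil_append, List.mem_toFinset] at ha
              exact Finset.mem_range.2 (hw.1 a ha)
            have := Finset.card_le_card e
            rw [Finset.card_range] at this
            omega)
        simpa using a4
      have hfin : ∀ v : List ℕ, (List.range 3).Perm v → mon (v ++ [t]) ∈
          ({mon [1, 2, 0, 0], mon [0, 2, 1, 1], mon [0, 1, 2, 2]} : Set P) → mon (w' ++ [t]) ∈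
          J ⊔ Submodule.span ℤ {mon [1, 2, 0, 0], mon [0, 2, 1, 1], mon [0, 1, 2, 2]} := by
        intro v hv hm
        have a1 := Submodule.mem_sup_left (T := Submodule.span ℤ
          {mon [1, 2, 0, 0], mon [0, 2, 1, 1], mon [0, 1, 2, 2]}) (hex v (hperm.trans hv))
        have a2 := Submodule.mem_sup_right (S := J) (Submodule.subset_span (R := ℤ) hm)
        have a3 := Submodule.add_mem _ a1 a2
        rwa [sub_add_cancel] at a3
      interval_cases t
      · exact hfin [1, 2, 0] (by decide) (by simp)
      · exact hfin [0, 2, 1] (by decide) (by simp)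
      · exact hfin [0, 1, 2] (by decide) (by simp)
    · exact Submodule.mem_sup_left (hB w' t (by omega) (by omega) hnd)
  obtain ⟨f, hf, g, hg, hfg⟩ := Submodule.mem_sup.1 ((sup_le le_sup_left hspan) l1)
  rw [Submodule.mem_span_insert] at hg
  obtain ⟨r0, g', hg', rfl⟩ := hg
  rw [Submodule.mem_span_pair] at hg'
  obtain ⟨r1, r2, rfl⟩ := hg'
  have zz : ∀ (i : ℕ) (w : List ℕ), bD i (mon w) =
      (w.map fun j => if j = i then X i + X 3 else X j).prod - mon w -
        (w.map fun j => if j = i then X 3 else X j).prod := by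
    intro i w
    unfold bD
    rw [sb_mon, sb_mon]
  have z0 : bD 0 g3 = 0 := by
    rw [hw1, sub_eq_add_neg, bD_add, ← neg_one_zsmul, bD_smul, zz, zz]
    simp [mon]
    noncomm_ring
  have z1 : bD 1 g3 = 0 := by
    rw [hw1, sub_eq_add_neg, bD_add, ← neg_one_zsmul, bD_smul, zz, zz]
    simp [mon]
    noncomm_ring
  have z2 : bD 2 g3 = 0 := by
    rw [hw1, sub_eq_add_neg, bD_add, ← neg_one_zsmul, bD_smul, zz, zz]
    simp [mon]
    noncomm_ring
  have z3 : bD 0 (mon [1, 2, 0, 0]) = mon [1, 2, 0, 3] + mon [1, 2, 3, 0] := by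
    rw [zz]
    simp [mon]
    noncomm_ring
  have z4 : bD 0 (mon [0, 2, 1, 1]) = 0 := by
    rw [zz]
    simp [mon]
    noncomm_ring
  have z5 : bD 0 (mon [0, 1, 2, 2]) = 0 := by
    rw [zz]
    simp [mon]
    noncomm_ring
  have z6 : bD 1 (mon [1, 2, 0, 0]) = 0 := by
    rw [zz]
    simp [mon]
    noncomm_ring
  have z7 : bD 1 (mon [0, 2, 1, 1]) = mon [0, 2, 1, 3] + mon [0, 2, 3, 1] := by
    rw [zz]
    simp [mon]
    noncomm_ring
  have z8 : bD 1 (mon [0, 1, 2, 2]) = 0 := by
    rw [zz]
    simp [mon]
    noncomm_ring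
  have z9 : bD 2 (mon [1, 2, 0, 0]) = 0 := by
    rw [zz]
    simp [mon]
    noncomm_ring
  have z10 : bD 2 (mon [0, 2, 1, 1]) = 0 := by
    rw [zz]
    simp [mon]
    noncomm_ring
  have z11 : bD 2 (mon [0, 1, 2, 2]) = mon [0, 1, 2, 3] + mon [0, 1, 3, 2] := by
    rw [zz]
    simp [mon]
    noncomm_ring
  have d0 := congrArg (bD 0) hfg
  have d1 := congrArg (bD 1) hfg
  have d2 := congrArg (bD 2) hfg
  rw [bD_add, bD_add, bD_add, bD_smul, bD_smul, bD_smul, z0, z3, z4, z5, smul_zero, smul_zero,
    add_zero, add_zero] at d0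
  rw [bD_add, bD_add, bD_add, bD_smul, bD_smul, bD_smul, z1, z6, z7, z8, smul_zero, smul_zero,
    add_zero, zero_add] at d1
  rw [bD_add, bD_add, bD_add, bD_smul, bD_smul, bD_smul, z2, z9, z10, z11, smul_zero, smul_zero,
    zero_add, zero_add] at d2
  have m0 : r0 • mon [1, 2, 0, 0] ∈ J := by
    refine b2a_fin hJ l1 hB (i := 0) (j := 1) (k := 2) (by omega) (by omega) (by omega) (by omega)
      (by omega) (by omega) ?_
    rw [← neg_eq_of_add_eq_zero_right d0]
    exact J.neg_mem (bD_mem hT 0 hf)
  have m1 : r1 • mon [0, 2, 1, 1] ∈ J := by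
    refine b2a_fin hJ l1 hB (i := 1) (j := 0) (k := 2) (by omega) (by omega) (by omega) (by omega)
      (by omega) (by omega) ?_
    rw [← neg_eq_of_add_eq_zero_right d1]
    exact J.neg_mem (bD_mem hT 1 hf)
  have m2 : r2 • mon [0, 1, 2, 2] ∈ J := by
    refine b2a_fin hJ l1 hB (i := 2) (j := 0) (k := 1) (by omega) (by omega) (by omega) (by omega)
      (by omega) (by omega) ?_
    rw [← neg_eq_of_add_eq_zero_right d2]
    exact J.neg_mem (bD_mem hT 2 hf)
  rw [← hfg]
  exact J.add_mem hf (J.add_mem m0 (J.add_mem m1 m2))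

end ADP
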