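import Pool.Agent.ADP.P1
import Pool.Agent.ADP.K3b

/-!
# ADP-Mod3: the multilinear polynomials modulo the identities

`Ym k`: the even word with middle letter `k`; `Yl k`: the even word with last letter `k`.
* `mid`: `h : xyz - ε zyx ∈ J`: renamed: every odd word is `≡ ε` times the even word with the same middle letter.  `Ml 3` is spanned by six words (`M3_words`).  `Act`: check the nine cases (three transpositions, three `k`):
  a transposition maps the even word with middle letter `k` to the odd word with middle letter `swap i j k`, `≡ ε Ym (swap i j k)`.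
* `last`: the same with `h : xyz - ε yxz ∈ J`.
* `last_n` (`g3 ∈ J`, all `n ≥ 1`): modulo `Dn 3 ≤ J` (see ADP.Rd3 `Dn_of_g3`; here inline: `u [x_i,x_j] v ∈ J` for `v ≠ []`) a word of `Ml n` is `Yw n i`, `i` its last letter (`perm_Dn`); for `n = 1, 2` the words are determined by the last letter.
* `two_cl` (`g5 ∈ J`): `xyz ≡ yzx ≡ zxy`, `yxz ≡ xzy ≡ zyx`.
* `alt4` (`g1 ∈ J`): modulo `J` every word of `Ml 4` is `± mw 4` (exchanges (13), (14), (24), which generate the symmetric group; so any permutation: induct on a product of these, or enumerate the 24 words).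
* `one_n` (`Cn n ≤ J`): `perm_Cn`.
-/

namespace ADP

open AD ADN ADC

noncomputable def Ym (k : ℕ) : P :=
  if k = 0 then X 2 * X 0 * X 1 else if k = 1 then X 0 * X 1 * X 2 else X 1 * X 2 * X 0

noncomputable def Yl (k : ℕ) : P :=
  if k = 0 then X 1 * X 2 * X 0 else if k = 1 then X 2 * X 0 * X 1 else X 0 * X 1 * X 2

/-! ### renaming three letters -/

private noncomputable def md_ph (a b c : ℕ) (i : ℕ) : P :=
  if i = 0 then X a else if i = 1 then X b else if i = 2 then X c else X i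

private theorem md_ph_mem (a b c i : ℕ) : md_ph a b c i ∈ Pp := by
  unfold md_ph
  split_ifs <;> exact X_mem _

private theorem md_ren {J : Submodule ℤ P} (hJ : IsT J) (a b c : ℕ) {f : P} (hf : f ∈ J) :
    sb (md_ph a b c) f ∈ J := sb_mem hJ (md_ph_mem a b c) hf

private theorem md_0 (a b c : ℕ) : sb (md_ph a b c) (X 0) = X a := by rw [sb_X]; rfl
private theorem md_1 (a b c : ℕ) : sb (md_ph a b c) (X 1) = X b := by rw [sb_X]; rfl
private theorem md_2 (a b c : ℕ) : sb (md_ph a b c) (X 2) = X c := by rw [sb_X]; rfl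

private theorem md_mon3 (a b c : ℕ) : mon [a, b, c] = X a * X b * X c := by
  rw [mon_cons, mon_cons, mon_single, mul_assoc]

private theorem md_mon4 (a b c d : ℕ) : mon [a, b, c, d] = X a * X b * X c * X d := by
  rw [mon_cons, mon_cons, mon_cons, mon_single]
  simp only [mul_assoc]

/-- the middle letter -/
private def md_wm (k : ℕ) : List ℕ := if k = 0 then [2, 0, 1] else if k = 1 then [0, 1, 2] else [1, 2, 0]

private def md_wl (k : ℕ) : List ℕ := if k = 0 then [1, 2, 0] else if k = 1 then [2, 0, 1] else [0, 1, 2]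

private theorem md_Ym (k : ℕ) : Ym k = mon (md_wm k) := by
  unfold Ym md_wm
  split_ifs <;> rw [md_mon3]

private theorem md_Yl (k : ℕ) : Yl k = mon (md_wl k) := by
  unfold Yl md_wl
  split_ifs <;> rw [md_mon3]

private def md_s12 (l : List ℕ) : List ℕ :=
  match l with
  | [a, b, c] => [b, a, c]
  | l => l

theorem Ym_Ml (k : ℕ) : Ym k ∈ Ml 3 := by
  rw [md_Ym]
  unfold md_wm
  split_ifs <;> exact Ml_mon (by decide)

theorem Yl_Ml (k : ℕ) : Yl k ∈ Ml 3 := by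
  rw [md_Yl]
  unfold md_wl
  split_ifs <;> exact Ml_mon (by decide)

private theorem md_in {J : Submodule ℤ P} {S : Set P} {f g : P} {ε : ℤ} (h : f - ε • g ∈ J)
    (hg : g ∈ J ⊔ Submodule.span ℤ S) : f ∈ J ⊔ Submodule.span ℤ S := by
  have e : f = (f - ε • g) + ε • g := by abel
  rw [e]
  exact Submodule.add_mem _ (Submodule.mem_sup_left h) (Submodule.smul_mem _ _ hg)

private theorem md_wm_swap : ∀ i j : Fin 3, i ≠ j → ∀ k < 3,
    (md_wm k).map (pN 3 (Equiv.swap i j)) = (md_wm (Equiv.swap (i : ℕ) (j : ℕ) k)).reverse := by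
  decide

private theorem md_wl_swap : ∀ i j : Fin 3, i ≠ j → ∀ k < 3,
    (md_wl k).map (pN 3 (Equiv.swap i j)) = md_s12 (md_wl (Equiv.swap (i : ℕ) (j : ℕ) k)) := by
  decide

private theorem md_wm_form (k : ℕ) : ∃ a b c, md_wm k = [a, b, c] := by
  unfold md_wm
  split_ifs <;> exact ⟨_, _, _, rfl⟩

private theorem md_wl_form (k : ℕ) : ∃ a b c, md_wl k = [a, b, c] := by
  unfold md_wl
  split_ifs <;> exact ⟨_, _, _, rfl⟩

/-- six words -/
private theorem md_six {K : Submodule ℤ P} (h1 : X 0 * X 1 * X 2 ∈ K) (h2 : X 1 * X 2 * X 0 ∈ K)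
    (h3 : X 2 * X 0 * X 1 ∈ K) (h4 : X 1 * X 0 * X 2 ∈ K) (h5 : X 0 * X 2 * X 1 ∈ K)
    (h6 : X 2 * X 1 * X 0 ∈ K) : Ml 3 ≤ K := by
  intro g hg
  rw [M3_words hg]
  exact K.add_mem (K.add_mem (K.add_mem (K.add_mem (K.add_mem (K.smul_mem _ h1) (K.smul_mem _ h2))
    (K.smul_mem _ h3)) (K.smul_mem _ h4)) (K.smul_mem _ h5)) (K.smul_mem _ h6)

theorem mid {J : Submodule ℤ P} (hJ : IsT J) {ε : ℤ} (hε : ε = 1 ∨ ε = -1)
    (h : X 0 * X 1 * X 2 - ε • (X 2 * X 1 * X 0) ∈ J) :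
    Ml 3 ≤ J ⊔ Submodule.span ℤ {f | ∃ k < 3, f = Ym k} ∧ Act J 3 ε Ym := by
  have hr : ∀ a b c : ℕ, X a * X b * X c - ε • (X c * X b * X a) ∈ J := by
    intro a b c
    have h1 := md_ren hJ a b c h
    simpa only [map_sub, map_zsmul, map_mul, md_0, md_1, md_2] using h1
  have hY : ∀ k < 3, Ym k ∈ J ⊔ Submodule.span ℤ {f | ∃ k < 3, f = Ym k} := fun k hk =>
    Submodule.mem_sup_right (Submodule.subset_span ⟨k, hk, rfl⟩)
  have y0 : X 2 * X 0 * X 1 ∈ J ⊔ Submodule.span ℤ {f | ∃ k < 3, f = Ym k} := hY 0 (by omega)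
  have y1 : X 0 * X 1 * X 2 ∈ J ⊔ Submodule.span ℤ {f | ∃ k < 3, f = Ym k} := hY 1 (by omega)
  have y2 : X 1 * X 2 * X 0 ∈ J ⊔ Submodule.span ℤ {f | ∃ k < 3, f = Ym k} := hY 2 (by omega)
  refine ⟨md_six y1 y2 y0 (md_in (hr 1 0 2) y0) (md_in (hr 0 2 1) y2) (md_in (hr 2 1 0) y1), ?_⟩
  intro i j k hk hij
  rw [md_Ym, md_Ym, rn_mon, md_wm_swap i j hij k hk]
  obtain ⟨a, b, c, habc⟩ := md_wm_form (Equiv.swap (i : ℕ) (j : ℕ) k)
  rw [habc]
  show mon [c, b, a] - ε • mon [a, b, c] ∈ J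
  rw [md_mon3, md_mon3]
  exact hr c b a

theorem last {J : Submodule ℤ P} (hJ : IsT J) {ε : ℤ} (hε : ε = 1 ∨ ε = -1)
    (h : X 0 * X 1 * X 2 - ε • (X 1 * X 0 * X 2) ∈ J) :
    Ml 3 ≤ J ⊔ Submodule.span ℤ {f | ∃ k < 3, f = Yl k} ∧ Act J 3 ε Yl := by
  have hr : ∀ a b c : ℕ, X a * X b * X c - ε • (X b * X a * X c) ∈ J := by
    intro a b c
    have h1 := md_ren hJ a b c h
    simpa only [map_sub, map_zsmul, map_mul, md_0, md_1, md_2] using h1
  have hY : ∀ k < 3, Yl k ∈ J ⊔ Submodule.span ℤ {f | ∃ k < 3, f = Yl k} := fun k hk =>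
    Submodule.mem_sup_right (Submodule.subset_span ⟨k, hk, rfl⟩)
  have y0 : X 1 * X 2 * X 0 ∈ J ⊔ Submodule.span ℤ {f | ∃ k < 3, f = Yl k} := hY 0 (by omega)
  have y1 : X 2 * X 0 * X 1 ∈ J ⊔ Submodule.span ℤ {f | ∃ k < 3, f = Yl k} := hY 1 (by omega)
  have y2 : X 0 * X 1 * X 2 ∈ J ⊔ Submodule.span ℤ {f | ∃ k < 3, f = Yl k} := hY 2 (by omega)
  refine ⟨md_six y2 y0 y1 (md_in (hr 1 0 2) y2) (md_in (hr 0 2 1) y1) (md_in (hr 2 1 0) y0), ?_⟩
  intro i j k hk hij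
  rw [md_Yl, md_Yl, rn_mon, md_wl_swap i j hij k hk]
  obtain ⟨a, b, c, habc⟩ := md_wl_form (Equiv.swap (i : ℕ) (j : ℕ) k)
  rw [habc]
  show mon [b, a, c] - ε • mon [a, b, c] ∈ J
  rw [md_mon3, md_mon3]
  exact hr b a c

/-- `Dn m ≤ J` for every `m` -/
private theorem md_Dn {J : Submodule ℤ P} (hJ : IsT J) (h3 : g3 ∈ J) (m : ℕ) : Dn m ≤ J := by
  refine Submodule.span_le.2 ?_
  rintro f ⟨u, v, i, j, hv, -, rfl⟩
  obtain ⟨c, t, rfl⟩ := List.exists_cons_of_ne_nil hv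
  have h1 := md_ren hJ i j c h3
  unfold g3 at h1
  simp only [map_sub, map_mul, md_0, md_1, md_2] at h1
  have h2 := ADC.IsT.lm hJ (mon u) (mon t) h1
  rw [mon_cons]
  have e : mon u * (X i * X j - X j * X i) * (X c * mon t) =
      mon u * ((X i * X j - X j * X i) * X c) * mon t := by
    simp only [mul_assoc]
  show mon u * (X i * X j - X j * X i) * (X c * mon t) ∈ J
  rw [e]
  exact h2

private theorem md_Yw {J : Submodule ℤ P} (hJ : IsT J) (h3 : g3 ∈ J) {n m : ℕ} {u : List ℕ}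
    (h : (u ++ [m]).Perm (List.range n)) : mon (u ++ [m]) - Yw n m ∈ J := by
  have h1 : u.Perm ((List.range n).erase m) := by
    have h2 : (m :: u).Perm (List.range n) := (List.perm_append_singleton m u).symm.trans h
    have h3 := h2.erase m
    rwa [List.erase_cons_head] at h3
  exact md_Dn hJ h3 _ (perm_Dn h1 (List.cons_ne_nil m []))

private theorem md_pN {n : ℕ} (i j : Fin n) {k : ℕ} (hk : k < n) :
    pN n (Equiv.swap i j) k = Equiv.swap (i : ℕ) (j : ℕ) k := by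
  unfold pN
  rw [dif_pos hk, Equiv.swap_apply_def, Equiv.swap_apply_def]
  by_cases h1 : k = (i : ℕ)
  · rw [if_pos (Fin.ext h1), if_pos h1]
  · rw [if_neg (fun h => h1 (congrArg Fin.val h)), if_neg h1]
    by_cases h2 : k = (j : ℕ)
    · rw [if_pos (Fin.ext h2), if_pos h2]
    · rw [if_neg (fun h => h2 (congrArg Fin.val h)), if_neg h2]

theorem last_n {J : Submodule ℤ P} (hJ : IsT J) (h3 : g3 ∈ J) {n : ℕ} (hn : 1 ≤ n) :
    Ml n ≤ J ⊔ Submodule.span ℤ {f | ∃ k < n, f = Yw n k} ∧ Act J n 1 (Yw n) := by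
  constructor
  · refine Submodule.span_le.2 ?_
    rintro f ⟨w, hw, rfl⟩
    have hne : w ≠ [] := by
      rintro rfl
      have h1 := hw.length_eq
      rw [List.length_range] at h1
      simp at h1
      omega
    obtain ⟨u, m, rfl⟩ : ∃ u m, w = u ++ [m] :=
      ⟨w.dropLast, w.getLast hne, (List.dropLast_append_getLast hne).symm⟩
    have hm : m < n := List.mem_range.1 (hw.mem_iff.1 (by simp))
    have e : mon (u ++ [m]) = (mon (u ++ [m]) - Yw n m) + Yw n m := by abel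
    show mon (u ++ [m]) ∈ _
    rw [e]
    exact Submodule.add_mem _ (Submodule.mem_sup_left (md_Yw hJ h3 hw))
      (Submodule.mem_sup_right (Submodule.subset_span ⟨m, hm, rfl⟩))
  · intro i j k hk hij
    have e1 : rn n (Equiv.swap i j) (Yw n k) =
        mon (((List.range n).erase k).map (pN n (Equiv.swap i j)) ++ [Equiv.swap (i : ℕ) (j : ℕ) k]) := by
      unfold Yw
      rw [rn_mon, List.map_append, List.map_singleton, md_pN i j hk]
    have h1 : ((List.range n).erase k ++ [k]).Perm (List.range n) :=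
      (List.perm_append_singleton k _).trans (List.perm_cons_erase (List.mem_range.2 hk)).symm
    have h2 := perm_map (Equiv.swap i j) h1
    rw [List.map_append, List.map_singleton, md_pN i j hk] at h2
    rw [e1, one_smul]
    exact md_Yw hJ h3 h2

theorem two_cl {J : Submodule ℤ P} (hJ : IsT J) (h5 : g5 ∈ J) :
    Ml 3 ≤ J ⊔ Submodule.span ℤ {X 0 * X 1 * X 2, X 1 * X 0 * X 2} := by
  have hr : ∀ a b c : ℕ, X a * X b * X c - (1 : ℤ) • (X b * X c * X a) ∈ J := by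
    intro a b c
    have h1 := md_ren hJ a b c h5
    unfold g5 at h1
    rw [one_smul]
    simpa only [map_sub, map_mul, md_0, md_1, md_2] using h1
  have y1 : X 0 * X 1 * X 2 ∈ J ⊔ Submodule.span ℤ {X 0 * X 1 * X 2, X 1 * X 0 * X 2} :=
    Submodule.mem_sup_right (Submodule.subset_span (Set.mem_insert _ _))
  have y2 : X 1 * X 0 * X 2 ∈ J ⊔ Submodule.span ℤ {X 0 * X 1 * X 2, X 1 * X 0 * X 2} :=
    Submodule.mem_sup_right (Submodule.subset_span (Set.mem_insert_of_mem _ (Set.mem_singleton _)))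
  have y3 := md_in (hr 2 0 1) y1
  have y4 := md_in (hr 2 1 0) y2
  exact md_six y1 (md_in (hr 1 2 0) y3) y3 y2 (md_in (hr 0 2 1) y4) y4

theorem alt4 {J : Submodule ℤ P} (hJ : IsT J) (h1 : g1 ∈ J) : Ml 4 ≤ J ⊔ Submodule.span ℤ {mw 4} := by
  have hr : ∀ a b c : ℕ, X a * X b * X c + X c * X b * X a ∈ J := by
    intro a b c
    have h2 := md_ren hJ a b c h1
    unfold g1 at h2
    simpa only [map_add, map_mul, md_0, md_1, md_2] using h2
  have hq : ∀ f g : P, f + g ∈ J → g ∈ J ⊔ Submodule.span ℤ {mw 4} → f ∈ J ⊔ Submodule.span ℤ {mw 4} := by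
    intro f g hfg hg
    refine md_in (ε := -1) (g := g) ?_ hg
    rw [neg_one_smul, sub_neg_eq_add]
    exact hfg
  have s13 : ∀ a b c d : ℕ, mon [c, b, a, d] ∈ J ⊔ Submodule.span ℤ {mw 4} →
      mon [a, b, c, d] ∈ J ⊔ Submodule.span ℤ {mw 4} := by
    intro a b c d h
    refine hq _ _ ?_ h
    have h2 := hJ.mul_right _ (hr a b c) (X d)
    rw [md_mon4, md_mon4]
    rw [add_mul] at h2
    exact h2
  have s24 : ∀ a b c d : ℕ, mon [a, d, c, b] ∈ J ⊔ Submodule.span ℤ {mw 4} →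
      mon [a, b, c, d] ∈ J ⊔ Submodule.span ℤ {mw 4} := by
    intro a b c d h
    refine hq _ _ ?_ h
    have h2 := hJ.mul_left _ (hr b c d) (X a)
    rw [md_mon4, md_mon4]
    rw [mul_add] at h2
    simpa only [mul_assoc] using h2
  have s14 : ∀ a b c d : ℕ, mon [d, b, c, a] ∈ J ⊔ Submodule.span ℤ {mw 4} →
      mon [a, b, c, d] ∈ J ⊔ Submodule.span ℤ {mw 4} := by
    intro a b c d h
    refine hq _ _ ?_ h
    have h2 : sb (fun i => if i = 0 then X a else if i = 1 then X b * X c else X d) g1 ∈ J := by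
      refine sb_mem hJ (fun i => ?_) h1
      split_ifs
      · exact X_mem _
      · exact Pp_mul_left _ (X_mem _)
      · exact X_mem _
    unfold g1 at h2
    simp only [map_add, map_mul, sb_X] at h2
    simp only [if_true, one_ne_zero, if_false, OfNat.ofNat_ne_zero, OfNat.ofNat_ne_one] at h2
    rw [md_mon4, md_mon4]
    simpa only [mul_assoc] using h2
  have h0 : mon [0, 1, 2, 3] ∈ J ⊔ Submodule.span ℤ {mw 4} :=
    Submodule.mem_sup_right (Submodule.subset_span (Set.mem_singleton _))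
  refine Submodule.span_le.2 ?_
  rintro f ⟨w, hw, rfl⟩
  have h2 : w ∈ (List.range 4).permutations' := List.mem_permutations'.2 hw
  have h3 : (List.range 4).permutations' = [[0, 1, 2, 3], [1, 0, 2, 3], [1, 2, 0, 3], [1, 2, 3, 0], [0, 2, 1, 3], [2, 0, 1, 3], [2, 1, 0, 3], [2, 1, 3, 0], [0, 2, 3, 1], [2, 0, 3, 1], [2, 3, 0, 1], [2, 3, 1, 0], [0, 1, 3, 2], [1, 0, 3, 2], [1, 3, 0, 2], [1, 3, 2, 0], [0, 3, 1, 2], [3, 0, 1, 2], [3, 1, 0, 2], [3, 1, 2, 0], [0, 3, 2, 1], [3, 0, 2, 1], [3, 2, 0, 1], [3, 2, 1, 0]] := by decide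
  rw [h3] at h2
  simp only [List.mem_cons, List.not_mem_nil, or_false] at h2
  show mon w ∈ J ⊔ Submodule.span ℤ {mw 4}
  rcases h2 with rfl | rfl | rfl | rfl | rfl | rfl | rfl | rfl | rfl | rfl | rfl | rfl | rfl | rfl | rfl | rfl | rfl | rfl | rfl | rfl | rfl | rfl | rfl | rfl
  · exact h0
  · exact (s24 _ _ _ _ (s14 _ _ _ _ (s24 _ _ _ _ h0)))
  · exact (s24 _ _ _ _ (s14 _ _ _ _ (s24 _ _ _ _ (s13 _ _ _ _ h0))))
  · exact (s14 _ _ _ _ (s24 _ _ _ _ (s13 _ _ _ _ (s14 _ _ _ _ (s13 _ _ _ _ h0)))))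
  · exact (s24 _ _ _ _ (s13 _ _ _ _ (s14 _ _ _ _ (s24 _ _ _ _ (s13 _ _ _ _ h0)))))
  · exact (s24 _ _ _ _ (s13 _ _ _ _ (s14 _ _ _ _ (s24 _ _ _ _ h0))))
  · exact (s13 _ _ _ _ h0)
  · exact (s13 _ _ _ _ (s14 _ _ _ _ h0))
  · exact (s24 _ _ _ _ (s13 _ _ _ _ (s14 _ _ _ _ (s13 _ _ _ _ h0))))
  · exact (s24 _ _ _ _ (s13 _ _ _ _ (s14 _ _ _ _ h0)))
  · exact (s24 _ _ _ _ (s13 _ _ _ _ h0))
  · exact (s13 _ _ _ _ (s14 _ _ _ _ (s24 _ _ _ _ h0)))
  · exact (s13 _ _ _ _ (s14 _ _ _ _ (s13 _ _ _ _ h0)))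
  · exact (s14 _ _ _ _ (s24 _ _ _ _ (s13 _ _ _ _ (s14 _ _ _ _ h0))))
  · exact (s14 _ _ _ _ (s24 _ _ _ _ (s13 _ _ _ _ h0)))
  · exact (s14 _ _ _ _ (s24 _ _ _ _ h0))
  · exact (s13 _ _ _ _ (s14 _ _ _ _ (s24 _ _ _ _ (s13 _ _ _ _ h0))))
  · exact (s14 _ _ _ _ (s24 _ _ _ _ (s13 _ _ _ _ (s14 _ _ _ _ (s24 _ _ _ _ h0)))))
  · exact (s14 _ _ _ _ (s13 _ _ _ _ h0))
  · exact (s14 _ _ _ _ h0)
  · exact (s24 _ _ _ _ h0)
  · exact (s24 _ _ _ _ (s14 _ _ _ _ h0))
  · exact (s24 _ _ _ _ (s14 _ _ _ _ (s13 _ _ _ _ h0)))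
  · exact (s14 _ _ _ _ (s24 _ _ _ _ (s13 _ _ _ _ (s14 _ _ _ _ (s24 _ _ _ _ (s13 _ _ _ _ h0))))))

theorem one_n {J : Submodule ℤ P} {n : ℕ} (h : Cn n ≤ J) : Ml n ≤ J ⊔ Submodule.span ℤ {mw n} := by
  refine Submodule.span_le.2 ?_
  rintro f ⟨w, hw, rfl⟩
  have h1 : mon w - mon (List.range n) ∈ J := by
    have h2 := perm_Cn hw
    rw [hw.length_eq, List.length_range] at h2
    exact h h2
  have e : mon w = (mon w - mon (List.range n)) + mw n := by
    unfold mw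
    abel
  show mon w ∈ _
  rw [e]
  exact Submodule.add_mem _ (Submodule.mem_sup_left h1)
    (Submodule.mem_sup_right (Submodule.subset_span (Set.mem_singleton _)))

end ADP
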