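import Pool.Agent.ADC.Lkb
import Pool.Agent.ADP.Base

/-!
# ADP-P1: no linked pair in a (twisted) permutation module

`τ = rn n (swap i j)` acts by `Y k ↦ ε Y (swap i j k)` modulo `I`; `Mul p I`; any prime `p`, any `n`.
For `a = ∑ α_k Y_k` (modulo `I`): `a - ε τ a ≡ (α_i - α_j)(Y_i - Y_j)` modulo `I` (`ε² = 1`).  `Φ = id - ε • tl (rn n (swap i j))` is a T-operator, so `Φ a`, `Φ b` are linked and both in `I ⊔ ℤ (Y_i - Y_j)`:
`Lk.np`: `Φ a ∈ I`, and `Φ b ∈ I` (`Lk.iff`).  So `(α_i - α_j)(Y_i - Y_j) ∈ I`, `(β_i - β_j)(Y_i - Y_j) ∈ I` for all `i ≠ j`.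
If `p ∤ α_i - α_j` or `p ∤ β_i - β_j` for some `i ≠ j`: `Y_i - Y_j ∈ I` (`cancel`), hence `Y_k - Y_l ∈ I` for all `k, l < n` (rename by a permutation `σ` with `σ i = k`, `σ j = l`: a product of swaps, each acting by
`ε`: so `±(Y_k - Y_l) ∈ I`), so `a, b ∈ I ⊔ ℤ Y_0`: `Lk.np`.  Otherwise `a ≡ α_0 ∑ Y_k`, `b ≡ β_0 ∑ Y_k` modulo `I` (`p P⁺ ≤ I`): `Lk.np` with `Y = ∑ Y_k`.  (`n = 0`: `a ∈ I`.)
-/

namespace ADP

open AD ADN ADC

/-- the transpositions act on `Y_0, ..., Y_{n-1}` as on letters, up to the sign `ε`, modulo `J` -/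
def Act (J : Submodule ℤ P) (n : ℕ) (ε : ℤ) (Y : ℕ → P) : Prop :=
  ∀ (i j : Fin n) (k : ℕ), k < n → i ≠ j →
    rn n (Equiv.swap i j) (Y k) - ε • Y (Equiv.swap (i : ℕ) (j : ℕ) k) ∈ J

private theorem p1_coef {I : Submodule ℤ P} {n : ℕ} {Y : ℕ → P} {a : P}
    (ha : a ∈ I ⊔ Submodule.span ℤ {f | ∃ k < n, f = Y k}) :
    ∃ α : ℕ → ℤ, a - ∑ k ∈ Finset.range n, α k • Y k ∈ I := by
  obtain ⟨i, hi, z, hz, e⟩ := Submodule.mem_sup.1 ha
  have key : ∃ α : ℕ → ℤ, z = ∑ k ∈ Finset.range n, α k • Y k := by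
    refine Submodule.span_induction (p := fun z _ => ∃ α : ℕ → ℤ, z = ∑ k ∈ Finset.range n, α k • Y k)
      ?_ ?_ ?_ ?_ hz
    · rintro x ⟨k, hk, rfl⟩
      refine ⟨fun j => if j = k then 1 else 0, ?_⟩
      simp only [ite_smul, one_smul, zero_smul]
      rw [Finset.sum_ite_eq' (Finset.range n) k Y, if_pos (Finset.mem_range.2 hk)]
    · exact ⟨fun _ => 0, by simp⟩
    · rintro x y _ _ ⟨α, hα⟩ ⟨β, hβ⟩
      refine ⟨fun k => α k + β k, ?_⟩
      rw [hα, hβ, ← Finset.sum_add_distrib]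
      exact Finset.sum_congr rfl fun k _ => (add_smul _ _ _).symm
    · rintro c x _ ⟨α, hα⟩
      refine ⟨fun k => c * α k, ?_⟩
      rw [hα, Finset.smul_sum]
      exact Finset.sum_congr rfl fun k _ => (mul_smul _ _ _).symm
  obtain ⟨α, hα⟩ := key
  refine ⟨α, ?_⟩
  rw [← hα, ← e, add_sub_cancel_right]
  exact hi

private theorem p1_swap {n : ℕ} (i j : Fin n) (hij : i ≠ j) (α : ℕ → ℤ) (Y : ℕ → P) :
    ∑ k ∈ Finset.range n, α k • Y k - ∑ k ∈ Finset.range n, α k • Y (Equiv.swap (i : ℕ) (j : ℕ) k) =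
      (α i - α j) • (Y i - Y j) := by
  have hij' : (i : ℕ) ≠ (j : ℕ) := fun h => hij (Fin.ext h)
  have h1 : ∑ k ∈ Finset.range n, α k • Y (Equiv.swap (i : ℕ) (j : ℕ) k) =
      ∑ k ∈ Finset.range n, α (Equiv.swap (i : ℕ) (j : ℕ) k) • Y k := by
    refine Finset.sum_nbij' (fun k => Equiv.swap (i : ℕ) (j : ℕ) k) (fun k => Equiv.swap (i : ℕ) (j : ℕ) k)
      ?_ ?_ ?_ ?_ ?_
    · intro k hk
      rw [Finset.mem_range] at hk ⊢
      rw [Equiv.swap_apply_def]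
      split_ifs
      · exact j.2
      · exact i.2
      · exact hk
    · intro k hk
      rw [Finset.mem_range] at hk ⊢
      rw [Equiv.swap_apply_def]
      split_ifs
      · exact j.2
      · exact i.2
      · exact hk
    · intro k _
      exact Equiv.swap_apply_self _ _ _
    · intro k _
      exact Equiv.swap_apply_self _ _ _
    · intro k _
      rw [Equiv.swap_apply_self]
  rw [h1, ← Finset.sum_sub_distrib]
  have h2 : ∀ k, α k • Y k - α (Equiv.swap (i : ℕ) (j : ℕ) k) • Y k =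
      (α k - α (Equiv.swap (i : ℕ) (j : ℕ) k)) • Y k := fun k => (sub_smul _ _ _).symm
  simp only [h2]
  rw [Finset.sum_eq_add (i : ℕ) (j : ℕ) hij']
  · rw [Equiv.swap_apply_left, Equiv.swap_apply_right, smul_sub, sub_smul, sub_smul, sub_smul]
    abel
  · rintro c _ ⟨c1, c2⟩
    rw [Equiv.swap_apply_of_ne_of_ne c1 c2, sub_self, zero_smul]
  · intro h
    exact absurd (Finset.mem_range.2 i.2) h
  · intro h
    exact absurd (Finset.mem_range.2 j.2) h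

private theorem p1_act {I : Submodule ℤ P} (hI : IsT I) {ε : ℤ} (hε : ε = 1 ∨ ε = -1) {n : ℕ} {Y : ℕ → P}
    (hact : Act I n ε Y) {a : P} {α : ℕ → ℤ} (ha : a - ∑ k ∈ Finset.range n, α k • Y k ∈ I)
    (i j : Fin n) (hij : i ≠ j) :
    (LinearMap.id - ε • tl (rn n (Equiv.swap i j)) : P →ₗ[ℤ] P) a - (α i - α j) • (Y i - Y j) ∈ I := by
  have h1 : rn n (Equiv.swap i j) (a - ∑ k ∈ Finset.range n, α k • Y k) ∈ I :=
    hI.subst _ (rn_isSubst n _) _ ha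
  rw [map_sub, map_sum] at h1
  have h2 : ∑ k ∈ Finset.range n, α k • (rn n (Equiv.swap i j) (Y k) -
      ε • Y (Equiv.swap (i : ℕ) (j : ℕ) k)) ∈ I :=
    I.sum_mem fun k hk => I.smul_mem _ (hact i j k (Finset.mem_range.1 hk) hij)
  have hee : ε * ε = 1 := by rcases hε with h | h <;> rw [h] <;> norm_num
  have e1 : ∑ k ∈ Finset.range n, α k • (rn n (Equiv.swap i j) (Y k) -
      ε • Y (Equiv.swap (i : ℕ) (j : ℕ) k)) =
      ∑ k ∈ Finset.range n, rn n (Equiv.swap i j) (α k • Y k) -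
        ε • ∑ k ∈ Finset.range n, α k • Y (Equiv.swap (i : ℕ) (j : ℕ) k) := by
    rw [Finset.smul_sum, ← Finset.sum_sub_distrib]
    refine Finset.sum_congr rfl fun k _ => ?_
    rw [map_zsmul, smul_sub, smul_comm ε]
  rw [e1] at h2
  have e2 : (LinearMap.id - ε • tl (rn n (Equiv.swap i j)) : P →ₗ[ℤ] P) a - (α i - α j) • (Y i - Y j) =
      (a - ∑ k ∈ Finset.range n, α k • Y k) -
      ε • (rn n (Equiv.swap i j) a - ∑ k ∈ Finset.range n, rn n (Equiv.swap i j) (α k • Y k)) -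
      ε • (∑ k ∈ Finset.range n, rn n (Equiv.swap i j) (α k • Y k) -
        ε • ∑ k ∈ Finset.range n, α k • Y (Equiv.swap (i : ℕ) (j : ℕ) k)) := by
    rw [← p1_swap i j hij α Y, smul_sub, smul_sub, smul_smul, hee, one_smul, LinearMap.sub_apply,
      LinearMap.smul_apply, tl_apply, LinearMap.id_apply]
    abel
  rw [e2]
  exact I.sub_mem (I.sub_mem ha (I.smul_mem _ h1)) (I.smul_mem _ h2)

private theorem p1_mem {I : Submodule ℤ P} {a Z : P} (h : a - Z ∈ I) {Y : P} (hZ : Z ∈ Submodule.span ℤ {Y}) :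
    a ∈ I ⊔ Submodule.span ℤ {Y} :=
  Submodule.mem_sup.2 ⟨a - Z, h, Z, hZ, sub_add_cancel _ _⟩

private theorem p1_one {p : ℕ} {I : Submodule ℤ P} (hI : IsT I) {ε : ℤ}
    (hε : ε = 1 ∨ ε = -1) {n : ℕ} {Y : ℕ → P} (hact : Act I n ε Y)
    (i j : Fin n) (hij : i ≠ j) (h : Y i - Y j ∈ I) (k : ℕ) (hk : k < n) : Y i - Y k ∈ I := by
  by_cases hki : k = (i : ℕ)
  · rw [hki, sub_self]
    exact I.zero_mem
  by_cases hkj : k = (j : ℕ)
  · rw [hkj]
    exact h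
  have hjk : j ≠ (⟨k, hk⟩ : Fin n) := fun h' => hkj (congrArg Fin.val h').symm
  have h1 := hI.subst _ (rn_isSubst n (Equiv.swap j ⟨k, hk⟩)) _ h
  rw [map_sub] at h1
  have h2 := hact j ⟨k, hk⟩ i i.2 hjk
  have h3 := hact j ⟨k, hk⟩ j j.2 hjk
  have hij' : (i : ℕ) ≠ (j : ℕ) := fun h => hij (Fin.ext h)
  rw [Equiv.swap_apply_of_ne_of_ne hij' (fun h' => hki h'.symm)] at h2
  rw [Equiv.swap_apply_left] at h3
  have h4 : ε • (Y i - Y k) ∈ I := by
    have e : ε • (Y i - Y k) = (rn n (Equiv.swap j ⟨k, hk⟩) (Y i) - rn n (Equiv.swap j ⟨k, hk⟩) (Y j)) -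
        (rn n (Equiv.swap j ⟨k, hk⟩) (Y i) - ε • Y i) +
        (rn n (Equiv.swap j ⟨k, hk⟩) (Y j) - ε • Y k) := by
      rw [smul_sub]
      abel
    rw [e]
    exact I.add_mem (I.sub_mem h1 h2) h3
  rcases hε with h5 | h5
  · rw [h5, one_smul] at h4
    exact h4
  · rw [h5, neg_one_smul] at h4
    exact (Submodule.neg_mem_iff I).1 h4

private theorem p1_c1 {I : Submodule ℤ P} {n : ℕ} {Y : ℕ → P} {a : P} {α : ℕ → ℤ}
    (ha : a - ∑ k ∈ Finset.range n, α k • Y k ∈ I) (Z : P) (h : ∀ k < n, Z - Y k ∈ I) :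
    a ∈ I ⊔ Submodule.span ℤ {Z} := by
  refine p1_mem (Z := (∑ k ∈ Finset.range n, α k) • Z) ?_
    (Submodule.smul_mem _ _ (Submodule.subset_span (Set.mem_singleton _)))
  have e : a - (∑ k ∈ Finset.range n, α k) • Z = (a - ∑ k ∈ Finset.range n, α k • Y k) -
      ∑ k ∈ Finset.range n, α k • (Z - Y k) := by
    rw [Finset.sum_smul]
    simp only [smul_sub, Finset.sum_sub_distrib]
    abel
  rw [e]
  exact I.sub_mem ha (I.sum_mem fun k hk => I.smul_mem _ (h k (Finset.mem_range.1 hk)))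

private theorem p1_c2 {p : ℕ} {I : Submodule ℤ P} (hm : Mul p I) {n : ℕ} {Y : ℕ → P} (hY : ∀ k < n, Y k ∈ Pp)
    {a : P} {α : ℕ → ℤ} (ha : a - ∑ k ∈ Finset.range n, α k • Y k ∈ I) (c : ℤ)
    (h : ∀ k < n, (p : ℤ) ∣ α k - c) : a ∈ I ⊔ Submodule.span ℤ {∑ k ∈ Finset.range n, Y k} := by
  refine p1_mem (Z := c • ∑ k ∈ Finset.range n, Y k) ?_
    (Submodule.smul_mem _ _ (Submodule.subset_span (Set.mem_singleton _)))
  have e : a - c • ∑ k ∈ Finset.range n, Y k = (a - ∑ k ∈ Finset.range n, α k • Y k) +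
      ∑ k ∈ Finset.range n, (α k - c) • Y k := by
    simp only [sub_smul, Finset.sum_sub_distrib, Finset.smul_sum]
    abel
  rw [e]
  refine I.add_mem ha (I.sum_mem fun k hk => ?_)
  obtain ⟨m, hm'⟩ := h k (Finset.mem_range.1 hk)
  rw [hm', mul_smul]
  exact hm _ (Pp.smul_mem _ (hY k (Finset.mem_range.1 hk)))

theorem P1 {p : ℕ} (hp : p.Prime) {I A B C : Submodule ℤ P} (h : Lk p I A B C) (hm : Mul p I) {ε : ℤ}
    (hε : ε = 1 ∨ ε = -1) {n : ℕ} {Y : ℕ → P} (hY : ∀ k < n, Y k ∈ Pp) (hact : Act I n ε Y) {a b : P}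
    (ha : a ∈ I ⊔ Submodule.span ℤ {f | ∃ k < n, f = Y k}) (hb : b ∈ I ⊔ Submodule.span ℤ {f | ∃ k < n, f = Y k})
    (hl : Lnk A B C a b) : a ∈ I := by
  obtain ⟨α, hα⟩ := p1_coef ha
  obtain ⟨β, hβ⟩ := p1_coef hb
  have hYI : ∀ i j : Fin n, Y i - Y j ∈ Pp := fun i j => Pp.sub_mem (hY i i.2) (hY j j.2)
  have star : ∀ i j : Fin n, i ≠ j → (α i - α j) • (Y i - Y j) ∈ I ∧ (β i - β j) • (Y i - Y j) ∈ I := by
    intro i j hij
    have hT : TOp p (LinearMap.id - ε • tl (rn n (Equiv.swap i j)) : P →ₗ[ℤ] P) :=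
      (TOp.id' p).sub ((TOp_rn p n _).smul ε)
    have hl' := hl.map h hT
    have h1 := p1_act h.hI hε hact hα i j hij
    have h2 := p1_act h.hI hε hact hβ i j hij
    have hs : ∀ c : ℤ, c • (Y i - Y j) ∈ Submodule.span ℤ {(Y i - Y j : P)} := fun c =>
      Submodule.smul_mem _ _ (Submodule.subset_span (Set.mem_singleton _))
    have h3 := Lk.np hp h hl' (hYI i j) (p1_mem h1 (hs _)) (p1_mem h2 (hs _))
    have h4 := (h.iff hl').1 h3
    exact ⟨by simpa using I.sub_mem h3 h1, by simpa using I.sub_mem h4 h2⟩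
  by_cases hc : ∃ i j : Fin n, i ≠ j ∧ (¬ (p : ℤ) ∣ α i - α j ∨ ¬ (p : ℤ) ∣ β i - β j)
  · obtain ⟨i, j, hij, hd⟩ := hc
    have h1 : Y i - Y j ∈ I := by
      rcases hd with hd | hd
      · exact cancel hp h.p2 hd (hYI i j) (star i j hij).1
      · exact cancel hp h.p2 hd (hYI i j) (star i j hij).2
    have h2 : ∀ k < n, Y i - Y k ∈ I := fun k hk => p1_one (p := p) h.hI hε hact i j hij h1 k hk
    exact Lk.np hp h hl (hY i i.2) (p1_c1 hα _ h2) (p1_c1 hβ _ h2)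
  · have hc' : ∀ i j : Fin n, i ≠ j → (p : ℤ) ∣ α i - α j ∧ (p : ℤ) ∣ β i - β j := by
      intro i j hij
      by_contra h'
      refine hc ⟨i, j, hij, ?_⟩
      by_contra h''
      rw [not_or, not_not, not_not] at h''
      exact h' h''
    rcases Nat.eq_zero_or_pos n with hn | hn
    · rw [hn] at hα
      simpa using hα
    · have h1 : ∀ k < n, (p : ℤ) ∣ α k - α 0 ∧ (p : ℤ) ∣ β k - β 0 := by
        intro k hk
        by_cases hk0 : k = 0
        · rw [hk0, sub_self, sub_self]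
          exact ⟨dvd_zero _, dvd_zero _⟩
        · exact hc' ⟨k, hk⟩ ⟨0, hn⟩ (fun h' => hk0 (congrArg Fin.val h'))
      have hYs : ∑ k ∈ Finset.range n, Y k ∈ Pp := Pp.sum_mem fun k hk => hY k (Finset.mem_range.1 hk)
      exact Lk.np hp h hl hYs (p1_c2 hm hY hα (α 0) fun k hk => (h1 k hk).1)
        (p1_c2 hm hY hβ (β 0) fun k hk => (h1 k hk).2)

end ADP
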