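import Pool.Agent.ADP.Nf2
import Pool.Agent.ADP.K3
import Pool.Agent.ADP.P1
import Pool.Agent.ADP.Mod3

/-!
# ADP-B3a: `p = 2`, exponent 2, type `[x,y] z`, `x^2 y`
-/

namespace ADP

open AD ADN ADC

private noncomputable def ba_ph (f g k : P) (i : ℕ) : P := if i = 0 then f else if i = 1 then g else k

private theorem ba_sub {I : Submodule ℤ P} (hI : IsT I) {f g k : P} (hf : f ∈ Pp) (hg : g ∈ Pp) (hk : k ∈ Pp)
    {q : P} (hq : q ∈ I) : sb (ba_ph f g k) q ∈ I := by
  refine sb_mem hI (fun i => ?_) hq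
  unfold ba_ph
  split_ifs <;> assumption

private theorem ba_0 (f g k : P) : sb (ba_ph f g k) (X 0) = f := by rw [sb_X]; rfl
private theorem ba_1 (f g k : P) : sb (ba_ph f g k) (X 1) = g := by rw [sb_X]; rfl
private theorem ba_2 (f g k : P) : sb (ba_ph f g k) (X 2) = k := by rw [sb_X]; rfl

/-- the basic consequences -/
private structure BA (I : Submodule ℤ P) : Prop where
  hI : IsT I
  m2 : ∀ f ∈ Pp, (2 : ℤ) • f ∈ I
  c2 : ∀ f ∈ Pp, ∀ g ∈ Pp, f * f * g ∈ I
  dn : ∀ m, Dn m ≤ I

private theorem ba_Dn {J : Submodule ℤ P} (hJ : IsT J) (h3 : g3 ∈ J) (m : ℕ) : Dn m ≤ J := by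
  refine Submodule.span_le.2 ?_
  rintro f ⟨u, v, i, j, hv, -, rfl⟩
  obtain ⟨c, t, rfl⟩ := List.exists_cons_of_ne_nil hv
  have h1 := ba_sub hJ (X_mem i) (X_mem j) (X_mem c) h3
  unfold g3 at h1
  simp only [map_sub, map_mul, ba_0, ba_1, ba_2] at h1
  have h2 := ADC.IsT.lm hJ (mon u) (mon t) h1
  rw [mon_cons]
  have e : mon u * (X i * X j - X j * X i) * (X c * mon t) =
      mon u * ((X i * X j - X j * X i) * X c) * mon t := by
    simp only [mul_assoc]
  show mon u * (X i * X j - X j * X i) * (X c * mon t) ∈ J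
  rw [e]
  exact h2

private theorem ba_mk {I : Submodule ℤ P} (hb : Bs 2 I) (h1 : g3 ∈ I) (h2 : X 0 ^ 2 * X 1 ∈ I) : BA I where
  hI := hb.isT
  m2 := by
    intro f hf
    have h := hb.mul f hf
    rwa [Nat.cast_ofNat] at h
  c2 := by
    intro f hf g hg
    have h := ba_sub hb.isT hf hg hg h2
    rwa [map_mul, map_pow, ba_0, ba_1, pow_two] at h
  dn := ba_Dn hb.isT h1

private theorem BA.even {I : Submodule ℤ P} (h : BA I) {c : ℤ} (hc : (2 : ℤ) ∣ c) {f : P} (hf : f ∈ Pp) :
    c • f ∈ I := by
  obtain ⟨d, rfl⟩ := hc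
  rw [mul_smul]
  exact h.m2 _ (Submodule.smul_mem _ _ hf)

private theorem BA.odd {I : Submodule ℤ P} (h : BA I) {J : Submodule ℤ P} (hJ : I ≤ J) {c : ℤ}
    (hc : ¬ (2 : ℤ) ∣ c) {f : P} (hf : f ∈ Pp) (hcf : c • f ∈ J) : f ∈ J := by
  obtain ⟨d, hd⟩ : (2 : ℤ) ∣ c - 1 := by omega
  have e : f = c • f - (c - 1) • f := by
    rw [sub_smul, one_smul]
    abel
  rw [e]
  exact J.sub_mem hcf (hJ (h.even ⟨d, hd⟩ hf))

/-- the letters before the last one may be permuted -/
private theorem BA.perm {I : Submodule ℤ P} (h : BA I) {u v : List ℕ} (huv : u.Perm v) (t : ℕ) :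
    mon (u ++ [t]) - mon (v ++ [t]) ∈ I :=
  h.dn _ (perm_Dn huv (List.cons_ne_nil t []))

private theorem BA.rep {I : Submodule ℤ P} (h : BA I) {u : List ℕ} {i : ℕ} (hi : 2 ≤ u.count i) (t : ℕ) :
    mon (u ++ [t]) ∈ I := by
  have m1 : i ∈ u := List.count_pos_iff.1 (by omega)
  have p1 := List.perm_cons_erase m1
  have m2 : i ∈ u.erase i := List.count_pos_iff.1 (by rw [List.count_erase_self]; omega)
  have p2 := List.perm_cons_erase m2
  have p3 : u.Perm (i :: i :: (u.erase i).erase i) := p1.trans (p2.cons i)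
  have e : mon (u ++ [t]) = (mon (u ++ [t]) - mon ((i :: i :: (u.erase i).erase i) ++ [t])) +
      mon ((i :: i :: (u.erase i).erase i) ++ [t]) := by abel
  rw [e]
  refine I.add_mem (h.perm p3 t) ?_
  rw [List.cons_append, List.cons_append, mon_cons, mon_cons, ← mul_assoc]
  exact h.c2 _ (X_mem i) _ (mon_mem (by simp))

/-- the word with last letters `i`, `i` -/
private noncomputable def Om (n i : ℕ) : P := mon ((List.range n).erase i ++ [i, i])

private noncomputable def ba_D (i n : ℕ) : P →ₗ[ℤ] P :=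
  tl (sb (fun j => if j = i then X i + X n else X j)) - LinearMap.id -
    tl (sb (fun j => if j = i then X n else X j))

private theorem ba_D_apply (i n : ℕ) (f : P) : ba_D i n f =
    sb (fun j => if j = i then X i + X n else X j) f - f - sb (fun j => if j = i then X n else X j) f := rfl

private theorem ba_D_mem {I : Submodule ℤ P} (hI : IsT I) (i n : ℕ) {f : P} (hf : f ∈ I) : ba_D i n f ∈ I := by
  rw [ba_D_apply]
  refine I.sub_mem (I.sub_mem (sb_mem hI (fun j => ?_) hf) hf) (sb_mem hI (fun j => ?_) hf)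
  · split_ifs
    · exact Pp.add_mem (X_mem _) (X_mem _)
    · exact X_mem _
  · split_ifs <;> exact X_mem _

private theorem ba_fix {φ : ℕ → P} {i : ℕ} (hφ : ∀ j, j ≠ i → φ j = X j) : ∀ {w : List ℕ}, i ∉ w →
    sb φ (mon w) = mon w := by
  intro w
  induction w with
  | nil => intro _; rw [mon_nil, map_one]
  | cons a w ih =>
    intro h
    rw [mon_cons, map_mul, ih (fun hm => h (List.mem_cons_of_mem _ hm)), sb_X,
      hφ a (fun e => h (by rw [e]; exact List.mem_cons_self))]

private theorem ba_f1 (i n : ℕ) {w : List ℕ} (h : i ∉ w) :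
    sb (fun j => if j = i then X i + X n else X j) (mon w) = mon w :=
  ba_fix (i := i) (fun _ hj => if_neg hj) h

private theorem ba_f2 (i n : ℕ) {w : List ℕ} (h : i ∉ w) :
    sb (fun j => if j = i then X n else X j) (mon w) = mon w :=
  ba_fix (i := i) (fun _ hj => if_neg hj) h

private theorem ba_D_one (i n : ℕ) {s t : List ℕ} (hs : i ∉ s) (ht : i ∉ t) :
    ba_D i n (mon (s ++ i :: t)) = 0 := by
  rw [ba_D_apply, mon_append, mon_cons, map_mul, map_mul, map_mul, map_mul, ba_f1 i n hs, ba_f1 i n ht,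
    ba_f2 i n hs, ba_f2 i n ht, sb_X, sb_X, if_pos rfl, if_pos rfl, add_mul, mul_add]
  abel

private theorem ba_D_two (i n : ℕ) {s : List ℕ} (hs : i ∉ s) :
    ba_D i n (mon (s ++ [i, i])) = mon s * (X i * X n + X n * X i) := by
  rw [ba_D_apply, mon_append, mon_cons, mon_single, map_mul, map_mul, map_mul, map_mul, ba_f1 i n hs,
    ba_f2 i n hs, sb_X, sb_X, if_pos rfl, if_pos rfl]
  simp only [add_mul, mul_add]
  abel

private theorem ba_split {w : List ℕ} {i : ℕ} (hn : w.Nodup) (hi : i ∈ w) :
    ∃ s t, w = s ++ i :: t ∧ i ∉ s ∧ i ∉ t := by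
  obtain ⟨s, t, rfl⟩ := List.append_of_mem hi
  refine ⟨s, t, rfl, ?_, ?_⟩
  · intro h
    exact (List.nodup_append.1 hn).2.2 i h i List.mem_cons_self rfl
  · intro h
    have h1 := (List.nodup_append.1 hn).2.1
    exact (List.nodup_cons.1 h1).1 h

private theorem ba_er {n i : ℕ} (hi : i < n) : ((List.range n).erase i ++ [i]).Perm (List.range n) :=
  (List.perm_append_singleton i _).trans (List.perm_cons_erase (List.mem_range.2 hi)).symm

private theorem ba_ner (n i : ℕ) : i ∉ (List.range n).erase i :=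
  List.Nodup.not_mem_erase List.nodup_range

private theorem ba_ier {n i k : ℕ} (hi : i < n) (hik : i ≠ k) : i ∈ (List.range n).erase k :=
  (List.mem_erase_of_ne hik).2 (List.mem_range.2 hi)

private theorem ba_DY {n i k : ℕ} (hi : i < n) (hk : k < n) : ba_D i n (Yw n k) = 0 := by
  have hp := ba_er hk
  obtain ⟨s, t, e, hs, ht⟩ := ba_split (hp.nodup_iff.2 List.nodup_range)
    (hp.mem_iff.2 (List.mem_range.2 hi))
  unfold Yw
  rw [e]
  exact ba_D_one i n hs ht

private theorem ba_DO {n i k : ℕ} (hi : i < n) (hik : k ≠ i) : ba_D i n (Om n k) = 0 := by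
  obtain ⟨s, t, e, hs, ht⟩ := ba_split (w := (List.range n).erase k) (List.nodup_range.erase k)
    (ba_ier hi (Ne.symm hik))
  unfold Om
  rw [e, List.append_assoc, List.cons_append]
  refine ba_D_one i n hs ?_
  intro h
  rcases List.mem_append.1 h with h | h
  · exact ht h
  · simp at h
    exact hik h.symm

private theorem ba_DOi (n i : ℕ) : ba_D i n (Om n i) = mon ((List.range n).erase i) * (X i * X n + X n * X i) :=
  ba_D_two i n (ba_ner n i)

/-- coefficients -/
private theorem ba_coef {I : Submodule ℤ P} {n : ℕ} {Y : ℕ → P} {a : P}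
    (ha : a ∈ I ⊔ Submodule.span ℤ {f | ∃ k < n, f = Y k}) :
    ∃ α : ℕ → ℤ, a - ∑ k ∈ Finset.range n, α k • Y k ∈ I := by
  obtain ⟨i, hi, z, hz, e⟩ := Submodule.mem_sup.1 ha
  have key : ∃ α : ℕ → ℤ, z = ∑ k ∈ Finset.range n, α k • Y k := by
    refine Submodule.span_induction (p := fun z _ => ∃ α : ℕ → ℤ, z = ∑ k ∈ Finset.range n, α k • Y k)
      ?_ ?_ ?_ ?_ hz
    · rintro x ⟨k, hk, rfl⟩
      refine ⟨fun j => if j = k then 1 else 0, ?_⟩
      simp only [ite_smul, one_smul, zero_smul]
      rw [Finset.sum_ite_eq' (Finset.range n) k Y, if_pos (Finset.mem_range.2 hk)]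
    · exact ⟨fun _ => 0, by simp⟩
    · rintro x y _ _ ⟨α, hα⟩ ⟨β, hβ⟩
      refine ⟨fun k => α k + β k, ?_⟩
      rw [hα, hβ, ← Finset.sum_add_distrib]
      exact Finset.sum_congr rfl fun k _ => (add_smul _ _ _).symm
    · rintro c x _ ⟨α, hα⟩
      refine ⟨fun k => c * α k, ?_⟩
      rw [hα, Finset.smul_sum]
      exact Finset.sum_congr rfl fun k _ => (mul_smul _ _ _).symm
  obtain ⟨α, hα⟩ := key
  refine ⟨α, ?_⟩
  rw [← hα, ← e, add_sub_cancel_right]
  exact hi

/-- normal form, `n ≥ 2` -/
private theorem BA.nf {I : Submodule ℤ P} (h : BA I) {n : ℕ} (hn : 2 ≤ n) :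
    Qf n ≤ (I ⊔ Submodule.span ℤ {f | ∃ k < n, f = Yw n k}) ⊔ Submodule.span ℤ {f | ∃ k < n, f = Om n k} := by
  refine Submodule.span_le.2 ?_
  rintro f ⟨w, hw, rfl⟩
  have hne : w ≠ [] := by
    rintro rfl
    have := hw.2 0 (by omega)
    simp at this
  obtain ⟨u, t, rfl⟩ : ∃ u t, w = u ++ [t] :=
    ⟨w.dropLast, w.getLast hne, (List.dropLast_append_getLast hne).symm⟩
  have ht : t < n := hw.1 t (by simp)
  show mon (u ++ [t]) ∈ _
  by_cases hu : u.Nodup
  · by_cases htu : t ∈ u
    · have hp : u.Perm (List.range n) := by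
        refine (List.perm_ext_iff_of_nodup hu List.nodup_range).2 fun k => ?_
        rw [List.mem_range]
        constructor
        · intro hk
          exact hw.1 k (List.mem_append_left _ hk)
        · intro hk
          rcases List.mem_append.1 (hw.2 k hk) with h1 | h1
          · exact h1
          · rw [List.mem_singleton] at h1
            rw [h1]
            exact htu
      have h1 := h.perm (hp.trans (ba_er ht).symm) t
      have e1 : (List.range n).erase t ++ [t] ++ [t] = (List.range n).erase t ++ [t, t] := by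
        rw [List.append_assoc]
        rfl
      rw [e1] at h1
      have e : mon (u ++ [t]) = (mon (u ++ [t]) - Om n t) + Om n t := by abel
      rw [e]
      exact Submodule.add_mem _ (Submodule.mem_sup_left (Submodule.mem_sup_left h1))
        (Submodule.mem_sup_right (Submodule.subset_span ⟨t, ht, rfl⟩))
    · have hp : (u ++ [t]).Perm (List.range n) := by
        refine (List.perm_ext_iff_of_nodup ?_ List.nodup_range).2 fun k => ?_
        · rw [List.nodup_append]
          refine ⟨hu, List.nodup_singleton t, ?_⟩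
          intro a ha b hb hab
          rw [List.mem_singleton] at hb
          rw [hab, hb] at ha
          exact htu ha
        · rw [List.mem_range]
          exact ⟨fun hk => hw.1 k hk, fun hk => hw.2 k hk⟩
      have h1 : u.Perm ((List.range n).erase t) := by
        have h2 : (t :: u).Perm (List.range n) := (List.perm_append_singleton t u).symm.trans hp
        have h3 := h2.erase t
        rwa [List.erase_cons_head] at h3
      have h2 := h.perm h1 t
      have e : mon (u ++ [t]) = (mon (u ++ [t]) - Yw n t) + Yw n t := by abel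
      rw [e]
      exact Submodule.mem_sup_left (Submodule.add_mem _ (Submodule.mem_sup_left h2)
        (Submodule.mem_sup_right (Submodule.subset_span ⟨t, ht, rfl⟩)))
  · have h1 : ∃ i, 2 ≤ u.count i := by
      by_contra hcon
      push Not at hcon
      exact hu (List.nodup_iff_count_le_one.2 fun i => by have := hcon i; omega)
    obtain ⟨i, hi⟩ := h1
    exact Submodule.mem_sup_left (Submodule.mem_sup_left (h.rep hi t))

/-- an odd coefficient of `Om n i` -/
private theorem BA.om {I : Submodule ℤ P} (h : BA I) {n i : ℕ} (hn : 2 ≤ n) (hi : i < n)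
    (hE : mon ((List.range n).erase i) * (X i * X n + X n * X i) ∈ I) : Om n i ∈ I := by
  obtain ⟨j, hj, hji⟩ : ∃ j, j < n ∧ j ≠ i := by
    by_cases h0 : i = 0
    · exact ⟨1, by omega, by omega⟩
    · exact ⟨0, by omega, Ne.symm h0⟩
  -- substitute
  have h1 : sb (fun k => X (if k = j then i else if k = i then j else if k = n then i else k))
      (mon ((List.range n).erase i) * (X i * X n + X n * X i)) ∈ I :=
    sb_mem h.hI (fun k => X_mem _) hE
  have e1 : sb (fun k => X (if k = j then i else if k = i then j else if k = n then i else k))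
      (mon ((List.range n).erase i) * (X i * X n + X n * X i)) =
      mon (((List.range n).erase i).map (fun k => if k = j then i else k)) * (X j * X i + X i * X j) := by
    rw [map_mul, map_add, map_mul, map_mul, sb_X, sb_X]
    have c1 : (if i = j then i else if i = i then j else if i = n then i else i) = j := by
      rw [if_neg (Ne.symm hji), if_pos rfl]
    have c2 : (if n = j then i else if n = i then j else if n = n then i else n) = i := by
      rw [if_neg (by omega), if_neg (by omega), if_pos rfl]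
    rw [c1, c2]
    have c3 : ∀ w : List ℕ, (∀ k ∈ w, k < n ∧ k ≠ i) →
        sb (fun k => X (if k = j then i else if k = i then j else if k = n then i else k)) (mon w) =
        mon (w.map (fun k => if k = j then i else k)) := by
      intro w
      induction w with
      | nil => intro _; rw [List.map_nil, mon_nil, map_one]
      | cons a w ih =>
        intro hw
        have ha := hw a List.mem_cons_self
        rw [mon_cons, map_mul, ih (fun k hk => hw k (List.mem_cons_of_mem _ hk)), sb_X, List.map_cons,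
          mon_cons]
        congr 2
        by_cases haj : a = j
        · rw [if_pos haj, if_pos haj]
        · rw [if_neg haj, if_neg haj, if_neg ha.2, if_neg (by omega)]
    rw [c3]
    intro k hk
    refine ⟨List.mem_range.1 (List.mem_of_mem_erase hk), ?_⟩
    rintro rfl
    exact ba_ner n k hk
  rw [e1] at h1
  obtain ⟨w1, hw1⟩ : ∃ w1, w1 = ((List.range n).erase i).map (fun k => if k = j then i else k) := ⟨_, rfl⟩
  rw [← hw1] at h1
  have hmi : i ∈ w1 := by
    rw [hw1, List.mem_map]
    exact ⟨j, ba_ier hj hji, if_pos rfl⟩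
  -- `w1 ++ [j]` is a permutation
  have hpe : ((List.range n).erase i).Perm (j :: ((List.range n).erase i).erase j) :=
    List.perm_cons_erase (ba_ier hj hji)
  have hnd : (((List.range n).erase i).erase j).Nodup := (List.nodup_range.erase i).erase j
  have hjn : j ∉ ((List.range n).erase i).erase j := List.Nodup.not_mem_erase (List.nodup_range.erase i)
  have hw1p : w1.Perm (i :: ((List.range n).erase i).erase j) := by
    rw [hw1]
    refine (hpe.map _).trans ?_
    rw [List.map_cons, if_pos rfl]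
    have e2 : (((List.range n).erase i).erase j).map (fun k => if k = j then i else k) =
        ((List.range n).erase i).erase j := by
      have e3 : ∀ k ∈ ((List.range n).erase i).erase j, (if k = j then i else k) = id k := by
        intro k hk
        rw [if_neg]
        · rfl
        · rintro rfl
          exact hjn hk
      rw [List.map_congr_left e3, List.map_id]
    rw [e2]
  have hP : ((List.range n).erase i ++ [i]).Perm (w1 ++ [j]) := by
    refine (List.perm_append_singleton i _).trans ?_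
    refine List.Perm.trans ?_ (List.perm_append_singleton j _).symm
    refine (hpe.cons i).trans ?_
    exact (List.Perm.swap j i _).trans (hw1p.symm.cons j)
  have h2 := h.perm hP i
  have h3 : mon (w1 ++ [i] ++ [j]) ∈ I := by
    refine h.rep (i := i) ?_ j
    rw [List.count_append, List.count_singleton_self]
    have := List.count_pos_iff.2 hmi
    omega
  have e4 : mon w1 * (X j * X i + X i * X j) = mon (w1 ++ [j] ++ [i]) + mon (w1 ++ [i] ++ [j]) := by
    rw [mon_append, mon_append, mon_append, mon_append, mon_single, mon_single, mul_add, mul_assoc, mul_assoc]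
  rw [e4] at h1
  have e5 : Om n i = mon ((List.range n).erase i ++ [i] ++ [i]) := by
    unfold Om
    rw [List.append_assoc]
    rfl
  have e6 : Om n i = (mon ((List.range n).erase i ++ [i] ++ [i]) - mon (w1 ++ [j] ++ [i])) +
      (mon (w1 ++ [j] ++ [i]) + mon (w1 ++ [i] ++ [j])) - mon (w1 ++ [i] ++ [j]) := by
    rw [e5]
    abel
  rw [e6]
  exact I.sub_mem (I.add_mem h2 h1) h3

private theorem BA.add {I : Submodule ℤ P} (h : BA I) {n : ℕ} (hn : 2 ≤ n) {a : P} (ha : a ∈ Qf n)
    (had : Ad I n a) : a ∈ I ⊔ Submodule.span ℤ {f | ∃ k < n, f = Yw n k} := by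
  obtain ⟨ω, hω⟩ := ba_coef (h.nf hn ha)
  have hOP : ∀ k, Om n k ∈ Pp := fun k => mon_mem (by simp)
  have hD : ∀ i < n, ω i • Om n i ∈ I := by
    intro i hi
    by_cases h2 : (2 : ℤ) ∣ ω i
    · exact h.even h2 (hOP i)
    · refine I.smul_mem _ (h.om hn hi ?_)
      have hle : I ⊔ Submodule.span ℤ {f | ∃ k < n, f = Yw n k} ≤ I.comap (ba_D i n) := by
        refine sup_le (fun f hf => ba_D_mem h.hI i n hf) (Submodule.span_le.2 ?_)
        rintro f ⟨k, hk, rfl⟩
        show ba_D i n (Yw n k) ∈ I
        rw [ba_DY hi hk]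
        exact I.zero_mem
      have h3 : ba_D i n (a - ∑ k ∈ Finset.range n, ω k • Om n k) ∈ I := hle hω
      have h4 : ba_D i n a ∈ I := had i hi
      have e : ba_D i n (∑ k ∈ Finset.range n, ω k • Om n k) =
          ω i • (mon ((List.range n).erase i) * (X i * X n + X n * X i)) := by
        rw [map_sum, Finset.sum_eq_single i]
        · rw [map_smul, ba_DOi]
        · intro k _ hk
          rw [map_smul, ba_DO hi hk, smul_zero]
        · intro h'
          exact absurd (Finset.mem_range.2 hi) h'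
      rw [map_sub, e] at h3
      have h5 := I.sub_mem h4 h3
      rw [sub_sub_cancel] at h5
      refine h.odd le_rfl h2 (Pp_mul_left _ (Pp.add_mem (Pp_mul_left _ (X_mem _)) (Pp_mul_left _ (X_mem _)))) h5
  have e : a = (a - ∑ k ∈ Finset.range n, ω k • Om n k) + ∑ k ∈ Finset.range n, ω k • Om n k := by abel
  rw [e]
  exact Submodule.add_mem _ hω (Submodule.mem_sup_left (I.sum_mem fun k hk => hD k (Finset.mem_range.1 hk)))

private theorem BA.one {I : Submodule ℤ P} (h : BA I) {a : P} (ha : a ∈ Qf 1) :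
    ∃ α β : ℤ, a - (α • X 0 + β • (X 0 * X 0)) ∈ I := by
  unfold Qf at ha
  induction ha using Submodule.span_induction with
  | zero => exact ⟨0, 0, by simp⟩
  | add f g _ _ hf hg =>
    obtain ⟨α, β, h1⟩ := hf
    obtain ⟨α', β', h2⟩ := hg
    refine ⟨α + α', β + β', ?_⟩
    have e : f + g - ((α + α') • X 0 + (β + β') • (X 0 * X 0)) =
        (f - (α • X 0 + β • (X 0 * X 0))) + (g - (α' • X 0 + β' • (X 0 * X 0))) := by
      simp only [add_smul]
      abel
    rw [e]
    exact I.add_mem h1 h2
  | smul c f _ hf =>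
    obtain ⟨α, β, h1⟩ := hf
    refine ⟨c * α, c * β, ?_⟩
    have e : c • f - ((c * α) • X 0 + (c * β) • (X 0 * X 0)) = c • (f - (α • X 0 + β • (X 0 * X 0))) := by
      simp only [mul_smul, smul_sub, smul_add]
    rw [e]
    exact I.smul_mem _ h1
  | mem f hf =>
    obtain ⟨w, hw, rfl⟩ := hf
    have k0 := hw.2 0 (by norm_num)
    have h0 : ∀ i ∈ w, i = 0 := fun i hi => by
      have := hw.1 i hi
      omega
    rcases w with _ | ⟨a, _ | ⟨b, _ | ⟨c, w⟩⟩⟩
    · simp at k0
    · obtain rfl := h0 a (by simp)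
      exact ⟨1, 0, by rw [mon_single]; simp⟩
    · obtain rfl := h0 a (by simp)
      obtain rfl := h0 b (by simp)
      exact ⟨0, 1, by rw [mon_cons, mon_single]; simp⟩
    · obtain rfl := h0 a (by simp)
      obtain rfl := h0 b (by simp)
      obtain rfl := h0 c (by simp)
      refine ⟨0, 0, ?_⟩
      simp only [zero_smul, add_zero, sub_zero]
      rw [mon_cons, mon_cons, ← mul_assoc]
      exact h.c2 _ (X_mem 0) _ (mon_mem (by simp))

private theorem ba_top {A : Submodule ℤ P} (hA : IsT A) (h : X 0 ∈ A) : Pp ≤ A := by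
  intro f hf
  have h1 := sb_mem hA (φ := fun _ => f) (fun _ => hf) h
  rwa [sb_X] at h1

private theorem BA.xA {I : Submodule ℤ P} (h : BA I) {A : Submodule ℤ P} (hA : IsT A) (hIA : I ≤ A) {a : P}
    (ha : a ∈ A) {α β : ℤ} (hr : a - (α • X 0 + β • (X 0 * X 0)) ∈ I) (hα : ¬ (2 : ℤ) ∣ α) : Pp ≤ A := by
  have h1 : α • X 0 + β • (X 0 * X 0) ∈ A := by
    have e : α • X 0 + β • (X 0 * X 0) = a - (a - (α • X 0 + β • (X 0 * X 0))) := by abel
    rw [e]
    exact A.sub_mem ha (hIA hr)
  have h2 := hA.mul_left _ h1 (X 0)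
  rw [mul_add, mul_smul_comm, mul_smul_comm, ← mul_assoc] at h2
  have h3 : X 0 * X 0 * X 0 ∈ A := hIA (h.c2 _ (X_mem 0) _ (X_mem 0))
  have h4 : α • (X 0 * X 0) ∈ A := by
    have e : α • (X 0 * X 0 : P) = (α • (X 0 * X 0) + β • (X 0 * X 0 * X 0)) - β • (X 0 * X 0 * X 0) := by abel
    rw [e]
    exact A.sub_mem h2 (A.smul_mem _ h3)
  have h5 : X 0 * X 0 ∈ A := h.odd hIA hα (Pp_mul_left _ (X_mem 0)) h4
  have h6 : α • X 0 ∈ A := by
    have e : α • (X 0 : P) = (α • X 0 + β • (X 0 * X 0)) - β • (X 0 * X 0) := by abel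
    rw [e]
    exact A.sub_mem h1 (A.smul_mem _ h5)
  exact ba_top hA (h.odd hIA hα (X_mem 0) h6)

private theorem ba_span {I : Submodule ℤ P} {a r Y : P} {m : ℤ} (h : a - r ∈ I) (hr : r - m • Y ∈ I) :
    a ∈ I ⊔ Submodule.span ℤ {Y} := by
  have e : a = ((a - r) + (r - m • Y)) + m • Y := by abel
  rw [e]
  exact Submodule.add_mem _ (Submodule.mem_sup_left (I.add_mem h hr))
    (Submodule.mem_sup_right (Submodule.mem_span_singleton.2 ⟨m, rfl⟩))

theorem noP2a {I A B C : Submodule ℤ P} (h : Lk 2 I A B C) (hb : Bs 2 I) (h1 : g3 ∈ I) (h2 : X 0 ^ 2 * X 1 ∈ I) :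
    False := by
  have hB := ba_mk hb h1 h2
  have hx := X_mem 0
  obtain ⟨n, a, b, hn, ha, hb', hl, haI, hada, hadb⟩ := nf2 h
  have hp : Nat.Prime 2 := Nat.prime_two
  have hn' : n = 1 ∨ 2 ≤ n := by omega
  rcases hn' with rfl | hn2
  · obtain ⟨α, β, hr⟩ := hB.one ha
    obtain ⟨α', β', hr'⟩ := hB.one hb'
    by_cases hα : (2 : ℤ) ∣ α
    · by_cases hα' : (2 : ℤ) ∣ α'
      · refine haI (Lk.np hp h hl (Pp_mul_left (X 0) hx) (ba_span (m := β) hr ?_) (ba_span (m := β') hr' ?_))
        · rw [add_sub_cancel_right]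
          exact hB.even hα hx
        · rw [add_sub_cancel_right]
          exact hB.even hα' hx
      · have hT := hB.xA h.hB h.IB hl.2.1 hr' hα'
        exact haI (h.AB ⟨hl.1, hT (h.hA.le hl.1)⟩)
    · have hT := hB.xA h.hA h.IA hl.1 hr hα
      exact haI ((h.iff hl).2 (h.AB ⟨hT (h.hB.le hl.2.1), hl.2.1⟩))
  · have hm : Mul ((2 : ℕ) : ℤ) I := hb.mul
    have hY : ∀ k < n, Yw n k ∈ Pp := fun k _ => mon_mem (by simp)
    exact haI (P1 hp h hm (Or.inl rfl) hY (last_n hB.hI h1 hn).2 (hB.add hn2 ha hada) (hB.add hn2 hb' hadb) hl)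

end ADP
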