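import Pool.Agent.ADP.Base
import Pool.Agent.ADC.Bas
import Pool.Agent.ADA.CpB
import Pool.Agent.ADM.CfMul

/-!
# ADP-NPs: `NN p α β` defines a T-ideal containing `p P⁺` and the words of length `p + 2`
-/

namespace ADP

open AD ADN ADC

private theorem nps_zero (w : List ℕ) : cf w (0 : P) = 0 := by
  have h := cf_smul w 0 0
  rwa [zero_smul, zero_mul] at h

private theorem nps_com (p : ℕ) (f : P) :
    comp p f = MvPolynomial.map (Int.castRingHom (ZMod p)) (com f) := by
  have h : comp p = ((MvPolynomial.map (Int.castRingHom (ZMod p))).toIntAlgHom).comp com := by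
    apply FreeAlgebra.hom_ext
    funext i
    change comp p (X i) = MvPolynomial.map (Int.castRingHom (ZMod p)) (com (X i))
    rw [ADA.comp_X]
    simp [com]
  exact congrArg (fun F => F f) h

private theorem nps_coeff (p : ℕ) (f : P) (d : ℕ →₀ ℕ) :
    (comp p f).coeff d = (((com f).coeff d : ℤ) : ZMod p) := by
  rw [nps_com, MvPolynomial.coeff_map]
  rfl

private theorem nps_dvd {p : ℕ} {f : P} {d : ℕ →₀ ℕ} :
    (p : ℤ) ∣ (com f).coeff d ↔ (comp p f).coeff d = 0 := by
  rw [nps_coeff, CharP.intCast_eq_zero_iff (ZMod p) p]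

private theorem nps_com_mon (w : List ℕ) : com (mon w) = MvPolynomial.monomial (ADA.cnt w) 1 := by
  induction w with
  | nil => rw [mon_nil, map_one]; simp [ADA.cnt]
  | cons a w ih =>
    have h : com (X a) = MvPolynomial.X a := by simp [com]
    rw [mon_cons, map_mul, ih, ADA.cnt_cons, h, MvPolynomial.X, MvPolynomial.monomial_mul, one_mul]

private theorem nps_cnt_deg (w : List ℕ) : (ADA.cnt w).degree = w.length := by
  induction w with
  | nil => simp [ADA.cnt]
  | cons a w ih => rw [ADA.cnt_cons, map_add, ih, Finsupp.degree_single, List.length_cons, add_comm]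

private theorem nps_cnt_one (a : ℕ) : ADA.cnt [a] = Finsupp.single a 1 := by simp [ADA.cnt]

private theorem nps_cnt_two (a b : ℕ) : ADA.cnt [a, b] = Finsupp.single a 1 + Finsupp.single b 1 := by
  simp [ADA.cnt]

private theorem nps_c1 (f : P) (i : ℕ) : (com f).coeff (Finsupp.single i 1) = cf [i] f := by
  classical
  refine ind_mon (C := fun f => (com f).coeff (Finsupp.single i 1) = cf [i] f) ?_ ?_ ?_ ?_ f
  · rw [map_zero, MvPolynomial.coeff_zero, nps_zero]
  · intro f g hf hg
    rw [map_add, MvPolynomial.coeff_add, hf, hg, cf_add]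
  · intro c f hf
    rw [map_smul, MvPolynomial.coeff_smul, hf, cf_smul, smul_eq_mul]
  · intro w
    rw [nps_com_mon, MvPolynomial.coeff_monomial, cf_mon]
    have h : ADA.cnt w = Finsupp.single i 1 ↔ w = [i] := by
      constructor
      · intro h
        have h1 := nps_cnt_deg w
        rw [h, Finsupp.degree_single] at h1
        obtain ⟨a, rfl⟩ := List.length_eq_one_iff.1 h1.symm
        rw [nps_cnt_one] at h
        rw [Finsupp.single_left_injective one_ne_zero h]
      · rintro rfl
        exact nps_cnt_one i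
    by_cases h1 : w = [i]
    · rw [if_pos h1, if_pos (h.2 h1)]
    · rw [if_neg h1, if_neg (fun h2 => h1 (h.1 h2))]

private theorem nps_c2 (f : P) (i j : ℕ) : (com f).coeff (Finsupp.single i 1 + Finsupp.single j 1) =
    if i = j then cf [i, i] f else cf [i, j] f + cf [j, i] f := by
  classical
  refine ind_mon (C := fun f => (com f).coeff (Finsupp.single i 1 + Finsupp.single j 1) =
    if i = j then cf [i, i] f else cf [i, j] f + cf [j, i] f) ?_ ?_ ?_ ?_ f
  · rw [map_zero, MvPolynomial.coeff_zero, nps_zero, nps_zero, nps_zero]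
    simp
  · intro f g hf hg
    rw [map_add, MvPolynomial.coeff_add, hf, hg, cf_add, cf_add, cf_add]
    split_ifs
    · rfl
    · ring
  · intro c f hf
    rw [map_smul, MvPolynomial.coeff_smul, hf, cf_smul, cf_smul, cf_smul, smul_eq_mul]
    split_ifs
    · rfl
    · ring
  · intro w
    rw [nps_com_mon, MvPolynomial.coeff_monomial, cf_mon, cf_mon, cf_mon]
    have h : ADA.cnt w = Finsupp.single i 1 + Finsupp.single j 1 ↔ w = [i, j] ∨ w = [j, i] := by
      constructor
      · intro h
        have h1 := nps_cnt_deg w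
        rw [h, map_add, Finsupp.degree_single, Finsupp.degree_single] at h1
        obtain ⟨a, b, rfl⟩ := List.length_eq_two.1 h1.symm
        rw [nps_cnt_two, Finsupp.single_add_single_eq_single_add_single one_ne_zero one_ne_zero] at h
        rcases h with ⟨rfl, rfl⟩ | ⟨_, rfl, rfl⟩ | ⟨h, _⟩
        · exact Or.inl rfl
        · exact Or.inr rfl
        · omega
      · rintro (rfl | rfl)
        · exact nps_cnt_two i j
        · rw [nps_cnt_two, add_comm]
    by_cases hij : i = j
    · subst hij
      rw [if_pos rfl]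
      rw [or_self] at h
      by_cases h1 : w = [i, i]
      · rw [if_pos h1, if_pos (h.2 h1)]
      · rw [if_neg h1, if_neg (fun h2 => h1 (h.1 h2))]
    · rw [if_neg hij]
      by_cases h1 : w = [i, j]
      · rw [if_pos (h.2 (Or.inl h1)), if_pos h1, if_neg, add_zero]
        rw [h1]
        intro h2
        exact hij (List.cons.inj h2).1
      · by_cases h2 : w = [j, i]
        · rw [if_pos (h.2 (Or.inr h2)), if_neg h1, if_pos h2, zero_add]
        · rw [if_neg h1, if_neg h2, if_neg, add_zero]
          intro h3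
          rcases h.1 h3 with h4 | h4
          · exact h1 h4
          · exact h2 h4

private theorem nps_split {d : ℕ →₀ ℕ} {n : ℕ} (h : d.degree = n + 1) :
    ∃ i e, d = Finsupp.single i 1 + e ∧ e.degree = n := by
  have h0 : d ≠ 0 := by
    rintro rfl
    simp at h
  obtain ⟨i, hi⟩ := Finsupp.ne_iff.1 h0
  rw [Finsupp.zero_apply] at hi
  have h1 : Finsupp.single i 1 ≤ d := by
    rw [Finsupp.single_le_iff]
    omega
  refine ⟨i, d - Finsupp.single i 1, (add_tsub_cancel_of_le h1).symm, ?_⟩
  have h2 : d.degree = 1 + (d - Finsupp.single i 1).degree := by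
    conv_lhs => rw [← add_tsub_cancel_of_le h1]
    rw [map_add, Finsupp.degree_single]
  omega

private theorem nps_pow {p : ℕ} {α β : ℤ} {f : P} (h : NN p α β f) :
    comp p f ∈ (mm (ZMod p)) ^ (p + 1) := by
  obtain ⟨hP, h1, m, hm, h2, h3, -, -⟩ := h
  rw [ADA.mem_mm_pow]
  intro d hd
  rcases lt_or_ge d.degree 3 with hlt | hge
  · rcases Nat.eq_zero_or_pos d.degree with h0 | hpos
    · rw [(Finsupp.degree_eq_zero_iff d).1 h0, ADA.coeff_comp, mem_Pp.1 hP, Int.cast_zero]
    · obtain ⟨n, hn⟩ : ∃ n, d.degree = n + 1 := ⟨d.degree - 1, by omega⟩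
      obtain ⟨i, e, rfl, he⟩ := nps_split hn
      rw [← nps_dvd]
      rcases Nat.eq_zero_or_pos n with h0 | hpos'
      · rw [h0] at he
        rw [(Finsupp.degree_eq_zero_iff e).1 he, add_zero, nps_c1]
        exact h1 i
      · have he1 : e.degree = 0 + 1 := by omega
        obtain ⟨j, e', rfl, he'⟩ := nps_split he1
        rw [(Finsupp.degree_eq_zero_iff e').1 he', add_zero, nps_c2]
        split_ifs with hij
        · have hmi : m i i = 0 := by
            have := hm i i
            omega
          have := h2 i i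
          rwa [hmi, mul_zero, sub_zero] at this
        · have h4 := dvd_add (h2 i j) (h2 j i)
          have h5 : cf [i, j] f - α * m i j + (cf [j, i] f - α * m j i) = cf [i, j] f + cf [j, i] f := by
            rw [hm i j]
            ring
          rwa [h5] at h4
  · rw [← nps_dvd]
    exact h3 d hge (by omega)

private theorem nps_of {p : ℕ} (α β : ℤ) {f : P} (hf : f ∈ Pp) (h1 : ∀ i, (p : ℤ) ∣ cf [i] f)
    (h2 : ∀ i j, (p : ℤ) ∣ cf [i, j] f) (h3 : comp p f ∈ (mm (ZMod p)) ^ (p + 2)) : NN p α β f := by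
  rw [ADA.mem_mm_pow] at h3
  refine ⟨hf, h1, fun _ _ => 0, ?_, ?_, ?_, ?_, ?_⟩
  · intro i j
    simp
  · intro i j
    simpa using h2 i j
  · intro d _ hd
    rw [nps_dvd]
    exact h3 d (by omega)
  · intro i j
    rw [mul_zero, sub_zero]
    refine dvd_sub ?_ ?_
    · rw [nps_dvd]
      refine h3 _ ?_
      rw [map_add, Finsupp.degree_single, Finsupp.degree_single]
      omega
    · rw [nps_dvd]
      refine h3 _ ?_
      rw [map_add, Finsupp.degree_single, Finsupp.degree_single]
      omega
  · intro d hd _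
    rw [nps_dvd]
    exact h3 d (by omega)

private theorem nps_NN0 (p : ℕ) (α β : ℤ) : NN p α β 0 := by
  refine nps_of α β Pp.zero_mem ?_ ?_ ?_
  · intro i
    rw [nps_zero]
    exact dvd_zero _
  · intro i j
    rw [nps_zero]
    exact dvd_zero _
  · rw [map_zero]
    exact Ideal.zero_mem _

private theorem nps_add {p : ℕ} {α β : ℤ} {f g : P} (hf : NN p α β f) (hg : NN p α β g) :
    NN p α β (f + g) := by
  obtain ⟨hP, h1, m, hm, h2, h3, h4, h5⟩ := hf
  obtain ⟨hP', h1', m', hm', h2', h3', h4', h5'⟩ := hg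
  refine ⟨Pp.add_mem hP hP', ?_, fun i j => m i j + m' i j, ?_, ?_, ?_, ?_, ?_⟩
  · intro i
    rw [cf_add]
    exact dvd_add (h1 i) (h1' i)
  · intro i j
    beta_reduce
    rw [hm i j, hm' i j]
    ring
  · intro i j
    have h := dvd_add (h2 i j) (h2' i j)
    have e : cf [i, j] (f + g) - α * (m i j + m' i j) =
        cf [i, j] f - α * m i j + (cf [i, j] g - α * m' i j) := by
      rw [cf_add]
      ring
    rw [e]
    exact h
  · intro d hd hd'
    rw [map_add, MvPolynomial.coeff_add]
    exact dvd_add (h3 d hd hd') (h3' d hd hd')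
  · intro i j
    have h := dvd_add (h4 i j) (h4' i j)
    have e : ∀ a b c d x y : ℤ, a + b - (c + d) - β * (x + y) = (a - c - β * x) + (b - d - β * y) := by
      intros
      ring
    rw [map_add, MvPolynomial.coeff_add, MvPolynomial.coeff_add]
    beta_reduce
    rw [e]
    exact h
  · intro d hd hd'
    rw [map_add, MvPolynomial.coeff_add]
    exact dvd_add (h5 d hd hd') (h5' d hd hd')

private theorem nps_smul {p : ℕ} {α β : ℤ} (c : ℤ) {f : P} (hf : NN p α β f) : NN p α β (c • f) := by
  obtain ⟨hP, h1, m, hm, h2, h3, h4, h5⟩ := hf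
  refine ⟨Pp.smul_mem _ hP, ?_, fun i j => c * m i j, ?_, ?_, ?_, ?_, ?_⟩
  · intro i
    rw [cf_smul]
    exact Dvd.dvd.mul_left (h1 i) c
  · intro i j
    beta_reduce
    rw [hm i j]
    ring
  · intro i j
    have h := Dvd.dvd.mul_left (h2 i j) c
    have e : cf [i, j] (c • f) - α * (c * m i j) = c * (cf [i, j] f - α * m i j) := by
      rw [cf_smul]
      ring
    rw [e]
    exact h
  · intro d hd hd'
    rw [map_smul, MvPolynomial.coeff_smul, smul_eq_mul]
    exact Dvd.dvd.mul_left (h3 d hd hd') c
  · intro i j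
    have h := Dvd.dvd.mul_left (h4 i j) c
    have e : ∀ a b x : ℤ, c * a - c * b - β * (c * x) = c * (a - b - β * x) := by
      intros
      ring
    rw [map_smul, MvPolynomial.coeff_smul, MvPolynomial.coeff_smul, smul_eq_mul, smul_eq_mul]
    beta_reduce
    rw [e]
    exact h
  · intro d hd hd'
    rw [map_smul, MvPolynomial.coeff_smul, smul_eq_mul]
    exact Dvd.dvd.mul_left (h5 d hd hd') c

theorem NPt_mem {p : ℕ} {α β : ℤ} {f : P} : f ∈ NPt p α β ↔ NN p α β f := by
  constructor
  · intro h
    unfold NPt at h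
    induction h using Submodule.span_induction with
    | mem x hx => exact hx
    | zero => exact nps_NN0 p α β
    | add x y _ _ hx hy => exact nps_add hx hy
    | smul c x _ hx => exact nps_smul c hx
  · intro h
    exact Submodule.subset_span h

private theorem nps_cf1 {f g : P} (hf : f ∈ Pp) (hg : g ∈ Pp) (i : ℕ) : cf [i] (f * g) = 0 := by
  rw [ADM.cf_mul]
  have h1 : cf [] f = 0 := by rw [cf_nil]; exact mem_Pp.1 hf
  have h2 : cf [] g = 0 := by rw [cf_nil]; exact mem_Pp.1 hg
  simp [Finset.sum_range_succ, h1, h2]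

private theorem nps_mm {p : ℕ} {g : P} (hg : g ∈ Pp) : comp p g ∈ mm (ZMod p) := by
  rw [ADA.mem_mm, ADA.coeff_comp, mem_Pp.1 hg, Int.cast_zero]

private theorem nps_mulr {p : ℕ} {α β : ℤ} {f g : P} (h : NN p α β f) (hg : g ∈ Pp) :
    NN p α β (f * g) := by
  refine nps_of α β (Pp_mul_right h.1 g) ?_ ?_ ?_
  · intro i
    rw [nps_cf1 h.1 hg]
    exact dvd_zero _
  · intro i j
    rw [ADM.cf_two h.1 hg]
    exact Dvd.dvd.mul_right (h.2.1 i) _
  · rw [map_mul]
    have : p + 2 = (p + 1) + 1 := rfl
    rw [this, pow_succ _ (p + 1)]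
    exact Ideal.mul_mem_mul (nps_pow h) (nps_mm hg)

private theorem nps_mull {p : ℕ} {α β : ℤ} {f g : P} (h : NN p α β f) (hg : g ∈ Pp) :
    NN p α β (g * f) := by
  refine nps_of α β (Pp_mul_left g h.1) ?_ ?_ ?_
  · intro i
    rw [nps_cf1 hg h.1]
    exact dvd_zero _
  · intro i j
    rw [ADM.cf_two hg h.1]
    exact Dvd.dvd.mul_left (h.2.1 j) _
  · rw [map_mul]
    have : p + 2 = (p + 1) + 1 := rfl
    rw [this, pow_succ' _ (p + 1)]
    exact Ideal.mul_mem_mul (nps_mm hg) (nps_pow h)

private theorem nps_dec (g : P) : ∃ g' ∈ Pp, g = aug g • (1 : P) + g' := by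
  refine ⟨g - aug g • (1 : P), ?_, by abel⟩
  rw [mem_Pp, map_sub, map_smul, map_one]
  simp

/-! ### substitutions -/

private theorem nps_cf_Pn {N : ℕ} {f : P} (hf : f ∈ Pn N) {φ : P →ₐ[ℤ] P} (hφ : IsSubst φ) (k : ℕ) :
    cf [k] (φ f) = ∑ i ∈ Finset.range N, cf [i] f * cf [k] (φ (X i)) := by
  classical
  have hf' : f ∈ Submodule.span ℤ {f | ∃ w : List ℕ, w ≠ [] ∧ (∀ a ∈ w, a < N) ∧ f = mon w} := hf
  induction hf' using Submodule.span_induction with
  | mem x hx =>
    obtain ⟨w, hw, ha, rfl⟩ := hx
    have hcf : ∀ i, cf [i] (mon w) = if w = [i] then 1 else 0 := fun i => cf_mon _ _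
    simp only [hcf]
    by_cases h1 : w.length = 1
    · obtain ⟨a, rfl⟩ := List.length_eq_one_iff.1 h1
      rw [Finset.sum_eq_single a]
      · rw [if_pos rfl, one_mul, mon_single]
      · intro b _ hb
        rw [if_neg, zero_mul]
        intro h
        exact hb (List.cons.inj h).1.symm
      · intro h
        exact absurd (Finset.mem_range.2 (ha a (by simp))) h
    · have h2 : 2 ≤ w.length := by
        have := List.length_pos_of_ne_nil hw
        omega
      have h3 : φ (mon w) ∈ Fge 2 :=
        (isT_Fge 2 (by norm_num)).subst φ hφ _ (Submodule.subset_span ⟨w, h2, rfl⟩)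
      rw [ADM.cf_Fge h3 (by simp)]
      symm
      refine Finset.sum_eq_zero fun i _ => ?_
      rw [if_neg, zero_mul]
      rintro rfl
      exact h1 rfl
  | zero => simp [nps_zero]
  | add x y hx hy hx' hy' =>
    rw [map_add, cf_add, hx' hx, hy' hy, ← Finset.sum_add_distrib]
    refine Finset.sum_congr rfl fun i _ => ?_
    rw [cf_add]
    ring
  | smul c x hx hx' =>
    rw [map_smul, cf_smul, hx' hx, Finset.mul_sum]
    refine Finset.sum_congr rfl fun i _ => ?_
    rw [cf_smul]
    ring

private theorem nps_cf_Pn2 {N : ℕ} {f : P} (hf : f ∈ Pn N) {φ : P →ₐ[ℤ] P} (hφ : IsSubst φ) (k l : ℕ) :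
    cf [k, l] (φ f) = ∑ i ∈ Finset.range N, cf [i] f * cf [k, l] (φ (X i)) +
      ∑ i ∈ Finset.range N, ∑ j ∈ Finset.range N, cf [i, j] f * (cf [k] (φ (X i)) * cf [l] (φ (X j))) := by
  classical
  have hf' : f ∈ Submodule.span ℤ {f | ∃ w : List ℕ, w ≠ [] ∧ (∀ a ∈ w, a < N) ∧ f = mon w} := hf
  induction hf' using Submodule.span_induction with
  | mem x hx =>
    obtain ⟨w, hw, ha, rfl⟩ := hx
    have hcf : ∀ i, cf [i] (mon w) = if w = [i] then 1 else 0 := fun i => cf_mon _ _
    have hcf2 : ∀ i j, cf [i, j] (mon w) = if w = [i, j] then 1 else 0 := fun i j => cf_mon _ _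
    simp only [hcf, hcf2]
    by_cases h1 : w.length = 1
    · obtain ⟨a, rfl⟩ := List.length_eq_one_iff.1 h1
      have e2 : ∑ i ∈ Finset.range N, ∑ j ∈ Finset.range N,
          (if [a] = [i, j] then (1 : ℤ) else 0) * (cf [k] (φ (X i)) * cf [l] (φ (X j))) = 0 := by
        refine Finset.sum_eq_zero fun i _ => Finset.sum_eq_zero fun j _ => ?_
        rw [if_neg (by simp), zero_mul]
      rw [e2, add_zero, Finset.sum_eq_single a]
      · rw [if_pos rfl, one_mul, mon_single]
      · intro b _ hb
        rw [if_neg, zero_mul]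
        intro h
        exact hb (List.cons.inj h).1.symm
      · intro h
        exact absurd (Finset.mem_range.2 (ha a (by simp))) h
    · have e1 : ∑ i ∈ Finset.range N, (if w = [i] then (1 : ℤ) else 0) * cf [k, l] (φ (X i)) = 0 := by
        refine Finset.sum_eq_zero fun i _ => ?_
        rw [if_neg, zero_mul]
        rintro rfl
        exact h1 rfl
      rw [e1, zero_add]
      by_cases h2 : w.length = 2
      · obtain ⟨a, b, rfl⟩ := List.length_eq_two.1 h2
        rw [Finset.sum_eq_single a, Finset.sum_eq_single b]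
        · rw [if_pos rfl, one_mul, mon_cons, mon_single, map_mul,
            ADM.cf_two (mem_Pp.2 (hφ a)) (mem_Pp.2 (hφ b))]
        · intro j _ hj
          rw [if_neg, zero_mul]
          intro h
          exact hj (List.cons.inj (List.cons.inj h).2).1.symm
        · intro h
          exact absurd (Finset.mem_range.2 (ha b (by simp))) h
        · intro i _ hi
          refine Finset.sum_eq_zero fun j _ => ?_
          rw [if_neg, zero_mul]
          intro h
          exact hi (List.cons.inj h).1.symm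
        · intro h
          exact absurd (Finset.mem_range.2 (ha a (by simp))) h
      · have h2' : 3 ≤ w.length := by
          have := List.length_pos_of_ne_nil hw
          omega
        have h3 : φ (mon w) ∈ Fge 3 :=
          (isT_Fge 3 (by norm_num)).subst φ hφ _ (Submodule.subset_span ⟨w, h2', rfl⟩)
        rw [ADM.cf_Fge h3 (by simp)]
        symm
        refine Finset.sum_eq_zero fun i _ => Finset.sum_eq_zero fun j _ => ?_
        rw [if_neg, zero_mul]
        rintro rfl
        exact h2 rfl
  | zero => simp [nps_zero]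
  | add x y hx hy hx' hy' =>
    rw [map_add, cf_add, hx' hx, hy' hy]
    have e1 : ∑ i ∈ Finset.range N, cf [i] (x + y) * cf [k, l] (φ (X i)) =
        ∑ i ∈ Finset.range N, cf [i] x * cf [k, l] (φ (X i)) +
          ∑ i ∈ Finset.range N, cf [i] y * cf [k, l] (φ (X i)) := by
      rw [← Finset.sum_add_distrib]
      refine Finset.sum_congr rfl fun i _ => ?_
      rw [cf_add]
      ring
    have e2 : ∑ i ∈ Finset.range N, ∑ j ∈ Finset.range N,
          cf [i, j] (x + y) * (cf [k] (φ (X i)) * cf [l] (φ (X j))) =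
        ∑ i ∈ Finset.range N, ∑ j ∈ Finset.range N, cf [i, j] x * (cf [k] (φ (X i)) * cf [l] (φ (X j))) +
        ∑ i ∈ Finset.range N, ∑ j ∈ Finset.range N,
          cf [i, j] y * (cf [k] (φ (X i)) * cf [l] (φ (X j))) := by
      rw [← Finset.sum_add_distrib]
      refine Finset.sum_congr rfl fun i _ => ?_
      rw [← Finset.sum_add_distrib]
      refine Finset.sum_congr rfl fun j _ => ?_
      rw [cf_add]
      ring
    rw [e1, e2]
    ring
  | smul c x hx hx' =>
    rw [map_smul, cf_smul, hx' hx, mul_add, Finset.mul_sum, Finset.mul_sum]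
    congr 1
    · refine Finset.sum_congr rfl fun i _ => ?_
      rw [cf_smul]
      ring
    · refine Finset.sum_congr rfl fun i _ => ?_
      rw [Finset.mul_sum]
      refine Finset.sum_congr rfl fun j _ => ?_
      rw [cf_smul]
      ring

private theorem nps_cnt_mem {w : List ℕ} {a : ℕ} (h : ADA.cnt w a ≠ 0) : a ∈ w := by
  induction w with
  | nil => simp [ADA.cnt] at h
  | cons b w ih =>
    rw [ADA.cnt_cons, Finsupp.add_apply] at h
    by_cases hab : b = a
    · rw [hab]
      exact List.mem_cons_self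
    · rw [Finsupp.single_eq_of_ne (by simpa using (Ne.symm hab)), zero_add] at h
      exact List.mem_cons_of_mem _ (ih h)

private theorem nps_Pn {p N : ℕ} {f : P} (hf : f ∈ Pn N) (d : ℕ →₀ ℕ) (a : ℕ) (ha : N ≤ a)
    (hd : d a ≠ 0) : (comp p f).coeff d = 0 := by
  classical
  have hf' : f ∈ Submodule.span ℤ {f | ∃ w : List ℕ, w ≠ [] ∧ (∀ a ∈ w, a < N) ∧ f = mon w} := hf
  have key : (com f).coeff d = 0 := by
    induction hf' using Submodule.span_induction with
    | mem x hx =>
      obtain ⟨w, hw, haw, rfl⟩ := hx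
      rw [nps_com_mon, MvPolynomial.coeff_monomial, if_neg]
      rintro rfl
      have := haw a (nps_cnt_mem hd)
      omega
    | zero => rw [map_zero, MvPolynomial.coeff_zero]
    | add x y hx hy hx' hy' => rw [map_add, MvPolynomial.coeff_add, hx' hx, hy' hy, add_zero]
    | smul c x hx hx' => rw [map_smul, MvPolynomial.coeff_smul, hx' hx, smul_zero]
  rw [nps_coeff, key, Int.cast_zero]

private theorem nps_frob0 {p : ℕ} [Fact p.Prime] {V : ADA.Ap p} (hV : V ∈ mm (ZMod p)) {a : ℕ →₀ ℕ}
    (h : (V ^ p).coeff a ≠ 0) : (∀ i, p ∣ a i) ∧ ∃ i, p ≤ a i := by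
  have hp0 : p ≠ 0 := (Fact.out : p.Prime).ne_zero
  rw [← MvPolynomial.expand_zmod] at h
  have h1 : ∀ i, p ∣ a i := by
    intro i
    by_contra hc
    exact h (MvPolynomial.coeff_expand_of_not_dvd V hc)
  refine ⟨h1, ?_⟩
  have h0 : a ≠ 0 := by
    rintro rfl
    apply h
    rw [MvPolynomial.coeff_expand_zero _ hp0]
    exact (ADA.mem_mm V).1 hV
  obtain ⟨i, hi⟩ := Finsupp.ne_iff.1 h0
  exact ⟨i, Nat.le_of_dvd (Nat.pos_of_ne_zero hi) (h1 i)⟩

private theorem nps_fa {p : ℕ} [Fact p.Prime] {V W : ADA.Ap p} (hV : V ∈ mm (ZMod p)) {d : ℕ →₀ ℕ}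
    (hd : ∀ i, d i < p) : (V ^ p * W).coeff d = 0 := by
  classical
  rw [MvPolynomial.coeff_mul]
  refine Finset.sum_eq_zero fun x hx => ?_
  rw [Finset.HasAntidiagonal.mem_antidiagonal] at hx
  by_contra hc
  obtain ⟨-, i, hi⟩ := nps_frob0 hV (left_ne_zero_of_mul hc)
  have h1 := hd i
  rw [← hx, Finsupp.add_apply] at h1
  omega

private theorem nps_fb {p : ℕ} [Fact p.Prime] {V W : ADA.Ap p} (hV : V ∈ mm (ZMod p)) (k l : ℕ) :
    (V ^ p * W).coeff (Finsupp.single k p + Finsupp.single l 1) =
      V.coeff (Finsupp.single k 1) * W.coeff (Finsupp.single l 1) := by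
  classical
  have hp : p.Prime := Fact.out
  have hp2 := hp.two_le
  rw [MvPolynomial.coeff_mul, Finset.sum_eq_single (Finsupp.single k p, Finsupp.single l 1)]
  · congr 1
    have h1 : Finsupp.single k p = p • (Finsupp.single k 1 : ℕ →₀ ℕ) := by
      rw [Finsupp.smul_single, smul_eq_mul, mul_one]
    change (V ^ p).coeff (Finsupp.single k p) = _
    rw [← MvPolynomial.expand_zmod, h1, MvPolynomial.coeff_expand_smul _ hp.ne_zero]
  · rintro ⟨a, b⟩ hx hne
    rw [Finset.HasAntidiagonal.mem_antidiagonal] at hx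
    change a + b = _ at hx
    change (V ^ p).coeff a * W.coeff b = 0
    by_contra hc
    obtain ⟨h1, i, hi⟩ := nps_frob0 hV (left_ne_zero_of_mul hc)
    have hev : ∀ j, a j + b j = Finsupp.single k p j + Finsupp.single l 1 j := by
      intro j
      have := DFunLike.congr_fun hx j
      simpa using this
    have hs1 : ∀ j, (Finsupp.single l 1 : ℕ →₀ ℕ) j ≤ 1 := by
      intro j
      rw [Finsupp.single_apply]
      split_ifs <;> omega
    have hsk : ∀ j, j ≠ k → (Finsupp.single k p : ℕ →₀ ℕ) j = 0 := by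
      intro j hj
      rw [Finsupp.single_apply, if_neg (fun h => hj h.symm)]
    have hsk' : (Finsupp.single k p : ℕ →₀ ℕ) k = p := by simp
    have hz : ∀ j, j ≠ k → a j = 0 := by
      intro j hj
      have e := hev j
      rw [hsk j hj] at e
      have e1 := hs1 j
      by_contra h0
      have := Nat.le_of_dvd (Nat.pos_of_ne_zero h0) (h1 j)
      omega
    have hik : i = k := by
      by_contra h0
      have := hz i h0
      omega
    rw [hik] at hi
    have hak : a k = p := by
      have e := hev k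
      rw [hsk'] at e
      have e1 := hs1 k
      obtain ⟨c, hc'⟩ := h1 k
      rcases Nat.lt_or_ge c 2 with h | h
      · rcases Nat.lt_or_ge c 1 with h' | h'
        · have hc0 : c = 0 := by omega
          rw [hc0, mul_zero] at hc'
          omega
        · have hc1 : c = 1 := by omega
          rw [hc1, mul_one] at hc'
          exact hc'
      · have : p * 2 ≤ p * c := Nat.mul_le_mul_left p h
        omega
    have ha : a = Finsupp.single k p := by
      ext j
      by_cases hj : j = k
      · rw [hj, hak, hsk']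
      · rw [hz j hj, hsk j hj]
    have hb : b = Finsupp.single l 1 := by
      rw [ha] at hx
      exact add_left_cancel hx
    exact hne (by rw [ha, hb])
  · intro h
    exfalso
    apply h
    rw [Finset.HasAntidiagonal.mem_antidiagonal]

private theorem nps_shape {p : ℕ} {d : ℕ →₀ ℕ} (hd : d.degree = p + 1) {i : ℕ} (hi : p ≤ d i) :
    ∃ j, d = Finsupp.single i p + Finsupp.single j 1 := by
  have h1 : Finsupp.single i p ≤ d := Finsupp.single_le_iff.2 hi
  have h2 : d.degree = p + (d - Finsupp.single i p).degree := by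
    conv_lhs => rw [← add_tsub_cancel_of_le h1]
    rw [map_add, Finsupp.degree_single]
  have h3 : (d - Finsupp.single i p).degree = 0 + 1 := by omega
  obtain ⟨j, e, he, he'⟩ := nps_split h3
  rw [(Finsupp.degree_eq_zero_iff e).1 he', add_zero] at he
  exact ⟨j, by rw [← he, add_tsub_cancel_of_le h1]⟩

private theorem nps_key {p : ℕ} [Fact p.Prime] {G : ADA.Ap p} {N : ℕ}
    (hG : G ∈ (mm (ZMod p)) ^ (p + 1))
    (hN : ∀ d : ℕ →₀ ℕ, ∀ a, N ≤ a → d a ≠ 0 → G.coeff d = 0)
    (hq : ∀ d : ℕ →₀ ℕ, d.degree = p + 1 → (∀ i, d i < p) → G.coeff d = 0)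
    {v : ℕ → ADA.Ap p} (hv : ∀ i, v i ∈ mm (ZMod p)) {d : ℕ →₀ ℕ} (hd : d.degree = p + 1) :
    ((MvPolynomial.aeval v : ADA.Ap p →ₐ[ZMod p] ADA.Ap p) G).coeff d =
      ∑ i ∈ Finset.range N, ∑ j ∈ Finset.range N,
        G.coeff (Finsupp.single i p + Finsupp.single j 1) * (v i ^ p * v j).coeff d := by
  classical
  have hp : p.Prime := Fact.out
  have hp2 := hp.two_le
  obtain ⟨H, hH⟩ : ∃ H : ADA.Ap p, H = ∑ i ∈ Finset.range N, ∑ j ∈ Finset.range N,
      MvPolynomial.monomial (Finsupp.single i p + Finsupp.single j 1)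
        (G.coeff (Finsupp.single i p + Finsupp.single j 1)) := ⟨_, rfl⟩
  have hHc : ∀ e : ℕ →₀ ℕ, H.coeff e = ∑ i ∈ Finset.range N, ∑ j ∈ Finset.range N,
      if Finsupp.single i p + Finsupp.single j 1 = e then
        G.coeff (Finsupp.single i p + Finsupp.single j 1) else 0 := by
    intro e
    rw [hH, MvPolynomial.coeff_sum]
    refine Finset.sum_congr rfl fun i _ => ?_
    rw [MvPolynomial.coeff_sum]
    refine Finset.sum_congr rfl fun j _ => ?_
    rw [MvPolynomial.coeff_monomial]
  have hdiff : G - H ∈ (mm (ZMod p)) ^ (p + 2) := by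
    rw [ADA.mem_mm_pow]
    intro e he
    rw [MvPolynomial.coeff_sub, hHc]
    rcases Nat.lt_or_ge e.degree (p + 1) with hlt | hge
    · rw [(ADA.mem_mm_pow _ _).1 hG e hlt, zero_sub, neg_eq_zero]
      refine Finset.sum_eq_zero fun i _ => Finset.sum_eq_zero fun j _ => ?_
      rw [if_neg]
      rintro rfl
      rw [map_add, Finsupp.degree_single, Finsupp.degree_single] at hlt
      omega
    · have hed : e.degree = p + 1 := by omega
      by_cases hcase : ∀ i, e i < p
      · rw [hq e hed hcase, zero_sub, neg_eq_zero]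
        refine Finset.sum_eq_zero fun i _ => Finset.sum_eq_zero fun j _ => ?_
        rw [if_neg]
        rintro rfl
        have := hcase i
        rw [Finsupp.add_apply, Finsupp.single_eq_same] at this
        omega
      · push Not at hcase
        obtain ⟨k, hk⟩ := hcase
        obtain ⟨l, rfl⟩ := nps_shape hed hk
        have hinj : ∀ i j, Finsupp.single i p + Finsupp.single j 1 =
            (Finsupp.single k p + Finsupp.single l 1 : ℕ →₀ ℕ) ↔ i = k ∧ j = l := by
          intro i j
          rw [Finsupp.single_add_single_eq_single_add_single hp.ne_zero one_ne_zero]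
          constructor
          · rintro (h | ⟨h, -, -⟩ | ⟨h, -, -⟩)
            · exact h
            · omega
            · omega
          · intro h
            exact Or.inl h
        by_cases hkl : k < N ∧ l < N
        · rw [Finset.sum_eq_single k, Finset.sum_eq_single l]
          · rw [if_pos rfl, sub_self]
          · intro j _ hj
            rw [if_neg]
            rw [hinj]
            exact fun h => hj h.2
          · intro h
            exact absurd (Finset.mem_range.2 hkl.2) h
          · intro i _ hi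
            refine Finset.sum_eq_zero fun j _ => ?_
            rw [if_neg]
            rw [hinj]
            exact fun h => hi h.1
          · intro h
            exact absurd (Finset.mem_range.2 hkl.1) h
        · have hz : G.coeff (Finsupp.single k p + Finsupp.single l 1) = 0 := by
            by_cases hkN : k < N
            · have hlN : N ≤ l := by
                by_contra hc
                exact hkl ⟨hkN, by omega⟩
              refine hN _ l hlN ?_
              rw [Finsupp.add_apply, Finsupp.single_eq_same]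
              omega
            · refine hN _ k (by omega) ?_
              rw [Finsupp.add_apply, Finsupp.single_eq_same]
              omega
          rw [hz, zero_sub, neg_eq_zero]
          refine Finset.sum_eq_zero fun i hi => Finset.sum_eq_zero fun j hj => ?_
          rw [if_neg]
          rw [hinj]
          rintro ⟨rfl, rfl⟩
          exact hkl ⟨Finset.mem_range.1 hi, Finset.mem_range.1 hj⟩
  have h1 : (MvPolynomial.aeval v : ADA.Ap p →ₐ[ZMod p] ADA.Ap p) G =
      (MvPolynomial.aeval v : ADA.Ap p →ₐ[ZMod p] ADA.Ap p) (G - H) +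
      (MvPolynomial.aeval v : ADA.Ap p →ₐ[ZMod p] ADA.Ap p) H := by
    rw [← map_add, sub_add_cancel]
  rw [h1, MvPolynomial.coeff_add,
    (ADA.mem_mm_pow _ _).1 (ADA.aeval_pow_mem hv _ hdiff) d (by omega), zero_add, hH, map_sum,
    MvPolynomial.coeff_sum]
  refine Finset.sum_congr rfl fun i _ => ?_
  rw [map_sum, MvPolynomial.coeff_sum]
  refine Finset.sum_congr rfl fun j _ => ?_
  rw [MvPolynomial.aeval_monomial, Finsupp.prod_add_index' (by simp) (by intro a b c; exact pow_add _ _ _),
    Finsupp.prod_single_index (by simp), Finsupp.prod_single_index (by simp), pow_one,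
    MvPolynomial.algebraMap_eq, MvPolynomial.coeff_C_mul]

private theorem nps_subst {p : ℕ} (hp : p.Prime) {α β : ℤ} {φ : P →ₐ[ℤ] P} (hφ : IsSubst φ) {f : P}
    (h : NN p α β f) : NN p α β (φ f) := by
  classical
  have : Fact p.Prime := ⟨hp⟩
  have hG := nps_pow h
  obtain ⟨hP, h1, m, hm, h2, h3, h4, h5⟩ := h
  obtain ⟨N, hN⟩ := exists_mem_Pn hP
  have hPX : ∀ i, φ (X i) ∈ Pp := fun i => mem_Pp.2 (hφ i)
  have hv : ∀ i, comp p (φ (X i)) ∈ mm (ZMod p) := fun i => nps_mm (hPX i)
  have hsub := ADA.comp_subst (p := p) φ f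
  have hq : ∀ d : ℕ →₀ ℕ, d.degree = p + 1 → (∀ i, d i < p) → (comp p f).coeff d = 0 := by
    intro d hd hd'
    rw [← nps_dvd]
    exact h5 d hd hd'
  have hkey : ∀ d : ℕ →₀ ℕ, d.degree = p + 1 → (comp p (φ f)).coeff d =
      ∑ i ∈ Finset.range N, ∑ j ∈ Finset.range N,
        (comp p f).coeff (Finsupp.single i p + Finsupp.single j 1) *
          ((comp p (φ (X i))) ^ p * comp p (φ (X j))).coeff d := by
    intro d hd
    rw [hsub]
    exact nps_key hG (nps_Pn hN) hq hv hd
  have hlin : ∀ i k, (comp p (φ (X i))).coeff (Finsupp.single k 1) = ((cf [k] (φ (X i)) : ℤ) : ZMod p) := by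
    intro i k
    rw [nps_coeff, nps_c1]
  refine ⟨isT_Pp.subst φ hφ f hP, ?_,
    fun k l => ∑ i ∈ Finset.range N, ∑ j ∈ Finset.range N,
      m i j * (cf [k] (φ (X i)) * cf [l] (φ (X j))), ?_, ?_, ?_, ?_, ?_⟩
  · intro k
    rw [nps_cf_Pn hN hφ]
    exact Finset.dvd_sum fun i _ => Dvd.dvd.mul_right (h1 i) _
  · intro k l
    beta_reduce
    rw [Finset.sum_comm, ← Finset.sum_neg_distrib]
    refine Finset.sum_congr rfl fun i _ => ?_
    rw [← Finset.sum_neg_distrib]
    refine Finset.sum_congr rfl fun j _ => ?_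
    rw [hm j i]
    ring
  · intro k l
    rw [nps_cf_Pn2 hN hφ, Finset.mul_sum, add_sub_assoc, ← Finset.sum_sub_distrib]
    refine dvd_add (Finset.dvd_sum fun i _ => Dvd.dvd.mul_right (h1 i) _)
      (Finset.dvd_sum fun i _ => ?_)
    rw [Finset.mul_sum, ← Finset.sum_sub_distrib]
    refine Finset.dvd_sum fun j _ => ?_
    have e : cf [i, j] f * (cf [k] (φ (X i)) * cf [l] (φ (X j))) -
        α * (m i j * (cf [k] (φ (X i)) * cf [l] (φ (X j)))) =
        (cf [i, j] f - α * m i j) * (cf [k] (φ (X i)) * cf [l] (φ (X j))) := by ring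
    rw [e]
    exact Dvd.dvd.mul_right (h2 i j) _
  · intro d _ hd
    rw [nps_dvd, hsub]
    exact (ADA.mem_mm_pow _ _).1 (ADA.aeval_pow_mem hv _ hG) d (by omega)
  · intro k l
    rw [← CharP.intCast_eq_zero_iff (ZMod p) p]
    push_cast
    rw [← nps_coeff, ← nps_coeff, add_comm (Finsupp.single k 1) (Finsupp.single l p),
      hkey _ (by rw [map_add, Finsupp.degree_single, Finsupp.degree_single]),
      hkey _ (by rw [map_add, Finsupp.degree_single, Finsupp.degree_single])]
    simp only [nps_fb (hv _), hlin]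
    have hc : ∀ i j, (comp p f).coeff (Finsupp.single i p + Finsupp.single j 1) -
        (comp p f).coeff (Finsupp.single j p + Finsupp.single i 1) = (β : ZMod p) * (m i j : ZMod p) := by
      intro i j
      have h6 := h4 i j
      rw [← CharP.intCast_eq_zero_iff (ZMod p) p] at h6
      push_cast at h6
      rw [← nps_coeff, ← nps_coeff, add_comm (Finsupp.single i 1) (Finsupp.single j p)] at h6
      exact sub_eq_zero.1 h6
    have e2 : ∑ i ∈ Finset.range N, ∑ j ∈ Finset.range N,
        (comp p f).coeff (Finsupp.single i p + Finsupp.single j 1) *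
          (((cf [l] (φ (X i)) : ℤ) : ZMod p) * ((cf [k] (φ (X j)) : ℤ) : ZMod p)) =
        ∑ i ∈ Finset.range N, ∑ j ∈ Finset.range N,
        (comp p f).coeff (Finsupp.single j p + Finsupp.single i 1) *
          (((cf [l] (φ (X j)) : ℤ) : ZMod p) * ((cf [k] (φ (X i)) : ℤ) : ZMod p)) := Finset.sum_comm
    rw [e2, ← Finset.sum_sub_distrib, Finset.mul_sum, ← Finset.sum_sub_distrib]
    refine Finset.sum_eq_zero fun i _ => ?_
    rw [← Finset.sum_sub_distrib, Finset.mul_sum, ← Finset.sum_sub_distrib]
    refine Finset.sum_eq_zero fun j _ => ?_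
    have h7 := hc i j
    linear_combination (((cf [k] (φ (X i)) : ℤ) : ZMod p) * ((cf [l] (φ (X j)) : ℤ) : ZMod p)) * h7
  · intro d hd hd'
    rw [nps_dvd, hkey d hd]
    refine Finset.sum_eq_zero fun i _ => Finset.sum_eq_zero fun j _ => ?_
    rw [nps_fa (hv i) hd', mul_zero]

theorem NPt_isT {p : ℕ} (hp : p.Prime) (h5 : 3 ≤ p) (α β : ℤ) : IsT (NPt p α β) := by
  refine ⟨?_, ?_, ?_, ?_⟩
  · intro f hf
    exact (NPt_mem.1 hf).1
  · intro f hf g
    rw [NPt_mem] at hf ⊢
    obtain ⟨g', hg', hg⟩ := nps_dec g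
    rw [hg, mul_add, mul_smul_comm, mul_one]
    exact nps_add (nps_smul _ hf) (nps_mulr hf hg')
  · intro f hf g
    rw [NPt_mem] at hf ⊢
    obtain ⟨g', hg', hg⟩ := nps_dec g
    rw [hg, add_mul, smul_mul_assoc, one_mul]
    exact nps_add (nps_smul _ hf) (nps_mull hf hg')
  · intro φ hφ f hf
    rw [NPt_mem] at hf ⊢
    exact nps_subst hp hφ hf

theorem NPt_nil {p : ℕ} (h5 : 3 ≤ p) (α β : ℤ) : NilAt (NPt p α β) (p + 2) := by
  classical
  intro w hw
  rw [NPt_mem]
  have hne : w ≠ [] := by
    rintro rfl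
    simp at hw
  refine nps_of α β (mon_mem hne) ?_ ?_ ?_
  · intro i
    rw [cf_mon, if_neg]
    · exact dvd_zero _
    · rintro rfl
      simp at hw
      try omega
  · intro i j
    rw [cf_mon, if_neg]
    · exact dvd_zero _
    · rintro rfl
      simp at hw
      try omega
  · rw [nps_com, nps_com_mon, MvPolynomial.map_monomial]
    exact ADA.monomial_mem (by rw [nps_cnt_deg]; exact hw) _

theorem NPt_p {p : ℕ} (α β : ℤ) : Mul p (NPt p α β) := by
  intro f hf
  rw [NPt_mem]
  refine nps_of α β (Pp.smul_mem _ hf) ?_ ?_ ?_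
  · intro i
    rw [cf_smul]
    exact dvd_mul_right _ _
  · intro i j
    rw [cf_smul]
    exact dvd_mul_right _ _
  · have : comp p ((p : ℤ) • f) = 0 := by
      ext d
      rw [nps_coeff, map_smul, MvPolynomial.coeff_smul, smul_eq_mul, MvPolynomial.coeff_zero]
      push_cast
      rw [CharP.cast_eq_zero, zero_mul]
    rw [this]
    exact Ideal.zero_mem _

end ADP
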