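import Pool.Agent.ADP.Base
import Pool.Agent.ADP.NPs
import Pool.Agent.ADC.TOpW
import Pool.Agent.ADC.Cnc

/-!
# ADP-NEx: use of not containing `N_p`
-/

namespace ADP

open AD ADN ADC

/-- step 0 -/
theorem one_low {p : ℕ} {J : Submodule ℤ P} (hJ : Bt p J) {c : ℤ} (hc : ¬ (p : ℤ) ∣ c) {d : ℕ} (hd : 1 ≤ d)
    {r : P} (hr : r ∈ Submodule.span ℤ {f | ∃ e, d < e ∧ f = X 0 ^ e}) (h : c • X 0 ^ d + r ∈ J) :
    X 0 ^ d ∈ J := by
  obtain ⟨N, hN⟩ := hJ.nil
  have hpw : ∀ e, 1 ≤ e → (X 0 : P) ^ e ∈ Pp := by
    intro e he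
    obtain ⟨e', rfl⟩ : ∃ e', e = e' + 1 := ⟨e - 1, by omega⟩
    rw [pow_succ]
    exact Pp_mul_left _ (X_mem 0)
  have key : ∀ n e, d ≤ e → N ≤ e + n → (X 0 : P) ^ e ∈ J := by
    intro n
    induction n with
    | zero =>
      intro e _ he
      have h1 : (X 0 : P) ^ e = mon (List.replicate e 0) := by
        unfold mon
        rw [List.map_replicate, List.prod_replicate]
      rw [h1]
      exact hN _ (by rw [List.length_replicate]; exact he)
    | succ n ih =>
      intro e he hen
      have hS : Submodule.span ℤ {f : P | ∃ e', e < e' ∧ f = X 0 ^ e'} ≤ J := by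
        rw [Submodule.span_le]
        rintro f ⟨e', he', rfl⟩
        exact ih e' (by omega) (by omega)
      have h1 : X 0 ^ (e - d) * (c • X 0 ^ d + r) ∈ J := hJ.isT.mul_left _ h _
      have h2 : X 0 ^ (e - d) * r ∈ J := by
        refine hS ?_
        have h3 : ∀ r ∈ Submodule.span ℤ {f : P | ∃ e, d < e ∧ f = X 0 ^ e},
            X 0 ^ (e - d) * r ∈ Submodule.span ℤ {f : P | ∃ e', e < e' ∧ f = X 0 ^ e'} := by
          intro r hr
          induction hr using Submodule.span_induction with
          | mem x hx =>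
            obtain ⟨e1, h1, rfl⟩ := hx
            refine Submodule.subset_span ⟨e - d + e1, by omega, ?_⟩
            rw [← pow_add]
          | zero => rw [mul_zero]; exact Submodule.zero_mem _
          | add x y _ _ hx hy => rw [mul_add]; exact Submodule.add_mem _ hx hy
          | smul c x _ hx => rw [mul_smul_comm]; exact Submodule.smul_mem _ _ hx
        exact h3 r hr
      rw [mul_add, mul_smul_comm, ← pow_add, Nat.sub_add_cancel he] at h1
      have h4 : c • X 0 ^ e ∈ J := by
        have := J.sub_mem h1 h2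
        rwa [add_sub_cancel_right] at this
      exact cancel hJ.pp hJ.mul.sq hc (hpw e (by omega)) h4
  exact key N d le_rfl (by omega)

/-- exponents of a word -/
private noncomputable def Dw (w : List ℕ) : ℕ →₀ ℕ := Multiset.toFinsupp (w : Multiset ℕ)

private theorem Dw_apply (w : List ℕ) (k : ℕ) : Dw w k = w.count k := by
  unfold Dw
  rw [Multiset.toFinsupp_apply, Multiset.coe_count]

private theorem Dw_degree (w : List ℕ) : (Dw w).degree = w.length := by
  induction w with
  | nil => simp [Dw]
  | cons a w ih =>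
    have h : Dw (a :: w) = Finsupp.single a 1 + Dw w := by
      unfold Dw
      rw [← Multiset.cons_coe, ← Multiset.singleton_add, map_add, Multiset.toFinsupp_singleton]
    rw [h, map_add, ih, Finsupp.degree_single, List.length_cons, add_comm]

private theorem com_word (w : List ℕ) : com (mon w) = MvPolynomial.monomial (Dw w) (1 : ℤ) := by
  rw [com_mon]
  induction w with
  | nil => simp [Dw]
  | cons a w ih =>
    have h : Dw (a :: w) = Finsupp.single a 1 + Dw w := by
      unfold Dw
      rw [← Multiset.cons_coe, ← Multiset.singleton_add, map_add, Multiset.toFinsupp_singleton]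
    rw [List.map_cons, List.prod_cons, ih, h]
    unfold MvPolynomial.X
    rw [MvPolynomial.monomial_mul, one_mul]

private theorem coeff_word (w : List ℕ) (d : ℕ →₀ ℕ) :
    (com (mon w)).coeff d = if Dw w = d then 1 else 0 := by
  classical
  rw [com_word, MvPolynomial.coeff_monomial]

/-- checking linear statements on words -/
private theorem lin_check {Φ : P →ₗ[ℤ] P} {ι : Type} (s : Finset ι) (c : ι → P →ₗ[ℤ] ℤ) (q : ι → P)
    (K : Submodule ℤ P) (h : ∀ w, Φ (mon w) - ∑ i ∈ s, c i (mon w) • q i ∈ K) (f : P) :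
    Φ f - ∑ i ∈ s, c i f • q i ∈ K := by
  refine ind_mon (C := fun f => Φ f - ∑ i ∈ s, c i f • q i ∈ K) ?_ ?_ ?_ h f
  · simp
  · intro f g hf hg
    have h1 := K.add_mem hf hg
    have h2 : Φ (f + g) - ∑ i ∈ s, c i (f + g) • q i =
        (Φ f - ∑ i ∈ s, c i f • q i) + (Φ g - ∑ i ∈ s, c i g • q i) := by
      simp only [map_add, add_smul, Finset.sum_add_distrib]
      abel
    rw [h2]
    exact h1
  · intro a f hf
    have h1 := K.smul_mem a hf
    have h2 : Φ (a • f) - ∑ i ∈ s, c i (a • f) • q i = a • (Φ f - ∑ i ∈ s, c i f • q i) := by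
      rw [smul_sub, Finset.smul_sum, map_smul]
      congr 1
      refine Finset.sum_congr rfl fun i _ => ?_
      rw [map_smul, smul_smul, smul_eq_mul]
    rw [h2]
    exact h1

/-- the coefficient functionals -/
private noncomputable def cfl (d : ℕ →₀ ℕ) : P →ₗ[ℤ] ℤ where
  toFun f := (com f).coeff d
  map_add' f g := by rw [map_add, MvPolynomial.coeff_add]
  map_smul' a f := by
    rw [map_zsmul, RingHom.id_apply]
    exact MvPolynomial.coeff_smul _ _ _

private noncomputable def cwl (w : List ℕ) : P →ₗ[ℤ] ℤ where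
  toFun f := cf w f
  map_add' f g := cf_add w f g
  map_smul' a f := by
    rw [RingHom.id_apply, smul_eq_mul]
    exact cf_smul w a f

private theorem top_and {p : ℕ} {φ ψ : List ℕ → Prop} (h : TOp p (wp φ)) (h' : TOp p (wp ψ)) :
    TOp p (wp (fun w => φ w ∧ ψ w)) := by
  have h1 : wp (fun w => φ w ∧ ψ w) = (wp φ).comp (wp ψ) := by
    ext f
    rw [LinearMap.comp_apply, wp_wp]
  rw [h1]
  exact h.comp h'

private theorem top_fin {p : ℕ} {ψ : ℕ → List ℕ → Prop} (s : Finset ℕ)
    (h : ∀ k ∈ s, TOp p (wp (ψ k))) : TOp p (wp (fun w => ∀ k ∈ s, ψ k w)) := by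
  classical
  induction s using Finset.induction_on with
  | empty =>
    have h1 : wp (fun w => ∀ k ∈ (∅ : Finset ℕ), ψ k w) = LinearMap.id := by
      refine lm_ext fun w => ?_
      rw [wp_pos (by simp), LinearMap.id_apply]
    rw [h1]
    exact TOp.id' p
  | insert a s ha ih =>
    have h1 := top_and (h a (Finset.mem_insert_self a s))
      (ih fun k hk => h k (Finset.mem_insert_of_mem hk))
    rwa [wp_congr (ψ := fun w => ∀ k ∈ insert a s, ψ k w) (fun w => by
      simp only [Finset.mem_insert, forall_eq_or_imp])] at h1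

/-- the class of `d` -/
private def cl (p : ℕ) (d : ℕ →₀ ℕ) (w : List ℕ) : Prop :=
  ∀ k ∈ d.support, k ∈ w ∧ w.count k % (p - 1) = d k % (p - 1)

private theorem top_cl {p : ℕ} (hp : p.Prime) (h3 : 3 ≤ p) (d : ℕ →₀ ℕ) : TOp p (wp (cl p d)) := by
  refine top_fin (ψ := fun k w => k ∈ w ∧ w.count k % (p - 1) = d k % (p - 1)) d.support
    fun k _ => ?_
  exact top_and (TOp_mem p k) (TOp_res hp h3 k _ (Nat.mod_lt _ (by omega)))

private theorem cl_len {p : ℕ} (h3 : 3 ≤ p) {d : ℕ →₀ ℕ} (hlt : ∀ k, d k < p) {w : List ℕ}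
    (hcl : cl p d w) : Dw w = d ∨ d.degree < w.length := by
  have hle : d ≤ Dw w := by
    intro k
    rw [Dw_apply]
    by_cases hk : k ∈ d.support
    · obtain ⟨h1, h2⟩ := hcl k hk
      have h4 : 0 < w.count k := List.count_pos_iff.2 h1
      have h5 : d k ≠ 0 := Finsupp.mem_support_iff.1 hk
      have h6 := hlt k
      by_contra hcon
      push Not at hcon
      have h7 : w.count k % (p - 1) = w.count k := Nat.mod_eq_of_lt (by omega)
      rw [h7] at h2
      by_cases h8 : d k = p - 1
      · rw [h8, Nat.mod_self] at h2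
        omega
      · rw [Nat.mod_eq_of_lt (by omega)] at h2
        omega
    · rw [Finsupp.notMem_support_iff.1 hk]
      exact Nat.zero_le _
  obtain ⟨r, hr⟩ := exists_add_of_le hle
  by_cases h0 : r = 0
  · left
    rw [hr, h0, add_zero]
  · right
    have h1 := Dw_degree w
    rw [hr, map_add] at h1
    have h2 : r.degree ≠ 0 := fun h => h0 ((Finsupp.degree_eq_zero_iff r).1 h)
    omega

private theorem cl_self {p : ℕ} {d : ℕ →₀ ℕ} {w : List ℕ} (h : Dw w = d) : cl p d w := by
  intro k hk
  have h1 : d k = w.count k := by rw [← h, Dw_apply]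
  refine ⟨?_, by rw [h1]⟩
  rw [← List.count_pos_iff, ← h1]
  exact Nat.pos_of_ne_zero (Finsupp.mem_support_iff.1 hk)

/-- words with a letter that is killed -/
private theorem kill_word {ψ : ℕ → P} {w : List ℕ} {k : ℕ} (hk : k ∈ w) (h0 : ψ k = 0) :
    sb ψ (mon w) = 0 := by
  rw [sb_mon]
  exact List.prod_eq_zero (List.mem_map.2 ⟨k, hk, h0⟩)

private theorem supp_word {d : ℕ →₀ ℕ} {w : List ℕ} (h : Dw w = d) {k : ℕ} (hk : k ∈ w) :
    k ∈ d.support := by
  rw [Finsupp.mem_support_iff, ← h, Dw_apply]
  exact (List.count_pos_iff.2 hk).ne'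

/-- the collapse `x_k ↦ x_0` for `k ∈ s`, the other variables are killed -/
private noncomputable def cps (s : Finset ℕ) : ℕ → P := fun k => if k ∈ s then X 0 else 0

private theorem cps_word {s : Finset ℕ} {w : List ℕ} (h : ∀ k ∈ w, k ∈ s) :
    sb (cps s) (mon w) = X 0 ^ w.length := by
  rw [sb_mon]
  have h1 : w.map (cps s) = List.replicate w.length (X 0) := by
    rw [List.eq_replicate_iff]
    refine ⟨List.length_map _, fun b hb => ?_⟩
    obtain ⟨k, hk, rfl⟩ := List.mem_map.1 hb
    exact if_pos (h k hk)
  rw [h1, List.prod_replicate]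

private theorem cps_subst (s : Finset ℕ) : ∀ k, cps s k ∈ Pp := by
  intro k
  unfold cps
  split_ifs
  · exact X_mem 0
  · exact Submodule.zero_mem _

private theorem low_red {p : ℕ} {J : Submodule ℤ P} (hJ : Bt p J) {g : P} (hg : g ∈ J)
    {d : ℕ →₀ ℕ} (h1 : 1 ≤ d.degree) (hd : d.degree ≤ p) (hlt : ∀ k, d k < p)
    (hc : ¬ (p : ℤ) ∣ (com g).coeff d) : X 0 ^ p ∈ J := by
  have h5 := hJ.three
  have hΦ : sb (cps d.support) (wp (cl p d) g) ∈ J :=
    sb_mem hJ.isT (cps_subst _) (top_cl hJ.pp (by omega) d J hJ.isT hJ.mul.sq g hg)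
  have h2 := lin_check (Φ := (tl (sb (cps d.support))).comp (wp (cl p d))) (Finset.univ : Finset Unit)
    (fun _ => cfl d) (fun _ => X 0 ^ d.degree)
    (Submodule.span ℤ {f : P | ∃ e, d.degree < e ∧ f = X 0 ^ e}) (by
      intro w
      rw [Finset.sum_const, Finset.card_univ, Fintype.card_unit, one_smul, LinearMap.comp_apply,
        tl_apply]
      have h3 : cfl d (mon w) = if Dw w = d then 1 else 0 := coeff_word w d
      rw [h3]
      by_cases hcl : cl p d w
      · rw [wp_pos hcl]
        by_cases hs : ∀ k ∈ w, k ∈ d.support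
        · rw [cps_word hs]
          rcases cl_len (by omega) hlt hcl with h4 | h4
          · rw [if_pos h4, one_smul, ← Dw_degree w, h4, sub_self]
            exact Submodule.zero_mem _
          · rw [if_neg (by
              rintro rfl
              rw [Dw_degree] at h4
              omega), zero_smul, sub_zero]
            exact Submodule.subset_span ⟨_, h4, rfl⟩
        · push Not at hs
          obtain ⟨k, hk, hks⟩ := hs
          rw [kill_word hk (if_neg hks), if_neg (fun h => hks (supp_word h hk)), zero_smul, sub_zero]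
          exact Submodule.zero_mem _
      · rw [wp_neg hcl, map_zero, if_neg (fun h => hcl (cl_self h)), zero_smul, sub_zero]
        exact Submodule.zero_mem _) g
  rw [Finset.sum_const, Finset.card_univ, Fintype.card_unit, one_smul, LinearMap.comp_apply,
    tl_apply] at h2
  have h3 : X 0 ^ d.degree ∈ J := by
    refine one_low hJ hc h1 h2 ?_
    have h4 : cfl d g = (com g).coeff d := rfl
    rw [← h4, add_sub_cancel]
    exact hΦ
  have h4 : (X 0 : P) ^ p = X 0 ^ (p - d.degree) * X 0 ^ d.degree := by
    rw [← pow_add, Nat.sub_add_cancel hd]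
  rw [h4]
  exact hJ.isT.mul_left _ h3 _

private theorem coeff_zero' (g : P) : (com g).coeff 0 = aug g := by
  refine ind_mon (C := fun g => (com g).coeff 0 = aug g) ?_ ?_ ?_ ?_ g
  · rw [map_zero, map_zero, MvPolynomial.coeff_zero]
  · intro f g hf hg
    rw [map_add, map_add, MvPolynomial.coeff_add, hf, hg]
  · intro c f hf
    rw [map_zsmul, map_zsmul, MvPolynomial.coeff_smul, hf]
  · intro w
    rw [coeff_word]
    by_cases h : w = []
    · rw [h, mon_nil, map_one, if_pos (by simp [Dw])]
    · rw [if_neg]
      · exact (mem_Pp.1 (mon_mem h)).symm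
      · intro h1
        have h2 := Dw_degree w
        rw [h1, map_zero] at h2
        exact h (List.length_eq_zero_iff.1 h2.symm)

private theorem Dw_replicate (L k : ℕ) : Dw (List.replicate L k) = Finsupp.single k L := by
  ext j
  rw [Dw_apply, List.count_replicate, Finsupp.single_apply]
  simp only [beq_iff_eq]

private theorem low_pow {p : ℕ} {J : Submodule ℤ P} (hJ : Bt p J) {g : P} (hg : g ∈ J)
    {k : ℕ} (hc : ¬ (p : ℤ) ∣ (com g).coeff (Finsupp.single k p)) : X 0 ^ p ∈ J := by
  have h5 := hJ.three
  by_cases hex : ∃ e, 1 ≤ e ∧ e < p ∧ ¬ (p : ℤ) ∣ (com g).coeff (Finsupp.single k e)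
  · obtain ⟨e, h1, h2, h3⟩ := hex
    refine low_red hJ hg (d := Finsupp.single k e) ?_ ?_ ?_ h3
    · rw [Finsupp.degree_single]
      exact h1
    · rw [Finsupp.degree_single]
      exact h2.le
    · intro j
      rw [Finsupp.single_apply]
      split_ifs <;> omega
  push Not at hex
  have hΦ : sb (cps {k}) g ∈ J := sb_mem hJ.isT (cps_subst _) hg
  have h2 := lin_check (Φ := tl (sb (cps {k}))) (Finset.range (p + 1))
    (fun e => cfl (Finsupp.single k e)) (fun e => X 0 ^ e)
    (Submodule.span ℤ {f : P | ∃ e, p < e ∧ f = X 0 ^ e}) (by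
      intro w
      have h3 : ∀ e, cfl (Finsupp.single k e) (mon w) = if Dw w = Finsupp.single k e then 1 else 0 :=
        fun e => coeff_word w _
      rw [tl_apply]
      by_cases hs : ∀ j ∈ w, j ∈ ({k} : Finset ℕ)
      · rw [cps_word hs]
        have h4 : w = List.replicate w.length k := List.eq_replicate_iff.2 ⟨rfl, fun b hb =>
          Finset.mem_singleton.1 (hs b hb)⟩
        have h6 : ∀ e, cfl (Finsupp.single k e) (mon w) = if e = w.length then 1 else 0 := by
          intro e
          rw [h3, h4, Dw_replicate, List.length_replicate]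
          by_cases he : e = w.length
          · rw [if_pos he, if_pos (by rw [he])]
          · rw [if_neg he, if_neg]
            intro h7
            have h8 := DFunLike.congr_fun h7 k
            rw [Finsupp.single_eq_same, Finsupp.single_eq_same] at h8
            exact he h8.symm
        simp only [h6, ite_smul, one_smul, zero_smul]
        by_cases hL : w.length ∈ Finset.range (p + 1)
        · rw [Finset.sum_ite_eq', if_pos hL, sub_self]
          exact Submodule.zero_mem _
        · rw [Finset.sum_ite_eq', if_neg hL, sub_zero]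
          rw [Finset.mem_range] at hL
          exact Submodule.subset_span ⟨_, by omega, rfl⟩
      · push Not at hs
        obtain ⟨j, hj, hjs⟩ := hs
        rw [kill_word hj (if_neg hjs), Finset.sum_eq_zero, sub_zero]
        · exact Submodule.zero_mem _
        · intro e _
          rw [h3, if_neg, zero_smul]
          intro h4
          apply hjs
          rw [Finset.mem_singleton]
          by_contra hne
          have h6 := DFunLike.congr_fun h4 j
          rw [Dw_apply, Finsupp.single_eq_of_ne hne] at h6
          exact (List.count_pos_iff.2 hj).ne' h6) g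
  rw [tl_apply, Finset.sum_range_succ] at h2
  refine one_low hJ hc (by omega) h2 ?_
  have h4 : cfl (Finsupp.single k p) g = (com g).coeff (Finsupp.single k p) := rfl
  have h6 : ∑ e ∈ Finset.range p, cfl (Finsupp.single k e) g • (X 0 : P) ^ e ∈ J := by
    refine J.sum_mem fun e he => ?_
    rw [Finset.mem_range] at he
    by_cases he0 : e = 0
    · subst he0
      have h7 : cfl (Finsupp.single k 0) g = 0 := by
        show (com g).coeff (Finsupp.single k 0) = 0
        rw [Finsupp.single_zero, coeff_zero']
        exact mem_Pp.1 (hJ.isT.le hg)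
      rw [h7, zero_smul]
      exact J.zero_mem
    · obtain ⟨q, hq⟩ := hex e (by omega) he
      have h7 : cfl (Finsupp.single k e) g = (p : ℤ) * q := hq
      rw [h7, mul_smul]
      refine hJ.mul _ (Submodule.smul_mem _ _ ?_)
      obtain ⟨e', rfl⟩ : ∃ e', e = e' + 1 := ⟨e - 1, by omega⟩
      rw [pow_succ]
      exact Pp_mul_left _ (X_mem 0)
  rw [← h4]
  have h7 := J.sub_mem hΦ h6
  have h8 : cfl (Finsupp.single k p) g • X 0 ^ p + (sb (cps {k}) g -
      (∑ e ∈ Finset.range p, cfl (Finsupp.single k e) g • X 0 ^ e +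
        cfl (Finsupp.single k p) g • X 0 ^ p)) =
      sb (cps {k}) g - ∑ e ∈ Finset.range p, cfl (Finsupp.single k e) g • X 0 ^ e := by
    abel
  rw [h8]
  exact h7

private theorem low_case {p : ℕ} {J : Submodule ℤ P} (hJ : Bt p J) {g : P} (hg : g ∈ J)
    {d : ℕ →₀ ℕ} (h1 : 1 ≤ d.degree) (hd : d.degree ≤ p)
    (hc : ¬ (p : ℤ) ∣ (com g).coeff d) : X 0 ^ p ∈ J := by
  by_cases hlt : ∀ k, d k < p
  · exact low_red hJ hg h1 hd hlt hc
  push Not at hlt
  obtain ⟨k, hk⟩ := hlt
  have h2 : Finsupp.single k p ≤ d := by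
    intro j
    rw [Finsupp.single_apply]
    split_ifs with h
    · rw [← h]
      exact hk
    · exact Nat.zero_le _
  obtain ⟨r, hr⟩ := exists_add_of_le h2
  have h3 : d.degree = p + r.degree := by
    rw [hr, map_add, Finsupp.degree_single]
  have h4 : r = 0 := (Finsupp.degree_eq_zero_iff r).1 (by omega)
  rw [hr, h4, add_zero] at hc
  exact low_pow hJ hg hc

private theorem wX0 (k : ℕ) (f : P) : wp (fun v => v.count 1 = k) (X 0 * f) =
    X 0 * wp (fun v => v.count 1 = k) f := by
  refine ind_mon (C := fun f => wp (fun v => v.count 1 = k) (X 0 * f) =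
    X 0 * wp (fun v => v.count 1 = k) f) ?_ ?_ ?_ ?_ f
  · simp
  · intro f g hf hg
    rw [mul_add, map_add, map_add, mul_add, hf, hg]
  · intro c f hf
    rw [mul_smul_comm, map_smul, map_smul, mul_smul_comm, hf]
  · intro w
    rw [← mon_cons]
    have h0 : (0 :: w).count 1 = w.count 1 := List.count_cons_of_ne (by norm_num)
    by_cases h : w.count 1 = k
    · rw [wp_pos (φ := fun v => v.count 1 = k) (w := 0 :: w) (h0.trans h),
        wp_pos (φ := fun v => v.count 1 = k) (w := w) h, mon_cons]
    · rw [wp_neg (φ := fun v => v.count 1 = k) (w := 0 :: w) (fun h' => h (h0.symm.trans h')),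
        wp_neg (φ := fun v => v.count 1 = k) (w := w) h, mul_zero]

private theorem wX1 (k : ℕ) (f : P) : wp (fun v => v.count 1 = k + 1) (X 1 * f) =
    X 1 * wp (fun v => v.count 1 = k) f := by
  refine ind_mon (C := fun f => wp (fun v => v.count 1 = k + 1) (X 1 * f) =
    X 1 * wp (fun v => v.count 1 = k) f) ?_ ?_ ?_ ?_ f
  · simp
  · intro f g hf hg
    rw [mul_add, map_add, map_add, mul_add, hf, hg]
  · intro c f hf
    rw [mul_smul_comm, map_smul, map_smul, mul_smul_comm, hf]
  · intro w
    rw [← mon_cons]
    have h0 : (1 :: w).count 1 = w.count 1 + 1 := List.count_cons_self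
    by_cases h : w.count 1 = k
    · rw [wp_pos (φ := fun v => v.count 1 = k + 1) (w := 1 :: w) (by rw [h0, h]),
        wp_pos (φ := fun v => v.count 1 = k) (w := w) h, mon_cons]
    · rw [wp_neg (φ := fun v => v.count 1 = k + 1) (w := 1 :: w) (fun h' => h (by omega)),
        wp_neg (φ := fun v => v.count 1 = k) (w := w) h, mul_zero]

private theorem wX1z (f : P) : wp (fun v => v.count 1 = 0) (X 1 * f) = 0 := by
  refine ind_mon (C := fun f => wp (fun v => v.count 1 = 0) (X 1 * f) = 0) ?_ ?_ ?_ ?_ f
  · simp
  · intro f g hf hg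
    rw [mul_add, map_add, hf, hg, add_zero]
  · intro c f hf
    rw [mul_smul_comm, map_smul, hf, smul_zero]
  · intro w
    rw [← mon_cons]
    have h0 : (1 :: w).count 1 = w.count 1 + 1 := List.count_cons_self
    exact wp_neg (fun h' => by omega)

/-- the substitution of case (c) -/
private noncomputable def cj (s : Finset ℕ) (j : ℕ) : ℕ → P := fun k =>
  if k = j then X 0 + X 1 else if k ∈ s then X 0 else 0

private theorem cj_subst (s : Finset ℕ) (j : ℕ) : ∀ k, cj s j k ∈ Pp := by
  intro k
  unfold cj
  split_ifs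
  · exact Submodule.add_mem _ (X_mem 0) (X_mem 1)
  · exact X_mem 0
  · exact Submodule.zero_mem _

private theorem cj_cons (s : Finset ℕ) (j a : ℕ) (w : List ℕ) :
    sb (cj s j) (mon (a :: w)) = cj s j a * sb (cj s j) (mon w) := by
  rw [mon_cons, map_mul, sb_X]

private theorem cj_word0 {s : Finset ℕ} {j : ℕ} {w : List ℕ} (h : ∀ k ∈ w, k ∈ s) :
    wp (fun v => v.count 1 = 0) (sb (cj s j) (mon w)) = X 0 ^ w.length := by
  induction w with
  | nil =>
    rw [mon_nil, map_one, ← mon_nil, wp_pos (φ := fun v => v.count 1 = 0) (w := []) rfl,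
      List.length_nil, pow_zero, mon_nil]
  | cons a w ih =>
    have ih' := ih fun k hk => h k (List.mem_cons_of_mem _ hk)
    rw [cj_cons]
    unfold cj at ih' ⊢
    by_cases ha : a = j
    · rw [if_pos ha, add_mul, map_add, wX0, wX1z, ih', add_zero, List.length_cons, ← pow_succ']
    · rw [if_neg ha, if_pos (h a (List.mem_cons_self)), wX0, ih', List.length_cons, ← pow_succ']

private theorem x1pow (L : ℕ) : X 1 * X 0 ^ L - X 0 ^ L * X 1 ∈ Cn (L + 1) := by
  have h1 : (X 1 * X 0 ^ L : P) = mon (1 :: List.replicate L 0) := by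
    unfold mon
    rw [List.map_cons, List.map_replicate, List.prod_cons, List.prod_replicate]
  have h2 : (X 0 ^ L * X 1 : P) = mon (List.replicate L 0 ++ [1]) := by
    unfold mon
    rw [List.map_append, List.map_replicate, List.prod_append, List.prod_replicate]
    simp
  rw [h1, h2]
  have h3 : (1 :: List.replicate L 0).Perm (List.replicate L 0 ++ [1]) :=
    (List.perm_append_singleton 1 (List.replicate L 0)).symm
  have h4 := perm_Cn h3
  rwa [List.length_cons, List.length_replicate] at h4

private theorem cj_word1 {s : Finset ℕ} {j : ℕ} {w : List ℕ} (h : ∀ k ∈ w, k ∈ s) :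
    ∃ z ∈ Cn w.length, wp (fun v => v.count 1 = 1) (sb (cj s j) (mon w)) =
      (w.count j : ℤ) • (X 0 ^ (w.length - 1) * X 1) + z := by
  induction w with
  | nil =>
    refine ⟨0, Submodule.zero_mem _, ?_⟩
    rw [mon_nil, map_one, ← mon_nil, wp_neg (φ := fun v => v.count 1 = 1) (w := []) (by simp)]
    simp
  | cons a w ih =>
    have hw : ∀ k ∈ w, k ∈ s := fun k hk => h k (List.mem_cons_of_mem _ hk)
    obtain ⟨z, hz, hz'⟩ := ih hw
    have h0 := cj_word0 (j := j) hw
    have hmz : X 0 * z ∈ Cn (w.length + 1) := by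
      have h1 := Cn_mono_left [0] hz
      rw [mon_single, List.length_singleton, add_comm] at h1
      exact h1
    have hX : (w.count j : ℤ) • (X 0 * (X 0 ^ (w.length - 1) * X 1) : P) =
        (w.count j : ℤ) • (X 0 ^ w.length * X 1) := by
      by_cases hL : w = []
      · rw [hL]
        simp
      · rw [← mul_assoc, ← pow_succ', Nat.sub_add_cancel (List.length_pos_of_ne_nil hL)]
    rw [cj_cons]
    by_cases ha : a = j
    · subst ha
      have hca : cj s a a = X 0 + X 1 := if_pos rfl
      rw [hca, add_mul, map_add, wX0, hz']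
      have h1 := wX1 0 (sb (cj s a) (mon w))
      rw [zero_add] at h1
      rw [h1, h0]
      refine ⟨X 0 * z + (X 1 * X 0 ^ w.length - X 0 ^ w.length * X 1),
        Submodule.add_mem _ hmz (x1pow _), ?_⟩
      rw [mul_add, mul_smul_comm, hX, List.length_cons, Nat.add_sub_cancel, List.count_cons_self]
      push_cast
      rw [add_smul, one_smul]
      abel
    · have hca : cj s j a = X 0 := by
        unfold cj
        rw [if_neg ha, if_pos (h a List.mem_cons_self)]
      rw [hca, wX0, hz']
      refine ⟨X 0 * z, hmz, ?_⟩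
      rw [mul_add, mul_smul_comm, hX, List.length_cons, Nat.add_sub_cancel,
        List.count_cons_of_ne ha]

private theorem cj_span (s : Finset ℕ) (j : ℕ) (w : List ℕ) : sb (cj s j) (mon w) ∈
    Submodule.span ℤ {f | ∃ v : List ℕ, v.count 1 ≤ w.count j ∧ f = mon v} := by
  induction w with
  | nil =>
    rw [mon_nil, map_one]
    exact Submodule.subset_span ⟨[], by simp, mon_nil.symm⟩
  | cons a w ih =>
    rw [cj_cons]
    have h0 : ∀ f ∈ Submodule.span ℤ {f | ∃ v : List ℕ, v.count 1 ≤ w.count j ∧ f = mon v},
        X 0 * f ∈ Submodule.span ℤ {f | ∃ v : List ℕ, v.count 1 ≤ (a :: w).count j ∧ f = mon v} := by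
      intro f hf
      induction hf using Submodule.span_induction with
      | mem x hx =>
        obtain ⟨v, hv, rfl⟩ := hx
        refine Submodule.subset_span ⟨0 :: v, ?_, (mon_cons 0 v).symm⟩
        rw [List.count_cons_of_ne (by norm_num)]
        exact hv.trans List.count_le_count_cons
      | zero => rw [mul_zero]; exact Submodule.zero_mem _
      | add x y _ _ hx hy => rw [mul_add]; exact Submodule.add_mem _ hx hy
      | smul c x _ hx => rw [mul_smul_comm]; exact Submodule.smul_mem _ _ hx
    unfold cj
    by_cases ha : a = j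
    · rw [if_pos ha, add_mul]
      refine Submodule.add_mem _ (h0 _ ih) ?_
      have h1 : ∀ f ∈ Submodule.span ℤ {f | ∃ v : List ℕ, v.count 1 ≤ w.count j ∧ f = mon v},
          X 1 * f ∈ Submodule.span ℤ {f | ∃ v : List ℕ, v.count 1 ≤ (a :: w).count j ∧ f = mon v} := by
        intro f hf
        induction hf using Submodule.span_induction with
        | mem x hx =>
          obtain ⟨v, hv, rfl⟩ := hx
          refine Submodule.subset_span ⟨1 :: v, ?_, (mon_cons 1 v).symm⟩
          rw [List.count_cons_self, ha, List.count_cons_self]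
          omega
        | zero => rw [mul_zero]; exact Submodule.zero_mem _
        | add x y _ _ hx hy => rw [mul_add]; exact Submodule.add_mem _ hx hy
        | smul c x _ hx => rw [mul_smul_comm]; exact Submodule.smul_mem _ _ hx
      exact h1 _ ih
    · rw [if_neg ha]
      split_ifs
      · exact h0 _ ih
      · rw [zero_mul]
        exact Submodule.zero_mem _

private theorem wp_on {φ ψ θ : List ℕ → Prop} (h : ∀ v, θ v → (φ v ↔ ψ v)) {f : P}
    (hf : f ∈ Submodule.span ℤ {f | ∃ v, θ v ∧ f = mon v}) : wp φ f = wp ψ f := by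
  induction hf using Submodule.span_induction with
  | mem x hx =>
    obtain ⟨v, hv, rfl⟩ := hx
    by_cases h1 : φ v
    · rw [wp_pos h1, wp_pos ((h v hv).1 h1)]
    · rw [wp_neg h1, wp_neg (fun h2 => h1 ((h v hv).2 h2))]
  | zero => rw [map_zero, map_zero]
  | add x y _ _ hx hy => rw [map_add, map_add, hx, hy]
  | smul c x _ hx => rw [map_smul, map_smul, hx]

private theorem wp_Fge (φ : List ℕ → Prop) {n : ℕ} {f : P} (hf : f ∈ Fge n) : wp φ f ∈ Fge n := by
  unfold Fge at hf
  induction hf using Submodule.span_induction with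
  | mem x hx =>
    obtain ⟨v, hv, rfl⟩ := hx
    by_cases h1 : φ v
    · rw [wp_pos h1]
      exact Submodule.subset_span ⟨v, hv, rfl⟩
    · rw [wp_neg h1]
      exact Submodule.zero_mem _
  | zero => rw [map_zero]; exact Submodule.zero_mem _
  | add x y _ _ hx hy => rw [map_add]; exact Submodule.add_mem _ hx hy
  | smul c x _ hx => rw [map_smul]; exact Submodule.smul_mem _ _ hx

private theorem mon_Fge {n : ℕ} {w : List ℕ} (h : n ≤ w.length) : mon w ∈ Fge n :=
  Submodule.subset_span ⟨w, h, rfl⟩

private theorem isT_T {p : ℕ} {J : Submodule ℤ P} (hJ : Bt p J) :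
    IsT (J ⊔ Cn (p + 1) ⊔ Fge (p + 2)) :=
  isT_sup (isT_sup hJ.isT (isT_Cn _)) (isT_Fge _ (by omega))

private theorem T_J {p : ℕ} {J : Submodule ℤ P} : J ≤ J ⊔ Cn (p + 1) ⊔ Fge (p + 2) :=
  le_sup_left.trans le_sup_left

private theorem T_C {p : ℕ} {J : Submodule ℤ P} : Cn (p + 1) ≤ J ⊔ Cn (p + 1) ⊔ Fge (p + 2) :=
  le_sup_right.trans le_sup_left

private theorem T_CF {p : ℕ} {J : Submodule ℤ P} :
    Cn (p + 1) ⊔ Fge (p + 2) ≤ J ⊔ Cn (p + 1) ⊔ Fge (p + 2) :=
  sup_le_sup_right le_sup_right _

private theorem T_mul {p : ℕ} {J : Submodule ℤ P} (hJ : Bt p J) :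
    Mul ((p : ℤ) ^ 2) (J ⊔ Cn (p + 1) ⊔ Fge (p + 2)) := (hJ.mul.mono T_J).sq

/-- interchange of `x_0` and `x_1` -/
private noncomputable def sw : ℕ → P := fun k => if k = 0 then X 1 else if k = 1 then X 0 else X k

private theorem sw_subst : ∀ k, sw k ∈ Pp := by
  intro k
  unfold sw
  split_ifs <;> exact X_mem _

private theorem c_case {p : ℕ} {J : Submodule ℤ P} (hJ : Bt p J) {g : P} (hg : g ∈ J)
    {d : ℕ →₀ ℕ} (hd : d.degree = p + 1) (hlt : ∀ k, d k < p)
    (hc : ¬ (p : ℤ) ∣ (com g).coeff d) :
    X 0 ^ p * X 1 - X 0 * X 1 ^ p ∈ J ⊔ Cn (p + 1) ⊔ Fge (p + 2) := by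
  have h5 := hJ.three
  obtain ⟨j, hj⟩ : d.support.Nonempty := by
    rw [Finset.nonempty_iff_ne_empty]
    intro h0
    rw [Finsupp.support_eq_empty] at h0
    rw [h0, map_zero] at hd
    omega
  have hdj : ¬ (p : ℤ) ∣ (d j : ℤ) := by
    intro h
    have h1 := Nat.le_of_dvd (Nat.pos_of_ne_zero (Finsupp.mem_support_iff.1 hj))
      (Int.natCast_dvd_natCast.1 h)
    have h2 := hlt j
    omega
  have hΦ : wp (fun v => v.count 1 % (p - 1) = 1) (sb (cj d.support j) (wp (cl p d) g)) ∈ J :=
    TOp_res hJ.pp (by omega) 1 1 (by omega) J hJ.isT hJ.mul.sq _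
      (sb_mem hJ.isT (cj_subst _ _) (top_cl hJ.pp (by omega) d J hJ.isT hJ.mul.sq g hg))
  have h2 := lin_check (Φ := (wp (fun v => v.count 1 % (p - 1) = 1)).comp
      ((tl (sb (cj d.support j))).comp (wp (cl p d)))) (Finset.univ : Finset Unit)
    (fun _ => cfl d) (fun _ => (d j : ℤ) • (X 0 ^ p * X 1)) (Cn (p + 1) ⊔ Fge (p + 2)) (by
      intro w
      rw [Finset.sum_const, Finset.card_univ, Fintype.card_unit, one_smul, LinearMap.comp_apply,
        LinearMap.comp_apply, tl_apply]
      have h3 : cfl d (mon w) = if Dw w = d then 1 else 0 := coeff_word w d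
      rw [h3]
      by_cases hcl : cl p d w
      · rw [wp_pos hcl]
        by_cases hs : ∀ k ∈ w, k ∈ d.support
        · rcases cl_len (by omega) hlt hcl with h4 | h4
          · rw [if_pos h4, one_smul]
            have hL : w.length = p + 1 := by rw [← Dw_degree, h4, hd]
            have hn : w.count j = d j := by rw [← h4, Dw_apply]
            have h6 : wp (fun v => v.count 1 % (p - 1) = 1) (sb (cj d.support j) (mon w)) =
                wp (fun v => v.count 1 = 1) (sb (cj d.support j) (mon w)) := by
              refine wp_on (θ := fun v => v.count 1 ≤ w.count j) (fun v hv => ?_)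
                (cj_span d.support j w)
              have h7 := hlt j
              have h8 : v.count 1 ≤ d j := by rw [← hn]; exact hv
              constructor
              · intro h9
                by_cases h10 : v.count 1 = p - 1
                · rw [h10, Nat.mod_self] at h9
                  omega
                · rwa [Nat.mod_eq_of_lt (by omega)] at h9
              · intro h9
                rw [h9]
                exact Nat.mod_eq_of_lt (by omega)
            obtain ⟨z, hz, hz'⟩ := cj_word1 (j := j) hs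
            rw [h6, hz', hn, hL, Nat.add_sub_cancel, add_sub_cancel_left]
            rw [hL] at hz
            exact Submodule.mem_sup_left hz
          · rw [if_neg (by
              rintro rfl
              rw [Dw_degree] at h4
              omega), zero_smul, sub_zero]
            refine Submodule.mem_sup_right (wp_Fge _ (sb_mem (isT_Fge _ (by omega)) (cj_subst _ _)
              (mon_Fge ?_)))
            omega
        · push Not at hs
          obtain ⟨k, hk, hks⟩ := hs
          have hk0 : cj d.support j k = 0 := by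
            unfold cj
            rw [if_neg (by rintro rfl; exact hks hj), if_neg hks]
          rw [kill_word hk hk0, map_zero, if_neg (fun h => hks (supp_word h hk)), zero_smul,
            sub_zero]
          exact Submodule.zero_mem _
      · rw [wp_neg hcl, map_zero, map_zero, if_neg (fun h => hcl (cl_self h)), zero_smul, sub_zero]
        exact Submodule.zero_mem _) g
  rw [Finset.sum_const, Finset.card_univ, Fintype.card_unit, one_smul, LinearMap.comp_apply,
    LinearMap.comp_apply, tl_apply] at h2
  have hPp : (X 0 ^ p * X 1 : P) ∈ Pp := Pp_mul_left _ (X_mem 1)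
  have h3 : X 0 ^ p * X 1 ∈ J ⊔ Cn (p + 1) ⊔ Fge (p + 2) := by
    refine cancel hJ.pp (T_mul hJ) hdj hPp (cancel hJ.pp (T_mul hJ) hc (Submodule.smul_mem _ _ hPp) ?_)
    have h4 := Submodule.sub_mem _ (T_J (p := p) hΦ) (T_CF (J := J) h2)
    rwa [sub_sub_cancel] at h4
  have h4 : X 1 ^ p * X 0 ∈ J ⊔ Cn (p + 1) ⊔ Fge (p + 2) := by
    have h6 := sb_mem (isT_T hJ) sw_subst h3
    rw [map_mul, map_pow, sb_X, sb_X] at h6
    exact h6
  have h6 : X 0 * X 1 ^ p - X 1 ^ p * X 0 ∈ Cn (p + 1) := by
    have h7 := sb_mem (isT_Cn (p + 1)) sw_subst (x1pow p)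
    rw [map_sub, map_mul, map_mul, map_pow, sb_X, sb_X] at h7
    exact h7
  have h7 : X 0 * X 1 ^ p ∈ J ⊔ Cn (p + 1) ⊔ Fge (p + 2) := by
    have h8 := Submodule.add_mem _ (T_C (J := J) h6) h4
    rwa [sub_add_cancel] at h8
  exact Submodule.sub_mem _ h3 h7

/-- the substitution of the cases (a), (b) -/
private noncomputable def rij (i j : ℕ) : ℕ → P := fun k =>
  if k = i then X 0 else if k = j then X 1 else 0

private theorem rij_subst (i j : ℕ) : ∀ k, rij i j k ∈ Pp := by
  intro k
  unfold rij
  split_ifs
  · exact X_mem 0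
  · exact X_mem 1
  · exact Submodule.zero_mem _

private def rho (i : ℕ) (k : ℕ) : ℕ := if k = i then 0 else 1

private theorem rij_word {i j : ℕ} {w : List ℕ} (h : ∀ k ∈ w, k = i ∨ k = j) :
    sb (rij i j) (mon w) = mon (w.map (rho i)) := by
  rw [sb_mon]
  unfold mon
  rw [List.map_map]
  congr 1
  refine List.map_congr_left fun k hk => ?_
  unfold rij rho
  rw [Function.comp_apply]
  by_cases h1 : k = i
  · rw [if_pos h1, if_pos h1]
  · rw [if_neg h1, if_neg h1, if_pos ((h k hk).resolve_left h1)]

private theorem rho_count0 (i : ℕ) (w : List ℕ) : (w.map (rho i)).count 0 = w.count i := by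
  induction w with
  | nil => rfl
  | cons a w ih =>
    rw [List.map_cons, List.count_cons, List.count_cons, ih]
    congr 1
    unfold rho
    by_cases h : a = i <;> simp [h]

private theorem rho_count1 {i j : ℕ} (hij : i ≠ j) {w : List ℕ} (h : ∀ k ∈ w, k = i ∨ k = j) :
    (w.map (rho i)).count 1 = w.count j := by
  induction w with
  | nil => rfl
  | cons a w ih =>
    rw [List.map_cons, List.count_cons, List.count_cons,
      ih fun k hk => h k (List.mem_cons_of_mem _ hk)]
    congr 1
    unfold rho
    rcases h a List.mem_cons_self with h1 | h1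
    · subst h1
      simp [hij]
    · subst h1
      simp [Ne.symm hij]

private theorem rho_lt (i : ℕ) (w : List ℕ) : ∀ k ∈ w.map (rho i), k < 2 := by
  intro k hk
  obtain ⟨l, -, rfl⟩ := List.mem_map.1 hk
  unfold rho
  split_ifs <;> norm_num

private theorem two_length {i j : ℕ} (hij : i ≠ j) {w : List ℕ} (h : ∀ k ∈ w, k = i ∨ k = j) :
    w.length = w.count i + w.count j := by
  induction w with
  | nil => rfl
  | cons a w ih =>
    rw [List.length_cons, List.count_cons, List.count_cons,
      ih fun k hk => h k (List.mem_cons_of_mem _ hk)]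
    rcases h a List.mem_cons_self with h1 | h1
    · subst h1
      simp [hij]
      omega
    · subst h1
      simp [Ne.symm hij]
      omega

private theorem Dw_two {i j : ℕ} (hij : i ≠ j) (w : List ℕ) (a b : ℕ) :
    Dw w = Finsupp.single i a + Finsupp.single j b ↔
      (∀ k ∈ w, k = i ∨ k = j) ∧ w.count i = a ∧ w.count j = b := by
  constructor
  · intro h
    have h1 : ∀ k, w.count k = (if i = k then a else 0) + (if j = k then b else 0) := by
      intro k
      rw [← Dw_apply, h, Finsupp.add_apply, Finsupp.single_apply, Finsupp.single_apply]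
    refine ⟨fun k hk => ?_, ?_, ?_⟩
    · by_contra hcon
      push Not at hcon
      have h2 := h1 k
      rw [if_neg (Ne.symm hcon.1), if_neg (Ne.symm hcon.2)] at h2
      exact (List.count_pos_iff.2 hk).ne' h2
    · rw [h1, if_pos rfl, if_neg (Ne.symm hij), add_zero]
    · rw [h1, if_neg hij, if_pos rfl, zero_add]
  · rintro ⟨h, h1, h2⟩
    ext k
    rw [Dw_apply, Finsupp.add_apply, Finsupp.single_apply, Finsupp.single_apply]
    by_cases hk1 : i = k
    · rw [if_pos hk1, if_neg (by rw [← hk1]; exact Ne.symm hij), add_zero, ← hk1, h1]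
    · by_cases hk2 : j = k
      · rw [if_neg hk1, if_pos hk2, zero_add, ← hk2, h2]
      · rw [if_neg hk1, if_neg hk2, add_zero]
        refine List.count_eq_zero.2 fun h3 => ?_
        rcases h k h3 with h4 | h4
        · exact hk1 h4.symm
        · exact hk2 h4.symm

private theorem xpow_word (a b : ℕ) :
    (X 0 ^ a * X 1 ^ b : P) = mon (List.replicate a 0 ++ List.replicate b 1) := by
  unfold mon
  rw [List.map_append, List.map_replicate, List.map_replicate, List.prod_append,
    List.prod_replicate, List.prod_replicate]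

private theorem two_perm {v : List ℕ} (hv : ∀ k ∈ v, k < 2) :
    v.Perm (List.replicate (v.count 0) 0 ++ List.replicate (v.count 1) 1) := by
  rw [List.perm_iff_count]
  intro k
  rw [List.count_append, List.count_replicate, List.count_replicate]
  by_cases h0 : k = 0
  · subst h0
    simp
  · by_cases h1 : k = 1
    · subst h1
      simp
    · have h2 : v.count k = 0 := List.count_eq_zero.2 fun h => by
        have := hv k h
        omega
      rw [h2]
      simp [Ne.symm h0, Ne.symm h1]

private theorem two_word {i j : ℕ} {w : List ℕ} (h : ∀ k ∈ w, k = i ∨ k = j) (hij : i ≠ j)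
    (h1 : w.count i = 1) (h2 : w.count j = 1) : w = [i, j] ∨ w = [j, i] := by
  have h3 := two_length hij h
  rw [h1, h2] at h3
  obtain ⟨a, b, rfl⟩ := List.length_eq_two.1 h3
  rcases h a (by simp) with ha | ha <;> rcases h b (by simp) with hb | hb <;> subst ha <;>
    subst hb
  · simp at h1
  · left; rfl
  · right; rfl
  · simp at h2

private theorem ab_case {p : ℕ} {J : Submodule ℤ P} (hJ : Bt p J) {g : P} (hg : g ∈ J)
    {i j : ℕ} (hij : i ≠ j) :
    cf [i, j] g • (X 0 * X 1) + cf [j, i] g • (X 1 * X 0) +
      (com g).coeff (Finsupp.single i p + Finsupp.single j 1) • (X 0 ^ p * X 1) +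
      (com g).coeff (Finsupp.single i 1 + Finsupp.single j p) • (X 0 * X 1 ^ p) ∈
        J ⊔ Cn (p + 1) ⊔ Fge (p + 2) := by
  have h5 := hJ.three
  have hΦ : wp (qw p 2) (sb (rij i j) g) ∈ J :=
    TOp_qw hJ.pp (by omega) 2 J hJ.isT hJ.mul.sq _ (sb_mem hJ.isT (rij_subst i j) hg)
  have h2 := lin_check (Φ := (wp (qw p 2)).comp (tl (sb (rij i j)))) (Finset.univ : Finset (Fin 4))
    ![cwl [i, j], cwl [j, i], cfl (Finsupp.single i p + Finsupp.single j 1),
      cfl (Finsupp.single i 1 + Finsupp.single j p)]
    ![X 0 * X 1, X 1 * X 0, X 0 ^ p * X 1, X 0 * X 1 ^ p] (Cn (p + 1) ⊔ Fge (p + 2)) (by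
      intro w
      rw [Fin.sum_univ_four, LinearMap.comp_apply, tl_apply]
      show wp (qw p 2) (sb (rij i j) (mon w)) - (cf [i, j] (mon w) • (X 0 * X 1) +
        cf [j, i] (mon w) • (X 1 * X 0) +
        (com (mon w)).coeff (Finsupp.single i p + Finsupp.single j 1) • (X 0 ^ p * X 1) +
        (com (mon w)).coeff (Finsupp.single i 1 + Finsupp.single j p) • (X 0 * X 1 ^ p)) ∈ _
      rw [cf_mon, cf_mon, coeff_word, coeff_word]
      by_cases hs : ∀ k ∈ w, k = i ∨ k = j
      · rw [rij_word hs]
        have hc0 := rho_count0 i w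
        have hc1 := rho_count1 hij hs
        have hlen := two_length hij hs
        have hqw : qw p 2 (w.map (rho i)) ↔ w.count i % (p - 1) = 1 ∧ w.count j % (p - 1) = 1 := by
          constructor
          · intro h
            have h6 := h.2 0 (by norm_num)
            have h7 := h.2 1 (by norm_num)
            rw [hc0] at h6
            rw [hc1] at h7
            exact ⟨h6, h7⟩
          · rintro ⟨h6, h7⟩
            refine ⟨rho_lt i w, fun k hk => ?_⟩
            have hk' : k = 0 ∨ k = 1 := by omega
            rcases hk' with rfl | rfl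
            · rw [hc0]
              exact h6
            · rw [hc1]
              exact h7
        have hp1 : p % (p - 1) = 1 := by
          have h6 : p = 1 + (p - 1) := by omega
          conv_lhs => rw [h6]
          rw [show (1 + (p - 1) - 1) = p - 1 by omega, Nat.add_mod_right]
          exact Nat.mod_eq_of_lt (by omega)
        have h11 : 1 % (p - 1) = 1 := Nat.mod_eq_of_lt (by omega)
        by_cases hA : w.count i = 1 ∧ w.count j = 1
        · have hq : qw p 2 (w.map (rho i)) := hqw.2 (by rw [hA.1, hA.2]; exact ⟨h11, h11⟩)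
          rw [wp_pos hq, if_neg (c := Dw w = Finsupp.single i p + Finsupp.single j 1) (by
            rw [Dw_two hij]
            rintro ⟨-, h6, -⟩
            omega), if_neg (c := Dw w = Finsupp.single i 1 + Finsupp.single j p) (by
            rw [Dw_two hij]
            rintro ⟨-, -, h6⟩
            omega), zero_smul, zero_smul, add_zero, add_zero]
          rcases two_word hs hij hA.1 hA.2 with h6 | h6
          · rw [if_pos h6, if_neg (by
              rw [h6]
              intro h7
              simp only [List.cons.injEq] at h7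
              exact hij h7.1), one_smul, zero_smul, add_zero, h6]
            have h7 : mon ([i, j].map (rho i)) = X 0 * X 1 := by
              unfold mon rho
              simp [Ne.symm hij]
            rw [h7, sub_self]
            exact Submodule.zero_mem _
          · rw [if_pos h6, if_neg (by
              rw [h6]
              intro h7
              simp only [List.cons.injEq] at h7
              exact hij h7.1.symm), one_smul, zero_smul, zero_add, h6]
            have h7 : mon ([j, i].map (rho i)) = X 1 * X 0 := by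
              unfold mon rho
              simp [Ne.symm hij]
            rw [h7, sub_self]
            exact Submodule.zero_mem _
        · have hn1 : w ≠ [i, j] := by
            rintro rfl
            exact hA (by simp [hij, Ne.symm hij])
          have hn2 : w ≠ [j, i] := by
            rintro rfl
            exact hA (by simp [hij, Ne.symm hij])
          rw [if_neg hn1, if_neg hn2, zero_smul, zero_smul, zero_add, zero_add]
          by_cases hB : w.count i = p ∧ w.count j = 1
          · have hq : qw p 2 (w.map (rho i)) := hqw.2 (by rw [hB.1, hB.2]; exact ⟨hp1, h11⟩)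
            rw [wp_pos hq, if_pos ((Dw_two hij w p 1).2 ⟨hs, hB.1, hB.2⟩), if_neg (by
              rw [Dw_two hij]
              rintro ⟨-, h6, -⟩
              omega), one_smul, zero_smul, add_zero]
            have h6 := perm_Cn (two_perm (rho_lt i w))
            rw [hc0, hc1, hB.1, hB.2, List.length_map, hlen, hB.1, hB.2, ← xpow_word,
              pow_one] at h6
            exact Submodule.mem_sup_left h6
          · rw [if_neg (c := Dw w = Finsupp.single i p + Finsupp.single j 1) (by
              rw [Dw_two hij]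
              rintro ⟨-, h6⟩
              exact hB h6), zero_smul, zero_add]
            by_cases hC : w.count i = 1 ∧ w.count j = p
            · have hq : qw p 2 (w.map (rho i)) := hqw.2 (by rw [hC.1, hC.2]; exact ⟨h11, hp1⟩)
              rw [wp_pos hq, if_pos ((Dw_two hij w 1 p).2 ⟨hs, hC.1, hC.2⟩), one_smul]
              have h6 := perm_Cn (two_perm (rho_lt i w))
              rw [hc0, hc1, hC.1, hC.2, List.length_map, hlen, hC.1, hC.2, ← xpow_word,
                pow_one, add_comm 1 p] at h6
              exact Submodule.mem_sup_left h6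
            · rw [if_neg (by
                rw [Dw_two hij]
                rintro ⟨-, h6⟩
                exact hC h6), zero_smul, sub_zero]
              by_cases hq : qw p 2 (w.map (rho i))
              · rw [wp_pos hq]
                obtain ⟨h6, h7⟩ := hqw.1 hq
                refine Submodule.mem_sup_right (mon_Fge ?_)
                rw [List.length_map, hlen]
                have h8 := Nat.div_add_mod (w.count i) (p - 1)
                have h9 := Nat.div_add_mod (w.count j) (p - 1)
                rw [h6] at h8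
                rw [h7] at h9
                obtain ⟨q1, hq1⟩ : ∃ q1, q1 = w.count i / (p - 1) := ⟨_, rfl⟩
                obtain ⟨q2, hq2⟩ : ∃ q2, q2 = w.count j / (p - 1) := ⟨_, rfl⟩
                rw [← hq1] at h8
                rw [← hq2] at h9
                rcases Nat.lt_or_ge (q1 + q2) 2 with h10 | h10
                · exfalso
                  have h12 : (q1 = 0 ∧ q2 = 0) ∨ (q1 = 1 ∧ q2 = 0) ∨ (q1 = 0 ∧ q2 = 1) := by omega
                  rcases h12 with ⟨e1, e2⟩ | ⟨e1, e2⟩ | ⟨e1, e2⟩
                  · rw [e1, mul_zero] at h8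
                    rw [e2, mul_zero] at h9
                    exact hA ⟨by omega, by omega⟩
                  · rw [e1, mul_one] at h8
                    rw [e2, mul_zero] at h9
                    exact hB ⟨by omega, by omega⟩
                  · rw [e1, mul_zero] at h8
                    rw [e2, mul_one] at h9
                    exact hC ⟨by omega, by omega⟩
                · have h12 : (p - 1) * 2 ≤ (p - 1) * (q1 + q2) := Nat.mul_le_mul_left _ h10
                  rw [mul_add] at h12
                  omega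
              · rw [wp_neg hq]
                exact Submodule.zero_mem _
      · push Not at hs
        obtain ⟨k, hk, hki, hkj⟩ := hs
        have hk0 : rij i j k = 0 := by
          unfold rij
          rw [if_neg hki, if_neg hkj]
        have hn1 : w ≠ [i, j] := by
          rintro rfl
          simp [hki, hkj] at hk
        have hn2 : w ≠ [j, i] := by
          rintro rfl
          simp [hki, hkj] at hk
        have hn3 : ∀ a b, Dw w ≠ Finsupp.single i a + Finsupp.single j b := by
          intro a b h
          rcases ((Dw_two hij w a b).1 h).1 k hk with h6 | h6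
          · exact hki h6
          · exact hkj h6
        rw [kill_word hk hk0, map_zero, if_neg hn1, if_neg hn2, if_neg (hn3 p 1), if_neg (hn3 1 p)]
        simp) g
  rw [Fin.sum_univ_four, LinearMap.comp_apply, tl_apply] at h2
  have h3 := Submodule.sub_mem _ (T_J (p := p) hΦ) (T_CF (J := J) h2)
  rw [sub_sub_cancel] at h3
  exact h3

private theorem cf_one (g : P) (i : ℕ) : cf [i] g = (com g).coeff (Finsupp.single i 1) := by
  refine ind_mon (C := fun g => cf [i] g = (com g).coeff (Finsupp.single i 1)) ?_ ?_ ?_ ?_ g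
  · have h := cf_smul [i] 0 0
    rw [zero_smul, zero_mul] at h
    rw [h, map_zero, MvPolynomial.coeff_zero]
  · intro f g hf hg
    rw [cf_add, map_add, MvPolynomial.coeff_add, hf, hg]
  · intro c f hf
    rw [cf_smul, map_zsmul, MvPolynomial.coeff_smul, hf, smul_eq_mul]
  · intro w
    rw [cf_mon, coeff_word]
    by_cases h : w = [i]
    · rw [if_pos h, if_pos]
      rw [h, ← Dw_replicate 1 i]
      rfl
    · rw [if_neg h, if_neg]
      intro h1
      have h2 := Dw_degree w
      rw [h1, Finsupp.degree_single] at h2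
      obtain ⟨a, rfl⟩ := List.length_eq_one_iff.1 h2.symm
      have h3 := Dw_apply [a] a
      rw [h1, Finsupp.single_apply] at h3
      by_cases h4 : i = a
      · exact h (by rw [h4])
      · rw [if_neg h4] at h3
        simp at h3

private theorem cf_two {i j : ℕ} (hij : i ≠ j) (g : P) : cf [i, j] g + cf [j, i] g =
    (com g).coeff (Finsupp.single i 1 + Finsupp.single j 1) := by
  refine ind_mon (C := fun g => cf [i, j] g + cf [j, i] g =
    (com g).coeff (Finsupp.single i 1 + Finsupp.single j 1)) ?_ ?_ ?_ ?_ g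
  · have h := cf_smul [i, j] 0 0
    rw [zero_smul, zero_mul] at h
    have h' := cf_smul [j, i] 0 0
    rw [zero_smul, zero_mul] at h'
    rw [h, h', map_zero, MvPolynomial.coeff_zero, add_zero]
  · intro f g hf hg
    rw [cf_add, cf_add, map_add, MvPolynomial.coeff_add, ← hf, ← hg]
    ring
  · intro c f hf
    rw [cf_smul, cf_smul, map_zsmul, MvPolynomial.coeff_smul, ← hf, smul_eq_mul]
    ring
  · intro w
    rw [cf_mon, cf_mon, coeff_word]
    by_cases h : Dw w = Finsupp.single i 1 + Finsupp.single j 1
    · rw [if_pos h]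
      obtain ⟨h1, h2, h3⟩ := (Dw_two hij w 1 1).1 h
      rcases two_word h1 hij h2 h3 with h4 | h4
      · rw [if_pos h4, if_neg (by
          rw [h4]
          intro h7
          simp only [List.cons.injEq] at h7
          exact hij h7.1), add_zero]
      · rw [if_pos h4, if_neg (by
          rw [h4]
          intro h7
          simp only [List.cons.injEq] at h7
          exact hij h7.1.symm), zero_add]
    · rw [if_neg h, if_neg, if_neg, add_zero]
      · rintro rfl
        apply h
        rw [Dw_two hij]
        refine ⟨?_, ?_, ?_⟩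
        · intro k hk
          simp at hk
          tauto
        · simp [Ne.symm hij]
        · simp [hij]
      · rintro rfl
        apply h
        rw [Dw_two hij]
        refine ⟨?_, ?_, ?_⟩
        · intro k hk
          simp at hk
          tauto
        · simp [Ne.symm hij]
        · simp [hij]

private theorem cf_sq (g : P) (i : ℕ) : cf [i, i] g = (com g).coeff (Finsupp.single i 2) := by
  refine ind_mon (C := fun g => cf [i, i] g = (com g).coeff (Finsupp.single i 2)) ?_ ?_ ?_ ?_ g
  · have h := cf_smul [i, i] 0 0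
    rw [zero_smul, zero_mul] at h
    rw [h, map_zero, MvPolynomial.coeff_zero]
  · intro f g hf hg
    rw [cf_add, map_add, MvPolynomial.coeff_add, hf, hg]
  · intro c f hf
    rw [cf_smul, map_zsmul, MvPolynomial.coeff_smul, hf, smul_eq_mul]
  · intro w
    rw [cf_mon, coeff_word]
    by_cases h : w = [i, i]
    · rw [if_pos h, if_pos]
      rw [h, ← Dw_replicate 2 i]
      rfl
    · rw [if_neg h, if_neg]
      intro h1
      have h2 := Dw_degree w
      rw [h1, Finsupp.degree_single] at h2
      have h3 : w = List.replicate w.length i := List.eq_replicate_iff.2 ⟨rfl, fun b hb => by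
        by_contra hne
        have h4 := Dw_apply w b
        rw [h1, Finsupp.single_apply, if_neg (Ne.symm hne)] at h4
        exact (List.count_pos_iff.2 hb).ne' h4.symm⟩
      rw [← h2] at h3
      exact h h3

theorem NEx {p : ℕ} {J : Submodule ℤ P} (hJ : Bt p J) (h : ¬ J ≤ NPt p 0 0) :
    cm 0 1 ∈ J ⊔ Fge (p + 1) ∨ X 0 ^ p ∈ J ∨
      X 0 ^ p * X 1 - X 0 * X 1 ^ p ∈ J ⊔ Cn (p + 1) ⊔ Fge (p + 2) := by
  have h5 := hJ.three
  obtain ⟨g, hg, hgN⟩ := SetLike.not_le_iff_exists.1 h
  rw [NPt_mem] at hgN
  by_contra hcon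
  push Not at hcon
  obtain ⟨hA, hB, hC⟩ := hcon
  have hlow : ∀ d : ℕ →₀ ℕ, 1 ≤ d.degree → d.degree ≤ p → (p : ℤ) ∣ (com g).coeff d := by
    intro d h1 h2
    by_contra h3
    exact hB (low_case hJ hg h1 h2 h3)
  -- the cases (a) and (b)
  have hab : ∀ i j, i ≠ j → (p : ℤ) ∣ cf [i, j] g ∧
      (p : ℤ) ∣ (com g).coeff (Finsupp.single i p + Finsupp.single j 1) -
        (com g).coeff (Finsupp.single i 1 + Finsupp.single j p) := by
    intro i j hij
    have h1 := ab_case hJ hg hij
    obtain ⟨c₁, hc₁⟩ : ∃ c₁, c₁ = (com g).coeff (Finsupp.single i p + Finsupp.single j 1) := ⟨_, rfl⟩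
    obtain ⟨c₂, hc₂⟩ : ∃ c₂, c₂ = (com g).coeff (Finsupp.single i 1 + Finsupp.single j p) := ⟨_, rfl⟩
    rw [← hc₁, ← hc₂] at h1 ⊢
    obtain ⟨q, hq⟩ : (p : ℤ) ∣ cf [i, j] g + cf [j, i] g := by
      rw [cf_two hij]
      refine hlow _ ?_ ?_
      · rw [map_add, Finsupp.degree_single, Finsupp.degree_single]
        norm_num
      · rw [map_add, Finsupp.degree_single, Finsupp.degree_single]
        omega
    have hji : cf [j, i] g = (p : ℤ) * q - cf [i, j] g := by omega
    obtain ⟨m, hm⟩ : ∃ m, m = cf [i, j] g := ⟨_, rfl⟩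
    rw [hji, ← hm] at h1
    rw [← hm]
    have h2 : (p : ℤ) • (q • (X 1 * X 0 : P)) ∈ J :=
      hJ.mul _ (Submodule.smul_mem _ _ (Pp_mul_left _ (X_mem 0)))
    have h3 : m • cm 0 1 + (c₁ • (X 0 ^ p * X 1) + c₂ • (X 0 * X 1 ^ p)) ∈
        J ⊔ Cn (p + 1) ⊔ Fge (p + 2) := by
      have h4 := Submodule.sub_mem _ h1 (T_J (p := p) h2)
      have h6 : m • (X 0 * X 1 : P) + ((p : ℤ) * q - m) • (X 1 * X 0) + c₁ • (X 0 ^ p * X 1) +
          c₂ • (X 0 * X 1 ^ p) - (p : ℤ) • (q • (X 1 * X 0)) =
          m • cm 0 1 + (c₁ • (X 0 ^ p * X 1) + c₂ • (X 0 * X 1 ^ p)) := by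
        unfold cm
        module
      rwa [h6] at h4
    have hm0 : (p : ℤ) ∣ m := by
      by_contra hmp
      apply hA
      have h4 : J ⊔ Cn (p + 1) ⊔ Fge (p + 2) ≤ J ⊔ Fge (p + 1) :=
        sup_le (sup_le le_sup_left ((Cn_le_Fge _).trans le_sup_right))
          ((Fge_anti (by omega)).trans le_sup_right)
      have h6 : c₁ • (X 0 ^ p * X 1 : P) + c₂ • (X 0 * X 1 ^ p) ∈ J ⊔ Fge (p + 1) := by
        refine Submodule.mem_sup_right (Submodule.add_mem _ (Submodule.smul_mem _ _ ?_)
          (Submodule.smul_mem _ _ ?_))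
        · have h7 := xpow_word p 1
          rw [pow_one] at h7
          rw [h7]
          exact mon_Fge (by simp)
        · have h7 := xpow_word 1 p
          rw [pow_one] at h7
          rw [h7]
          exact mon_Fge (by rw [List.length_append, List.length_replicate, List.length_replicate]; omega)
      have h7 := Submodule.sub_mem _ (h4 h3) h6
      rw [add_sub_cancel_right] at h7
      exact cancel hJ.pp (hJ.mul.mono le_sup_left).sq hmp (cm_mem 0 1) h7
    refine ⟨hm0, ?_⟩
    by_contra hcp
    apply hC
    obtain ⟨m', rfl⟩ := hm0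
    have h4 : ((p : ℤ) * m') • cm 0 1 ∈ J := by
      rw [mul_smul]
      exact hJ.mul _ (Submodule.smul_mem _ _ (cm_mem 0 1))
    have h6 := Submodule.sub_mem _ h3 (T_J (p := p) h4)
    rw [add_sub_cancel_left] at h6
    have h7 := sb_mem (isT_T hJ) sw_subst h6
    rw [map_add, map_zsmul, map_zsmul, map_mul, map_mul, map_pow, map_pow, sb_X, sb_X] at h7
    have e0 : sw 0 = X 1 := rfl
    have e1 : sw 1 = X 0 := rfl
    rw [e0, e1] at h7
    have h8 := x1pow p
    have h9 : X 0 * X 1 ^ p - X 1 ^ p * X 0 ∈ Cn (p + 1) := by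
      have h10 := sb_mem (isT_Cn (p + 1)) sw_subst h8
      rw [map_sub, map_mul, map_mul, map_pow, sb_X, sb_X] at h10
      exact h10
    have h10 : (c₁ - c₂) • (X 0 ^ p * X 1 - X 0 * X 1 ^ p : P) =
        (c₁ • (X 0 ^ p * X 1) + c₂ • (X 0 * X 1 ^ p)) -
        (c₁ • (X 1 ^ p * X 0) + c₂ • (X 1 * X 0 ^ p)) -
        c₁ • (X 0 * X 1 ^ p - X 1 ^ p * X 0) + c₂ • (X 1 * X 0 ^ p - X 0 ^ p * X 1) := by
      module
    refine cancel hJ.pp (T_mul hJ) hcp ?_ ?_
    · exact Submodule.sub_mem _ (Pp_mul_left _ (X_mem 1)) (Pp_mul_right (X_mem 0) _)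
    · rw [h10]
      exact Submodule.add_mem _ (Submodule.sub_mem _ (Submodule.sub_mem _ h6 h7)
        (Submodule.smul_mem _ _ (T_C h9))) (Submodule.smul_mem _ _ (T_C h8))
  apply hgN
  refine ⟨hJ.isT.le hg, fun i => ?_, fun _ _ => 0, fun i j => by simp, fun i j => ?_,
    fun d h1 h2 => hlow d (by omega) h2, fun i j => ?_, fun d h1 h2 => ?_⟩
  · rw [cf_one]
    refine hlow _ ?_ ?_
    · rw [Finsupp.degree_single]
    · rw [Finsupp.degree_single]
      omega
  · rw [mul_zero, sub_zero]
    by_cases hij : i = j
    · subst hij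
      rw [cf_sq]
      refine hlow _ ?_ ?_
      · rw [Finsupp.degree_single]
        norm_num
      · rw [Finsupp.degree_single]
        omega
    · exact (hab i j hij).1
  · rw [mul_zero, sub_zero]
    by_cases hij : i = j
    · subst hij
      rw [add_comm (Finsupp.single i 1), sub_self]
      exact dvd_zero _
    · exact (hab i j hij).2
  · by_contra h3
    exact hC (c_case hJ hg h1 h2 h3)

end ADP
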