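import Pool.Agent.ADP.Nf2
import Pool.Agent.ADP.K3
import Pool.Agent.ADP.P1
import Pool.Agent.ADP.NEx
import Pool.Agent.ADP.Mod3
import Pool.Agent.ADC.Cnb

/-!
# ADP-B3c: `p = 2`, exponent 2, type `xyx`, `x^2 y + y x^2`

`I ∋ xyx, x^2 y + y x^2`, `Bs 2 I`.  Consequences: `xyz + zyx ∈ I` (linearise `xyx`); exchanging positions (13), (14), (24) all words of length `≥ 4` with the same letters are congruent (`Cn 4 ≤ I`), and those with a repeated letter are in `I` (`s a s u`); `x^3 ∈ I`.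
`nf2`: `n ≥ 1`, linked additive `a, b ∈ Qf n`, `a ∉ I`.
* `n = 1`: `a, b` combinations of `x, x^2` modulo `I`: `a ≡ α x + β x^2`: the argument of `Pair1` (ADP.Pair1; `one_low` is for `Bt`: here directly: if `α` is odd: multiply by `x`: `x^2 ∈ A` (as `x^3 ∈ I`), then `x ∈ A`, `A = P⁺ ≥ B`, `b ∈ A ⊓ B ≤ I`, contradiction; so `α`, and
  likewise the coefficient of `b`, is even and `a, b ∈ I ⊔ ℤ x^2`: `Lk.np`).
* `n = 2`: modulo `I`: `a = α xy + β yx + γ x^2 y + δ x y^2` (`xyx, yxy ∈ I`, `y x^2 ≡ x^2 y`, `y^2 x ≡ x y^2`, longer words in `I`).  `Ad` in `x_0`: `γ (x z + z x) y ∈ I` (`z = X 2`); if `γ` is odd: put `z := y`: `xyy + yxy ∈ I`, so `x y^2 ∈ I` and by renaming `x^2 y ∈ I` (`≡ y x^2`); same for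
  `δ`.  So in all cases `a ≡ α xy + β yx`, `b` as well.  `Φ = id + tl (rn 2 (swap 0 1))`: `Φ a, Φ b ∈ I ⊔ ℤ (xy + yx)`: `Lk.np`: `Φ a ∈ I`, `Φ b ∈ I`.  If `xy + yx ∉ I`: `α + β` even: `a ∈ I ⊔ ℤ (xy + yx)`, same for `b`: `Lk.np`.  If `xy + yx ∈ I`: `a, b ∈ I ⊔ ℤ xy`: `Lk.np`.
* `n = 3`: `a, b ∈ I ⊔ Ml 3` (words of length `≥ 4` in exactly 3 letters have a repeated letter); `Ml 3 ≤ I ⊔ ⟨Y_0, Y_1, Y_2⟩`, `Y_k` the even word with middle letter `k` (`xyz ≡ zyx`): `P1` with `ε = 1` (`mid` of ADP.Mod3 if `g2`-type hypothesis: `xyz - 1 • zyx ∈ I` since `2 P⁺ ≤ I`; ADP.Mod3 may be imported).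
* `n ≥ 4`: `a, b ∈ I ⊔ ℤ mw n`: `Lk.np`.
-/

namespace ADP

open AD ADN ADC

private noncomputable def bc_ph (f g k : P) (i : ℕ) : P := if i = 0 then f else if i = 1 then g else k

private theorem bc_sub {I : Submodule ℤ P} (hI : IsT I) {f g k : P} (hf : f ∈ Pp) (hg : g ∈ Pp) (hk : k ∈ Pp)
    {q : P} (hq : q ∈ I) : sb (bc_ph f g k) q ∈ I := by
  refine sb_mem hI (fun i => ?_) hq
  unfold bc_ph
  split_ifs <;> assumption

private theorem bc_0 (f g k : P) : sb (bc_ph f g k) (X 0) = f := by rw [sb_X]; rfl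
private theorem bc_1 (f g k : P) : sb (bc_ph f g k) (X 1) = g := by rw [sb_X]; rfl
private theorem bc_2 (f g k : P) : sb (bc_ph f g k) (X 2) = k := by rw [sb_X]; rfl

/-- the basic consequences -/
private structure BC (I : Submodule ℤ P) : Prop where
  hI : IsT I
  m2 : ∀ f ∈ Pp, (2 : ℤ) • f ∈ I
  c0 : ∀ f ∈ Pp, ∀ g ∈ Pp, f * g * f ∈ I
  c2 : ∀ f ∈ Pp, ∀ g ∈ Pp, f ^ 2 * g + g * f ^ 2 ∈ I

private theorem bc_mk {I : Submodule ℤ P} (hb : Bs 2 I) (h1 : X 0 * X 1 * X 0 ∈ I)
    (h2 : X 0 ^ 2 * X 1 + X 1 * X 0 ^ 2 ∈ I) : BC I where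
  hI := hb.isT
  m2 := by
    intro f hf
    have h := hb.mul f hf
    rwa [Nat.cast_ofNat] at h
  c0 := by
    intro f hf g hg
    have h := bc_sub hb.isT hf hg hg h1
    rwa [map_mul, map_mul, bc_0, bc_1] at h
  c2 := by
    intro f hf g hg
    have h := bc_sub hb.isT hf hg hg h2
    rwa [map_add, map_mul, map_mul, map_pow, bc_0, bc_1] at h

private theorem BC.even {I : Submodule ℤ P} (h : BC I) {c : ℤ} (hc : (2 : ℤ) ∣ c) {f : P} (hf : f ∈ Pp) :
    c • f ∈ I := by
  obtain ⟨d, rfl⟩ := hc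
  rw [mul_smul]
  exact h.m2 _ (Submodule.smul_mem _ _ hf)

private theorem BC.odd {I : Submodule ℤ P} (h : BC I) {J : Submodule ℤ P} (hJ : I ≤ J) {c : ℤ}
    (hc : ¬ (2 : ℤ) ∣ c) {f : P} (hf : f ∈ Pp) (hcf : c • f ∈ J) : f ∈ J := by
  obtain ⟨d, hd⟩ : (2 : ℤ) ∣ c - 1 := by omega
  have e : f = c • f - (c - 1) • f := by
    rw [sub_smul, one_smul]
    abel
  rw [e]
  exact J.sub_mem hcf (hJ (h.even ⟨d, hd⟩ hf))

private theorem BC.lin {I : Submodule ℤ P} (h : BC I) {f g k : P} (hf : f ∈ Pp) (hg : g ∈ Pp) (hk : k ∈ Pp) :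
    f * g * k - k * g * f ∈ I := by
  have h1 := h.c0 _ (Pp.add_mem hf hk) g hg
  have h2 := h.c0 f hf g hg
  have h3 := h.c0 k hk g hg
  have h4 := h.m2 (k * g * f) (Pp_mul_left _ hf)
  have e : f * g * k - k * g * f = (f + k) * g * (f + k) - f * g * f - k * g * k - (2 : ℤ) • (k * g * f) := by
    simp only [mul_add, add_mul, two_smul]
    abel
  rw [e]
  exact I.sub_mem (I.sub_mem (I.sub_mem h1 h2) h3) h4

private theorem BC.s12 {I : Submodule ℤ P} (h : BC I) {a b c d : P} (ha : a ∈ Pp) (hb : b ∈ Pp) (hc : c ∈ Pp)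
    (hd : d ∈ Pp) : a * b * c * d - b * a * c * d ∈ I := by
  have h1 := h.lin ha (Pp_mul_left b hc) hd
  have h2 := h.hI.mul_left _ (h.lin hb hc ha) d
  have h3 := h.lin hd (Pp_mul_left a hc) hb
  have e : a * b * c * d - b * a * c * d = (a * (b * c) * d - d * (b * c) * a) +
      d * (b * c * a - a * c * b) + (d * (a * c) * b - b * (a * c) * d) := by
    simp only [mul_sub, mul_assoc]
    abel
  rw [e]
  exact I.add_mem (I.add_mem h1 h2) h3

private theorem BC.s34 {I : Submodule ℤ P} (h : BC I) {a b c d : P} (ha : a ∈ Pp) (hb : b ∈ Pp) (hc : c ∈ Pp)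
    (hd : d ∈ Pp) : a * b * c * d - a * b * d * c ∈ I := by
  have h1 := h.lin ha (Pp_mul_left b hc) hd
  have h2 := h.hI.mul_right _ (h.lin hd hb hc) a
  have h3 := h.lin hc (Pp_mul_left b hd) ha
  have e : a * b * c * d - a * b * d * c = (a * (b * c) * d - d * (b * c) * a) +
      (d * b * c - c * b * d) * a + (c * (b * d) * a - a * (b * d) * c) := by
    simp only [sub_mul, mul_assoc]
    abel
  rw [e]
  exact I.add_mem (I.add_mem h1 h2) h3

private theorem BC.s23 {I : Submodule ℤ P} (h : BC I) {a b c d : P} (ha : a ∈ Pp) (hb : b ∈ Pp) (hc : c ∈ Pp)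
    (hd : d ∈ Pp) : a * b * c * d - a * c * b * d ∈ I := by
  have h1 := h.hI.mul_left _ (h.lin hb hc hd) a
  have h2 := h.s34 ha hd hc hb
  have h3 := h.hI.mul_left _ (h.lin hd hb hc) a
  have e : a * b * c * d - a * c * b * d = a * (b * c * d - d * c * b) +
      (a * d * c * b - a * d * b * c) + a * (d * b * c - c * b * d) := by
    simp only [mul_sub, mul_assoc]
    abel
  rw [e]
  exact I.add_mem (I.add_mem h1 h2) h3

private theorem BC.C4 {I : Submodule ℤ P} (h : BC I) : Cn 4 ≤ I := by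
  refine Submodule.span_le.2 ?_
  rintro f ⟨u, v, i, j, hl, rfl⟩
  show mon u * (X i * X j - X j * X i) * mon v ∈ I
  rcases List.eq_nil_or_concat u with rfl | ⟨u, a, rfl⟩
  · rcases v with _ | ⟨c, _ | ⟨d, v⟩⟩
    · simp at hl
    · simp at hl
    · have h1 := h.hI.mul_right _ (h.s12 (X_mem i) (X_mem j) (X_mem c) (X_mem d)) (mon v)
      have e : mon [] * (X i * X j - X j * X i) * mon (c :: d :: v) =
          (X i * X j * X c * X d - X j * X i * X c * X d) * mon v := by
        rw [mon_nil, mon_cons, mon_cons, one_mul]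
        simp only [sub_mul, mul_assoc]
      rw [e]
      exact h1
  · rcases List.eq_nil_or_concat u with rfl | ⟨u, b, rfl⟩
    · rcases v with _ | ⟨d, v⟩
      · simp at hl
      · have h1 := h.hI.mul_right _ (h.s23 (X_mem a) (X_mem i) (X_mem j) (X_mem d)) (mon v)
        have e : mon ([].concat a) * (X i * X j - X j * X i) * mon (d :: v) =
            (X a * X i * X j * X d - X a * X j * X i * X d) * mon v := by
          rw [List.concat_eq_append, List.nil_append, mon_single, mon_cons]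
          simp only [sub_mul, mul_sub, mul_assoc]
        rw [e]
        exact h1
    · have h1 := IsT.lm h.hI (mon u) (mon v) (h.s34 (X_mem b) (X_mem a) (X_mem i) (X_mem j))
      have e : mon ((u.concat b).concat a) * (X i * X j - X j * X i) * mon v =
          mon u * (X b * X a * X i * X j - X b * X a * X j * X i) * mon v := by
        rw [List.concat_eq_append, List.concat_eq_append, mon_append, mon_append, mon_single, mon_single]
        simp only [sub_mul, mul_sub, mul_assoc]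
      rw [e]
      exact h1

private theorem BC.perm {I : Submodule ℤ P} (h : BC I) {u v : List ℕ} (huv : u.Perm v) (hl : 4 ≤ u.length) :
    mon u - mon v ∈ I := h.C4 (Cn_anti hl (perm_Cn huv))

private theorem BC.rep {I : Submodule ℤ P} (h : BC I) {w : List ℕ} {i : ℕ} (hi : 2 ≤ w.count i)
    (hl : 4 ≤ w.length) : mon w ∈ I := by
  have m1 : i ∈ w := List.count_pos_iff.1 (by omega)
  have p1 := List.perm_cons_erase m1
  have m2 : i ∈ w.erase i := List.count_pos_iff.1 (by rw [List.count_erase_self]; omega)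
  have p2 := List.perm_cons_erase m2
  have l1 := p1.length_eq
  have l2 := p2.length_eq
  rw [List.length_cons] at l1 l2
  obtain ⟨t, ht⟩ : ∃ t, t = (w.erase i).erase i := ⟨_, rfl⟩
  rw [← ht] at p2 l2
  rcases t with _ | ⟨a, t⟩
  · simp at l2
    omega
  · have p3 : w.Perm (i :: a :: i :: t) :=
      p1.trans ((p2.cons i).trans ((List.Perm.swap a i t).cons i))
    have e : mon w = (mon w - mon (i :: a :: i :: t)) + mon (i :: a :: i :: t) := by abel
    rw [e]
    refine I.add_mem (h.perm p3 hl) ?_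
    rw [mon_cons, mon_cons, mon_cons]
    have h1 := h.hI.mul_right _ (h.c0 _ (X_mem i) _ (X_mem a)) (mon t)
    simpa only [mul_assoc] using h1

private theorem bc_Qf {n : ℕ} {K : Submodule ℤ P} (h : ∀ w, fw n w → mon w ∈ K) : Qf n ≤ K := by
  refine Submodule.span_le.2 ?_
  rintro f ⟨w, hw, rfl⟩
  exact h w hw

private theorem BC.four {I : Submodule ℤ P} (h : BC I) {n : ℕ} (hn : 4 ≤ n) :
    Qf n ≤ I ⊔ Submodule.span ℤ {mw n} := by
  refine bc_Qf fun w hw => ?_
  rcases Nat.lt_or_ge n w.length with hl | hl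
  · obtain ⟨i, hi⟩ := fw_rep hw hl
    exact Submodule.mem_sup_left (h.rep hi (by omega))
  · have hp := fw_perm hw hl
    have hlen := hp.length_eq
    rw [List.length_range] at hlen
    have e : mon w = (mon w - mon (List.range n)) + mw n := by
      unfold mw
      abel
    rw [e]
    exact Submodule.add_mem _ (Submodule.mem_sup_left (h.perm hp (by omega)))
      (Submodule.mem_sup_right (Submodule.mem_span_singleton_self _))

private theorem BC.three {I : Submodule ℤ P} (h : BC I) : Qf 3 ≤ I ⊔ Ml 3 := by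
  refine bc_Qf fun w hw => ?_
  rcases Nat.lt_or_ge 3 w.length with hl | hl
  · obtain ⟨i, hi⟩ := fw_rep hw hl
    exact Submodule.mem_sup_left (h.rep hi (by omega))
  · exact Submodule.mem_sup_right (Ml_mon (fw_perm hw hl))

/-- a combination of four monomials -/
private theorem BC.two {I : Submodule ℤ P} (h : BC I) {a : P} (ha : a ∈ Qf 2) :
    ∃ α β γ δ : ℤ, a - (α • (X 0 * X 1) + β • (X 1 * X 0) + γ • (X 0 * X 0 * X 1) + δ • (X 0 * X 1 * X 1)) ∈ I := by
  unfold Qf at ha
  induction ha using Submodule.span_induction with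
  | zero => exact ⟨0, 0, 0, 0, by simp⟩
  | add f g _ _ hf hg =>
    obtain ⟨α, β, γ, δ, h1⟩ := hf
    obtain ⟨α', β', γ', δ', h2⟩ := hg
    refine ⟨α + α', β + β', γ + γ', δ + δ', ?_⟩
    have e : f + g - ((α + α') • (X 0 * X 1) + (β + β') • (X 1 * X 0) + (γ + γ') • (X 0 * X 0 * X 1) +
        (δ + δ') • (X 0 * X 1 * X 1)) =
        (f - (α • (X 0 * X 1) + β • (X 1 * X 0) + γ • (X 0 * X 0 * X 1) + δ • (X 0 * X 1 * X 1))) +
        (g - (α' • (X 0 * X 1) + β' • (X 1 * X 0) + γ' • (X 0 * X 0 * X 1) + δ' • (X 0 * X 1 * X 1))) := by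
      simp only [add_smul]
      abel
    rw [e]
    exact I.add_mem h1 h2
  | smul c f _ hf =>
    obtain ⟨α, β, γ, δ, h1⟩ := hf
    refine ⟨c * α, c * β, c * γ, c * δ, ?_⟩
    have e : c • f - ((c * α) • (X 0 * X 1) + (c * β) • (X 1 * X 0) + (c * γ) • (X 0 * X 0 * X 1) +
        (c * δ) • (X 0 * X 1 * X 1)) =
        c • (f - (α • (X 0 * X 1) + β • (X 1 * X 0) + γ • (X 0 * X 0 * X 1) + δ • (X 0 * X 1 * X 1))) := by
      simp only [mul_smul, smul_sub, smul_add]
    rw [e]
    exact I.smul_mem _ h1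
  | mem f hf =>
    obtain ⟨w, hw, rfl⟩ := hf
    have k0 := hw.2 0 (by norm_num)
    have k1 := hw.2 1 (by norm_num)
    have hx := X_mem 0
    have hy := X_mem 1
    rcases w with _ | ⟨a, _ | ⟨b, _ | ⟨c, _ | ⟨d, w⟩⟩⟩⟩
    · simp at k0
    · have ha := hw.1 a (by simp)
      simp at k0 k1
      omega
    · have ha := hw.1 a (by simp)
      have hb := hw.1 b (by simp)
      interval_cases a <;> interval_cases b
      · simp at k1
      · refine ⟨1, 0, 0, 0, ?_⟩
        rw [mon_cons, mon_single]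
        simp
      · refine ⟨0, 1, 0, 0, ?_⟩
        rw [mon_cons, mon_single]
        simp
      · simp at k0
    · have ha := hw.1 a (by simp)
      have hb := hw.1 b (by simp)
      have hc := hw.1 c (by simp)
      have e3 : mon [a, b, c] = X a * X b * X c := by
        rw [mon_cons, mon_cons, mon_single, mul_assoc]
      rw [e3]
      interval_cases a <;> interval_cases b <;> interval_cases c
      · simp at k1
      · exact ⟨0, 0, 1, 0, by simp⟩
      · exact ⟨0, 0, 0, 0, by simpa using h.c0 _ hx _ hy⟩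
      · exact ⟨0, 0, 0, 1, by simp⟩
      · refine ⟨0, 0, -1, 0, ?_⟩
        have h1 := h.c2 _ hx _ hy
        simp only [zero_smul, zero_add, add_zero, neg_one_smul, sub_neg_eq_add]
        rw [pow_two, add_comm, ← mul_assoc] at h1
        exact h1
      · exact ⟨0, 0, 0, 0, by simpa using h.c0 _ hy _ hx⟩
      · refine ⟨0, 0, 0, -1, ?_⟩
        have h1 := h.c2 _ hy _ hx
        simp only [zero_smul, zero_add, neg_one_smul, sub_neg_eq_add]
        rw [pow_two, ← mul_assoc] at h1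
        exact h1
      · simp at k0
    · refine ⟨0, 0, 0, 0, ?_⟩
      obtain ⟨i, hi⟩ := fw_rep hw (by simp)
      simp only [zero_smul, add_zero, sub_zero]
      exact h.rep hi (by simp)

private theorem BC.one {I : Submodule ℤ P} (h : BC I) {a : P} (ha : a ∈ Qf 1) :
    ∃ α β : ℤ, a - (α • X 0 + β • (X 0 * X 0)) ∈ I := by
  unfold Qf at ha
  induction ha using Submodule.span_induction with
  | zero => exact ⟨0, 0, by simp⟩
  | add f g _ _ hf hg =>
    obtain ⟨α, β, h1⟩ := hf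
    obtain ⟨α', β', h2⟩ := hg
    refine ⟨α + α', β + β', ?_⟩
    have e : f + g - ((α + α') • X 0 + (β + β') • (X 0 * X 0)) =
        (f - (α • X 0 + β • (X 0 * X 0))) + (g - (α' • X 0 + β' • (X 0 * X 0))) := by
      simp only [add_smul]
      abel
    rw [e]
    exact I.add_mem h1 h2
  | smul c f _ hf =>
    obtain ⟨α, β, h1⟩ := hf
    refine ⟨c * α, c * β, ?_⟩
    have e : c • f - ((c * α) • X 0 + (c * β) • (X 0 * X 0)) = c • (f - (α • X 0 + β • (X 0 * X 0))) := by
      simp only [mul_smul, smul_sub, smul_add]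
    rw [e]
    exact I.smul_mem _ h1
  | mem f hf =>
    obtain ⟨w, hw, rfl⟩ := hf
    have k0 := hw.2 0 (by norm_num)
    have h0 : ∀ i ∈ w, i = 0 := fun i hi => by
      have := hw.1 i hi
      omega
    rcases w with _ | ⟨a, _ | ⟨b, _ | ⟨c, w⟩⟩⟩
    · simp at k0
    · obtain rfl := h0 a (by simp)
      exact ⟨1, 0, by rw [mon_single]; simp⟩
    · obtain rfl := h0 a (by simp)
      obtain rfl := h0 b (by simp)
      exact ⟨0, 1, by rw [mon_cons, mon_single]; simp⟩
    · obtain rfl := h0 a (by simp)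
      obtain rfl := h0 b (by simp)
      obtain rfl := h0 c (by simp)
      refine ⟨0, 0, ?_⟩
      simp only [zero_smul, add_zero, sub_zero]
      rw [mon_cons, mon_cons, mon_cons]
      have h1 := h.hI.mul_right _ (h.c0 _ (X_mem 0) _ (X_mem 0)) (mon w)
      simpa only [mul_assoc] using h1

private theorem bc_top {A : Submodule ℤ P} (hA : IsT A) (h : X 0 ∈ A) : Pp ≤ A := by
  intro f hf
  have h1 := sb_mem hA (φ := fun _ => f) (fun _ => hf) h
  rwa [sb_X] at h1

private theorem BC.xA {I : Submodule ℤ P} (h : BC I) {A : Submodule ℤ P} (hA : IsT A) (hIA : I ≤ A) {a : P}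
    (ha : a ∈ A) {α β : ℤ} (hr : a - (α • X 0 + β • (X 0 * X 0)) ∈ I) (hα : ¬ (2 : ℤ) ∣ α) : Pp ≤ A := by
  have h1 : α • X 0 + β • (X 0 * X 0) ∈ A := by
    have e : α • X 0 + β • (X 0 * X 0) = a - (a - (α • X 0 + β • (X 0 * X 0))) := by abel
    rw [e]
    exact A.sub_mem ha (hIA hr)
  have h2 := hA.mul_left _ h1 (X 0)
  rw [mul_add, mul_smul_comm, mul_smul_comm, ← mul_assoc] at h2
  have h3 : X 0 * X 0 * X 0 ∈ A := hIA (h.c0 _ (X_mem 0) _ (X_mem 0))
  have h4 : α • (X 0 * X 0) ∈ A := by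
    have e : α • (X 0 * X 0 : P) = (α • (X 0 * X 0) + β • (X 0 * X 0 * X 0)) - β • (X 0 * X 0 * X 0) := by abel
    rw [e]
    exact A.sub_mem h2 (A.smul_mem _ h3)
  have h5 : X 0 * X 0 ∈ A := h.odd hIA hα (Pp_mul_left _ (X_mem 0)) h4
  have h6 : α • X 0 ∈ A := by
    have e : α • (X 0 : P) = (α • X 0 + β • (X 0 * X 0)) - β • (X 0 * X 0) := by abel
    rw [e]
    exact A.sub_mem h1 (A.smul_mem _ h5)
  exact bc_top hA (h.odd hIA hα (X_mem 0) h6)

private theorem bc_span {I : Submodule ℤ P} {a r Y : P} {m : ℤ} (h : a - r ∈ I) (hr : r - m • Y ∈ I) :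
    a ∈ I ⊔ Submodule.span ℤ {Y} := by
  have e : a = ((a - r) + (r - m • Y)) + m • Y := by abel
  rw [e]
  exact Submodule.add_mem _ (Submodule.mem_sup_left (I.add_mem h hr))
    (Submodule.mem_sup_right (Submodule.mem_span_singleton.2 ⟨m, rfl⟩))

/-- additivity: the terms of degree 3 vanish -/
private theorem BC.ad {I : Submodule ℤ P} (h : BC I) {a : P} (had : Ad I 2 a) {α β γ δ : ℤ}
    (hr : a - (α • (X 0 * X 1) + β • (X 1 * X 0) + γ • (X 0 * X 0 * X 1) + δ • (X 0 * X 1 * X 1)) ∈ I) :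
    a - (α • (X 0 * X 1) + β • (X 1 * X 0)) ∈ I := by
  have hx := X_mem 0
  have hy := X_mem 1
  have pxxy : X 0 * X 0 * X 1 ∈ Pp := Pp_mul_left _ hy
  have pxyy : X 0 * X 1 * X 1 ∈ Pp := Pp_mul_left _ hy
  have hyxy : X 1 * X 0 * X 1 ∈ I := h.c0 _ hy _ hx
  have hxyx : X 0 * X 1 * X 0 ∈ I := h.c0 _ hx _ hy
  obtain ⟨r, hrd⟩ : ∃ r, r = α • (X 0 * X 1) + β • (X 1 * X 0) + γ • (X 0 * X 0 * X 1) +
    δ • (X 0 * X 1 * X 1) := ⟨_, rfl⟩
  rw [← hrd] at hr
  -- the defect of `r`
  have hD : ∀ i < 2, sb (fun j => if j = i then X i + X 2 else X j) r - r -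
      sb (fun j => if j = i then X 2 else X j) r ∈ I := by
    intro i hi
    have h1 := had i hi
    have h2 : sb (fun j => if j = i then X i + X 2 else X j) (a - r) ∈ I := by
      refine sb_mem h.hI (fun j => ?_) hr
      split_ifs
      · exact Pp.add_mem (X_mem _) (X_mem _)
      · exact X_mem _
    have h3 : sb (fun j => if j = i then X 2 else X j) (a - r) ∈ I := by
      refine sb_mem h.hI (fun j => ?_) hr
      split_ifs <;> exact X_mem _
    have e : sb (fun j => if j = i then X i + X 2 else X j) r - r -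
        sb (fun j => if j = i then X 2 else X j) r =
        (sb (fun j => if j = i then X i + X 2 else X j) a - a - sb (fun j => if j = i then X 2 else X j) a) -
        sb (fun j => if j = i then X i + X 2 else X j) (a - r) + (a - r) +
        sb (fun j => if j = i then X 2 else X j) (a - r) := by
      rw [map_sub, map_sub]
      abel
    rw [e]
    exact I.add_mem (I.add_mem (I.sub_mem h1 h2) hr) h3
  have d0 : γ • ((X 0 * X 2 + X 2 * X 0) * X 1) ∈ I := by
    have h1 := hD 0 (by norm_num)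
    have e : sb (fun j => if j = 0 then X 0 + X 2 else X j) r - r -
        sb (fun j => if j = 0 then X 2 else X j) r = γ • ((X 0 * X 2 + X 2 * X 0) * X 1) := by
      rw [hrd]
      simp only [map_add, map_zsmul, map_mul, sb_X]
      simp only [if_true, one_ne_zero, if_false]
      simp only [add_mul, mul_add, smul_add]
      abel
    rw [e] at h1
    exact h1
  have d1 : δ • (X 0 * (X 1 * X 2 + X 2 * X 1)) ∈ I := by
    have h1 := hD 1 (by norm_num)
    have e : sb (fun j => if j = 1 then X 1 + X 2 else X j) r - r -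
        sb (fun j => if j = 1 then X 2 else X j) r = δ • (X 0 * (X 1 * X 2 + X 2 * X 1)) := by
      rw [hrd]
      simp only [map_add, map_zsmul, map_mul, sb_X]
      simp only [if_true, zero_ne_one, if_false]
      simp only [add_mul, mul_add, smul_add, mul_assoc]
      abel
    rw [e] at h1
    exact h1
  have key : γ • (X 0 * X 0 * X 1) ∈ I ∧ δ • (X 0 * X 1 * X 1) ∈ I := by
    by_cases hγ : (2 : ℤ) ∣ γ
    · by_cases hδ : (2 : ℤ) ∣ δ
      · exact ⟨h.even hγ pxxy, h.even hδ pxyy⟩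
      · have h1 : X 0 * (X 1 * X 2 + X 2 * X 1) ∈ I :=
          h.odd le_rfl hδ (Pp_mul_left _ (Pp.add_mem (Pp_mul_left _ (X_mem 2)) (Pp_mul_left _ hy))) d1
        have h2 := bc_sub h.hI hx hy hx h1
        rw [map_mul, map_add, map_mul, map_mul, bc_0, bc_1, bc_2, mul_add, ← mul_assoc, ← mul_assoc] at h2
        have h3 : X 0 * X 0 * X 1 ∈ I := by
          have e : (X 0 * X 0 * X 1 : P) = (X 0 * X 1 * X 0 + X 0 * X 0 * X 1) - X 0 * X 1 * X 0 := by abel
          rw [e]
          exact I.sub_mem h2 hxyx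
        have h4 := bc_sub h.hI hy hx hx h3
        rw [map_mul, map_mul, bc_0, bc_1] at h4
        have h5 := h.c2 _ hy _ hx
        rw [pow_two, ← mul_assoc] at h5
        have h6 : X 0 * X 1 * X 1 ∈ I := by
          have e : (X 0 * X 1 * X 1 : P) = (X 1 * X 1 * X 0 + X 0 * X 1 * X 1) - X 1 * X 1 * X 0 := by abel
          rw [e]
          exact I.sub_mem h5 h4
        exact ⟨I.smul_mem _ h3, I.smul_mem _ h6⟩
    · have h1 : (X 0 * X 2 + X 2 * X 0) * X 1 ∈ I := h.odd le_rfl hγ (Pp_mul_left _ hy) d0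
      have h2 := bc_sub h.hI hx hy hy h1
      rw [map_mul, map_add, map_mul, map_mul, bc_0, bc_1, bc_2, add_mul] at h2
      have h3 : X 0 * X 1 * X 1 ∈ I := by
        have e : (X 0 * X 1 * X 1 : P) = (X 0 * X 1 * X 1 + X 1 * X 0 * X 1) - X 1 * X 0 * X 1 := by abel
        rw [e]
        exact I.sub_mem h2 hyxy
      have h4 := bc_sub h.hI hy hx hx h3
      rw [map_mul, map_mul, bc_0, bc_1] at h4
      have h5 := h.c2 _ hx _ hy
      rw [pow_two, ← mul_assoc] at h5
      have h6 : X 0 * X 0 * X 1 ∈ I := by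
        have e : (X 0 * X 0 * X 1 : P) = (X 0 * X 0 * X 1 + X 1 * X 0 * X 0) - X 1 * X 0 * X 0 := by abel
        rw [e]
        exact I.sub_mem h5 h4
      exact ⟨I.smul_mem _ h6, I.smul_mem _ h3⟩
  have e : a - (α • (X 0 * X 1) + β • (X 1 * X 0)) =
      (a - r) + γ • (X 0 * X 0 * X 1) + δ • (X 0 * X 1 * X 1) := by
    rw [hrd]
    abel
  rw [e]
  exact I.add_mem (I.add_mem hr key.1) key.2

/-- `x y + y x` -/
private theorem BC.sym {I : Submodule ℤ P} (h : BC I) {a : P} {α β : ℤ}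
    (hr : a - (α • (X 0 * X 1) + β • (X 1 * X 0)) ∈ I) :
    (LinearMap.id + tl (rn 2 (Equiv.swap 0 1)) : P →ₗ[ℤ] P) a - (α + β) • (X 0 * X 1 + X 1 * X 0) ∈ I := by
  have h1 : rn 2 (Equiv.swap 0 1) (a - (α • (X 0 * X 1) + β • (X 1 * X 0))) ∈ I :=
    h.hI.subst _ (rn_isSubst _ _) _ hr
  have e0 : rn 2 (Equiv.swap 0 1) (X 0) = X 1 := by
    rw [rn_X, dif_pos (by norm_num)]
    rfl
  have e1 : rn 2 (Equiv.swap 0 1) (X 1) = X 0 := by
    rw [rn_X, dif_pos (by norm_num)]
    rfl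
  rw [map_sub, map_add, map_zsmul, map_zsmul, map_mul, map_mul, e0, e1] at h1
  rw [LinearMap.add_apply, LinearMap.id_apply, tl_apply]
  have e : a + rn 2 (Equiv.swap 0 1) a - (α + β) • (X 0 * X 1 + X 1 * X 0) =
      (a - (α • (X 0 * X 1) + β • (X 1 * X 0))) +
      (rn 2 (Equiv.swap 0 1) a - (α • (X 1 * X 0) + β • (X 0 * X 1))) := by
    simp only [add_smul, smul_add]
    abel
  rw [e]
  exact I.add_mem hr h1

theorem noP2c {I A B C : Submodule ℤ P} (h : Lk 2 I A B C) (hb : Bs 2 I) (h1 : X 0 * X 1 * X 0 ∈ I)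
    (h2 : X 0 ^ 2 * X 1 + X 1 * X 0 ^ 2 ∈ I) : False := by
  have hB := bc_mk hb h1 h2
  have hx := X_mem 0
  have hy := X_mem 1
  obtain ⟨n, a, b, hn, ha, hb', hl, haI, hada, hadb⟩ := nf2 h
  have hp : Nat.Prime 2 := Nat.prime_two
  have hn' : n = 1 ∨ n = 2 ∨ n = 3 ∨ 4 ≤ n := by omega
  rcases hn' with rfl | rfl | rfl | hn4
  · obtain ⟨α, β, hr⟩ := hB.one ha
    obtain ⟨α', β', hr'⟩ := hB.one hb'
    by_cases hα : (2 : ℤ) ∣ α
    · by_cases hα' : (2 : ℤ) ∣ α'
      · refine haI (Lk.np hp h hl (Pp_mul_left (X 0) hx) (bc_span (m := β) hr ?_) (bc_span (m := β') hr' ?_))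
        · rw [add_sub_cancel_right]
          exact hB.even hα hx
        · rw [add_sub_cancel_right]
          exact hB.even hα' hx
      · have hT := hB.xA h.hB h.IB hl.2.1 hr' hα'
        exact haI (h.AB ⟨hl.1, hT (h.hA.le hl.1)⟩)
    · have hT := hB.xA h.hA h.IA hl.1 hr hα
      exact haI ((h.iff hl).2 (h.AB ⟨hT (h.hB.le hl.2.1), hl.2.1⟩))
  · obtain ⟨α, β, γ, δ, hr⟩ := hB.two ha
    obtain ⟨α', β', γ', δ', hr'⟩ := hB.two hb'
    have ka := hB.ad hada hr
    have kb := hB.ad hadb hr'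
    have hS : X 0 * X 1 + X 1 * X 0 ∈ Pp := Pp.add_mem (Pp_mul_left _ hy) (Pp_mul_left _ hx)
    by_cases hs : X 0 * X 1 + X 1 * X 0 ∈ I
    · have red : ∀ u v : ℤ, (u • (X 0 * X 1) + v • (X 1 * X 0)) - (u - v) • (X 0 * X 1) ∈ I := by
        intro u v
        have e : (u • (X 0 * X 1) + v • (X 1 * X 0)) - (u - v) • (X 0 * X 1) =
            v • (X 0 * X 1 + X 1 * X 0 : P) := by
          simp only [sub_smul, smul_add]
          abel
        rw [e]
        exact I.smul_mem _ hs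
      exact haI (Lk.np hp h hl (Pp_mul_left (X 0) hy) (bc_span ka (red α β)) (bc_span kb (red α' β')))
    · have hΦ : TOp 2 (LinearMap.id + tl (rn 2 (Equiv.swap 0 1)) : P →ₗ[ℤ] P) :=
        TOp.add (TOp.id' 2) (TOp_rn 2 2 _)
      have hl' := hl.map h hΦ
      have sa := hB.sym ka
      have sb' := hB.sym kb
      have ia : (LinearMap.id + tl (rn 2 (Equiv.swap 0 1)) : P →ₗ[ℤ] P) a ∈ I := by
        refine Lk.np hp h hl' hS (bc_span (m := α + β) sa ?_) (bc_span (m := α' + β') sb' ?_)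
        · rw [sub_self]
          exact I.zero_mem
        · rw [sub_self]
          exact I.zero_mem
      have ib := (h.iff hl').1 ia
      have par : ∀ {f : P} {u v : ℤ}, (LinearMap.id + tl (rn 2 (Equiv.swap 0 1)) : P →ₗ[ℤ] P) f ∈ I →
          (LinearMap.id + tl (rn 2 (Equiv.swap 0 1)) : P →ₗ[ℤ] P) f - (u + v) • (X 0 * X 1 + X 1 * X 0) ∈ I →
          (u • (X 0 * X 1) + v • (X 1 * X 0)) - u • (X 0 * X 1 + X 1 * X 0) ∈ I := by
        intro f u v hf hfs
        have k1 : (u + v) • (X 0 * X 1 + X 1 * X 0) ∈ I := by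
          have k2 := I.sub_mem hf hfs
          rwa [sub_sub_cancel] at k2
        have k3 : (2 : ℤ) ∣ u + v := by
          by_contra hne
          exact hs (hB.odd le_rfl hne hS k1)
        have e : (u • (X 0 * X 1) + v • (X 1 * X 0)) - u • (X 0 * X 1 + X 1 * X 0) =
            (v - u) • (X 1 * X 0 : P) := by
          simp only [sub_smul, smul_add]
          abel
        rw [e]
        exact hB.even (by omega) (Pp_mul_left _ hx)
      exact haI (Lk.np hp h hl hS (bc_span ka (par ia sa)) (bc_span kb (par ib sb')))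
  · have hmid := mid hB.hI (ε := 1) (Or.inl rfl) (by
      rw [one_smul]
      exact hB.lin hx hy (X_mem 2))
    have hle : Qf 3 ≤ I ⊔ Submodule.span ℤ {f | ∃ k < 3, f = Ym k} :=
      hB.three.trans (sup_le le_sup_left hmid.1)
    have hm : Mul ((2 : ℕ) : ℤ) I := hb.mul
    exact haI (P1 hp h hm (Or.inl rfl) (fun k _ => Ml_Pp (by norm_num) (Ym_Ml k)) hmid.2 (hle ha) (hle hb') hl)
  · have hY : mw n ∈ Pp := by
      unfold mw
      refine mon_mem ?_
      intro h0
      have := congrArg List.length h0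
      rw [List.length_range] at this
      simp at this
      omega
    exact haI (Lk.np hp h hl hY (hB.four hn4 ha) (hB.four hn4 hb'))

end ADP
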