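import Pool.Agent.ADP.Nf2
import Pool.Agent.ADP.K3
import Pool.Agent.AD.Expo

/-!
# ADP-B4: `p = 2`, exponent 4

* `no4s` (`x^2 ∈ I`): `xy + yx ∈ I` (linearise), so exchanging adjacent letters changes the sign, words with a repeated letter are in `I`; `nf2`: `a, b ∈ Qf n`: every word of `Qf n` is in `I` or `≡ ± mw n`: `Lk.np` with `Y = mw n`: `a ∈ I`, contradiction.
In the following `I` is a T-ideal, `4 P⁺ ≤ I`, nilpotent, `2 x^2 ∈ I`, `x^(j+1) ∈ I`, `2x - x^j ∈ I`.  So `2 (xy + yx) ∈ I` (linearise `2 x^2`), so `2 w ∈ I` for every word `w` with a repeated letter (`2 s w' s ≡ -2 s s w' ≡ 0`).  `2xy ≡ (xy)^j` (substitute `x ↦ xy`).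
* `xy_2` (`j = 2`): `(x+y)^2 ≡ 2(x+y)`, so `xy + yx ≡ 0`; `(xy)^2 = x(yx)y ≡ -x(xy)y = -x^2 y^2 ≡ -4xy ≡ 0`; so `2xy ≡ (xy)^2 ≡ 0`.
* `xy_near` (`3 ≤ j`, `[x,y] ∈ I ⊔ 2 P⁺ ⊔ Fge 3`): claim: every word `w` in the letters `0, 1` with `2j + 1 ≤ w.length` is in `I`: downward induction on the length; sort `w`: one exchange `u [x,y] v`, `[x,y] = i + 2g + f`, where (projection on words in exactly the letters 0, 1)
  `i ∈ I`, `g`, `f` combinations of words in exactly `0, 1`, `f ∈ Fge 3`: `u 2g v ∈ I` (repeated letter: `u v` is not empty and `g` contains both letters), `u f v` consists of longer words: in `I` by induction; the sorted word `x^a y^b`, `a + b ≥ 2j+1`, has `a ≥ j+1` or `b ≥ j+1`: in `I`.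
  `(xy)^j`: sort it in the same way: `≡ x^j y^j` modulo `I` (errors: `u 2 g v ∈ I`, `u f v` of length `≥ 2j+1`: in `I`), and `x^j y^j ≡ 2x · 2y = 4xy ≡ 0`.  So `2xy ≡ (xy)^j ∈ I`.
* `xy_c` (`3 ≤ j`, `xyx ∈ I ⊔ 2 P⁺`): `xyx = i + 2g`, `g` a combination of words in exactly the letters 0, 1 (projection): `(xy)^j = xyx · y (xy)^(j-2)`, `2 g y (xy)^(j-2) ∈ I` (repeated letter).
* `xy_a` (`3 ≤ j`, `[x,y]z`, `x^2 y ∈ I ⊔ 2 P⁺ =: J`): `xyxy = [x,y] x y + y x^2 y ∈ J`, `xyxy = i + 2g`, `g` in exactly the letters 0, 1; `(xy)^j = xyxy (xy)^(j-2)`, `j ≥ 3`: `2 g (xy)^(j-2) ∈ I`.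
* `xy_b` (`3 ≤ j`, `x[y,z]`, `y x^2 ∈ J`): `xyxy = (xy)[x,y] + (x y^2) x ∈ J` (`x[y,z] ∈ J` with `x ↦ xy`; `y x^2 ∈ J` renamed).  Then as before.
-/

namespace ADP

open AD ADN ADC

private theorem b4_mem {n : ℕ} {w : List ℕ} (h : n ≤ w.length) : mon w ∈ Fge n :=
  Submodule.subset_span ⟨w, h, rfl⟩

/-- two-sided submodules containing `x_i x_j + x_j x_i`: exchanging letters changes the sign -/
private theorem b4_perm {K : Submodule ℤ P} (hl : ∀ f ∈ K, ∀ g : P, g * f ∈ K) (hr : ∀ f ∈ K, ∀ g : P, f * g ∈ K)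
    (hs : ∀ i j, X i * X j + X j * X i ∈ K) {w v : List ℕ} (h : w.Perm v) :
    mon w - mon v ∈ K ∨ mon w + mon v ∈ K := by
  induction h with
  | nil => left; rw [sub_self]; exact K.zero_mem
  | cons a h ih =>
    rcases ih with ih | ih
    · left
      rw [mon_cons, mon_cons, ← mul_sub]
      exact hl _ ih _
    · right
      rw [mon_cons, mon_cons, ← mul_add]
      exact hl _ ih _
  | swap a b l =>
    right
    have e : mon (b :: a :: l) + mon (a :: b :: l) = (X b * X a + X a * X b) * mon l := by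
      rw [mon_cons, mon_cons, mon_cons, mon_cons, ← mul_assoc, ← mul_assoc, ← add_mul]
    rw [e]
    exact hr _ (hs b a) _
  | trans h1 h2 ih1 ih2 =>
    rename_i l1 l2 l3
    rcases ih1 with ih1 | ih1 <;> rcases ih2 with ih2 | ih2
    · left
      have e : mon l1 - mon l3 = (mon l1 - mon l2) + (mon l2 - mon l3) := by abel
      rw [e]
      exact K.add_mem ih1 ih2
    · right
      have e : mon l1 + mon l3 = (mon l1 - mon l2) + (mon l2 + mon l3) := by abel
      rw [e]
      exact K.add_mem ih1 ih2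
    · right
      have e : mon l1 + mon l3 = (mon l1 + mon l2) - (mon l2 - mon l3) := by abel
      rw [e]
      exact K.sub_mem ih1 ih2
    · left
      have e : mon l1 - mon l3 = (mon l1 + mon l2) - (mon l2 + mon l3) := by abel
      rw [e]
      exact K.sub_mem ih1 ih2

private theorem b4_rep {K : Submodule ℤ P} (hl : ∀ f ∈ K, ∀ g : P, g * f ∈ K) (hr : ∀ f ∈ K, ∀ g : P, f * g ∈ K)
    (hs : ∀ i j, X i * X j + X j * X i ∈ K) (hq : ∀ i, X i * X i ∈ K) {w : List ℕ} {i : ℕ} (hi : 2 ≤ w.count i) :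
    mon w ∈ K := by
  have h1 : i ∈ w := List.count_pos_iff.1 (by omega)
  have h2 : i ∈ w.erase i := List.count_pos_iff.1 (by rw [List.count_erase_self]; omega)
  have h3 : w.Perm (i :: i :: (w.erase i).erase i) :=
    (List.perm_cons_erase h1).trans ((List.perm_cons_erase h2).cons i)
  have h4 : mon (i :: i :: (w.erase i).erase i) ∈ K := by
    rw [mon_cons, mon_cons, ← mul_assoc]
    exact hr _ (hq i) _
  rcases b4_perm hl hr hs h3 with h | h
  · have e : mon w = (mon w - mon (i :: i :: (w.erase i).erase i)) + mon (i :: i :: (w.erase i).erase i) := by abel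
    rw [e]
    exact K.add_mem h h4
  · have e : mon w = (mon w + mon (i :: i :: (w.erase i).erase i)) - mon (i :: i :: (w.erase i).erase i) := by abel
    rw [e]
    exact K.sub_mem h h4

private theorem b4_sq {c : ℤ} {I : Submodule ℤ P} (hI : IsT I) (h : c • X 0 ^ 2 ∈ I) {f : P} (hf : f ∈ Pp) :
    c • (f * f) ∈ I := by
  have h1 := sb_mem hI (φ := fun _ => f) (fun _ => hf) h
  rwa [map_zsmul, map_pow, sb_X, pow_two] at h1

private theorem b4_lin {c : ℤ} {I : Submodule ℤ P} (hI : IsT I) (h : c • X 0 ^ 2 ∈ I) {f g : P} (hf : f ∈ Pp)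
    (hg : g ∈ Pp) : c • (f * g + g * f) ∈ I := by
  have h1 := b4_sq hI h (Pp.add_mem hf hg)
  have h2 := b4_sq hI h hf
  have h3 := b4_sq hI h hg
  have e : c • (f * g + g * f) = c • ((f + g) * (f + g)) - c • (f * f) - c • (g * g) := by
    rw [← smul_sub, ← smul_sub]
    congr 1
    noncomm_ring
  rw [e]
  exact I.sub_mem (I.sub_mem h1 h2) h3

/-- `c w ∈ I` if `w` has a repeated letter, `c x^2 ∈ I` -/
private theorem b4_crep {c : ℤ} {I : Submodule ℤ P} (hI : IsT I) (h : c • X 0 ^ 2 ∈ I) {w : List ℕ} {i : ℕ}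
    (hi : 2 ≤ w.count i) : c • mon w ∈ I := by
  set K : Submodule ℤ P := I.comap (LinearMap.lsmul ℤ P c) with hK
  have hmem : ∀ f, f ∈ K ↔ c • f ∈ I := fun f => Iff.rfl
  have h1 : mon w ∈ K := by
    refine b4_rep (K := K) ?_ ?_ ?_ ?_ hi
    · intro f hf g
      rw [hmem, ← mul_smul_comm]
      exact hI.mul_left _ ((hmem f).1 hf) g
    · intro f hf g
      rw [hmem, ← smul_mul_assoc]
      exact hI.mul_right _ ((hmem f).1 hf) g
    · intro i j
      rw [hmem]
      exact b4_lin hI h (X_mem i) (X_mem j)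
    · intro i
      rw [hmem]
      exact b4_sq hI h (X_mem i)
  exact (hmem _).1 h1

theorem no4s {I A B C : Submodule ℤ P} (h : Lk 2 I A B C) (hx : X 0 ^ 2 ∈ I) : False := by
  have hx1 : (1 : ℤ) • (X 0 : P) ^ 2 ∈ I := by rwa [one_smul]
  have hI := h.hI
  obtain ⟨n, a, b, hn, ha, hb, hl, hna, -, -⟩ := nf2 h
  have key : Qf n ≤ I ⊔ Submodule.span ℤ {mw n} := by
    refine Submodule.span_le.2 ?_
    rintro f ⟨w, hw, rfl⟩
    show mon w ∈ I ⊔ Submodule.span ℤ {mw n}
    rcases Nat.lt_or_ge n w.length with h1 | h1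
    · obtain ⟨i, hi⟩ := fw_rep hw h1
      have h2 := b4_crep hI hx1 hi
      rw [one_smul] at h2
      exact Submodule.mem_sup_left h2
    · have h2 : mw n ∈ I ⊔ Submodule.span ℤ {mw n} :=
        Submodule.mem_sup_right (Submodule.subset_span rfl)
      rcases b4_perm hI.mul_left hI.mul_right (fun i j => by
        have h3 := b4_lin hI hx1 (X_mem i) (X_mem j)
        rwa [one_smul] at h3) (fw_perm hw h1) with h3 | h3
      · have e : mon w = (mon w - mon (List.range n)) + mw n := by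
          unfold mw
          abel
        rw [e]
        exact Submodule.add_mem _ (Submodule.mem_sup_left h3) h2
      · have e : mon w = (mon w + mon (List.range n)) - mw n := by
          unfold mw
          abel
        rw [e]
        exact Submodule.sub_mem _ (Submodule.mem_sup_left h3) h2
  have hY : mw n ∈ Pp := by
    unfold mw
    exact mon_mem (by
      intro h0
      have := congrArg List.length h0
      rw [List.length_range, List.length_nil] at this
      omega)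
  exact hna (h.np Nat.prime_two hl hY (key ha) (key hb))

/-- `2x = x^j` -/
structure Fo (I : Submodule ℤ P) (j : ℕ) : Prop where
  hI : IsT I
  p2 : Mul 4 I
  nil : ∃ N, NilAt I N
  x2 : (2 : ℤ) • X 0 ^ 2 ∈ I
  xj : X 0 ^ (j + 1) ∈ I
  eq : (2 : ℤ) • X 0 - X 0 ^ j ∈ I

/-- `2 w ∈ I` if `w` has a repeated letter -/
theorem Fo.rep {I : Submodule ℤ P} {j : ℕ} (h : Fo I j) {w : List ℕ} {i : ℕ} (hi : 2 ≤ w.count i) :
    (2 : ℤ) • mon w ∈ I := b4_crep h.hI h.x2 hi

private theorem Fo.eqf {I : Submodule ℤ P} {j : ℕ} (h : Fo I j) {f : P} (hf : f ∈ Pp) : (2 : ℤ) • f - f ^ j ∈ I := by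
  have h1 := sb_mem h.hI (φ := fun _ => f) (fun _ => hf) h.eq
  rwa [map_sub, map_zsmul, map_pow, sb_X] at h1

theorem xy_2 {I : Submodule ℤ P} (h : Fo I 2) : (2 : ℤ) • (X 0 * X 1) ∈ I := by
  have hI := h.hI
  have h0 := h.eqf (X_mem 0)
  have h1 := h.eqf (X_mem 1)
  have h01 := h.eqf (Pp.add_mem (X_mem 0) (X_mem 1))
  have hxy := h.eqf (Pp_mul_right (X_mem 0) (X 1))
  have hs : (X 0 : P) * X 1 + X 1 * X 0 ∈ I := by
    have e : (X 0 : P) * X 1 + X 1 * X 0 = ((2 : ℤ) • X 0 - X 0 ^ 2) + ((2 : ℤ) • X 1 - X 1 ^ 2) -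
        ((2 : ℤ) • (X 0 + X 1) - (X 0 + X 1) ^ 2) := by
      noncomm_ring
    rw [e]
    exact I.sub_mem (I.add_mem h0 h1) h01
  have h4 := h.p2 (X 0 * X 1) (Pp_mul_right (X_mem 0) (X 1))
  have e : (2 : ℤ) • ((X 0 : P) * X 1) = ((2 : ℤ) • (X 0 * X 1) - (X 0 * X 1) ^ 2) +
      X 0 * (X 0 * X 1 + X 1 * X 0) * X 1 + ((2 : ℤ) • X 0 - X 0 ^ 2) * X 1 ^ 2 +
      (2 : ℤ) • (X 0 * ((2 : ℤ) • X 1 - X 1 ^ 2)) - (4 : ℤ) • (X 0 * X 1) := by
    noncomm_ring
  rw [e]
  refine I.sub_mem (I.add_mem (I.add_mem (I.add_mem hxy ?_) ?_) ?_) h4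
  · exact hI.mul_right _ (hI.mul_left _ hs _) _
  · exact hI.mul_right _ h0 _
  · exact I.smul_mem _ (hI.mul_left _ h1 _)

private theorem b4_J {I : Submodule ℤ P} {f : P} (hf : f ∈ I ⊔ mulI 2 Pp) :
    ∃ i ∈ I, ∃ h ∈ Pp, f = i + (2 : ℤ) • h := by
  obtain ⟨i, hi, y, hy, rfl⟩ := Submodule.mem_sup.1 hf
  obtain ⟨h, hh, rfl⟩ := expo_mem_mulI.1 hy
  exact ⟨i, hi, h, hh, rfl⟩

private theorem b4_top {I : Submodule ℤ P} (hI : IsT I) (h4 : Mul 4 I) {f : P} (hf : f ∈ I) : wp (fw 2) f ∈ I :=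
  TOp_fw 2 2 I hI (by norm_num; exact h4) f hf

/-- `2 u g v ∈ I` for `g` in exactly the letters `0, 1`, `u v` with a letter `0` or `1` -/
private theorem b4_ugv {I : Submodule ℤ P} {j : ℕ} (h : Fo I j) {g : P} (hg : g ∈ Qf 2) {u v : List ℕ} {i : ℕ}
    (hi : i < 2) (hm : i ∈ u ++ v) : (2 : ℤ) • (mon u * g * mon v) ∈ I := by
  induction hg using Submodule.span_induction with
  | mem g hg =>
    obtain ⟨w, hw, rfl⟩ := hg
    rw [← mon_append, ← mon_append]
    refine h.rep (i := i) ?_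
    have h1 : 1 ≤ w.count i := List.count_pos_iff.2 (hw.2 i hi)
    have h2 : 1 ≤ (u ++ v).count i := List.count_pos_iff.2 hm
    rw [List.count_append] at h2
    rw [List.count_append, List.count_append]
    omega
  | zero => rw [mul_zero, zero_mul, smul_zero]; exact I.zero_mem
  | add x y _ _ hx hy => rw [mul_add, add_mul, smul_add]; exact I.add_mem hx hy
  | smul c x _ hx =>
    rw [mul_smul_comm, smul_mul_assoc, smul_comm]
    exact I.smul_mem _ hx

/-- words in the letters `0, 1` of length at least `m` -/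
private noncomputable def Wt (m : ℕ) : Submodule ℤ P :=
  Submodule.span ℤ {f | ∃ w : List ℕ, (∀ i ∈ w, i < 2) ∧ m ≤ w.length ∧ f = mon w}

private theorem Wt_mem {m : ℕ} {w : List ℕ} (h : ∀ i ∈ w, i < 2) (hl : m ≤ w.length) : mon w ∈ Wt m :=
  Submodule.subset_span ⟨w, h, hl, rfl⟩

private theorem Wt_anti {m n : ℕ} (h : m ≤ n) : Wt n ≤ Wt m := by
  refine Submodule.span_mono ?_
  rintro f ⟨w, hw, hl, rfl⟩
  exact ⟨w, hw, h.trans hl, rfl⟩

private theorem Wt_mul {m : ℕ} {f : P} (hf : f ∈ Wt m) {u v : List ℕ} (hu : ∀ i ∈ u, i < 2) (hv : ∀ i ∈ v, i < 2) :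
    mon u * f * mon v ∈ Wt (u.length + m + v.length) := by
  induction hf using Submodule.span_induction with
  | mem g hg =>
    obtain ⟨w, hw, hl, rfl⟩ := hg
    rw [← mon_append, ← mon_append]
    refine Wt_mem ?_ ?_
    · intro i hi
      rw [List.mem_append, List.mem_append] at hi
      rcases hi with (hi | hi) | hi
      · exact hu i hi
      · exact hw i hi
      · exact hv i hi
    · rw [List.length_append, List.length_append]
      omega
  | zero => rw [mul_zero, zero_mul]; exact Submodule.zero_mem _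
  | add x y _ _ hx hy => rw [mul_add, add_mul]; exact Submodule.add_mem _ hx hy
  | smul c x _ hx =>
    rw [mul_smul_comm, smul_mul_assoc]
    exact Submodule.smul_mem _ _ hx

/-- the normalised form of the hypothesis of `xy_near` -/
private theorem b4_cm {I : Submodule ℤ P} {j : ℕ} (h : Fo I j) (hc : cm 0 1 ∈ I ⊔ mulI 2 Pp ⊔ Fge 3) :
    ∃ i ∈ I, ∃ g ∈ Qf 2, ∃ f ∈ Wt 3, cm 0 1 = i + (2 : ℤ) • g + f := by
  obtain ⟨y, hy, f, hf, he⟩ := Submodule.mem_sup.1 hc
  obtain ⟨i, hi, g, hg, rfl⟩ := b4_J hy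
  refine ⟨wp (fw 2) i, b4_top h.hI h.p2 hi, wp (fw 2) g, wp_mem _ _, wp (fw 2) f, ?_, ?_⟩
  · clear he
    induction hf using Submodule.span_induction with
    | mem f hf =>
      obtain ⟨w, hw, rfl⟩ := hf
      by_cases h1 : fw 2 w
      · rw [wp_pos h1]
        exact Wt_mem h1.1 hw
      · rw [wp_neg h1]
        exact Submodule.zero_mem _
    | zero => rw [map_zero]; exact Submodule.zero_mem _
    | add x y _ _ hx hy => rw [map_add]; exact Submodule.add_mem _ hx hy
    | smul c x _ hx => rw [map_smul]; exact Submodule.smul_mem _ _ hx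
  · rw [← map_smul, ← map_add, ← map_add, he]
    have e : cm 0 1 = mon [0, 1] - mon [1, 0] := by
      unfold cm mon
      simp
    rw [e, map_sub, wp_pos, wp_pos]
    · refine ⟨?_, ?_⟩
      · intro i hi
        fin_cases hi <;> norm_num
      · intro i hi
        interval_cases i <;> simp
    · refine ⟨?_, ?_⟩
      · intro i hi
        fin_cases hi <;> norm_num
      · intro i hi
        interval_cases i <;> simp

/-- exchanging letters costs longer words -/
private theorem b4_near {I : Submodule ℤ P} {j : ℕ} (h : Fo I j) (hc : cm 0 1 ∈ I ⊔ mulI 2 Pp ⊔ Fge 3)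
    {w v : List ℕ} (hp : w.Perm v) : ∀ u : List ℕ, (∀ i ∈ u ++ w, i < 2) → 3 ≤ (u ++ w).length →
    mon (u ++ w) - mon (u ++ v) ∈ I ⊔ Wt ((u ++ w).length + 1) := by
  obtain ⟨i0, hi0, g, hg, f, hf, he⟩ := b4_cm h hc
  have hcm : ∀ a b : ℕ, ∀ u l : List ℕ, (∀ i ∈ u ++ (a :: b :: l), i < 2) → 3 ≤ (u ++ (a :: b :: l)).length →
      mon u * (X a * X b - X b * X a) * mon l ∈ I ⊔ Wt ((u ++ (a :: b :: l)).length + 1) := by
    intro a b u l hlt hlen
    have ha : a < 2 := hlt a (by simp)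
    have hb : b < 2 := hlt b (by simp)
    have hu : ∀ i ∈ u, i < 2 := fun i hi => hlt i (by simp [hi])
    have hl : ∀ i ∈ l, i < 2 := fun i hi => hlt i (by simp [hi])
    have hlen2 : 1 ≤ (u ++ l).length := by
      rw [List.length_append] at hlen ⊢
      simp only [List.length_cons] at hlen
      omega
    have hmain : mon u * cm 0 1 * mon l ∈ I ⊔ Wt ((u ++ (a :: b :: l)).length + 1) := by
      rw [he, mul_add, mul_add, add_mul, add_mul]
      refine Submodule.add_mem _ (Submodule.add_mem _ ?_ ?_) ?_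
      · exact Submodule.mem_sup_left (h.hI.mul_right _ (h.hI.mul_left _ hi0 _) _)
      · rw [mul_smul_comm, smul_mul_assoc]
        obtain ⟨c, hcm⟩ := List.exists_mem_of_length_pos hlen2
        have hc2 : c < 2 := by
          rcases List.mem_append.1 hcm with h1 | h1
          · exact hu c h1
          · exact hl c h1
        exact Submodule.mem_sup_left (b4_ugv h hg hc2 hcm)
      · refine Submodule.mem_sup_right (Wt_anti ?_ (Wt_mul hf hu hl))
        rw [List.length_append]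
        simp only [List.length_cons]
        omega
    have ha' : a = 0 ∨ a = 1 := by omega
    have hb' : b = 0 ∨ b = 1 := by omega
    rcases ha' with rfl | rfl <;> rcases hb' with rfl | rfl
    · rw [sub_self, mul_zero, zero_mul]
      exact Submodule.zero_mem _
    · exact hmain
    · have e : mon u * (X 1 * X 0 - X 0 * X 1) * mon l = -(mon u * cm 0 1 * mon l) := by
        unfold cm
        noncomm_ring
      rw [e]
      exact Submodule.neg_mem _ hmain
    · rw [sub_self, mul_zero, zero_mul]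
      exact Submodule.zero_mem _
  induction hp with
  | nil => intro u _ _; rw [sub_self]; exact Submodule.zero_mem _
  | cons a hp ih =>
    rename_i l1 l2
    intro u hu1 hu2
    have e : ∀ l : List ℕ, u ++ a :: l = (u ++ [a]) ++ l := fun l => by simp
    rw [e l1] at hu1 hu2
    rw [e l1, e l2]
    exact ih (u ++ [a]) hu1 hu2
  | swap a b l =>
    intro u hu1 hu2
    have e : mon (u ++ b :: a :: l) - mon (u ++ a :: b :: l) = mon u * (X b * X a - X a * X b) * mon l := by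
      rw [mon_append, mon_append, mon_cons, mon_cons, mon_cons, mon_cons]
      noncomm_ring
    rw [e]
    exact hcm b a u l hu1 hu2
  | trans h1 h2 ih1 ih2 =>
    rename_i l1 l2 l3
    intro u hu1 hu2
    have hq : (u ++ l2).length = (u ++ l1).length := (h1.append_left u).length_eq.symm
    have h4 := ih1 u hu1 hu2
    have h5 := ih2 u (fun i hi => hu1 i ((h1.append_left u).mem_iff.2 hi)) (by omega)
    rw [hq] at h5
    have e : mon (u ++ l1) - mon (u ++ l3) = (mon (u ++ l1) - mon (u ++ l2)) + (mon (u ++ l2) - mon (u ++ l3)) := by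
      abel
    rw [e]
    exact Submodule.add_mem _ h4 h5

/-- a word in the letters `0, 1` is a permutation of `0 ⋯ 0 1 ⋯ 1` -/
private theorem b4_sort {w : List ℕ} (hw : ∀ i ∈ w, i < 2) :
    w.Perm (List.replicate (w.count 0) 0 ++ List.replicate (w.count 1) 1) := by
  rw [List.perm_iff_count]
  intro a
  rw [List.count_append, List.count_replicate, List.count_replicate]
  rcases Nat.lt_or_ge a 2 with ha | ha
  · interval_cases a <;> simp
  · have h1 : w.count a = 0 := List.count_eq_zero.2 (fun h => by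
      have := hw a h
      omega)
    rw [h1, if_neg (by simp; omega), if_neg (by simp; omega)]

private theorem mon_rep (n a : ℕ) : mon (List.replicate n a) = X a ^ n := by
  unfold mon
  rw [List.map_replicate, List.prod_replicate]

private theorem Fo.pow {I : Submodule ℤ P} {j : ℕ} (h : Fo I j) {n : ℕ} (hn : j + 1 ≤ n) (i : ℕ) : X i ^ n ∈ I := by
  have h1 := sb_mem h.hI (φ := fun _ => X i) (fun _ => X_mem i) h.xj
  rw [map_pow, sb_X] at h1
  have e : (X i : P) ^ n = X i ^ (j + 1) * X i ^ (n - (j + 1)) := by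
    rw [← pow_add]
    congr 1
    omega
  rw [e]
  exact h.hI.mul_right _ h1 _

private theorem b4_long {I : Submodule ℤ P} {j : ℕ} (hj : 3 ≤ j) (h : Fo I j)
    (hc : cm 0 1 ∈ I ⊔ mulI 2 Pp ⊔ Fge 3) : Wt (2 * j + 1) ≤ I := by
  have step : ∀ m, 2 * j + 1 ≤ m → Wt m ≤ I ⊔ Wt (m + 1) := by
    intro m hm
    refine Submodule.span_le.2 ?_
    rintro f ⟨w, hw, hl, rfl⟩
    show mon w ∈ I ⊔ Wt (m + 1)
    have h1 := b4_near h hc (b4_sort hw) [] (by simpa using hw) (by simp; omega)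
    simp only [List.nil_append] at h1
    have h2 : mon (List.replicate (w.count 0) 0 ++ List.replicate (w.count 1) 1) ∈ I := by
      rw [mon_append, mon_rep, mon_rep]
      have h3 := (b4_sort hw).length_eq
      rw [List.length_append, List.length_replicate, List.length_replicate] at h3
      rcases Nat.lt_or_ge (w.count 0) (j + 1) with h4 | h4
      · exact h.hI.mul_left _ (h.pow (by omega) 1) _
      · exact h.hI.mul_right _ (h.pow h4 0) _
    have e : mon w = (mon w - mon (List.replicate (w.count 0) 0 ++ List.replicate (w.count 1) 1)) +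
        mon (List.replicate (w.count 0) 0 ++ List.replicate (w.count 1) 1) := by abel
    rw [e]
    refine Submodule.add_mem _ ?_ (Submodule.mem_sup_left h2)
    exact (sup_le_sup_left (Wt_anti (by omega)) I) h1
  obtain ⟨N, hN⟩ := h.nil
  have key : ∀ k, Wt (2 * j + 1) ≤ I ⊔ Wt (2 * j + 1 + k) := by
    intro k
    induction k with
    | zero => exact le_sup_right
    | succ k ih =>
      refine ih.trans (sup_le le_sup_left ?_)
      have h5 := step (2 * j + 1 + k) (by omega)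
      exact h5
  refine (key N).trans (sup_le le_rfl ?_)
  refine Submodule.span_le.2 ?_
  rintro f ⟨w, hw, hl, rfl⟩
  exact hN w (by omega)

private theorem b4_w1 (k : ℕ) : (X 0 * X 1 : P) ^ k = mon ((List.replicate k [0, 1]).flatten) := by
  induction k with
  | zero => rw [pow_zero, List.replicate_zero, List.flatten_nil, mon_nil]
  | succ k ih =>
    rw [pow_succ', ih, List.replicate_succ, List.flatten_cons, mon_append]
    simp [mon]

private theorem b4_w1len (k : ℕ) : ((List.replicate k [0, 1]).flatten).length = 2 * k := by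
  rw [List.length_flatten, List.map_replicate, List.sum_replicate]
  have : [0, 1].length = 2 := rfl
  rw [this, smul_eq_mul]
  omega

private theorem b4_w1lt (k : ℕ) : ∀ i ∈ (List.replicate k [0, 1]).flatten, i < 2 := by
  intro i hi
  obtain ⟨l, hl, hi⟩ := List.mem_flatten.1 hi
  rw [List.eq_of_mem_replicate hl] at hi
  fin_cases hi <;> norm_num

private theorem b4_w1c (k : ℕ) : ((List.replicate k [0, 1]).flatten).count 0 = k ∧
    ((List.replicate k [0, 1]).flatten).count 1 = k := by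
  induction k with
  | zero => exact ⟨rfl, rfl⟩
  | succ k ih =>
    rw [List.replicate_succ, List.flatten_cons, List.count_append, List.count_append, ih.1, ih.2]
    constructor
    · have : List.count 0 [0, 1] = 1 := rfl
      omega
    · have : List.count 1 [0, 1] = 1 := rfl
      omega

private theorem Fo.fin {I : Submodule ℤ P} {j : ℕ} (h : Fo I j) (hj : (X 0 * X 1 : P) ^ j ∈ I) :
    (2 : ℤ) • (X 0 * X 1) ∈ I := by
  have h1 := h.eqf (Pp_mul_right (X_mem 0) (X 1))
  have e : (2 : ℤ) • (X 0 * X 1 : P) = ((2 : ℤ) • (X 0 * X 1) - (X 0 * X 1) ^ j) + (X 0 * X 1) ^ j := by abel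
  rw [e]
  exact I.add_mem h1 hj

theorem xy_near {I : Submodule ℤ P} {j : ℕ} (hj : 3 ≤ j) (h : Fo I j) (hc : cm 0 1 ∈ I ⊔ mulI 2 Pp ⊔ Fge 3) :
    (2 : ℤ) • (X 0 * X 1) ∈ I := by
  refine h.fin ?_
  have hw := b4_w1lt j
  have h1 := b4_near h hc (b4_sort hw) [] (by simpa using hw) (by
    rw [List.nil_append, b4_w1len]
    omega)
  simp only [List.nil_append] at h1
  rw [b4_w1len, (b4_w1c j).1, (b4_w1c j).2, sup_eq_left.2 (b4_long hj h hc), mon_append, mon_rep, mon_rep,
    ← b4_w1] at h1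
  have h2 := h.eqf (X_mem 0)
  have h3 := h.eqf (X_mem 1)
  have h4 := h.p2 (X 0 * X 1) (Pp_mul_right (X_mem 0) (X 1))
  have e : (X 0 * X 1 : P) ^ j = ((X 0 * X 1) ^ j - X 0 ^ j * X 1 ^ j) - ((2 : ℤ) • X 0 - X 0 ^ j) * X 1 ^ j -
      (2 : ℤ) • (X 0 * ((2 : ℤ) • X 1 - X 1 ^ j)) + (4 : ℤ) • (X 0 * X 1) := by
    rw [sub_mul, mul_sub, smul_sub, mul_smul_comm, smul_smul, smul_mul_assoc]
    norm_num
  rw [e]
  refine I.add_mem (I.sub_mem (I.sub_mem h1 ?_) ?_) h4
  · exact h.hI.mul_right _ h2 _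
  · exact I.smul_mem _ (h.hI.mul_left _ h3 _)

/-- `f v ∈ I` for `f ∈ J` in exactly the letters `0, 1`, `v` a word with the letter `1` -/
private theorem b4_fv {I : Submodule ℤ P} {j : ℕ} (h : Fo I j) {f : P} (hf : f ∈ I ⊔ mulI 2 Pp) (hf2 : f ∈ Qf 2)
    {v : List ℕ} (hv : 1 ∈ v) : f * mon v ∈ I := by
  obtain ⟨i, hi, g, hg, he⟩ := b4_J hf
  have h1 : f = wp (fw 2) i + (2 : ℤ) • wp (fw 2) g := by
    rw [← map_smul, ← map_add, ← he, Qf_iff.1 hf2]
  rw [h1, add_mul, smul_mul_assoc]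
  refine I.add_mem (h.hI.mul_right _ (b4_top h.hI h.p2 hi) _) ?_
  have h2 := b4_ugv h (g := wp (fw 2) g) (wp_mem _ _) (u := []) (v := v) (i := 1) (by norm_num) (by simpa using hv)
  rwa [mon_nil, one_mul] at h2

theorem xy_c {I : Submodule ℤ P} {j : ℕ} (hj : 3 ≤ j) (h : Fo I j) (hc : X 0 * X 1 * X 0 ∈ I ⊔ mulI 2 Pp) :
    (2 : ℤ) • (X 0 * X 1) ∈ I := by
  refine h.fin ?_
  obtain ⟨k, rfl⟩ : ∃ k, j = k + 2 := ⟨j - 2, by omega⟩
  have e : (X 0 * X 1 : P) ^ (k + 2) = (X 0 * X 1 * X 0) * mon (1 :: (List.replicate k [0, 1]).flatten) := by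
    rw [mon_cons, ← b4_w1, pow_succ', pow_succ']
    noncomm_ring
  rw [e]
  refine b4_fv h hc ?_ (by simp)
  have e1 : (X 0 * X 1 * X 0 : P) = mon [0, 1, 0] := by
    simp [mon, mul_assoc]
  rw [e1]
  refine Submodule.subset_span ⟨[0, 1, 0], ⟨?_, ?_⟩, rfl⟩
  · intro i hi
    fin_cases hi <;> norm_num
  · intro i hi
    interval_cases i <;> simp

private theorem b4_xyxy {I : Submodule ℤ P} {j : ℕ} (hj : 3 ≤ j) (h : Fo I j)
    (hc : X 0 * X 1 * X 0 * X 1 ∈ I ⊔ mulI 2 Pp) : (2 : ℤ) • (X 0 * X 1) ∈ I := by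
  refine h.fin ?_
  obtain ⟨k, rfl⟩ : ∃ k, j = k + 3 := ⟨j - 3, by omega⟩
  have e : (X 0 * X 1 : P) ^ (k + 3) = (X 0 * X 1 * X 0 * X 1) * mon ((List.replicate (k + 1) [0, 1]).flatten) := by
    rw [← b4_w1, pow_succ', pow_succ' _ (k + 1)]
    noncomm_ring
  rw [e]
  refine b4_fv h hc ?_ (List.count_pos_iff.1 (by rw [(b4_w1c (k + 1)).2]; omega))
  have e1 : (X 0 * X 1 * X 0 * X 1 : P) = mon [0, 1, 0, 1] := by
    simp [mon, mul_assoc]
  rw [e1]
  refine Submodule.subset_span ⟨[0, 1, 0, 1], ⟨?_, ?_⟩, rfl⟩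
  · intro i hi
    fin_cases hi <;> norm_num
  · intro i hi
    interval_cases i <;> simp

theorem xy_a {I : Submodule ℤ P} {j : ℕ} (hj : 3 ≤ j) (h : Fo I j) (hc : g3 ∈ I ⊔ mulI 2 Pp)
    (hs : X 0 ^ 2 * X 1 ∈ I ⊔ mulI 2 Pp) : (2 : ℤ) • (X 0 * X 1) ∈ I := by
  refine b4_xyxy hj h ?_
  have hJ : IsT (I ⊔ mulI 2 Pp) := isT_sup h.hI (isT_mulI isT_Pp 2)
  have h1 := sb_mem hJ (φ := fun i => if i = 2 then X 0 else X i) (by
    intro i
    split_ifs
    · exact X_mem 0
    · exact X_mem i) hc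
  unfold g3 at h1
  simp only [map_mul, map_sub, sb_X] at h1
  norm_num at h1
  have e : (X 0 * X 1 * X 0 * X 1 : P) = (X 0 * X 1 - X 1 * X 0) * X 0 * X 1 + X 1 * (X 0 ^ 2 * X 1) := by
    noncomm_ring
  rw [e]
  exact Submodule.add_mem _ (hJ.mul_right _ h1 _) (hJ.mul_left _ hs _)

theorem xy_b {I : Submodule ℤ P} {j : ℕ} (hj : 3 ≤ j) (h : Fo I j) (hc : g3' ∈ I ⊔ mulI 2 Pp)
    (hs : X 1 * X 0 ^ 2 ∈ I ⊔ mulI 2 Pp) : (2 : ℤ) • (X 0 * X 1) ∈ I := by
  refine b4_xyxy hj h ?_
  have hJ : IsT (I ⊔ mulI 2 Pp) := isT_sup h.hI (isT_mulI isT_Pp 2)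
  have h1 := sb_mem hJ (φ := fun i => if i = 0 then X 0 * X 1 else if i = 1 then X 0 else X 1) (by
    intro i
    split_ifs
    · exact Pp_mul_right (X_mem 0) _
    · exact X_mem 0
    · exact X_mem 1) hc
  have h2 := sb_mem hJ (φ := fun i => if i = 0 then X 1 else X 0) (by
    intro i
    split_ifs
    · exact X_mem 1
    · exact X_mem 0) hs
  unfold g3' at h1
  simp only [map_mul, map_sub, map_pow, sb_X] at h1 h2
  norm_num at h1 h2
  have e : (X 0 * X 1 * X 0 * X 1 : P) = X 0 * X 1 * (X 0 * X 1 - X 1 * X 0) + (X 0 * X 1 ^ 2) * X 0 := by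
    noncomm_ring
  rw [e]
  exact Submodule.add_mem _ h1 (hJ.mul_right _ h2 _)

end ADP
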