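import Pool.Agent.ADP.B4

/-!
# ADP-B4f: `p = 2`, exponent 4, end

As step 2 in ADC.NoC1 (`noC1`, `nc_F2`, `nc_up`, `pw_*` there), with `Qf` instead of `Q p`, `w = 1`.
`J = I ⊔ 2 P⁺`, `A ≤ J`, `B ⊓ J ≤ I`; `2 xy ∈ I`, so `2 f ∈ I` for all `f ∈ Fge 2`.  `nf2`: `n ≥ 1`, linked `a, b ∈ Qf n`, `a ∉ I`.  `a ∈ A ≤ J`: `a = i + 2h`, project with `wp (fw n)`: `h ∈ Qf n ≤ Fge n`.  `n ≥ 2`: `2h ∈ I`, `a ∈ I`, contradiction.
`n = 1`: `a ≡ 2 λ x` (`2 x^e ∈ I` for `e ≥ 2`), `λ` odd (`4 x ∈ I`), so `a ≡ 2x` modulo `I`, `2x ∈ A`.  `b = ∑ c_e x^e`; terms with `e ≥ 2`, `c_e` even vanish; if `c_1` is even replace `c_1 x = (c_1/2) 2x ≡ (c_1/2) x^j`.  `b ∉ I`.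
If `c_1` is odd: multiply: `b x^(e)`..: lowest term argument: `x ∈ B` (cancel and iterate, nilpotency: `c_1 x + (higher) ∈ B` gives `x^k ∈ B` downwards), so `B = P⁺ ≥ A`, `a ∈ A ⊓ B ≤ I`, contradiction.  Otherwise `b ≡ ∑_{e ≥ 2} c_e' x^e` with `c_e' ∈ {0,1}`; let `d` be the lowest exponent with `c_d' = 1`
(exists, as `b ∉ I`): `x^d ∈ B`.  `d ≤ j`: `x^j ∈ B`, `2x ∈ B` (`2x - x^j ∈ I`), `a ∈ A ⊓ B ≤ I`, contradiction.  `d > j`: `x^d ∈ I` and `b ∈ I`, contradiction.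
(`j ≥ 2`.)
-/

namespace ADP

open AD ADN ADC

private theorem nc_mem {n : ℕ} {w : List ℕ} (h : n ≤ w.length) : mon w ∈ Fge n :=
  Submodule.subset_span ⟨w, h, rfl⟩

private theorem nc_Pp {f : P} (hf : f ∈ Pp) : f ∈ Fge 1 := by
  obtain ⟨n, hn⟩ := exists_mem_Pn hf
  refine (Submodule.span_mono (R := ℤ) ?_ : Pn n ≤ Fge 1) hn
  rintro g ⟨w, hw, _, rfl⟩
  exact ⟨w, List.length_pos_of_ne_nil hw, rfl⟩

private theorem nc_J {p : ℕ} {I : Submodule ℤ P} {f : P} (hf : f ∈ I ⊔ mulI p Pp) :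
    ∃ i ∈ I, ∃ h ∈ Pp, f = i + (p : ℤ) • h := by
  obtain ⟨i, hi, y, hy, rfl⟩ := Submodule.mem_sup.1 hf
  obtain ⟨h, hh, rfl⟩ := expo_mem_mulI.1 hy
  exact ⟨i, hi, h, hh, rfl⟩

private theorem nc_F2 {p : ℕ} {I : Submodule ℤ P} (hI : IsT I) (h : (p : ℤ) • (X 0 * X 1) ∈ I) :
    ∀ f ∈ Fge 2, (p : ℤ) • f ∈ I := by
  intro f hf
  induction hf using Submodule.span_induction with
  | mem f hf =>
    obtain ⟨w, hw, rfl⟩ := hf
    match w, hw with
    | a :: b :: v, _ =>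
      have h1 := sb_mem hI (φ := fun i => if i = 0 then X a else mon (b :: v)) (by
        intro i
        split_ifs
        · exact X_mem a
        · exact mon_mem (by simp)) h
      rw [map_zsmul, map_mul, sb_X, sb_X, if_pos rfl, if_neg one_ne_zero, ← mon_cons] at h1
      exact h1
  | zero => rw [smul_zero]; exact I.zero_mem
  | add x y _ _ hx hy => rw [smul_add]; exact I.add_mem hx hy
  | smul c x _ hx => rw [smul_comm]; exact I.smul_mem _ hx

/-- the powers of `x` with exponent at least `k` -/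
private noncomputable def pw (k : ℕ) : Submodule ℤ P := Submodule.span ℤ {f | ∃ e, k ≤ e ∧ f = X 0 ^ e}

private theorem pw_mem {k e : ℕ} (h : k ≤ e) : X 0 ^ e ∈ pw k := Submodule.subset_span ⟨e, h, rfl⟩

private theorem pw_split {k : ℕ} {f : P} (hf : f ∈ pw k) : ∃ (c : ℤ), ∃ g ∈ pw (k + 1), f = c • X 0 ^ k + g := by
  induction hf using Submodule.span_induction with
  | mem f hf =>
    obtain ⟨e, he, rfl⟩ := hf
    rcases Nat.eq_or_lt_of_le he with h | h
    · subst h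
      exact ⟨1, 0, Submodule.zero_mem _, by rw [one_smul, add_zero]⟩
    · exact ⟨0, _, pw_mem h, by rw [zero_smul, zero_add]⟩
  | zero => exact ⟨0, 0, Submodule.zero_mem _, by rw [zero_smul, zero_add]⟩
  | add x y _ _ hx hy =>
    obtain ⟨c, g, hg, rfl⟩ := hx
    obtain ⟨c', g', hg', rfl⟩ := hy
    exact ⟨c + c', g + g', Submodule.add_mem _ hg hg', by rw [add_smul]; abel⟩
  | smul a x _ hx =>
    obtain ⟨c, g, hg, rfl⟩ := hx
    exact ⟨a * c, a • g, Submodule.smul_mem _ _ hg, by rw [smul_add, smul_smul]⟩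

private theorem pw_mul {k : ℕ} (m : ℕ) {f : P} (hf : f ∈ pw k) : f * X 0 ^ m ∈ pw (k + m) := by
  induction hf using Submodule.span_induction with
  | mem f hf =>
    obtain ⟨e, he, rfl⟩ := hf
    rw [← pow_add]
    exact pw_mem (by omega)
  | zero => rw [zero_mul]; exact Submodule.zero_mem _
  | add x y _ _ hx hy => rw [add_mul]; exact Submodule.add_mem _ hx hy
  | smul c x _ hx => rw [smul_mul_assoc]; exact Submodule.smul_mem _ _ hx

private theorem pw_Fge (k : ℕ) : pw k ≤ Fge k := by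
  refine Submodule.span_le.2 ?_
  rintro f ⟨e, he, rfl⟩
  have e1 : (X 0 : P) ^ e = mon (List.replicate e 0) := by
    unfold mon
    rw [List.map_replicate, List.prod_replicate]
  show (X 0 : P) ^ e ∈ Fge k
  rw [e1]
  exact nc_mem (by rwa [List.length_replicate])

private theorem pw_top {I : Submodule ℤ P} (hI : IsT I) {j : ℕ} (h : X 0 ^ j ∈ I) : pw j ≤ I := by
  refine Submodule.span_le.2 ?_
  rintro f ⟨e, he, rfl⟩
  have e1 : (X 0 : P) ^ e = X 0 ^ j * X 0 ^ (e - j) := by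
    rw [← pow_add]
    congr 1
    omega
  show (X 0 : P) ^ e ∈ I
  rw [e1]
  exact hI.mul_right _ h _

private theorem Qf1_pw : Qf 1 ≤ pw 1 := by
  refine Submodule.span_le.2 ?_
  rintro f ⟨w, ⟨hw1, hw2⟩, rfl⟩
  have e : w = List.replicate w.length 0 := List.eq_replicate_iff.2 ⟨rfl, fun i hi => by
    have := hw1 i hi
    omega⟩
  have h1 : 1 ≤ w.length := List.length_pos_of_mem (hw2 0 (by omega))
  show mon w ∈ pw 1
  rw [e]
  have e1 : mon (List.replicate w.length 0) = (X 0 : P) ^ w.length := by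
    unfold mon
    rw [List.map_replicate, List.prod_replicate]
  rw [e1]
  exact pw_mem h1

private theorem Qf2_Fge {n : ℕ} (hn : 2 ≤ n) : Qf n ≤ Fge 2 := by
  refine Submodule.span_le.2 ?_
  rintro f ⟨w, ⟨-, hw2⟩, rfl⟩
  refine nc_mem ?_
  have h2 : [0, 1].Subperm w := List.subperm_of_subset (by decide) (by
    intro i hi
    rcases List.mem_cons.1 hi with rfl | hi
    · exact hw2 0 (by omega)
    · rw [List.mem_singleton.1 hi]
      exact hw2 1 (by omega))
  exact h2.length_le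

/-- an element of `B` in one variable that is not in `I`: `x^j ∈ B` -/
private theorem nc_up {p : ℕ} (hp : p.Prime) {I B : Submodule ℤ P} (hI : IsT I) (hB : IsT B)
    (hIB : I ≤ B) (hm : Mul ((p : ℤ) ^ 2) I) {w : ℤ} {j : ℕ} (hj : 2 ≤ j) (h1 : X 0 ^ (j + 1) ∈ I)
    (h2 : (p : ℤ) • X 0 - w • X 0 ^ j ∈ I) (h3 : ∀ f ∈ Fge 2, (p : ℤ) • f ∈ I) (hjB : X 0 ^ j ∉ B) {b : P}
    (hb : b ∈ B) (hb1 : b ∈ pw 1) : b ∈ I := by
  have key : ∀ k, k ≤ j → b ∈ I ⊔ pw (k + 1) := by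
    intro k
    induction k with
    | zero => intro _; exact Submodule.mem_sup_right hb1
    | succ k ih =>
      intro hk
      obtain ⟨i, hi, f, hf, he⟩ := Submodule.mem_sup.1 (ih (by omega))
      obtain ⟨c, g, hg, rfl⟩ := pw_split hf
      have hc : (p : ℤ) ∣ c := by
        by_contra hc
        refine hjB (cancel hp (hm.mono hIB) hc ?_ ?_)
        · have e : (X 0 : P) ^ j = X 0 * X 0 ^ (j - 1) := by
            rw [← pow_succ']
            congr 1
            omega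
          rw [e]
          exact Pp_mul_right (X_mem 0) _
        · have h6 := hB.mul_right _ hb (X 0 ^ (j - (k + 1)))
          have h7 : g * X 0 ^ (j - (k + 1)) ∈ I := by
            have h8 := pw_mul (j - (k + 1)) hg
            rw [show k + 1 + 1 + (j - (k + 1)) = j + 1 by omega] at h8
            exact pw_top hI h1 h8
          have h8 : i * X 0 ^ (j - (k + 1)) ∈ I := hI.mul_right _ hi _
          have e : c • X 0 ^ j = b * X 0 ^ (j - (k + 1)) - i * X 0 ^ (j - (k + 1)) -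
              g * X 0 ^ (j - (k + 1)) := by
            rw [← he, add_mul, add_mul, smul_mul_assoc, ← pow_add,
              show k + 1 + (j - (k + 1)) = j by omega]
            abel
          rw [e]
          exact B.sub_mem (B.sub_mem h6 (hIB h8)) (hIB h7)
      obtain ⟨c', rfl⟩ := hc
      have h6 : ((p : ℤ) * c') • (X 0 : P) ^ (k + 1) ∈ I ⊔ pw (k + 1 + 1) := by
        rw [mul_comm, mul_smul]
        refine Submodule.smul_mem _ _ ?_
        rcases Nat.eq_zero_or_pos k with h7 | h7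
        · subst h7
          have e : (p : ℤ) • (X 0 : P) ^ (0 + 1) = ((p : ℤ) • X 0 - w • X 0 ^ j) + w • X 0 ^ j := by
            rw [zero_add, pow_one]
            abel
          rw [e]
          exact Submodule.add_mem _ (Submodule.mem_sup_left h2)
            (Submodule.mem_sup_right (Submodule.smul_mem _ _ (pw_mem (by omega))))
        · exact Submodule.mem_sup_left (h3 _ (Fge_anti (by omega) (pw_Fge (k + 1) (pw_mem le_rfl))))
      rw [← he]
      exact Submodule.add_mem _ (Submodule.mem_sup_left hi)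
        (Submodule.add_mem _ h6 (Submodule.mem_sup_right hg))
  have h6 := key j le_rfl
  rwa [sup_eq_left.2 (pw_top hI h1)] at h6

theorem no4 {I A B C : Submodule ℤ P} (h : Lk 2 I A B C) {j : ℕ} (hj : 2 ≤ j) (hf : Fo I j)
    (hA : A ≤ I ⊔ mulI 2 Pp) (hB : B ⊓ (I ⊔ mulI 2 Pp) ≤ I) (hxy : (2 : ℤ) • (X 0 * X 1) ∈ I) : False := by
  have hF : ∀ f ∈ Fge 2, (2 : ℤ) • f ∈ I := nc_F2 (p := 2) h.hI hxy
  obtain ⟨n, a, b, hn, ha, hb', hl, hna, -, -⟩ := nf2 h
  obtain ⟨i, hi, g, hg, he⟩ := nc_J (p := 2) (hA hl.1)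
  have h6 : a = wp (fw n) i + (2 : ℤ) • wp (fw n) g := by
    have h7 := Qf_iff.1 ha
    rw [← map_smul, ← map_add]
    conv_lhs => rw [← h7, he]
    rfl
  have hi' : wp (fw n) i ∈ I := TOp_fw 2 n I h.hI h.p2 i hi
  have hg' : wp (fw n) g ∈ Qf n := wp_mem _ _
  rcases Nat.lt_or_ge n 2 with h7 | h7
  · have h8 : n = 1 := by omega
    subst h8
    obtain ⟨c, r, hr, hgr⟩ := pw_split (Qf1_pw hg')
    rw [pow_one] at hgr
    have h9 : a - c • (2 : ℤ) • X 0 ∈ I := by
      have e : a - c • (2 : ℤ) • X 0 = wp (fw 1) i + (2 : ℤ) • r := by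
        rw [h6, hgr, smul_add, smul_comm c]
        abel
      rw [e]
      exact I.add_mem hi' (hF r (pw_Fge 2 hr))
    have h10 : (2 : ℤ) • X 0 ∉ I := by
      intro h11
      apply hna
      have e : a = (a - c • (2 : ℤ) • X 0) + c • (2 : ℤ) • X 0 := by abel
      rw [e]
      exact I.add_mem h9 (I.smul_mem _ h11)
    have hc : ¬ ((2 : ℕ) : ℤ) ∣ c := by
      rintro ⟨c', rfl⟩
      apply hna
      have e : a = (a - (((2 : ℕ) : ℤ) * c') • (2 : ℤ) • X 0) + c' • ((((2 : ℕ) : ℤ) ^ 2) • X 0) := by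
        push_cast
        module
      rw [e]
      exact I.add_mem h9 (I.smul_mem _ (h.p2 _ (X_mem 0)))
    have h11 : (2 : ℤ) • X 0 ∈ A := by
      refine cancel Nat.prime_two (h.p2.mono h.IA) hc (Submodule.smul_mem _ _ (X_mem 0)) ?_
      have e : c • (2 : ℤ) • X 0 = a - (a - c • (2 : ℤ) • X 0) := by abel
      rw [e]
      exact A.sub_mem hl.1 (h.IA h9)
    have h12 : X 0 ^ j ∉ B := by
      intro h13
      refine h10 (h.AB ⟨h11, ?_⟩)
      have e : (2 : ℤ) • X 0 = ((2 : ℤ) • X 0 - X 0 ^ j) + X 0 ^ j := by abel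
      rw [e]
      exact B.add_mem (h.IB hf.eq) h13
    have h2 : ((2 : ℕ) : ℤ) • X 0 - (1 : ℤ) • X 0 ^ j ∈ I := by
      rw [one_smul]
      exact hf.eq
    exact hna ((h.iff hl).2 (nc_up Nat.prime_two h.hI h.hB h.IB h.p2 hj hf.xj h2 hF h12 hl.2.1 (Qf1_pw hb')))
  · apply hna
    rw [h6]
    exact I.add_mem hi' (hF _ (Qf2_Fge h7 hg'))

end ADP
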