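import Pool.Agent.ADP.Base
import Pool.Agent.ADC.Bas

/-!
# ADP-C1a

`p x² ∈ I`, `p² Pp ≤ I`: linearise: `p (xy + yx) ∈ I`.  Then for `x, y, z ∈ Pp`: `p x (yz) ≡ - p (yz) x` and `p y z x ≡ - p y x z ≡ p x y z`
(`zx ≡ - xz`, `yx ≡ -xy` after multiplication by `p`): `p xyz ≡ - p xyz`, `2 p xyz ∈ I`, cancel 2: `p xyz ∈ I`; so `p f ∈ I` for
`f ∈ Fge 3`.
-/

namespace ADP

open AD ADN ADC

private theorem c1_two {p : ℕ} {I : Submodule ℤ P} (hI : IsT I) (h : (p : ℤ) • X 0 ^ 2 ∈ I) {f g : P}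
    (hf : f ∈ Pp) (hg : g ∈ Pp) : (p : ℤ) • (f * g + g * f) ∈ I := by
  have key : ∀ u ∈ Pp, (p : ℤ) • (u * u) ∈ I := by
    intro u hu
    have h1 := sb_mem hI (φ := fun _ => u) (fun _ => hu) h
    rw [map_zsmul, map_pow, sb_X, pow_two] at h1
    exact h1
  have h1 := key (f + g) (Submodule.add_mem _ hf hg)
  have e : (p : ℤ) • (f * g + g * f) = (p : ℤ) • ((f + g) * (f + g)) - (p : ℤ) • (f * f) - (p : ℤ) • (g * g) := by
    rw [← smul_sub, ← smul_sub]
    congr 1
    noncomm_ring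
  rw [e]
  exact I.sub_mem (I.sub_mem h1 (key f hf)) (key g hg)

theorem C1a {p : ℕ} (hp : p.Prime) (h5 : 3 ≤ p) {I : Submodule ℤ P} (hI : IsT I) (h2 : Mul ((p : ℤ) ^ 2) I)
    (h : (p : ℤ) • X 0 ^ 2 ∈ I) :
    (p : ℤ) • (X 0 * X 1 + X 1 * X 0) ∈ I ∧ ∀ f ∈ Fge 3, (p : ℤ) • f ∈ I := by
  refine ⟨c1_two hI h (X_mem 0) (X_mem 1), ?_⟩
  intro f hf
  induction hf using Submodule.span_induction with
  | mem f hf =>
    obtain ⟨w, hw, rfl⟩ := hf
    match w, hw with
    | a :: b :: c :: t, _ =>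
      have hz : mon (c :: t) ∈ Pp := mon_mem (by simp)
      have hx := X_mem a
      have hy := X_mem b
      rw [mon_cons, mon_cons]
      generalize mon (c :: t) = z at hz
      have e1 := c1_two hI h hx (Pp_mul_left (X b) hz)
      have e2 := hI.mul_left _ (c1_two hI h hz hx) (X b)
      have e3 := hI.mul_right _ (c1_two hI h hy hx) z
      have e : (2 : ℤ) • ((p : ℤ) • (X a * (X b * z))) = (p : ℤ) • (X a * (X b * z) + X b * z * X a) -
          X b * ((p : ℤ) • (z * X a + X a * z)) + (p : ℤ) • (X b * X a + X a * X b) * z := by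
        rw [mul_smul_comm, smul_mul_assoc, smul_comm, ← smul_sub, ← smul_add]
        congr 1
        noncomm_ring
      refine cancel hp h2 (c := 2) ?_ (Pp.smul_mem _ (Pp_mul_left _ (Pp_mul_left _ hz))) ?_
      · intro hd
        have := Int.le_of_dvd (by norm_num) hd
        omega
      · rw [e]
        exact I.add_mem (I.sub_mem e1 e2) e3
  | zero => rw [smul_zero]; exact I.zero_mem
  | add x y _ _ hx hy => rw [smul_add]; exact I.add_mem hx hy
  | smul c x _ hx => rw [smul_comm]; exact I.smul_mem _ hx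

end ADP
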