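import Pool.Agent.ADP.Ty

/-!
# ADP-C1w3: the words `(xy)^3` and `x (yx)^2`

For `Ty J` (`Bt 3 J`): `(xy)^3 ∈ J`, and if `x^3 ∈ J` then `x (yx)^2 ∈ J`.
`g1`: `Fge 5 ≤ J`.  `g4`: `Fge 4 ≤ J`.  `Cn 4 ≤ J` (`g2`, `g5`): `(xy)^3 ≡ x^3 y y y` (`perm_Cn`), in `J` (`X 0 ^ 3 * X 1 * X 2 ∈ J`); `xyxyx ≡ x^3 y^2 ∈ J` if `x^3 ∈ J`.
`g3`: modulo `J` words of length `≥ 2` depend only on the content and the last letter (`Dn 3 ≤ J`: `u [x_i,x_j] v ∈ J` for `v ≠ []`; `perm_Dn`): `xyxyxy ≡ xxxyyy`, in `J`; `xyxyx ≡ yyxxx ∈ J`.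
`c1w3_op`: for `Ty (op J)`: `(xy)^3 ∈ op J`, i.e. `(yx)^3 ∈ J`, rename; `x(yx)^2` is a palindrome.
-/

namespace ADP

open AD ADN ADC

private theorem c3_m1 : (X 0 * X 1) ^ 3 = mon [0, 1, 0, 1, 0, 1] := by
  simp only [mon_cons, mon_nil, mul_one, pow_succ, pow_zero, one_mul, mul_assoc]

private theorem c3_m2 : X 0 * (X 1 * X 0) ^ (3 - 1) = mon [0, 1, 0, 1, 0] := by
  simp only [mon_cons, mon_nil, mul_one, Nat.reduceSub, pow_succ, pow_zero, one_mul, mul_assoc]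

private theorem c3_X {J : Submodule ℤ P} (hJ : IsT J) (hx : X 0 ^ 3 * X 1 * X 2 ∈ J) :
    mon [0, 0, 0, 1, 1, 1] ∈ J := by
  have h1 := sb_mem hJ (φ := fun k => if k = 0 then X 0 else X 1) (by
    intro k
    split_ifs
    · exact X_mem 0
    · exact X_mem 1) hx
  have h2 : sb (fun k => if k = 0 then X 0 else X 1) (X 0 ^ 3 * X 1 * X 2) = X 0 ^ 3 * X 1 * X 1 := by
    rw [map_mul, map_mul, map_pow, sb_X, sb_X, sb_X]
    simp
  rw [h2] at h1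
  have h3 := hJ.mul_right _ h1 (X 1)
  have h4 : mon [0, 0, 0, 1, 1, 1] = X 0 ^ 3 * X 1 * X 1 * X 1 := by
    simp only [mon_cons, mon_nil, mul_one, pow_succ, pow_zero, one_mul, mul_assoc]
  rw [h4]
  exact h3

private theorem c3_Y {J : Submodule ℤ P} (hJ : IsT J) (hx : X 0 ^ 3 ∈ J) :
    mon [0, 0, 0, 1, 1] ∈ J ∧ mon [1, 1, 0, 0, 0] ∈ J := by
  have h4 : mon [0, 0, 0, 1, 1] = X 0 ^ 3 * (X 1 * X 1) := by
    simp only [mon_cons, mon_nil, mul_one, pow_succ, pow_zero, one_mul, mul_assoc]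
  have h5 : mon [1, 1, 0, 0, 0] = (X 1 * X 1) * X 0 ^ 3 := by
    simp only [mon_cons, mon_nil, mul_one, pow_succ, pow_zero, one_mul, mul_assoc]
  rw [h4, h5]
  exact ⟨hJ.mul_right _ hx _, hJ.mul_left _ hx _⟩

private theorem c3_tr {J : Submodule ℤ P} {f g : P} (h1 : f - g ∈ J) (h2 : g ∈ J) : f ∈ J := by
  have h3 := J.add_mem h1 h2
  rwa [sub_add_cancel] at h3

private theorem c3_F {J : Submodule ℤ P} {n : ℕ} (h : Fge n ≤ J) {w : List ℕ} (hw : n ≤ w.length) :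
    mon w ∈ J :=
  h (Submodule.subset_span ⟨w, hw, rfl⟩)

private theorem c3_Dn {J : Submodule ℤ P} (hJ : IsT J) (h3 : g3 ∈ J) : Dn 3 ≤ J := by
  refine Submodule.span_le.2 ?_
  rintro f ⟨u, v, i, j, hv, -, rfl⟩
  obtain ⟨a, t, rfl⟩ := List.exists_cons_of_ne_nil hv
  have h1 := sb_mem hJ (φ := fun k => if k = 0 then X i else if k = 1 then X j else X a) (by
    intro k
    split_ifs
    · exact X_mem i
    · exact X_mem j
    · exact X_mem a) h3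
  have h2 : sb (fun k => if k = 0 then X i else if k = 1 then X j else X a) g3 =
      (X i * X j - X j * X i) * X a := by
    unfold g3
    rw [map_mul, map_sub, map_mul, map_mul, sb_X, sb_X, sb_X]
    simp
  rw [h2] at h1
  have h4 := IsT.lm hJ (mon u) (mon t) h1
  have h5 : mon u * (X i * X j - X j * X i) * mon (a :: t) =
      mon u * ((X i * X j - X j * X i) * X a) * mon t := by
    rw [mon_cons]
    simp only [mul_assoc]
  show mon u * (X i * X j - X j * X i) * mon (a :: t) ∈ J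
  rw [h5]
  exact h4

private theorem c3_C {J : Submodule ℤ P} (hJ : IsT J) (hC : Cn 4 ≤ J) (hx : X 0 ^ 3 * X 1 * X 2 ∈ J) :
    mon [0, 1, 0, 1, 0, 1] ∈ J ∧ (X 0 ^ 3 ∈ J → mon [0, 1, 0, 1, 0] ∈ J) := by
  constructor
  · have h1 : List.Perm [0, 1, 0, 1, 0, 1] [0, 0, 0, 1, 1, 1] := by decide
    exact c3_tr (hC (Cn_anti (by simp) (perm_Cn h1))) (c3_X hJ hx)
  · intro h
    have h1 : List.Perm [0, 1, 0, 1, 0] [0, 0, 0, 1, 1] := by decide
    exact c3_tr (hC (Cn_anti (by simp) (perm_Cn h1))) (c3_Y hJ h).1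

private theorem c3_D {J : Submodule ℤ P} (hJ : IsT J) (hD : Dn 3 ≤ J) (hx : X 0 ^ 3 * X 1 * X 2 ∈ J) :
    mon [0, 1, 0, 1, 0, 1] ∈ J ∧ (X 0 ^ 3 ∈ J → mon [0, 1, 0, 1, 0] ∈ J) := by
  constructor
  · have h1 : List.Perm [0, 1, 0, 1, 0] [0, 0, 0, 1, 1] := by decide
    exact c3_tr (hD (Dn_anti (by simp) (perm_Dn h1 (w := [1]) (by simp)))) (c3_X hJ hx)
  · intro h
    have h1 : List.Perm [0, 1, 0, 1] [1, 1, 0, 0] := by decide
    exact c3_tr (hD (Dn_anti (by simp) (perm_Dn h1 (w := [0]) (by simp)))) (c3_Y hJ h).2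

private theorem c3_ty {J : Submodule ℤ P} (hJ : IsT J) (hT : Ty J) :
    mon [0, 1, 0, 1, 0, 1] ∈ J ∧ (X 0 ^ 3 ∈ J → mon [0, 1, 0, 1, 0] ∈ J) := by
  rcases hT with h | h | h | h | h
  · exact ⟨c3_F h.2 (by simp), fun _ => c3_F h.2 (by simp)⟩
  · exact c3_C hJ h.2.1 h.2.2.1
  · exact c3_D hJ (c3_Dn hJ h.1) h.2.1
  · exact ⟨c3_F h.2 (by simp), fun _ => c3_F h.2 (by simp)⟩
  · exact c3_C hJ h.2.1 h.2.2.1

theorem c1w3 {J : Submodule ℤ P} (hb : Bt 3 J) (hT : Ty J) :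
    (X 0 * X 1) ^ 3 ∈ J ∧ (X 0 ^ 3 ∈ J → X 0 * (X 1 * X 0) ^ (3 - 1) ∈ J) := by
  rw [c3_m1, c3_m2]
  exact c3_ty hb.isT hT

theorem c1w3_op {J : Submodule ℤ P} (hb : Bt 3 J) (hT : Ty (op J)) :
    (X 0 * X 1) ^ 3 ∈ J ∧ (X 0 ^ 3 ∈ J → X 0 * (X 1 * X 0) ^ (3 - 1) ∈ J) := by
  have h := c3_ty (isT_op hb.isT) hT
  rw [c3_m2]
  constructor
  · have h1 := h.1
    rw [mem_op, rv_mon] at h1
    have h2 := sb_mem hb.isT (φ := fun k => if k = 0 then X 1 else X 0) (by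
      intro k
      split_ifs
      · exact X_mem 1
      · exact X_mem 0) h1
    have h3 : sb (fun k => if k = 0 then X 1 else X 0) (mon [0, 1, 0, 1, 0, 1].reverse) = (X 0 * X 1) ^ 3 := by
      simp only [List.reverse_cons, List.reverse_nil, List.nil_append, List.cons_append, mon_cons, mon_nil,
        map_mul, sb_X, mul_one, pow_succ, pow_zero, one_mul, mul_assoc]
      simp
    rw [h3] at h2
    exact h2
  · intro hx
    have h1 : X 0 ^ 3 ∈ op J := by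
      have e : (X 0 : P) ^ 3 = mon [0, 0, 0] := by
        simp only [mon_cons, mon_nil, mul_one, pow_succ, pow_zero, one_mul, mul_assoc]
      rw [e] at hx ⊢
      rw [mem_op, rv_mon]
      exact hx
    have h2 := h.2 h1
    rw [mem_op, rv_mon] at h2
    exact h2

end ADP
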