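import Pool.Agent.ADP.Ty

/-!
# ADP-DD: the type `[x,y] z`, set-up
-/

namespace ADP

open AD ADN ADC

/-- the situation of the type `[x,y] z`: modulo `Dn m` a word is determined by its content and its last letter -/
structure DD (J : Submodule ℤ P) : Prop extends Tam J where
  g : g3 ∈ J ⊔ Cn 5
  D : ∀ m, 3 ≤ m → Dn m ≤ J ⊔ Cn (m + 2)

private theorem dd_g3 : g3 = mon [0, 1, 2] - mon [1, 0, 2] := by
  unfold g3
  simp only [mon_cons, mon_nil, mul_one]
  noncomm_ring

private theorem dd_g3_Ml : g3 ∈ Ml 3 := by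
  rw [dd_g3]
  exact Submodule.sub_mem _ (Ml_mon (by decide)) (Ml_mon (by decide))

private theorem dd_cm {T : Submodule ℤ P} (hT : IsT T) (h : g3 ∈ T) (i j k : ℕ) (u v : List ℕ) :
    mon u * cm i j * mon (k :: v) ∈ T := by
  have h1 := sb_mem hT (φ := fun z => if z = 0 then X i else if z = 1 then X j else X k)
    (fun z => by
      show (if z = 0 then X i else if z = 1 then X j else X k) ∈ Pp
      split_ifs <;> exact X_mem _) h
  have h2 : sb (fun z => if z = 0 then X i else if z = 1 then X j else X k) g3 = cm i j * X k := by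
    unfold g3 cm
    rw [map_mul, map_sub, map_mul, map_mul, sb_X, sb_X, sb_X]
    simp
  rw [h2] at h1
  have h3 := hT.mul_right _ (hT.mul_left _ h1 (mon u)) (mon v)
  have e : mon u * cm i j * mon (k :: v) = mon u * (cm i j * X k) * mon v := by
    rw [mon_cons]
    simp only [mul_assoc]
  rw [e]
  exact h3

private theorem dd_cm' {T : Submodule ℤ P} (hT : IsT T) (h : g3 ∈ T) (i j : ℕ) (u : List ℕ) {v : List ℕ}
    (hv : v ≠ []) : mon u * cm i j * mon v ∈ T := by
  obtain ⟨k, t, rfl⟩ := List.exists_cons_of_ne_nil hv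
  exact dd_cm hT h i j k u t

private theorem dd_sub {G : Set P} (hG : G ⊆ (Pp : Set P)) :
    insert (((3 : ℕ) : ℤ) • X 0) G ⊆ (Pp : Set P) := by
  intro f hf
  rcases hf with rfl | hf
  · exact Submodule.smul_mem _ _ (X_mem 0)
  · exact hG hf

theorem DD_of {J : Submodule ℤ P} (hJ : Tam J) (h : g3 ∈ J ⊔ Fge 4) : DD J := by
  have hg : g3 ∈ J ⊔ Cn 5 := hJ.up (n := 3) le_rfl dd_g3_Ml h
  refine { hJ with g := hg, D := ?_ }
  have hP : ({g3} : Set P) ⊆ (Pp : Set P) := by
    intro f hf
    rw [Set.mem_singleton_iff.1 hf]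
    exact Ml_Pp (by norm_num) dd_g3_Ml
  refine Dn_le_of hJ.toBt (G := {g3}) (s := 2) (n := 3) le_rfl ?_ ?_
  · intro f hf
    rw [Set.mem_singleton_iff.1 hf]
    exact ⟨3, by norm_num, dd_g3_Ml, hg⟩
  · intro u v i j hv _
    exact dd_cm' (isT_Gen (dd_sub hP)) (subset_Gen _ (Set.mem_insert_of_mem _ rfl)) i j u hv

/-- words with the same content and the same last letter -/
theorem DD.perm {J : Submodule ℤ P} (h : DD J) {u v : List ℕ} (hp : u.Perm v) (t : ℕ) (h2 : 2 ≤ u.length) :
    mon (u ++ [t]) - mon (v ++ [t]) ∈ J ⊔ Cn (u.length + 3) := by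
  have h1 := perm_Dn hp (w := [t]) (by simp)
  have h3 := h.D (u.length + [t].length) (by rw [List.length_singleton]; omega) h1
  rw [List.length_singleton] at h3
  exact h3

private theorem dd_Dn {T : Submodule ℤ P} (hT : IsT T) (h : g3 ∈ T) (n : ℕ) : Dn n ≤ T := by
  refine Submodule.span_le.2 ?_
  rintro f ⟨u, v, i, j, hv, -, rfl⟩
  exact dd_cm' hT h i j u hv

private theorem dd_map {L u : List ℕ} (hL : L.Nodup) (hl : L.length = u.length) :
    L.map (fun z => u.getD (L.idxOf z) 0) = u := by
  apply List.ext_getElem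
  · rw [List.length_map, hl]
  · intro k h1 h2
    rw [List.getElem_map]
    have h3 : k < L.length := by rw [hl]; exact h2
    rw [hL.idxOf_getElem k h3]
    exact List.getD_eq_getElem _ _ h2

private theorem dd_sb (σ : ℕ → ℕ) (w : List ℕ) : sb (fun z => X (σ z)) (mon w) = mon (w.map σ) := by
  rw [sb_mon]
  unfold mon
  rw [List.map_map]
  rfl

private theorem dd_perm {n a b : ℕ} (hb : b < n) (hab : a ≠ b) :
    ((List.range n).erase a).Perm (b :: ((List.range n).erase a).erase b) := by
  refine List.perm_cons_erase ?_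
  rw [List.mem_erase_of_ne (Ne.symm hab)]
  exact List.mem_range.2 hb

private theorem dd_Yml {n i : ℕ} (hi : i < n) : Yw n i ∈ Ml n := by
  refine Ml_mon ?_
  have h1 : (List.range n).Perm (i :: (List.range n).erase i) := List.perm_cons_erase (List.mem_range.2 hi)
  exact (List.perm_append_singleton i _).trans h1.symm

private theorem dd_word {T : Submodule ℤ P} (hT : IsT T) (h : g3 ∈ T) {n a b : ℕ} (ha : a < n) (hb : b < n)
    (hab : a ≠ b) (hY : Yw n a - Yw n b ∈ T) {u : List ℕ} (hu : u.length + 2 = n) (i j : ℕ) :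
    mon u * cm i j ∈ T := by
  obtain ⟨L, hL⟩ : ∃ L, L = ((List.range n).erase a).erase b := ⟨_, rfl⟩
  have hLn : L.Nodup := by
    rw [hL]
    exact (List.nodup_range.erase a).erase b
  have pa := dd_perm hb hab
  have pb := dd_perm ha (Ne.symm hab)
  rw [List.erase_comm b a, ← hL] at pb
  rw [← hL] at pa
  have hlen : L.length = u.length := by
    have h1 := pa.length_eq
    rw [List.length_erase_of_mem (List.mem_range.2 ha), List.length_range, List.length_cons] at h1
    omega
  have haL : a ∉ L := by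
    rw [hL, List.mem_erase_of_ne hab]
    exact List.nodup_range.not_mem_erase
  have hbL : b ∉ L := by
    rw [hL]
    exact (List.nodup_range.erase a).not_mem_erase
  obtain ⟨σ, hσ⟩ : ∃ σ : ℕ → ℕ, σ = fun z => if z = a then j else if z = b then i else
    u.getD (L.idxOf z) 0 := ⟨_, rfl⟩
  have sa : σ a = j := by rw [hσ]; simp
  have sb' : σ b = i := by rw [hσ]; simp [Ne.symm hab]
  have sL : L.map σ = u := by
    rw [← dd_map hLn hlen]
    refine List.map_congr_left ?_
    intro z hz
    have h1 : z ≠ a := fun h => haL (h ▸ hz)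
    have h2 : z ≠ b := fun h => hbL (h ▸ hz)
    rw [hσ]
    simp only [if_neg h1, if_neg h2]
  have h1 := sb_mem hT (φ := fun z => X (σ z)) (fun z => X_mem _) hY
  rw [map_sub] at h1
  unfold Yw at h1
  rw [dd_sb, dd_sb, List.map_append, List.map_append, List.map_singleton, List.map_singleton, sa, sb'] at h1
  have qa : (((List.range n).erase a).map σ).Perm (u ++ [i]) := by
    have h2 := pa.map σ
    rw [List.map_cons, sL, sb'] at h2
    exact h2.trans (List.perm_append_singleton i u).symm
  have qb : (((List.range n).erase b).map σ).Perm (u ++ [j]) := by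
    have h2 := pb.map σ
    rw [List.map_cons, sL, sa] at h2
    exact h2.trans (List.perm_append_singleton j u).symm
  have h2 := dd_Dn hT h _ (perm_Dn qa (w := [j]) (by simp))
  have h3 := dd_Dn hT h _ (perm_Dn qb (w := [i]) (by simp))
  have h4 := Submodule.add_mem _ (Submodule.sub_mem _ h1 h2) h3
  have e : mon u * cm i j = mon (List.map σ ((List.range n).erase a) ++ [j]) -
      mon (List.map σ ((List.range n).erase b) ++ [i]) -
      (mon (List.map σ ((List.range n).erase a) ++ [j]) - mon (u ++ [i] ++ [j])) +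
      (mon (List.map σ ((List.range n).erase b) ++ [i]) - mon (u ++ [j] ++ [i])) := by
    have e1 : mon u * cm i j = mon (u ++ [i] ++ [j]) - mon (u ++ [j] ++ [i]) := by
      unfold cm
      rw [mon_append, mon_append, mon_append, mon_append, mon_single, mon_single]
      noncomm_ring
    rw [e1]
    abel
  rw [e]
  exact h4

/-- a criterion for `Cn n ≤ J`: two words of length `n` with different last letters are congruent modulo `J ⊔ Cn (n + 2)`. -/
theorem DD.Cn_le {J : Submodule ℤ P} (h : DD J) {n a b : ℕ} (hn : 3 ≤ n) (ha : a < n) (hb : b < n) (hab : a ≠ b)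
    (h1 : Yw n a - Yw n b ∈ J ⊔ Cn (n + 2)) : Cn n ≤ J := by
  have hYm : Yw n a - Yw n b ∈ Ml n := Submodule.sub_mem _ (dd_Yml ha) (dd_Yml hb)
  have hP : ({g3, Yw n a - Yw n b} : Set P) ⊆ (Pp : Set P) := by
    intro f hf
    rcases hf with rfl | hf
    · exact Ml_Pp (by norm_num) dd_g3_Ml
    · rw [Set.mem_singleton_iff.1 hf]
      exact Ml_Pp (by omega) hYm
  have hT := isT_Gen (dd_sub hP)
  have t1 : g3 ∈ Gen (insert (((3 : ℕ) : ℤ) • X 0) {g3, Yw n a - Yw n b}) :=
    subset_Gen _ (Set.mem_insert_of_mem _ (Set.mem_insert _ _))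
  have t2 : Yw n a - Yw n b ∈ Gen (insert (((3 : ℕ) : ℤ) • X 0) {g3, Yw n a - Yw n b}) :=
    subset_Gen _ (Set.mem_insert_of_mem _ (Set.mem_insert_of_mem _ rfl))
  refine Cn_le_of h.toBt (G := {g3, Yw n a - Yw n b}) (s := 2) (by norm_num) (by omega) ?_ ?_
  · intro f hf
    rcases hf with rfl | hf
    · exact ⟨3, by norm_num, dd_g3_Ml, h.g⟩
    · rw [Set.mem_singleton_iff.1 hf]
      exact ⟨n, by omega, hYm, h1⟩
  · intro u v i j hl
    by_cases hv : v = []
    · subst hv
      rw [List.length_nil] at hl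
      rw [mon_nil, mul_one]
      exact dd_word hT t1 ha hb hab t2 (by omega) i j
    · exact dd_cm' hT t1 i j u hv

end ADP
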