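import Pool.Agent.ADP.Ty

/-!
# ADP-Ex1: the anticommutative types, exactly

`J` is `Bt 3 J` (no tameness needed).  `2` is invertible modulo `J` (`cancel`, `3 ∤ 2`).
* `ex1`: `xyz + zyx = j + f`, `f ∈ Fge 4`.  Substituting words for `x, y, z` and multiplying by words, every consequence of total length `L` (`L` = total length of the substituted words and the factors)
  is in `J ⊔ Fge (L + 1)`.  In length 4: `x(yz)t ≡ -t(yz)x`, `t·(xyz)`, `(xyz)·t`: exchanging the letters in positions 1,3 or 2,4 or 1,4 of a word of length 4 changes the sign, modulo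
  `J ⊔ Fge 5`; in length 5 the exchanges (13), (24), (35), (14), (25), (15) [`x(yzt)u ≡ -u(yzt)x`] change the sign modulo `J ⊔ Fge 6`, and `x(yz)(tu) ≡ -(tu)(yz)x`.
  The permutation `xyztu -> tuyzx` is even (8 inversions), so it is a product of an even number of the exchanges, which give `xyztu ≡ + tuyzx`; so `2 xyztu ∈ J ⊔ Fge 6`, `Fge 5 ≤ J ⊔ Fge 6`.
  [explicitly: `xyztu -> (13) zyxtu -> (14) tyxzu -> (15)...`: find a chain of exchanges by hand: the target arrangement is `[t,u,y,z,x]`.]
  By nilpotency `Fge 5 ≤ J` (`Fge n ≤ J ⊔ Fge (n+1)` for all `n ≥ 5` since every word of length `≥ 5` starts with five letters; `NilAt`).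
  Finally `g1 ∈ J`: apply `wp (qw 3 3)` (`TOp_qw`) to `xyz + zyx ∈ J ⊔ Fge 4`: words of length `≥ 4` with letters `0,1,2`, all counts odd, have length `≥ 5`, so are in `Fge 5 ≤ J`.
* `ex4`: `(xy + yx)z ∈ J ⊔ Fge 4`.  Length 4, modulo `J ⊔ Fge 5`: `x(yz)t ≡ -(yz)xt`; `y(zx)t ≡ -y(xz)t` (multiply by `y` on the left); `(yx)zt ≡ -(xy)zt` (multiply by `t` on the right).
  So `yzxt ≡ -yxzt ≡ xyzt` and `xyzt ≡ -yzxt`: `2 xyzt ∈ J ⊔ Fge 5`; so `Fge 4 ≤ J ⊔ Fge 5`, nilpotency: `Fge 4 ≤ J`, so `g4 ∈ J`.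
-/

namespace ADP

open AD ADN ADC

private theorem sb_word (w : ℕ → List ℕ) (z : List ℕ) :
    sb (fun i => mon (w i)) (mon z) = mon (z.flatMap w) := by
  rw [sb_mon]
  induction z with
  | nil => rw [List.map_nil, List.prod_nil, List.flatMap_nil, mon_nil]
  | cons a z ih => rw [List.map_cons, List.prod_cons, ih, List.flatMap_cons, mon_append]

private theorem len_word {p d s : ℕ} (w : ℕ → List ℕ) (hw : ∀ i, w i ≠ [])
    {z : List ℕ} (hz : qw p d z) (hs : d + s ≤ z.length) :
    (∑ i ∈ Finset.range d, (w i).length) + s ≤ (z.flatMap w).length := by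
  classical
  obtain ⟨h1, h2⟩ := hz
  have hc : ∀ i < d, 1 ≤ z.count i := by
    intro i hi
    rcases Nat.eq_zero_or_pos (z.count i) with h | h
    · have h3 := h2 i hi
      rw [h, Nat.zero_mod] at h3
      omega
    · exact h
  have hfin : z.toFinset = Finset.range d := by
    ext i
    rw [List.mem_toFinset, Finset.mem_range]
    constructor
    · exact h1 i
    · intro hi
      exact List.count_pos_iff.1 (hc i hi)
  have e1 : (z.flatMap w).length = ∑ i ∈ Finset.range d, z.count i * (w i).length := by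
    rw [List.length_flatMap, Finset.sum_list_map_count, hfin]
    exact Finset.sum_congr rfl fun i _ => smul_eq_mul _ _
  have e2 : z.length = ∑ i ∈ Finset.range d, z.count i := by
    have h3 := Finset.sum_list_map_count z fun _ => 1
    rw [hfin, List.map_const', List.sum_replicate, smul_eq_mul, mul_one] at h3
    rw [h3]
    exact Finset.sum_congr rfl fun i _ => by rw [smul_eq_mul, mul_one]
  have h4 : ∀ i ∈ Finset.range d, z.count i + (w i).length ≤ z.count i * (w i).length + 1 := by
    intro i hi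
    have h5 := hc i (Finset.mem_range.1 hi)
    have h6 : 1 ≤ (w i).length := List.length_pos_iff.2 (hw i)
    obtain ⟨c, hc'⟩ : ∃ c, z.count i = c + 1 := ⟨z.count i - 1, by omega⟩
    obtain ⟨l, hl⟩ : ∃ l, (w i).length = l + 1 := ⟨(w i).length - 1, by omega⟩
    rw [hc', hl]
    nlinarith [Nat.zero_le (c * l)]
  have h5 := Finset.sum_le_sum h4
  rw [Finset.sum_add_distrib, Finset.sum_add_distrib, Finset.sum_const, Finset.card_range,
    smul_eq_mul, mul_one, ← e1, ← e2] at h5
  omega

/-- the words of length at least `m` in the class `qw 3 3` -/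
private theorem wp_Fge {m : ℕ} {f : P} (hf : f ∈ Fge m) :
    wp (qw 3 3) f ∈ Submodule.span ℤ {f : P | ∃ w : List ℕ, m ≤ w.length ∧ qw 3 3 w ∧ f = mon w} := by
  induction hf using Submodule.span_induction with
  | mem x hx =>
    obtain ⟨w, hw, rfl⟩ := hx
    by_cases h : qw 3 3 w
    · rw [wp_pos (φ := qw 3 3) h]
      exact Submodule.subset_span ⟨w, hw, h, rfl⟩
    · rw [wp_neg (φ := qw 3 3) h]
      exact Submodule.zero_mem _
  | zero => rw [map_zero]; exact Submodule.zero_mem _
  | add x y _ _ hx hy => rw [map_add]; exact Submodule.add_mem _ hx hy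
  | smul c x _ hx => rw [map_smul]; exact Submodule.smul_mem _ _ hx

private theorem mon_Fge {w : List ℕ} {m : ℕ} (h : m ≤ w.length) : mon w ∈ Fge m :=
  Submodule.subset_span ⟨w, h, rfl⟩

/-- the value of `g` at words -/
private theorem rel {J : Submodule ℤ P} (hJ : Bt 3 J) {g : P} (hg : g ∈ Ml 3) (h : g ∈ J ⊔ Fge 4)
    (w : ℕ → List ℕ) (hw : ∀ i, w i ≠ []) (u v : List ℕ) {L : ℕ}
    (hL : L ≤ u.length + (w 0).length + (w 1).length + (w 2).length + v.length + 1) :
    mon u * sb (fun i => mon (w i)) g * mon v ∈ J ⊔ Fge L := by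
  have hE : TOp 3 (wp (qw 3 3)) := TOp_qw hJ.pp (by omega) 3
  have hEg : wp (qw 3 3) g = g := Q_iff.1 (Ml_le_Q (by omega) hg)
  obtain ⟨j, hj, c, hc, hjc⟩ := Submodule.mem_sup.1 h
  have h1 : wp (qw 3 3) j ∈ J := hE J hJ.isT hJ.mul.sq j hj
  have h2 := wp_Fge hc
  have h4 : sb (fun i => mon (w i)) (wp (qw 3 3) j) ∈ J :=
    sb_mem hJ.isT (fun i => mon_mem (hw i)) h1
  have e : mon u * sb (fun i => mon (w i)) g * mon v =
      mon u * sb (fun i => mon (w i)) (wp (qw 3 3) j) * mon v +
        mon u * sb (fun i => mon (w i)) (wp (qw 3 3) c) * mon v := by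
    rw [← add_mul, ← mul_add, ← map_add, ← map_add, hjc, hEg]
  rw [e]
  refine Submodule.add_mem_sup (IsT.lm hJ.isT _ _ h4) ?_
  generalize wp (qw 3 3) c = y at h2
  induction h2 using Submodule.span_induction with
  | mem x hx =>
    obtain ⟨z, hz, hq, rfl⟩ := hx
    rw [sb_word, ← mon_append, ← mon_append]
    refine mon_Fge ?_
    have h5 := len_word (s := 1) w hw hq (by omega)
    rw [Finset.sum_range_succ, Finset.sum_range_succ, Finset.sum_range_one] at h5
    rw [List.length_append, List.length_append]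
    omega
  | zero => rw [map_zero, mul_zero, zero_mul]; exact Submodule.zero_mem _
  | add x y _ _ hx hy => rw [map_add, mul_add, add_mul]; exact Submodule.add_mem _ hx hy
  | smul c x _ hx => rw [map_zsmul, mul_smul_comm, smul_mul_assoc]; exact Submodule.smul_mem _ _ hx

/-- the substitution with three given words -/
private def tr (a b c : List ℕ) : ℕ → List ℕ := fun i => if i = 0 then a else if i = 1 then b else c

private theorem tr_ne {a b c : List ℕ} (ha : a ≠ []) (hb : b ≠ []) (hc : c ≠ []) (i : ℕ) : tr a b c i ≠ [] := by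
  unfold tr
  split_ifs <;> assumption

private theorem Ml3 {w : List ℕ} (h : w.Perm [0, 1, 2]) : mon w ∈ Ml 3 := Ml_mon h

private theorem g1_eq : g1 = mon [0, 1, 2] + mon [2, 1, 0] := by
  unfold g1
  simp only [mon_cons, mon_nil, mul_one, mul_assoc]

private theorem g4_eq : g4 = mon [0, 1, 2] + mon [1, 0, 2] := by
  unfold g4
  simp only [mon_cons, mon_nil, mul_one, mul_assoc, add_mul]

private theorem g1_Ml : g1 ∈ Ml 3 := by
  rw [g1_eq]
  exact Submodule.add_mem _ (Ml3 (by decide)) (Ml3 (by decide))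

private theorem g4_Ml : g4 ∈ Ml 3 := by
  rw [g4_eq]
  exact Submodule.add_mem _ (Ml3 (by decide)) (Ml3 (by decide))

private theorem r1 {J : Submodule ℤ P} (hJ : Bt 3 J) (h : g1 ∈ J ⊔ Fge 4) {a b c : List ℕ} (ha : a ≠ [])
    (hb : b ≠ []) (hc : c ≠ []) (u v : List ℕ) {L : ℕ}
    (hL : L ≤ u.length + a.length + b.length + c.length + v.length + 1) :
    mon (u ++ a ++ b ++ c ++ v) + mon (u ++ c ++ b ++ a ++ v) ∈ J ⊔ Fge L := by
  have h1 := rel hJ g1_Ml h (tr a b c) (tr_ne ha hb hc) u v (L := L) (by simpa [tr] using hL)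
  have e : mon u * sb (fun i => mon (tr a b c i)) g1 * mon v =
      mon (u ++ a ++ b ++ c ++ v) + mon (u ++ c ++ b ++ a ++ v) := by
    rw [g1_eq, map_add, sb_word, sb_word]
    simp only [tr, List.flatMap_cons, List.flatMap_nil, List.append_nil, mon_append]
    norm_num
    noncomm_ring
  rwa [e] at h1

private theorem r4 {J : Submodule ℤ P} (hJ : Bt 3 J) (h : g4 ∈ J ⊔ Fge 4) {a b c : List ℕ} (ha : a ≠ [])
    (hb : b ≠ []) (hc : c ≠ []) (u v : List ℕ) {L : ℕ}
    (hL : L ≤ u.length + a.length + b.length + c.length + v.length + 1) :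
    mon (u ++ a ++ b ++ c ++ v) + mon (u ++ b ++ a ++ c ++ v) ∈ J ⊔ Fge L := by
  have h1 := rel hJ g4_Ml h (tr a b c) (tr_ne ha hb hc) u v (L := L) (by simpa [tr] using hL)
  have e : mon u * sb (fun i => mon (tr a b c i)) g4 * mon v =
      mon (u ++ a ++ b ++ c ++ v) + mon (u ++ b ++ a ++ c ++ v) := by
    rw [g4_eq, map_add, sb_word, sb_word]
    simp only [tr, List.flatMap_cons, List.flatMap_nil, List.append_nil, mon_append]
    norm_num
    noncomm_ring
  rwa [e] at h1

/-- cancelling 2 -/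
private theorem two_cancel {J : Submodule ℤ P} (hJ : Bt 3 J) {n : ℕ} {w : List ℕ} (hw : w ≠ [])
    (h : mon w + mon w ∈ J ⊔ Fge n) : mon w ∈ J ⊔ Fge n := by
  have h3 : Mul ((3 : ℕ) : ℤ) J := hJ.mul
  have h1 : (3 : ℤ) • mon w ∈ J ⊔ Fge n := Submodule.mem_sup_left (h3 _ (mon_mem hw))
  have e : mon w = (3 : ℤ) • mon w - (mon w + mon w) := by
    rw [show (3 : ℤ) = 1 + 1 + 1 by norm_num, add_smul, add_smul, one_smul]
    abel
  rw [e]
  exact Submodule.sub_mem _ h1 h

/-- nilpotency -/
private theorem nil_le {J : Submodule ℤ P} (hJ : Bt 3 J) {m : ℕ}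
    (h : ∀ n, m ≤ n → Fge n ≤ J ⊔ Fge (n + 1)) : Fge m ≤ J := by
  have h1 : ∀ k, Fge m ≤ J ⊔ Fge (m + k) := by
    intro k
    induction k with
    | zero => exact le_sup_right
    | succ k ih => exact ih.trans (sup_le le_sup_left (h (m + k) (Nat.le_add_right _ _)))
  obtain ⟨N, hN⟩ := hJ.nil
  exact (h1 N).trans (sup_le le_rfl ((Fge_anti (Nat.le_add_left N m)).trans (Fge_le hN)))

private theorem five {J : Submodule ℤ P} (hJ : Bt 3 J) (h : g1 ∈ J ⊔ Fge 4) (x y z t s : ℕ) (v : List ℕ) :
    mon (x :: y :: z :: t :: s :: v) ∈ J ⊔ Fge (v.length + 6) := by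
  have k1 := r1 hJ h (a := [x]) (b := [y]) (c := [z]) (by simp) (by simp) (by simp) [] (t :: s :: v)
    (L := v.length + 6) (by simp; omega)
  have k2 := r1 hJ h (a := [z]) (b := [y, x]) (c := [t]) (by simp) (by simp) (by simp) [] (s :: v)
    (L := v.length + 6) (by simp; omega)
  have k3 := r1 hJ h (a := [y]) (b := [x, z]) (c := [s]) (by simp) (by simp) (by simp) [t] v
    (L := v.length + 6) (by simp; omega)
  have k4 := r1 hJ h (a := [x]) (b := [z]) (c := [y]) (by simp) (by simp) (by simp) [t, s] v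
    (L := v.length + 6) (by simp; omega)
  have k5 := r1 hJ h (a := [x]) (b := [y, z]) (c := [t, s]) (by simp) (by simp) (by simp) [] v
    (L := v.length + 6) (by simp; omega)
  simp only [List.nil_append, List.singleton_append, List.cons_append, List.append_assoc] at k1 k2 k3 k4 k5
  refine two_cancel hJ (List.cons_ne_nil _ _) ?_
  have e : mon (x :: y :: z :: t :: s :: v) + mon (x :: y :: z :: t :: s :: v) =
      (mon (x :: y :: z :: t :: s :: v) + mon (z :: y :: x :: t :: s :: v)) -
      (mon (z :: y :: x :: t :: s :: v) + mon (t :: y :: x :: z :: s :: v)) +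
      (mon (t :: y :: x :: z :: s :: v) + mon (t :: s :: x :: z :: y :: v)) -
      (mon (t :: s :: x :: z :: y :: v) + mon (t :: s :: y :: z :: x :: v)) +
      (mon (x :: y :: z :: t :: s :: v) + mon (t :: s :: y :: z :: x :: v)) := by abel
  rw [e]
  exact Submodule.add_mem _ (Submodule.sub_mem _ (Submodule.add_mem _ (Submodule.sub_mem _ k1 k2) k3) k4) k5

private theorem four {J : Submodule ℤ P} (hJ : Bt 3 J) (h : g4 ∈ J ⊔ Fge 4) (x y z t : ℕ) (v : List ℕ) :
    mon (x :: y :: z :: t :: v) ∈ J ⊔ Fge (v.length + 5) := by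
  have k1 := r4 hJ h (a := [x]) (b := [y, z]) (c := [t]) (by simp) (by simp) (by simp) [] v
    (L := v.length + 5) (by simp; omega)
  have k2 := r4 hJ h (a := [z]) (b := [x]) (c := [t]) (by simp) (by simp) (by simp) [y] v
    (L := v.length + 5) (by simp; omega)
  have k3 := r4 hJ h (a := [y]) (b := [x]) (c := [z]) (by simp) (by simp) (by simp) [] (t :: v)
    (L := v.length + 5) (by simp; omega)
  simp only [List.nil_append, List.singleton_append, List.cons_append, List.append_assoc] at k1 k2 k3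
  refine two_cancel hJ (List.cons_ne_nil _ _) ?_
  have e : mon (x :: y :: z :: t :: v) + mon (x :: y :: z :: t :: v) =
      (mon (x :: y :: z :: t :: v) + mon (y :: z :: x :: t :: v)) -
      (mon (y :: z :: x :: t :: v) + mon (y :: x :: z :: t :: v)) +
      (mon (y :: x :: z :: t :: v) + mon (x :: y :: z :: t :: v)) := by abel
  rw [e]
  exact Submodule.add_mem _ (Submodule.sub_mem _ k1 k2) k3

theorem ex1 {J : Submodule ℤ P} (hJ : Bt 3 J) (h : g1 ∈ J ⊔ Fge 4) : g1 ∈ J ∧ Fge 5 ≤ J := by
  have h5 : Fge 5 ≤ J := by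
    refine nil_le hJ fun n hn => Submodule.span_le.2 ?_
    rintro f ⟨w, hw, rfl⟩
    match w, hw with
    | x :: y :: z :: t :: s :: v, hw =>
      refine (sup_le_sup_left (Fge_anti ?_) J) (five hJ h x y z t s v)
      simp only [List.length_cons] at hw
      omega
    | [], hw => simp at hw; omega
    | [_], hw => simp at hw; omega
    | [_, _], hw => simp at hw; omega
    | [_, _, _], hw => simp at hw; omega
    | [_, _, _, _], hw => simp at hw; omega
  refine ⟨?_, h5⟩
  have hE : TOp 3 (wp (qw 3 3)) := TOp_qw hJ.pp (by omega) 3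
  have hEg : wp (qw 3 3) g1 = g1 := Q_iff.1 (Ml_le_Q (by omega) g1_Ml)
  obtain ⟨j, hj, c, hc, hjc⟩ := Submodule.mem_sup.1 h
  rw [← hEg, ← hjc, map_add]
  refine Submodule.add_mem _ (hE J hJ.isT hJ.mul.sq j hj) ?_
  have h2 := wp_Fge hc
  refine (Submodule.span_le.2 ?_) h2
  rintro f ⟨w, hw, hq, rfl⟩
  refine h5 (mon_Fge ?_)
  have e2 : w.length = w.count 0 + w.count 1 + w.count 2 := by
    classical
    have hfin : w.toFinset ⊆ Finset.range 3 := by
      intro i hi
      rw [Finset.mem_range]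
      exact hq.1 i (List.mem_toFinset.1 hi)
    have h3 := List.sum_toFinset_count_eq_length w
    rw [← h3, Finset.sum_subset hfin, Finset.sum_range_succ, Finset.sum_range_succ, Finset.sum_range_one]
    intro i _ hi
    rw [List.mem_toFinset] at hi
    exact List.count_eq_zero_of_not_mem hi
  have a0 := hq.2 0 (by omega)
  have a1 := hq.2 1 (by omega)
  have a2 := hq.2 2 (by omega)
  omega

theorem ex4 {J : Submodule ℤ P} (hJ : Bt 3 J) (h : g4 ∈ J ⊔ Fge 4) : g4 ∈ J ∧ Fge 4 ≤ J := by
  have h4 : Fge 4 ≤ J := by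
    refine nil_le hJ fun n hn => Submodule.span_le.2 ?_
    rintro f ⟨w, hw, rfl⟩
    match w, hw with
    | x :: y :: z :: t :: v, hw =>
      refine (sup_le_sup_left (Fge_anti ?_) J) (four hJ h x y z t v)
      simp only [List.length_cons] at hw
      omega
    | [], hw => simp at hw; omega
    | [_], hw => simp at hw; omega
    | [_, _], hw => simp at hw; omega
    | [_, _, _], hw => simp at hw; omega
  exact ⟨(sup_le le_rfl h4) h, h4⟩

end ADP
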