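import Pool.Agent.ADP.Ty

/-!
# ADP-Ex2: the types with `Cn 4 ≤ J`

* `ex2`: `g2 = xyz - zyx ∈ Ml 3`, so `g2 ∈ J ⊔ Cn 5` (`Tam.up`).  `Cn_le_of` (ADP.TrC) with `G = {g2}`, `d = 3`, `s = 2`, `n = 4`: to show: every `mon u * cm i j * mon v` of length 4 is in
  `Gen (insert (3 • X 0) {g2})` =: `T`: modulo the T-ideal `T` (`isT_Gen`, `subset_Gen`) `xyz ≡ zyx`, so `x(yz)t ≡ t(yz)x`, `xyzt ≡ zyxt`, `txyz ≡ tzyx`: the letters in positions (14), (13), (24) of
  a word of length 4 can be exchanged; these transpositions generate `S_4` ((12) = (24)(14)(24), (34) = (13)(14)(13), (23) = (13)(12)(13) with (12) as before).  So `Cn 4 ≤ J`; then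
  `g2 ∈ J ⊔ Cn 5 ≤ J`, `x^3yz ∈ J ⊔ Cn 5 ≤ J`, `x^3 y - x y^3 ∈ J ⊔ Cn 4 = J` and `x y^3 ≡ y^3 x` modulo `Cn 4` (`perm_Cn`).
* `ex5`: `g5 = xyz - yzx`: the same with `G = {g5}`.  Modulo `T = Gen (insert (3 • X 0) {g5})`: `abc ≡ bca ≡ cab`, so `[ab, c] ≡ 0` for all `a, b, c ∈ P⁺` and `[x,y]z ≡ x[y,z] ≡ z[x,y]`.
  So `[x,y]zt ≡ x[y, zt] ≡ 0`, `t[x,y]z ≡ tz[x,y] ≡ [x,y]tz ≡ 0` (the second with `z' = tz`), `zt[x,y] ≡ [x,y]zt ≡ 0`.
-/

namespace ADP

open AD ADN ADC

private theorem ex2_end {J : Submodule ℤ P} (hJ : Tam J) {g : P} (hg : g ∈ J ⊔ Cn 5) (h4 : Cn 4 ≤ J) :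
    g ∈ J ∧ Cn 4 ≤ J ∧ X 0 ^ 3 * X 1 * X 2 ∈ J ∧ X 0 ^ 3 * X 1 - X 1 ^ 3 * X 0 ∈ J := by
  have h5 : J ⊔ Cn 5 ≤ J := sup_le le_rfl ((Cn_anti (by norm_num : 4 ≤ 5)).trans h4)
  have h5' : J ⊔ Cn 4 ≤ J := sup_le le_rfl h4
  refine ⟨h5 hg, h4, h5 hJ.t1, ?_⟩
  have h1 : X 0 ^ 3 * X 1 - X 0 * X 1 ^ 3 ∈ J := h5' hJ.t2
  have h2 : mon [0, 1, 1, 1] - mon [1, 1, 1, 0] ∈ Cn [0, 1, 1, 1].length := perm_Cn (by decide)
  have h3 : X 0 * X 1 ^ 3 - X 1 ^ 3 * X 0 ∈ J := by
    have e : X 0 * X 1 ^ 3 - X 1 ^ 3 * X 0 = mon [0, 1, 1, 1] - mon [1, 1, 1, 0] := by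
      simp only [mon_cons, mon_nil]
      noncomm_ring
    rw [e]
    exact h4 h2
  have e : X 0 ^ 3 * X 1 - X 1 ^ 3 * X 0 = (X 0 ^ 3 * X 1 - X 0 * X 1 ^ 3) + (X 0 * X 1 ^ 3 - X 1 ^ 3 * X 0) := by
    abel
  rw [e]
  exact Submodule.add_mem _ h1 h3

private theorem ex2_cases {T : Submodule ℤ P}
    (h1 : ∀ x y a b : ℕ, X x * X y * X a * X b - X y * X x * X a * X b ∈ T)
    (h2 : ∀ x y a b : ℕ, X a * X x * X y * X b - X a * X y * X x * X b ∈ T)
    (h3 : ∀ x y a b : ℕ, X a * X b * X x * X y - X a * X b * X y * X x ∈ T)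
    (u v : List ℕ) (i j : ℕ) (h : u.length + v.length + 2 = 4) : mon u * cm i j * mon v ∈ T := by
  rcases u with _ | ⟨a, _ | ⟨b, _ | ⟨c, u⟩⟩⟩
  · rcases v with _ | ⟨a, _ | ⟨b, _ | ⟨c, v⟩⟩⟩
    · simp at h
    · simp at h
    · have e : mon [] * cm i j * mon [a, b] = X i * X j * X a * X b - X j * X i * X a * X b := by
        unfold cm
        simp only [mon_cons, mon_nil]
        noncomm_ring
      rw [e]
      exact h1 i j a b
    · simp only [List.length_cons, List.length_nil] at h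
      omega
  · rcases v with _ | ⟨b, _ | ⟨c, v⟩⟩
    · simp at h
    · have e : mon [a] * cm i j * mon [b] = X a * X i * X j * X b - X a * X j * X i * X b := by
        unfold cm
        simp only [mon_cons, mon_nil]
        noncomm_ring
      rw [e]
      exact h2 i j a b
    · simp only [List.length_cons, List.length_nil] at h
      omega
  · rcases v with _ | ⟨c, v⟩
    · have e : mon [a, b] * cm i j * mon [] = X a * X b * X i * X j - X a * X b * X j * X i := by
        unfold cm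
        simp only [mon_cons, mon_nil]
        noncomm_ring
      rw [e]
      exact h3 i j a b
    · simp only [List.length_cons, List.length_nil] at h
      omega
  · simp only [List.length_cons] at h
    omega

private theorem ex2_isT {g : P} (hg : g ∈ Ml 3) : IsT (Gen (insert (((3 : ℕ) : ℤ) • X 0) {g})) := by
  apply isT_Gen
  intro f hf
  rcases hf with rfl | hf
  · exact Submodule.smul_mem _ _ (X_mem 0)
  · rw [Set.mem_singleton_iff] at hf
    rw [hf]
    exact Ml_Pp (by norm_num) hg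

private theorem ex2_mem (g : P) : g ∈ Gen (insert (((3 : ℕ) : ℤ) • X 0) {g}) :=
  subset_Gen _ (Set.mem_insert_of_mem _ rfl)

private noncomputable def ex2_phi (a b c : P) : ℕ → P := fun i => if i = 0 then a else if i = 1 then b else if i = 2 then c else 0

private theorem ex2_phi_mem {a b c : P} (ha : a ∈ Pp) (hb : b ∈ Pp) (hc : c ∈ Pp) (i : ℕ) : ex2_phi a b c i ∈ Pp := by
  unfold ex2_phi
  split_ifs
  · exact ha
  · exact hb
  · exact hc
  · exact Submodule.zero_mem _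

private theorem ex2_ml2 : g2 ∈ Ml 3 := by
  have e : g2 = mon [0, 1, 2] - mon [2, 1, 0] := by
    unfold g2
    simp only [mon_cons, mon_nil]
    noncomm_ring
  rw [e]
  exact Submodule.sub_mem _ (Ml_mon (by decide)) (Ml_mon (by decide))

private theorem ex2_ml5 : g5 ∈ Ml 3 := by
  have e : g5 = mon [0, 1, 2] - mon [1, 2, 0] := by
    unfold g5
    simp only [mon_cons, mon_nil]
    noncomm_ring
  rw [e]
  exact Submodule.sub_mem _ (Ml_mon (by decide)) (Ml_mon (by decide))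

private theorem ex2_s2 {T : Submodule ℤ P} (hT : IsT T) (hg : g2 ∈ T) {a b c : P} (ha : a ∈ Pp) (hb : b ∈ Pp)
    (hc : c ∈ Pp) : a * b * c - c * b * a ∈ T := by
  have h := sb_mem hT (ex2_phi_mem ha hb hc) hg
  have e : sb (ex2_phi a b c) g2 = a * b * c - c * b * a := by
    unfold g2
    rw [map_sub, map_mul, map_mul, map_mul, map_mul, sb_X, sb_X, sb_X]
    simp [ex2_phi]
  rwa [e] at h

private theorem ex2_s5 {T : Submodule ℤ P} (hT : IsT T) (hg : g5 ∈ T) {a b c : P} (ha : a ∈ Pp) (hb : b ∈ Pp)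
    (hc : c ∈ Pp) : a * b * c - b * c * a ∈ T := by
  have h := sb_mem hT (ex2_phi_mem ha hb hc) hg
  have e : sb (ex2_phi a b c) g5 = a * b * c - b * c * a := by
    unfold g5
    rw [map_sub, map_mul, map_mul, map_mul, map_mul, sb_X, sb_X, sb_X]
    simp [ex2_phi]
  rwa [e] at h

private theorem ex2_word2 {T : Submodule ℤ P} (hT : IsT T) (hg : g2 ∈ T) (u v : List ℕ) (i j : ℕ)
    (h : u.length + v.length + 2 = 4) : mon u * cm i j * mon v ∈ T := by
  have s : ∀ {a b c : P}, a ∈ Pp → b ∈ Pp → c ∈ Pp → a * b * c - c * b * a ∈ T := fun ha hb hc => ex2_s2 hT hg ha hb hc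
  have h1 : ∀ x y a b : ℕ, X x * X y * X a * X b - X y * X x * X a * X b ∈ T := by
    intro x y a b
    have k1 := hT.mul_left _ (s (X_mem y) (X_mem a) (X_mem b)) (X x)
    have k2 := s (X_mem x) (Pp_mul_left (X b) (X_mem a)) (X_mem y)
    have k3 := hT.mul_left _ (s (X_mem b) (X_mem a) (X_mem x)) (X y)
    have e : X x * X y * X a * X b - X y * X x * X a * X b = X x * (X y * X a * X b - X b * X a * X y) +
      (X x * (X b * X a) * X y - X y * (X b * X a) * X x) + X y * (X b * X a * X x - X x * X a * X b) := by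
      noncomm_ring
    rw [e]
    exact Submodule.add_mem _ (Submodule.add_mem _ k1 k2) k3
  refine ex2_cases h1 ?_ ?_ u v i j h
  · intro x y a b
    have k1 := hT.mul_right _ (s (X_mem a) (X_mem x) (X_mem y)) (X b)
    have k3 := hT.mul_right _ (s (X_mem x) (X_mem y) (X_mem a)) (X b)
    have e : X a * X x * X y * X b - X a * X y * X x * X b = (X a * X x * X y - X y * X x * X a) * X b +
      (X y * X x * X a * X b - X x * X y * X a * X b) + (X x * X y * X a - X a * X y * X x) * X b := by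
      noncomm_ring
    rw [e]
    exact Submodule.add_mem _ (Submodule.add_mem _ k1 (h1 y x a b)) k3
  · intro x y a b
    have k1 := hT.mul_right _ (s (X_mem a) (X_mem b) (X_mem x)) (X y)
    have k2 := s (X_mem x) (Pp_mul_left (X b) (X_mem a)) (X_mem y)
    have k3 := hT.mul_right _ (s (X_mem y) (X_mem b) (X_mem a)) (X x)
    have e : X a * X b * X x * X y - X a * X b * X y * X x = (X a * X b * X x - X x * X b * X a) * X y +
      (X x * (X b * X a) * X y - X y * (X b * X a) * X x) + (X y * X b * X a - X a * X b * X y) * X x := by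
      noncomm_ring
    rw [e]
    exact Submodule.add_mem _ (Submodule.add_mem _ k1 k2) k3

private theorem ex2_word5 {T : Submodule ℤ P} (hT : IsT T) (hg : g5 ∈ T) (u v : List ℕ) (i j : ℕ)
    (h : u.length + v.length + 2 = 4) : mon u * cm i j * mon v ∈ T := by
  have s : ∀ {a b c : P}, a ∈ Pp → b ∈ Pp → c ∈ Pp → a * b * c - b * c * a ∈ T := fun ha hb hc => ex2_s5 hT hg ha hb hc
  have h1 : ∀ x y a b : ℕ, X x * X y * X a * X b - X y * X x * X a * X b ∈ T := by
    intro x y a b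
    have k1 := hT.mul_left _ (s (X_mem y) (X_mem a) (X_mem b)) (X x)
    have k2 := s (X_mem y) (X_mem x) (Pp_mul_left (X a) (X_mem b))
    have e : X x * X y * X a * X b - X y * X x * X a * X b = X x * (X y * X a * X b - X a * X b * X y) -
      (X y * X x * (X a * X b) - X x * (X a * X b) * X y) := by
      noncomm_ring
    rw [e]
    exact Submodule.sub_mem _ k1 k2
  refine ex2_cases h1 ?_ ?_ u v i j h
  · intro x y a b
    have k1 := hT.mul_left _ (s (X_mem b) (X_mem x) (X_mem y)) (X a)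
    have k2 := hT.mul_left _ (s (X_mem b) (X_mem y) (X_mem x)) (X a)
    have k3 := s (Pp_mul_left (X a) (X_mem b)) (X_mem x) (X_mem y)
    have k4 := s (Pp_mul_left (X a) (X_mem b)) (X_mem y) (X_mem x)
    have e : X a * X x * X y * X b - X a * X y * X x * X b =
      X a * (X b * X y * X x - X y * X x * X b) - X a * (X b * X x * X y - X x * X y * X b) +
      (X a * X b * X x * X y - X x * X y * (X a * X b)) - (X a * X b * X y * X x - X y * X x * (X a * X b)) +
      (X x * X y * X a * X b - X y * X x * X a * X b) := by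
      noncomm_ring
    rw [e]
    exact Submodule.add_mem _ (Submodule.sub_mem _ (Submodule.add_mem _ (Submodule.sub_mem _ k2 k1) k3) k4) (h1 x y a b)
  · intro x y a b
    have k3 := s (Pp_mul_left (X a) (X_mem b)) (X_mem x) (X_mem y)
    have k4 := s (Pp_mul_left (X a) (X_mem b)) (X_mem y) (X_mem x)
    have e : X a * X b * X x * X y - X a * X b * X y * X x =
      (X a * X b * X x * X y - X x * X y * (X a * X b)) - (X a * X b * X y * X x - X y * X x * (X a * X b)) +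
      (X x * X y * X a * X b - X y * X x * X a * X b) := by
      noncomm_ring
    rw [e]
    exact Submodule.add_mem _ (Submodule.sub_mem _ k3 k4) (h1 x y a b)

theorem ex2 {J : Submodule ℤ P} (hJ : Tam J) (h : g2 ∈ J ⊔ Fge 4) :
    g2 ∈ J ∧ Cn 4 ≤ J ∧ X 0 ^ 3 * X 1 * X 2 ∈ J ∧ X 0 ^ 3 * X 1 - X 1 ^ 3 * X 0 ∈ J := by
  have hg : g2 ∈ J ⊔ Cn 5 := hJ.up (n := 3) le_rfl ex2_ml2 h
  refine ex2_end hJ hg ?_
  refine Cn_le_of hJ.toBt (G := {g2}) (s := 2) (n := 4) (by norm_num) (by norm_num) ?_ ?_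
  · intro g hg'
    rw [Set.mem_singleton_iff] at hg'
    rw [hg']
    exact ⟨3, by norm_num, ex2_ml2, hg⟩
  · intro u v i j hl
    exact ex2_word2 (ex2_isT ex2_ml2) (ex2_mem g2) u v i j hl

theorem ex5 {J : Submodule ℤ P} (hJ : Tam J) (h : g5 ∈ J ⊔ Fge 4) :
    g5 ∈ J ∧ Cn 4 ≤ J ∧ X 0 ^ 3 * X 1 * X 2 ∈ J ∧ X 0 ^ 3 * X 1 - X 1 ^ 3 * X 0 ∈ J := by
  have hg : g5 ∈ J ⊔ Cn 5 := hJ.up (n := 3) le_rfl ex2_ml5 h
  refine ex2_end hJ hg ?_
  refine Cn_le_of hJ.toBt (G := {g5}) (s := 2) (n := 4) (by norm_num) (by norm_num) ?_ ?_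
  · intro g hg'
    rw [Set.mem_singleton_iff] at hg'
    rw [hg']
    exact ⟨3, by norm_num, ex2_ml5, hg⟩
  · intro u v i j hl
    exact ex2_word5 (ex2_isT ex2_ml5) (ex2_mem g5) u v i j hl

end ADP
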