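import Pool.Agent.ADP.DD

/-!
# ADP-Ex3b: the type `[x,y] z`, second step

* `sub_up` (substitution of a word for a letter): if `f ∈ Q 3 n` and `f ∈ J ⊔ Cn m`, `i < n`, `r` a nonempty word, `φ` a substitution with `φ (X i) = mon r`, `φ (X j)` a letter for `j ≠ i`, then
  `φ f ∈ J ⊔ Cn (m + (r.length - 1))`: apply `wp (qw 3 n)` first (`wp_Cn`, `qw_perm`): the `Cn m` part is a combination of `mon u * cm a b * mon v` with `i ∈ u ++ a :: b :: v`; its image is
  `φ(u) [φ a, φ b] φ(v)`, the product of the images of all letters of `u ++ a :: b :: v` minus the one with two adjacent factors exchanged: a difference of two words with the same content and of length `≥ m + (r.length - 1)`: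
  `perm_Cn`, `Cn_anti`.
* `ex3b`: (a) `X 0 ^ 3 * X 1 * X 2 ∈ J ⊔ Cn 7`: `sub_up` for `f = X 0 ^ 3 * X 1 - X 1 ^ 3 * X 0 ∈ Q 3 2`, `m = 6`, `X 1 ↦ X 1 X 2`: `X 0 ^ 3 * X 1 * X 2 - (X 1 X 2)^3 X 0 ∈ J ⊔ Cn 7`; by `DD.perm`
  `(X 1 X 2)^3 X 0 ≡ X 1 ^ 3 * X 2 ^ 3 * X 0` modulo `J ⊔ Cn 9`, the image of `X 0 ^ 3 * X 1 * X 2 ∈ J ⊔ Cn 5` (`t1`) under `X 0 ↦ X 1`, `X 1 ↦ X 2 ^ 3`, `X 2 ↦ X 0`: in `J ⊔ Cn 7` (`sub_up`).
  (b) for all `m ≥ 7`: `X 0 ^ 3 * X 1 * X 2 ∈ J ⊔ Cn m`, by induction on `m`.  Step `m → m + 1`: apply `wp (qw 3 3)`: the `Cn m` part becomes a combination of differences of words `w` with `qw 3 3 w`,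
  `w.length ≥ m ≥ 7`.  Such a word `w = w' ++ [t]` has a letter `s` with `3 ≤ w'.count s` (the three counts of `w` are odd; if a letter `s ≠ t` has count `≥ 3` take it; otherwise `t` has count `≥ 5`), and `w'.length ≥ 6`, so
  `w'` is a permutation of `[s,s,s] ++ r`, `r.length = w.length - 4 ≥ 3`.  By `DD.perm` `mon w ≡ mon ([s,s,s] ++ r ++ [t])` modulo `J ⊔ Cn (w.length + 2)`, and this is the image of `X 0 ^ 3 * X 1 * X 2 ∈ J ⊔ Cn m` under
  `X 0 ↦ X s`, `X 1 ↦ mon r`, `X 2 ↦ X t`: in `J ⊔ Cn (m + 2)` (`sub_up`).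
  (c) `NilAt J N`: `Cn N ≤ J` (`Cn_nil`), so `X 0 ^ 3 * X 1 * X 2 ∈ J`.
-/

namespace ADP

open AD ADN ADC

private theorem sb_word' (w : ℕ → List ℕ) (z : List ℕ) :
    sb (fun i => mon (w i)) (mon z) = mon (z.flatMap w) := by
  rw [sb_mon]
  induction z with
  | nil => rw [List.map_nil, List.prod_nil, List.flatMap_nil, mon_nil]
  | cons a z ih => rw [List.map_cons, List.prod_cons, ih, List.flatMap_cons, mon_append]

private theorem sub_word' (u v : List ℕ) (i j : ℕ) :
    mon u * cm i j * mon v = mon (u ++ i :: j :: v) - mon (u ++ j :: i :: v) := by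
  unfold cm
  rw [mon_append, mon_append, mon_cons, mon_cons, mon_cons, mon_cons, mul_sub, sub_mul]
  simp only [mul_assoc]

/-- the words which are substituted -/
private def wd (i : ℕ) (r : List ℕ) (φ : ℕ → ℕ) (j : ℕ) : List ℕ := if j = i then r else [φ j]

private theorem wd_eq (i : ℕ) (r : List ℕ) (φ : ℕ → ℕ) :
    (fun j => if j = i then mon r else X (φ j)) = fun j => mon (wd i r φ j) := by
  funext j
  unfold wd
  by_cases h : j = i
  · rw [if_pos h, if_pos h]
  · rw [if_neg h, if_neg h, mon_single]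

private theorem wd_len (i : ℕ) {r : List ℕ} (hr : r ≠ []) (φ : ℕ → ℕ) (z : List ℕ) :
    (z.flatMap (wd i r φ)).length = z.length + z.count i * (r.length - 1) := by
  have h1 : 1 ≤ r.length := List.length_pos_iff.2 hr
  induction z with
  | nil => simp
  | cons a z ih =>
    rw [List.flatMap_cons, List.length_append, ih, List.length_cons]
    by_cases h : a = i
    · subst h
      rw [List.count_cons_self]
      have e : (wd a r φ a).length = r.length := by
        unfold wd
        rw [if_pos rfl]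
      rw [e]
      obtain ⟨k, hk⟩ : ∃ k, r.length = k + 1 := ⟨r.length - 1, by omega⟩
      rw [hk, Nat.add_sub_cancel]
      ring
    · rw [List.count_cons_of_ne h]
      have e : (wd i r φ a).length = 1 := by
        unfold wd
        rw [if_neg h, List.length_singleton]
      rw [e]
      ring

theorem sub_up {J : Submodule ℤ P} (hJ : Bt 3 J) {n m i : ℕ} (hi : i < n) {f : P} (hf : f ∈ Q 3 n) (h : f ∈ J ⊔ Cn m)
    {r : List ℕ} (hr : r ≠ []) (φ : ℕ → ℕ) :
    sb (fun j => if j = i then mon r else X (φ j)) f ∈ J ⊔ Cn (m + (r.length - 1)) := by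
  have hE : TOp 3 (wp (qw 3 n)) := TOp_qw hJ.pp (by omega) n
  have hEf : wp (qw 3 n) f = f := Q_iff.1 hf
  obtain ⟨j, hj, c, hc, hjc⟩ := Submodule.mem_sup.1 h
  have h1 : wp (qw 3 n) j ∈ J := hE J hJ.isT hJ.mul.sq j hj
  have h2 := wp_Cn (φ := qw 3 n) (fun _ _ huv => qw_perm huv) hc
  have hwne : ∀ k, wd i r φ k ≠ [] := by
    intro k
    unfold wd
    split_ifs
    · exact hr
    · exact List.cons_ne_nil _ _
  have h3 : ∀ x : P, x ∈ Submodule.span ℤ {f | ∃ (u v : List ℕ) (a b : ℕ),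
      m ≤ u.length + v.length + 2 ∧ qw 3 n (u ++ a :: b :: v) ∧ f = mon u * cm a b * mon v} →
      sb (fun k => mon (wd i r φ k)) x ∈ Cn (m + (r.length - 1)) := by
    intro x hx
    induction hx using Submodule.span_induction with
    | mem x hx =>
      obtain ⟨u, v, a, b, h1, h2, rfl⟩ := hx
      rw [sub_word', map_sub, sb_word', sb_word']
      refine Cn_anti ?_ (perm_Cn ?_)
      · rw [wd_len i hr φ]
        have hcnt : 1 ≤ (u ++ a :: b :: v).count i := by
          have h5 := h2.2 i hi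
          rcases Nat.eq_zero_or_pos ((u ++ a :: b :: v).count i) with h | h
          · rw [h, Nat.zero_mod] at h5
            omega
          · exact h
        have hlen : m ≤ (u ++ a :: b :: v).length := by
          rw [List.length_append, List.length_cons, List.length_cons]
          omega
        have := Nat.mul_le_mul_right (r.length - 1) hcnt
        rw [one_mul] at this
        omega
      · exact (List.Perm.append_left u (List.Perm.swap b a v)).flatMap_right _
    | zero => rw [map_zero]; exact Submodule.zero_mem _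
    | add x y _ _ hx hy => rw [map_add]; exact Submodule.add_mem _ hx hy
    | smul c x _ hx => rw [map_zsmul]; exact Submodule.smul_mem _ _ hx
  have h4 : sb (fun k => mon (wd i r φ k)) (wp (qw 3 n) j) ∈ J :=
    sb_mem hJ.isT (fun k => mon_mem (hwne k)) h1
  rw [wd_eq]
  have e : sb (fun k => mon (wd i r φ k)) f =
      sb (fun k => mon (wd i r φ k)) (wp (qw 3 n) j) +
        sb (fun k => mon (wd i r φ k)) (wp (qw 3 n) c) := by
    rw [← map_add, ← map_add, hjc, hEf]
  rw [e]
  exact Submodule.add_mem_sup h4 (h3 _ h2)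

private theorem sub_up' {J : Submodule ℤ P} (hJ : Bt 3 J) {n m i : ℕ} (hi : i < n) {f : P}
    (hf : f ∈ Q 3 n) (h : f ∈ J ⊔ Cn m) {r : List ℕ} (hr : r ≠ []) (φ : ℕ → ℕ) :
    sb (fun j => mon (wd i r φ j)) f ∈ J ⊔ Cn (m + (r.length - 1)) := by
  have h1 := sub_up hJ hi hf h hr φ
  rwa [wd_eq] at h1

private theorem q5 : (mon [0, 0, 0, 1, 2] : P) ∈ Q 3 3 := by
  refine Submodule.subset_span ⟨[0, 0, 0, 1, 2], ?_, rfl⟩
  unfold qw
  decide

private theorem q4 : (mon [0, 0, 0, 1] - mon [1, 1, 1, 0] : P) ∈ Q 3 2 := by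
  refine Submodule.sub_mem _ (Submodule.subset_span ⟨[0, 0, 0, 1], ?_, rfl⟩)
    (Submodule.subset_span ⟨[1, 1, 1, 0], ?_, rfl⟩)
  · unfold qw
    decide
  · unfold qw
    decide

private theorem sup_anti {J : Submodule ℤ P} {m n : ℕ} (h : m ≤ n) : J ⊔ Cn n ≤ J ⊔ Cn m :=
  sup_le_sup_left (Cn_anti h) J

private theorem ex3b_a {J : Submodule ℤ P} (h : DD J) (h5 : mon [0, 0, 0, 1, 2] ∈ J ⊔ Cn 5)
    (h6 : mon [0, 0, 0, 1] - mon [1, 1, 1, 0] ∈ J ⊔ Cn 6) : mon [0, 0, 0, 1, 2] ∈ J ⊔ Cn 7 := by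
  have a1 := sub_up' h.toBt (i := 1) (by omega) q4 h6 (r := [1, 2]) (List.cons_ne_nil _ _) id
  rw [map_sub, sb_word', sb_word'] at a1
  have e1 : ([0, 0, 0, 1].flatMap (wd 1 [1, 2] id)) = [0, 0, 0, 1, 2] := rfl
  have e2 : ([1, 1, 1, 0].flatMap (wd 1 [1, 2] id)) = [1, 2, 1, 2, 1, 2] ++ [0] := rfl
  rw [e1, e2] at a1
  have a2 := h.perm (u := [1, 2, 1, 2, 1, 2]) (v := [1, 1, 1, 2, 2, 2]) (by decide) 0 (by decide)
  have a3 := sub_up' h.toBt (i := 1) (by omega) q5 h5 (r := [2, 2, 2]) (List.cons_ne_nil _ _)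
    (fun j => if j = 0 then 1 else 0)
  rw [sb_word'] at a3
  have e3 : ([0, 0, 0, 1, 2].flatMap (wd 1 [2, 2, 2] (fun j => if j = 0 then 1 else 0))) =
      [1, 1, 1, 2, 2, 2] ++ [0] := rfl
  rw [e3] at a3
  have a1' : mon [0, 0, 0, 1, 2] - mon ([1, 2, 1, 2, 1, 2] ++ [0]) ∈ J ⊔ Cn 7 := a1
  have a2' : mon ([1, 2, 1, 2, 1, 2] ++ [0]) - mon ([1, 1, 1, 2, 2, 2] ++ [0]) ∈ J ⊔ Cn 7 :=
    sup_anti (by decide) a2
  have a3' : mon ([1, 1, 1, 2, 2, 2] ++ [0]) ∈ J ⊔ Cn 7 := a3
  have := Submodule.add_mem _ (Submodule.add_mem _ a1' a2') a3'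
  rw [sub_add_sub_cancel, sub_add_cancel] at this
  exact this

private theorem ex3b_s {w : List ℕ} {t : ℕ} (hw : qw 3 3 (w ++ [t])) (hl : 6 ≤ w.length) :
    ∃ s, 3 ≤ w.count s := by
  by_contra hcon
  push Not at hcon
  have hlt : ∀ a ∈ w, a < 3 := fun a ha => hw.1 a (List.mem_append_left _ ha)
  have ht : t < 3 := hw.1 t (by simp)
  have hsum : ∀ (l : List ℕ), (∀ a ∈ l, a < 3) → l.length = l.count 0 + l.count 1 + l.count 2 := by
    intro l
    induction l with
    | nil => intro _; rfl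
    | cons a l ih =>
      intro h
      have ih' := ih fun b hb => h b (List.mem_cons_of_mem _ hb)
      have ha := h a List.mem_cons_self
      rw [List.length_cons, ih']
      interval_cases a
      · simp; omega
      · simp; omega
      · simp; omega
  have h1 := hsum w hlt
  have c0 := hcon 0
  have c1 := hcon 1
  have c2 := hcon 2
  have q0 := hw.2 0 (by omega)
  have q1 := hw.2 1 (by omega)
  have q2 := hw.2 2 (by omega)
  rw [List.count_append] at q0 q1 q2
  interval_cases t <;> simp at q0 q1 q2 <;> omega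

private theorem ex3b_w {J : Submodule ℤ P} (h : DD J) {m : ℕ} (hm : 7 ≤ m)
    (hF : mon [0, 0, 0, 1, 2] ∈ J ⊔ Cn m) {w : List ℕ} (hw : qw 3 3 w) (hl : m ≤ w.length) :
    mon w ∈ J ⊔ Cn (m + 1) := by
  rcases List.eq_nil_or_concat w with rfl | ⟨w', t, hwt⟩
  · rw [List.length_nil] at hl
    omega
  · rw [List.concat_eq_append] at hwt
    subst hwt
    rw [List.length_append, List.length_singleton] at hl
    obtain ⟨s, hs⟩ := ex3b_s hw (by omega)
    obtain ⟨r, hr⟩ := (List.replicate_sublist_iff.2 hs).exists_perm_append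
    have hrl : r.length + 3 = w'.length := by
      have := hr.length_eq
      rw [List.length_append, List.length_replicate] at this
      omega
    have hrne : r ≠ [] := by
      intro h0
      rw [h0, List.length_nil] at hrl
      omega
    have a1 := h.perm hr t (by omega)
    have a2 := sub_up' h.toBt (i := 1) (by omega) q5 hF hrne (fun j => if j = 0 then s else t)
    rw [sb_word'] at a2
    have e3 : ([0, 0, 0, 1, 2].flatMap (wd 1 r (fun j => if j = 0 then s else t))) =
        List.replicate 3 s ++ r ++ [t] := by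
      simp [wd, List.replicate_succ]
    rw [e3] at a2
    have a1' := sup_anti (J := J) (m := m + 1) (n := w'.length + 3) (by omega) a1
    have a2' := sup_anti (J := J) (m := m + 1) (n := m + (r.length - 1)) (by omega) a2
    have := Submodule.add_mem _ a1' a2'
    rw [sub_add_cancel] at this
    exact this

private theorem ex3b_m {J : Submodule ℤ P} (h : DD J) (h7 : mon [0, 0, 0, 1, 2] ∈ J ⊔ Cn 7)
    {m : ℕ} (hm : 7 ≤ m) : mon [0, 0, 0, 1, 2] ∈ J ⊔ Cn m := by
  induction m, hm using Nat.le_induction with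
  | base => exact h7
  | succ m hm ih =>
    have hJ := h.toBt
    have hE : TOp 3 (wp (qw 3 3)) := TOp_qw hJ.pp (by omega) 3
    have hEf : wp (qw 3 3) (mon [0, 0, 0, 1, 2]) = mon [0, 0, 0, 1, 2] := Q_iff.1 q5
    obtain ⟨j, hj, c, hc, hjc⟩ := Submodule.mem_sup.1 ih
    have h1 : wp (qw 3 3) j ∈ J := hE J hJ.isT hJ.mul.sq j hj
    have h2 := wp_Cn (φ := qw 3 3) (fun _ _ huv => qw_perm huv) hc
    have h3 : ∀ x : P, x ∈ Submodule.span ℤ {f | ∃ (u v : List ℕ) (a b : ℕ),
        m ≤ u.length + v.length + 2 ∧ qw 3 3 (u ++ a :: b :: v) ∧ f = mon u * cm a b * mon v} →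
        x ∈ J ⊔ Cn (m + 1) := by
      intro x hx
      induction hx using Submodule.span_induction with
      | mem x hx =>
        obtain ⟨u, v, a, b, h4, h5, rfl⟩ := hx
        rw [sub_word']
        have h6 : qw 3 3 (u ++ b :: a :: v) :=
          (qw_perm (List.Perm.append_left u (List.Perm.swap a b v))).2 h5
        refine Submodule.sub_mem _ (ex3b_w h hm ih h5 ?_) (ex3b_w h hm ih h6 ?_)
        · rw [List.length_append, List.length_cons, List.length_cons]
          omega
        · rw [List.length_append, List.length_cons, List.length_cons]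
          omega
      | zero => exact Submodule.zero_mem _
      | add x y _ _ hx hy => exact Submodule.add_mem _ hx hy
      | smul c x _ hx => exact Submodule.smul_mem _ _ hx
    rw [← hEf, ← hjc, map_add]
    exact Submodule.add_mem _ (Submodule.mem_sup_left h1) (h3 _ h2)

theorem ex3b {J : Submodule ℤ P} (h : DD J) (h6 : X 0 ^ 3 * X 1 - X 1 ^ 3 * X 0 ∈ J ⊔ Cn 6) :
    X 0 ^ 3 * X 1 * X 2 ∈ J := by
  have e5 : (X 0 ^ 3 * X 1 * X 2 : P) = mon [0, 0, 0, 1, 2] := by
    simp only [mon_cons, mon_nil, mul_one, pow_succ, pow_zero, one_mul, mul_assoc]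
  have e4 : (X 0 ^ 3 * X 1 - X 1 ^ 3 * X 0 : P) = mon [0, 0, 0, 1] - mon [1, 1, 1, 0] := by
    simp only [mon_cons, mon_nil, mul_one, pow_succ, pow_zero, one_mul, mul_assoc]
  rw [e4] at h6
  have h5 := h.t1
  rw [e5] at h5 ⊢
  have h7 := ex3b_a h h5 h6
  obtain ⟨N, hN⟩ := h.nil
  have h8 := ex3b_m h h7 (le_max_left 7 N)
  have h9 : Cn (max 7 N) ≤ J := (Cn_anti (le_max_right 7 N)).trans (Cn_nil hN)
  rwa [sup_eq_left.2 h9] at h8

end ADP
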