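import Pool.Agent.ADP.Base
import Pool.Agent.ADC.TOpW
import Pool.Agent.ADC.Cnc

/-! # ADP-Lin3: full linearisation of a cube, `x_i ↦ x_a + x_b + x_c` -/

namespace ADP

open AD ADN ADC

/-- `x_i ↦ f` -/
noncomputable def s1 (i : ℕ) (f : P) : P →ₐ[ℤ] P := sb (fun j => if j = i then f else X j)

/-- full linearisation -/
noncomputable def li (i a b c : ℕ) : P →ₗ[ℤ] P :=
  tl (s1 i (X a + X b + X c)) - tl (s1 i (X a + X b)) - tl (s1 i (X a + X c)) - tl (s1 i (X b + X c)) +
    tl (s1 i (X a)) + tl (s1 i (X b)) + tl (s1 i (X c))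

private theorem lin3_subst (i : ℕ) {f : P} (hf : f ∈ Pp) : IsSubst (s1 i f) := by
  unfold s1
  refine sb_isSubst fun j => ?_
  by_cases h : j = i
  · rw [if_pos h]
    exact hf
  · rw [if_neg h]
    exact X_mem j

theorem TOp_li (p i a b c : ℕ) : TOp p (li i a b c) := by
  unfold li
  have ha := X_mem a
  have hb := X_mem b
  have hc := X_mem c
  have e1 := TOp.subst p (lin3_subst i (Submodule.add_mem _ (Submodule.add_mem _ ha hb) hc))
  have e2 := TOp.subst p (lin3_subst i (Submodule.add_mem _ ha hb))
  have e3 := TOp.subst p (lin3_subst i (Submodule.add_mem _ ha hc))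
  have e4 := TOp.subst p (lin3_subst i (Submodule.add_mem _ hb hc))
  have e5 := TOp.subst p (lin3_subst i ha)
  have e6 := TOp.subst p (lin3_subst i hb)
  have e7 := TOp.subst p (lin3_subst i hc)
  exact ((((((e1.sub e2).sub e3).sub e4).add e5).add e6).add e7)

private theorem lin3_apply (i a b c : ℕ) (f : P) : li i a b c f =
    s1 i (X a + X b + X c) f - s1 i (X a + X b) f - s1 i (X a + X c) f - s1 i (X b + X c) f +
      s1 i (X a) f + s1 i (X b) f + s1 i (X c) f := rfl

private theorem lin3_fix {i : ℕ} {u : List ℕ} (h : i ∉ u) (f : P) : s1 i f (mon u) = mon u := by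
  induction u with
  | nil => rw [mon_nil, map_one]
  | cons j u ih =>
    rw [List.mem_cons, not_or] at h
    rw [mon_cons, map_mul, ih h.2]
    congr 1
    unfold s1
    rw [sb_X, if_neg (Ne.symm h.1)]

private theorem lin3_cons (i : ℕ) (u : List ℕ) (f : P) : s1 i f (mon (i :: u)) = f * s1 i f (mon u) := by
  rw [mon_cons, map_mul]
  congr 1
  unfold s1
  rw [sb_X, if_pos rfl]

private theorem lin3_split {i : ℕ} {w : List ℕ} (h : i ∈ w) :
    ∃ u v : List ℕ, w = u ++ i :: v ∧ i ∉ u := by
  obtain ⟨u, v, hu, hw⟩ := List.eq_append_cons_of_mem h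
  exact ⟨u, v, hu, hw⟩

/-- a letter occurring once or twice -/
theorem li_zero {i : ℕ} (a b c : ℕ) {w : List ℕ} (h1 : 1 ≤ w.count i) (h2 : w.count i ≤ 2) :
    li i a b c (mon w) = 0 := by
  obtain ⟨u, v, hw, hu⟩ := lin3_split (List.count_pos_iff.1 h1)
  rw [hw, List.count_append, List.count_cons_self, List.count_eq_zero_of_not_mem hu] at h2
  by_cases hv : i ∈ v
  · obtain ⟨s, t, hs, hi⟩ := lin3_split hv
    have ht : i ∉ t := by
      intro ht
      rw [hs, List.count_append, List.count_cons_self] at h2
      have := List.count_pos_iff.2 ht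
      omega
    have key : ∀ f : P, s1 i f (mon w) = mon u * (f * (mon s * (f * mon t))) := by
      intro f
      rw [hw, hs, mon_append, map_mul, lin3_fix hu, lin3_cons, mon_append, map_mul, lin3_fix hi,
        lin3_cons, lin3_fix ht]
    rw [lin3_apply]
    simp only [key]
    simp only [mul_add, add_mul]
    abel
  · have key : ∀ f : P, s1 i f (mon w) = mon u * (f * mon v) := by
      intro f
      rw [hw, mon_append, map_mul, lin3_fix hu, lin3_cons, lin3_fix hv]
    rw [lin3_apply]
    simp only [key]
    simp only [mul_add, add_mul]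
    abel

/-- a letter occurring three times -/
theorem li_three {i : ℕ} (a b c : ℕ) {u v s t : List ℕ} (hu : i ∉ u) (hv : i ∉ v) (hs : i ∉ s) (ht : i ∉ t) :
    li i a b c (mon (u ++ i :: (v ++ i :: (s ++ i :: t)))) =
      mon (u ++ a :: (v ++ b :: (s ++ c :: t))) + mon (u ++ a :: (v ++ c :: (s ++ b :: t))) +
      mon (u ++ b :: (v ++ a :: (s ++ c :: t))) + mon (u ++ b :: (v ++ c :: (s ++ a :: t))) +
      mon (u ++ c :: (v ++ a :: (s ++ b :: t))) + mon (u ++ c :: (v ++ b :: (s ++ a :: t))) := by
  have key : ∀ f : P, s1 i f (mon (u ++ i :: (v ++ i :: (s ++ i :: t)))) =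
      mon u * (f * (mon v * (f * (mon s * (f * mon t))))) := by
    intro f
    rw [mon_append, map_mul, lin3_fix hu, lin3_cons, mon_append, map_mul, lin3_fix hv, lin3_cons,
      mon_append, map_mul, lin3_fix hs, lin3_cons, lin3_fix ht]
  have key2 : ∀ x y z : ℕ, mon (u ++ x :: (v ++ y :: (s ++ z :: t))) =
      mon u * (X x * (mon v * (X y * (mon s * (X z * mon t))))) := by
    intro x y z
    rw [mon_append, mon_cons, mon_append, mon_cons, mon_append, mon_cons]
  rw [lin3_apply]
  simp only [key]
  simp only [key2]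
  generalize mon u = U
  generalize mon v = V
  generalize mon s = S
  generalize mon t = T
  simp only [mul_add, add_mul]
  abel

private theorem lin3_agree {φ ψ : P →ₐ[ℤ] P} {n : ℕ} (h : ∀ j, j < n → φ (X j) = ψ (X j)) {p : ℕ} {f : P}
    (hf : f ∈ Q p n) : φ f = ψ f := by
  unfold Q at hf
  induction hf using Submodule.span_induction with
  | mem x hx =>
    obtain ⟨w, hw, rfl⟩ := hx
    have h1 := hw.1
    clear hw
    induction w with
    | nil => rw [mon_nil, map_one, map_one]
    | cons a w ih =>
      rw [mon_cons, map_mul, map_mul, h a (h1 a (by simp)), ih fun i hi => h1 i (List.mem_cons_of_mem _ hi)]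
  | zero => rw [map_zero, map_zero]
  | add x y _ _ hx hy => rw [map_add, map_add, hx, hy]
  | smul c x _ hx => rw [map_zsmul, map_zsmul, hx]

theorem li_Ad {I : Submodule ℤ P} (hI : IsT I) {n : ℕ} {f : P} (hf : f ∈ Q 3 n) (h : Ad I n f) {i : ℕ} (hi : i < n) :
    li i i n (n + 1) f ∈ I := by
  have key : ∀ Y ∈ Pp, ∀ Z ∈ Pp, s1 i (Z + Y) f - s1 i Z f - s1 i Y f ∈ I := by
    intro Y hY Z hZ
    have hs : IsSubst (sb (fun j => if j = n then Y else if j = i then Z else X j)) := by
      refine sb_isSubst fun j => ?_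
      by_cases h1 : j = n
      · rw [if_pos h1]
        exact hY
      · rw [if_neg h1]
        by_cases h2 : j = i
        · rw [if_pos h2]
          exact hZ
        · rw [if_neg h2]
          exact X_mem j
    have h1 := hI.subst _ hs _ (h i hi)
    rw [map_sub, map_sub] at h1
    have hin : ¬ i = n := by omega
    have e1 : (sb (fun j => if j = n then Y else if j = i then Z else X j))
        (sb (fun j => if j = i then X i + X n else X j) f) = s1 i (Z + Y) f := by
      rw [← AlgHom.comp_apply]
      refine lin3_agree (fun j hj => ?_) hf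
      unfold s1
      rw [AlgHom.comp_apply, sb_X, sb_X]
      by_cases h2 : j = i
      · rw [if_pos h2, if_pos h2, map_add, sb_X, sb_X, if_neg hin, if_pos rfl, if_pos rfl]
      · rw [if_neg h2, if_neg h2, sb_X, if_neg (by omega), if_neg h2]
    have e2 : (sb (fun j => if j = n then Y else if j = i then Z else X j)) f = s1 i Z f := by
      refine lin3_agree (fun j hj => ?_) hf
      unfold s1
      rw [sb_X, sb_X, if_neg (by omega)]
    have e3 : (sb (fun j => if j = n then Y else if j = i then Z else X j))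
        (sb (fun j => if j = i then X n else X j) f) = s1 i Y f := by
      rw [← AlgHom.comp_apply]
      refine lin3_agree (fun j hj => ?_) hf
      unfold s1
      rw [AlgHom.comp_apply, sb_X, sb_X]
      by_cases h2 : j = i
      · rw [if_pos h2, if_pos h2, sb_X, if_pos rfl]
      · rw [if_neg h2, if_neg h2, sb_X, if_neg (by omega), if_neg h2]
    rw [e1, e2, e3] at h1
    exact h1
  have ha := X_mem i
  have hb := X_mem n
  have hc := X_mem (n + 1)
  have k1 := key _ hc _ (Submodule.add_mem _ ha hb)
  have k2 := key _ hc _ ha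
  have k3 := key _ hc _ hb
  have e : li i i n (n + 1) f = (s1 i (X i + X n + X (n + 1)) f - s1 i (X i + X n) f - s1 i (X (n + 1)) f) -
      (s1 i (X i + X (n + 1)) f - s1 i (X i) f - s1 i (X (n + 1)) f) -
      (s1 i (X n + X (n + 1)) f - s1 i (X n) f - s1 i (X (n + 1)) f) := by
    rw [lin3_apply]
    abel
  rw [e]
  exact I.sub_mem (I.sub_mem k1 k2) k3

end ADP
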