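import Pool.Agent.ADP.Ex3q
import Pool.Agent.ADP.Lin3

/-!
# ADP-Ex3c: the type `[x,y] z`, the identity is exact

`Om_i = mon [i,i,j,k,i]` (`{i,j,k} = {0,1,2}`).  `g3 ∈ J ⊔ Cn 5`; the projection `wp (qw 3 3)` shows
`g3 - r_0 Om_0 - r_1 Om_1 - r_2 Om_2 ∈ J ⊔ Cn 7`, so this element is in `J` (`q33`).  `li i i 3 4` maps it to
`- 2 r_i (Y_i + Y_3 + Y_4)` modulo `J ⊔ Cn 7`.  If `3 ∤ r_i` for some `i`, then `Y_i - Y_j ∈ J ⊔ Cn 7`, `Cn 5 ≤ J`
(`DD.Cn_le`); otherwise `r_i Om_i ∈ J` for all `i`.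
-/

namespace ADP

open AD ADN ADC

private theorem c_word (u v : List ℕ) (i j : ℕ) :
    mon u * cm i j * mon v = mon (u ++ i :: j :: v) - mon (u ++ j :: i :: v) := by
  unfold cm
  rw [mon_append, mon_append, mon_cons, mon_cons, mon_cons, mon_cons, mul_sub, sub_mul]
  simp only [mul_assoc]

private theorem c_anti {J : Submodule ℤ P} {m n : ℕ} (h : m ≤ n) : J ⊔ Cn n ≤ J ⊔ Cn m :=
  sup_le_sup_left (Cn_anti h) J

private theorem c_sum (l : List ℕ) : (∀ a ∈ l, a < 3) → l.length = l.count 0 + l.count 1 + l.count 2 := by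
  induction l with
  | nil => intro _; rfl
  | cons a l ih =>
    intro h
    have ih' := ih fun b hb => h b (List.mem_cons_of_mem _ hb)
    have ha := h a List.mem_cons_self
    rw [List.length_cons, ih']
    interval_cases a
    · simp; omega
    · simp; omega
    · simp; omega

/-- the span of the three exceptional words -/
private noncomputable def c_S : Submodule ℤ P :=
  Submodule.span ℤ {mon [0, 0, 1, 2, 0], mon [1, 1, 0, 2, 1], mon [2, 2, 0, 1, 2]}

private theorem c_five {J : Submodule ℤ P} (h : DD J) (hx : X 0 ^ 3 * X 1 * X 2 ∈ J) {w : List ℕ}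
    (hw : qw 3 3 w) (hl : w.length = 5) : mon w ∈ (J ⊔ Cn 7) ⊔ c_S := by
  rcases List.eq_nil_or_concat w with rfl | ⟨v, t, hwt⟩
  · simp at hl
  rw [List.concat_eq_append] at hwt
  subst hwt
  rw [List.length_append, List.length_singleton] at hl
  have hv : v.length = 4 := by omega
  by_cases hs : ∃ s, 3 ≤ v.count s
  · obtain ⟨s, hs⟩ := hs
    have h1 := good_mem h hx (t := t) hs (by omega)
    rw [hv] at h1
    exact Submodule.mem_sup_left h1
  · push Not at hs
    have hlt : ∀ a ∈ v, a < 3 := fun a ha => hw.1 a (List.mem_append_left _ ha)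
    have ht : t < 3 := hw.1 t (by simp)
    have h1 := c_sum v hlt
    have c0 := hs 0
    have c1 := hs 1
    have c2 := hs 2
    have q0 := hw.2 0 (by omega)
    have q1 := hw.2 1 (by omega)
    have q2 := hw.2 2 (by omega)
    rw [List.count_append] at q0 q1 q2
    have key : ∀ z : List ℕ, v.Perm z → mon (z ++ [t]) ∈ c_S → mon (v ++ [t]) ∈ (J ⊔ Cn 7) ⊔ c_S := by
      intro z hz hm
      have h2 := h.perm hz t (by omega)
      rw [hv] at h2
      have h3 := Submodule.add_mem_sup h2 hm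
      rwa [sub_add_cancel] at h3
    have hp : ∀ z : List ℕ, (∀ a ∈ z, a < 3) → v.count 0 = z.count 0 → v.count 1 = z.count 1 →
        v.count 2 = z.count 2 → v.Perm z := by
      intro z hz e0 e1 e2
      rw [List.perm_iff_count]
      intro a
      by_cases ha : a < 3
      · interval_cases a
        · exact e0
        · exact e1
        · exact e2
      · rw [List.count_eq_zero_of_not_mem fun h' => ha (hlt a h'),
          List.count_eq_zero_of_not_mem fun h' => ha (hz a h')]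
    interval_cases t
    · simp at q0 q1 q2
      refine key [0, 0, 1, 2] (hp _ (by decide) ?_ ?_ ?_) ?_
      · have : ([0, 0, 1, 2] : List ℕ).count 0 = 2 := rfl
        omega
      · have : ([0, 0, 1, 2] : List ℕ).count 1 = 1 := rfl
        omega
      · have : ([0, 0, 1, 2] : List ℕ).count 2 = 1 := rfl
        omega
      · exact Submodule.subset_span (Set.mem_insert _ _)
    · simp at q0 q1 q2
      refine key [1, 1, 0, 2] (hp _ (by decide) ?_ ?_ ?_) ?_
      · have : ([1, 1, 0, 2] : List ℕ).count 0 = 1 := rfl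
        omega
      · have : ([1, 1, 0, 2] : List ℕ).count 1 = 2 := rfl
        omega
      · have : ([1, 1, 0, 2] : List ℕ).count 2 = 1 := rfl
        omega
      · exact Submodule.subset_span (Set.mem_insert_of_mem _ (Set.mem_insert _ _))
    · simp at q0 q1 q2
      refine key [2, 2, 0, 1] (hp _ (by decide) ?_ ?_ ?_) ?_
      · have : ([2, 2, 0, 1] : List ℕ).count 0 = 1 := rfl
        omega
      · have : ([2, 2, 0, 1] : List ℕ).count 1 = 1 := rfl
        omega
      · have : ([2, 2, 0, 1] : List ℕ).count 2 = 2 := rfl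
        omega
      · exact Submodule.subset_span (Set.mem_insert_of_mem _ (Set.mem_insert_of_mem _ rfl))

private theorem c_g3 : g3 = mon [0, 1, 2] - mon [1, 0, 2] := by
  unfold g3
  simp only [mon_cons, mon_nil, mul_one]
  noncomm_ring

private theorem c_q3 : g3 ∈ Q 3 3 := by
  rw [c_g3]
  refine Submodule.sub_mem _ (Submodule.subset_span ⟨[0, 1, 2], ?_, rfl⟩)
    (Submodule.subset_span ⟨[1, 0, 2], ?_, rfl⟩)
  · unfold qw
    decide
  · unfold qw
    decide

private theorem c_dec {J : Submodule ℤ P} (h : DD J) (hx : X 0 ^ 3 * X 1 * X 2 ∈ J) :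
    g3 ∈ (J ⊔ Cn 7) ⊔ c_S := by
  have hJ := h.toBt
  have hE : TOp 3 (wp (qw 3 3)) := TOp_qw hJ.pp (by omega) 3
  have hEf : wp (qw 3 3) g3 = g3 := Q_iff.1 c_q3
  obtain ⟨j, hj, c, hc, hjc⟩ := Submodule.mem_sup.1 h.g
  have h1 : wp (qw 3 3) j ∈ J := hE J hJ.isT hJ.mul.sq j hj
  have h2 := wp_Cn (φ := qw 3 3) (fun _ _ huv => qw_perm huv) hc
  have h3 : ∀ x : P, x ∈ Submodule.span ℤ {f | ∃ (u v : List ℕ) (a b : ℕ),
      5 ≤ u.length + v.length + 2 ∧ qw 3 3 (u ++ a :: b :: v) ∧ f = mon u * cm a b * mon v} →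
      x ∈ (J ⊔ Cn 7) ⊔ c_S := by
    intro x hx'
    induction hx' using Submodule.span_induction with
    | mem x hx' =>
      obtain ⟨u, v, a, b, h4, h5, rfl⟩ := hx'
      have h6 : qw 3 3 (u ++ b :: a :: v) :=
        (qw_perm (List.Perm.append_left u (List.Perm.swap a b v))).2 h5
      have hL : (u ++ a :: b :: v).length = u.length + v.length + 2 := by
        rw [List.length_append, List.length_cons, List.length_cons]
        omega
      have hL' : (u ++ b :: a :: v).length = u.length + v.length + 2 := by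
        rw [List.length_append, List.length_cons, List.length_cons]
        omega
      rcases (by omega : u.length + v.length + 2 = 5 ∨ u.length + v.length + 2 = 6 ∨
        7 ≤ u.length + v.length + 2) with h7 | h7 | h7
      · rw [c_word]
        exact Submodule.sub_mem _ (c_five h hx h5 (by omega)) (c_five h hx h6 (by omega))
      · exfalso
        have h8 := c_sum _ h5.1
        have q0 := h5.2 0 (by omega)
        have q1 := h5.2 1 (by omega)
        have q2 := h5.2 2 (by omega)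
        omega
      · exact Submodule.mem_sup_left (Submodule.mem_sup_right
          (Submodule.subset_span ⟨u, v, a, b, h7, rfl⟩))
    | zero => exact Submodule.zero_mem _
    | add x y _ _ hx' hy' => exact Submodule.add_mem _ hx' hy'
    | smul c x _ hx' => exact Submodule.smul_mem _ _ hx'
  rw [← hEf, ← hjc, map_add]
  exact Submodule.add_mem _ (Submodule.mem_sup_left (Submodule.mem_sup_left h1)) (h3 _ h2)

private theorem c_sb (σ : ℕ → ℕ) (w : List ℕ) : sb (fun z => X (σ z)) (mon w) = mon (w.map σ) := by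
  rw [sb_mon]
  unfold mon
  rw [List.map_map]
  rfl

/-- the linearisation of an exceptional word -/
private theorem c_li {J : Submodule ℤ P} (h : DD J) {i j k : ℕ}
    (hc : (i = 0 ∧ j = 1 ∧ k = 2) ∨ (i = 1 ∧ j = 0 ∧ k = 2) ∨ (i = 2 ∧ j = 0 ∧ k = 1)) :
    li i i 3 4 (mon [i, i, j, k, i]) - (2 : ℤ) • (Yw 5 i + Yw 5 3 + Yw 5 4) ∈ J ⊔ Cn 7 := by
  have hij : i ∉ ([j, k] : List ℕ) := by
    rcases hc with ⟨rfl, rfl, rfl⟩ | ⟨rfl, rfl, rfl⟩ | ⟨rfl, rfl, rfl⟩ <;> decide
  have e := li_three (i := i) i 3 4 (u := []) (v := []) (s := [j, k]) (t := [])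
    (List.not_mem_nil) (List.not_mem_nil) hij (List.not_mem_nil)
  simp only [List.nil_append, List.cons_append] at e
  rw [e]
  have q : ∀ a b c : ℕ, [a, b, j, k].Perm ((List.range 5).erase c) →
      mon [a, b, j, k, c] - Yw 5 c ∈ J ⊔ Cn 7 := by
    intro a b c hp
    have h1 := h.perm hp c (by simp)
    exact h1
  have h1 : mon [i, 3, j, k, 4] - Yw 5 4 ∈ J ⊔ Cn 7 := q _ _ _ (by
    rcases hc with ⟨rfl, rfl, rfl⟩ | ⟨rfl, rfl, rfl⟩ | ⟨rfl, rfl, rfl⟩ <;> decide)
  have h2 : mon [i, 4, j, k, 3] - Yw 5 3 ∈ J ⊔ Cn 7 := q _ _ _ (by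
    rcases hc with ⟨rfl, rfl, rfl⟩ | ⟨rfl, rfl, rfl⟩ | ⟨rfl, rfl, rfl⟩ <;> decide)
  have h3 : mon [3, i, j, k, 4] - Yw 5 4 ∈ J ⊔ Cn 7 := q _ _ _ (by
    rcases hc with ⟨rfl, rfl, rfl⟩ | ⟨rfl, rfl, rfl⟩ | ⟨rfl, rfl, rfl⟩ <;> decide)
  have h4 : mon [3, 4, j, k, i] - Yw 5 i ∈ J ⊔ Cn 7 := q _ _ _ (by
    rcases hc with ⟨rfl, rfl, rfl⟩ | ⟨rfl, rfl, rfl⟩ | ⟨rfl, rfl, rfl⟩ <;> decide)
  have h5 : mon [4, i, j, k, 3] - Yw 5 3 ∈ J ⊔ Cn 7 := q _ _ _ (by
    rcases hc with ⟨rfl, rfl, rfl⟩ | ⟨rfl, rfl, rfl⟩ | ⟨rfl, rfl, rfl⟩ <;> decide)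
  have h6 : mon [4, 3, j, k, i] - Yw 5 i ∈ J ⊔ Cn 7 := q _ _ _ (by
    rcases hc with ⟨rfl, rfl, rfl⟩ | ⟨rfl, rfl, rfl⟩ | ⟨rfl, rfl, rfl⟩ <;> decide)
  have := Submodule.add_mem _ (Submodule.add_mem _ (Submodule.add_mem _ (Submodule.add_mem _
    (Submodule.add_mem _ h1 h2) h3) h4) h5) h6
  convert this using 1
  rw [two_smul]
  abel

/-- if one of the three coefficients is prime to 3 then `Cn 5 ≤ J` -/
private theorem c_step {J : Submodule ℤ P} (h : DD J) {i j k : ℕ}
    (hc : (i = 0 ∧ j = 1 ∧ k = 2) ∨ (i = 1 ∧ j = 0 ∧ k = 2) ∨ (i = 2 ∧ j = 0 ∧ k = 1)) {r : ℤ}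
    (hr : ¬ (3 : ℤ) ∣ r) (h1 : r • li i i 3 4 (mon [i, i, j, k, i]) ∈ J ⊔ Cn 7) : Cn 5 ≤ J := by
  have hT : IsT (J ⊔ Cn 7) := isT_sup h.isT (isT_Cn 7)
  have hm : Mul (((3 : ℕ) : ℤ) ^ 2) (J ⊔ Cn 7) := h.mul.sq.mono le_sup_left
  have h2 := Submodule.smul_mem _ r (c_li h hc)
  rw [smul_sub] at h2
  have h3 := Submodule.sub_mem _ h1 h2
  rw [sub_sub_cancel, smul_smul] at h3
  have hY : ∀ c, Yw 5 c ∈ Pp := by
    intro c
    unfold Yw
    exact mon_mem (by simp)
  have hr2 : ¬ ((3 : ℕ) : ℤ) ∣ r * 2 := by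
    intro h'
    apply hr
    have : ((3 : ℕ) : ℤ) = 3 := rfl
    rw [this] at h'
    omega
  have h4 : Yw 5 i + Yw 5 3 + Yw 5 4 ∈ J ⊔ Cn 7 :=
    cancel h.pp hm hr2 (Submodule.add_mem _ (Submodule.add_mem _ (hY _) (hY _)) (hY _)) h3
  have h5 := sb_mem hT (φ := fun z => X (if z = i then j else if z = j then i else z)) (fun z => X_mem _) h4
  rw [map_add, map_add] at h5
  unfold Yw at h5
  rw [c_sb, c_sb, c_sb, List.map_append, List.map_append, List.map_append, List.map_singleton,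
    List.map_singleton, List.map_singleton] at h5
  have t1 : (if i = i then j else if i = j then i else i) = j := if_pos rfl
  have t3 : (if 3 = i then j else if 3 = j then i else 3) = 3 := by
    rcases hc with ⟨rfl, rfl, rfl⟩ | ⟨rfl, rfl, rfl⟩ | ⟨rfl, rfl, rfl⟩ <;> rfl
  have t4 : (if 4 = i then j else if 4 = j then i else 4) = 4 := by
    rcases hc with ⟨rfl, rfl, rfl⟩ | ⟨rfl, rfl, rfl⟩ | ⟨rfl, rfl, rfl⟩ <;> rfl
  rw [t1, t3, t4] at h5
  have p1 : (((List.range 5).erase i).map (fun z => if z = i then j else if z = j then i else z)).Perm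
      ((List.range 5).erase j) := by
    rcases hc with ⟨rfl, rfl, rfl⟩ | ⟨rfl, rfl, rfl⟩ | ⟨rfl, rfl, rfl⟩ <;> decide
  have p3 : (((List.range 5).erase 3).map (fun z => if z = i then j else if z = j then i else z)).Perm
      ((List.range 5).erase 3) := by
    rcases hc with ⟨rfl, rfl, rfl⟩ | ⟨rfl, rfl, rfl⟩ | ⟨rfl, rfl, rfl⟩ <;> decide
  have p4 : (((List.range 5).erase 4).map (fun z => if z = i then j else if z = j then i else z)).Perm
      ((List.range 5).erase 4) := by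
    rcases hc with ⟨rfl, rfl, rfl⟩ | ⟨rfl, rfl, rfl⟩ | ⟨rfl, rfl, rfl⟩ <;> decide
  have l1 : (((List.range 5).erase i).map (fun z => if z = i then j else if z = j then i else z)).length = 4 := by
    rcases hc with ⟨rfl, rfl, rfl⟩ | ⟨rfl, rfl, rfl⟩ | ⟨rfl, rfl, rfl⟩ <;> rfl
  have l3 : (((List.range 5).erase 3).map (fun z => if z = i then j else if z = j then i else z)).length = 4 := by
    rw [List.length_map]
    rfl
  have l4 : (((List.range 5).erase 4).map (fun z => if z = i then j else if z = j then i else z)).length = 4 := by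
    rw [List.length_map]
    rfl
  have s1 := h.perm p1 j (by omega)
  have s3 := h.perm p3 3 (by omega)
  have s4 := h.perm p4 4 (by omega)
  rw [l1] at s1
  rw [l3] at s3
  rw [l4] at s4
  have h6 : Yw 5 i - Yw 5 j ∈ J ⊔ Cn (5 + 2) := by
    have h7 := Submodule.add_mem _ (Submodule.sub_mem _ h4 h5) (Submodule.add_mem _ (Submodule.add_mem _ s1 s3) s4)
    have h8 : (5 + 2 : ℕ) = 4 + 3 := rfl
    rw [h8]
    convert h7 using 1
    unfold Yw
    abel
  have hi : i < 5 := by omega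
  have hj : j < 5 := by omega
  have hij : i ≠ j := by omega
  exact h.Cn_le (by norm_num) hi hj hij h6

private theorem c_zero {i : ℕ} {w : List ℕ} (h1 : w.count i = 1) : li i i 3 4 (mon w) = 0 :=
  li_zero i 3 4 (by omega) (by omega)

theorem ex3c {J : Submodule ℤ P} (h : DD J) (hx : X 0 ^ 3 * X 1 * X 2 ∈ J) : g3 ∈ J := by
  obtain ⟨a, ha, b, hb, hab⟩ := Submodule.mem_sup.1 (c_dec h hx)
  unfold c_S at hb
  rw [Submodule.mem_span_insert] at hb
  obtain ⟨r0, b', hb', rfl⟩ := hb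
  rw [Submodule.mem_span_insert] at hb'
  obtain ⟨r1, b'', hb'', rfl⟩ := hb'
  rw [Submodule.mem_span_singleton] at hb''
  obtain ⟨r2, rfl⟩ := hb''
  have ea : a = g3 - (r0 • mon [0, 0, 1, 2, 0] + (r1 • mon [1, 1, 0, 2, 1] + r2 • mon [2, 2, 0, 1, 2])) := by
    rw [← hab]
    abel
  have hQ : ∀ w : List ℕ, qw 3 3 w → mon w ∈ Q 3 3 := fun w hw => Submodule.subset_span ⟨w, hw, rfl⟩
  have haQ : a ∈ Q 3 3 := by
    rw [ea]
    refine Submodule.sub_mem _ c_q3 (Submodule.add_mem _ (Submodule.smul_mem _ _ (hQ _ ?_))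
      (Submodule.add_mem _ (Submodule.smul_mem _ _ (hQ _ ?_)) (Submodule.smul_mem _ _ (hQ _ ?_))))
    · unfold qw
      decide
    · unfold qw
      decide
    · unfold qw
      decide
  have haJ := q33 h hx haQ ha
  have hli : ∀ i, li i i 3 4 a ∈ J := fun i => TOp_li 3 i i 3 4 J h.isT h.mul.sq a haJ
  have hg : ∀ i < 3, li i i 3 4 g3 = 0 := by
    intro i hi
    rw [c_g3, map_sub]
    interval_cases i
    · rw [c_zero (by decide), c_zero (by decide), sub_zero]
    · rw [c_zero (by decide), c_zero (by decide), sub_zero]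
    · rw [c_zero (by decide), c_zero (by decide), sub_zero]
  by_cases q0 : (3 : ℤ) ∣ r0
  swap
  · have h1 := hli 0
    rw [ea, map_sub, hg 0 (by omega), map_add, map_add, map_smul, map_smul, map_smul,
      c_zero (i := 0) (w := [1, 1, 0, 2, 1]) (by decide), c_zero (i := 0) (w := [2, 2, 0, 1, 2]) (by decide),
      smul_zero, smul_zero, add_zero, add_zero, zero_sub, Submodule.neg_mem_iff] at h1
    have h2 := c_step h (i := 0) (j := 1) (k := 2) (by decide) q0 (Submodule.mem_sup_left h1)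
    have h3 := h.g
    rwa [sup_eq_left.2 h2] at h3
  by_cases q1 : (3 : ℤ) ∣ r1
  swap
  · have h1 := hli 1
    rw [ea, map_sub, hg 1 (by omega), map_add, map_add, map_smul, map_smul, map_smul,
      c_zero (i := 1) (w := [0, 0, 1, 2, 0]) (by decide), c_zero (i := 1) (w := [2, 2, 0, 1, 2]) (by decide),
      smul_zero, smul_zero, add_zero, zero_add, zero_sub, Submodule.neg_mem_iff] at h1
    have h2 := c_step h (i := 1) (j := 0) (k := 2) (by decide) q1 (Submodule.mem_sup_left h1)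
    have h3 := h.g
    rwa [sup_eq_left.2 h2] at h3
  by_cases q2 : (3 : ℤ) ∣ r2
  swap
  · have h1 := hli 2
    rw [ea, map_sub, hg 2 (by omega), map_add, map_add, map_smul, map_smul, map_smul,
      c_zero (i := 2) (w := [0, 0, 1, 2, 0]) (by decide), c_zero (i := 2) (w := [1, 1, 0, 2, 1]) (by decide),
      smul_zero, smul_zero, zero_add, zero_add, zero_sub, Submodule.neg_mem_iff] at h1
    have h2 := c_step h (i := 2) (j := 0) (k := 1) (by decide) q2 (Submodule.mem_sup_left h1)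
    have h3 := h.g
    rwa [sup_eq_left.2 h2] at h3
  have hd : ∀ (r : ℤ) (w : List ℕ), (3 : ℤ) ∣ r → w ≠ [] → r • mon w ∈ J := by
    intro r w hr hw
    obtain ⟨s, rfl⟩ := hr
    rw [mul_smul]
    exact h.mul _ (Submodule.smul_mem _ _ (mon_mem hw))
  have h9 := Submodule.add_mem _ haJ (Submodule.add_mem _ (hd r0 [0, 0, 1, 2, 0] q0 (by simp))
    (Submodule.add_mem _ (hd r1 [1, 1, 0, 2, 1] q1 (by simp)) (hd r2 [2, 2, 0, 1, 2] q2 (by simp))))
  rw [hab] at h9
  exact h9

end ADP
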