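import Pool.Agent.ADP.Ex3a
import Pool.Agent.ADP.Ex3b
import Pool.Agent.ADP.Ex3c
import Pool.Agent.ADP.Ex1
import Pool.Agent.ADP.Ex2
import Pool.Agent.ADP.A0

/-!
# ADP-Ex3: the types for `p = 3` (assembly)
-/

namespace ADP

open AD ADN ADC

private theorem ex3_w1 : (X 0 ^ 3 * X 1 : P) = mon [0, 0, 0, 1] := by
  simp only [mon_cons, mon_nil, pow_succ, pow_zero, one_mul, mul_one, mul_assoc]

private theorem ex3_w2 : (X 0 * X 1 ^ 3 : P) = mon [0, 1, 1, 1] := by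
  simp only [mon_cons, mon_nil, pow_succ, pow_zero, one_mul, mul_one, mul_assoc]

private theorem ex3_w3 : (X 1 ^ 3 * X 0 : P) = mon [1, 1, 1, 0] := by
  simp only [mon_cons, mon_nil, pow_succ, pow_zero, one_mul, mul_one, mul_assoc]

private theorem ex3_perm : mon [0, 1, 1, 1] - mon [1, 1, 1, 0] ∈ Cn 4 := by
  have h3 : ([0, 1, 1, 1] : List ℕ).Perm [1, 1, 1, 0] := by decide
  have h4 := perm_Cn h3
  have h5 : ([0, 1, 1, 1] : List ℕ).length = 4 := rfl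
  rw [h5] at h4
  exact h4

private theorem ex3_Q : (X 0 ^ 3 * X 1 - X 1 ^ 3 * X 0 : P) ∈ Q 3 2 := by
  rw [ex3_w1, ex3_w3]
  refine Submodule.sub_mem _ (Submodule.subset_span ⟨_, ⟨by simp, fun i hi => ?_⟩, rfl⟩)
    (Submodule.subset_span ⟨_, ⟨by simp, fun i hi => ?_⟩, rfl⟩)
  · interval_cases i <;> decide
  · interval_cases i <;> decide

theorem ex3 {J : Submodule ℤ P} (hJ : Tam J) (h : g3 ∈ J ⊔ Fge 4) :
    g3 ∈ J ∧ X 0 ^ 3 * X 1 * X 2 ∈ J ∧ X 0 ^ 3 * X 1 - X 1 ^ 3 * X 0 ∈ J := by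
  have hD : DD J := DD_of hJ h
  rcases ex3a hD with hC | h6
  · have hC5 : J ⊔ Cn 5 ≤ J := sup_le le_rfl ((Cn_anti (by norm_num : 4 ≤ 5)).trans hC)
    have hC4 : J ⊔ Cn 4 ≤ J := sup_le le_rfl hC
    refine ⟨hC5 hD.g, hC5 hJ.t1, ?_⟩
    have h1 := hC4 hJ.t2
    rw [ex3_w1, ex3_w2] at h1
    have h2 := hC ex3_perm
    rw [ex3_w1, ex3_w3]
    have e : mon [0, 0, 0, 1] - mon [1, 1, 1, 0] =
        (mon [0, 0, 0, 1] - mon [0, 1, 1, 1]) + (mon [0, 1, 1, 1] - mon [1, 1, 1, 0]) :=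
      (sub_add_sub_cancel _ _ _).symm
    rw [e]
    exact J.add_mem h1 h2
  · have hx := ex3b hD h6
    exact ⟨ex3c hD hx, hx, q32 hD hx ex3_Q h6⟩

/-- the exchange of `x_0` and `x_2` -/
private noncomputable def ex3_s (z : ℕ) : P := if z = 0 then X 2 else if z = 2 then X 0 else X z

private theorem ex3_sP (z : ℕ) : ex3_s z ∈ Pp := by
  unfold ex3_s
  split_ifs <;> exact X_mem _

private theorem ex3_rX (i : ℕ) : rv (X i) = X i := by
  have h := rv_mon [i]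
  rw [List.reverse_singleton, mon_single] at h
  exact h

private theorem ex3_g3 : rv g3 = sb ex3_s g3' := by
  unfold g3 g3'
  simp only [rv_mul, map_sub, map_mul, sb_X, ex3_rX]
  simp [ex3_s]

private theorem ex3_g4 : rv g4 = sb ex3_s g4' := by
  unfold g4 g4'
  simp only [rv_mul, map_add, map_mul, sb_X, ex3_rX]
  simp [ex3_s]

theorem ty_of {J : Submodule ℤ P} (hJ : Tam J) (h1 : ¬ J ≤ GP 3 1) (h2 : ¬ J ≤ TM) : Ty J ∨ Ty (op J) := by
  have hT : IsT (J ⊔ Fge 4) := isT_sup hJ.isT (isT_Fge 4 (by norm_num))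
  have hop : op (J ⊔ Fge 4) = op J ⊔ Fge 4 := by rw [op_sup, op_Fge]
  rcases A0 hT (Mul.mono hJ.mul le_sup_left) le_sup_right (fun h => h1 (le_sup_left.trans h))
    (fun h => h2 (le_sup_left.trans h)) with h | h | h | h | h | h | h
  · exact Or.inl (Or.inl (ex1 hJ.toBt h))
  · exact Or.inl (Or.inr (Or.inl (ex2 hJ h)))
  · exact Or.inl (Or.inr (Or.inr (Or.inl (ex3 hJ h))))
  · refine Or.inr (Or.inr (Or.inr (Or.inl (ex3 (Tam_op hJ) ?_))))
    rw [← hop, mem_op, ex3_g3]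
    exact sb_mem hT ex3_sP h
  · exact Or.inl (Or.inr (Or.inr (Or.inr (Or.inl (ex4 hJ.toBt h)))))
  · refine Or.inr (Or.inr (Or.inr (Or.inr (Or.inl (ex4 (Tam_op hJ).toBt ?_)))))
    rw [← hop, mem_op, ex3_g4]
    exact sb_mem hT ex3_sP h
  · exact Or.inl (Or.inr (Or.inr (Or.inr (Or.inr (ex5 hJ h)))))

end ADP
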