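import Pool.Agent.ADP.DD
import Pool.Agent.ADP.Lin3

/-!
# ADP-Ex3a: the type `[x,y] z`, first step

Put `T6 = J ⊔ Cn 6`, a T-ideal (`isT_sup`, `isT_Cn`) containing `Dn 4` (`DD.D`) and `3 P⁺`; `Y_i = Yw 4 i`.
1. `X 0 ^ 3 * X 1 - X 0 * X 1 ^ 3 ∈ J ⊔ Cn 4` (`t2`); apply `wp (qw 3 2)` (`TOp_qw`, `wp_Cn` with `qw_perm`).  The `Cn 4` part becomes a combination of `mon u * cm i j * mon v`,
   `4 ≤ length`, `qw 3 2 (u ++ i :: j :: v)`.  If `v ≠ []`: in `Dn 4 ≤ T6`.  If the length is `≥ 5` then (both counts odd) it is `≥ 6`: in `Cn 6`.  Otherwise `v = []`, `u.length = 2`, `i, j ∈ {0,1}`, and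
   (if `i ≠ j`; else the element is 0) `u = [0,0]` or `u = [1,1]`.  So there are integers `c`, `c'` with
   `X 0 ^ 3 * X 1 - X 0 * X 1 ^ 3 - c • (X 0 ^ 2 * cm 0 1) - c' • (X 1 ^ 2 * cm 0 1) ∈ T6`.
2. `li 0 0 2 3` (`TOp_li`, `li_zero`, `li_three`): `X 0 ^ 3 * X 1 ↦` six words with last letter `1`, all congruent modulo `Dn 4`: `≡ 6 Y_1 ≡ 0`; `X 0 * X 1 ^ 3 ↦ 0`; `X 0 ^ 2 * cm 0 1 = xxxy - xxyx ↦ ≡ -2 (Y_0 + Y_2 + Y_3)`;
   `X 1 ^ 2 * cm 0 1 ↦ 0`.  So `c • 2 (Y_0 + Y_2 + Y_3) ∈ T6`.  If `3 ∤ c`: `Y_0 + Y_2 + Y_3 ∈ T6` (`cancel`), rename `0 ↔ 1`: `Y_1 + Y_2 + Y_3 ∈ T6`; the difference `Y_0 - Y_1 ∈ J ⊔ Cn 6`: `DD.Cn_le` with `n = 4`.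
3. `li 1 1 2 3`: `X 0 ^ 3 * X 1 ↦ 0`, `X 0 * X 1 ^ 3 ↦ ≡ 2 (Y_1 + Y_2 + Y_3)`, `X 0 ^ 2 * cm 0 1 ↦ 0`, `X 1 ^ 2 * cm 0 1 = yyxy - yyyx ↦ ≡ 2 (Y_1 + Y_2 + Y_3) - 6 Y_0`.  So `2 (1 + c') (Y_1 + Y_2 + Y_3) ∈ T6`;
   if `3 ∤ 1 + c'`: `Cn 4 ≤ J` as before.
4. Otherwise `c ≡ 0`, `c' ≡ -1` modulo 3: `X 0 ^ 3 * X 1 - X 0 * X 1 ^ 3 + X 1 ^ 2 * cm 0 1 ∈ T6`, and `X 1 ^ 2 * cm 0 1 = yyxy - yyyx ≡ xyyy - yyyx` modulo `Dn 4`: the second alternative.
-/

namespace ADP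

open AD ADN ADC

private theorem ex3a_len {w : List ℕ} (h : ∀ i ∈ w, i < 2) : w.length = w.count 0 + w.count 1 := by
  induction w with
  | nil => rfl
  | cons x w ih =>
    have h1 := ih fun i hi => h i (List.mem_cons_of_mem _ hi)
    have h2 : x < 2 := h x List.mem_cons_self
    rw [List.length_cons, h1, List.count_cons, List.count_cons]
    interval_cases x <;> simp <;> omega

private theorem ex3a_w1 : (X 0 ^ 3 * X 1 : P) = mon [0, 0, 0, 1] := by
  simp only [mon_cons, mon_nil, pow_succ, pow_zero, one_mul, mul_one, mul_assoc]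

private theorem ex3a_w2 : (X 0 * X 1 ^ 3 : P) = mon [0, 1, 1, 1] := by
  simp only [mon_cons, mon_nil, pow_succ, pow_zero, one_mul, mul_one, mul_assoc]

private theorem ex3a_w3 : (X 0 ^ 2 * cm 0 1 : P) = mon [0, 0, 0, 1] - mon [0, 0, 1, 0] := by
  simp only [cm, mon_cons, mon_nil, pow_succ, pow_zero, one_mul, mul_one, mul_assoc, mul_sub]

private theorem ex3a_w4 : (X 1 ^ 2 * cm 0 1 : P) = mon [1, 1, 0, 1] - mon [1, 1, 1, 0] := by
  simp only [cm, mon_cons, mon_nil, pow_succ, pow_zero, one_mul, mul_one, mul_assoc, mul_sub]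

private theorem ex3a_w5 : (X 1 ^ 3 * X 0 : P) = mon [1, 1, 1, 0] := by
  simp only [mon_cons, mon_nil, pow_succ, pow_zero, one_mul, mul_one, mul_assoc]

private theorem ex3a_cm {i : ℕ} : cm i i = 0 := by
  simp [cm]

private theorem ex3a_cm' : cm 1 0 = - cm 0 1 := by
  simp [cm]

private theorem ex3a_step1 {J : Submodule ℤ P} (h : DD J) : ∃ c c' : ℤ,
    X 0 ^ 3 * X 1 - X 0 * X 1 ^ 3 - c • (X 0 ^ 2 * cm 0 1) - c' • (X 1 ^ 2 * cm 0 1) ∈ J ⊔ Cn 6 := by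
  set V : Submodule ℤ P := (J ⊔ Cn 6) ⊔ Submodule.span ℤ {X 0 ^ 2 * cm 0 1, X 1 ^ 2 * cm 0 1} with hV
  have hA : X 0 ^ 2 * cm 0 1 ∈ V := Submodule.mem_sup_right (Submodule.subset_span (by simp))
  have hB : X 1 ^ 2 * cm 0 1 ∈ V := Submodule.mem_sup_right (Submodule.subset_span (by simp))
  have hle : Submodule.span ℤ {f | ∃ (u v : List ℕ) (i j : ℕ), 4 ≤ u.length + v.length + 2 ∧
      qw 3 2 (u ++ i :: j :: v) ∧ f = mon u * cm i j * mon v} ≤ V := by
    rw [Submodule.span_le]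
    rintro f ⟨u, v, i, j, hlen, hq, rfl⟩
    by_cases hv : v = []
    · subst hv
      have hlt : ∀ k ∈ u ++ [i, j], k < 2 := hq.1
      have hi : i < 2 := hlt i (by simp)
      have hj : j < 2 := hlt j (by simp)
      have hL := ex3a_len hlt
      have h0 := hq.2 0 (by norm_num)
      have h1 := hq.2 1 (by norm_num)
      by_cases hlen5 : 5 ≤ u.length + 2
      · have h6 : 6 ≤ u.length + ([] : List ℕ).length + 2 := by
          rw [List.length_append] at hL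
          simp only [List.length_cons, List.length_nil] at hL ⊢
          omega
        exact Submodule.mem_sup_left (Submodule.mem_sup_right
          (Submodule.subset_span ⟨u, [], i, j, h6, rfl⟩))
      · have hu : u.length = 2 := by
          simp only [List.length_nil] at hlen
          omega
        obtain ⟨a, b, rfl⟩ := List.length_eq_two.1 hu
        have ha : a < 2 := hlt a (by simp)
        have hb : b < 2 := hlt b (by simp)
        rw [mon_nil, mul_one]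
        have e00 : mon [0, 0] = X 0 ^ 2 := by
          simp only [mon_cons, mon_nil, pow_succ, pow_zero, one_mul, mul_one]
        have e11 : mon [1, 1] = X 1 ^ 2 := by
          simp only [mon_cons, mon_nil, pow_succ, pow_zero, one_mul, mul_one]
        have hnA : X 0 ^ 2 * cm 1 0 ∈ V := by
          rw [ex3a_cm', mul_neg]
          exact V.neg_mem hA
        have hnB : X 1 ^ 2 * cm 1 0 ∈ V := by
          rw [ex3a_cm', mul_neg]
          exact V.neg_mem hB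
        interval_cases i <;> interval_cases j <;>
          first
          | (rw [ex3a_cm, mul_zero]; exact V.zero_mem)
          | (interval_cases a <;> interval_cases b <;>
              first
              | (exfalso; revert h0; decide)
              | (rw [e00]; assumption)
              | (rw [e11]; assumption))
    · exact Submodule.mem_sup_left (h.D 4 (by norm_num)
        (Submodule.subset_span ⟨u, v, i, j, hv, hlen, rfl⟩))
  have ha : X 0 ^ 3 * X 1 - X 0 * X 1 ^ 3 ∈ V := by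
    obtain ⟨f, hf, g, hg, hfg⟩ := Submodule.mem_sup.1 h.t2
    have h1 : wp (qw 3 2) (X 0 ^ 3 * X 1 - X 0 * X 1 ^ 3) = X 0 ^ 3 * X 1 - X 0 * X 1 ^ 3 := by
      rw [ex3a_w1, ex3a_w2, map_sub, wp_pos, wp_pos]
      · refine ⟨by simp, fun i hi => ?_⟩
        interval_cases i <;> decide
      · refine ⟨by simp, fun i hi => ?_⟩
        interval_cases i <;> decide
    rw [← h1, ← hfg, map_add]
    refine V.add_mem ?_ ?_
    · exact Submodule.mem_sup_left (Submodule.mem_sup_left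
        (TOp_qw Nat.prime_three le_rfl 2 J h.isT h.mul.sq f hf))
    · exact hle (wp_Cn (fun u v huv => qw_perm huv) hg)
  obtain ⟨t, ht, s, hs, hts⟩ := Submodule.mem_sup.1 ha
  obtain ⟨c, c', rfl⟩ := Submodule.mem_span_pair.1 hs
  refine ⟨c, c', ?_⟩
  rw [← hts]
  have : t + (c • (X 0 ^ 2 * cm 0 1) + c' • (X 1 ^ 2 * cm 0 1)) - c • (X 0 ^ 2 * cm 0 1) -
      c' • (X 1 ^ 2 * cm 0 1) = t := by abel
  rw [this]
  exact ht

private theorem ex3a_Y0 : Yw 4 0 = mon [1, 2, 3, 0] := rfl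
private theorem ex3a_Y1 : Yw 4 1 = mon [0, 2, 3, 1] := rfl
private theorem ex3a_Y2 : Yw 4 2 = mon [0, 1, 3, 2] := rfl
private theorem ex3a_Y3 : Yw 4 3 = mon [0, 1, 2, 3] := rfl

private theorem ex3a_swap {J : Submodule ℤ P} (h : DD J) {a b : ℕ} (ha : a = 0 ∧ b = 1 ∨ a = 1 ∧ b = 0)
    (h1 : Yw 4 a + Yw 4 2 + Yw 4 3 ∈ J ⊔ Cn 6) : Cn 4 ≤ J := by
  have hT : IsT (J ⊔ Cn 6) := isT_sup h.isT (isT_Cn 6)
  have hp : ∀ a b c d a' b' c' : ℕ, [a, b, c].Perm [a', b', c'] →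
      (J ⊔ Cn 6).mkQ (mon [a, b, c, d]) = (J ⊔ Cn 6).mkQ (mon [a', b', c', d]) := by
    intro a b c d a' b' c' hpm
    rw [← sub_eq_zero, ← map_sub, Submodule.mkQ_apply, Submodule.Quotient.mk_eq_zero]
    exact h.D 4 (by norm_num) (perm_Dn hpm (w := [d]) (by simp))
  have h2 := sb_mem hT (φ := fun i => if i = 0 then X 1 else if i = 1 then X 0 else X i) (by
    intro i
    split_ifs <;> exact X_mem _) h1
  have e0 : sb (fun i => if i = 0 then X 1 else if i = 1 then X 0 else X i) (Yw 4 0) =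
      mon [0, 2, 3, 1] := by
    rw [ex3a_Y0, sb_mon]
    rfl
  have e1 : sb (fun i => if i = 0 then X 1 else if i = 1 then X 0 else X i) (Yw 4 1) =
      mon [1, 2, 3, 0] := by
    rw [ex3a_Y1, sb_mon]
    rfl
  have e2 : sb (fun i => if i = 0 then X 1 else if i = 1 then X 0 else X i) (Yw 4 2) =
      mon [1, 0, 3, 2] := by
    rw [ex3a_Y2, sb_mon]
    rfl
  have e3 : sb (fun i => if i = 0 then X 1 else if i = 1 then X 0 else X i) (Yw 4 3) =
      mon [1, 0, 2, 3] := by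
    rw [ex3a_Y3, sb_mon]
    rfl
  have q1 := (Submodule.Quotient.mk_eq_zero _).2 h1
  have q2 := (Submodule.Quotient.mk_eq_zero _).2 h2
  rw [← Submodule.mkQ_apply] at q1 q2
  simp only [map_add, e2, e3] at q2
  simp only [map_add, ex3a_Y2, ex3a_Y3] at q1
  have p2 := hp 1 0 3 2 0 1 3 (by decide)
  have p3 := hp 1 0 2 3 0 1 2 (by decide)
  rw [p2, p3] at q2
  rcases ha with ⟨rfl, rfl⟩ | ⟨rfl, rfl⟩
  · refine h.Cn_le (n := 4) (a := 0) (b := 1) (by norm_num) (by norm_num) (by norm_num)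
      (by norm_num) ?_
    rw [← Submodule.Quotient.mk_eq_zero, ← Submodule.mkQ_apply, map_sub, ex3a_Y1, sub_eq_zero]
    rw [e0, add_assoc] at q2
    rw [add_assoc] at q1
    exact add_right_cancel (q1.trans q2.symm)
  · refine h.Cn_le (n := 4) (a := 1) (b := 0) (by norm_num) (by norm_num) (by norm_num)
      (by norm_num) ?_
    rw [← Submodule.Quotient.mk_eq_zero, ← Submodule.mkQ_apply, map_sub, ex3a_Y0, sub_eq_zero]
    rw [e1, add_assoc] at q2
    rw [add_assoc] at q1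
    exact add_right_cancel (q1.trans q2.symm)

theorem ex3a {J : Submodule ℤ P} (h : DD J) : Cn 4 ≤ J ∨ X 0 ^ 3 * X 1 - X 1 ^ 3 * X 0 ∈ J ⊔ Cn 6 := by
  obtain ⟨c, c', hc⟩ := ex3a_step1 h
  have hT : IsT (J ⊔ Cn 6) := isT_sup h.isT (isT_Cn 6)
  have hM : Mul (3 : ℤ) (J ⊔ Cn 6) := Mul.mono h.mul le_sup_left
  have hM9 : Mul (((3 : ℕ) : ℤ) ^ 2) (J ⊔ Cn 6) := Mul.sq (p := 3) hM
  set q := (J ⊔ Cn 6).mkQ with hq
  have q0 : ∀ f : P, q f = 0 ↔ f ∈ J ⊔ Cn 6 := fun f => by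
    rw [hq, Submodule.mkQ_apply, Submodule.Quotient.mk_eq_zero]
  have hp : ∀ a b c d a' b' c' : ℕ, [a, b, c].Perm [a', b', c'] →
      q (mon [a, b, c, d]) = q (mon [a', b', c', d]) := by
    intro a b c d a' b' c' hpm
    rw [← sub_eq_zero, ← map_sub, q0]
    exact h.D 4 (by norm_num) (perm_Dn hpm (w := [d]) (by simp))
  have h3 : ∀ w : List ℕ, w ≠ [] → (3 : ℤ) • q (mon w) = 0 := by
    intro w hw
    rw [← map_smul, q0]
    exact hM _ (mon_mem hw)
  have k0 : ∀ x y z : ℕ, [x, y, z].Perm [1, 2, 3] → q (mon [x, y, z, 0]) = q (Yw 4 0) :=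
    fun x y z hxyz => hp x y z 0 1 2 3 hxyz
  have k1 : ∀ x y z : ℕ, [x, y, z].Perm [0, 2, 3] → q (mon [x, y, z, 1]) = q (Yw 4 1) :=
    fun x y z hxyz => hp x y z 1 0 2 3 hxyz
  have k2 : ∀ x y z : ℕ, [x, y, z].Perm [0, 1, 3] → q (mon [x, y, z, 2]) = q (Yw 4 2) :=
    fun x y z hxyz => hp x y z 2 0 1 3 hxyz
  have k3 : ∀ x y z : ℕ, [x, y, z].Perm [0, 1, 2] → q (mon [x, y, z, 3]) = q (Yw 4 3) :=
    fun x y z hxyz => hp x y z 3 0 1 2 hxyz
  have t0 : (3 : ℤ) • q (Yw 4 0) = 0 := h3 _ (by simp)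
  have t1 : (3 : ℤ) • q (Yw 4 1) = 0 := h3 _ (by simp)
  have hPp : ∀ a : ℕ, a = 0 ∨ a = 1 → Yw 4 a + Yw 4 2 + Yw 4 3 ∈ Pp := by
    intro a ha
    refine Pp.add_mem (Pp.add_mem ?_ ?_) ?_
    · exact mon_mem (by simp)
    · exact mon_mem (by simp)
    · exact mon_mem (by simp)
  rw [ex3a_w1, ex3a_w2, ex3a_w3, ex3a_w4] at hc
  -- linearisation in the letter 0
  have hL0 := TOp_li 3 0 0 2 3 _ hT hM9 _ hc
  have a1 : li 0 0 2 3 (mon [0, 0, 0, 1]) = mon [0, 2, 3, 1] + mon [0, 3, 2, 1] +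
      mon [2, 0, 3, 1] + mon [2, 3, 0, 1] + mon [3, 0, 2, 1] + mon [3, 2, 0, 1] :=
    li_three 0 2 3 (u := []) (v := []) (s := []) (t := [1]) (by simp) (by simp) (by simp) (by simp)
  have a2 : li 0 0 2 3 (mon [0, 0, 1, 0]) = mon [0, 2, 1, 3] + mon [0, 3, 1, 2] +
      mon [2, 0, 1, 3] + mon [2, 3, 1, 0] + mon [3, 0, 1, 2] + mon [3, 2, 1, 0] :=
    li_three 0 2 3 (u := []) (v := []) (s := [1]) (t := []) (by simp) (by simp) (by simp) (by simp)
  rw [map_sub, map_sub, map_sub, map_smul, map_smul, map_sub, map_sub, a1, a2,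
    li_zero 0 2 3 (w := [0, 1, 1, 1]) (by decide) (by decide),
    li_zero 0 2 3 (w := [1, 1, 0, 1]) (by decide) (by decide),
    li_zero 0 2 3 (w := [1, 1, 1, 0]) (by decide) (by decide), ← q0] at hL0
  simp only [map_sub, map_add, map_smul, map_zero] at hL0
  rw [k1 0 2 3 (by decide), k1 0 3 2 (by decide), k1 2 0 3 (by decide), k1 2 3 0 (by decide),
    k1 3 0 2 (by decide), k1 3 2 0 (by decide), k3 0 2 1 (by decide), k2 0 3 1 (by decide),
    k3 2 0 1 (by decide), k0 2 3 1 (by decide), k2 3 0 1 (by decide), k0 3 2 1 (by decide)] at hL0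
  have r0 : (c * 2) • (Yw 4 0 + Yw 4 2 + Yw 4 3) ∈ J ⊔ Cn 6 := by
    rw [← q0, map_smul, map_add, map_add]
    linear_combination (norm := module) hL0 + (2 * c - 2) • t1
  -- linearisation in the letter 1
  have hL1 := TOp_li 3 1 1 2 3 _ hT hM9 _ hc
  have b1 : li 1 1 2 3 (mon [0, 1, 1, 1]) = mon [0, 1, 2, 3] + mon [0, 1, 3, 2] +
      mon [0, 2, 1, 3] + mon [0, 2, 3, 1] + mon [0, 3, 1, 2] + mon [0, 3, 2, 1] :=
    li_three 1 2 3 (u := [0]) (v := []) (s := []) (t := []) (by simp) (by simp) (by simp) (by simp)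
  have b2 : li 1 1 2 3 (mon [1, 1, 0, 1]) = mon [1, 2, 0, 3] + mon [1, 3, 0, 2] +
      mon [2, 1, 0, 3] + mon [2, 3, 0, 1] + mon [3, 1, 0, 2] + mon [3, 2, 0, 1] :=
    li_three 1 2 3 (u := []) (v := []) (s := [0]) (t := []) (by simp) (by simp) (by simp) (by simp)
  have b3 : li 1 1 2 3 (mon [1, 1, 1, 0]) = mon [1, 2, 3, 0] + mon [1, 3, 2, 0] +
      mon [2, 1, 3, 0] + mon [2, 3, 1, 0] + mon [3, 1, 2, 0] + mon [3, 2, 1, 0] :=
    li_three 1 2 3 (u := []) (v := []) (s := []) (t := [0]) (by simp) (by simp) (by simp) (by simp)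
  rw [map_sub, map_sub, map_sub, map_smul, map_smul, map_sub, map_sub, b1, b2, b3,
    li_zero 1 2 3 (w := [0, 0, 0, 1]) (by decide) (by decide),
    li_zero 1 2 3 (w := [0, 0, 1, 0]) (by decide) (by decide), ← q0] at hL1
  simp only [map_sub, map_add, map_smul, map_zero] at hL1
  rw [k3 0 1 2 (by decide), k2 0 1 3 (by decide), k3 0 2 1 (by decide), k1 0 2 3 (by decide),
    k2 0 3 1 (by decide), k1 0 3 2 (by decide), k3 1 2 0 (by decide), k2 1 3 0 (by decide),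
    k3 2 1 0 (by decide), k1 2 3 0 (by decide), k2 3 1 0 (by decide), k1 3 2 0 (by decide),
    k0 1 2 3 (by decide), k0 1 3 2 (by decide), k0 2 1 3 (by decide), k0 2 3 1 (by decide),
    k0 3 1 2 (by decide), k0 3 2 1 (by decide)] at hL1
  have r1 : ((1 + c') * 2) • (Yw 4 1 + Yw 4 2 + Yw 4 3) ∈ J ⊔ Cn 6 := by
    rw [← q0, map_smul, map_add, map_add]
    linear_combination (norm := module) -hL1 + (2 * c') • t0
  by_cases hc3 : (3 : ℤ) ∣ c
  · by_cases hc3' : (3 : ℤ) ∣ 1 + c'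
    · right
      have m1 : mon [0, 0, 0, 1] - mon [0, 0, 1, 0] ∈ Pp :=
        Pp.sub_mem (mon_mem (by simp)) (mon_mem (by simp))
      have m2 : mon [1, 1, 0, 1] - mon [1, 1, 1, 0] ∈ Pp :=
        Pp.sub_mem (mon_mem (by simp)) (mon_mem (by simp))
      obtain ⟨k, hk⟩ := hc3
      obtain ⟨k', hk'⟩ := hc3'
      have n1 : c • (mon [0, 0, 0, 1] - mon [0, 0, 1, 0]) ∈ J ⊔ Cn 6 := by
        rw [hk, mul_comm, mul_smul]
        exact (J ⊔ Cn 6).smul_mem _ (hM _ m1)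
      have n2 : (1 + c') • (mon [1, 1, 0, 1] - mon [1, 1, 1, 0]) ∈ J ⊔ Cn 6 := by
        rw [hk', mul_comm, mul_smul]
        exact (J ⊔ Cn 6).smul_mem _ (hM _ m2)
      rw [ex3a_w1, ex3a_w5, ← q0, map_sub]
      rw [← q0] at hc n1 n2
      simp only [map_sub, map_smul] at hc n1 n2
      rw [hp 1 1 0 1 0 1 1 (by decide)] at hc n2
      linear_combination (norm := module) hc + n1 + n2
    · left
      refine ex3a_swap h (a := 1) (b := 0) (Or.inr ⟨rfl, rfl⟩) ?_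
      refine cancel Nat.prime_three hM9 ?_ (hPp 1 (Or.inr rfl)) r1
      intro hd
      have h5 : Prime (3 : ℤ) := Int.prime_three
      rcases h5.dvd_or_dvd hd with h6 | h6
      · exact hc3' h6
      · norm_num at h6
  · left
    refine ex3a_swap h (a := 0) (b := 1) (Or.inl ⟨rfl, rfl⟩) ?_
    refine cancel Nat.prime_three hM9 ?_ (hPp 0 (Or.inl rfl)) r0
    intro hd
    have h5 : Prime (3 : ℤ) := Int.prime_three
    rcases h5.dvd_or_dvd hd with h6 | h6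
    · exact hc3 h6
    · norm_num at h6

end ADP
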