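import Pool.Agent.ADP.DD

/-!
# ADP-Ex3q: the type `[x,y] z`, good words

`w = w' ++ [t]` is good if some letter `s` has `3 ≤ w'.count s` and `4 ≤ w'.length`.
* `good_mem`: `w'` is a permutation of `[s,s,s] ++ r`, `r ≠ []`; `DD.perm`; `mon ([s,s,s] ++ r ++ [t])` is the image of `X 0 ^ 3 * X 1 * X 2 ∈ J` under `X 0 ↦ X s`, `X 1 ↦ mon r`, `X 2 ↦ X t`.
* `q33`: all `w` with `qw 3 3 w`, `7 ≤ w.length` are good (see ADP.Ex3b).  `f ∈ Q 3 3`, `f ∈ J ⊔ Cn m`, `m ≥ 7`: apply `wp (qw 3 3)` (`wp_Cn`): the `Cn m` part is a combination of words `w` with `qw 3 3 w`, `w.length ≥ m`,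
  so in `J ⊔ Cn (m + 2)` by `good_mem`.  So `f ∈ J ⊔ Cn N` for all `N`, `f ∈ J` by nilpotency.
* `q32`: the same for `qw 3 2 w`, `6 ≤ w.length`: good: counts (odd, odd) with sum `≥ 6`: if the letter `s ≠ t` has count `≥ 3` take it, otherwise `t` has count `≥ 5`; `w'.length ≥ 5`.
-/

namespace ADP

open AD ADN ADC

private theorem eq_rep (n i : ℕ) : mon (List.replicate n i) = X i ^ n := by
  unfold mon
  rw [List.map_replicate, List.prod_replicate]

theorem good_mem {J : Submodule ℤ P} (h : DD J) (hx : X 0 ^ 3 * X 1 * X 2 ∈ J) {w : List ℕ} {s t : ℕ}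
    (h3 : 3 ≤ w.count s) (h4 : 4 ≤ w.length) : mon (w ++ [t]) ∈ J ⊔ Cn (w.length + 3) := by
  obtain ⟨r, hr⟩ := (List.replicate_sublist_iff.2 h3).exists_perm_append
  have hrl : r.length + 3 = w.length := by
    have := hr.length_eq
    rw [List.length_append, List.length_replicate] at this
    omega
  have hrne : r ≠ [] := by
    intro h0
    rw [h0, List.length_nil] at hrl
    omega
  have a1 := h.perm hr t (by omega)
  have a2 := sb_mem h.isT (φ := fun j => if j = 0 then X s else if j = 1 then mon r else X t)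
    (fun j => by
      show (if j = 0 then X s else if j = 1 then mon r else X t) ∈ Pp
      split_ifs
      · exact X_mem _
      · exact mon_mem hrne
      · exact X_mem _) hx
  have e : sb (fun j => if j = 0 then X s else if j = 1 then mon r else X t) (X 0 ^ 3 * X 1 * X 2) =
      mon (List.replicate 3 s ++ r ++ [t]) := by
    rw [map_mul, map_mul, map_pow, sb_X, sb_X, sb_X, mon_append, mon_append, eq_rep, mon_single]
    simp
  rw [e] at a2
  have := Submodule.add_mem _ a1 (Submodule.mem_sup_left (T := Cn (w.length + 3)) a2)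
  rwa [sub_add_cancel] at this

private theorem eq_word (u v : List ℕ) (i j : ℕ) :
    mon u * cm i j * mon v = mon (u ++ i :: j :: v) - mon (u ++ j :: i :: v) := by
  unfold cm
  rw [mon_append, mon_append, mon_cons, mon_cons, mon_cons, mon_cons, mul_sub, sub_mul]
  simp only [mul_assoc]

/-- the general statement -/
private theorem eq_gen {J : Submodule ℤ P} (h : DD J) (hx : X 0 ^ 3 * X 1 * X 2 ∈ J) {n m₀ : ℕ} (hm₀ : 5 ≤ m₀)
    (hw : ∀ (w : List ℕ) (t : ℕ), qw 3 n (w ++ [t]) → m₀ ≤ w.length + 1 → ∃ s, 3 ≤ w.count s) {f : P}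
    (hf : f ∈ Q 3 n) (h7 : f ∈ J ⊔ Cn m₀) : f ∈ J := by
  have hJ := h.toBt
  have hE : TOp 3 (wp (qw 3 n)) := TOp_qw hJ.pp (by omega) n
  have hEf : wp (qw 3 n) f = f := Q_iff.1 hf
  have step : ∀ m, m₀ ≤ m → f ∈ J ⊔ Cn m := by
    intro m hm
    induction m, hm using Nat.le_induction with
    | base => exact h7
    | succ m hm ih =>
      have word : ∀ w : List ℕ, qw 3 n w → m ≤ w.length → mon w ∈ J ⊔ Cn (m + 1) := by
        intro w hqw hl
        rcases List.eq_nil_or_concat w with rfl | ⟨w', t, hwt⟩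
        · rw [List.length_nil] at hl
          omega
        · rw [List.concat_eq_append] at hwt
          subst hwt
          rw [List.length_append, List.length_singleton] at hl
          obtain ⟨s, hs⟩ := hw w' t hqw (by omega)
          exact (sup_le_sup_left (Cn_anti (by omega)) J) (good_mem h hx hs (by omega))
      obtain ⟨j, hj, c, hc, hjc⟩ := Submodule.mem_sup.1 ih
      have h1 : wp (qw 3 n) j ∈ J := hE J hJ.isT hJ.mul.sq j hj
      have h2 := wp_Cn (φ := qw 3 n) (fun _ _ huv => qw_perm huv) hc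
      have h3 : ∀ x : P, x ∈ Submodule.span ℤ {f | ∃ (u v : List ℕ) (a b : ℕ),
          m ≤ u.length + v.length + 2 ∧ qw 3 n (u ++ a :: b :: v) ∧ f = mon u * cm a b * mon v} →
          x ∈ J ⊔ Cn (m + 1) := by
        intro x hx
        induction hx using Submodule.span_induction with
        | mem x hx =>
          obtain ⟨u, v, a, b, h4, h5, rfl⟩ := hx
          rw [eq_word]
          have h6 : qw 3 n (u ++ b :: a :: v) :=
            (qw_perm (List.Perm.append_left u (List.Perm.swap a b v))).2 h5
          refine Submodule.sub_mem _ (word _ h5 ?_) (word _ h6 ?_)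
          · rw [List.length_append, List.length_cons, List.length_cons]
            omega
          · rw [List.length_append, List.length_cons, List.length_cons]
            omega
        | zero => exact Submodule.zero_mem _
        | add x y _ _ hx hy => exact Submodule.add_mem _ hx hy
        | smul c x _ hx => exact Submodule.smul_mem _ _ hx
      rw [← hEf, ← hjc, map_add]
      exact Submodule.add_mem _ (Submodule.mem_sup_left h1) (h3 _ h2)
  obtain ⟨N, hN⟩ := h.nil
  have h8 := step _ (le_max_left m₀ N)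
  have h9 : Cn (max m₀ N) ≤ J := (Cn_anti (le_max_right m₀ N)).trans (Cn_nil hN)
  rwa [sup_eq_left.2 h9] at h8

private theorem eq_s3 {w : List ℕ} {t : ℕ} (hw : qw 3 3 (w ++ [t])) (hl : 6 ≤ w.length) :
    ∃ s, 3 ≤ w.count s := by
  by_contra hcon
  push Not at hcon
  have hlt : ∀ a ∈ w, a < 3 := fun a ha => hw.1 a (List.mem_append_left _ ha)
  have ht : t < 3 := hw.1 t (by simp)
  have hsum : ∀ (l : List ℕ), (∀ a ∈ l, a < 3) → l.length = l.count 0 + l.count 1 + l.count 2 := by
    intro l
    induction l with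
    | nil => intro _; rfl
    | cons a l ih =>
      intro h
      have ih' := ih fun b hb => h b (List.mem_cons_of_mem _ hb)
      have ha := h a List.mem_cons_self
      rw [List.length_cons, ih']
      interval_cases a
      · simp; omega
      · simp; omega
      · simp; omega
  have h1 := hsum w hlt
  have c0 := hcon 0
  have c1 := hcon 1
  have c2 := hcon 2
  have q0 := hw.2 0 (by omega)
  have q1 := hw.2 1 (by omega)
  have q2 := hw.2 2 (by omega)
  rw [List.count_append] at q0 q1 q2
  interval_cases t <;> simp at q0 q1 q2 <;> omega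

private theorem eq_s2 {w : List ℕ} {t : ℕ} (hw : qw 3 2 (w ++ [t])) (hl : 5 ≤ w.length) :
    ∃ s, 3 ≤ w.count s := by
  by_contra hcon
  push Not at hcon
  have hlt : ∀ a ∈ w, a < 2 := fun a ha => hw.1 a (List.mem_append_left _ ha)
  have ht : t < 2 := hw.1 t (by simp)
  have hsum : ∀ (l : List ℕ), (∀ a ∈ l, a < 2) → l.length = l.count 0 + l.count 1 := by
    intro l
    induction l with
    | nil => intro _; rfl
    | cons a l ih =>
      intro h
      have ih' := ih fun b hb => h b (List.mem_cons_of_mem _ hb)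
      have ha := h a List.mem_cons_self
      rw [List.length_cons, ih']
      interval_cases a
      · simp; omega
      · simp; omega
  have h1 := hsum w hlt
  have c0 := hcon 0
  have c1 := hcon 1
  omega

theorem q33 {J : Submodule ℤ P} (h : DD J) (hx : X 0 ^ 3 * X 1 * X 2 ∈ J) {f : P} (hf : f ∈ Q 3 3)
    (h7 : f ∈ J ⊔ Cn 7) : f ∈ J :=
  eq_gen h hx (by norm_num) (fun _ _ hw hl => eq_s3 hw (by omega)) hf h7

theorem q32 {J : Submodule ℤ P} (h : DD J) (hx : X 0 ^ 3 * X 1 * X 2 ∈ J) {f : P} (hf : f ∈ Q 3 2)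
    (h6 : f ∈ J ⊔ Cn 6) : f ∈ J :=
  eq_gen h hx (by norm_num) (fun _ _ hw hl => eq_s2 hw (by omega)) hf h6

end ADP
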