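import Pool.Agent.ADP.UEx2
import Pool.Agent.ADP.B1
import Pool.Agent.ADP.B2
import Pool.Agent.ADP.B2a
import Pool.Agent.ADP.B3a
import Pool.Agent.ADP.B3c
import Pool.Agent.ADP.B4f
import Pool.Agent.ADC.ExLk

/-!
# ADP-Main2: the main theorem for `p = 2`

`types2`: the three types, exact; `main2`: the structure of `ADC.main1` for `p = 2`.
-/

namespace ADP

open AD ADN ADC

private theorem m2_rvX (i : ℕ) : rv (X i) = X i := by
  rw [← mon_single, rv_mon, List.reverse_singleton]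

private theorem m2_rvg3 : rv g3 = X 2 * (X 1 * X 0 - X 0 * X 1) := by
  unfold g3
  rw [rv_mul, map_sub, rv_mul, rv_mul, m2_rvX, m2_rvX, m2_rvX]

private theorem m2_rvs : rv (X 0 ^ 2 * X 1 : P) = X 1 * X 0 ^ 2 := by
  rw [pow_two, rv_mul, rv_mul, m2_rvX, m2_rvX]

/-- exchange of `x_0` and `x_2` -/
private theorem m2_sw {D : Submodule ℤ P} (hD : IsT D) : g3' ∈ D ↔ rv g3 ∈ D := by
  rw [m2_rvg3]
  unfold g3'
  constructor
  · intro h
    have h1 := sb_mem hD (φ := fun i => if i = 0 then X 2 else if i = 1 then X 1 else X 0) (by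
      intro i
      split_ifs
      · exact X_mem 2
      · exact X_mem 1
      · exact X_mem 0) h
    simp only [map_mul, map_sub, sb_X] at h1
    norm_num at h1
    exact h1
  · intro h
    have h1 := sb_mem hD (φ := fun i => if i = 0 then X 2 else if i = 1 then X 1 else X 0) (by
      intro i
      split_ifs
      · exact X_mem 2
      · exact X_mem 1
      · exact X_mem 0) h
    simp only [map_mul, map_sub, sb_X] at h1
    norm_num at h1
    exact h1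

theorem types2 {J : Submodule ℤ P} (hJ : Bs 2 J) (hW : ¬ J ≤ WP 2) (hN : ¬ J ≤ TN) (hc : cm 0 1 ∉ J ⊔ Fge 3) :
    (g3 ∈ J ∧ X 0 ^ 2 * X 1 ∈ J) ∨ (g3' ∈ J ∧ X 1 * X 0 ^ 2 ∈ J) ∨
      (X 0 * X 1 * X 0 ∈ J ∧ X 0 ^ 2 * X 1 + X 1 * X 0 ^ 2 ∈ J) := by
  have hT : IsT (J ⊔ Fge 4) := isT_sup hJ.isT (isT_Fge 4 (by norm_num))
  have hm : Mul 2 (J ⊔ Fge 4) := fun f hf => (le_sup_left : J ≤ _) (hJ.mul f hf)
  have hF : Fge 4 ≤ J ⊔ Fge 4 := le_sup_right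
  have hJT : J ≤ J ⊔ Fge 4 := le_sup_left
  have h1 := wEx hT hm hF (fun h => hW (hJT.trans h))
  rcases nEx hT hm hF (fun h => hN (hJT.trans h)) with h2 | ⟨a, b, c, d, h2⟩
  · exfalso
    apply hc
    have e : J ⊔ Fge 4 ⊔ Fge 3 ≤ J ⊔ Fge 3 := sup_le (sup_le_sup_left (Fge_anti (by norm_num)) J) le_sup_right
    exact e h2
  · rcases tri hT hm hF h1 h2 with ⟨h3, h4⟩ | ⟨h3, h4⟩ | ⟨h3, h4⟩
    · exact Or.inl (ex2a hJ h3 h4)
    · right
      left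
      have hop : op J ⊔ Fge 4 = op (J ⊔ Fge 4) := by rw [op_sup, op_Fge]
      have h5 : g3 ∈ op J ⊔ Fge 4 := by
        rw [hop, mem_op]
        exact (m2_sw hT).1 h3
      have h6 : X 0 ^ 2 * X 1 ∈ op J ⊔ Fge 4 := by
        rw [hop, mem_op, m2_rvs]
        exact h4
      obtain ⟨h7, h8⟩ := ex2a (Bs_op hJ) h5 h6
      rw [mem_op] at h7 h8
      rw [m2_rvs] at h8
      exact ⟨(m2_sw hJ.isT).2 h7, h8⟩
    · exact Or.inr (Or.inr (ex2c hJ h3 h4))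

private theorem m2_all {D : Submodule ℤ P} (hD : IsT D) (h : X 0 ∈ D) : Pp ≤ D := by
  intro f hf
  have h1 := sb_mem hD (φ := fun _ => f) (fun _ => hf) h
  rwa [sb_X] at h1

private theorem m2_X {I : Submodule ℤ P} (hI : AlmDist I) : X 0 ∉ I := by
  intro h
  have h1 := m2_all hI.1 h
  refine hI.2.1 ?_
  have key : ∀ x ∈ TI, I ≤ x → x = Pp := fun x hx hIx => le_antisymm (IsT.le hx) (h1.trans hIx)
  intro x hx y hy z hz hIx hIy hIz
  rw [key x hx hIx, key y hy hIy, key z hz hIz]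
  simp

private theorem m2_XJ {I : Submodule ℤ P} (hI : IsT I) (h2 : Mul 4 I) (hX : X 0 ∉ I) :
    X 0 ∉ I ⊔ mulI 2 Pp := by
  intro h
  have hT : IsT (I ⊔ mulI 2 Pp) := isT_sup hI (isT_mulI isT_Pp _)
  have h1 := m2_all hT h
  obtain ⟨i, hi, y, hy, hiy⟩ := Submodule.mem_sup.1 h
  obtain ⟨g, hg, rfl⟩ := expo_mem_mulI.1 hy
  obtain ⟨i', hi', y', hy', hiy'⟩ := Submodule.mem_sup.1 (h1 hg)
  obtain ⟨g', hg', rfl⟩ := expo_mem_mulI.1 hy'
  apply hX
  rw [← hiy, ← hiy', smul_add, smul_smul]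
  exact I.add_mem hi (I.add_mem (I.smul_mem _ hi') (h2 _ hg'))

private theorem m2_bas {I : Submodule ℤ P} (hI : AlmDist I) (h2 : Mul 4 I) : Bs 2 (I ⊔ mulI 2 Pp) where
  pp := Nat.prime_two
  isT := isT_sup hI.1 (isT_mulI isT_Pp _)
  mul := fun f hf => (le_sup_right : mulI 2 Pp ≤ _) (expo_mem_mulI.2 ⟨f, hf, rfl⟩)
  nil := by
    obtain ⟨N, hN⟩ := nil_of_alm hI
    exact ⟨N, fun w hw => (le_sup_left : I ≤ _) (hN w hw)⟩
  ne := m2_XJ hI.1 h2 (m2_X hI)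

theorem main2 {I : Submodule ℤ P} (hI : AlmDist I) (h2 : Mul 4 I) (hU : ¬ I ≤ ADA.UP 2) (hW : ¬ I ≤ WP 2)
    (hN : ¬ I ≤ TN) : Mul 2 I ∧ cm 0 1 ∈ I ⊔ Fge 3 := by
  have hN0 := nil_of_alm hI
  have hX := m2_X hI
  have h4 : Mul (((2 : ℕ) : ℤ) ^ 2) I := by
    have e : (((2 : ℕ) : ℤ)) ^ 2 = 4 := by norm_num
    rw [e]
    exact h2
  by_cases h1 : Mul 2 I
  · refine ⟨h1, ?_⟩
    by_contra hcm
    have hb : Bs 2 I := { pp := Nat.prime_two, isT := hI.1, mul := h1, nil := hN0, ne := hX }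
    obtain ⟨A, B, C, hL⟩ := exists_lk hI h4
    rcases types2 hb hW hN hcm with ⟨h5, h6⟩ | ⟨h5, h6⟩ | ⟨h5, h6⟩
    · exact noP2a hL hb h5 h6
    · refine noP2a (Lk_op hL) (Bs_op hb) ?_ ?_
      · rw [mem_op]
        exact (m2_sw hb.isT).1 h5
      · rw [mem_op, m2_rvs]
        exact h6
    · exact noP2c hL hb h5 h6
  · exfalso
    have hb := m2_bas hI h2
    have hIJ : I ≤ I ⊔ mulI 2 Pp := le_sup_left
    obtain ⟨A, B, C, hL, hA, hB⟩ := exists_lk2 Nat.prime_two hI h4 h1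
    rcases UEx2 hI.1 h2 h1 hN0 hU with hx | ⟨j, hj, hx1, hx2, hx3⟩
    · exact no4s hL hx
    · have hf : Fo I j := { hI := hI.1, p2 := h2, nil := hN0, x2 := hx3, xj := hx1, eq := hx2 }
      refine no4 hL hj hf hA hB ?_
      rcases hj.eq_or_lt with h5 | h5
      · subst h5
        exact xy_2 hf
      · by_cases hcm : cm 0 1 ∈ I ⊔ mulI 2 Pp ⊔ Fge 3
        · exact xy_near h5 hf hcm
        · rcases types2 hb (fun h => hW (hIJ.trans h)) (fun h => hN (hIJ.trans h)) hcm with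
            ⟨h6, h7⟩ | ⟨h6, h7⟩ | ⟨h6, h7⟩
          · exact xy_a h5 hf h6 h7
          · exact xy_b h5 hf h6 h7
          · exact xy_c h5 hf h6

end ADP
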