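import Pool.Agent.ADP.Base
import Pool.Agent.ADC.TOpW
import Pool.Agent.AD.Expo

/-!
# ADP-Qred: exponent `p^2`, reduction to multilinear polynomials
-/

namespace ADP

open AD ADN ADC

private theorem qr_perm {p n : ℕ} {w : List ℕ} (h : qw p n w) (hl : ¬ n < w.length) :
    w.Perm (List.range n) := by
  have h1 : List.range n ⊆ w := by
    intro i hi
    have h2 := h.2 i (List.mem_range.1 hi)
    by_contra h3
    rw [List.count_eq_zero_of_not_mem h3, Nat.zero_mod] at h2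
    omega
  have h2 : (List.range n).Subperm w := List.subperm_of_subset List.nodup_range h1
  refine (h2.perm_of_length_le ?_).symm
  rw [List.length_range]
  omega

private theorem qr_J {p : ℕ} {I : Submodule ℤ P} {f : P} (hf : f ∈ I ⊔ mulI p Pp) :
    ∃ i ∈ I, ∃ h ∈ Pp, f = i + (p : ℤ) • h := by
  obtain ⟨i, hi, y, hy, rfl⟩ := Submodule.mem_sup.1 hf
  obtain ⟨h, hh, rfl⟩ := expo_mem_mulI.1 hy
  exact ⟨i, hi, h, hh, rfl⟩

private theorem qr_pJ {p : ℕ} {I : Submodule ℤ P} (h2 : Mul ((p : ℤ) ^ 2) I) {f : P}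
    (hf : f ∈ I ⊔ mulI p Pp) : (p : ℤ) • f ∈ I := by
  obtain ⟨i, hi, h, hh, rfl⟩ := qr_J hf
  rw [smul_add, smul_smul, ← pow_two]
  exact I.add_mem (I.smul_mem _ hi) (h2 h hh)

private theorem qr_split {p : ℕ} {I : Submodule ℤ P} (h2 : Mul ((p : ℤ) ^ 2) I)
    (hN : ∀ n w, 1 ≤ n → qw p n w → n < w.length → mon w ∈ I ⊔ mulI p Pp) {n : ℕ} (hn : 1 ≤ n) (f : P) :
    ∃ g ∈ Ml n, (p : ℤ) • wp (qw p n) f - (p : ℤ) • g ∈ I := by
  refine ind_mon (C := fun f => ∃ g ∈ Ml n, (p : ℤ) • wp (qw p n) f - (p : ℤ) • g ∈ I) ?_ ?_ ?_ ?_ f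
  · exact ⟨0, Submodule.zero_mem _, by simp⟩
  · rintro f g ⟨a, ha, ha'⟩ ⟨b, hb, hb'⟩
    refine ⟨a + b, Submodule.add_mem _ ha hb, ?_⟩
    have h : (p : ℤ) • wp (qw p n) (f + g) - (p : ℤ) • (a + b) =
        ((p : ℤ) • wp (qw p n) f - (p : ℤ) • a) + ((p : ℤ) • wp (qw p n) g - (p : ℤ) • b) := by
      rw [map_add, smul_add, smul_add]
      abel
    rw [h]
    exact I.add_mem ha' hb'
  · rintro c f ⟨a, ha, ha'⟩
    refine ⟨c • a, Submodule.smul_mem _ _ ha, ?_⟩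
    have h : (p : ℤ) • wp (qw p n) (c • f) - (p : ℤ) • (c • a) =
        c • ((p : ℤ) • wp (qw p n) f - (p : ℤ) • a) := by
      rw [map_smul, smul_sub, smul_comm c, smul_comm c]
    rw [h]
    exact I.smul_mem _ ha'
  · intro w
    by_cases hw : qw p n w
    · rw [wp_pos hw]
      by_cases hl : n < w.length
      · refine ⟨0, Submodule.zero_mem _, ?_⟩
        rw [smul_zero, sub_zero]
        exact qr_pJ h2 (hN n w hn hw hl)
      · exact ⟨mon w, Ml_mon (qr_perm hw hl), by simp⟩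
    · rw [wp_neg hw]
      exact ⟨0, Submodule.zero_mem _, by simp⟩

private theorem qr_main {p : ℕ} (hp : p.Prime) (h5 : 3 ≤ p) {I : Submodule ℤ P} (hI : IsT I)
    (h2 : Mul ((p : ℤ) ^ 2) I)
    (hN : ∀ n w, 1 ≤ n → qw p n w → n < w.length → mon w ∈ I ⊔ mulI p Pp) {n : ℕ} (hn : 1 ≤ n) {f : P}
    (hf : f ∈ Q p n) (hfJ : f ∈ I ⊔ mulI p Pp) : ∃ g ∈ Ml n, f - (p : ℤ) • g ∈ I := by
  obtain ⟨i, hi, h, -, hfe⟩ := qr_J hfJ
  obtain ⟨g, hg, hg'⟩ := qr_split h2 hN hn h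
  refine ⟨g, hg, ?_⟩
  have h1 : f = wp (qw p n) i + (p : ℤ) • wp (qw p n) h := by
    have h3 := Q_iff.1 hf
    rw [← h3]
    conv_lhs => rw [hfe]
    rw [map_add, map_smul]
  have h4 : f - (p : ℤ) • g = wp (qw p n) i + ((p : ℤ) • wp (qw p n) h - (p : ℤ) • g) := by
    conv_lhs => rw [h1]
    abel
  rw [h4]
  exact I.add_mem (TOp_qw hp (by omega) n I hI h2 i hi) hg'

theorem Qred {p : ℕ} (hp : p.Prime) (h5 : 3 ≤ p) {I : Submodule ℤ P} (hI : IsT I) (h2 : Mul ((p : ℤ) ^ 2) I)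
    (hN : ∀ n w, 1 ≤ n → qw p n w → n < w.length → mon w ∈ I ⊔ mulI p Pp) {n : ℕ} (hn : 1 ≤ n) :
    Q p n ≤ I ⊔ Ml n ∧ ∀ f ∈ Ml n, f ∈ I ⊔ mulI p Pp → ∃ g ∈ Ml n, f - (p : ℤ) • g ∈ I := by
  constructor
  · refine Submodule.span_le.2 ?_
    rintro f ⟨w, hw, rfl⟩
    by_cases hl : n < w.length
    · obtain ⟨g, hg, hg'⟩ := qr_main hp h5 hI h2 hN hn (Submodule.subset_span ⟨w, hw, rfl⟩)
        (hN n w hn hw hl)
      have h1 : mon w = (mon w - (p : ℤ) • g) + (p : ℤ) • g := by abel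
      show mon w ∈ I ⊔ Ml n
      rw [h1]
      exact Submodule.add_mem _ (Submodule.mem_sup_left hg')
        (Submodule.mem_sup_right (Submodule.smul_mem _ _ hg))
    · exact Submodule.mem_sup_right (Ml_mon (qr_perm hw hl))
  · intro f hf hfJ
    exact qr_main hp h5 hI h2 hN hn (Ml_le_Q (by omega) hf) hfJ

theorem pJ_le {p : ℕ} {I : Submodule ℤ P} (h2 : Mul ((p : ℤ) ^ 2) I) :
    ∀ f ∈ I ⊔ mulI p Pp, (p : ℤ) • f ∈ I := fun _ hf => qr_pJ h2 hf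

end ADP
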