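import Pool.Agent.ADP.Base
import Pool.Agent.ADP.C1a
import Pool.Agent.ADC.Nf
import Pool.Agent.ADP.Qred
import Pool.Agent.AD.Expo

/-!
# ADP-NoC1

The case `p x ≡ w x^j`.  `Lk p I A B C`, `J = I ⊔ p Pp`, `A ≤ J`, `B ⊓ J ≤ I`, `p ∤ w`, `p ≤ j`, `x^(j+1) ∈ I`, `p x - w x^j ∈ I`, `p x² ∈ I` (`x = X 0`).  `Bt p J`.
`C1a`: `p (xy + yx) ∈ I`, `p Fge 3 ≤ I`.

1. Claim: `p x y ∈ I`.
   * if `[x,y] ∈ J ⊔ Fge (p+1)`: `p [x,y] ∈ p J + p Fge (p+1) ≤ I` (`pJ_le`, `p+1 ≥ 3`); with `p (xy + yx) ∈ I`: `2 p xy ∈ I`.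
   * otherwise `(xy)^p ∈ J` and (`x^p ∈ J → x (yx)^(p-1) ∈ J`).  Substituting `x ↦ xy`: `p xy ≡ w (xy)^j` modulo `I`.  If `j > p`: `(xy)^p = i + p h`, so
     `(xy)^j ≡ p h (xy)^(j-p)`, with `h (xy)^(j-p) ∈ Fge 3`: in `I`.  If `j = p`: `w x^p ≡ p x`, so `x^p ∈ J` (invert `w` modulo `p²`), and `x (yx)^(p-1) = i + p h`.  Project on the class
     `count 0 ≡ 1`, `count 1 ≡ 0` modulo `p - 1`, letter `1` occurs (T-operator; `x (yx)^(p-1)` has counts `p`, `p-1`): `h` may be taken to be a combination of words with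
     `count 1 ≥ p - 1 ≥ 3`: `p h ∈ I`.  So `x (yx)^(p-1) ∈ I`, `(xy)^p = x (yx)^(p-1) y ∈ I`.  In both cases `p xy ≡ w (xy)^j ∈ I`.
   Hence `p f ∈ I` for all `f ∈ Fge 2`.
2. `nf`: `n ≥ 1`, linked `a, b ∈ Q p n`, `a ∉ I`.  `a ∈ A ≤ J`: `a = i + p h`, project with `wp (qw p n)`: `h ∈ Q p n ≤ Fge n`.  If `n ≥ 2`: `p h ∈ I`, `a ∈ I`,
   contradiction.  So `n = 1`, and `a ≡ λ p x` (`h` a combination of `x, x^p, ...`; `p x^e ∈ I` for `e ≥ 2`), so `p x ∈ A` up to a unit: `p ∤ λ`.
   `b` is a combination of `x, x^p, x^(2p-1), ...`; replace the terms `c x^e` with `p ∣ c` by multiples of `x^j` (`p x ≡ w x^j`, `p x^e ∈ I`); `b ∉ I`.  So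
   `b ≡ u x^d + higher`, `p ∤ u` (if all coefficients are divisible by `p` then `b ≡ c p x ∈ J`, `b ∈ B ⊓ J ≤ I`).  So `x^d ∈ B` (as in `one_low`, with
   `p² Pp ≤ B`, `B` nilpotent).  If `d ≤ j`: `x^j ∈ B`, `p x ≡ w x^j ∈ B`, `a ∈ B ⊓ A ≤ I`, contradiction.  If `d > j`: `x^d ∈ I`, and `b ∈ I`, contradiction
   (choose `d` minimal with unit coefficient after the replacement).
-/

namespace ADP

open AD ADN ADC

private theorem nc_mem {n : ℕ} {w : List ℕ} (h : n ≤ w.length) : mon w ∈ Fge n :=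
  Submodule.subset_span ⟨w, h, rfl⟩

private theorem nc_mul {a b : ℕ} {f g : P} (hf : f ∈ Fge a) (hg : g ∈ Fge b) : f * g ∈ Fge (a + b) := by
  induction hf using Submodule.span_induction with
  | mem f hf =>
    obtain ⟨u, hu, rfl⟩ := hf
    induction hg using Submodule.span_induction with
    | mem g hg =>
      obtain ⟨v, hv, rfl⟩ := hg
      rw [← mon_append]
      exact nc_mem (by rw [List.length_append]; omega)
    | zero => rw [mul_zero]; exact Submodule.zero_mem _
    | add x y _ _ hx hy => rw [mul_add]; exact Submodule.add_mem _ hx hy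
    | smul c x _ hx => rw [mul_smul_comm]; exact Submodule.smul_mem _ _ hx
  | zero => rw [zero_mul]; exact Submodule.zero_mem _
  | add x y _ _ hx hy => rw [add_mul]; exact Submodule.add_mem _ hx hy
  | smul c x _ hx => rw [smul_mul_assoc]; exact Submodule.smul_mem _ _ hx

private theorem nc_Pp {f : P} (hf : f ∈ Pp) : f ∈ Fge 1 := by
  obtain ⟨n, hn⟩ := exists_mem_Pn hf
  refine (Submodule.span_mono (R := ℤ) ?_ : Pn n ≤ Fge 1) hn
  rintro g ⟨w, hw, _, rfl⟩
  exact ⟨w, List.length_pos_of_ne_nil hw, rfl⟩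

private theorem nc_wp {φ : List ℕ → Prop} {n m : ℕ} (hφ : ∀ w : List ℕ, n ≤ w.length → φ w → m ≤ w.length)
    {f : P} (hf : f ∈ Fge n) : wp φ f ∈ Fge m := by
  induction hf using Submodule.span_induction with
  | mem f hf =>
    obtain ⟨w, hw, rfl⟩ := hf
    by_cases h : φ w
    · rw [wp_pos h]
      exact nc_mem (hφ w hw h)
    · rw [wp_neg h]
      exact Submodule.zero_mem _
  | zero => rw [map_zero]; exact Submodule.zero_mem _
  | add x y _ _ hx hy => rw [map_add]; exact Submodule.add_mem _ hx hy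
  | smul c x _ hx => rw [map_smul]; exact Submodule.smul_mem _ _ hx

private theorem nc_J {p : ℕ} {I : Submodule ℤ P} {f : P} (hf : f ∈ I ⊔ mulI p Pp) :
    ∃ i ∈ I, ∃ h ∈ Pp, f = i + (p : ℤ) • h := by
  obtain ⟨i, hi, y, hy, rfl⟩ := Submodule.mem_sup.1 hf
  obtain ⟨h, hh, rfl⟩ := expo_mem_mulI.1 hy
  exact ⟨i, hi, h, hh, rfl⟩

/-- the word `(0 1)^k` -/
private theorem nc_w1 (k : ℕ) : (X 0 * X 1 : P) ^ k = mon ((List.replicate k [0, 1]).flatten) := by
  induction k with
  | zero => rw [pow_zero, List.replicate_zero, List.flatten_nil, mon_nil]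
  | succ k ih =>
    rw [pow_succ', ih, List.replicate_succ, List.flatten_cons, mon_append]
    simp [mon]

private theorem nc_w2 (k : ℕ) : (X 0 * (X 1 * X 0) ^ k : P) = mon (0 :: (List.replicate k [1, 0]).flatten) := by
  have h : (X 1 * X 0 : P) ^ k = mon ((List.replicate k [1, 0]).flatten) := by
    induction k with
    | zero => rw [pow_zero, List.replicate_zero, List.flatten_nil, mon_nil]
    | succ k ih =>
      rw [pow_succ', ih, List.replicate_succ, List.flatten_cons, mon_append]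
      simp [mon]
  rw [h, mon_cons]

private theorem nc_c (k : ℕ) : ((List.replicate k [1, 0]).flatten).count 0 = k ∧
    ((List.replicate k [1, 0]).flatten).count 1 = k := by
  induction k with
  | zero => exact ⟨rfl, rfl⟩
  | succ k ih =>
    rw [List.replicate_succ, List.flatten_cons, List.count_append, List.count_append, ih.1, ih.2]
    constructor
    · have : List.count 0 [1, 0] = 1 := rfl
      omega
    · have : List.count 1 [1, 0] = 1 := rfl
      omega

private theorem nc_len (w : List ℕ) (a : ℕ) : w.count a ≤ w.length := List.count_le_length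

private theorem nc_len2 (w : List ℕ) : w.count 0 + w.count 1 ≤ w.length := by
  induction w with
  | nil => simp
  | cons a w ih =>
    rw [List.length_cons]
    by_cases h0 : a = 0
    · subst h0
      rw [List.count_cons_self, List.count_cons_of_ne (by decide)]
      omega
    · rw [List.count_cons_of_ne (by omega)]
      by_cases h1 : a = 1
      · subst h1
        rw [List.count_cons_self]
        omega
      · rw [List.count_cons_of_ne (by omega)]
        omega

private theorem nc_two {w : List ℕ} (h0 : 1 ≤ w.count 0) (h1 : 1 ≤ w.count 1) : 2 ≤ w.length := by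
  have h2 : [0, 1].Subperm w := List.subperm_of_subset (by decide) (by
    intro i hi
    rcases List.mem_cons.1 hi with rfl | hi
    · exact List.count_pos_iff.1 h0
    · rw [List.mem_singleton.1 hi]
      exact List.count_pos_iff.1 h1)
  exact h2.length_le

/-- the claim: `p x y ∈ I` -/
private theorem nc_xy {p : ℕ} (hp : p.Prime) (h5 : 3 ≤ p) {I : Submodule ℤ P} (hI : IsT I)
    (hm : Mul ((p : ℤ) ^ 2) I) {w : ℤ} {j : ℕ} (hw : ¬ (p : ℤ) ∣ w) (hj : p ≤ j)
    (h2 : (p : ℤ) • X 0 - w • X 0 ^ j ∈ I) (h3 : (p : ℤ) • X 0 ^ 2 ∈ I)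
    (h4 : cm 0 1 ∈ I ⊔ mulI p Pp ⊔ Fge (p + 1) ∨ ((X 0 * X 1) ^ p ∈ I ⊔ mulI p Pp ∧
      (X 0 ^ p ∈ I ⊔ mulI p Pp → X 0 * (X 1 * X 0) ^ (p - 1) ∈ I ⊔ mulI p Pp))) :
    (p : ℤ) • (X 0 * X 1) ∈ I := by
  obtain ⟨hs, hF⟩ := C1a hp h5 hI hm h3
  rcases h4 with h4 | ⟨h4, h4'⟩
  · obtain ⟨g, hg, f, hf, he⟩ := Submodule.mem_sup.1 h4
    have h6 : (p : ℤ) • cm 0 1 ∈ I := by
      rw [← he, smul_add]
      exact I.add_mem (pJ_le hm g hg) (hF f (Fge_anti (by omega) hf))
    have h7 : ¬ (p : ℤ) ∣ 2 := by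
      intro hd
      have := Int.le_of_dvd (by norm_num) hd
      omega
    refine cancel hp hm h7 (Submodule.smul_mem _ _ (Pp_mul_right (X_mem 0) _)) ?_
    have e : (2 : ℤ) • (p : ℤ) • (X 0 * X 1 : P) = (p : ℤ) • (X 0 * X 1 + X 1 * X 0) + (p : ℤ) • cm 0 1 := by
      unfold cm
      module
    rw [e]
    exact I.add_mem hs h6
  · have h6 : (p : ℤ) • (X 0 * X 1) - w • (X 0 * X 1) ^ j ∈ I := by
      have h7 := sb_mem hI (φ := fun _ => X 0 * X 1) (fun _ => Pp_mul_right (X_mem 0) _) h2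
      rwa [map_sub, map_zsmul, map_zsmul, map_pow, sb_X] at h7
    have h7 : (X 0 * X 1) ^ j ∈ I := by
      rcases Nat.eq_or_lt_of_le hj with h8 | h8
      · subst h8
        -- `j = p`
        have h9 : X 0 ^ p ∈ I ⊔ mulI p Pp := by
          have h10 : w • X 0 ^ p ∈ I ⊔ mulI p Pp := by
            have e : w • X 0 ^ p = (p : ℤ) • X 0 - ((p : ℤ) • X 0 - w • X 0 ^ p) := by abel
            rw [e]
            exact Submodule.sub_mem _ (Submodule.mem_sup_right (expo_mem_mulI.2 ⟨X 0, X_mem 0, rfl⟩))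
              (Submodule.mem_sup_left h2)
          refine cancel hp (hm.mono le_sup_left) hw ?_ h10
          have e : (X 0 : P) ^ p = X 0 * X 0 ^ (p - 1) := by
            rw [← pow_succ']
            congr 1
            omega
          rw [e]
          exact Pp_mul_right (X_mem 0) _
        obtain ⟨i, hi, h, hh, he⟩ := nc_J (h4' h9)
        have h11 : X 0 * (X 1 * X 0) ^ (p - 1) ∈ I := by
          set Φ : P →ₗ[ℤ] P := (wp (fun w => w.count 0 % (p - 1) = 1)).comp
            ((wp (fun w => w.count 1 % (p - 1) = 0)).comp (wp (fun w => 1 ∈ w))) with hΦ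
          have hT : TOp p Φ := (TOp_res hp (by omega) 0 1 (by omega)).comp
            ((TOp_res hp (by omega) 1 0 (by omega)).comp (TOp_mem p 1))
          have h12 : Φ (X 0 * (X 1 * X 0) ^ (p - 1)) = X 0 * (X 1 * X 0) ^ (p - 1) := by
            rw [nc_w2, hΦ, LinearMap.comp_apply, LinearMap.comp_apply]
            have hc := nc_c (p - 1)
            have ha : (0 :: (List.replicate (p - 1) [1, 0]).flatten).count 0 = p := by
              rw [List.count_cons_self, hc.1]
              omega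
            have hb : (0 :: (List.replicate (p - 1) [1, 0]).flatten).count 1 = p - 1 := by
              rw [List.count_cons_of_ne (by decide), hc.2]
            rw [wp_pos (φ := fun w => 1 ∈ w) (List.count_pos_iff.1 (by rw [hb]; omega)),
              wp_pos (φ := fun w => w.count 1 % (p - 1) = 0) (by rw [hb, Nat.mod_self]),
              wp_pos (φ := fun w => w.count 0 % (p - 1) = 1) (by
                rw [ha]
                have e : p = 1 + (p - 1) := by omega
                conv_lhs => rw [e]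
                rw [Nat.add_sub_cancel_left, Nat.add_mod_right]
                exact Nat.mod_eq_of_lt (by omega))]
          have h13 : Φ h ∈ Fge 3 := by
            rw [hΦ, LinearMap.comp_apply, LinearMap.comp_apply, wp_wp, wp_wp]
            refine nc_wp (n := 1) ?_ (nc_Pp hh)
            rintro v - ⟨⟨hv0, hv1⟩, hv2⟩
            have hv3 := Nat.le_of_dvd (List.count_pos_iff.2 hv2) (Nat.dvd_of_mod_eq_zero hv1)
            have hv4 := nc_len2 v
            have hv5 : 1 ≤ v.count 0 := by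
              rcases Nat.eq_zero_or_pos (v.count 0) with h0 | h0
              · rw [h0, Nat.zero_mod] at hv0
                omega
              · exact h0
            omega
          rw [← h12, he, map_add, map_smul]
          exact I.add_mem (hT I hI hm i hi) (hF _ h13)
        have e : (X 0 * X 1 : P) ^ p = X 0 * (X 1 * X 0) ^ (p - 1) * X 1 := by
          have e1 : ∀ k : ℕ, (X 0 * X 1 : P) ^ (k + 1) = X 0 * (X 1 * X 0) ^ k * X 1 := by
            intro k
            induction k with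
            | zero => rw [zero_add, pow_one, pow_zero, mul_one]
            | succ k ih =>
              rw [pow_succ', ih, pow_succ' (X 1 * X 0) k]
              noncomm_ring
          have e2 := e1 (p - 1)
          rwa [Nat.sub_add_cancel (by omega)] at e2
        rw [e]
        exact hI.mul_right _ h11 _
      · obtain ⟨i, hi, h, hh, he⟩ := nc_J h4
        have e : (X 0 * X 1 : P) ^ j = i * (X 0 * X 1) ^ (j - p) + (p : ℤ) • (h * (X 0 * X 1) ^ (j - p)) := by
          rw [← smul_mul_assoc, ← add_mul, ← he, ← pow_add]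
          congr 1
          omega
        rw [e]
        refine I.add_mem (hI.mul_right _ hi _) (hF _ ?_)
        have h9 : (X 0 * X 1 : P) ^ (j - p) ∈ Fge 2 := by
          rw [nc_w1]
          refine nc_mem ?_
          rw [List.length_flatten, List.map_replicate, List.sum_replicate]
          have : [0, 1].length = 2 := rfl
          rw [this, smul_eq_mul]
          omega
        exact Fge_anti (show 3 ≤ 1 + 2 by norm_num) (nc_mul (nc_Pp hh) h9)
    have e : (p : ℤ) • (X 0 * X 1 : P) = ((p : ℤ) • (X 0 * X 1) - w • (X 0 * X 1) ^ j) + w • (X 0 * X 1) ^ j := by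
      abel
    rw [e]
    exact I.add_mem h6 (I.smul_mem _ h7)

private theorem nc_F2 {p : ℕ} {I : Submodule ℤ P} (hI : IsT I) (h : (p : ℤ) • (X 0 * X 1) ∈ I) :
    ∀ f ∈ Fge 2, (p : ℤ) • f ∈ I := by
  intro f hf
  induction hf using Submodule.span_induction with
  | mem f hf =>
    obtain ⟨w, hw, rfl⟩ := hf
    match w, hw with
    | a :: b :: v, _ =>
      have h1 := sb_mem hI (φ := fun i => if i = 0 then X a else mon (b :: v)) (by
        intro i
        split_ifs
        · exact X_mem a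
        · exact mon_mem (by simp)) h
      rw [map_zsmul, map_mul, sb_X, sb_X, if_pos rfl, if_neg one_ne_zero, ← mon_cons] at h1
      exact h1
  | zero => rw [smul_zero]; exact I.zero_mem
  | add x y _ _ hx hy => rw [smul_add]; exact I.add_mem hx hy
  | smul c x _ hx => rw [smul_comm]; exact I.smul_mem _ hx

/-- the powers of `x` with exponent at least `k` -/
private noncomputable def pw (k : ℕ) : Submodule ℤ P := Submodule.span ℤ {f | ∃ e, k ≤ e ∧ f = X 0 ^ e}

private theorem pw_mem {k e : ℕ} (h : k ≤ e) : X 0 ^ e ∈ pw k := Submodule.subset_span ⟨e, h, rfl⟩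

private theorem pw_split {k : ℕ} {f : P} (hf : f ∈ pw k) : ∃ (c : ℤ), ∃ g ∈ pw (k + 1), f = c • X 0 ^ k + g := by
  induction hf using Submodule.span_induction with
  | mem f hf =>
    obtain ⟨e, he, rfl⟩ := hf
    rcases Nat.eq_or_lt_of_le he with h | h
    · subst h
      exact ⟨1, 0, Submodule.zero_mem _, by rw [one_smul, add_zero]⟩
    · exact ⟨0, _, pw_mem h, by rw [zero_smul, zero_add]⟩
  | zero => exact ⟨0, 0, Submodule.zero_mem _, by rw [zero_smul, zero_add]⟩
  | add x y _ _ hx hy =>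
    obtain ⟨c, g, hg, rfl⟩ := hx
    obtain ⟨c', g', hg', rfl⟩ := hy
    exact ⟨c + c', g + g', Submodule.add_mem _ hg hg', by rw [add_smul]; abel⟩
  | smul a x _ hx =>
    obtain ⟨c, g, hg, rfl⟩ := hx
    exact ⟨a * c, a • g, Submodule.smul_mem _ _ hg, by rw [smul_add, smul_smul]⟩

private theorem pw_mul {k : ℕ} (m : ℕ) {f : P} (hf : f ∈ pw k) : f * X 0 ^ m ∈ pw (k + m) := by
  induction hf using Submodule.span_induction with
  | mem f hf =>
    obtain ⟨e, he, rfl⟩ := hf
    rw [← pow_add]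
    exact pw_mem (by omega)
  | zero => rw [zero_mul]; exact Submodule.zero_mem _
  | add x y _ _ hx hy => rw [add_mul]; exact Submodule.add_mem _ hx hy
  | smul c x _ hx => rw [smul_mul_assoc]; exact Submodule.smul_mem _ _ hx

private theorem pw_Fge (k : ℕ) : pw k ≤ Fge k := by
  refine Submodule.span_le.2 ?_
  rintro f ⟨e, he, rfl⟩
  have e1 : (X 0 : P) ^ e = mon (List.replicate e 0) := by
    unfold mon
    rw [List.map_replicate, List.prod_replicate]
  show (X 0 : P) ^ e ∈ Fge k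
  rw [e1]
  exact nc_mem (by rwa [List.length_replicate])

private theorem pw_top {I : Submodule ℤ P} (hI : IsT I) {j : ℕ} (h : X 0 ^ j ∈ I) : pw j ≤ I := by
  refine Submodule.span_le.2 ?_
  rintro f ⟨e, he, rfl⟩
  have e1 : (X 0 : P) ^ e = X 0 ^ j * X 0 ^ (e - j) := by
    rw [← pow_add]
    congr 1
    omega
  show (X 0 : P) ^ e ∈ I
  rw [e1]
  exact hI.mul_right _ h _

private theorem Q1_pw (p : ℕ) : Q p 1 ≤ pw 1 := by
  refine Submodule.span_le.2 ?_
  rintro f ⟨w, ⟨hw1, hw2⟩, rfl⟩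
  have e : w = List.replicate w.length 0 := List.eq_replicate_iff.2 ⟨rfl, fun i hi => by
    have := hw1 i hi
    omega⟩
  have h1 : 1 ≤ w.length := by
    have h2 := hw2 0 (by omega)
    rcases Nat.eq_zero_or_pos w.length with h3 | h3
    · rw [List.length_eq_zero_iff.1 h3] at h2
      simp at h2
    · exact h3
  show mon w ∈ pw 1
  rw [e]
  have e1 : mon (List.replicate w.length 0) = (X 0 : P) ^ w.length := by
    unfold mon
    rw [List.map_replicate, List.prod_replicate]
  rw [e1]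
  exact pw_mem h1

private theorem Q2_Fge {p n : ℕ} (hn : 2 ≤ n) (hp : 3 ≤ p) : Q p n ≤ Fge 2 := by
  refine Submodule.span_le.2 ?_
  rintro f ⟨w, ⟨-, hw2⟩, rfl⟩
  refine nc_mem (nc_two ?_ ?_)
  · have := hw2 0 (by omega)
    rcases Nat.eq_zero_or_pos (w.count 0) with h | h
    · rw [h, Nat.zero_mod] at this
      omega
    · exact h
  · have := hw2 1 (by omega)
    rcases Nat.eq_zero_or_pos (w.count 1) with h | h
    · rw [h, Nat.zero_mod] at this
      omega
    · exact h

/-- an element of `B` in one variable that is not in `I`: `x^j ∈ B` -/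
private theorem nc_up {p : ℕ} (hp : p.Prime) (h5 : 3 ≤ p) {I B : Submodule ℤ P} (hI : IsT I) (hB : IsT B)
    (hIB : I ≤ B) (hm : Mul ((p : ℤ) ^ 2) I) {w : ℤ} {j : ℕ} (hj : p ≤ j) (h1 : X 0 ^ (j + 1) ∈ I)
    (h2 : (p : ℤ) • X 0 - w • X 0 ^ j ∈ I) (h3 : ∀ f ∈ Fge 2, (p : ℤ) • f ∈ I) (hjB : X 0 ^ j ∉ B) {b : P}
    (hb : b ∈ B) (hb1 : b ∈ pw 1) : b ∈ I := by
  have key : ∀ k, k ≤ j → b ∈ I ⊔ pw (k + 1) := by
    intro k
    induction k with
    | zero => intro _; exact Submodule.mem_sup_right hb1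
    | succ k ih =>
      intro hk
      obtain ⟨i, hi, f, hf, he⟩ := Submodule.mem_sup.1 (ih (by omega))
      obtain ⟨c, g, hg, rfl⟩ := pw_split hf
      have hc : (p : ℤ) ∣ c := by
        by_contra hc
        refine hjB (cancel hp (hm.mono hIB) hc ?_ ?_)
        · have e : (X 0 : P) ^ j = X 0 * X 0 ^ (j - 1) := by
            rw [← pow_succ']
            congr 1
            omega
          rw [e]
          exact Pp_mul_right (X_mem 0) _
        · have h6 := hB.mul_right _ hb (X 0 ^ (j - (k + 1)))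
          have h7 : g * X 0 ^ (j - (k + 1)) ∈ I := by
            have h8 := pw_mul (j - (k + 1)) hg
            rw [show k + 1 + 1 + (j - (k + 1)) = j + 1 by omega] at h8
            exact pw_top hI h1 h8
          have h8 : i * X 0 ^ (j - (k + 1)) ∈ I := hI.mul_right _ hi _
          have e : c • X 0 ^ j = b * X 0 ^ (j - (k + 1)) - i * X 0 ^ (j - (k + 1)) -
              g * X 0 ^ (j - (k + 1)) := by
            rw [← he, add_mul, add_mul, smul_mul_assoc, ← pow_add,
              show k + 1 + (j - (k + 1)) = j by omega]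
            abel
          rw [e]
          exact B.sub_mem (B.sub_mem h6 (hIB h8)) (hIB h7)
      obtain ⟨c', rfl⟩ := hc
      have h6 : ((p : ℤ) * c') • (X 0 : P) ^ (k + 1) ∈ I ⊔ pw (k + 1 + 1) := by
        rw [mul_comm, mul_smul]
        refine Submodule.smul_mem _ _ ?_
        rcases Nat.eq_zero_or_pos k with h7 | h7
        · subst h7
          have e : (p : ℤ) • (X 0 : P) ^ (0 + 1) = ((p : ℤ) • X 0 - w • X 0 ^ j) + w • X 0 ^ j := by
            rw [zero_add, pow_one]
            abel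
          rw [e]
          exact Submodule.add_mem _ (Submodule.mem_sup_left h2)
            (Submodule.mem_sup_right (Submodule.smul_mem _ _ (pw_mem (by omega))))
        · exact Submodule.mem_sup_left (h3 _ (Fge_anti (by omega) (pw_Fge (k + 1) (pw_mem le_rfl))))
      rw [← he]
      exact Submodule.add_mem _ (Submodule.mem_sup_left hi)
        (Submodule.add_mem _ h6 (Submodule.mem_sup_right hg))
  have h6 := key j le_rfl
  rwa [sup_eq_left.2 (pw_top hI h1)] at h6

theorem noC1 {p : ℕ} {I A B C : Submodule ℤ P} (h : Lk p I A B C) (hb : Bt p (I ⊔ mulI p Pp))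
    (hA : A ≤ I ⊔ mulI p Pp) (hB : B ⊓ (I ⊔ mulI p Pp) ≤ I) {w : ℤ} {j : ℕ} (hw : ¬ (p : ℤ) ∣ w) (hj : p ≤ j)
    (h1 : X 0 ^ (j + 1) ∈ I) (h2 : (p : ℤ) • X 0 - w • X 0 ^ j ∈ I) (h3 : (p : ℤ) • X 0 ^ 2 ∈ I)
    (h4 : cm 0 1 ∈ I ⊔ mulI p Pp ⊔ Fge (p + 1) ∨ ((X 0 * X 1) ^ p ∈ I ⊔ mulI p Pp ∧
      (X 0 ^ p ∈ I ⊔ mulI p Pp → X 0 * (X 1 * X 0) ^ (p - 1) ∈ I ⊔ mulI p Pp))) : False := by
  have hp := hb.pp
  have h5 := hb.three
  have hF := nc_F2 h.hI (nc_xy hp h5 h.hI h.p2 hw hj h2 h3 h4)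
  obtain ⟨n, a, b, hn, ha, hb', hl, hna, -, -⟩ := nf hp (by omega) h
  obtain ⟨i, hi, g, hg, he⟩ := nc_J (hA hl.1)
  have h6 : a = wp (qw p n) i + (p : ℤ) • wp (qw p n) g := by
    have h7 := Q_iff.1 ha
    rw [← map_smul, ← map_add, ← he, h7]
  have hi' : wp (qw p n) i ∈ I := TOp_qw hp (by omega) n I h.hI h.p2 i hi
  have hg' : wp (qw p n) g ∈ Q p n := wp_mem _ _
  rcases Nat.lt_or_ge n 2 with h7 | h7
  · have h8 : n = 1 := by omega
    subst h8
    obtain ⟨c, r, hr, hgr⟩ := pw_split (Q1_pw p hg')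
    rw [pow_one] at hgr
    have h9 : a - c • (p : ℤ) • X 0 ∈ I := by
      have e : a - c • (p : ℤ) • X 0 = wp (qw p 1) i + (p : ℤ) • r := by
        rw [h6, hgr, smul_add, smul_comm c]
        abel
      rw [e]
      exact I.add_mem hi' (hF r (pw_Fge 2 hr))
    have h10 : (p : ℤ) • X 0 ∉ I := by
      intro h11
      apply hna
      have e : a = (a - c • (p : ℤ) • X 0) + c • (p : ℤ) • X 0 := by abel
      rw [e]
      exact I.add_mem h9 (I.smul_mem _ h11)
    have hc : ¬ (p : ℤ) ∣ c := by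
      rintro ⟨c', rfl⟩
      apply hna
      have e : a = (a - ((p : ℤ) * c') • (p : ℤ) • X 0) + c' • ((p : ℤ) ^ 2) • X 0 := by
        module
      rw [e]
      exact I.add_mem h9 (I.smul_mem _ (h.p2 _ (X_mem 0)))
    have h11 : (p : ℤ) • X 0 ∈ A := by
      refine cancel hp (h.p2.mono h.IA) hc (Submodule.smul_mem _ _ (X_mem 0)) ?_
      have e : c • (p : ℤ) • X 0 = a - (a - c • (p : ℤ) • X 0) := by abel
      rw [e]
      exact A.sub_mem hl.1 (h.IA h9)
    have h12 : X 0 ^ j ∉ B := by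
      intro h13
      refine h10 (h.AB ⟨h11, ?_⟩)
      have e : (p : ℤ) • X 0 = ((p : ℤ) • X 0 - w • X 0 ^ j) + w • X 0 ^ j := by abel
      rw [e]
      exact B.add_mem (h.IB h2) (B.smul_mem _ h13)
    exact hna ((h.iff hl).2 (nc_up hp h5 h.hI h.hB h.IB h.p2 hj h1 h2 hF h12 hl.2.1 (Q1_pw p hb')))
  · apply hna
    rw [h6]
    exact I.add_mem hi' (hF _ (Q2_Fge h7 (by omega) hg'))

end ADP
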