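import Pool.Agent.ADP.K3b

/-!
# ADP-KG3: the sets `KG 3 1`, `KG 3 2` in coordinates

For `g ∈ Ml 3` (`M3_words`); `KG 3 1`: `gA 1` = sum of all coefficients, `gB 3 1` of a word = (±1: `0` before `1`) + (±1: `0` before `2`) = 2, 0, -2 if `0` is first, middle, last;
with all renamings `σ`: the sum of all coefficients is `≡ 0`, and for each letter `i` `(sum with i first) - (sum with i last) ≡ 0` modulo 3.
`KG 3 2`: `gA 2` of a word = ±1 (`0` before `1`), `gB 3 2` of a word = its sign (`sgl w [0,1,2]`); with `c_1 = e1 - o3` (middle letter 1), `c_2 = e2 - o2`, `c_0 = e3 - o1`: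
`gA 2 = c_0 + c_1 - c_2`, and with renamings all `c_i + c_j - c_k ≡ 0` modulo 3, `c_0 + c_1 + c_2 ≡ 0` modulo 9, equivalent to `3 ∣ c_i`, `9 ∣ c_0 + c_1 + c_2`.
Lean: `lm_mon`, `sgl`, `bef` are computable: `decide`/`simp [sgl, bef]` on each of the six words; the renamings: `Fin 3` permutations (`Equiv.Perm (Fin 3)`, use the six
elements, e.g. by `fin_cases`/`decide` or through the generators `swap 0 1`, `swap 1 2` and `rn_rn`).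
-/

namespace ADP

open AD ADN ADC

private theorem kg_lm (φ : List ℕ → ℤ) {g : P} (hg : g ∈ Ml 3) (σ : Equiv.Perm (Fin 3)) :
    lm φ (rn 3 σ g) = e1 g * φ ([0,1,2].map (pN 3 σ)) + e2 g * φ ([1,2,0].map (pN 3 σ)) +
      e3 g * φ ([2,0,1].map (pN 3 σ)) + o1 g * φ ([1,0,2].map (pN 3 σ)) +
      o2 g * φ ([0,2,1].map (pN 3 σ)) + o3 g * φ ([2,1,0].map (pN 3 σ)) := by
  have hm : ∀ a b c : ℕ, (X a * X b * X c : P) = mon [a, b, c] := by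
    intro a b c
    simp [mon, mul_assoc]
  conv_lhs => rw [M3_words hg]
  simp only [hm, map_add, map_zsmul, rn_mon, lm_mon, smul_eq_mul]

private theorem kg_words (τ : Equiv.Perm (Fin 3)) :
    ([0,1,2].map (pN 3 τ), [1,2,0].map (pN 3 τ), [2,0,1].map (pN 3 τ),
      [1,0,2].map (pN 3 τ), [0,2,1].map (pN 3 τ), [2,1,0].map (pN 3 τ)) ∈
    ([([0,1,2],[1,2,0],[2,0,1],[1,0,2],[0,2,1],[2,1,0]),
      ([1,2,0],[2,0,1],[0,1,2],[2,1,0],[1,0,2],[0,2,1]),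
      ([2,0,1],[0,1,2],[1,2,0],[0,2,1],[2,1,0],[1,0,2]),
      ([1,0,2],[0,2,1],[2,1,0],[0,1,2],[1,2,0],[2,0,1]),
      ([0,2,1],[2,1,0],[1,0,2],[2,0,1],[0,1,2],[1,2,0]),
      ([2,1,0],[1,0,2],[0,2,1],[1,2,0],[2,0,1],[0,1,2])] :
      List (List ℕ × List ℕ × List ℕ × List ℕ × List ℕ × List ℕ)) := by
  revert τ
  decide

private theorem kg_id : ([0,1,2].map (pN 3 1), [1,2,0].map (pN 3 1), [2,0,1].map (pN 3 1),
      [1,0,2].map (pN 3 1), [0,2,1].map (pN 3 1), [2,1,0].map (pN 3 1)) =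
      ([0,1,2],[1,2,0],[2,0,1],[1,0,2],[0,2,1],[2,1,0]) := by decide

private theorem kg_s01 : ([0,1,2].map (pN 3 (Equiv.swap 0 1)), [1,2,0].map (pN 3 (Equiv.swap 0 1)),
      [2,0,1].map (pN 3 (Equiv.swap 0 1)), [1,0,2].map (pN 3 (Equiv.swap 0 1)),
      [0,2,1].map (pN 3 (Equiv.swap 0 1)), [2,1,0].map (pN 3 (Equiv.swap 0 1))) =
      ([1,0,2],[0,2,1],[2,1,0],[0,1,2],[1,2,0],[2,0,1]) := by decide

private theorem kg_s02 : ([0,1,2].map (pN 3 (Equiv.swap 0 2)), [1,2,0].map (pN 3 (Equiv.swap 0 2)),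
      [2,0,1].map (pN 3 (Equiv.swap 0 2)), [1,0,2].map (pN 3 (Equiv.swap 0 2)),
      [0,2,1].map (pN 3 (Equiv.swap 0 2)), [2,1,0].map (pN 3 (Equiv.swap 0 2))) =
      ([2,1,0],[1,0,2],[0,2,1],[1,2,0],[2,0,1],[0,1,2]) := by decide

private theorem kg_s12 : ([0,1,2].map (pN 3 (Equiv.swap 1 2)), [1,2,0].map (pN 3 (Equiv.swap 1 2)),
      [2,0,1].map (pN 3 (Equiv.swap 1 2)), [1,0,2].map (pN 3 (Equiv.swap 1 2)),
      [0,2,1].map (pN 3 (Equiv.swap 1 2)), [2,1,0].map (pN 3 (Equiv.swap 1 2))) =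
      ([0,2,1],[2,1,0],[1,0,2],[2,0,1],[0,1,2],[1,2,0]) := by decide

private def ka (k : ℕ) (w : List ℕ) : ℤ := sgl w (List.range k)
private def kb (k : ℕ) (w : List ℕ) : ℤ := ∑ s ∈ Finset.Ico k 3, sgl w (List.range k ++ [s])

private theorem ka1 : (ka 1 [0,1,2], ka 1 [1,2,0], ka 1 [2,0,1], ka 1 [1,0,2], ka 1 [0,2,1], ka 1 [2,1,0]) =
    (1, 1, 1, 1, 1, 1) := by decide
private theorem kb1 : (kb 1 [0,1,2], kb 1 [1,2,0], kb 1 [2,0,1], kb 1 [1,0,2], kb 1 [0,2,1], kb 1 [2,1,0]) =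
    (2, -2, 0, 0, 2, -2) := by decide
private theorem ka2 : (ka 2 [0,1,2], ka 2 [1,2,0], ka 2 [2,0,1], ka 2 [1,0,2], ka 2 [0,2,1], ka 2 [2,1,0]) =
    (1, -1, 1, -1, 1, -1) := by decide
private theorem kb2 : (kb 2 [0,1,2], kb 2 [1,2,0], kb 2 [2,0,1], kb 2 [1,0,2], kb 2 [0,2,1], kb 2 [2,1,0]) =
    (1, 1, 1, -1, -1, -1) := by decide

private theorem kg_gA (k : ℕ) : gA k = lm (ka k) := rfl
private theorem kg_gB (k : ℕ) : gB 3 k = lm (kb k) := rfl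

theorem KG31_iff {g : P} (hg : g ∈ Ml 3) : g ∈ KG 3 1 ↔
    ((3 : ℤ) ∣ e1 g + e2 g + e3 g + o1 g + o2 g + o3 g ∧ (3 : ℤ) ∣ e1 g + o2 g - e2 g - o3 g ∧
      (3 : ℤ) ∣ e2 g + o1 g - e3 g - o2 g ∧ (3 : ℤ) ∣ e3 g + o3 g - e1 g - o1 g) := by
  have a := ka1
  have b := kb1
  simp only [Prod.mk.injEq] at a b
  obtain ⟨a1, a2, a3, a4, a5, a6⟩ := a
  obtain ⟨b1, b2, b3, b4, b5, b6⟩ := b
  show (∀ σ : Equiv.Perm (Fin 3), ((3 : ℕ) : ℤ) ∣ gA 1 (rn 3 σ g) ∧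
    ((3 : ℕ) : ℤ) ^ (2 - 1 % 2) ∣ gB 3 1 (rn 3 σ g)) ↔ _
  have e0 : ((3 : ℕ) : ℤ) ^ (2 - 1 % 2) = 3 := by norm_num
  have e00 : ((3 : ℕ) : ℤ) = 3 := by norm_num
  rw [e0, e00]
  simp only [kg_gA, kg_gB, kg_lm _ hg]
  constructor
  · intro h
    have h1 := h 1
    have h2 := h (Equiv.swap 0 1)
    have h3 := h (Equiv.swap 0 2)
    have t1 := kg_id
    have t2 := kg_s01
    have t3 := kg_s02
    simp only [Prod.mk.injEq] at t1 t2 t3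
    obtain ⟨p1, p2, p3, p4, p5, p6⟩ := t1
    obtain ⟨q1, q2, q3, q4, q5, q6⟩ := t2
    obtain ⟨r1, r2, r3, r4, r5, r6⟩ := t3
    rw [p1, p2, p3, p4, p5, p6, a1, a2, a3, a4, a5, a6, b1, b2, b3, b4, b5, b6] at h1
    rw [q1, q2, q3, q4, q5, q6, a1, a2, a3, a4, a5, a6, b1, b2, b3, b4, b5, b6] at h2
    rw [r1, r2, r3, r4, r5, r6, a1, a2, a3, a4, a5, a6, b1, b2, b3, b4, b5, b6] at h3
    omega
  · rintro ⟨h1, h2, h3, h4⟩ σ
    have t := kg_words σ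
    simp only [List.mem_cons, List.not_mem_nil, or_false, Prod.mk.injEq] at t
    rcases t with t | t | t | t | t | t <;>
    · obtain ⟨p1, p2, p3, p4, p5, p6⟩ := t
      rw [p1, p2, p3, p4, p5, p6, a1, a2, a3, a4, a5, a6, b1, b2, b3, b4, b5, b6]
      omega

theorem KG32_iff {g : P} (hg : g ∈ Ml 3) : g ∈ KG 3 2 ↔
    ((3 : ℤ) ∣ e1 g - o3 g ∧ (3 : ℤ) ∣ e2 g - o2 g ∧ (3 : ℤ) ∣ e3 g - o1 g ∧
      (9 : ℤ) ∣ e1 g + e2 g + e3 g - o1 g - o2 g - o3 g) := by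
  have a := ka2
  have b := kb2
  simp only [Prod.mk.injEq] at a b
  obtain ⟨a1, a2, a3, a4, a5, a6⟩ := a
  obtain ⟨b1, b2, b3, b4, b5, b6⟩ := b
  show (∀ σ : Equiv.Perm (Fin 3), ((3 : ℕ) : ℤ) ∣ gA 2 (rn 3 σ g) ∧
    ((3 : ℕ) : ℤ) ^ (2 - 2 % 2) ∣ gB 3 2 (rn 3 σ g)) ↔ _
  have e0 : ((3 : ℕ) : ℤ) ^ (2 - 2 % 2) = 9 := by norm_num
  have e00 : ((3 : ℕ) : ℤ) = 3 := by norm_num
  rw [e0, e00]
  simp only [kg_gA, kg_gB, kg_lm _ hg]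
  constructor
  · intro h
    have h1 := h 1
    have h2 := h (Equiv.swap 0 1)
    have h3 := h (Equiv.swap 0 2)
    have h4 := h (Equiv.swap 1 2)
    have t1 := kg_id
    have t2 := kg_s01
    have t3 := kg_s02
    have t4 := kg_s12
    simp only [Prod.mk.injEq] at t1 t2 t3 t4
    obtain ⟨p1, p2, p3, p4, p5, p6⟩ := t1
    obtain ⟨q1, q2, q3, q4, q5, q6⟩ := t2
    obtain ⟨r1, r2, r3, r4, r5, r6⟩ := t3
    obtain ⟨s1, s2, s3, s4, s5, s6⟩ := t4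
    rw [p1, p2, p3, p4, p5, p6, a1, a2, a3, a4, a5, a6, b1, b2, b3, b4, b5, b6] at h1
    rw [q1, q2, q3, q4, q5, q6, a1, a2, a3, a4, a5, a6, b1, b2, b3, b4, b5, b6] at h2
    rw [r1, r2, r3, r4, r5, r6, a1, a2, a3, a4, a5, a6, b1, b2, b3, b4, b5, b6] at h3
    rw [s1, s2, s3, s4, s5, s6, a1, a2, a3, a4, a5, a6, b1, b2, b3, b4, b5, b6] at h4
    omega
  · rintro ⟨h1, h2, h3, h4⟩ σ
    have t := kg_words σ
    simp only [List.mem_cons, List.not_mem_nil, or_false, Prod.mk.injEq] at t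
    rcases t with t | t | t | t | t | t <;>
    · obtain ⟨p1, p2, p3, p4, p5, p6⟩ := t
      rw [p1, p2, p3, p4, p5, p6, a1, a2, a3, a4, a5, a6, b1, b2, b3, b4, b5, b6]
      omega

end ADP
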