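import Pool.Agent.ADP.Q3m
import Pool.Agent.ADP.KG3
import Pool.Agent.ADP.Ex1

/-!
# ADP-Q3f: exponent 9, the twisted types lie below `GP 3 2`, `TE`

Data (from `q3m`): `3 (Y_i - Y_j) ∈ I`, `3 Y_0 ∉ I`, `S = Y_0 + Y_1 + Y_2 ∉ J`; `J ≥ I`, `3 J ≤ I`, `9 P⁺ ≤ I`, `ex : ∀ f ∈ Ml 3, f ∈ J → ∃ g ∈ Ml 3, f - 3 g ∈ I`; `Ml 3 ≤ J ⊔ ⟨Y k⟩`, `Act J 3 (-1) Y`.
So (a) `3 f ≡ 3 (c_0+c_1+c_2) Y_0` modulo `I` for `f ∈ Ml 3`, `f ≡ ∑ c_k Y_k` modulo `J`.
(b) the identity `g` (`= g1`, `Y = Ym`, resp. `g4`, `Y = Yl`) is in `I`: `g ∈ J`, `g - 3 h ∈ I` (`ex`), `3 h ≡ 3 μ Y_0`, so `g ≡ 3 μ Y_0` modulo `I`.  `τ = rn 3 (swap 0 2)` (resp. `swap 0 1`) fixes `g`; `τ Y_0 ≡ - Y_2` (resp. `- Y_1`) modulo `J`, so `3 τ Y_0 ≡ - 3 Y_0` modulo `I`: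
    `g = τ g ≡ - 3 μ Y_0`, so `2 g ∈ I`... (`g - 3μ Y_0 ∈ I`, `g + 3 μ Y_0 ∈ I`), `g ∈ I` (`cancel`).
(c) `Fge 5 ≤ I` resp. `Fge 4 ≤ I`: exactly the computation of `ex1`, `ex4` with exact identities (words of length 4, 5; here `I` is nilpotent and `9 P⁺ ≤ I`, so 2 can be cancelled); no error terms.
(d) `I ≤ TK 3 K` (`K = KG 3 2` resp. `KE`): `le_TK` for `I ⊔ Fge 4`: let `f ∈ Ml 3`, `f ∈ I ⊔ Fge 4`.  Project with `wp (qw 3 3)`: `f ∈ I ⊔ Fge 5 = I` (words of length `≥ 4` with letters `0,1,2`, counts odd, have length `≥ 5`).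
    `f ∈ J`: the coefficients `c_k` of `f` in `f ≡ ∑ c_k Y_k` (modulo the renamed `g`'s: `c_k` = coefficient of the even word minus the one of the odd word with the same special letter `k`: `e1 - o3` etc.) satisfy `3 ∣ c_k`:
    because `∑ c_k Y_k ∈ J` and: if some `3 ∤ c_i - c_j` then `Φ_ij` gives `Y_i - Y_j ∈ J`, so `Y_k ≡ Y_l` for all `k,l`, `S ≡ 3 Y_0 ≡ 0`: contradiction; so all `c_k ≡ c` and `c S ∈ J`, `3 ∣ c`.
    Then `f ≡ ∑ c_k Y_k` modulo `I` now (`g ∈ I`), `c_k = 3 d_k`, `≡ 3 (d_0+d_1+d_2) Y_0`, in `I`; as `3 Y_0 ∉ I`: `3 ∣ d_0+d_1+d_2` (`cancel`), so `9 ∣ c_0+c_1+c_2`: `f ∈ K` (`KG32_iff`, resp. the definition of `KE`; for `KE`: `c_2 = e1 - o1`, `c_0 = e2 - o3`, `c_1 = e3 - o2`).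
-/

namespace ADP

open AD ADN ADC

/-- the data of the twisted types -/
structure Tw (I J : Submodule ℤ P) (Y : ℕ → P) : Prop where
  bJ : Bt 3 J
  hI : IsT I
  IJ : I ≤ J
  p2 : Mul 9 I
  nil : ∃ N, NilAt I N
  pJ : ∀ f ∈ J, (3 : ℤ) • f ∈ I
  ex : ∀ f ∈ Ml 3, f ∈ J → ∃ g ∈ Ml 3, f - (3 : ℤ) • g ∈ I
  eq : ∀ i j, i < 3 → j < 3 → (3 : ℤ) • (Y i - Y j) ∈ I
  ne : (3 : ℤ) • Y 0 ∉ I
  S : Y 0 + Y 1 + Y 2 ∉ J

private theorem q3f_sq {I : Submodule ℤ P} (h : Mul 9 I) : Mul (((3 : ℕ) : ℤ) ^ 2) I := by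
  have e : (((3 : ℕ) : ℤ) ^ 2) = 9 := by norm_num
  rw [e]
  exact h

private theorem q3f_span {J : Submodule ℤ P} {Y : ℕ → P} {f : P}
    (h : f ∈ J ⊔ Submodule.span ℤ {f | ∃ k < 3, f = Y k}) :
    ∃ c0 c1 c2 : ℤ, f - (c0 • Y 0 + c1 • Y 1 + c2 • Y 2) ∈ J := by
  obtain ⟨j, hj, y, hy, rfl⟩ := Submodule.mem_sup.1 h
  have key : ∃ c0 c1 c2 : ℤ, y = c0 • Y 0 + c1 • Y 1 + c2 • Y 2 := by
    clear h
    induction hy using Submodule.span_induction with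
    | mem x hx =>
      obtain ⟨k, hk, rfl⟩ := hx
      interval_cases k
      · exact ⟨1, 0, 0, by simp⟩
      · exact ⟨0, 1, 0, by simp⟩
      · exact ⟨0, 0, 1, by simp⟩
    | zero => exact ⟨0, 0, 0, by simp⟩
    | add x y _ _ hx hy =>
      obtain ⟨a0, a1, a2, ha⟩ := hx
      obtain ⟨b0, b1, b2, hb⟩ := hy
      refine ⟨a0 + b0, a1 + b1, a2 + b2, ?_⟩
      rw [ha, hb]
      module
    | smul c x _ hx =>
      obtain ⟨a0, a1, a2, ha⟩ := hx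
      refine ⟨c * a0, c * a1, c * a2, ?_⟩
      rw [ha]
      module
  obtain ⟨c0, c1, c2, hc⟩ := key
  refine ⟨c0, c1, c2, ?_⟩
  rw [hc, add_sub_cancel_right]
  exact hj

private theorem q3f_red {I J : Submodule ℤ P} {Y : ℕ → P} (h : Tw I J Y)
    (hM : Ml 3 ≤ J ⊔ Submodule.span ℤ {f | ∃ k < 3, f = Y k}) (hact : Act J 3 (-1) Y) {g : P}
    (hg : g ∈ Ml 3) (hgJ : g ∈ J) (i j : Fin 3) (hij : i ≠ j)
    (hs : Equiv.swap (i : ℕ) (j : ℕ) 0 < 3) (hτ : rn 3 (Equiv.swap i j) g = g) : g ∈ I := by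
  obtain ⟨t, ht, hgt⟩ := h.ex g hg hgJ
  obtain ⟨c0, c1, c2, hc⟩ := q3f_span (hM ht)
  have hc3 := h.pJ _ hc
  have e1 := h.eq 1 0 (by norm_num) (by norm_num)
  have e2 := h.eq 2 0 (by norm_num) (by norm_num)
  -- `g ≡ 3 μ Y 0`
  have hg0 : g - (3 * (c0 + c1 + c2)) • Y 0 ∈ I := by
    have h1 := I.add_mem (I.add_mem hgt hc3) (I.add_mem (I.smul_mem c1 e1) (I.smul_mem c2 e2))
    have e : g - (3 * (c0 + c1 + c2)) • Y 0 = g - (3 : ℤ) • t +
        (3 : ℤ) • (t - (c0 • Y 0 + c1 • Y 1 + c2 • Y 2)) +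
        (c1 • (3 : ℤ) • (Y 1 - Y 0) + c2 • (3 : ℤ) • (Y 2 - Y 0)) := by
      module
    rw [e]
    exact h1
  have hr := h.hI.subst _ (rn_isSubst 3 (Equiv.swap i j)) _ hg0
  rw [map_sub, map_zsmul, hτ] at hr
  have ha := h.pJ _ (hact i j 0 (by norm_num) hij)
  have hb := h.eq _ 0 hs (by norm_num)
  have hm := I.add_mem (I.add_mem hg0 hr) (I.smul_mem (c0 + c1 + c2) (I.sub_mem ha hb))
  have e : (2 : ℤ) • g = g - (3 * (c0 + c1 + c2)) • Y 0 +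
      (g - (3 * (c0 + c1 + c2)) • rn 3 (Equiv.swap i j) (Y 0)) +
      (c0 + c1 + c2) • ((3 : ℤ) • (rn 3 (Equiv.swap i j) (Y 0) -
        (-1 : ℤ) • Y (Equiv.swap (i : ℕ) (j : ℕ) 0)) -
        (3 : ℤ) • (Y (Equiv.swap (i : ℕ) (j : ℕ) 0) - Y 0)) := by
    module
  rw [← e] at hm
  exact cancel Nat.prime_three (q3f_sq h.p2) (by norm_num) (Ml_Pp (by norm_num) hg) hm

private theorem q3f_act {I : Submodule ℤ P} (hI : IsT I) {Y : ℕ → P} (hact : Act I 3 (-1) Y)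
    (i j : Fin 3) (hij : i ≠ j) {c0 c1 c2 : ℤ} (hv : c0 • Y 0 + c1 • Y 1 + c2 • Y 2 ∈ I) :
    c0 • Y (Equiv.swap (i : ℕ) (j : ℕ) 0) + c1 • Y (Equiv.swap (i : ℕ) (j : ℕ) 1) +
      c2 • Y (Equiv.swap (i : ℕ) (j : ℕ) 2) ∈ I := by
  have hr := hI.subst _ (rn_isSubst 3 (Equiv.swap i j)) _ hv
  rw [map_add, map_add, map_zsmul, map_zsmul, map_zsmul] at hr
  have a0 := hact i j 0 (by norm_num) hij
  have a1 := hact i j 1 (by norm_num) hij
  have a2 := hact i j 2 (by norm_num) hij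
  have := I.sub_mem (I.add_mem (I.add_mem (I.smul_mem c0 a0) (I.smul_mem c1 a1)) (I.smul_mem c2 a2)) hr
  have e : c0 • Y (Equiv.swap (i : ℕ) (j : ℕ) 0) + c1 • Y (Equiv.swap (i : ℕ) (j : ℕ) 1) +
      c2 • Y (Equiv.swap (i : ℕ) (j : ℕ) 2) =
      c0 • (rn 3 (Equiv.swap i j) (Y 0) - (-1 : ℤ) • Y (Equiv.swap (i : ℕ) (j : ℕ) 0)) +
      c1 • (rn 3 (Equiv.swap i j) (Y 1) - (-1 : ℤ) • Y (Equiv.swap (i : ℕ) (j : ℕ) 1)) +
      c2 • (rn 3 (Equiv.swap i j) (Y 2) - (-1 : ℤ) • Y (Equiv.swap (i : ℕ) (j : ℕ) 2)) -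
      (c0 • rn 3 (Equiv.swap i j) (Y 0) + c1 • rn 3 (Equiv.swap i j) (Y 1) +
        c2 • rn 3 (Equiv.swap i j) (Y 2)) := by
    module
  rw [e]
  exact this

private theorem q3f_S {I J : Submodule ℤ P} {Y : ℕ → P} (h : Tw I J Y) (hYp : ∀ k, Y k ∈ Pp)
    (h1 : Y 0 - Y 1 ∈ I) (h2 : Y 1 - Y 2 ∈ I) : False := by
  apply h.S
  have h3 : ((3 : ℕ) : ℤ) • Y 2 ∈ J := h.bJ.mul _ (hYp 2)
  have h4 := J.add_mem (J.add_mem (h.IJ h1) (J.smul_mem (2 : ℤ) (h.IJ h2))) h3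
  have e : Y 0 + Y 1 + Y 2 = Y 0 - Y 1 + (2 : ℤ) • (Y 1 - Y 2) + ((3 : ℕ) : ℤ) • Y 2 := by
    push_cast
    module
  rw [e]
  exact h4

private theorem q3f_key {I J : Submodule ℤ P} {Y : ℕ → P} (h : Tw I J Y) (hYp : ∀ k, Y k ∈ Pp)
    (hact : Act I 3 (-1) Y) {c0 c1 c2 : ℤ} (hv : c0 • Y 0 + c1 • Y 1 + c2 • Y 2 ∈ I) :
    (3 : ℤ) ∣ c0 ∧ (3 : ℤ) ∣ c1 ∧ (3 : ℤ) ∣ c2 ∧ (9 : ℤ) ∣ c0 + c1 + c2 := by
  have w01 : Equiv.swap (((0 : Fin 3) : ℕ)) (((1 : Fin 3) : ℕ)) 0 = 1 ∧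
      Equiv.swap (((0 : Fin 3) : ℕ)) (((1 : Fin 3) : ℕ)) 1 = 0 ∧
      Equiv.swap (((0 : Fin 3) : ℕ)) (((1 : Fin 3) : ℕ)) 2 = 2 := by decide
  have w12 : Equiv.swap (((1 : Fin 3) : ℕ)) (((2 : Fin 3) : ℕ)) 0 = 0 ∧
      Equiv.swap (((1 : Fin 3) : ℕ)) (((2 : Fin 3) : ℕ)) 1 = 2 ∧
      Equiv.swap (((1 : Fin 3) : ℕ)) (((2 : Fin 3) : ℕ)) 2 = 1 := by decide
  have w02 : Equiv.swap (((0 : Fin 3) : ℕ)) (((2 : Fin 3) : ℕ)) 0 = 2 ∧
      Equiv.swap (((0 : Fin 3) : ℕ)) (((2 : Fin 3) : ℕ)) 1 = 1 ∧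
      Equiv.swap (((0 : Fin 3) : ℕ)) (((2 : Fin 3) : ℕ)) 2 = 0 := by decide
  have h9 := q3f_sq h.p2
  have t01 := q3f_act h.hI hact 0 1 (by decide) hv
  rw [w01.1, w01.2.1, w01.2.2] at t01
  have t12 := q3f_act h.hI hact 1 2 (by decide) hv
  rw [w12.1, w12.2.1, w12.2.2] at t12
  have s01 : (c0 - c1) • (Y 0 - Y 1) ∈ I := by
    have := I.sub_mem hv t01
    have e : (c0 - c1) • (Y 0 - Y 1) = c0 • Y 0 + c1 • Y 1 + c2 • Y 2 -
      (c0 • Y 1 + c1 • Y 0 + c2 • Y 2) := by module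
    rw [e]
    exact this
  have s12 : (c1 - c2) • (Y 1 - Y 2) ∈ I := by
    have := I.sub_mem hv t12
    have e : (c1 - c2) • (Y 1 - Y 2) = c0 • Y 0 + c1 • Y 1 + c2 • Y 2 -
      (c0 • Y 0 + c1 • Y 2 + c2 • Y 1) := by module
    rw [e]
    exact this
  have d01 : (3 : ℤ) ∣ c0 - c1 := by
    by_contra hcon
    have h1 : Y 0 - Y 1 ∈ I := cancel Nat.prime_three h9 (by exact_mod_cast hcon)
      (Pp.sub_mem (hYp 0) (hYp 1)) s01
    have h2 : (1 : ℤ) • Y 0 + (-1 : ℤ) • Y 1 + (0 : ℤ) • Y 2 ∈ I := by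
      have e : (1 : ℤ) • Y 0 + (-1 : ℤ) • Y 1 + (0 : ℤ) • Y 2 = Y 0 - Y 1 := by module
      rw [e]
      exact h1
    have h3 := q3f_act h.hI hact 0 2 (by decide) h2
    rw [w02.1, w02.2.1, w02.2.2] at h3
    refine q3f_S h hYp h1 ?_
    have e : Y 1 - Y 2 = -((1 : ℤ) • Y 2 + (-1 : ℤ) • Y 1 + (0 : ℤ) • Y 0) := by module
    rw [e]
    exact I.neg_mem h3
  have d12 : (3 : ℤ) ∣ c1 - c2 := by
    by_contra hcon
    have h1 : Y 1 - Y 2 ∈ I := cancel Nat.prime_three h9 (by exact_mod_cast hcon)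
      (Pp.sub_mem (hYp 1) (hYp 2)) s12
    have h2 : (0 : ℤ) • Y 0 + (1 : ℤ) • Y 1 + (-1 : ℤ) • Y 2 ∈ I := by
      have e : (0 : ℤ) • Y 0 + (1 : ℤ) • Y 1 + (-1 : ℤ) • Y 2 = Y 1 - Y 2 := by module
      rw [e]
      exact h1
    have h3 := q3f_act h.hI hact 0 2 (by decide) h2
    rw [w02.1, w02.2.1, w02.2.2] at h3
    refine q3f_S h hYp ?_ h1
    have e : Y 0 - Y 1 = -((0 : ℤ) • Y 2 + (1 : ℤ) • Y 1 + (-1 : ℤ) • Y 0) := by module
    rw [e]
    exact I.neg_mem h3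
  obtain ⟨a, ha⟩ := d01
  obtain ⟨b, hb⟩ := d12
  have d0 : (3 : ℤ) ∣ c0 := by
    by_contra hcon
    apply h.S
    have m1 : ((3 : ℕ) : ℤ) • Y 1 ∈ J := h.bJ.mul _ (hYp 1)
    have m2 : ((3 : ℕ) : ℤ) • Y 2 ∈ J := h.bJ.mul _ (hYp 2)
    have h1 : c0 • (Y 0 + Y 1 + Y 2) ∈ J := by
      have := J.add_mem (J.add_mem (h.IJ hv) (J.smul_mem a m1)) (J.smul_mem (a + b) m2)
      have e : c0 • (Y 0 + Y 1 + Y 2) = c0 • Y 0 + c1 • Y 1 + c2 • Y 2 + a • ((3 : ℕ) : ℤ) • Y 1 +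
          (a + b) • ((3 : ℕ) : ℤ) • Y 2 := by
        have e1 : c1 = c0 - 3 * a := by linarith
        have e2 : c2 = c0 - 3 * a - 3 * b := by linarith
        rw [e2, e1]
        push_cast
        module
      rw [e]
      exact this
    exact cancel Nat.prime_three h.bJ.mul.sq (by exact_mod_cast hcon)
      (Pp.add_mem (Pp.add_mem (hYp 0) (hYp 1)) (hYp 2)) h1
  obtain ⟨d, hd⟩ := d0
  have d1 : c1 = 3 * (d - a) := by linarith
  have d2 : c2 = 3 * (d - a - b) := by linarith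
  refine ⟨⟨d, hd⟩, ⟨_, d1⟩, ⟨_, d2⟩, ?_⟩
  have hsum : (3 : ℤ) ∣ d + (d - a) + (d - a - b) := by
    by_contra hcon
    apply h.ne
    have e1 := h.eq 1 0 (by norm_num) (by norm_num)
    have e2 := h.eq 2 0 (by norm_num) (by norm_num)
    have h1 : (d + (d - a) + (d - a - b)) • (3 : ℤ) • Y 0 ∈ I := by
      have := I.sub_mem (I.sub_mem hv (I.smul_mem (d - a) e1)) (I.smul_mem (d - a - b) e2)
      have e : (d + (d - a) + (d - a - b)) • (3 : ℤ) • Y 0 = c0 • Y 0 + c1 • Y 1 + c2 • Y 2 -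
          (d - a) • (3 : ℤ) • (Y 1 - Y 0) - (d - a - b) • (3 : ℤ) • (Y 2 - Y 0) := by
        rw [hd, d1, d2]
        module
      rw [e]
      exact this
    exact cancel Nat.prime_three h9 (by exact_mod_cast hcon) (Pp.smul_mem _ (hYp 0)) h1
  obtain ⟨k, hk⟩ := hsum
  refine ⟨k, ?_⟩
  rw [hd, d1, d2]
  linarith

private theorem q3f_word {I : Submodule ℤ P} (hI : IsT I) (w : ℕ → List ℕ) (hw : ∀ i, w i ≠ [])
    {f : P} (hf : f ∈ I) (u v : List ℕ) : mon u * sb (fun i => mon (w i)) f * mon v ∈ I :=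
  IsT.lm hI _ _ (sb_mem hI (fun i => mon_mem (hw i)) hf)

private def q3w (a b c : List ℕ) (i : ℕ) : List ℕ := if i = 0 then a else if i = 1 then b else c

private theorem q3w_ne {a b c : List ℕ} (ha : a ≠ []) (hb : b ≠ []) (hc : c ≠ []) (i : ℕ) :
    q3w a b c i ≠ [] := by
  unfold q3w
  split_ifs
  · exact ha
  · exact hb
  · exact hc

private theorem q3f_g1 {I : Submodule ℤ P} (hI : IsT I) (h : g1 ∈ I) (u a b c v : List ℕ)
    (ha : a ≠ []) (hb : b ≠ []) (hc : c ≠ []) :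
    mon (u ++ a ++ b ++ c ++ v) + mon (u ++ c ++ b ++ a ++ v) ∈ I := by
  have h1 := q3f_word hI (q3w a b c) (q3w_ne ha hb hc) h u v
  have e : mon u * sb (fun i => mon (q3w a b c i)) g1 * mon v =
      mon (u ++ a ++ b ++ c ++ v) + mon (u ++ c ++ b ++ a ++ v) := by
    unfold g1
    simp only [map_add, map_mul, sb_X, mon_append]
    show mon u * (mon a * mon b * mon c + mon c * mon b * mon a) * mon v = _
    noncomm_ring
  rw [← e]
  exact h1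

private theorem q3f_g4 {I : Submodule ℤ P} (hI : IsT I) (h : g4 ∈ I) (u a b c v : List ℕ)
    (ha : a ≠ []) (hb : b ≠ []) (hc : c ≠ []) :
    mon (u ++ a ++ b ++ c ++ v) + mon (u ++ b ++ a ++ c ++ v) ∈ I := by
  have h1 := q3f_word hI (q3w a b c) (q3w_ne ha hb hc) h u v
  have e : mon u * sb (fun i => mon (q3w a b c i)) g4 * mon v =
      mon (u ++ a ++ b ++ c ++ v) + mon (u ++ b ++ a ++ c ++ v) := by
    unfold g4
    simp only [map_add, map_mul, sb_X, mon_append]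
    show mon u * ((mon a * mon b + mon b * mon a) * mon c) * mon v = _
    noncomm_ring
  rw [← e]
  exact h1

private theorem q3f_two {I : Submodule ℤ P} (h9 : Mul 9 I) {x y z : P} (hx : x ∈ Pp)
    (h1 : x + y ∈ I) (h2 : y + z ∈ I) (h3 : z + x ∈ I) : x ∈ I := by
  have h4 := I.add_mem (I.sub_mem h1 h2) h3
  have e : x + y - (y + z) + (z + x) = (2 : ℤ) • x := by module
  rw [e] at h4
  exact cancel Nat.prime_three (q3f_sq h9) (by norm_num) hx h4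

private theorem q3f_F5 {I : Submodule ℤ P} (hI : IsT I) (h9 : Mul 9 I) (h : g1 ∈ I) :
    Fge 5 ≤ I := by
  have h5 : mon [0, 1, 2, 3, 4] ∈ I := by
    refine q3f_two h9 (mon_mem (List.cons_ne_nil _ _))
      (q3f_g1 hI h [] [0] [1] [2, 3] [4] (by simp) (by simp) (by simp))
      (q3f_g1 hI h [] [2] [3, 1] [0, 4] [] (by simp) (by simp) (by simp))
      (q3f_g1 hI h [0] [4] [3] [1, 2] [] (by simp) (by simp) (by simp))
  refine Fge_le fun w hw => ?_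
  match w, hw with
  | a :: b :: c :: d :: e :: l, _ =>
    have h6 := q3f_word hI (fun i => if i = 0 then [a] else if i = 1 then [b] else
      if i = 2 then [c] else if i = 3 then [d] else e :: l) (by
        intro i
        split_ifs <;> exact List.cons_ne_nil _ _) h5 [] []
    rw [sb_mon, mon_nil, one_mul, mul_one] at h6
    simp only [List.map_cons, List.map_nil, List.prod_cons, List.prod_nil, mul_one] at h6
    simpa [mon_cons, mon_nil, mul_assoc] using h6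

private theorem q3f_F4 {I : Submodule ℤ P} (hI : IsT I) (h9 : Mul 9 I) (h : g4 ∈ I) :
    Fge 4 ≤ I := by
  have h5 : mon [0, 1, 2, 3] ∈ I := by
    refine q3f_two h9 (mon_mem (List.cons_ne_nil _ _))
      (q3f_g4 hI h [] [0] [1, 2] [3] [] (by simp) (by simp) (by simp))
      (q3f_g4 hI h [1] [2] [0] [3] [] (by simp) (by simp) (by simp))
      (q3f_g4 hI h [] [1] [0] [2, 3] [] (by simp) (by simp) (by simp))
  refine Fge_le fun w hw => ?_
  match w, hw with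
  | a :: b :: c :: e :: l, _ =>
    have h6 := q3f_word hI (fun i => if i = 0 then [a] else if i = 1 then [b] else
      if i = 2 then [c] else e :: l) (by
        intro i
        split_ifs <;> exact List.cons_ne_nil _ _) h5 [] []
    rw [sb_mon, mon_nil, one_mul, mul_one] at h6
    simp only [List.map_cons, List.map_nil, List.prod_cons, List.prod_nil, mul_one] at h6
    simpa [mon_cons, mon_nil, mul_assoc] using h6

private theorem q3f_len (l : List ℕ) (h : ∀ a ∈ l, a < 3) :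
    l.length = l.count 0 + l.count 1 + l.count 2 := by
  induction l with
  | nil => rfl
  | cons a l ih =>
    have ih' := ih fun b hb => h b (List.mem_cons_of_mem _ hb)
    have ha := h a List.mem_cons_self
    rw [List.length_cons, ih']
    interval_cases a
    · simp; omega
    · simp; omega
    · simp; omega

private theorem q3f_proj {I : Submodule ℤ P} (hI : IsT I) (h9 : Mul 9 I) (h5 : Fge 5 ≤ I) {f : P}
    (hf : f ∈ I ⊔ Fge 4) (hM : f ∈ Ml 3) : f ∈ I := by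
  classical
  have hE : TOp 3 (wp (qw 3 3)) := TOp_qw Nat.prime_three (by omega) 3
  have hEf : wp (qw 3 3) f = f := Q_iff.1 (Ml_le_Q (by omega) hM)
  obtain ⟨j, hj, c, hc, hjc⟩ := Submodule.mem_sup.1 hf
  have h1 : wp (qw 3 3) j ∈ I := hE I hI (q3f_sq h9) j hj
  have h2 : wp (qw 3 3) c ∈ I := by
    clear hjc
    induction hc using Submodule.span_induction with
    | mem x hx =>
      obtain ⟨w, hw, rfl⟩ := hx
      by_cases hq : qw 3 3 w
      · rw [wp_pos hq]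
        refine h5 (Submodule.subset_span ⟨w, ?_, rfl⟩)
        have h3 := q3f_len w hq.1
        have q0 := hq.2 0 (by omega)
        have q1 := hq.2 1 (by omega)
        have q2 := hq.2 2 (by omega)
        omega
      · rw [wp_neg hq]
        exact I.zero_mem
    | zero => rw [map_zero]; exact I.zero_mem
    | add x y _ _ hx hy => rw [map_add]; exact I.add_mem hx hy
    | smul c x _ hx => rw [map_smul]; exact I.smul_mem _ hx
  rw [← hEf, ← hjc, map_add]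
  exact I.add_mem h1 h2

private theorem q3f_M {a b c : ℕ} (h : [a, b, c].Perm (List.range 3)) :
    X a * X b * X c ∈ Ml 3 := by
  refine Submodule.subset_span ⟨[a, b, c], h, ?_⟩
  simp [mon_cons, mon_nil, mul_assoc]

private theorem q3f_sb {I : Submodule ℤ P} (hI : IsT I) {f : P} (hf : f ∈ I) (a b c : ℕ) :
    sb (fun i => if i = 0 then X a else if i = 1 then X b else X c) f ∈ I := by
  refine sb_mem hI (fun i => ?_) hf
  show (if i = 0 then X a else if i = 1 then X b else X c) ∈ Pp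
  split_ifs <;> exact X_mem _

theorem tw_G {I J : Submodule ℤ P} (h : Tw I J Ym) (h1 : g1 ∈ J) : I ≤ GP 3 2 := by
  have hp : (X 0 * X 1 * X 2 - (-1 : ℤ) • (X 2 * X 1 * X 0) : P) = g1 := by
    unfold g1
    rw [neg_one_smul, sub_neg_eq_add]
  obtain ⟨hM, hact⟩ := mid h.bJ.isT (ε := -1) (Or.inr rfl) (by rw [hp]; exact h1)
  have hgM : g1 ∈ Ml 3 := by
    unfold g1
    exact Submodule.add_mem _ (q3f_M (by decide)) (q3f_M (by decide))
  have hτ : rn 3 (Equiv.swap 0 2) g1 = g1 := by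
    have e : g1 = mon [0, 1, 2] + mon [2, 1, 0] := by
      unfold g1
      simp [mon_cons, mon_nil, mul_assoc]
    have e1 : [0, 1, 2].map (pN 3 (Equiv.swap 0 2)) = [2, 1, 0] := by decide
    have e2 : [2, 1, 0].map (pN 3 (Equiv.swap 0 2)) = [0, 1, 2] := by decide
    rw [e, map_add, rn_mon, rn_mon, e1, e2, add_comm]
  have hgI : g1 ∈ I := q3f_red h hM hact hgM h1 0 2 (by decide) (by decide) hτ
  obtain ⟨-, hactI⟩ := mid h.hI (ε := -1) (Or.inr rfl) (by rw [hp]; exact hgI)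
  have h5 := q3f_F5 h.hI h.p2 hgI
  refine le_trans (le_sup_left : I ≤ I ⊔ Fge 4) (le_TK (isT_sup h.hI (isT_Fge 4 (by norm_num)))
    le_sup_right fun f hf hfM => ?_)
  have hfI := q3f_proj h.hI h.p2 h5 hf hfM
  have b1 := q3f_sb h.hI hgI 0 1 2
  have b2 := q3f_sb h.hI hgI 1 2 0
  have b3 := q3f_sb h.hI hgI 2 0 1
  have hv : (e3 f - o1 f) • Ym 0 + (e1 f - o3 f) • Ym 1 + (e2 f - o2 f) • Ym 2 ∈ I := by
    have h6 := I.sub_mem (I.sub_mem (I.sub_mem hfI (I.smul_mem (o3 f) b1))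
      (I.smul_mem (o2 f) b2)) (I.smul_mem (o1 f) b3)
    have e : (e3 f - o1 f) • Ym 0 + (e1 f - o3 f) • Ym 1 + (e2 f - o2 f) • Ym 2 =
        f - o3 f • sb (fun i => if i = 0 then X 0 else if i = 1 then X 1 else X 2) g1 -
        o2 f • sb (fun i => if i = 0 then X 1 else if i = 1 then X 2 else X 0) g1 -
        o1 f • sb (fun i => if i = 0 then X 2 else if i = 1 then X 0 else X 1) g1 := by
      conv_rhs => enter [1, 1, 1]; rw [M3_words hfM]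
      unfold g1 Ym
      simp only [map_add, map_mul, sb_X]
      simp only [if_true, one_ne_zero, if_false, OfNat.ofNat_ne_zero, OfNat.ofNat_ne_one]
      module
    rw [e]
    exact h6
  obtain ⟨k0, k1, k2, k9⟩ := q3f_key h (fun k => Ml_Pp (by norm_num) (Ym_Ml k)) hactI hv
  rw [KG32_iff hfM]
  refine ⟨k1, k2, k0, ?_⟩
  have e : e1 f + e2 f + e3 f - o1 f - o2 f - o3 f =
    e3 f - o1 f + (e1 f - o3 f) + (e2 f - o2 f) := by ring
  rw [e]
  exact k9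

theorem tw_E {I J : Submodule ℤ P} (h : Tw I J Yl) (h4 : g4 ∈ J) : I ≤ TE := by
  have hp : (X 0 * X 1 * X 2 - (-1 : ℤ) • (X 1 * X 0 * X 2) : P) = g4 := by
    unfold g4
    rw [neg_one_smul, sub_neg_eq_add, add_mul]
  obtain ⟨hM, hact⟩ := last h.bJ.isT (ε := -1) (Or.inr rfl) (by rw [hp]; exact h4)
  have hgM : g4 ∈ Ml 3 := by
    unfold g4
    rw [add_mul]
    exact Submodule.add_mem _ (q3f_M (by decide)) (q3f_M (by decide))
  have hτ : rn 3 (Equiv.swap 0 1) g4 = g4 := by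
    have e : g4 = mon [0, 1, 2] + mon [1, 0, 2] := by
      unfold g4
      simp [mon_cons, mon_nil, mul_assoc, add_mul]
    have e1 : [0, 1, 2].map (pN 3 (Equiv.swap 0 1)) = [1, 0, 2] := by decide
    have e2 : [1, 0, 2].map (pN 3 (Equiv.swap 0 1)) = [0, 1, 2] := by decide
    rw [e, map_add, rn_mon, rn_mon, e1, e2, add_comm]
  have hgI : g4 ∈ I := q3f_red h hM hact hgM h4 0 1 (by decide) (by decide) hτ
  obtain ⟨-, hactI⟩ := last h.hI (ε := -1) (Or.inr rfl) (by rw [hp]; exact hgI)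
  have h5 := q3f_F4 h.hI h.p2 hgI
  refine le_TK h.hI h5 fun f hfI hfM => ?_
  have b1 := q3f_sb h.hI hgI 0 1 2
  have b2 := q3f_sb h.hI hgI 1 2 0
  have b3 := q3f_sb h.hI hgI 2 0 1
  have hv : (e2 f - o3 f) • Yl 0 + (e3 f - o2 f) • Yl 1 + (e1 f - o1 f) • Yl 2 ∈ I := by
    have h6 := I.sub_mem (I.sub_mem (I.sub_mem hfI (I.smul_mem (o1 f) b1))
      (I.smul_mem (o3 f) b2)) (I.smul_mem (o2 f) b3)
    have e : (e2 f - o3 f) • Yl 0 + (e3 f - o2 f) • Yl 1 + (e1 f - o1 f) • Yl 2 =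
        f - o1 f • sb (fun i => if i = 0 then X 0 else if i = 1 then X 1 else X 2) g4 -
        o3 f • sb (fun i => if i = 0 then X 1 else if i = 1 then X 2 else X 0) g4 -
        o2 f • sb (fun i => if i = 0 then X 2 else if i = 1 then X 0 else X 1) g4 := by
      conv_rhs => enter [1, 1, 1]; rw [M3_words hfM]
      unfold g4 Yl
      simp only [map_add, map_mul, sb_X, add_mul]
      simp only [if_true, one_ne_zero, if_false, OfNat.ofNat_ne_zero, OfNat.ofNat_ne_one]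
      module
    rw [e]
    exact h6
  obtain ⟨k0, k1, k2, k9⟩ := q3f_key h (fun k => Ml_Pp (by norm_num) (Yl_Ml k)) hactI hv
  refine ⟨k2, k0, k1, ?_⟩
  have e : e1 f + e2 f + e3 f - o1 f - o2 f - o3 f =
    e2 f - o3 f + (e3 f - o2 f) + (e1 f - o1 f) := by ring
  rw [e]
  exact k9

end ADP
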