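import Pool.Agent.ADP.Q3p
import Pool.Agent.ADP.Q3f

/-!
# ADP-NoQ3: exponent 9 with `x^3 ∈ I`

`nq_word` for `J = I ⊔ mulI 3 Pp` (`X 0 ^ 3 ∈ I ≤ J`), `nq_pr`: `Pr 3 I J A B C n 3 a b t`, `n ≥ 1`.  `n = 1`: `core1`; `n = 2`: `core2` (ADP.Core1).  Types (modulo `J`):
* `g2`: `n ≥ 4`: `coreC` (`Cn n ≤ Cn 4 ≤ J`).  `n = 3`: `q3p` with `Ym` (`mid`, `ε = 1`); `Y 0 + Y 1 + Y 2 ∈ J`: linearising `X 0 ^ 3 ∈ J` gives `s = ∑ of the six words ∈ J` (substitute and take the inclusion-exclusion, or `li 0 0 1 2` of ADP.Lin3), and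
  `s ≡ 2 (Y 0 + Y 1 + Y 2)` modulo `J`; `cancel`.
* `g3`: `n ≥ 4`: `Cn 4 ≤ J`: as before `Yl 0 + Yl 1 + Yl 2 ∈ J` (three words of length 3 with last letters 0, 1, 2); multiply by `X 3` on the left: the sum of words of length 4 with last letters 0, 1, 2 is in `J`; rename `3 ↔ 0` and subtract:
  two words with last letters 0 and 3 are congruent modulo `J` (`Dn 3 ≤ J`): so `Cn 4 ≤ J`; `coreC`.  `n = 3`: `q3p` with `Yl` (`last`, `ε = 1`).
* `g5`: `n ≥ 4`: `coreC`; `n = 3`: `q3v`.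
* `g1`: `n ≥ 5`: `Ml n ≤ Fge 5 ≤ J`: `q_one`; `n = 4`: `alt4`, `q_one`; `n = 3`: `q3m` with `Ym`, `ε = -1`, and `tw_G`.
* `g4`: `n ≥ 4`: `q_one`; `n = 3`: `q3m` with `Yl`, `tw_E`.
`Tw` from `Pr`: `pJ`, `ex` are fields of `Pr`; `p2` : `((3:ℕ):ℤ)^2 = 9`.
-/

namespace ADP

open AD ADN ADC

private theorem NoQ3_cube {J : Submodule ℤ P} (hJ : IsT J) (hx : X 0 ^ 3 ∈ J) {f : P} (hf : f ∈ Pp) : f ^ 3 ∈ J := by
  have h := sb_mem hJ (φ := fun _ => f) (fun _ => hf) hx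
  rwa [map_pow, sb_X] at h

private theorem NoQ3_id (x y z : P) : x * y * z + x * z * y + y * x * z + y * z * x + z * x * y + z * y * x =
    (x + y + z) ^ 3 - (x + y) ^ 3 - (x + z) ^ 3 - (y + z) ^ 3 + x ^ 3 + y ^ 3 + z ^ 3 := by
  noncomm_ring

private theorem NoQ3_six {J : Submodule ℤ P} (hJ : IsT J) (hx : X 0 ^ 3 ∈ J) (a b c : ℕ) :
    X a * X b * X c + X a * X c * X b + X b * X a * X c + X b * X c * X a + X c * X a * X b + X c * X b * X a ∈ J := by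
  rw [NoQ3_id (X a) (X b) (X c)]
  have ha := X_mem a
  have hb := X_mem b
  have hc := X_mem c
  have q : ∀ f ∈ Pp, f ^ 3 ∈ J := fun f hf => NoQ3_cube hJ hx hf
  exact J.add_mem (J.add_mem (J.add_mem (J.sub_mem (J.sub_mem (J.sub_mem
    (q _ (Pp.add_mem (Pp.add_mem ha hb) hc)) (q _ (Pp.add_mem ha hb))) (q _ (Pp.add_mem ha hc)))
    (q _ (Pp.add_mem hb hc))) (q _ ha)) (q _ hb)) (q _ hc)

private theorem NoQ3_sb {I : Submodule ℤ P} (hI : IsT I) {f : P} (hf : f ∈ I) (a b c : ℕ) :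
    sb (fun i => if i = 0 then X a else if i = 1 then X b else X c) f ∈ I := by
  refine sb_mem hI (fun i => ?_) hf
  show (if i = 0 then X a else if i = 1 then X b else X c) ∈ Pp
  split_ifs <;> exact X_mem _

private theorem NoQ3_r2 {J : Submodule ℤ P} (hJ : IsT J) (h2 : g2 ∈ J) (a b c : ℕ) :
    X a * X b * X c - X c * X b * X a ∈ J := by
  have h := NoQ3_sb hJ h2 a b c
  unfold g2 at h
  simpa only [map_sub, map_mul, sb_X, if_true, one_ne_zero, if_false, OfNat.ofNat_ne_zero, OfNat.ofNat_ne_one] using h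

private theorem NoQ3_r3 {J : Submodule ℤ P} (hJ : IsT J) (h3 : g3 ∈ J) (a b c : ℕ) :
    (X a * X b - X b * X a) * X c ∈ J := by
  have h := NoQ3_sb hJ h3 a b c
  unfold g3 at h
  simpa only [map_sub, map_mul, sb_X, if_true, one_ne_zero, if_false, OfNat.ofNat_ne_zero, OfNat.ofNat_ne_one] using h

private theorem NoQ3_two {J : Submodule ℤ P} (h9 : Mul (((3 : ℕ) : ℤ) ^ 2) J) {f : P} (hf : f ∈ Pp)
    (h : (2 : ℤ) • f ∈ J) : f ∈ J := cancel (p := 3) Nat.prime_three h9 (c := 2) (by norm_num) hf h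

private theorem NoQ3_s2 {J : Submodule ℤ P} (hJ : IsT J) (h9 : Mul (((3 : ℕ) : ℤ) ^ 2) J) (hx : X 0 ^ 3 ∈ J)
    (h2 : g2 ∈ J) : Ym 0 + Ym 1 + Ym 2 ∈ J := by
  have hY : ∀ k, Ym k ∈ Pp := fun k => Ml_Pp (by norm_num) (Ym_Ml k)
  refine NoQ3_two h9 (Pp.add_mem (Pp.add_mem (hY 0) (hY 1)) (hY 2)) ?_
  have e : (2 : ℤ) • (Ym 0 + Ym 1 + Ym 2) =
      (X 0 * X 1 * X 2 + X 0 * X 2 * X 1 + X 1 * X 0 * X 2 + X 1 * X 2 * X 0 + X 2 * X 0 * X 1 + X 2 * X 1 * X 0) -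
      (X 0 * X 2 * X 1 - X 1 * X 2 * X 0) - (X 1 * X 0 * X 2 - X 2 * X 0 * X 1) -
      (X 2 * X 1 * X 0 - X 0 * X 1 * X 2) := by
    unfold Ym
    simp only [if_true, one_ne_zero, if_false, OfNat.ofNat_ne_zero, OfNat.ofNat_ne_one]
    module
  rw [e]
  exact J.sub_mem (J.sub_mem (J.sub_mem (NoQ3_six hJ hx 0 1 2) (NoQ3_r2 hJ h2 0 2 1)) (NoQ3_r2 hJ h2 1 0 2))
    (NoQ3_r2 hJ h2 2 1 0)

private theorem NoQ3_s3 {J : Submodule ℤ P} (hJ : IsT J) (h9 : Mul (((3 : ℕ) : ℤ) ^ 2) J) (hx : X 0 ^ 3 ∈ J)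
    (h3 : g3 ∈ J) (p q r : ℕ) : X q * X r * X p + X r * X p * X q + X p * X q * X r ∈ J := by
  have hw : ∀ i j k : ℕ, X i * X j * X k ∈ Pp := fun i j k => Pp_mul_left _ (X_mem k)
  refine NoQ3_two h9 (Pp.add_mem (Pp.add_mem (hw _ _ _) (hw _ _ _)) (hw _ _ _)) ?_
  have e : (2 : ℤ) • (X q * X r * X p + X r * X p * X q + X p * X q * X r) =
      (X p * X q * X r + X p * X r * X q + X q * X p * X r + X q * X r * X p + X r * X p * X q + X r * X q * X p) +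
      (X r * X p - X p * X r) * X q + (X p * X q - X q * X p) * X r + (X q * X r - X r * X q) * X p := by
    noncomm_ring
  rw [e]
  exact J.add_mem (J.add_mem (J.add_mem (NoQ3_six hJ hx p q r) (NoQ3_r3 hJ h3 r p q)) (NoQ3_r3 hJ h3 p q r))
    (NoQ3_r3 hJ h3 q r p)

private theorem NoQ3_Yl {J : Submodule ℤ P} (hJ : IsT J) (h9 : Mul (((3 : ℕ) : ℤ) ^ 2) J) (hx : X 0 ^ 3 ∈ J)
    (h3 : g3 ∈ J) : Yl 0 + Yl 1 + Yl 2 ∈ J := by
  have h := NoQ3_s3 hJ h9 hx h3 0 1 2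
  have e : Yl 0 + Yl 1 + Yl 2 = X 1 * X 2 * X 0 + X 2 * X 0 * X 1 + X 0 * X 1 * X 2 := by
    unfold Yl
    simp only [if_true, one_ne_zero, if_false, OfNat.ofNat_ne_zero, OfNat.ofNat_ne_one]
  rw [e]
  exact h

private theorem NoQ3_idd (a b i j : P) : a * b * (i * j - j * i) =
    -(j * (a * b * i + b * i * a + i * a * b) - i * (a * b * j + b * j * a + j * a * b)
      - ((j * a - a * j) * b * i + a * ((j * b - b * j) * i))
      + ((i * a - a * i) * b * j + a * ((i * b - b * i) * j))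
      - ((j * b - b * j) * i * a + b * ((j * i - i * j) * a) - (i * b - b * i) * j * a)
      - (j * i - i * j) * a * b) := by
  noncomm_ring

private theorem NoQ3_c4 {J : Submodule ℤ P} (hJ : IsT J) (h9 : Mul (((3 : ℕ) : ℤ) ^ 2) J) (hx : X 0 ^ 3 ∈ J)
    (h3 : g3 ∈ J) (a b i j : ℕ) : X a * X b * (X i * X j - X j * X i) ∈ J := by
  have s1 := hJ.mul_left _ (NoQ3_s3 hJ h9 hx h3 i a b) (X j)
  have s2 := hJ.mul_left _ (NoQ3_s3 hJ h9 hx h3 j a b) (X i)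
  have c := NoQ3_r3 hJ h3
  have c1 := hJ.mul_right _ (c j a b) (X i)
  have c2 := hJ.mul_left _ (c j b i) (X a)
  have c3 := hJ.mul_right _ (c i a b) (X j)
  have c4 := hJ.mul_left _ (c i b j) (X a)
  have c5 := hJ.mul_right _ (c j b i) (X a)
  have c6 := hJ.mul_left _ (c j i a) (X b)
  have c7 := hJ.mul_right _ (c i b j) (X a)
  have c8 := hJ.mul_right _ (c j i a) (X b)
  rw [NoQ3_idd]
  exact J.neg_mem (J.sub_mem (J.sub_mem (J.add_mem (J.sub_mem (J.sub_mem s1 s2) (J.add_mem c1 c2))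
    (J.add_mem c3 c4)) (J.sub_mem (J.add_mem c5 c6) c7)) c8)

private theorem NoQ3_C4 {J : Submodule ℤ P} (hJ : IsT J) (h9 : Mul (((3 : ℕ) : ℤ) ^ 2) J) (hx : X 0 ^ 3 ∈ J)
    (h3 : g3 ∈ J) : Cn 4 ≤ J := by
  refine Submodule.span_le.2 ?_
  rintro f ⟨u, v, i, j, hl, rfl⟩
  show mon u * (X i * X j - X j * X i) * mon v ∈ J
  by_cases hv : v = []
  · rw [hv] at hl ⊢
    rw [mon_nil, mul_one]
    rcases List.eq_nil_or_concat u with hu | ⟨u1, b, hu⟩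
    · rw [hu] at hl
      simp at hl
    rcases List.eq_nil_or_concat u1 with hu1 | ⟨u2, a, hu1⟩
    · rw [hu, hu1] at hl
      simp at hl
    have e : mon u * (X i * X j - X j * X i) = mon u2 * (X a * X b * (X i * X j - X j * X i)) := by
      rw [hu, hu1, List.concat_eq_append, List.concat_eq_append, mon_append, mon_append, mon_single, mon_single]
      simp only [mul_assoc]
    rw [e]
    exact hJ.mul_left _ (NoQ3_c4 hJ h9 hx h3 a b i j) _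
  · obtain ⟨c, v', hc⟩ := List.exists_cons_of_ne_nil hv
    have e : mon u * (X i * X j - X j * X i) * mon v = mon u * ((X i * X j - X j * X i) * X c) * mon v' := by
      rw [hc, mon_cons]
      simp only [mul_assoc]
    rw [e]
    exact IsT.lm hJ _ _ (NoQ3_r3 hJ h3 i j c)

private theorem NoQ3_Tw {I J A B C : Submodule ℤ P} {a b t : P} (h : Pr 3 I J A B C 3 3 a b t) (hB : B ⊓ J ≤ I)
    {Y : ℕ → P} (hY : ∀ k < 3, Y k ∈ Ml 3) (hM : Ml 3 ≤ J ⊔ Submodule.span ℤ {f | ∃ k < 3, f = Y k})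
    (hact : Act J 3 (-1) Y) : Tw I J Y := by
  obtain ⟨h1, h2, h3⟩ := q3m h hB hY hM hact
  have e : (((3 : ℕ) : ℤ) ^ 2) = 9 := by norm_num
  have h9 : Mul 9 I := by
    rw [← e]
    exact h.p2
  exact { bJ := h.bJ, hI := h.hI, IJ := h.IJ, p2 := h9, nil := h.nil, pJ := fun f hf => h.pJ f hf,
          ex := fun f hf hfJ => h.ex f hf hfJ, eq := h1, ne := h2, S := h3 }

private theorem NoQ3_Fge (n : ℕ) : Ml n ≤ Fge n := by
  refine Submodule.span_mono ?_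
  rintro f ⟨w, hw, rfl⟩
  refine ⟨w, ?_, rfl⟩
  rw [hw.length_eq, List.length_range]

private theorem NoQ3_mw (n : ℕ) : mw n ∈ Ml n := Submodule.subset_span ⟨_, List.Perm.refl _, rfl⟩

private theorem NoQ3_rvM {n : ℕ} {f : P} (hf : f ∈ Ml n) : rv f ∈ Ml n := by
  refine Ml_ind (n := n) (C := fun f => rv f ∈ Ml n) ?_ ?_ ?_ ?_ hf
  · rw [map_zero]; exact Submodule.zero_mem _
  · intro f g hf hg; rw [map_add]; exact Submodule.add_mem _ hf hg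
  · intro c f hf; rw [map_smul]; exact Submodule.smul_mem _ _ hf
  · intro w hw
    rw [rv_mon]
    exact Ml_mon ((List.reverse_perm w).trans hw)

private theorem NoQ3_op {K K' : Set P} (hK : AddS K) {I : Submodule ℤ P} (hI : IsT I) (h : op I ≤ TK 3 K)
    (hKK : ∀ f ∈ Ml 3, rv f ∈ K → f ∈ K') : I ≤ TK 3 K' := by
  refine le_trans (le_sup_left : I ≤ I ⊔ Fge 4) (le_TK (isT_sup hI (isT_Fge 4 (by norm_num)))
    le_sup_right fun f hf hfM => hKK f hfM ?_)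
  have h1 : rv f ∈ op (I ⊔ Fge 4) := by
    rw [mem_op, rv_rv]
    exact hf
  rw [op_sup, op_Fge] at h1
  have h2 : op I ⊔ Fge 4 ≤ TK 3 K := sup_le h (Fge_le_TK (by norm_num) hK)
  exact TK_sub (by norm_num) hK (h2 h1) (NoQ3_rvM hfM)

private theorem NoQ3_cf {f : P} (hf : f ∈ Ml 3) :
    e1 (rv f) = o3 f ∧ e2 (rv f) = o2 f ∧ e3 (rv f) = o1 f ∧ o1 (rv f) = e3 f ∧ o2 (rv f) = e2 f ∧ o3 (rv f) = e1 f := by
  have key : ∀ w : List ℕ, cf w (rv f) = cf w.reverse f := by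
    intro w
    refine Ml_ind (n := 3) (C := fun f => cf w (rv f) = cf w.reverse f) ?_ ?_ ?_ ?_ hf
    · rw [map_zero]
      have h0 : ∀ u : List ℕ, cf u 0 = 0 := fun u => by
        have := cf_smul u 0 0
        rwa [zero_smul, zero_mul] at this
      rw [h0, h0]
    · intro f g hf hg
      rw [map_add, cf_add, cf_add, hf, hg]
    · intro c f hf
      rw [map_smul, cf_smul, cf_smul, hf]
    · intro u _
      rw [rv_mon, cf_mon, cf_mon]
      have e : (u.reverse = w) ↔ (u = w.reverse) := by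
        constructor
        · intro h; rw [← h, List.reverse_reverse]
        · intro h; rw [h, List.reverse_reverse]
      simp only [e]
  unfold e1 e2 e3 o1 o2 o3
  refine ⟨?_, ?_, ?_, ?_, ?_, ?_⟩ <;> rw [key] <;> rfl

theorem noQ3 {I A B C : Submodule ℤ P} (h : Lk 3 I A B C) (hb : Bt 3 (I ⊔ mulI (3 : ℕ) Pp))
    (hA : A ≤ I ⊔ mulI (3 : ℕ) Pp) (hB : B ⊓ (I ⊔ mulI (3 : ℕ) Pp) ≤ I) (hx : X 0 ^ 3 ∈ I)
    (hT : Ty (I ⊔ mulI (3 : ℕ) Pp)) : I ≤ GP 3 2 ∨ I ≤ TE := by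
  have hxJ : X 0 ^ 3 ∈ I ⊔ mulI (3 : ℕ) Pp := Submodule.mem_sup_left hx
  have hN := nq_word hb hxJ hT
  obtain ⟨n, a, b, t, hn, hp0⟩ := nq_pr h hb hA hN
  generalize hJd : I ⊔ mulI (3 : ℕ) Pp = J at *
  have hp : Pr 3 I J A B C n 3 a b t := hp0
  have hJ := hb.isT
  have h9 : Mul (((3 : ℕ) : ℤ) ^ 2) J := hb.mul.sq
  rcases (show n = 1 ∨ n = 2 ∨ 3 ≤ n by omega) with rfl | rfl | hn3
  · exact (core1 hp).elim
  · exact (core2 hp).elim
  have hF : ∀ m, m ≤ n → Fge m ≤ J → False := fun m hm hF =>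
    q_one hp (NoQ3_mw n) (((NoQ3_Fge n).trans ((Fge_anti hm).trans hF)).trans le_sup_left)
  have hC : 4 ≤ n → Cn 4 ≤ J → False := fun h4 hC => coreC hp ((Cn_anti h4).trans hC)
  rcases hT with ⟨h1, h5⟩ | ⟨h2, h4, _, _⟩ | ⟨h3, _, _⟩ | ⟨h4, h4'⟩ | ⟨h5, h4, _, _⟩
  · rcases (show n = 3 ∨ n = 4 ∨ 5 ≤ n by omega) with rfl | rfl | h6
    · obtain ⟨m1, m2⟩ := mid (ε := -1) hJ (Or.inr rfl) (by
        have e : X 0 * X 1 * X 2 - (-1 : ℤ) • (X 2 * X 1 * X 0) = g1 := by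
          unfold g1
          module
        rw [e]
        exact h1)
      exact Or.inl (tw_G (NoQ3_Tw hp hB (fun k _ => Ym_Ml k) m1 m2) h1)
    · exact (q_one hp (NoQ3_mw 4) (alt4 hJ h1)).elim
    · exact (hF 5 h6 h5).elim
  · rcases (show n = 3 ∨ 4 ≤ n by omega) with rfl | h6
    · obtain ⟨m1, m2⟩ := mid (ε := 1) hJ (Or.inl rfl) (by
        have e : X 0 * X 1 * X 2 - (1 : ℤ) • (X 2 * X 1 * X 0) = g2 := by
          unfold g2
          module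
        rw [e]
        exact h2)
      exact (q3p hp hB (fun k _ => Ym_Ml k) m1 m2 (NoQ3_s2 hJ h9 hxJ h2)).elim
    · exact (hC h6 h4).elim
  · rcases (show n = 3 ∨ 4 ≤ n by omega) with rfl | h6
    · obtain ⟨m1, m2⟩ := last (ε := 1) hJ (Or.inl rfl) (by
        have e : X 0 * X 1 * X 2 - (1 : ℤ) • (X 1 * X 0 * X 2) = g3 := by
          unfold g3
          rw [sub_mul]
          module
        rw [e]
        exact h3)
      exact (q3p hp hB (fun k _ => Yl_Ml k) m1 m2 (NoQ3_Yl hJ h9 hxJ h3)).elim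
    · exact (hC h6 (NoQ3_C4 hJ h9 hxJ h3)).elim
  · rcases (show n = 3 ∨ 4 ≤ n by omega) with rfl | h6
    · obtain ⟨m1, m2⟩ := last (ε := -1) hJ (Or.inr rfl) (by
        have e : X 0 * X 1 * X 2 - (-1 : ℤ) • (X 1 * X 0 * X 2) = g4 := by
          unfold g4
          rw [add_mul]
          module
        rw [e]
        exact h4)
      exact Or.inr (tw_E (NoQ3_Tw hp hB (fun k _ => Yl_Ml k) m1 m2) h4)
    · exact (hF 4 h6 h4').elim
  · rcases (show n = 3 ∨ 4 ≤ n by omega) with rfl | h6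
    · exact (q3v hp hB h5).elim
    · exact (hC h6 h4).elim

/-- `op` of the reversal: `e1 (rv g) = o3 g`, `e2 (rv g) = o2 g`, `e3 (rv g) = o1 g` and conversely; `le_TK`, `TK_sub` as in the header of ADP.Q3f (d); `rv` maps `Ml 3` and `Fge 4` into themselves. -/
theorem op_GP {I : Submodule ℤ P} (hI : IsT I) (h : op I ≤ GP 3 2) : I ≤ GP 3 2 := by
  refine NoQ3_op (K := KG 3 2) (K' := KG 3 2) (KG_add 3 2) hI h fun f hf hr => ?_
  obtain ⟨c1, c2, c3, c4, c5, c6⟩ := NoQ3_cf hf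
  rw [KG32_iff (NoQ3_rvM hf), c1, c2, c3, c4, c5, c6] at hr
  rw [KG32_iff hf]
  obtain ⟨d1, d2, d3, d4⟩ := hr
  omega

theorem op_TE {I : Submodule ℤ P} (hI : IsT I) (h : op I ≤ TE) : I ≤ TF := by
  refine NoQ3_op (K := KE) (K' := KF) KE_add hI h fun f hf hr => ?_
  obtain ⟨c1, c2, c3, c4, c5, c6⟩ := NoQ3_cf hf
  have hr' : (3 : ℤ) ∣ e1 (rv f) - o1 (rv f) ∧ (3 : ℤ) ∣ e2 (rv f) - o3 (rv f) ∧ (3 : ℤ) ∣ e3 (rv f) - o2 (rv f) ∧
      (9 : ℤ) ∣ e1 (rv f) + e2 (rv f) + e3 (rv f) - o1 (rv f) - o2 (rv f) - o3 (rv f) := hr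
  rw [c1, c2, c3, c4, c5, c6] at hr'
  show (3 : ℤ) ∣ e1 f - o2 f ∧ (3 : ℤ) ∣ e2 f - o1 f ∧ (3 : ℤ) ∣ e3 f - o3 f ∧
      (9 : ℤ) ∣ e1 f + e2 f + e3 f - o1 f - o2 f - o3 f
  obtain ⟨d1, d2, d3, d4⟩ := hr'
  omega

end ADP
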