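import Pool.Agent.ADP.Base
import Pool.Agent.ADC.TOpW
import Pool.Agent.ADA.UpA

/-!
# ADP-UEx

Use of `¬ I ≤ U_p` (`ADA.UP`, ADA.UpA: `f ∈ UP p` iff `f ∈ Pp` and `com f ∈ KP p = p² 𝔪 + p 𝔪² + 𝔪^(p+1)`; `mem_KP`: `com f ∈ KP p` iff the coefficients of degree 1
are divisible by `p²` and those of degree `2..p` by `p`).  `I` a T-ideal, `p² Pp ≤ I`, not `p Pp ≤ I`, `NilAt I N`.  Let `x = X 0`.

0. `X 0 ∉ I`, even `p X 0 ∉ I`.  One variable: if `c x^d + ∑_{e>d} c_e x^e ∈ I`, `p ∤ c`, `d ≥ 1`, then `x^d ∈ I` (cancel `c` modulo `p²`, iterate, nilpotency).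
1. Let `f ∈ I`, `f ∉ UP p`.  (a) some coefficient `c` of `f` at a letter `X i` is not divisible by `p²`: kill the other variables, rename: `g(x) = c x + c_2 x² + ... ∈ I`.
   `p ∣ c` by 0. (else `x ∈ I`), `c = p u`, `p ∤ u`.  Multiply by an inverse of `u` modulo `p²` and project on the exponents `≡ 1` modulo `p - 1`:
   `p x + c_p x^p + c_{2p-1} x^(2p-1) + ... ∈ I`.
   (b) otherwise all linear coefficients of all elements of `I` (at all letters) are divisible by `p²`, and `com f` has a coefficient `c` of degree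
   `2 ≤ m ≤ p` with `p ∤ c`, `m` minimal, at a monomial `d`.  If all `d_i < p`: project on the words with exactly the letters occurring in `d`
   and `count i ≡ d_i` modulo `p - 1`: (part of multidegree `d`) + longer words; put all variables `= x`: `c x^m + higher ∈ I`, `x^m ∈ I`, `x^p ∈ I`.
   If some `d_i = p = m`: kill the other variables: `g(x) = ∑ c_e x^e ∈ I` with `c_p = c`; project on exponents `≡ 1` modulo `p-1`:
   `c_1 x + c x^p + higher`, `p² ∣ c_1`: `x^p ∈ I`.
2. Case (a): if `p ∣ c_e` for all `e = p, 2p-1, ...`: `c_e = p c'_e`, `p x (1 + c'_p x^(p-1) + ...) ∈ I`, and multiplying by the inverse of the second factor modulo `x^N`: `p x ∈ I`, contradiction.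
   Otherwise let `j` be minimal with `p ∤ c_j`: `p x (1 + ∑_{e<j} c'_e x^(e-1)) + c_j x^j + higher ∈ I`; multiply by the inverse of the bracket modulo `x^N`:
   `p x + c_j x^j + r ∈ I`, `r` a combination of `x^e`, `e > j`; `j ≥ p`.
   Substitute `x ↦ x²`: `p x² + c_j x^(2j) + .. ∈ I`; multiply by `x`: `p x² + c_j x^(j+1) + .. ∈ I`.  The difference: `c_j x^(j+1) + higher ∈ I` (`2j > j+1`), so
   `x^(j+1) ∈ I` by 0., hence `p x² ∈ I` and `p x + c_j x^j ∈ I`.  Take `w = -c_j`.
-/

namespace ADP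

open AD ADN ADC

/-! ### one variable -/

private theorem ue_low {p : ℕ} (hp : p.Prime) {U : Ideal (Polynomial ℤ)}
    (h2 : Polynomial.C ((p : ℤ) ^ 2) * Polynomial.X ∈ U) {N : ℕ} (hN : Polynomial.X ^ N ∈ U) {c : ℤ}
    (hc : ¬ (p : ℤ) ∣ c) {d : ℕ} (hd : 1 ≤ d) {r : Polynomial ℤ}
    (h : Polynomial.C c * Polynomial.X ^ d + Polynomial.X ^ (d + 1) * r ∈ U) : Polynomial.X ^ d ∈ U := by
  have h1 : IsCoprime c ((p : ℤ) ^ 2) :=
    IsCoprime.pow_right ((Prime.coprime_iff_not_dvd (Nat.prime_iff_prime_int.1 hp)).2 hc).symm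
  obtain ⟨u, v, huv⟩ := h1
  obtain ⟨e, rfl⟩ : ∃ e, d = e + 1 := ⟨d - 1, by omega⟩
  obtain ⟨y, hy⟩ : ∃ y, y = -(Polynomial.X * (Polynomial.C u * r)) := ⟨_, rfl⟩
  have h3 : Polynomial.X ^ (e + 1) * (1 - y) ∈ U := by
    have e1 : Polynomial.X ^ (e + 1) * (1 - y) =
        Polynomial.C u * (Polynomial.C c * Polynomial.X ^ (e + 1) + Polynomial.X ^ (e + 1 + 1) * r) +
        Polynomial.C v * Polynomial.X ^ e * (Polynomial.C ((p : ℤ) ^ 2) * Polynomial.X) := by
      have e2 : (1 : Polynomial ℤ) = Polynomial.C u * Polynomial.C c + Polynomial.C v * Polynomial.C ((p : ℤ) ^ 2) := by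
        rw [← Polynomial.C_mul, ← Polynomial.C_mul, ← Polynomial.C_add, huv, Polynomial.C_1]
      rw [hy]
      calc Polynomial.X ^ (e + 1) * (1 - -(Polynomial.X * (Polynomial.C u * r)))
          = Polynomial.X ^ (e + 1) * 1 + Polynomial.X ^ (e + 1 + 1) * (Polynomial.C u * r) := by ring
        _ = Polynomial.X ^ (e + 1) * (Polynomial.C u * Polynomial.C c + Polynomial.C v * Polynomial.C ((p : ℤ) ^ 2)) +
            Polynomial.X ^ (e + 1 + 1) * (Polynomial.C u * r) := by rw [← e2]
        _ = _ := by ring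
    rw [e1]
    exact U.add_mem (U.mul_mem_left _ h) (U.mul_mem_left _ h2)
  have h4 : Polynomial.X ^ (e + 1) = (∑ i ∈ Finset.range N, y ^ i) * (Polynomial.X ^ (e + 1) * (1 - y)) +
      Polynomial.X ^ (e + 1) * (-(Polynomial.C u * r)) ^ N * Polynomial.X ^ N := by
    have e1 := geom_sum_mul y N
    have e2 : y ^ N = (-(Polynomial.C u * r)) ^ N * Polynomial.X ^ N := by
      rw [hy, ← mul_pow]
      congr 1
      ring
    calc Polynomial.X ^ (e + 1) = - (Polynomial.X ^ (e + 1) * (y ^ N - 1)) + Polynomial.X ^ (e + 1) * y ^ N := by ring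
      _ = - (Polynomial.X ^ (e + 1) * ((∑ i ∈ Finset.range N, y ^ i) * (y - 1))) + Polynomial.X ^ (e + 1) * y ^ N := by
        rw [e1]
      _ = (∑ i ∈ Finset.range N, y ^ i) * (Polynomial.X ^ (e + 1) * (1 - y)) + Polynomial.X ^ (e + 1) * y ^ N := by ring
      _ = _ := by rw [e2]; ring
  rw [h4]
  exact U.add_mem (U.mul_mem_left _ h3) (U.mul_mem_left _ hN)

private theorem ue_step {p : ℕ} {U : Ideal (Polynomial ℤ)} {N : ℕ} (hN : Polynomial.X ^ N ∈ U) {j : ℕ} (hj : 2 ≤ j)
    {c : ℤ} {r : Polynomial ℤ}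
    (h : Polynomial.C (p : ℤ) * Polynomial.X + Polynomial.X ^ j * (r * Polynomial.X + Polynomial.C ((p : ℤ) * c)) ∈ U) :
    ∃ r', Polynomial.C (p : ℤ) * Polynomial.X + Polynomial.X ^ (j + 1) * r' ∈ U := by
  obtain ⟨k, rfl⟩ : ∃ k, j = k + 2 := ⟨j - 2, by omega⟩
  obtain ⟨y, hy⟩ : ∃ y, y = -(Polynomial.C c * Polynomial.X ^ (k + 1)) := ⟨_, rfl⟩
  refine ⟨r * ∑ i ∈ Finset.range N, y ^ i, ?_⟩
  have e1 := geom_sum_mul y N
  have e2 : y ^ N = (-(Polynomial.C c * Polynomial.X ^ k)) ^ N * Polynomial.X ^ N := by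
    rw [hy, ← mul_pow]
    congr 1
    ring
  have e3 : Polynomial.C (p : ℤ) * Polynomial.X + Polynomial.X ^ (k + 2 + 1) * (r * ∑ i ∈ Finset.range N, y ^ i) =
      (∑ i ∈ Finset.range N, y ^ i) *
        (Polynomial.C (p : ℤ) * Polynomial.X + Polynomial.X ^ (k + 2) * (r * Polynomial.X + Polynomial.C ((p : ℤ) * c))) +
      Polynomial.C (p : ℤ) * Polynomial.X * (-(Polynomial.C c * Polynomial.X ^ k)) ^ N * Polynomial.X ^ N := by
    calc Polynomial.C (p : ℤ) * Polynomial.X + Polynomial.X ^ (k + 2 + 1) * (r * ∑ i ∈ Finset.range N, y ^ i)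
        = - (Polynomial.C (p : ℤ) * Polynomial.X * (y ^ N - 1)) + Polynomial.C (p : ℤ) * Polynomial.X * y ^ N +
          Polynomial.X ^ (k + 2 + 1) * (r * ∑ i ∈ Finset.range N, y ^ i) := by ring
      _ = - (Polynomial.C (p : ℤ) * Polynomial.X * ((∑ i ∈ Finset.range N, y ^ i) * (y - 1))) +
          Polynomial.C (p : ℤ) * Polynomial.X * y ^ N +
          Polynomial.X ^ (k + 2 + 1) * (r * ∑ i ∈ Finset.range N, y ^ i) := by rw [e1]
      _ = - (Polynomial.C (p : ℤ) * Polynomial.X * ((∑ i ∈ Finset.range N, y ^ i) *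
          (-(Polynomial.C c * Polynomial.X ^ (k + 1)) - 1))) +
          Polynomial.C (p : ℤ) * Polynomial.X * y ^ N +
          Polynomial.X ^ (k + 2 + 1) * (r * ∑ i ∈ Finset.range N, y ^ i) := by
        congr 4
        rw [hy]
      _ = _ := by
        rw [e2, Polynomial.C_mul]
        ring
  rw [e3]
  exact U.add_mem (U.mul_mem_left _ h) (U.mul_mem_left _ hN)

private theorem ue_abs {p : ℕ} (hp : p.Prime) (h5 : 3 ≤ p) {U : Ideal (Polynomial ℤ)}
    (h2 : Polynomial.C ((p : ℤ) ^ 2) * Polynomial.X ∈ U) {N : ℕ} (hN : Polynomial.X ^ N ∈ U)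
    (hcomp : ∀ g ∈ U, g.comp (Polynomial.X ^ 2) ∈ U) (h1 : Polynomial.C (p : ℤ) * Polynomial.X ∉ U)
    (hex : ∃ r, Polynomial.C (p : ℤ) * Polynomial.X + Polynomial.X ^ p * r ∈ U) :
    ∃ (w : ℤ) (j : ℕ), ¬ (p : ℤ) ∣ w ∧ p ≤ j ∧ Polynomial.X ^ (j + 1) ∈ U ∧
      Polynomial.C (p : ℤ) * Polynomial.X - Polynomial.C w * Polynomial.X ^ j ∈ U ∧
      Polynomial.C (p : ℤ) * Polynomial.X ^ 2 ∈ U := by
  obtain ⟨j, hpj, ⟨r, hr⟩, hj⟩ : ∃ j, p ≤ j ∧ (∃ r, Polynomial.C (p : ℤ) * Polynomial.X + Polynomial.X ^ j * r ∈ U) ∧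
      ¬ ∃ r, Polynomial.C (p : ℤ) * Polynomial.X + Polynomial.X ^ (j + 1) * r ∈ U := by
    by_contra hcon
    push Not at hcon
    have key : ∀ k, ∃ r, Polynomial.C (p : ℤ) * Polynomial.X + Polynomial.X ^ (p + k) * r ∈ U := by
      intro k
      induction k with
      | zero => exact hex
      | succ k ih => exact hcon (p + k) (by omega) ih
    obtain ⟨r, hr⟩ := key N
    apply h1
    have e : Polynomial.C (p : ℤ) * Polynomial.X = (Polynomial.C (p : ℤ) * Polynomial.X + Polynomial.X ^ (p + N) * r) -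
        (Polynomial.X ^ p * r) * Polynomial.X ^ N := by ring
    rw [e]
    exact U.sub_mem hr (U.mul_mem_left _ hN)
  have hr0 := Polynomial.divX_mul_X_add r
  obtain ⟨s, hs⟩ : ∃ s, s = Polynomial.divX r := ⟨_, rfl⟩
  obtain ⟨c, hc⟩ : ∃ c, c = r.coeff 0 := ⟨_, rfl⟩
  rw [← hs, ← hc] at hr0
  rw [← hr0] at hr
  have hpc : ¬ (p : ℤ) ∣ c := by
    rintro ⟨c', rfl⟩
    exact hj (ue_step hN (by omega) hr)
  obtain ⟨k, rfl⟩ : ∃ k, j = k + 2 := ⟨j - 2, by omega⟩
  have hA := hcomp _ hr
  have hB : Polynomial.X * (Polynomial.C (p : ℤ) * Polynomial.X + Polynomial.X ^ (k + 2) * (s * Polynomial.X + Polynomial.C c)) ∈ U :=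
    U.mul_mem_left _ hr
  have e1 : (Polynomial.C (p : ℤ) * Polynomial.X + Polynomial.X ^ (k + 2) * (s * Polynomial.X + Polynomial.C c)).comp
      (Polynomial.X ^ 2) = Polynomial.C (p : ℤ) * Polynomial.X ^ 2 +
        (Polynomial.X ^ 2) ^ (k + 2) * (s.comp (Polynomial.X ^ 2) * Polynomial.X ^ 2 + Polynomial.C c) := by
    simp only [Polynomial.add_comp, Polynomial.mul_comp, Polynomial.C_comp, Polynomial.X_comp, Polynomial.pow_comp]
  rw [e1] at hA
  have hX : Polynomial.X ^ (k + 2 + 1) ∈ U := by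
    refine ue_low hp h2 hN hpc (d := k + 2 + 1) (by omega)
      (r := s - Polynomial.C c * Polynomial.X ^ k - Polynomial.X ^ (k + 2) * s.comp (Polynomial.X ^ 2)) ?_
    have e2 : Polynomial.C c * Polynomial.X ^ (k + 2 + 1) + Polynomial.X ^ (k + 2 + 1 + 1) *
        (s - Polynomial.C c * Polynomial.X ^ k - Polynomial.X ^ (k + 2) * s.comp (Polynomial.X ^ 2)) =
        Polynomial.X * (Polynomial.C (p : ℤ) * Polynomial.X + Polynomial.X ^ (k + 2) * (s * Polynomial.X + Polynomial.C c)) -
        (Polynomial.C (p : ℤ) * Polynomial.X ^ 2 +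
        (Polynomial.X ^ 2) ^ (k + 2) * (s.comp (Polynomial.X ^ 2) * Polynomial.X ^ 2 + Polynomial.C c)) := by ring
    rw [e2]
    exact U.sub_mem hB hA
  refine ⟨-c, k + 2, fun h => hpc ((dvd_neg).1 h), hpj, hX, ?_, ?_⟩
  · have e2 : Polynomial.C (p : ℤ) * Polynomial.X - Polynomial.C (-c) * Polynomial.X ^ (k + 2) =
        (Polynomial.C (p : ℤ) * Polynomial.X + Polynomial.X ^ (k + 2) * (s * Polynomial.X + Polynomial.C c)) -
          s * Polynomial.X ^ (k + 2 + 1) := by
      rw [Polynomial.C_neg]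
      ring
    rw [e2]
    exact U.sub_mem hr (U.mul_mem_left _ hX)
  · have e2 : Polynomial.C (p : ℤ) * Polynomial.X ^ 2 =
        Polynomial.X * (Polynomial.C (p : ℤ) * Polynomial.X + Polynomial.X ^ (k + 2) * (s * Polynomial.X + Polynomial.C c)) -
          (s * Polynomial.X + Polynomial.C c) * Polynomial.X ^ (k + 2 + 1) := by ring
    rw [e2]
    exact U.sub_mem hB (U.mul_mem_left _ hX)

/-! ### the ideal of the polynomials in one variable -/

private noncomputable def ueU {I : Submodule ℤ P} (hI : IsT I) : Ideal (Polynomial ℤ) where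
  carrier := {g | Polynomial.aeval (X 0 : P) g ∈ I}
  add_mem' := by
    intro a b ha hb
    show Polynomial.aeval (X 0 : P) (a + b) ∈ I
    rw [map_add]
    exact I.add_mem ha hb
  zero_mem' := by
    show Polynomial.aeval (X 0 : P) 0 ∈ I
    rw [map_zero]
    exact I.zero_mem
  smul_mem' := by
    intro c x hx
    show Polynomial.aeval (X 0 : P) (c * x) ∈ I
    rw [map_mul]
    exact hI.mul_left _ hx _

private theorem ueU_mem {I : Submodule ℤ P} (hI : IsT I) {g : Polynomial ℤ} :
    g ∈ ueU hI ↔ Polynomial.aeval (X 0 : P) g ∈ I := Iff.rfl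

private theorem ue_CX (c : ℤ) (n : ℕ) :
    Polynomial.aeval (X 0 : P) (Polynomial.C c * Polynomial.X ^ n) = c • X 0 ^ n := by
  rw [map_mul, Polynomial.aeval_C, map_pow, Polynomial.aeval_X, eq_intCast]
  exact (zsmul_eq_mul _ _).symm

private theorem ue_rep (n i : ℕ) : (X i : P) ^ n = mon (List.replicate n i) := by
  unfold mon
  rw [List.map_replicate, List.prod_replicate]

private theorem ueU_comp {I : Submodule ℤ P} (hI : IsT I) {g : Polynomial ℤ} (hg : g ∈ ueU hI) :
    g.comp (Polynomial.X ^ 2) ∈ ueU hI := by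
  rw [ueU_mem, Polynomial.aeval_comp, map_pow, Polynomial.aeval_X]
  have h1 : sb (fun _ => X 0 ^ 2) (X 0) = X 0 ^ 2 := sb_X _ 0
  rw [← h1, Polynomial.aeval_algHom_apply]
  refine sb_mem hI (fun _ => ?_) hg
  rw [pow_two]
  exact Pp_mul_left _ (X_mem 0)

/-! ### projections -/

private theorem ue_and {p : ℕ} {φ ψ : List ℕ → Prop} (h : TOp p (wp φ)) (h' : TOp p (wp ψ)) :
    TOp p (wp (fun w => φ w ∧ ψ w)) := by
  have h1 : wp (fun w => φ w ∧ ψ w) = (wp φ).comp (wp ψ) := by
    ext f
    rw [LinearMap.comp_apply, wp_wp]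
  rw [h1]
  exact h.comp h'

private theorem ue_all {p : ℕ} {φ : ℕ → List ℕ → Prop} (h : ∀ i, TOp p (wp (φ i))) (n : ℕ) :
    TOp p (wp (fun w => ∀ i < n, φ i w)) := by
  induction n with
  | zero =>
    have h1 : wp (fun w => ∀ i < 0, φ i w) = LinearMap.id := by
      ext f
      refine ind_mon (C := fun f => wp (fun w => ∀ i < 0, φ i w) f = LinearMap.id f) (by simp) ?_ ?_ ?_ f
      · intro f g hf hg; rw [map_add, map_add, hf, hg]
      · intro c f hf; rw [map_smul, map_smul, hf]
      · intro w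
        rw [wp_pos (fun i hi => absurd hi (Nat.not_lt_zero i))]
        rfl
    rw [h1]
    exact TOp.id' p
  | succ n ih =>
    have h1 := ue_and ih (h n)
    rwa [wp_congr (ψ := fun w => ∀ i < n + 1, φ i w) (fun w => ⟨fun h i hi => by
      rcases Nat.lt_succ_iff_lt_or_eq.1 hi with h' | h'
      · exact h.1 i h'
      · rw [h']; exact h.2, fun h => ⟨fun i hi => h i (Nat.lt_succ_of_lt hi), h n (Nat.lt_succ_self n)⟩⟩)] at h1

/-- the exponents `≡ 1` modulo `p - 1` -/
private noncomputable def ueF (p : ℕ) (g : Polynomial ℤ) : Polynomial ℤ :=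
  ∑ e ∈ g.support with e % (p - 1) = 1, Polynomial.monomial e (g.coeff e)

private theorem ueF_coeff (p : ℕ) (g : Polynomial ℤ) (n : ℕ) :
    (ueF p g).coeff n = if n % (p - 1) = 1 then g.coeff n else 0 := by
  unfold ueF
  rw [Polynomial.finsetSum_coeff]
  simp only [Polynomial.coeff_monomial]
  rw [Finset.sum_ite_eq']
  by_cases h : n % (p - 1) = 1
  · rw [if_pos h]
    by_cases h1 : n ∈ g.support
    · rw [if_pos (Finset.mem_filter.2 ⟨h1, h⟩)]
    · rw [if_neg (fun h2 => h1 (Finset.mem_filter.1 h2).1)]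
      exact (Polynomial.notMem_support_iff.1 h1).symm
  · have h1 : n ∉ g.support.filter (fun e => e % (p - 1) = 1) := fun h2 => h (Finset.mem_filter.1 h2).2
    rw [if_neg h, if_neg h1]

private theorem ueF_mem {p : ℕ} (hp : p.Prime) (h5 : 3 ≤ p) {I : Submodule ℤ P} (hI : IsT I)
    (h2 : Mul ((p : ℤ) ^ 2) I) {g : Polynomial ℤ} (hg : g ∈ ueU hI) : ueF p g ∈ ueU hI := by
  have h1 := TOp_res hp (by omega) 0 1 (by omega) I hI h2 _ hg
  rw [ueU_mem]
  have h3 : ∀ e, wp (fun w => w.count 0 % (p - 1) = 1) ((X 0 : P) ^ e) =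
      if e % (p - 1) = 1 then (X 0 : P) ^ e else 0 := by
    intro e
    rw [ue_rep]
    by_cases h : e % (p - 1) = 1
    · rw [if_pos h, wp_pos]
      rw [List.count_replicate_self]
      exact h
    · rw [if_neg h, wp_neg]
      rw [List.count_replicate_self]
      exact h
  have h4 : wp (fun w => w.count 0 % (p - 1) = 1) (Polynomial.aeval (X 0 : P) g) =
      Polynomial.aeval (X 0 : P) (ueF p g) := by
    have e1 : ∀ e c, Polynomial.aeval (X 0 : P) (Polynomial.monomial e c : Polynomial ℤ) = c • (X 0 : P) ^ e := by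
      intro e c
      rw [← Polynomial.C_mul_X_pow_eq_monomial, ue_CX]
    conv_lhs => rw [g.as_sum_support]
    unfold ueF
    rw [map_sum, map_sum, map_sum, Finset.sum_filter]
    refine Finset.sum_congr rfl fun e _ => ?_
    rw [e1, map_zsmul, h3]
    by_cases h : e % (p - 1) = 1
    · rw [if_pos h, if_pos h]
    · rw [if_neg h, if_neg h, smul_zero]
  rw [← h4]
  exact h1

/-! ### exponents of words -/

private noncomputable def ueD (w : List ℕ) : ℕ →₀ ℕ := Multiset.toFinsupp (w : Multiset ℕ)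

private theorem ueD_apply (w : List ℕ) (k : ℕ) : ueD w k = w.count k := by
  unfold ueD
  rw [Multiset.toFinsupp_apply, Multiset.coe_count]

private theorem ueD_degree (w : List ℕ) : (ueD w).degree = w.length := by
  induction w with
  | nil => simp [ueD]
  | cons a w ih =>
    have h : ueD (a :: w) = Finsupp.single a 1 + ueD w := by
      unfold ueD
      rw [← Multiset.cons_coe, ← Multiset.singleton_add, map_add, Multiset.toFinsupp_singleton]
    rw [h, map_add, ih, Finsupp.degree_single, List.length_cons, add_comm]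

private theorem ue_com_word (w : List ℕ) : com (mon w) = MvPolynomial.monomial (ueD w) (1 : ℤ) := by
  induction w with
  | nil => simp [ueD, mon_nil]
  | cons a w ih =>
    have h : ueD (a :: w) = Finsupp.single a 1 + ueD w := by
      unfold ueD
      rw [← Multiset.cons_coe, ← Multiset.singleton_add, map_add, Multiset.toFinsupp_singleton]
    have h1 : com (X a) = MvPolynomial.X a := by simp [com]
    rw [mon_cons, map_mul, ih, h, h1]
    unfold MvPolynomial.X
    rw [MvPolynomial.monomial_mul, one_mul]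

private theorem ue_coeff_word (w : List ℕ) (d : ℕ →₀ ℕ) :
    (com (mon w)).coeff d = if ueD w = d then 1 else 0 := by
  classical
  rw [ue_com_word, MvPolynomial.coeff_monomial]

/-! ### killing all variables but one -/

private noncomputable def ueE (i : ℕ) : P →ₐ[ℤ] Polynomial ℤ :=
  FreeAlgebra.lift ℤ (fun j => if j = i then Polynomial.X else 0)

private theorem ueE_X (i j : ℕ) : ueE i (X j) = if j = i then Polynomial.X else 0 := by
  unfold ueE
  exact FreeAlgebra.lift_ι_apply _ _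

private theorem ueE_mem {I : Submodule ℤ P} (hI : IsT I) (i : ℕ) {f : P} (hf : f ∈ I) : ueE i f ∈ ueU hI := by
  rw [ueU_mem]
  have h1 : (Polynomial.aeval (X 0 : P)).comp (ueE i) = sb (fun j => if j = i then X 0 else 0) := by
    apply hom_ext_X
    intro j
    rw [AlgHom.comp_apply, ueE_X, sb_X]
    split_ifs
    · rw [Polynomial.aeval_X]
    · rw [map_zero]
  have h2 := DFunLike.congr_fun h1 f
  rw [AlgHom.comp_apply] at h2
  rw [h2]
  refine sb_mem hI (fun j => ?_) hf
  split_ifs
  · exact X_mem 0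
  · exact Pp.zero_mem

private theorem ueE_mon (i : ℕ) (w : List ℕ) :
    ueE i (mon w) = if ∀ j ∈ w, j = i then Polynomial.X ^ w.length else 0 := by
  induction w with
  | nil => simp [mon_nil]
  | cons a w ih =>
    rw [mon_cons, map_mul, ih, ueE_X]
    by_cases h : a = i
    · by_cases h1 : ∀ j ∈ w, j = i
      · rw [if_pos h, if_pos h1, if_pos (by
          intro j hj
          rcases List.mem_cons.1 hj with h' | h'
          · rw [h', h]
          · exact h1 j h'), List.length_cons, pow_succ']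
      · rw [if_neg h1, mul_zero, if_neg (fun h2 => h1 fun j hj => h2 j (List.mem_cons_of_mem _ hj))]
    · rw [if_neg h, zero_mul, if_neg (fun h2 => h (h2 a List.mem_cons_self))]

private theorem ueE_coeff (i n : ℕ) (f : P) : (ueE i f).coeff n = (com f).coeff (Finsupp.single i n) := by
  refine ind_mon (C := fun f => (ueE i f).coeff n = (com f).coeff (Finsupp.single i n)) ?_ ?_ ?_ ?_ f
  · rw [map_zero, map_zero, Polynomial.coeff_zero, MvPolynomial.coeff_zero]
  · intro f g hf hg
    rw [map_add, map_add, Polynomial.coeff_add, MvPolynomial.coeff_add, hf, hg]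
  · intro c f hf
    rw [map_zsmul, map_zsmul, Polynomial.coeff_smul, MvPolynomial.coeff_smul, hf]
  · intro w
    rw [ueE_mon, ue_coeff_word]
    by_cases h : ∀ j ∈ w, j = i
    · rw [if_pos h, Polynomial.coeff_X_pow]
      have h1 : w = List.replicate w.length i := List.eq_replicate_of_mem h
      have h2 : ueD w = Finsupp.single i w.length := by
        ext k
        rw [ueD_apply, Finsupp.single_apply, h1, List.count_replicate, List.length_replicate]
        by_cases hk : i = k
        · rw [if_pos hk, if_pos (by simp [hk])]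
        · rw [if_neg hk, if_neg (by simpa using hk)]
      rw [h2]
      by_cases h3 : n = w.length
      · rw [if_pos h3, if_pos (by rw [h3])]
      · rw [if_neg h3, if_neg]
        intro h4
        have h5 := DFunLike.congr_fun h4 i
        rw [Finsupp.single_eq_same, Finsupp.single_eq_same] at h5
        exact h3 h5.symm
    · rw [if_neg h, Polynomial.coeff_zero, if_neg]
      intro h1
      apply h
      intro j hj
      by_contra hji
      have h2 := DFunLike.congr_fun h1 j
      rw [ueD_apply, Finsupp.single_eq_of_ne hji] at h2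
      exact absurd (List.count_pos_iff.2 hj) (by omega)

/-! ### the part of a given multidegree -/

private def ueψ (p : ℕ) (d : ℕ →₀ ℕ) (n : ℕ) (w : List ℕ) : Prop :=
  (∀ i ∈ w, i < n) ∧ ∀ i < n, (d i = 0 ∧ i ∉ w) ∨ (d i ≠ 0 ∧ i ∈ w ∧ w.count i % (p - 1) = d i % (p - 1))

private theorem ueψ_TOp {p : ℕ} (hp : p.Prime) (h5 : 3 ≤ p) (d : ℕ →₀ ℕ) (n : ℕ) : TOp p (wp (ueψ p d n)) := by
  refine ue_and (TOp_lt p n) (ue_all (φ := fun i w => (d i = 0 ∧ i ∉ w) ∨
    (d i ≠ 0 ∧ i ∈ w ∧ w.count i % (p - 1) = d i % (p - 1))) (fun i => ?_) n)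
  by_cases h : d i = 0
  · have h1 := TOp_not_mem p i
    rwa [wp_congr (ψ := fun w => (d i = 0 ∧ i ∉ w) ∨ (d i ≠ 0 ∧ i ∈ w ∧ w.count i % (p - 1) = d i % (p - 1)))
      (fun w => ⟨fun h2 => Or.inl ⟨h, h2⟩, fun h2 => by
        rcases h2 with h2 | h2
        · exact h2.2
        · exact absurd h h2.1⟩)] at h1
  · have h1 := ue_and (TOp_mem p i) (TOp_res hp (by omega) i (d i % (p - 1)) (Nat.mod_lt _ (by omega)))
    rwa [wp_congr (ψ := fun w => (d i = 0 ∧ i ∉ w) ∨ (d i ≠ 0 ∧ i ∈ w ∧ w.count i % (p - 1) = d i % (p - 1)))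
      (fun w => ⟨fun h2 => Or.inr ⟨h, h2⟩, fun h2 => by
        rcases h2 with h2 | h2
        · exact absurd h2.1 h
        · exact h2.2⟩)] at h1

private theorem ueψ_le {p : ℕ} {d : ℕ →₀ ℕ} {n : ℕ} (hd : ∀ i, d i < p) (hn : ∀ i, n ≤ i → d i = 0) {w : List ℕ}
    (h : ueψ p d n w) : d ≤ ueD w := by
  intro i
  rw [ueD_apply]
  by_cases hi : n ≤ i
  · rw [hn i hi]
    exact Nat.zero_le _
  · rcases h.2 i (by omega) with h1 | ⟨h0, h1, h2⟩
    · rw [h1.1]
      exact Nat.zero_le _
    · by_contra h3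
      have h4 := hd i
      have h5 : 0 < w.count i := List.count_pos_iff.2 h1
      rw [Nat.mod_eq_of_lt (show w.count i < p - 1 by omega)] at h2
      by_cases h6 : d i = p - 1
      · rw [h6, Nat.mod_self] at h2
        omega
      · rw [Nat.mod_eq_of_lt (show d i < p - 1 by omega)] at h2
        omega

private theorem ueψ_iff {p : ℕ} {d : ℕ →₀ ℕ} {n : ℕ} (hd : ∀ i, d i < p) (hn : ∀ i, n ≤ i → d i = 0) (w : List ℕ) :
    (ueψ p d n w ∧ w.length = d.degree) ↔ ueD w = d := by
  constructor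
  · rintro ⟨h, h1⟩
    obtain ⟨e, he⟩ := le_iff_exists_add.1 (ueψ_le hd hn h)
    have h2 := ueD_degree w
    rw [he, map_add] at h2
    have h3 : e.degree = 0 := by omega
    rw [Finsupp.degree_eq_zero_iff] at h3
    rw [he, h3, add_zero]
  · intro h
    have h1 : ∀ i, w.count i = d i := fun i => by rw [← ueD_apply, h]
    refine ⟨⟨fun i hi => ?_, fun i hi => ?_⟩, ?_⟩
    · by_contra h2
      have h3 := hn i (by omega)
      have h4 := List.count_pos_iff.2 hi
      rw [h1, h3] at h4
      omega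
    · by_cases h0 : d i = 0
      · refine Or.inl ⟨h0, fun h2 => ?_⟩
        have h4 := List.count_pos_iff.2 h2
        rw [h1, h0] at h4
        omega
      · refine Or.inr ⟨h0, List.count_pos_iff.1 (by rw [h1]; omega), by rw [h1]⟩
    · rw [← ueD_degree, h]

private noncomputable def ueT : P →ₐ[ℤ] Polynomial ℤ := FreeAlgebra.lift ℤ (fun _ => Polynomial.X)

private theorem ueT_X (j : ℕ) : ueT (X j) = Polynomial.X := by
  unfold ueT
  exact FreeAlgebra.lift_ι_apply _ _

private theorem ueT_mon (w : List ℕ) : ueT (mon w) = Polynomial.X ^ w.length := by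
  induction w with
  | nil => simp [mon_nil]
  | cons a w ih => rw [mon_cons, map_mul, ih, ueT_X, List.length_cons, pow_succ']

private theorem ueT_mem {I : Submodule ℤ P} (hI : IsT I) {f : P} (hf : f ∈ I) : ueT f ∈ ueU hI := by
  rw [ueU_mem]
  have h1 : (Polynomial.aeval (X 0 : P)).comp ueT = sb (fun _ => X 0) := by
    apply hom_ext_X
    intro j
    rw [AlgHom.comp_apply, ueT_X, sb_X, Polynomial.aeval_X]
  have h2 := DFunLike.congr_fun h1 f
  rw [AlgHom.comp_apply] at h2
  rw [h2]
  exact sb_mem hI (fun j => X_mem 0) hf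

private theorem ueT_coeff {p : ℕ} {d : ℕ →₀ ℕ} {n : ℕ} (hd : ∀ i, d i < p) (hn : ∀ i, n ≤ i → d i = 0) {e : ℕ}
    (he : e ≤ d.degree) (f : P) :
    (ueT (wp (ueψ p d n) f)).coeff e = if e = d.degree then (com f).coeff d else 0 := by
  refine ind_mon (C := fun f => (ueT (wp (ueψ p d n) f)).coeff e = if e = d.degree then (com f).coeff d else 0)
    ?_ ?_ ?_ ?_ f
  · rw [map_zero, map_zero, map_zero, Polynomial.coeff_zero, MvPolynomial.coeff_zero, ite_self]
  · intro f g hf hg
    rw [map_add, map_add, map_add, Polynomial.coeff_add, MvPolynomial.coeff_add, hf, hg]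
    split_ifs
    · rfl
    · rw [add_zero]
  · intro c f hf
    rw [map_zsmul, map_zsmul, map_zsmul, Polynomial.coeff_smul, MvPolynomial.coeff_smul, hf]
    split_ifs
    · rfl
    · rw [smul_zero]
  · intro w
    rw [ue_coeff_word]
    by_cases h : ueψ p d n w
    · rw [wp_pos h, ueT_mon, Polynomial.coeff_X_pow]
      have h1 : d.degree ≤ w.length := by
        rw [← ueD_degree]
        exact Finsupp.degree_mono (ueψ_le hd hn h)
      by_cases h2 : e = w.length
      · rw [if_pos h2, if_pos (by omega), if_pos ((ueψ_iff hd hn w).1 ⟨h, by omega⟩)]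
      · rw [if_neg h2]
        split_ifs with h3 h4
        · exact absurd ((ueψ_iff hd hn w).2 h4).2 (by omega)
        · rfl
        · rfl
    · rw [wp_neg h, map_zero, Polynomial.coeff_zero, if_neg (fun h1 => h ((ueψ_iff hd hn w).2 h1).1), ite_self]

/-! ### the criterion for `UP` -/

private theorem ue_KP {p : ℕ} {k : MvPolynomial ℕ ℤ} (h : k ∉ ADA.KP p) (h0 : k.coeff 0 = 0) :
    ∃ d : ℕ →₀ ℕ, (d.degree = 1 ∧ ¬ (p : ℤ) ^ 2 ∣ k.coeff d) ∨
      (2 ≤ d.degree ∧ d.degree ≤ p ∧ ¬ (p : ℤ) ∣ k.coeff d) := by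
  by_contra hcon
  push Not at hcon
  apply h
  rw [← k.support_sum_monomial_coeff]
  refine Ideal.sum_mem _ fun d _ => ?_
  have hmon : ∀ c : ℤ, MvPolynomial.monomial d c ∈ (mm ℤ) ^ d.degree := by
    intro c
    rw [ADA.mem_mm_pow]
    intro x hx
    rw [MvPolynomial.coeff_monomial, if_neg]
    rintro rfl
    omega
  rcases Nat.lt_or_ge d.degree 1 with h1 | h1
  · have h2 : d = 0 := (Finsupp.degree_eq_zero_iff d).1 (by omega)
    rw [h2, h0, map_zero]
    exact Ideal.zero_mem _
  · by_cases h2 : d.degree = 1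
    · obtain ⟨c, hc⟩ := (hcon d).1 h2
      have e : MvPolynomial.monomial d (k.coeff d) = ((p : MvPolynomial ℕ ℤ)) ^ 2 * MvPolynomial.monomial d c := by
        have e1 : ((p : MvPolynomial ℕ ℤ)) ^ 2 = MvPolynomial.C ((p : ℤ) ^ 2) := by simp
        rw [e1, MvPolynomial.C_mul_monomial, hc]
      rw [e]
      refine ADA.kp_sq ?_
      have := hmon c
      rwa [h2, pow_one] at this
    · by_cases h3 : d.degree ≤ p
      · obtain ⟨c, hc⟩ := (hcon d).2 (by omega) h3
        have e : MvPolynomial.monomial d (k.coeff d) = ((p : MvPolynomial ℕ ℤ)) * MvPolynomial.monomial d c := by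
          have e1 : ((p : MvPolynomial ℕ ℤ)) = MvPolynomial.C (p : ℤ) := by simp
          rw [e1, MvPolynomial.C_mul_monomial, hc]
        rw [e]
        exact ADA.kp_two (Ideal.pow_le_pow_right (by omega) (hmon c))
      · exact ADA.kp_top (Ideal.pow_le_pow_right (by omega) (hmon _))

theorem UEx {p : ℕ} (hp : p.Prime) (h5 : 3 ≤ p) {I : Submodule ℤ P} (hI : IsT I) (h2 : Mul ((p : ℤ) ^ 2) I)
    (h1 : ¬ Mul p I) (hN : ∃ N, NilAt I N) (h : ¬ I ≤ ADA.UP p) :
    X 0 ^ p ∈ I ∨ ∃ (w : ℤ) (j : ℕ), ¬ (p : ℤ) ∣ w ∧ p ≤ j ∧ X 0 ^ (j + 1) ∈ I ∧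
      (p : ℤ) • X 0 - w • X 0 ^ j ∈ I ∧ (p : ℤ) • X 0 ^ 2 ∈ I := by
  obtain ⟨N, hN⟩ := hN
  have hpp := Nat.prime_iff_prime_int.1 hp
  have u2 : Polynomial.C ((p : ℤ) ^ 2) * Polynomial.X ∈ ueU hI := by
    have e := ue_CX ((p : ℤ) ^ 2) 1
    rw [pow_one, pow_one] at e
    rw [ueU_mem, e]
    exact h2 _ (X_mem 0)
  have uN : Polynomial.X ^ N ∈ ueU hI := by
    rw [ueU_mem, map_pow, Polynomial.aeval_X, ue_rep]
    exact hN _ (by rw [List.length_replicate])
  have u1 : Polynomial.C (p : ℤ) * Polynomial.X ∉ ueU hI := by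
    intro hu
    have e := ue_CX (p : ℤ) 1
    rw [pow_one, pow_one] at e
    rw [ueU_mem, e] at hu
    apply h1
    intro f hf
    have h3 := sb_mem hI (φ := fun _ => f) (fun _ => hf) hu
    rwa [map_zsmul, sb_X] at h3
  have uX : Polynomial.X ∉ ueU hI := fun hu => u1 ((ueU hI).mul_mem_left _ hu)
  have upow : ∀ m, m ≤ p → Polynomial.X ^ m ∈ ueU hI → X 0 ^ p ∈ I := by
    intro m hm hu
    have h3 : Polynomial.X ^ p ∈ ueU hI := by
      have e : (Polynomial.X : Polynomial ℤ) ^ p = Polynomial.X ^ (p - m) * Polynomial.X ^ m := by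
        rw [← pow_add]
        congr 1
        omega
      rw [e]
      exact (ueU hI).mul_mem_left _ hu
    rwa [ueU_mem, map_pow, Polynomial.aeval_X] at h3
  have hmod1 : 1 % (p - 1) = 1 := Nat.mod_eq_of_lt (by omega)
  have hmodp : p % (p - 1) = 1 := by
    have e : p = 1 + (p - 1) := by omega
    conv_lhs => rw [e]
    rw [show 1 + (p - 1) - 1 = p - 1 by omega, Nat.add_mod_right, hmod1]
  have hmode : ∀ e, e < p → ¬ e = 1 → ¬ e % (p - 1) = 1 := by
    intro e he h4 h5'
    by_cases h6 : e = p - 1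
    · rw [h6, Nat.mod_self] at h5'
      omega
    · rw [Nat.mod_eq_of_lt (by omega)] at h5'
      exact h4 h5'
  by_cases hP : ∃ g ∈ ueU hI, ¬ (p : ℤ) ^ 2 ∣ g.coeff 1
  · right
    obtain ⟨g, hg, hgc⟩ := hP
    have hF := ueF_mem hp h5 hI h2 hg
    obtain ⟨c, hc⟩ : ∃ c, c = g.coeff 1 := ⟨_, rfl⟩
    rw [← hc] at hgc
    -- the form of the projection
    obtain ⟨r, hr⟩ : ∃ r, ueF p g = Polynomial.C c * Polynomial.X + Polynomial.X ^ p * r := by
      have h3 : (Polynomial.X : Polynomial ℤ) ^ p ∣ ueF p g - Polynomial.C c * Polynomial.X := by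
        rw [Polynomial.X_pow_dvd_iff]
        intro e he
        rw [Polynomial.coeff_sub, ueF_coeff, Polynomial.coeff_C_mul, Polynomial.coeff_X]
        by_cases h4 : e = 1
        · rw [h4, if_pos hmod1, if_pos rfl, ← hc]
          ring
        · rw [if_neg (hmode e he h4), if_neg (fun h6 : 1 = e => h4 h6.symm)]
          ring
      obtain ⟨r, hr⟩ := h3
      exact ⟨r, by rw [← hr]; ring⟩
    rw [hr] at hF
    have hpc : (p : ℤ) ∣ c := by
      by_contra h3
      apply uX
      have h4 := ue_low hp u2 uN h3 (d := 1) le_rfl (r := Polynomial.X ^ (p - 2) * r) (by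
        have e : Polynomial.C c * Polynomial.X ^ 1 + Polynomial.X ^ (1 + 1) * (Polynomial.X ^ (p - 2) * r) =
            Polynomial.C c * Polynomial.X + Polynomial.X ^ p * r := by
          rw [pow_one, ← mul_assoc, ← pow_add]
          congr 3
          omega
        rw [e]
        exact hF)
      rwa [pow_one] at h4
    obtain ⟨u, rfl⟩ := hpc
    have hu : ¬ (p : ℤ) ∣ u := by
      rintro ⟨v, rfl⟩
      exact hgc ⟨v, by ring⟩
    obtain ⟨v, w, hvw⟩ := (Prime.coprime_iff_not_dvd hpp).2 hu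
    -- `v p + w u = 1`
    have hG : Polynomial.C (p : ℤ) * Polynomial.X + Polynomial.X ^ p * (Polynomial.C w * r) ∈ ueU hI := by
      have e1 : (Polynomial.C (p : ℤ) : Polynomial ℤ) = Polynomial.C w * Polynomial.C ((p : ℤ) * u) +
          Polynomial.C v * Polynomial.C ((p : ℤ) ^ 2) := by
        rw [← Polynomial.C_mul, ← Polynomial.C_mul, ← Polynomial.C_add]
        congr 1
        linear_combination (-(p : ℤ)) * hvw
      have e : Polynomial.C (p : ℤ) * Polynomial.X + Polynomial.X ^ p * (Polynomial.C w * r) =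
          Polynomial.C w * (Polynomial.C ((p : ℤ) * u) * Polynomial.X + Polynomial.X ^ p * r) +
          Polynomial.C v * (Polynomial.C ((p : ℤ) ^ 2) * Polynomial.X) := by
        rw [e1]
        ring
      rw [e]
      exact (ueU hI).add_mem ((ueU hI).mul_mem_left _ hF) ((ueU hI).mul_mem_left _ u2)
    obtain ⟨w', j, hw', hj, a1, a2, a3⟩ := ue_abs hp h5 u2 uN (fun g hg => ueU_comp hI hg) u1 ⟨_, hG⟩
    refine ⟨w', j, hw', hj, ?_, ?_, ?_⟩
    · rwa [ueU_mem, map_pow, Polynomial.aeval_X] at a1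
    · have e := ue_CX (p : ℤ) 1
      rw [pow_one, pow_one] at e
      rwa [ueU_mem, map_sub, e, ue_CX] at a2
    · rwa [ueU_mem, ue_CX] at a3
  · left
    push Not at hP
    obtain ⟨f, hf, hfU⟩ := SetLike.not_le_iff_exists.1 h
    have hfK : com f ∉ ADA.KP p := fun h3 => hfU (ADA.mem_UP.2 ⟨hI.le hf, h3⟩)
    have hf0 : (com f).coeff 0 = 0 := (ADA.coeff_com f).trans (mem_Pp.1 (hI.le hf))
    obtain ⟨d, hd⟩ := ue_KP hfK hf0
    rcases hd with ⟨hd1, hd2⟩ | ⟨hd1, hd2, hd3⟩
    · exfalso
      obtain ⟨i, rfl⟩ : ∃ i, d = Finsupp.single i 1 := by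
        obtain ⟨i, hi⟩ : ∃ i, d i ≠ 0 := by
          by_contra hcon
          push Not at hcon
          have h3 : d = 0 := Finsupp.ext hcon
          rw [h3, map_zero] at hd1
          omega
        have h3 : Finsupp.single i 1 ≤ d := by
          intro k
          rw [Finsupp.single_apply]
          split_ifs with h4
          · rw [← h4]
            omega
          · exact Nat.zero_le _
        obtain ⟨e, he⟩ := le_iff_exists_add.1 h3
        have h4 := congrArg Finsupp.degree he
        rw [map_add, Finsupp.degree_single] at h4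
        have h5' : e.degree = 0 := by omega
        rw [Finsupp.degree_eq_zero_iff] at h5'
        exact ⟨i, by rw [he, h5', add_zero]⟩
      have h3 := hP _ (ueE_mem hI i hf)
      rw [ueE_coeff] at h3
      exact hd2 h3
    · by_cases hdi : ∃ i, p ≤ d i
      · obtain ⟨i, hi⟩ := hdi
        have hds : d = Finsupp.single i p := by
          have h3 : Finsupp.single i p ≤ d := by
            intro k
            rw [Finsupp.single_apply]
            split_ifs with h4
            · rw [← h4]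
              exact hi
            · exact Nat.zero_le _
          obtain ⟨e, he⟩ := le_iff_exists_add.1 h3
          have h4 := congrArg Finsupp.degree he
          rw [map_add, Finsupp.degree_single] at h4
          have h5' : e.degree = 0 := by omega
          rw [Finsupp.degree_eq_zero_iff] at h5'
          rw [he, h5', add_zero]
        have hg := ueE_mem hI i hf
        obtain ⟨c1, hc1⟩ := hP _ hg
        have hF := ueF_mem hp h5 hI h2 hg
        obtain ⟨c, hc⟩ : ∃ c, c = (ueE i f).coeff p := ⟨_, rfl⟩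
        have hcp : ¬ (p : ℤ) ∣ c := by
          rw [hc, ueE_coeff, ← hds]
          exact hd3
        obtain ⟨r, hr⟩ : ∃ r, ueF p (ueE i f) = Polynomial.C ((p : ℤ) ^ 2 * c1) * Polynomial.X +
            Polynomial.C c * Polynomial.X ^ p + Polynomial.X ^ (p + 1) * r := by
          have h3 : (Polynomial.X : Polynomial ℤ) ^ (p + 1) ∣ ueF p (ueE i f) -
              (Polynomial.C ((p : ℤ) ^ 2 * c1) * Polynomial.X + Polynomial.C c * Polynomial.X ^ p) := by
            rw [Polynomial.X_pow_dvd_iff]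
            intro e he
            rw [Polynomial.coeff_sub, ueF_coeff, Polynomial.coeff_add, Polynomial.coeff_C_mul, Polynomial.coeff_X,
              Polynomial.coeff_C_mul, Polynomial.coeff_X_pow]
            by_cases h4 : e = 1
            · rw [h4, if_pos hmod1, if_pos rfl, if_neg (by omega), hc1]
              ring
            · by_cases h6 : e = p
              · rw [h6, if_pos hmodp, if_neg (by omega), if_pos rfl, ← hc]
                ring
              · rw [if_neg (hmode e (by omega) h4), if_neg (fun h7 : 1 = e => h4 h7.symm), if_neg h6]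
                ring
          obtain ⟨r, hr⟩ := h3
          exact ⟨r, by rw [← hr]; ring⟩
        rw [hr] at hF
        refine upow p le_rfl (ue_low hp u2 uN hcp (d := p) (by omega) (r := r) ?_)
        have e : Polynomial.C c * Polynomial.X ^ p + Polynomial.X ^ (p + 1) * r =
            (Polynomial.C ((p : ℤ) ^ 2 * c1) * Polynomial.X +
            Polynomial.C c * Polynomial.X ^ p + Polynomial.X ^ (p + 1) * r) -
            Polynomial.C c1 * (Polynomial.C ((p : ℤ) ^ 2) * Polynomial.X) := by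
          rw [Polynomial.C_mul]
          ring
        rw [e]
        exact (ueU hI).sub_mem hF ((ueU hI).mul_mem_left _ u2)
      · push Not at hdi
        obtain ⟨n, hn⟩ : ∃ n, ∀ i, n ≤ i → d i = 0 := by
          refine ⟨d.support.sup id + 1, fun i hi => ?_⟩
          by_contra h3
          have h4 : id i ≤ d.support.sup id := Finset.le_sup (Finsupp.mem_support_iff.2 h3)
          have h5' : i ≤ d.support.sup id := h4
          omega
        have hG := ueT_mem hI (ueψ_TOp hp h5 d n I hI h2 f hf)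
        obtain ⟨r, hr⟩ : ∃ r, ueT (wp (ueψ p d n) f) = Polynomial.C ((com f).coeff d) * Polynomial.X ^ d.degree +
            Polynomial.X ^ (d.degree + 1) * r := by
          have h3 : (Polynomial.X : Polynomial ℤ) ^ (d.degree + 1) ∣ ueT (wp (ueψ p d n) f) -
              Polynomial.C ((com f).coeff d) * Polynomial.X ^ d.degree := by
            rw [Polynomial.X_pow_dvd_iff]
            intro e he
            rw [Polynomial.coeff_sub, ueT_coeff hdi hn (by omega), Polynomial.coeff_C_mul, Polynomial.coeff_X_pow]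
            split_ifs
            · ring
            · ring
          obtain ⟨r, hr⟩ := h3
          exact ⟨r, by rw [← hr]; ring⟩
        rw [hr] at hG
        exact upow d.degree hd2 (ue_low hp u2 uN hd3 (by omega) hG)

end ADP
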