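import Pool.Agent.ADP.NoP3
import Pool.Agent.ADP.NoQ3
import Pool.Agent.ADP.C1w3
import Pool.Agent.ADP.NoC1
import Pool.Agent.ADP.UEx
import Pool.Agent.ADP.Ex3
import Pool.Agent.ADC.ExLk

/-!
# ADP-Main3: the main theorem for `p = 3`

Literally the structure of `main1` in ADC.Main1 (copy its private lemmas `m1_all`, `m1_X`, `m1_XJ`, `m1_bas` with `Bt`).  `X 0 ∉ I`; `nil_of_alm`; `J = I ⊔ mulI 3 Pp`; `Bt 3 J`.
* `Mul 3 I`: by contradiction assume `cm 0 1 ∉ I ⊔ Fge 4`.  `NEx` (ADP.NEx, `¬ I ≤ NPt 3 0 0`) and `tam_of`: `Tam I`; `ty_of` (`¬ I ≤ GP 3 1`, `¬ I ≤ TM`): `Ty I` or `Ty (op I)`; `exists_lk`; `noP3`, resp. `noP3` for `op I` (`Lk_op`, `Bt_op`).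
* `¬ Mul 3 I`: contradiction: `exists_lk2` (`hp = Nat.prime_three`).  `UEx` (ADP.UEx):
  (i) `X 0 ^ 3 ∈ I`: `tam_of` for `J` (first alternative), `ty_of` for `J` (`I ≤ J`): `Ty J`: `noQ3`: `I ≤ GP 3 2` or `I ≤ TE`: excluded.  `Ty (op J)`: `op J = op I ⊔ mulI 3 Pp` (`op_sup`, `op_mulI`, `op_Pp`), `Lk_op`, `op A ≤ op J`, `op B ⊓ op J ≤ op I`,
      `X 0 ^ 3 ∈ op I`: `noQ3` for `op I`: `op I ≤ GP 3 2` or `op I ≤ TE`: `op_GP`, `op_TE`: excluded.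
  (ii) the data of `noC1` (ADP.NoC1, `p = 3`): if `cm 0 1 ∈ J ⊔ Fge 4` the first alternative; otherwise `NEx` for `J`, `tam_of`, `ty_of`, `c1w3` or `c1w3_op`.
Casts: `((3 : ℕ) : ℤ)` against `(3 : ℤ)`: `Nat.cast_ofNat`; `Mul ((3 : ℕ) : ℤ)` and `Mul 3` are defeq through `Nat.cast_ofNat : ((OfNat.ofNat 3 : ℕ) : ℤ) = OfNat.ofNat 3` (rfl / `by simpa using`).
-/

namespace ADP

open AD ADN ADC

private theorem m3_all {D : Submodule ℤ P} (hD : IsT D) (h : X 0 ∈ D) : Pp ≤ D := by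
  intro f hf
  have h1 := sb_mem hD (φ := fun _ => f) (fun _ => hf) h
  rwa [sb_X] at h1

private theorem m3_X {I : Submodule ℤ P} (hI : AlmDist I) : X 0 ∉ I := by
  intro h
  have h1 := m3_all hI.1 h
  refine hI.2.1 ?_
  have key : ∀ x ∈ TI, I ≤ x → x = Pp := fun x hx hIx => le_antisymm (IsT.le hx) (h1.trans hIx)
  intro x hx y hy z hz hIx hIy hIz
  rw [key x hx hIx, key y hy hIy, key z hz hIz]
  simp

private theorem m3_XJ {p : ℕ} {I : Submodule ℤ P} (hI : IsT I) (h2 : Mul ((p : ℤ) ^ 2) I) (hX : X 0 ∉ I) :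
    X 0 ∉ I ⊔ mulI p Pp := by
  intro h
  have hT : IsT (I ⊔ mulI (p : ℤ) Pp) := isT_sup hI (isT_mulI isT_Pp _)
  have h1 := m3_all hT h
  obtain ⟨i, hi, y, hy, hiy⟩ := Submodule.mem_sup.1 h
  obtain ⟨g, hg, rfl⟩ := expo_mem_mulI.1 hy
  obtain ⟨i', hi', y', hy', hiy'⟩ := Submodule.mem_sup.1 (h1 hg)
  obtain ⟨g', hg', rfl⟩ := expo_mem_mulI.1 hy'
  apply hX
  rw [← hiy, ← hiy', smul_add, smul_smul, ← pow_two]
  exact I.add_mem hi (I.add_mem (I.smul_mem _ hi') (h2 _ hg'))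

private theorem m3_bas {p : ℕ} (hp : p.Prime) (h5 : 3 ≤ p) {I : Submodule ℤ P} (hI : AlmDist I)
    (h2 : Mul ((p : ℤ) ^ 2) I) : Bt p (I ⊔ mulI p Pp) where
  pp := hp
  three := h5
  isT := isT_sup hI.1 (isT_mulI isT_Pp _)
  mul := fun f hf => (le_sup_right : mulI (p : ℤ) Pp ≤ _) (expo_mem_mulI.2 ⟨f, hf, rfl⟩)
  nil := by
    obtain ⟨N, hN⟩ := nil_of_alm hI
    exact ⟨N, fun w hw => (le_sup_left : I ≤ _) (hN w hw)⟩
  ne := m3_XJ hI.1 h2 (m3_X hI)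

/-- the types in the tame situation -/
private theorem m3_ty {J : Submodule ℤ P} (hJ : Bt 3 J) (h1 : ¬ J ≤ GP 3 1) (h2 : ¬ J ≤ TM)
    (h : X 0 ^ 3 ∈ J ∨ X 0 ^ 3 * X 1 - X 0 * X 1 ^ 3 ∈ J ⊔ Cn (3 + 1) ⊔ Fge (3 + 2)) :
    Ty J ∨ Ty (op J) := ty_of (tam_of hJ h) h1 h2

theorem main3 {I : Submodule ℤ P} (hI : AlmDist I) (h2 : Mul ((3 : ℕ) ^ 2 : ℤ) I) (hU : ¬ I ≤ ADA.UP 3)
    (hG1 : ¬ I ≤ GP 3 1) (hM : ¬ I ≤ TM) (hN : ¬ I ≤ NPt 3 0 0) (hG2 : ¬ I ≤ GP 3 2) (hE : ¬ I ≤ TE) (hF : ¬ I ≤ TF) :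
    Mul (3 : ℕ) I ∧ cm 0 1 ∈ I ⊔ Fge 4 := by
  have hN0 := nil_of_alm hI
  have hX := m3_X hI
  by_cases h1 : Mul (3 : ℕ) I
  · refine ⟨h1, ?_⟩
    by_contra hcm
    have hb : Bt 3 I := { pp := Nat.prime_three, three := le_refl 3, isT := hI.1, mul := h1, nil := hN0, ne := hX }
    obtain ⟨A, B, C, hL⟩ := exists_lk (p := 3) hI h2
    rcases m3_ty hb hG1 hM ((NEx hb hN).resolve_left hcm) with hT | hT
    · exact noP3 hL hb hT
    · exact noP3 (Lk_op hL) (Bt_op hb) hT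
  · exfalso
    have hb : Bt 3 (I ⊔ mulI (3 : ℕ) Pp) := m3_bas Nat.prime_three (le_refl 3) hI h2
    have hIJ : I ≤ I ⊔ mulI (3 : ℕ) Pp := le_sup_left
    have hG1J : ¬ I ⊔ mulI (3 : ℕ) Pp ≤ GP 3 1 := fun h => hG1 (hIJ.trans h)
    have hMJ : ¬ I ⊔ mulI (3 : ℕ) Pp ≤ TM := fun h => hM (hIJ.trans h)
    have hNJ : ¬ I ⊔ mulI (3 : ℕ) Pp ≤ NPt 3 0 0 := fun h => hN (hIJ.trans h)
    obtain ⟨A, B, C, hL, hA, hB⟩ := exists_lk2 (p := 3) Nat.prime_three hI h2 h1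
    rcases UEx (p := 3) Nat.prime_three (le_refl 3) hI.1 h2 h1 hN0 hU with hx | ⟨w, j, hw, hj, hx1, hx2, hx3⟩
    · rcases m3_ty hb hG1J hMJ (Or.inl (hIJ hx)) with hT | hT
      · rcases noQ3 hL hb hA hB hx hT with h | h
        · exact hG2 h
        · exact hE h
      · have hJ : op (I ⊔ mulI (3 : ℕ) Pp) = op I ⊔ mulI (3 : ℕ) Pp := by
          rw [op_sup, op_mulI, op_Pp]
        have hb1 := Bt_op hb
        rw [hJ] at hb1 hT
        have hx1 : X 0 ^ 3 ∈ op I := by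
          show rv (X 0 ^ 3) ∈ I
          have e : rv (X 0 ^ 3) = X 0 ^ 3 := by
            have e1 : mon (List.replicate 3 0) = X 0 ^ 3 := by
              unfold mon
              rw [List.map_replicate, List.prod_replicate]
            rw [← e1, rv_mon, List.reverse_replicate]
          rwa [e]
        have hA1 : op A ≤ op I ⊔ mulI (3 : ℕ) Pp := by
          rw [← hJ]
          exact Submodule.comap_mono hA
        have hB1 : op B ⊓ (op I ⊔ mulI (3 : ℕ) Pp) ≤ op I := by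
          rw [← hJ]
          rintro f ⟨h1, h2⟩
          exact hB ⟨h1, h2⟩
        rcases noQ3 (Lk_op hL) hb1 hA1 hB1 hx1 hT with h | h
        · exact hG2 (op_GP hI.1 h)
        · exact hF (op_TE hI.1 h)
    · refine noC1 hL hb hA hB hw hj hx1 hx2 hx3 ?_
      by_cases hcm : cm 0 1 ∈ I ⊔ mulI (3 : ℕ) Pp ⊔ Fge (3 + 1)
      · exact Or.inl hcm
      · rcases m3_ty hb hG1J hMJ ((NEx hb hNJ).resolve_left hcm) with hT | hT
        · exact Or.inr (c1w3 hb hT)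
        · exact Or.inr (c1w3_op hb hT)

end ADP
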