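import Pool.Agent.ADC.NdT
import Pool.Agent.ADP.B1
import Pool.Agent.AD.ComC2
import Pool.Agent.ADM.CfMul

/-!
# ADP-Nd2: `WP 2` and `TN` are not distributive
-/

namespace ADP

open AD ADN ADC

/-! ### `WP 2` -/

private theorem nd2_cf_zero (w : List ℕ) : cf w (0 : P) = 0 := by
  have h := cf_smul w 0 (0 : P)
  rwa [zero_smul, zero_mul] at h

private theorem nd2_cf_sub (w : List ℕ) (f g : P) : cf w (f - g) = cf w f - cf w g := by
  have h := cf_smul w (-1) g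
  rw [sub_eq_add_neg, cf_add, ← neg_one_smul ℤ g, h]
  ring

/-- the basis of the span of the renamings of `La` and of `Lb` -/
private noncomputable def nda : P := mon [0, 2, 1] + mon [1, 2, 0] - mon [2, 0, 1] - mon [2, 1, 0]
private noncomputable def nda' : P := mon [1, 0, 2] + mon [2, 0, 1] - mon [0, 1, 2] - mon [0, 2, 1]
private noncomputable def ndb : P := mon [0, 1, 2] + mon [1, 0, 2] - mon [0, 2, 1] - mon [1, 2, 0]
private noncomputable def ndb' : P := mon [1, 2, 0] + mon [2, 1, 0] - mon [1, 0, 2] - mon [2, 0, 1]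

private theorem nd2_La : La = nda := by
  unfold La cm nda
  simp only [mon_cons, mon_nil]
  noncomm_ring

private theorem nd2_Lb : Lb = ndb := by
  unfold Lb cm ndb
  simp only [mon_cons, mon_nil]
  noncomm_ring

private theorem nd2_words (τ : Equiv.Perm (Fin 3)) :
    ([0,1,2].map (pN 3 τ), [1,2,0].map (pN 3 τ), [2,0,1].map (pN 3 τ),
      [1,0,2].map (pN 3 τ), [0,2,1].map (pN 3 τ), [2,1,0].map (pN 3 τ)) ∈
    ([([0,1,2],[1,2,0],[2,0,1],[1,0,2],[0,2,1],[2,1,0]),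
      ([1,2,0],[2,0,1],[0,1,2],[2,1,0],[1,0,2],[0,2,1]),
      ([2,0,1],[0,1,2],[1,2,0],[0,2,1],[2,1,0],[1,0,2]),
      ([1,0,2],[0,2,1],[2,1,0],[0,1,2],[1,2,0],[2,0,1]),
      ([0,2,1],[2,1,0],[1,0,2],[2,0,1],[0,1,2],[1,2,0]),
      ([2,1,0],[1,0,2],[0,2,1],[1,2,0],[2,0,1],[0,1,2])] :
      List (List ℕ × List ℕ × List ℕ × List ℕ × List ℕ × List ℕ)) := by
  revert τ
  decide

private theorem nd2_rn (σ : Equiv.Perm (Fin 3)) : ∃ a b : ℤ,
    rn 3 σ nda = a • nda + b • nda' ∧ rn 3 σ ndb = a • ndb + b • ndb' := by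
  have h1 := nd2_words σ
  simp only [List.mem_cons, List.not_mem_nil, or_false, Prod.mk.injEq] at h1
  have ea : rn 3 σ nda = mon ([0,2,1].map (pN 3 σ)) + mon ([1,2,0].map (pN 3 σ)) -
      mon ([2,0,1].map (pN 3 σ)) - mon ([2,1,0].map (pN 3 σ)) := by
    unfold nda
    rw [map_sub, map_sub, map_add, rn_mon, rn_mon, rn_mon, rn_mon]
  have eb : rn 3 σ ndb = mon ([0,1,2].map (pN 3 σ)) + mon ([1,0,2].map (pN 3 σ)) -
      mon ([0,2,1].map (pN 3 σ)) - mon ([1,2,0].map (pN 3 σ)) := by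
    unfold ndb
    rw [map_sub, map_sub, map_add, rn_mon, rn_mon, rn_mon, rn_mon]
  rw [ea, eb]
  unfold nda nda' ndb ndb'
  rcases h1 with h1 | h1 | h1 | h1 | h1 | h1
  · obtain ⟨e1, e2, e3, e4, e5, e6⟩ := h1
    refine ⟨1, 0, ?_, ?_⟩ <;> rw [one_smul, zero_smul, add_zero] <;> simp only [e1, e2, e3, e4, e5, e6]
  · obtain ⟨e1, e2, e3, e4, e5, e6⟩ := h1
    refine ⟨0, 1, ?_, ?_⟩ <;> rw [one_smul, zero_smul, zero_add] <;> simp only [e1, e2, e3, e4, e5, e6]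
  · obtain ⟨e1, e2, e3, e4, e5, e6⟩ := h1
    refine ⟨-1, -1, ?_, ?_⟩ <;> rw [neg_one_smul, neg_one_smul] <;> simp only [e1, e2, e3, e4, e5, e6] <;> abel
  · obtain ⟨e1, e2, e3, e4, e5, e6⟩ := h1
    refine ⟨1, 0, ?_, ?_⟩ <;> rw [one_smul, zero_smul, add_zero] <;> simp only [e1, e2, e3, e4, e5, e6] <;> abel
  · obtain ⟨e1, e2, e3, e4, e5, e6⟩ := h1
    refine ⟨-1, -1, ?_, ?_⟩ <;> rw [neg_one_smul, neg_one_smul] <;> simp only [e1, e2, e3, e4, e5, e6] <;> abel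
  · obtain ⟨e1, e2, e3, e4, e5, e6⟩ := h1
    refine ⟨0, 1, ?_, ?_⟩ <;> rw [one_smul, zero_smul, zero_add] <;> simp only [e1, e2, e3, e4, e5, e6] <;> abel

private theorem nd2_cc (c : Equiv.Perm (Fin 3) → ℤ) : ∃ a b : ℤ,
    cc 3 c nda = a • nda + b • nda' ∧ cc 3 c ndb = a • ndb + b • ndb' := by
  choose a b h using nd2_rn
  refine ⟨∑ σ, c σ * a σ, ∑ σ, c σ * b σ, ?_, ?_⟩
  · unfold cc
    rw [Finset.sum_smul, Finset.sum_smul, ← Finset.sum_add_distrib]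
    exact Finset.sum_congr rfl fun σ _ => by rw [(h σ).1, smul_add, smul_smul, smul_smul]
  · unfold cc
    rw [Finset.sum_smul, Finset.sum_smul, ← Finset.sum_add_distrib]
    exact Finset.sum_congr rfl fun σ _ => by rw [(h σ).2, smul_add, smul_smul, smul_smul]

private theorem nd2_co (a b c d : ℤ) {g : P} (hg : g = a • nda + b • nda' + (c • ndb + d • ndb')) :
    cf [0,1,2] g = -b + c ∧ cf [1,2,0] g = a - c + d ∧ cf [2,0,1] g = -a + b - d ∧
    cf [1,0,2] g = b + c - d ∧ cf [0,2,1] g = a - b - c ∧ cf [2,1,0] g = -a + d := by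
  subst hg
  unfold nda nda' ndb ndb'
  simp only [cf_add, cf_smul, nd2_cf_sub, cf_mon]
  refine ⟨?_, ?_, ?_, ?_, ?_, ?_⟩ <;> norm_num <;> ring

private theorem nd2_KW (a b c d : ℤ) {g : P} (hg : g = a • nda + b • nda' + (c • ndb + d • ndb')) :
    g ∈ KW 2 ↔ ((2 : ℤ) ∣ a ∧ (2 : ℤ) ∣ b ∧ (2 : ℤ) ∣ c ∧ (2 : ℤ) ∣ d) := by
  obtain ⟨h1, h2, h3, h4, h5, h6⟩ := nd2_co a b c d hg
  show (((2 : ℕ) : ℤ) ∣ _ ∧ ((2 : ℕ) : ℤ) ∣ _ ∧ ((2 : ℕ) : ℤ) ∣ _ ∧ ((2 : ℕ) : ℤ) ∣ _) ↔ _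
  rw [h1, h2, h3, h4, h5, h6, Nat.cast_ofNat]
  omega

theorem NdW2 : ¬ DistOn TI (WP 2) := by
  have z : ∀ a b : ℤ, a • nda + b • nda' = a • nda + b • nda' + ((0 : ℤ) • ndb + (0 : ℤ) • ndb') := by
    intro a b
    rw [zero_smul, zero_smul, add_zero, add_zero]
  have z' : ∀ a b : ℤ, a • ndb + b • ndb' = (0 : ℤ) • nda + (0 : ℤ) • nda' + (a • ndb + b • ndb') := by
    intro a b
    rw [zero_smul, zero_smul, add_zero, zero_add]
  have m3 : ∀ w : List ℕ, w.Perm (List.range 3) → mon w ∈ Ml 3 := fun w h => Ml_mon h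
  refine NdT (n := 3) (by norm_num) (KW_add 2) (u1 := nda) (u2 := ndb) ?_ ?_ ?_ ?_ ?_
  · unfold nda
    exact Submodule.sub_mem _ (Submodule.sub_mem _ (Submodule.add_mem _ (m3 _ (by decide)) (m3 _ (by decide)))
      (m3 _ (by decide))) (m3 _ (by decide))
  · unfold ndb
    exact Submodule.sub_mem _ (Submodule.sub_mem _ (Submodule.add_mem _ (m3 _ (by decide)) (m3 _ (by decide)))
      (m3 _ (by decide))) (m3 _ (by decide))
  · intro c
    obtain ⟨a, b, h1, h2⟩ := nd2_cc c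
    rw [h1, h2, nd2_KW a b 0 0 (z a b), nd2_KW 0 0 a b (z' a b)]
    tauto
  · intro c d h
    obtain ⟨a, b, h1, -⟩ := nd2_cc c
    obtain ⟨a', b', -, h2⟩ := nd2_cc d
    rw [h1, h2] at h
    rw [h1, nd2_KW a b 0 0 (z a b)]
    obtain ⟨ha, hb, -, -⟩ := (nd2_KW a b a' b' rfl).1 h
    exact ⟨ha, hb, dvd_zero _, dvd_zero _⟩
  · intro h
    have e : nda = (1 : ℤ) • nda + (0 : ℤ) • nda' + ((0 : ℤ) • ndb + (0 : ℤ) • ndb') := by
      rw [one_smul, zero_smul, zero_smul, zero_smul, add_zero, add_zero, add_zero]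
    obtain ⟨ha, -, -, -⟩ := (nd2_KW 1 0 0 0 e).1 h
    omega

/-! ### `TN` -/

private theorem nd2_com_mon (w : List ℕ) :
    com (mon w) = MvPolynomial.monomial (Multiset.toFinsupp (w : Multiset ℕ)) (1 : ℤ) := by
  induction w with
  | nil => simp [mon_nil]
  | cons a w ih =>
    have h : Multiset.toFinsupp ((a :: w : List ℕ) : Multiset ℕ) =
        Finsupp.single a 1 + Multiset.toFinsupp (w : Multiset ℕ) := by
      rw [← Multiset.cons_coe, ← Multiset.singleton_add, map_add, Multiset.toFinsupp_singleton]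
    rw [mon_cons, map_mul, ih, h]
    unfold com
    rw [show (X a : P) = FreeAlgebra.ι ℤ a from rfl, FreeAlgebra.lift_ι_apply, MvPolynomial.X,
      MvPolynomial.monomial_mul, one_mul]

private theorem nd2_coeff (w v : List ℕ) {d : ℕ →₀ ℕ} (hd : Multiset.toFinsupp (v : Multiset ℕ) = d) :
    (com (mon w)).coeff d = if w.Perm v then 1 else 0 := by
  classical
  rw [nd2_com_mon, MvPolynomial.coeff_monomial]
  by_cases h : w.Perm v
  · rw [if_pos h, if_pos]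
    rw [← hd, Multiset.coe_eq_coe.2 h]
  · rw [if_neg h, if_neg]
    intro h1
    apply h
    rw [← hd] at h1
    exact Multiset.coe_eq_coe.1 (Multiset.toFinsupp.injective h1)

private theorem nd2_p21 (w : List ℕ) : w.Perm [0,0,1] ↔ w = [0,0,1] ∨ w = [0,1,0] ∨ w = [1,0,0] := by
  rw [← List.mem_permutations']
  have h : List.permutations' [0,0,1] = [[0, 0, 1], [0, 0, 1], [0, 1, 0], [0, 1, 0], [1, 0, 0], [1, 0, 0]] := by
    decide
  rw [h]
  simp only [List.mem_cons, List.not_mem_nil, or_false]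
  tauto

private theorem nd2_p12 (w : List ℕ) : w.Perm [0,1,1] ↔ w = [0,1,1] ∨ w = [1,0,1] ∨ w = [1,1,0] := by
  rw [← List.mem_permutations']
  have h : List.permutations' [0,1,1] = [[0, 1, 1], [1, 0, 1], [1, 1, 0], [0, 1, 1], [1, 0, 1], [1, 1, 0]] := by
    decide
  rw [h]
  simp only [List.mem_cons, List.not_mem_nil, or_false]
  tauto

private theorem nd2_ct {d : ℕ →₀ ℕ} {v1 v2 v3 : List ℕ} (h12 : v1 ≠ v2) (h13 : v1 ≠ v3) (h23 : v2 ≠ v3)
    (hd : Multiset.toFinsupp (v1 : Multiset ℕ) = d) (hv : ∀ w : List ℕ, w.Perm v1 ↔ w = v1 ∨ w = v2 ∨ w = v3)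
    (g : P) : (com g).coeff d = cf v1 g + cf v2 g + cf v3 g := by
  refine ind_mon (C := fun g => (com g).coeff d = cf v1 g + cf v2 g + cf v3 g) ?_ ?_ ?_ ?_ g
  · rw [map_zero, MvPolynomial.coeff_zero, nd2_cf_zero, nd2_cf_zero, nd2_cf_zero]
    rfl
  · intro f g hf hg
    rw [map_add, MvPolynomial.coeff_add, hf, hg, cf_add, cf_add, cf_add]
    ring
  · intro c f hf
    rw [map_zsmul, MvPolynomial.coeff_smul, hf, cf_smul, cf_smul, cf_smul, smul_eq_mul]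
    ring
  · intro w
    classical
    rw [nd2_coeff w v1 hd, cf_mon, cf_mon, cf_mon]
    by_cases h1 : w = v1
    · subst h1
      rw [if_pos (List.Perm.refl _), if_pos rfl, if_neg h12, if_neg h13]
      norm_num
    by_cases h2 : w = v2
    · subst h2
      rw [if_pos ((hv _).2 (Or.inr (Or.inl rfl))), if_neg h1, if_pos rfl, if_neg h23]
      norm_num
    by_cases h3 : w = v3
    · subst h3
      rw [if_pos ((hv _).2 (Or.inr (Or.inr rfl))), if_neg h1, if_neg h2, if_pos rfl]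
      norm_num
    · rw [if_neg h1, if_neg h2, if_neg h3, if_neg]
      · norm_num
      · intro h
        rcases (hv w).1 h with h | h | h
        · exact h1 h
        · exact h2 h
        · exact h3 h

private theorem nd2_ct21 (g : P) : ct 2 1 g = cf [0,0,1] g + cf [0,1,0] g + cf [1,0,0] g := by
  refine nd2_ct (by decide) (by decide) (by decide) ?_ nd2_p21 g
  ext i
  simp [Multiset.toFinsupp_apply, Finsupp.single_apply]
  by_cases h0 : i = 0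
  · subst h0; simp
  · by_cases h1 : i = 1
    · subst h1; simp
    · simp [Ne.symm h0, Ne.symm h1]

private theorem nd2_ct12 (g : P) : ct 1 2 g = cf [0,1,1] g + cf [1,0,1] g + cf [1,1,0] g := by
  refine nd2_ct (by decide) (by decide) (by decide) ?_ nd2_p12 g
  ext i
  simp [Multiset.toFinsupp_apply, Finsupp.single_apply]
  by_cases h0 : i = 0
  · subst h0; simp
  · by_cases h1 : i = 1
    · subst h1; simp
    · simp [Ne.symm h0, Ne.symm h1]

private def K1 : Set P := {g | (2 : ℤ) ∣ cf [0,1] g + cf [1,0] g ∧ (2 : ℤ) ∣ ct 2 1 g + ct 1 2 g}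
private def K2 : Set P := {g | (2 : ℤ) ∣ cf [0,1] g ∧ (2 : ℤ) ∣ cf [1,0] g}
private def K3 : Set P := {g | (2 : ℤ) ∣ cf [0,1] g + cf [1,0] g ∧ (2 : ℤ) ∣ cf [0,1] g + (ct 2 1 g + ct 1 2 g)}

private theorem nd2_cf_neg (w : List ℕ) (f : P) : cf w (-f) = - cf w f := by
  have h := cf_smul w (-1) f
  rwa [neg_one_smul, neg_one_mul] at h

private theorem K1_add : AddS K1 := by
  refine ⟨?_, fun f hf g hg => ?_, fun f hf => ?_⟩
  · show _ ∧ _
    simp only [nd2_ct21, nd2_ct12, nd2_cf_zero]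
    omega
  · obtain ⟨a1, a2⟩ := hf
    obtain ⟨b1, b2⟩ := hg
    show _ ∧ _
    simp only [nd2_ct21, nd2_ct12, cf_add] at a1 a2 b1 b2 ⊢
    omega
  · obtain ⟨a1, a2⟩ := hf
    show _ ∧ _
    simp only [nd2_ct21, nd2_ct12, nd2_cf_neg] at a1 a2 ⊢
    omega

private theorem K2_add : AddS K2 := by
  refine ⟨?_, fun f hf g hg => ?_, fun f hf => ?_⟩
  · show _ ∧ _
    simp only [nd2_cf_zero]
    omega
  · obtain ⟨a1, a2⟩ := hf
    obtain ⟨b1, b2⟩ := hg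
    show _ ∧ _
    simp only [cf_add] at a1 a2 b1 b2 ⊢
    omega
  · obtain ⟨a1, a2⟩ := hf
    show _ ∧ _
    simp only [nd2_cf_neg] at a1 a2 ⊢
    omega

private theorem K3_add : AddS K3 := by
  refine ⟨?_, fun f hf g hg => ?_, fun f hf => ?_⟩
  · show _ ∧ _
    simp only [nd2_ct21, nd2_ct12, nd2_cf_zero]
    omega
  · obtain ⟨a1, a2⟩ := hf
    obtain ⟨b1, b2⟩ := hg
    show _ ∧ _
    simp only [nd2_ct21, nd2_ct12, cf_add] at a1 a2 b1 b2 ⊢
    omega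
  · obtain ⟨a1, a2⟩ := hf
    show _ ∧ _
    simp only [nd2_ct21, nd2_ct12, nd2_cf_neg] at a1 a2 ⊢
    omega

private theorem le1 : TN ≤ LT K1 := le_LT TN_isT fun g hg => by
  obtain ⟨h1, h2, h3⟩ := LT_sub KN_add hg
  exact ⟨dvd_add h1 h2, h3⟩

private theorem le2 : TN ≤ LT K2 := le_LT TN_isT fun g hg => by
  obtain ⟨h1, h2, h3⟩ := LT_sub KN_add hg
  exact ⟨h1, h2⟩

private theorem le3 : TN ≤ LT K3 := le_LT TN_isT fun g hg => by
  obtain ⟨h1, h2, h3⟩ := LT_sub KN_add hg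
  exact ⟨dvd_add h1 h2, dvd_add h1 h3⟩

private theorem inf12 : LT K1 ⊓ LT K2 ≤ TN := le_LT (isT_inf (LT_isT K1_add) (LT_isT K2_add)) fun g hg => by
  obtain ⟨h1, h2⟩ := LT_sub K1_add hg.1
  obtain ⟨h3, h4⟩ := LT_sub K2_add hg.2
  exact ⟨h3, h4, h2⟩

private theorem inf13 : LT K1 ⊓ LT K3 ≤ TN := le_LT (isT_inf (LT_isT K1_add) (LT_isT K3_add)) fun g hg => by
  obtain ⟨h1, h2⟩ := LT_sub K1_add hg.1
  obtain ⟨h3, h4⟩ := LT_sub K3_add hg.2
  show _ ∧ _ ∧ _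
  omega

private theorem nd2_cmF : cm 0 1 ∈ Fge 2 := by
  have e : cm 0 1 = mon [0,1] - mon [1,0] := by
    unfold cm
    simp only [mon_cons, mon_nil, mul_one]
  rw [e]
  exact Submodule.sub_mem _ (Submodule.subset_span ⟨_, le_rfl, rfl⟩) (Submodule.subset_span ⟨_, le_rfl, rfl⟩)

private theorem nd2_sqF : X 0 ^ 2 * X 1 ∈ Fge 3 := by
  have e : X 0 ^ 2 * X 1 = mon [0,0,1] := by
    simp only [mon_cons, mon_nil, mul_one]
    rw [pow_two, mul_assoc]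
  rw [e]
  exact Submodule.subset_span ⟨_, le_rfl, rfl⟩

private theorem nd2_Pp {φ : P →ₐ[ℤ] P} (hφ : IsSubst φ) (i : ℕ) : φ (X i) ∈ Pp := mem_Pp.2 (hφ i)

private theorem nd2_phi_cm (φ : P →ₐ[ℤ] P) : φ (cm 0 1) = φ (X 0) * φ (X 1) - φ (X 1) * φ (X 0) := by
  unfold cm
  rw [map_sub, map_mul, map_mul]

private theorem nd2_cm {φ : P →ₐ[ℤ] P} (hφ : IsSubst φ) (u v : P) :
    cf [0,1] (u * φ (cm 0 1) * v) = aug u * (cf [0] (φ (X 0)) * cf [1] (φ (X 1)) - cf [0] (φ (X 1)) * cf [1] (φ (X 0))) * aug v ∧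
    cf [1,0] (u * φ (cm 0 1) * v) = aug u * (cf [1] (φ (X 0)) * cf [0] (φ (X 1)) - cf [1] (φ (X 1)) * cf [0] (φ (X 0))) * aug v ∧
    ct 2 1 (u * φ (cm 0 1) * v) = 0 ∧ ct 1 2 (u * φ (cm 0 1) * v) = 0 := by
  have hF : φ (cm 0 1) ∈ Fge 2 := (isT_Fge 2 (by norm_num)).subst φ hφ _ nd2_cmF
  have h0 := nd2_Pp hφ 0
  have h1 := nd2_Pp hφ 1
  have hc : com (u * φ (cm 0 1) * v) = 0 := by
    rw [map_mul, map_mul, nd2_phi_cm, map_sub, map_mul, map_mul, mul_comm (com (φ (X 1))), sub_self, mul_zero,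
      zero_mul]
  refine ⟨?_, ?_, ?_, ?_⟩
  · rw [ADM.cf_sandwich (w := [0,1]) hF u v, nd2_phi_cm, nd2_cf_sub, ADM.cf_two h0 h1, ADM.cf_two h1 h0]
  · rw [ADM.cf_sandwich (w := [1,0]) hF u v, nd2_phi_cm, nd2_cf_sub, ADM.cf_two h0 h1, ADM.cf_two h1 h0]
  · unfold ct
    rw [hc, MvPolynomial.coeff_zero]
  · unfold ct
    rw [hc, MvPolynomial.coeff_zero]

private theorem nd2_sq {φ : P →ₐ[ℤ] P} (hφ : IsSubst φ) (u v : P) :
    cf [0,1] (u * φ (X 0 ^ 2 * X 1) * v) = 0 ∧ cf [1,0] (u * φ (X 0 ^ 2 * X 1) * v) = 0 ∧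
    ct 2 1 (u * φ (X 0 ^ 2 * X 1) * v) = aug u * (cf [0] (φ (X 0)) * cf [0] (φ (X 0)) * cf [1] (φ (X 1)) +
      2 * (cf [0] (φ (X 0)) * cf [1] (φ (X 0)) * cf [0] (φ (X 1)))) * aug v ∧
    ct 1 2 (u * φ (X 0 ^ 2 * X 1) * v) = aug u * (cf [1] (φ (X 0)) * cf [1] (φ (X 0)) * cf [0] (φ (X 1)) +
      2 * (cf [0] (φ (X 0)) * cf [1] (φ (X 0)) * cf [1] (φ (X 1)))) * aug v := by
  have hF : φ (X 0 ^ 2 * X 1) ∈ Fge 3 := (isT_Fge 3 (by norm_num)).subst φ hφ _ nd2_sqF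
  have hG : u * φ (X 0 ^ 2 * X 1) * v ∈ Fge 3 := ADM.Fge_subst (by norm_num) nd2_sqF hφ u v
  have h0 := nd2_Pp hφ 0
  have h1 := nd2_Pp hφ 1
  have e : φ (X 0 ^ 2 * X 1) = φ (X 0) * φ (X 0) * φ (X 1) := by
    rw [map_mul, map_pow, pow_two]
  refine ⟨ADM.cf_Fge hG (by norm_num), ADM.cf_Fge hG (by norm_num), ?_, ?_⟩
  · rw [nd2_ct21, ADM.cf_sandwich (w := [0,0,1]) hF u v, ADM.cf_sandwich (w := [0,1,0]) hF u v,
      ADM.cf_sandwich (w := [1,0,0]) hF u v, e, ADM.cf_three h0 h0 h1, ADM.cf_three h0 h0 h1,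
      ADM.cf_three h0 h0 h1]
    ring
  · rw [nd2_ct12, ADM.cf_sandwich (w := [0,1,1]) hF u v, ADM.cf_sandwich (w := [1,0,1]) hF u v,
      ADM.cf_sandwich (w := [1,1,0]) hF u v, e, ADM.cf_three h0 h0 h1, ADM.cf_three h0 h0 h1,
      ADM.cf_three h0 h0 h1]
    ring

/-- `α² ≡ α` -/
private theorem nd2_arith (a b c d : ℤ) : (2 : ℤ) ∣ (a * d - b * c) + (a * a * d + 2 * (a * b * c) + (b * b * c + 2 * (a * b * d))) := by
  have h1 : (2 : ℤ) ∣ a * (a + 1) := (Int.even_mul_succ_self a).two_dvd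
  have h2 : (2 : ℤ) ∣ b * (b - 1) := by
    have h3 := (Int.even_mul_succ_self (b - 1)).two_dvd
    rwa [sub_add_cancel, mul_comm] at h3
  have e : (a * d - b * c) + (a * a * d + 2 * (a * b * c) + (b * b * c + 2 * (a * b * d))) =
      a * (a + 1) * d + b * (b - 1) * c + 2 * (a * b * c + a * b * d) := by ring
  rw [e]
  exact dvd_add (dvd_add (h1.mul_right _) (h2.mul_right _)) (dvd_mul_right _ _)

theorem NdN2 : ¬ DistOn TI TN := by
  intro hD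
  have h := hD (LT K1) (LT_isT K1_add) (LT K2) (LT_isT K2_add) (LT K3) (LT_isT K3_add) le1 le2 le3
  have m1 : cm 0 1 ∈ LT K1 := by
    rw [LT_iff K1_add]
    refine ⟨cm_mem 0 1, fun φ hφ u v => ?_⟩
    obtain ⟨h1, h2, h3, h4⟩ := nd2_cm hφ u v
    show _ ∧ _
    rw [h1, h2, h3, h4]
    refine ⟨?_, dvd_zero _⟩
    ring_nf
    exact dvd_zero _
  have m2 : X 0 ^ 2 * X 1 ∈ LT K2 := by
    rw [LT_iff K2_add]
    refine ⟨Pp_mul_left _ (X_mem 1), fun φ hφ u v => ?_⟩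
    obtain ⟨h1, h2, -, -⟩ := nd2_sq hφ u v
    show _ ∧ _
    rw [h1, h2]
    exact ⟨dvd_zero _, dvd_zero _⟩
  have m3 : cm 0 1 + X 0 ^ 2 * X 1 ∈ LT K3 := by
    rw [LT_iff K3_add]
    refine ⟨Submodule.add_mem _ (cm_mem 0 1) (Pp_mul_left _ (X_mem 1)), fun φ hφ u v => ?_⟩
    obtain ⟨h1, h2, h3, h4⟩ := nd2_cm hφ u v
    obtain ⟨g1, g2, g3, g4⟩ := nd2_sq hφ u v
    have e : u * φ (cm 0 1 + X 0 ^ 2 * X 1) * v = u * φ (cm 0 1) * v + u * φ (X 0 ^ 2 * X 1) * v := by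
      rw [map_add, mul_add, add_mul]
    have c21 : ∀ f g : P, ct 2 1 (f + g) = ct 2 1 f + ct 2 1 g := fun f g => by
      unfold ct
      rw [map_add, MvPolynomial.coeff_add]
    have c12 : ∀ f g : P, ct 1 2 (f + g) = ct 1 2 f + ct 1 2 g := fun f g => by
      unfold ct
      rw [map_add, MvPolynomial.coeff_add]
    show _ ∧ _
    rw [e, cf_add, cf_add, c21, c12, h1, h2, h3, h4, g1, g2, g3, g4]
    refine ⟨?_, ?_⟩
    · ring_nf
      exact dvd_zero _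
    · have h5 := (nd2_arith (cf [0] (φ (X 0))) (cf [1] (φ (X 0))) (cf [0] (φ (X 1))) (cf [1] (φ (X 1)))).mul_left
        (aug u * aug v)
      refine h5.trans (dvd_of_eq ?_)
      ring
  have hm : cm 0 1 ∈ LT K1 ⊓ (LT K2 ⊔ LT K3) := by
    refine ⟨m1, ?_⟩
    have e1 : -(X 0 ^ 2 * X 1) + (cm 0 1 + X 0 ^ 2 * X 1) = cm 0 1 := by abel
    rw [← e1]
    exact Submodule.add_mem_sup (Submodule.neg_mem _ m2) m3
  rw [h] at hm
  have hT : cm 0 1 ∈ TN := sup_le inf12 inf13 hm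
  obtain ⟨h1, -, -⟩ := LT_sub KN_add hT
  have e : cm 0 1 = mon [0,1] - mon [1,0] := by
    unfold cm
    simp only [mon_cons, mon_nil, mul_one]
  rw [e, nd2_cf_sub, cf_mon, cf_mon] at h1
  norm_num at h1

end ADP
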