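import Pool.Agent.ADC.NdT
import Pool.Agent.ADP.KG3

/-!
# ADP-Nd3: the T-ideals for `p = 3` are not distributive

All by `NdT` (ADC.NdT) with `n = 3`, `cc 3 c u = ∑ σ, c σ • rn 3 σ u`.  If `rn 3 σ u - χ σ • u ∈ K` for all `σ` (`χ` trivial or the sign; enough for `swap 0 1` and `swap 1 2` as `K` is additive and invariant) then
`cc 3 c u ≡ (∑ c σ χ σ) • u` modulo `K`, so with the same `χ` for `u1`, `u2` one has `hlk` and `hin` as soon as [`m • u1 + m' • u2 ∈ K` implies `m • u1 ∈ K` and `m' • u2 ∈ K`] and [`m • u1 ∈ K ↔ 3 ∣ m ↔ m • u2 ∈ K`].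
* `NdM` (`K = KM`): `u1 = g5 = xyz - yzx`, `u2 = g3 = [x,y]z`, `χ` = sign.  `g5 + (01) g5 = xyz - yzx + yxz - xzy ∈ KM`, `g5 - ρ g5 = (xyz + yzx + zxy) - 3 yzx ∈ KM` (`ρ` the rotation); `g3 + (01) g3 = 0`,
  `g3 - ρ g3 = xyz - yxz - yzx + zyx ∈ KM`.  `g3` has signed coefficient sum 2, `g5` has `e1 - o2 - e2 + o3 = 2` and signed sum 0.
* `NdG1` (`K = KG 3 1`, `KG31_iff`): `u1 = g5`, `u2 = xyz + yxz`, `χ` trivial: `g5 - (01) g5 = xyz - yzx - yxz + xzy ∈ K`, `u2 - ρ u2 = xyz + yxz - yzx - zyx ∈ K`; `u2` has coefficient sum 2, `g5` has sum 0 and `e1 + o2 - e2 - o3 = 2`.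
* `NdG2` (`K = KG 3 2`, `KG32_iff`), `NdE3` (`KE`), `NdF3` (`KF`): `u1 = 3 • xyz`, `u2 = xyz + yzx + zxy`, `χ` = sign.  Three coordinates `c_k` (`e1 - o3`, ... resp. `e1 - o1`, ... resp. `e1 - o2`, ...), `K = {3 ∣ c_k, 9 ∣ ∑ c_k}`:
  `u2` has `c = (1,1,1)`, `u1` has one `c_k = 3`.  `m • u1 + m' • u2 ∈ K`: `3 ∣ m'`, `9 ∣ 3m + 3m'`, so `3 ∣ m`.
-/

namespace ADP

open AD ADN ADC

/-- the multilinear polynomial of degree 3 with the given coefficients -/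
private noncomputable def nL (a1 a2 a3 a4 a5 a6 : ℤ) : P :=
  a1 • mon [0, 1, 2] + a2 • mon [1, 2, 0] + a3 • mon [2, 0, 1] + a4 • mon [1, 0, 2] +
    a5 • mon [0, 2, 1] + a6 • mon [2, 1, 0]

private theorem nL_Ml (a1 a2 a3 a4 a5 a6 : ℤ) : nL a1 a2 a3 a4 a5 a6 ∈ Ml 3 := by
  unfold nL
  refine (Ml 3).add_mem ((Ml 3).add_mem ((Ml 3).add_mem ((Ml 3).add_mem ((Ml 3).add_mem ?_ ?_) ?_)
    ?_) ?_) ?_ <;>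
  exact (Ml 3).smul_mem _ (Ml_mon (by decide))

private theorem nL_add (a1 a2 a3 a4 a5 a6 b1 b2 b3 b4 b5 b6 : ℤ) :
    nL a1 a2 a3 a4 a5 a6 + nL b1 b2 b3 b4 b5 b6 =
      nL (a1 + b1) (a2 + b2) (a3 + b3) (a4 + b4) (a5 + b5) (a6 + b6) := by
  unfold nL
  simp only [add_smul]
  abel

private theorem nL_co (a1 a2 a3 a4 a5 a6 : ℤ) :
    e1 (nL a1 a2 a3 a4 a5 a6) = a1 ∧ e2 (nL a1 a2 a3 a4 a5 a6) = a2 ∧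
    e3 (nL a1 a2 a3 a4 a5 a6) = a3 ∧ o1 (nL a1 a2 a3 a4 a5 a6) = a4 ∧
    o2 (nL a1 a2 a3 a4 a5 a6) = a5 ∧ o3 (nL a1 a2 a3 a4 a5 a6) = a6 := by
  unfold nL e1 e2 e3 o1 o2 o3
  simp only [cf_add, cf_smul, cf_mon]
  simp

private theorem nL_rn (σ : Equiv.Perm (Fin 3)) (a1 a2 a3 a4 a5 a6 : ℤ) {w1 w2 w3 w4 w5 w6 : List ℕ}
    (h : ([0,1,2].map (pN 3 σ), [1,2,0].map (pN 3 σ), [2,0,1].map (pN 3 σ),
      [1,0,2].map (pN 3 σ), [0,2,1].map (pN 3 σ), [2,1,0].map (pN 3 σ)) =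
      (w1, w2, w3, w4, w5, w6)) :
    rn 3 σ (nL a1 a2 a3 a4 a5 a6) = a1 • mon w1 + a2 • mon w2 + a3 • mon w3 + a4 • mon w4 +
      a5 • mon w5 + a6 • mon w6 := by
  simp only [Prod.mk.injEq] at h
  obtain ⟨p1, p2, p3, p4, p5, p6⟩ := h
  unfold nL
  simp only [map_add, map_zsmul, rn_mon]
  rw [p1, p2, p3, p4, p5, p6]

private theorem nL_univ : (Finset.univ : Finset (Equiv.Perm (Fin 3))) =
    {1, Equiv.swap 0 1 * Equiv.swap 1 2, Equiv.swap 1 2 * Equiv.swap 0 1, Equiv.swap 0 1,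
      Equiv.swap 1 2, Equiv.swap 0 2} := by decide

private theorem nL_cc (c : Equiv.Perm (Fin 3) → ℤ) : ∃ c1 c2 c3 c4 c5 c6 : ℤ,
    ∀ b1 b2 b3 b4 b5 b6 : ℤ, cc 3 c (nL b1 b2 b3 b4 b5 b6) =
      nL (c1 * b1 + c2 * b3 + c3 * b2 + c4 * b4 + c5 * b5 + c6 * b6)
        (c1 * b2 + c2 * b1 + c3 * b3 + c4 * b5 + c5 * b6 + c6 * b4)
        (c1 * b3 + c2 * b2 + c3 * b1 + c4 * b6 + c5 * b4 + c6 * b5)
        (c1 * b4 + c2 * b5 + c3 * b6 + c4 * b1 + c5 * b3 + c6 * b2)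
        (c1 * b5 + c2 * b6 + c3 * b4 + c4 * b2 + c5 * b1 + c6 * b3)
        (c1 * b6 + c2 * b4 + c3 * b5 + c4 * b3 + c5 * b2 + c6 * b1) := by
  refine ⟨c 1, c (Equiv.swap 0 1 * Equiv.swap 1 2), c (Equiv.swap 1 2 * Equiv.swap 0 1),
    c (Equiv.swap 0 1), c (Equiv.swap 1 2), c (Equiv.swap 0 2), fun b1 b2 b3 b4 b5 b6 => ?_⟩
  unfold cc
  rw [nL_univ, Finset.sum_insert (by decide), Finset.sum_insert (by decide),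
    Finset.sum_insert (by decide), Finset.sum_insert (by decide), Finset.sum_insert (by decide),
    Finset.sum_singleton,
    nL_rn 1 b1 b2 b3 b4 b5 b6 (w1 := [0,1,2]) (w2 := [1,2,0]) (w3 := [2,0,1]) (w4 := [1,0,2])
      (w5 := [0,2,1]) (w6 := [2,1,0]) (by decide),
    nL_rn (Equiv.swap 0 1 * Equiv.swap 1 2) b1 b2 b3 b4 b5 b6 (w1 := [1,2,0]) (w2 := [2,0,1])
      (w3 := [0,1,2]) (w4 := [2,1,0]) (w5 := [1,0,2]) (w6 := [0,2,1]) (by decide),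
    nL_rn (Equiv.swap 1 2 * Equiv.swap 0 1) b1 b2 b3 b4 b5 b6 (w1 := [2,0,1]) (w2 := [0,1,2])
      (w3 := [1,2,0]) (w4 := [0,2,1]) (w5 := [2,1,0]) (w6 := [1,0,2]) (by decide),
    nL_rn (Equiv.swap 0 1) b1 b2 b3 b4 b5 b6 (w1 := [1,0,2]) (w2 := [0,2,1]) (w3 := [2,1,0])
      (w4 := [0,1,2]) (w5 := [1,2,0]) (w6 := [2,0,1]) (by decide),
    nL_rn (Equiv.swap 1 2) b1 b2 b3 b4 b5 b6 (w1 := [0,2,1]) (w2 := [2,1,0]) (w3 := [1,0,2])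
      (w4 := [2,0,1]) (w5 := [0,1,2]) (w6 := [1,2,0]) (by decide),
    nL_rn (Equiv.swap 0 2) b1 b2 b3 b4 b5 b6 (w1 := [2,1,0]) (w2 := [1,0,2]) (w3 := [0,2,1])
      (w4 := [1,2,0]) (w5 := [2,0,1]) (w6 := [0,1,2]) (by decide)]
  unfold nL
  module

private theorem nL_KM (a1 a2 a3 a4 a5 a6 : ℤ) : nL a1 a2 a3 a4 a5 a6 ∈ KM ↔
    ((3 : ℤ) ∣ a1 + a2 + a3 - a4 - a5 - a6 ∧ (3 : ℤ) ∣ a1 - a5 - a2 + a6 ∧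
      (3 : ℤ) ∣ a2 - a4 - a3 + a5 ∧ (3 : ℤ) ∣ a3 - a6 - a1 + a4) := by
  obtain ⟨h1, h2, h3, h4, h5, h6⟩ := nL_co a1 a2 a3 a4 a5 a6
  unfold KM
  rw [Set.mem_ofPred_eq, h1, h2, h3, h4, h5, h6]

private theorem nL_KE (a1 a2 a3 a4 a5 a6 : ℤ) : nL a1 a2 a3 a4 a5 a6 ∈ KE ↔
    ((3 : ℤ) ∣ a1 - a4 ∧ (3 : ℤ) ∣ a2 - a6 ∧ (3 : ℤ) ∣ a3 - a5 ∧
      (9 : ℤ) ∣ a1 + a2 + a3 - a4 - a5 - a6) := by
  obtain ⟨h1, h2, h3, h4, h5, h6⟩ := nL_co a1 a2 a3 a4 a5 a6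
  unfold KE
  rw [Set.mem_ofPred_eq, h1, h2, h3, h4, h5, h6]

private theorem nL_KF (a1 a2 a3 a4 a5 a6 : ℤ) : nL a1 a2 a3 a4 a5 a6 ∈ KF ↔
    ((3 : ℤ) ∣ a1 - a5 ∧ (3 : ℤ) ∣ a2 - a4 ∧ (3 : ℤ) ∣ a3 - a6 ∧
      (9 : ℤ) ∣ a1 + a2 + a3 - a4 - a5 - a6) := by
  obtain ⟨h1, h2, h3, h4, h5, h6⟩ := nL_co a1 a2 a3 a4 a5 a6
  unfold KF
  rw [Set.mem_ofPred_eq, h1, h2, h3, h4, h5, h6]

private theorem nL_K1 (a1 a2 a3 a4 a5 a6 : ℤ) : nL a1 a2 a3 a4 a5 a6 ∈ KG 3 1 ↔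
    ((3 : ℤ) ∣ a1 + a2 + a3 + a4 + a5 + a6 ∧ (3 : ℤ) ∣ a1 + a5 - a2 - a6 ∧
      (3 : ℤ) ∣ a2 + a4 - a3 - a5 ∧ (3 : ℤ) ∣ a3 + a6 - a1 - a4) := by
  obtain ⟨h1, h2, h3, h4, h5, h6⟩ := nL_co a1 a2 a3 a4 a5 a6
  rw [KG31_iff (nL_Ml a1 a2 a3 a4 a5 a6), h1, h2, h3, h4, h5, h6]

private theorem nL_K2 (a1 a2 a3 a4 a5 a6 : ℤ) : nL a1 a2 a3 a4 a5 a6 ∈ KG 3 2 ↔
    ((3 : ℤ) ∣ a1 - a6 ∧ (3 : ℤ) ∣ a2 - a5 ∧ (3 : ℤ) ∣ a3 - a4 ∧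
      (9 : ℤ) ∣ a1 + a2 + a3 - a4 - a5 - a6) := by
  obtain ⟨h1, h2, h3, h4, h5, h6⟩ := nL_co a1 a2 a3 a4 a5 a6
  rw [KG32_iff (nL_Ml a1 a2 a3 a4 a5 a6), h1, h2, h3, h4, h5, h6]

theorem NdM : ¬ DistOn TI TM := by
  refine NdT (n := 3) (by norm_num) KM_add (nL_Ml 1 (-1) 0 0 0 0) (nL_Ml 1 0 0 (-1) 0 0) ?_ ?_ ?_
  · intro c
    obtain ⟨c1, c2, c3, c4, c5, c6, hc⟩ := nL_cc c
    rw [hc, hc, nL_KM, nL_KM]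
    omega
  · intro c d
    obtain ⟨c1, c2, c3, c4, c5, c6, hc⟩ := nL_cc c
    obtain ⟨d1, d2, d3, d4, d5, d6, hd⟩ := nL_cc d
    rw [hc, hd, nL_add, nL_KM, nL_KM]
    omega
  · rw [nL_KM]
    omega

theorem NdG1 : ¬ DistOn TI (GP 3 1) := by
  refine NdT (n := 3) (by norm_num) (KG_add 3 1) (nL_Ml 1 (-1) 0 0 0 0) (nL_Ml 1 0 0 1 0 0) ?_ ?_ ?_
  · intro c
    obtain ⟨c1, c2, c3, c4, c5, c6, hc⟩ := nL_cc c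
    rw [hc, hc, nL_K1, nL_K1]
    omega
  · intro c d
    obtain ⟨c1, c2, c3, c4, c5, c6, hc⟩ := nL_cc c
    obtain ⟨d1, d2, d3, d4, d5, d6, hd⟩ := nL_cc d
    rw [hc, hd, nL_add, nL_K1, nL_K1]
    omega
  · rw [nL_K1]
    omega

theorem NdG2 : ¬ DistOn TI (GP 3 2) := by
  refine NdT (n := 3) (by norm_num) (KG_add 3 2) (nL_Ml 3 0 0 0 0 0) (nL_Ml 1 1 1 0 0 0) ?_ ?_ ?_
  · intro c
    obtain ⟨c1, c2, c3, c4, c5, c6, hc⟩ := nL_cc c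
    rw [hc, hc, nL_K2, nL_K2]
    omega
  · intro c d
    obtain ⟨c1, c2, c3, c4, c5, c6, hc⟩ := nL_cc c
    obtain ⟨d1, d2, d3, d4, d5, d6, hd⟩ := nL_cc d
    rw [hc, hd, nL_add, nL_K2, nL_K2]
    omega
  · rw [nL_K2]
    omega

theorem NdE3 : ¬ DistOn TI TE := by
  refine NdT (n := 3) (by norm_num) KE_add (nL_Ml 3 0 0 0 0 0) (nL_Ml 1 1 1 0 0 0) ?_ ?_ ?_
  · intro c
    obtain ⟨c1, c2, c3, c4, c5, c6, hc⟩ := nL_cc c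
    rw [hc, hc, nL_KE, nL_KE]
    omega
  · intro c d
    obtain ⟨c1, c2, c3, c4, c5, c6, hc⟩ := nL_cc c
    obtain ⟨d1, d2, d3, d4, d5, d6, hd⟩ := nL_cc d
    rw [hc, hd, nL_add, nL_KE, nL_KE]
    omega
  · rw [nL_KE]
    omega

theorem NdF3 : ¬ DistOn TI TF := by
  refine NdT (n := 3) (by norm_num) KF_add (nL_Ml 3 0 0 0 0 0) (nL_Ml 1 1 1 0 0 0) ?_ ?_ ?_
  · intro c
    obtain ⟨c1, c2, c3, c4, c5, c6, hc⟩ := nL_cc c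
    rw [hc, hc, nL_KF, nL_KF]
    omega
  · intro c d
    obtain ⟨c1, c2, c3, c4, c5, c6, hc⟩ := nL_cc c
    obtain ⟨d1, d2, d3, d4, d5, d6, hd⟩ := nL_cc d
    rw [hc, hd, nL_add, nL_KF, nL_KF]
    omega
  · rw [nL_KF]
    omega

end ADP
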