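import Pool.Agent.ADP.K2

/-!
# ADP-Near: the near-commutative T-ideals of the list (definitions)

`ct i j g` (ADP.K2): the sum of the coefficients of `g` at the words with `i` letters `x_0`, `j` letters `x_1` and no others.  `LT K` (ADP.K2): the largest T-ideal contained in `K`;
`LT_iff`: `f ∈ LT K ↔ f ∈ Pp ∧ ∀ φ, IsSubst φ → ∀ u v, u * φ f * v ∈ K` (for additive `K`).
-/

namespace ADP

open AD ADN ADC

/-- `c_i`, `p ≥ 5`: `2 + (p-1) i` letters `x_0`, `1 + (p-1) (4-i)` letters `x_1`; `p = 3`: `1 + 2 (3-i)` letters `x_1` -/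
noncomputable def cc (p i : ℕ) (g : P) : ℤ :=
  ct (2 + (p - 1) * i) (1 + (p - 1) * ((if p = 3 then 3 else 4) - i)) g

/-- the functionals of `C_p`, `p ≥ 3` -/
def KC (p : ℕ) : Set P :=
  if p = 3 then {g | (3 : ℤ) ∣ cc 3 3 g ∧ (3 : ℤ) ∣ cc 3 0 g - cc 3 1 g ∧ (3 : ℤ) ∣ cc 3 1 g - cc 3 2 g}
  else {g | (p : ℤ) ∣ cc p 3 g + 3 * cc p 4 g ∧ (p : ℤ) ∣ cc p 0 g + cc p 1 g + cc p 2 g + cc p 4 g ∧
    (p : ℤ) ∣ cc p 2 g - cc p 0 g + 2 * cc p 4 g}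

/-- the T-ideal of `C_p`, `p ≥ 3` -/
noncomputable def CP (p : ℕ) : Submodule ℤ P := LT (KC p)

/-- the functionals of `C_2^(l,m)` -/
def KC2 (l m : ℤ) : Set P := {g | (2 : ℤ) ∣ ct 1 4 g + ct 2 3 g + ct 3 2 g + ct 4 1 g + l * cf [1, 0] g ∧
  (2 : ℤ) ∣ ct 3 3 g + m * cf [1, 0] g}

/-- the T-ideals of the varieties `C_2^(l,m)` -/
noncomputable def C2 (l m : ℤ) : Submodule ℤ P := LT (KC2 l m)

/-- the sum of the coefficients at the words with `i, j, k, l` letters `x_0, x_1, x_2, x_3` and no others -/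
noncomputable def cq (i j k l : ℕ) (g : P) : ℤ :=
  (com g).coeff (Finsupp.single 0 i + Finsupp.single 1 j + Finsupp.single 2 k + Finsupp.single 3 l)

/-- the functionals of the last variety for `p = 2` -/
def KT4 : Set P := {g | (2 : ℤ) ∣ cq 3 1 1 1 g ∧ (2 : ℤ) ∣ cq 2 2 1 1 g - cq 1 1 2 2 g ∧
  (2 : ℤ) ∣ cq 2 2 1 1 g + cq 2 1 2 1 g + cq 2 1 1 2 g}

/-- its T-ideal -/
noncomputable def T4 : Submodule ℤ P := LT KT4

end ADP
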