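import Pool.Agent.ADP.K2
import Pool.Agent.AD.Tlat

/-!
# ADP-NrG: a criterion for non-distributivity of `LT K`
-/

namespace ADP

open AD ADN ADC

theorem LT_mono {K K' : Set P} (hK : AddS K) (h : K ⊆ K') : LT K ≤ LT K' :=
  le_LT (LT_isT hK) fun _ hg => h (LT_sub hK hg)

theorem NdG {K K1 K2 K3 : Set P} (hK : AddS K) (a1 : AddS K1) (a2 : AddS K2) (a3 : AddS K3)
    (s1 : K ⊆ K1) (s2 : K ⊆ K2) (s3 : K ⊆ K3) (h12 : K1 ∩ K2 ⊆ K) (h13 : K1 ∩ K3 ⊆ K) {f1 f2 : P}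
    (h1 : f1 ∈ LT K1) (h2 : f2 ∈ LT K2) (h3 : f1 + f2 ∈ LT K3) (h0 : f1 ∉ LT K) : ¬ DistOn TI (LT K) := by
  intro hd
  have e := hd (LT K1) (LT_isT a1) (LT K2) (LT_isT a2) (LT K3) (LT_isT a3) (LT_mono hK s1) (LT_mono hK s2)
    (LT_mono hK s3)
  have hf : f1 ∈ LT K1 ⊓ (LT K2 ⊔ LT K3) := by
    refine ⟨h1, ?_⟩
    have : f1 = -f2 + (f1 + f2) := by abel
    rw [this]
    exact add_mem (Submodule.mem_sup_left (neg_mem h2)) (Submodule.mem_sup_right h3)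
  rw [e] at hf
  have hle : (LT K1 ⊓ LT K2) ⊔ (LT K1 ⊓ LT K3) ≤ LT K := by
    refine sup_le (le_LT (isT_inf (LT_isT a1) (LT_isT a2)) fun g hg => ?_)
      (le_LT (isT_inf (LT_isT a1) (LT_isT a3)) fun g hg => ?_)
    · exact h12 ⟨LT_sub a1 hg.1, LT_sub a2 hg.2⟩
    · exact h13 ⟨LT_sub a1 hg.1, LT_sub a3 hg.2⟩
  exact h0 (hle hf)

end ADP
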