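import Pool.Agent.ADP.NrU
import Pool.Agent.ADP.NrG
import Pool.Agent.ADP.Near

/-!
# ADP-NdC2: `C2 l m` is not distributive

`NdG` (ADP.NrG) with `K = KC2 l m`; `L5 g = ct 1 4 g + ct 2 3 g + ct 3 2 g + ct 4 1 g + l * cf [1, 0] g`, `L6 g = ct 3 3 g + m * cf [1, 0] g`; `K1 = {2 ∣ L6}`, `K2 = {2 ∣ L5}`, `K3 = {2 ∣ L5 - L6}`; `f1 = X 0^4 * X 1`, `f2 = X 0^3 * X 1^3`.
Consequences have no part of degree 2 (`cf [1,0] = 0`: words of length `≥ 5`).  `ε = aug u * aug v`, `α, β, γ, δ` as in ADP.NdC5.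
* `L5 (u φ(f1) v)`: `ctu` (`p = 2`, `D = 5`): `(αX+β)^4 (γX+δ)` over `ZMod 2` `= (αX^4+β)(γX+δ)`: coefficients at `X^1`: `βγ`, `X^2, X^3`: 0, `X^4`: `αδ`: `L5 ≡ ε (αδ + βγ)`.
* `L6 (u φ(f1) v)` even: `com (u φ(f1) v) = U a^4 b` (`com_conseq` of ADP.NrH), `a = com (φ (X 0))`; modulo 2, `a^4` is a polynomial in the 4th powers of the variables (`a ↦ a^2` is additive modulo 2; `MvPolynomial.expand_zmod` or by induction on `a`: the set of `a` with all
  exponents of all monomials with odd coefficient of `a^4` divisible by 4) without constant term; so every monomial of `U a^4 b` with odd coefficient has an exponent `≥ 4`, in particular not `x_0^3 x_1^3`.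
* `L5 (u φ(f2) v) = 0` (degree `≥ 6`: `hl_low` of ADP.NrH).  `L6 (u φ(f2) v)`: `ctu` (`D = 6`): `(αX+β)^3 (γX+δ)^3`, coefficient at `X^3`: `α³δ³ + 9α²βγδ² + 9αβ²γ²δ + β³γ³ ≡ αδ + βγ`.
* So `f1 ∈ LT K1`, `f2 ∈ LT K2`, `f1 + f2 ∈ LT K3` (`LT_iff`).  `f1 ∉ C2 l m`: `L5 f1 = 1`.
-/

namespace ADP

open AD ADN ADC

private theorem n2_const (g : P) : (com g).coeff 0 = aug g := by
  have h1 : ((MvPolynomial.aeval (fun _ => (0 : ℤ)) : MvPolynomial ℕ ℤ →ₐ[ℤ] ℤ).comp com) =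
      aug := by
    apply FreeAlgebra.hom_ext
    funext i
    simp [com, aug]
  have h2 := DFunLike.congr_fun h1 g
  rw [← h2, AlgHom.comp_apply]
  have h3 : ∀ G : MvPolynomial ℕ ℤ, MvPolynomial.aeval (fun _ => (0 : ℤ)) G = G.coeff 0 := by
    intro G
    rw [MvPolynomial.aeval_zero']
    rfl
  rw [h3]

private theorem n2_com (a b : ℕ) : com (X 0 ^ a * X 1 ^ b) =
    (MvPolynomial.X 0 ^ a * MvPolynomial.X 1 ^ b : MvPolynomial ℕ ℤ) := by
  simp [com]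

private theorem n2_hom (a b : ℕ) : (com (X 0 ^ a * X 1 ^ b)).IsHomogeneous (a + b) := by
  rw [n2_com]
  exact (MvPolynomial.isHomogeneous_X_pow 0 a).mul (MvPolynomial.isHomogeneous_X_pow 1 b)

/-- the consequences of `x_0^4 x_1` have an even sum of coefficients at content `x_0^3 x_1^3` -/
theorem p4_33 (φ : P →ₐ[ℤ] P) (hφ : IsSubst φ) (u v : P) : (2 : ℤ) ∣ ct 3 3 (u * φ (X 0 ^ 4 * X 1) * v) := by
  classical
  have e0 : com (X 0 ^ 4 * X 1) = (MvPolynomial.X 0 ^ 4 * MvPolynomial.X 1 : MvPolynomial ℕ ℤ) := by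
    have := n2_com 4 1
    rwa [pow_one, pow_one] at this
  have key : ((ct 3 3 (u * φ (X 0 ^ 4 * X 1) * v) : ℤ) : ZMod 2) = 0 := by
    unfold ct
    have e1 : ∀ G : MvPolynomial ℕ ℤ, ∀ m : ℕ →₀ ℕ, ((G.coeff m : ℤ) : ZMod 2) =
        (MvPolynomial.map (Int.castRingHom (ZMod 2)) G).coeff m := by
      intro G m
      rw [MvPolynomial.coeff_map]
      rfl
    rw [e1, com_conseq, e0, map_mul (MvPolynomial.aeval fun j => com (φ (X j))), map_pow, MvPolynomial.aeval_X,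
      MvPolynomial.aeval_X, map_mul, map_mul, map_mul, map_pow]
    set a := MvPolynomial.map (Int.castRingHom (ZMod 2)) (com (φ (X 0))) with ha
    set b := MvPolynomial.map (Int.castRingHom (ZMod 2)) (com (φ (X 1))) with hb
    set c := MvPolynomial.map (Int.castRingHom (ZMod 2)) (com u) with hc
    set d := MvPolynomial.map (Int.castRingHom (ZMod 2)) (com v) with hd
    have e2 : a ^ 4 = MvPolynomial.expand (2 * 2) a := by
      rw [MvPolynomial.expand_mul, MvPolynomial.expand_zmod, MvPolynomial.expand_zmod, ← pow_mul]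
    have e3 : c * (a ^ 4 * b) * d = MvPolynomial.expand (2 * 2) a * (c * b * d) := by
      rw [e2]
      ring
    have h0 : a.coeff 0 = 0 := by
      rw [ha, ← e1, n2_const, hφ 0]
      rfl
    rw [e3, MvPolynomial.coeff_mul]
    refine Finset.sum_eq_zero fun q hq => ?_
    have hq1 : q.1 + q.2 = Finsupp.single 0 3 + Finsupp.single 1 3 := Finset.HasAntidiagonal.mem_antidiagonal.1 hq
    by_cases hz : q.1 = 0
    · rw [hz, MvPolynomial.coeff_expand_zero _ (by norm_num), h0, zero_mul]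
    · have h1 : ∃ i, q.1 i ≠ 0 := by
        by_contra hc'
        push Not at hc'
        exact hz (Finsupp.ext hc')
      obtain ⟨i, hi⟩ := h1
      have h2 : q.1 i ≤ 3 := by
        have h3 := congrArg (fun m : ℕ →₀ ℕ => m i) hq1
        simp only [Finsupp.add_apply] at h3
        have h4 : (Finsupp.single 0 3 : ℕ →₀ ℕ) i + (Finsupp.single 1 3 : ℕ →₀ ℕ) i ≤ 3 := by
          by_cases hi0 : i = 0
          · subst hi0
            simp
          · rw [Finsupp.single_eq_of_ne hi0, zero_add]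
            by_cases hi1 : i = 1
            · subst hi1
              simp
            · rw [Finsupp.single_eq_of_ne hi1]
              omega
        omega
      rw [MvPolynomial.coeff_expand_of_not_dvd (i := i), zero_mul]
      intro h
      have := Nat.le_of_dvd (Nat.pos_of_ne_zero hi) h
      omega
  exact (ZMod.intCast_zmod_eq_zero_iff_dvd _ 2).1 key

private theorem n2_cf {g : P} (hg : g ∈ Fge 5) : cf [1, 0] g = 0 := by
  unfold Fge at hg
  induction hg using Submodule.span_induction with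
  | mem f hf =>
    obtain ⟨w, hw, rfl⟩ := hf
    rw [cf_mon, if_neg]
    rintro rfl
    simp at hw
  | zero =>
    have h := cf_smul [1, 0] 0 0
    rw [zero_smul, zero_mul] at h
    exact h
  | add x y _ _ hx hy => rw [cf_add, hx, hy, add_zero]
  | smul c x _ hx => rw [cf_smul, hx, mul_zero]

private theorem n2_F {a b : ℕ} (h : 5 ≤ a + b) : (X 0 ^ a * X 1 ^ b : P) ∈ Fge 5 := by
  have e : (X 0 ^ a * X 1 ^ b : P) = mon (List.replicate a 0 ++ List.replicate b 1) := by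
    rw [mon_append]
    unfold mon
    rw [List.map_replicate, List.map_replicate, List.prod_replicate, List.prod_replicate]
  rw [e]
  refine Submodule.subset_span ⟨_, ?_, rfl⟩
  simp
  omega

private theorem n2_cons {f : P} (hf : f ∈ Fge 5) {φ : P →ₐ[ℤ] P} (hφ : IsSubst φ) (u v : P) :
    cf [1, 0] (u * φ f * v) = 0 :=
  n2_cf ((isT_Fge 5 (by omega)).mul_right _ ((isT_Fge 5 (by omega)).mul_left _
    ((isT_Fge 5 (by omega)).subst φ hφ f hf) u) v)

private theorem n2_un (M : ℕ → ℕ → ZMod 2) (a b : ℕ) : un 2 M (com (X 0 ^ a * X 1 ^ b)) =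
    (Polynomial.C (M 0 0) * Polynomial.X + Polynomial.C (M 0 1)) ^ a *
      (Polynomial.C (M 1 0) * Polynomial.X + Polynomial.C (M 1 1)) ^ b := by
  rw [n2_com]
  unfold un
  rw [MvPolynomial.eval₂_mul, MvPolynomial.eval₂_pow, MvPolynomial.eval₂_pow, MvPolynomial.eval₂_X,
    MvPolynomial.eval₂_X]

private theorem n2_p41 (a b c d : ZMod 2) :
    ((Polynomial.C a * Polynomial.X + Polynomial.C b) ^ 4 * (Polynomial.C c * Polynomial.X + Polynomial.C d) ^ 1).coeff 1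
    + ((Polynomial.C a * Polynomial.X + Polynomial.C b) ^ 4 * (Polynomial.C c * Polynomial.X + Polynomial.C d) ^ 1).coeff 2
    + ((Polynomial.C a * Polynomial.X + Polynomial.C b) ^ 4 * (Polynomial.C c * Polynomial.X + Polynomial.C d) ^ 1).coeff 3
    + ((Polynomial.C a * Polynomial.X + Polynomial.C b) ^ 4 * (Polynomial.C c * Polynomial.X + Polynomial.C d) ^ 1).coeff 4
    = a * d + b * c := by
  have e : (Polynomial.C a * Polynomial.X + Polynomial.C b) ^ 4 * (Polynomial.C c * Polynomial.X + Polynomial.C d) ^ 1 =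
      Polynomial.C (a ^ 4 * c) * Polynomial.X ^ 5 + Polynomial.C (a ^ 4 * d + 4 * a ^ 3 * b * c) * Polynomial.X ^ 4 +
      Polynomial.C (4 * a ^ 3 * b * d + 6 * a ^ 2 * b ^ 2 * c) * Polynomial.X ^ 3 +
      Polynomial.C (6 * a ^ 2 * b ^ 2 * d + 4 * a * b ^ 3 * c) * Polynomial.X ^ 2 +
      Polynomial.C (4 * a * b ^ 3 * d + b ^ 4 * c) * Polynomial.X ^ 1 + Polynomial.C (b ^ 4 * d) * Polynomial.X ^ 0 := by
    simp only [Polynomial.C_add, Polynomial.C_mul, Polynomial.C_pow, Polynomial.C_ofNat]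
    ring
  rw [e]
  simp only [Polynomial.coeff_add, Polynomial.coeff_C_mul_X_pow]
  norm_num
  clear e
  revert a b c d
  decide

private theorem n2_p33 (a b c d : ZMod 2) :
    ((Polynomial.C a * Polynomial.X + Polynomial.C b) ^ 3 * (Polynomial.C c * Polynomial.X + Polynomial.C d) ^ 3).coeff 3
    = a * d + b * c := by
  have e : (Polynomial.C a * Polynomial.X + Polynomial.C b) ^ 3 * (Polynomial.C c * Polynomial.X + Polynomial.C d) ^ 3 =
      Polynomial.C (a ^ 3 * c ^ 3) * Polynomial.X ^ 6 +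
      Polynomial.C (3 * a ^ 3 * c ^ 2 * d + 3 * a ^ 2 * b * c ^ 3) * Polynomial.X ^ 5 +
      Polynomial.C (3 * a ^ 3 * c * d ^ 2 + 9 * a ^ 2 * b * c ^ 2 * d + 3 * a * b ^ 2 * c ^ 3) * Polynomial.X ^ 4 +
      Polynomial.C (a ^ 3 * d ^ 3 + 9 * a ^ 2 * b * c * d ^ 2 + 9 * a * b ^ 2 * c ^ 2 * d + b ^ 3 * c ^ 3) *
        Polynomial.X ^ 3 +
      Polynomial.C (3 * a ^ 2 * b * d ^ 3 + 9 * a * b ^ 2 * c * d ^ 2 + 3 * b ^ 3 * c ^ 2 * d) * Polynomial.X ^ 2 +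
      Polynomial.C (3 * a * b ^ 2 * d ^ 3 + 3 * b ^ 3 * c * d ^ 2) * Polynomial.X ^ 1 +
      Polynomial.C (b ^ 3 * d ^ 3) * Polynomial.X ^ 0 := by
    simp only [Polynomial.C_add, Polynomial.C_mul, Polynomial.C_pow, Polynomial.C_ofNat]
    ring
  rw [e]
  simp only [Polynomial.coeff_add, Polynomial.coeff_C_mul_X_pow]
  norm_num
  clear e
  revert a b c d
  decide

private theorem n2_low {i j : ℕ} (h : i + j = 5) {φ : P →ₐ[ℤ] P} (hφ : IsSubst φ) (u v : P) :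
    ct i j (u * φ (X 0 ^ 3 * X 1 ^ 3) * v) = 0 := by
  unfold ct
  refine hl_low (D := 6) ?_ hφ u v _ ?_
  · intro m hm
    exact (n2_hom 3 3).coeff_eq_zero (by omega)
  · rw [map_add, Finsupp.degree_single, Finsupp.degree_single]
    omega

private theorem n2_add (i j : ℕ) (f g : P) : ct i j (f + g) = ct i j f + ct i j g := by
  unfold ct
  rw [map_add, MvPolynomial.coeff_add]

private theorem n2_neg (i j : ℕ) (f : P) : ct i j (-f) = -ct i j f := by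
  unfold ct
  rw [map_neg, MvPolynomial.coeff_neg]

private theorem n2_zero (i j : ℕ) : ct i j (0 : P) = 0 := by
  unfold ct
  rw [map_zero, MvPolynomial.coeff_zero]

private theorem n2_cfz : cf [1, 0] (0 : P) = 0 := by
  have h := cf_smul [1, 0] 0 0
  rw [zero_smul, zero_mul] at h
  exact h

private theorem n2_cfn (f : P) : cf [1, 0] (-f) = - cf [1, 0] f := by
  have h := cf_smul [1, 0] (-1) f
  rw [neg_one_smul, neg_one_mul] at h
  exact h

private noncomputable def n2A (l : ℤ) (g : P) : ℤ := ct 1 4 g + ct 2 3 g + ct 3 2 g + ct 4 1 g + l * cf [1, 0] g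

private noncomputable def n2B (m : ℤ) (g : P) : ℤ := ct 3 3 g + m * cf [1, 0] g

private theorem n2A_add (l : ℤ) (f g : P) : n2A l (f + g) = n2A l f + n2A l g := by
  unfold n2A
  rw [n2_add, n2_add, n2_add, n2_add, cf_add]
  ring

private theorem n2B_add (l : ℤ) (f g : P) : n2B l (f + g) = n2B l f + n2B l g := by
  unfold n2B
  rw [n2_add, cf_add]
  ring

private theorem n2A_neg (l : ℤ) (f : P) : n2A l (-f) = -n2A l f := by
  unfold n2A
  rw [n2_neg, n2_neg, n2_neg, n2_neg, n2_cfn]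
  ring

private theorem n2B_neg (l : ℤ) (f : P) : n2B l (-f) = -n2B l f := by
  unfold n2B
  rw [n2_neg, n2_cfn]
  ring

private theorem n2A_zero (l : ℤ) : n2A l 0 = 0 := by
  unfold n2A
  rw [n2_zero, n2_zero, n2_zero, n2_zero, n2_cfz]
  ring

private theorem n2B_zero (l : ℤ) : n2B l 0 = 0 := by
  unfold n2B
  rw [n2_zero, n2_cfz]
  ring

private theorem n2_AddS {L : P → ℤ} (h0 : L 0 = 0) (ha : ∀ f g, L (f + g) = L f + L g)
    (hn : ∀ f, L (-f) = -L f) : AddS {g | (2 : ℤ) ∣ L g} := by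
  refine ⟨?_, ?_, ?_⟩
  · show (2 : ℤ) ∣ L 0
    rw [h0]
    exact dvd_zero _
  · intro f hf g hg
    show (2 : ℤ) ∣ L (f + g)
    rw [ha]
    exact dvd_add hf hg
  · intro f hf
    show (2 : ℤ) ∣ L (-f)
    rw [hn]
    exact (dvd_neg).2 hf

theorem NdC2 (l m : ℤ) : ¬ DistOn TI (C2 l m) := by
  have hA : AddS {g | (2 : ℤ) ∣ n2A l g} := n2_AddS (n2A_zero l) (n2A_add l) (n2A_neg l)
  have hB : AddS {g | (2 : ℤ) ∣ n2B m g} := n2_AddS (n2B_zero m) (n2B_add m) (n2B_neg m)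
  have hC : AddS {g | (2 : ℤ) ∣ n2A l g - n2B m g} := by
    refine n2_AddS (L := fun g => n2A l g - n2B m g) ?_ ?_ ?_
    · show n2A l 0 - n2B m 0 = 0
      rw [n2A_zero, n2B_zero, sub_self]
    · intro f g
      show n2A l (f + g) - n2B m (f + g) = (n2A l f - n2B m f) + (n2A l g - n2B m g)
      rw [n2A_add, n2B_add]
      ring
    · intro f
      show n2A l (-f) - n2B m (-f) = -(n2A l f - n2B m f)
      rw [n2A_neg, n2B_neg]
      ring
  have hK : AddS (KC2 l m) := by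
    refine ⟨⟨hA.1, hB.1⟩, ?_, ?_⟩
    · intro f hf g hg
      exact ⟨hA.2.1 f hf.1 g hg.1, hB.2.1 f hf.2 g hg.2⟩
    · intro f hf
      exact ⟨hA.2.2 f hf.1, hB.2.2 f hf.2⟩
  have hf1 : (X 0 ^ 4 * X 1 ^ 1 : P) ∈ Fge 5 := n2_F (by omega)
  have hf2 : (X 0 ^ 3 * X 1 ^ 3 : P) ∈ Fge 5 := n2_F (by omega)
  have hP1 : (X 0 ^ 4 * X 1 ^ 1 : P) ∈ Pp := (isT_Fge 5 (by omega)).le hf1
  have hP2 : (X 0 ^ 3 * X 1 ^ 3 : P) ∈ Pp := (isT_Fge 5 (by omega)).le hf2
  have vB1 : ∀ φ : P →ₐ[ℤ] P, IsSubst φ → ∀ u v : P, (2 : ℤ) ∣ n2B m (u * φ (X 0 ^ 4 * X 1 ^ 1) * v) := by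
    intro φ hφ u v
    unfold n2B
    rw [n2_cons hf1 hφ, mul_zero, add_zero, pow_one]
    exact p4_33 φ hφ u v
  have vA2 : ∀ φ : P →ₐ[ℤ] P, IsSubst φ → ∀ u v : P, n2A l (u * φ (X 0 ^ 3 * X 1 ^ 3) * v) = 0 := by
    intro φ hφ u v
    unfold n2A
    rw [n2_cons hf2 hφ, n2_low (by omega) hφ, n2_low (by omega) hφ, n2_low (by omega) hφ, n2_low (by omega) hφ]
    ring
  have vA1 : ∀ φ : P →ₐ[ℤ] P, IsSubst φ → ∀ u v : P, ((n2A l (u * φ (X 0 ^ 4 * X 1 ^ 1) * v) : ℤ) : ZMod 2) =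
      ((aug u * aug v : ℤ) : ZMod 2) * (((cf [0] (φ (X 0)) : ℤ) : ZMod 2) * ((cf [1] (φ (X 1)) : ℤ) : ZMod 2) +
        ((cf [1] (φ (X 0)) : ℤ) : ZMod 2) * ((cf [0] (φ (X 1)) : ℤ) : ZMod 2)) := by
    intro φ hφ u v
    unfold n2A
    rw [n2_cons hf1 hφ, mul_zero, add_zero]
    have e := fun (a b : ℕ) (hab : a + b = 4 + 1) => ctu 2 (n2_hom 4 1) hab hφ u v
    rw [← n2_p41, Int.cast_add, Int.cast_add, Int.cast_add, e 1 4 (by omega), e 2 3 (by omega), e 3 2 (by omega),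
      e 4 1 (by omega), n2_un]
    ring
  have vB2 : ∀ φ : P →ₐ[ℤ] P, IsSubst φ → ∀ u v : P, ((n2B m (u * φ (X 0 ^ 3 * X 1 ^ 3) * v) : ℤ) : ZMod 2) =
      ((aug u * aug v : ℤ) : ZMod 2) * (((cf [0] (φ (X 0)) : ℤ) : ZMod 2) * ((cf [1] (φ (X 1)) : ℤ) : ZMod 2) +
        ((cf [1] (φ (X 0)) : ℤ) : ZMod 2) * ((cf [0] (φ (X 1)) : ℤ) : ZMod 2)) := by
    intro φ hφ u v
    unfold n2B
    rw [n2_cons hf2 hφ, mul_zero, add_zero]
    have e := fun (a b : ℕ) (hab : a + b = 3 + 3) => ctu 2 (n2_hom 3 3) hab hφ u v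
    rw [← n2_p33, e 3 3 (by omega), n2_un]
  refine NdG (K := KC2 l m) (K1 := {g | (2 : ℤ) ∣ n2B m g}) (K2 := {g | (2 : ℤ) ∣ n2A l g})
    (K3 := {g | (2 : ℤ) ∣ n2A l g - n2B m g}) (f1 := X 0 ^ 4 * X 1 ^ 1) (f2 := X 0 ^ 3 * X 1 ^ 3)
    hK hB hA hC (fun g hg => hg.2) (fun g hg => hg.1) (fun g hg => dvd_sub hg.1 hg.2) (fun g hg => ⟨hg.2, hg.1⟩) ?_
    ?_ ?_ ?_ ?_
  · intro g hg
    have h1 : (2 : ℤ) ∣ n2B m g := hg.1
    have h2 : (2 : ℤ) ∣ n2A l g - n2B m g := hg.2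
    have h3 : (2 : ℤ) ∣ n2A l g := by
      have := dvd_add h1 h2
      rwa [add_sub_cancel] at this
    exact ⟨h3, h1⟩
  · exact (LT_iff hB).2 ⟨hP1, vB1⟩
  · refine (LT_iff hA).2 ⟨hP2, fun φ hφ u v => ?_⟩
    show (2 : ℤ) ∣ n2A l _
    rw [vA2 φ hφ u v]
    exact dvd_zero _
  · refine (LT_iff hC).2 ⟨add_mem hP1 hP2, fun φ hφ u v => ?_⟩
    show (2 : ℤ) ∣ n2A l _ - n2B m _
    rw [map_add, mul_add, add_mul, n2A_add, n2B_add, vA2 φ hφ u v, add_zero]
    have h1 : ((n2A l (u * φ (X 0 ^ 4 * X 1 ^ 1) * v) - n2B m (u * φ (X 0 ^ 3 * X 1 ^ 3) * v) : ℤ) : ZMod 2) = 0 := by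
      rw [Int.cast_sub, vA1 φ hφ u v, vB2 φ hφ u v, sub_self]
    have h2 := (ZMod.intCast_zmod_eq_zero_iff_dvd _ 2).1 h1
    have h3 := dvd_sub h2 (vB1 φ hφ u v)
    have h4 : n2A l (u * φ (X 0 ^ 4 * X 1 ^ 1) * v) - n2B m (u * φ (X 0 ^ 3 * X 1 ^ 3) * v) -
        n2B m (u * φ (X 0 ^ 4 * X 1 ^ 1) * v) = n2A l (u * φ (X 0 ^ 4 * X 1 ^ 1) * v) -
        (n2B m (u * φ (X 0 ^ 4 * X 1 ^ 1) * v) + n2B m (u * φ (X 0 ^ 3 * X 1 ^ 3) * v)) := by ring
    rwa [h4] at h3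
  · intro h
    have h1 : (2 : ℤ) ∣ n2A l (X 0 ^ 4 * X 1 ^ 1) := (LT_sub hK h).1
    have h2 := vA1 (AlgHom.id ℤ P) (fun i => ADC.aug_X i) 1 1
    rw [one_mul, mul_one, AlgHom.id_apply] at h2
    have h3 := (ZMod.intCast_zmod_eq_zero_iff_dvd _ 2).2 h1
    rw [h3] at h2
    have c1 : ∀ i j : ℕ, cf [i] (X j) = if j = i then 1 else 0 := by
      intro i j
      rw [← mon_single, cf_mon]
      simp
    simp [AlgHom.id_apply, c1] at h2

end ADP
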