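import Mathlib

/-!
# ADP-NrB: coefficients of two polynomials over `ZMod 3`

`l = αX + β`, `m = γX + δ`; `l^6 m^3 = (αT+β)²(γT+δ)`, `l^8 m = (αX+β)²(αT+β)²(γX+δ)` with `T = X^3` (`α^3 = α` in `ZMod 3`).  Expand (`Polynomial.coeff_add`, `coeff_C_mul`, `coeff_X_pow`) and `decide` the resulting identities in `ZMod 3` (81 cases; `revert α β γ δ; decide`).
-/

namespace ADP

open Polynomial

private theorem nrb_cube (α β : ZMod 3) : ((C α * X + C β : (ZMod 3)[X])) ^ 3 = C α * X ^ 3 + C β := by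
  have h1 : (C α : (ZMod 3)[X]) ^ 3 = C α := by
    rw [← C_pow]
    congr 1
    revert α
    decide
  have h2 : (C β : (ZMod 3)[X]) ^ 3 = C β := by
    rw [← C_pow]
    congr 1
    revert β
    decide
  have h3 : (3 : (ZMod 3)[X]) = 0 := by
    have : ((3 : ℕ) : (ZMod 3)[X]) = 0 := CharP.cast_eq_zero _ _
    exact_mod_cast this
  linear_combination (X ^ 3) * h1 + h2 + ((C α * X) ^ 2 * C β + (C α * X) * (C β) ^ 2) * h3

theorem coA3 (α β γ δ : ZMod 3) :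
    let l : (ZMod 3)[X] := C α * X + C β
    let m : (ZMod 3)[X] := C γ * X + C δ
    let F := l ^ 6 * m ^ 3
    F.coeff 2 = 0 ∧ F.coeff 4 = 0 ∧ F.coeff 6 = α * (α * δ - β * γ) ∧ F.coeff 8 = 0 := by
  intro l m F
  have hF : F = C (α ^ 2 * γ) * X ^ 9 + C (α ^ 2 * δ + 2 * (α * β * γ)) * X ^ 6 +
      C (2 * (α * β * δ) + β ^ 2 * γ) * X ^ 3 + C (β ^ 2 * δ) := by
    have e : F = (l ^ 3) ^ 2 * m ^ 3 := by
      simp only [F]
      ring
    rw [e, nrb_cube, nrb_cube]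
    simp only [map_mul, map_add, map_pow, map_ofNat]
    ring
  rw [hF]
  simp only [coeff_add, coeff_C_mul, coeff_X_pow, coeff_C]
  refine ⟨by simp, by simp, ?_, by simp⟩
  norm_num
  clear hF
  clear F m l
  revert α β γ δ
  decide

theorem coB3 (α β γ δ : ZMod 3) :
    let l : (ZMod 3)[X] := C α * X + C β
    let m : (ZMod 3)[X] := C γ * X + C δ
    let F := l ^ 8 * m
    F.coeff 2 = α ^ 2 * β ^ 2 * δ + 2 * (α * β * γ) ∧ F.coeff 4 = α ^ 2 * β ^ 2 * δ + 2 * (α * β * γ) ∧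
      F.coeff 6 = α ^ 2 * β ^ 2 * δ + 2 * (α * β * γ) ∧ F.coeff 8 = α * (α * δ - β * γ) := by
  intro l m F
  have hF : F = C (α ^ 4 * γ) * X ^ 9 + C (α ^ 2 * (α ^ 2 * δ + 2 * (α * β * γ))) * X ^ 8 +
      C (α ^ 2 * (2 * (α * β * δ) + β ^ 2 * γ)) * X ^ 7 +
      C (α ^ 2 * (β ^ 2 * δ) + 2 * (α * β) * (α ^ 2 * γ)) * X ^ 6 +
      C (2 * (α * β) * (α ^ 2 * δ + 2 * (α * β * γ))) * X ^ 5 +
      C (2 * (α * β) * (2 * (α * β * δ) + β ^ 2 * γ)) * X ^ 4 +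
      C (2 * (α * β) * (β ^ 2 * δ) + β ^ 2 * (α ^ 2 * γ)) * X ^ 3 +
      C (β ^ 2 * (α ^ 2 * δ + 2 * (α * β * γ))) * X ^ 2 +
      C (β ^ 2 * (2 * (α * β * δ) + β ^ 2 * γ)) * X + C (β ^ 2 * (β ^ 2 * δ)) := by
    have e : F = (l ^ 3) ^ 2 * l ^ 2 * m := by
      simp only [F]
      ring
    rw [e, nrb_cube]
    simp only [l, m, map_mul, map_add, map_pow, map_ofNat]
    ring
  rw [hF]
  simp only [coeff_add, coeff_C_mul, coeff_X_pow, coeff_C, coeff_X]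
  norm_num
  clear hF
  clear F m l
  revert α β γ δ
  decide

end ADP
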