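import Pool.Agent.ADP.NrU
import Pool.Agent.ADP.NrB
import Pool.Agent.ADP.NrG
import Pool.Agent.ADP.Near

/-!
# ADP-NdC3: `CP 3` is not distributive

`NdG` (ADP.NrG) with `K = KC 3`; `c_i = cc 3 i g = ct (2 + 2i) (1 + 2(3-i)) g`, `i = 0, .., 3` (degree 9), `λ1 = c_3`, `λ2 = c_0 - c_1`, `λ3 = c_1 - c_2`: `K1 = {3 ∣ λ1, 3 ∣ λ2}`, `K2 = {3 ∣ λ2, 3 ∣ λ3}`, `K3 = {3 ∣ λ2, 3 ∣ λ1 + λ3}`.
`f1 = X 0^6 * X 1^3`, `f2 = X 0^8 * X 1`.  `ctu` (ADP.NrU): `c_i (u φ(f) v) ≡ ε * (un ..).coeff (2 + 2i)`; with `α, β, γ, δ` as in ADP.NdC5, `l = αX + β`, `m = γX + δ` over `ZMod 3`, `l^3 = αX^3 + β`, `m^3 = γX^3 + δ`: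
`l^6 m^3 = (αT+β)²(γT+δ)`, `T = X^3`: coefficients at `X^2, X^4, X^8` are 0, at `X^6`: `α²δ + 2αβγ = α(αδ-βγ)`.  `l^8 m = (αX+β)²(αT+β)²(γX+δ)`: coefficients at `X^2, X^4, X^6`: `t = α²β²δ + 2αβγ`, at `X^8`: `α(αδ-βγ)` (computation in `ZMod 3`, `α^3 = α`;
checked by computer).  So `f1`: `c = ε (0, 0, αD, 0)`, `λ = ε (0, 0, -αD)`; `f2`: `c = ε (t, t, t, αD)`, `λ = ε (αD, 0, 0)`; sum: `λ1 + λ3 = 0`.
The coefficients are given by `coA3`, `coB3` of ADP.NrB.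
-/

namespace ADP

open AD ADN ADC

private theorem n3_com (a b : ℕ) : com (X 0 ^ a * X 1 ^ b) =
    (MvPolynomial.X 0 ^ a * MvPolynomial.X 1 ^ b : MvPolynomial ℕ ℤ) := by
  simp [com]

private theorem n3_hom (a b : ℕ) : (com (X 0 ^ a * X 1 ^ b)).IsHomogeneous (a + b) := by
  rw [n3_com]
  exact (MvPolynomial.isHomogeneous_X_pow 0 a).mul (MvPolynomial.isHomogeneous_X_pow 1 b)

private theorem n3_un (M : ℕ → ℕ → ZMod 3) (a b : ℕ) : un 3 M (com (X 0 ^ a * X 1 ^ b)) =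
    (Polynomial.C (M 0 0) * Polynomial.X + Polynomial.C (M 0 1)) ^ a *
      (Polynomial.C (M 1 0) * Polynomial.X + Polynomial.C (M 1 1)) ^ b := by
  rw [n3_com]
  unfold un
  rw [MvPolynomial.eval₂_mul, MvPolynomial.eval₂_pow, MvPolynomial.eval₂_pow, MvPolynomial.eval₂_X,
    MvPolynomial.eval₂_X]

private theorem n3_add (i j : ℕ) (f g : P) : ct i j (f + g) = ct i j f + ct i j g := by
  unfold ct
  rw [map_add, MvPolynomial.coeff_add]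

private theorem n3_neg (i j : ℕ) (f : P) : ct i j (-f) = -ct i j f := by
  unfold ct
  rw [map_neg, MvPolynomial.coeff_neg]

private theorem n3_zero (i j : ℕ) : ct i j (0 : P) = 0 := by
  unfold ct
  rw [map_zero, MvPolynomial.coeff_zero]

private noncomputable def n3A (g : P) : ℤ := ct 8 1 g

private noncomputable def n3B (g : P) : ℤ := ct 2 7 g - ct 4 5 g

private noncomputable def n3C (g : P) : ℤ := ct 4 5 g - ct 6 3 g

private theorem n3A_add (f g : P) : n3A (f + g) = n3A f + n3A g := n3_add _ _ _ _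

private theorem n3B_add (f g : P) : n3B (f + g) = n3B f + n3B g := by
  unfold n3B
  rw [n3_add, n3_add]
  ring

private theorem n3C_add (f g : P) : n3C (f + g) = n3C f + n3C g := by
  unfold n3C
  rw [n3_add, n3_add]
  ring

private theorem n3A_neg (f : P) : n3A (-f) = -n3A f := n3_neg _ _ _

private theorem n3B_neg (f : P) : n3B (-f) = -n3B f := by
  unfold n3B
  rw [n3_neg, n3_neg]
  ring

private theorem n3C_neg (f : P) : n3C (-f) = -n3C f := by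
  unfold n3C
  rw [n3_neg, n3_neg]
  ring

private theorem n3A_zero : n3A 0 = 0 := n3_zero _ _

private theorem n3B_zero : n3B 0 = 0 := by
  unfold n3B
  rw [n3_zero, n3_zero, sub_self]

private theorem n3C_zero : n3C 0 = 0 := by
  unfold n3C
  rw [n3_zero, n3_zero, sub_self]

private theorem n3_K (g : P) : g ∈ KC 3 ↔ ((3 : ℤ) ∣ n3A g ∧ (3 : ℤ) ∣ n3B g ∧ (3 : ℤ) ∣ n3C g) := by
  unfold KC
  rw [if_pos rfl]
  exact Iff.rfl

private theorem n3_AddS {L L' : P → ℤ} (h0 : L 0 = 0) (ha : ∀ f g, L (f + g) = L f + L g)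
    (hn : ∀ f, L (-f) = -L f) (h0' : L' 0 = 0) (ha' : ∀ f g, L' (f + g) = L' f + L' g)
    (hn' : ∀ f, L' (-f) = -L' f) : AddS {g | (3 : ℤ) ∣ L g ∧ (3 : ℤ) ∣ L' g} := by
  refine ⟨?_, ?_, ?_⟩
  · show (3 : ℤ) ∣ L 0 ∧ (3 : ℤ) ∣ L' 0
    rw [h0, h0']
    exact ⟨dvd_zero _, dvd_zero _⟩
  · intro f hf g hg
    show (3 : ℤ) ∣ L (f + g) ∧ (3 : ℤ) ∣ L' (f + g)
    rw [ha, ha']
    exact ⟨dvd_add hf.1 hg.1, dvd_add hf.2 hg.2⟩
  · intro f hf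
    show (3 : ℤ) ∣ L (-f) ∧ (3 : ℤ) ∣ L' (-f)
    rw [hn, hn']
    exact ⟨(dvd_neg).2 hf.1, (dvd_neg).2 hf.2⟩

private theorem n3_P {a b : ℕ} (h : 1 ≤ a + b) : (X 0 ^ a * X 1 ^ b : P) ∈ Pp := by
  have e : (X 0 ^ a * X 1 ^ b : P) = mon (List.replicate a 0 ++ List.replicate b 1) := by
    rw [mon_append]
    unfold mon
    rw [List.map_replicate, List.map_replicate, List.prod_replicate, List.prod_replicate]
  have h1 : (X 0 ^ a * X 1 ^ b : P) ∈ Fge 1 := by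
    rw [e]
    refine Submodule.subset_span ⟨_, ?_, rfl⟩
    simp
    omega
  exact (isT_Fge 1 (by omega)).le h1

private theorem n3_val {a b : ℕ} (hab : a + b = 9) {φ : P →ₐ[ℤ] P} (hφ : IsSubst φ) (u v : P) {i j : ℕ}
    (hij : i + j = 9) : ((ct i j (u * φ (X 0 ^ a * X 1 ^ b) * v) : ℤ) : ZMod 3) =
      ((aug u * aug v : ℤ) : ZMod 3) *
        ((Polynomial.C ((cf [0] (φ (X 0)) : ℤ) : ZMod 3) * Polynomial.X +
            Polynomial.C ((cf [1] (φ (X 0)) : ℤ) : ZMod 3)) ^ a *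
          (Polynomial.C ((cf [0] (φ (X 1)) : ℤ) : ZMod 3) * Polynomial.X +
            Polynomial.C ((cf [1] (φ (X 1)) : ℤ) : ZMod 3)) ^ b).coeff i := by
  have hD : (com (X 0 ^ a * X 1 ^ b)).IsHomogeneous 9 := by
    have := n3_hom a b
    rwa [hab] at this
  rw [ctu 3 hD hij hφ u v, n3_un]

theorem NdC3 : ¬ DistOn TI (CP 3) := by
  have hAB := n3_AddS n3A_zero n3A_add n3A_neg n3B_zero n3B_add n3B_neg
  have hBC := n3_AddS n3B_zero n3B_add n3B_neg n3C_zero n3C_add n3C_neg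
  have hBS : AddS {g | (3 : ℤ) ∣ n3B g ∧ (3 : ℤ) ∣ n3A g + n3C g} := by
    refine n3_AddS (L := n3B) (L' := fun g => n3A g + n3C g) n3B_zero n3B_add n3B_neg ?_ ?_ ?_
    · show n3A 0 + n3C 0 = 0
      rw [n3A_zero, n3C_zero, add_zero]
    · intro f g
      show n3A (f + g) + n3C (f + g) = (n3A f + n3C f) + (n3A g + n3C g)
      rw [n3A_add, n3C_add]
      ring
    · intro f
      show n3A (-f) + n3C (-f) = -(n3A f + n3C f)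
      rw [n3A_neg, n3C_neg]
      ring
  have hK : AddS (KC 3) := by
    refine ⟨?_, ?_, ?_⟩
    · rw [n3_K]
      exact ⟨hAB.1.1, hAB.1.2, hBC.1.2⟩
    · intro f hf g hg
      rw [n3_K] at hf hg ⊢
      have h1 := hAB.2.1 f ⟨hf.1, hf.2.1⟩ g ⟨hg.1, hg.2.1⟩
      have h2 := hBC.2.1 f hf.2 g hg.2
      exact ⟨h1.1, h2⟩
    · intro f hf
      rw [n3_K] at hf ⊢
      exact ⟨(hAB.2.2 f ⟨hf.1, hf.2.1⟩).1, hBC.2.2 f hf.2⟩
  have hP1 : (X 0 ^ 6 * X 1 ^ 3 : P) ∈ Pp := n3_P (by omega)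
  have hP2 : (X 0 ^ 8 * X 1 ^ 1 : P) ∈ Pp := n3_P (by omega)
  -- the values
  have v1 : ∀ φ : P →ₐ[ℤ] P, IsSubst φ → ∀ u v : P,
      ((n3A (u * φ (X 0 ^ 6 * X 1 ^ 3) * v) : ℤ) : ZMod 3) = 0 ∧
      ((n3B (u * φ (X 0 ^ 6 * X 1 ^ 3) * v) : ℤ) : ZMod 3) = 0 ∧
      ((n3C (u * φ (X 0 ^ 6 * X 1 ^ 3) * v) : ℤ) : ZMod 3) = -(((aug u * aug v : ℤ) : ZMod 3) *
        (((cf [0] (φ (X 0)) : ℤ) : ZMod 3) *
          (((cf [0] (φ (X 0)) : ℤ) : ZMod 3) * ((cf [1] (φ (X 1)) : ℤ) : ZMod 3) -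
            ((cf [1] (φ (X 0)) : ℤ) : ZMod 3) * ((cf [0] (φ (X 1)) : ℤ) : ZMod 3)))) := by
    intro φ hφ u v
    have e := fun (i j : ℕ) (hij : i + j = 9) => n3_val (a := 6) (b := 3) (by omega) hφ u v hij
    obtain ⟨c2, c4, c6, c8⟩ := coA3 ((cf [0] (φ (X 0)) : ℤ) : ZMod 3) ((cf [1] (φ (X 0)) : ℤ) : ZMod 3)
      ((cf [0] (φ (X 1)) : ℤ) : ZMod 3) ((cf [1] (φ (X 1)) : ℤ) : ZMod 3)
    refine ⟨?_, ?_, ?_⟩
    · unfold n3A
      rw [e 8 1 (by omega), c8, mul_zero]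
    · unfold n3B
      rw [Int.cast_sub, e 2 7 (by omega), e 4 5 (by omega), c2, c4, sub_self]
    · unfold n3C
      rw [Int.cast_sub, e 4 5 (by omega), e 6 3 (by omega), c4, c6]
      ring
  have v2 : ∀ φ : P →ₐ[ℤ] P, IsSubst φ → ∀ u v : P,
      ((n3A (u * φ (X 0 ^ 8 * X 1 ^ 1) * v) : ℤ) : ZMod 3) = ((aug u * aug v : ℤ) : ZMod 3) *
        (((cf [0] (φ (X 0)) : ℤ) : ZMod 3) *
          (((cf [0] (φ (X 0)) : ℤ) : ZMod 3) * ((cf [1] (φ (X 1)) : ℤ) : ZMod 3) -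
            ((cf [1] (φ (X 0)) : ℤ) : ZMod 3) * ((cf [0] (φ (X 1)) : ℤ) : ZMod 3))) ∧
      ((n3B (u * φ (X 0 ^ 8 * X 1 ^ 1) * v) : ℤ) : ZMod 3) = 0 ∧
      ((n3C (u * φ (X 0 ^ 8 * X 1 ^ 1) * v) : ℤ) : ZMod 3) = 0 := by
    intro φ hφ u v
    have e := fun (i j : ℕ) (hij : i + j = 9) => n3_val (a := 8) (b := 1) (by omega) hφ u v hij
    obtain ⟨c2, c4, c6, c8⟩ := coB3 ((cf [0] (φ (X 0)) : ℤ) : ZMod 3) ((cf [1] (φ (X 0)) : ℤ) : ZMod 3)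
      ((cf [0] (φ (X 1)) : ℤ) : ZMod 3) ((cf [1] (φ (X 1)) : ℤ) : ZMod 3)
    simp only [pow_one] at e
    refine ⟨?_, ?_, ?_⟩
    · unfold n3A
      rw [pow_one, e 8 1 (by omega), c8]
    · unfold n3B
      rw [pow_one, Int.cast_sub, e 2 7 (by omega), e 4 5 (by omega), c2, c4, sub_self]
    · unfold n3C
      rw [pow_one, Int.cast_sub, e 4 5 (by omega), e 6 3 (by omega), c4, c6, sub_self]
  have dv : ∀ z : ℤ, ((z : ℤ) : ZMod 3) = 0 → (3 : ℤ) ∣ z := fun z h =>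
    (ZMod.intCast_zmod_eq_zero_iff_dvd z 3).1 h
  refine NdG (K := KC 3) (K1 := {g | (3 : ℤ) ∣ n3A g ∧ (3 : ℤ) ∣ n3B g})
    (K2 := {g | (3 : ℤ) ∣ n3B g ∧ (3 : ℤ) ∣ n3C g}) (K3 := {g | (3 : ℤ) ∣ n3B g ∧ (3 : ℤ) ∣ n3A g + n3C g})
    (f1 := X 0 ^ 6 * X 1 ^ 3) (f2 := X 0 ^ 8 * X 1 ^ 1) hK hAB hBC hBS ?_ ?_ ?_ ?_ ?_ ?_ ?_ ?_ ?_
  · intro g hg
    rw [n3_K] at hg
    exact ⟨hg.1, hg.2.1⟩
  · intro g hg
    rw [n3_K] at hg
    exact hg.2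
  · intro g hg
    rw [n3_K] at hg
    exact ⟨hg.2.1, dvd_add hg.1 hg.2.2⟩
  · intro g hg
    rw [n3_K]
    exact ⟨hg.1.1, hg.2⟩
  · intro g hg
    rw [n3_K]
    refine ⟨hg.1.1, hg.1.2, ?_⟩
    have h := dvd_sub hg.2.2 hg.1.1
    rwa [add_sub_cancel_left] at h
  · refine (LT_iff hAB).2 ⟨hP1, fun φ hφ u v => ?_⟩
    exact ⟨dv _ (v1 φ hφ u v).1, dv _ (v1 φ hφ u v).2.1⟩
  · refine (LT_iff hBC).2 ⟨hP2, fun φ hφ u v => ?_⟩
    exact ⟨dv _ (v2 φ hφ u v).2.1, dv _ (v2 φ hφ u v).2.2⟩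
  · refine (LT_iff hBS).2 ⟨add_mem hP1 hP2, fun φ hφ u v => ?_⟩
    rw [map_add, mul_add, add_mul]
    refine ⟨?_, ?_⟩
    · refine dv _ ?_
      rw [n3B_add, Int.cast_add, (v1 φ hφ u v).2.1, (v2 φ hφ u v).2.1, add_zero]
    · refine dv _ ?_
      rw [n3A_add, n3C_add, Int.cast_add, Int.cast_add, Int.cast_add, (v1 φ hφ u v).1, (v1 φ hφ u v).2.2,
        (v2 φ hφ u v).1, (v2 φ hφ u v).2.2]
      ring
  · intro h
    have h1 := LT_sub hK h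
    rw [n3_K] at h1
    have h2 := (v1 (AlgHom.id ℤ P) (fun i => ADC.aug_X i) 1 1).2.2
    rw [one_mul, mul_one, AlgHom.id_apply] at h2
    have h3 := (ZMod.intCast_zmod_eq_zero_iff_dvd _ 3).2 h1.2.2
    rw [h3] at h2
    have c1 : ∀ i j : ℕ, cf [i] (X j) = if j = i then 1 else 0 := by
      intro i j
      rw [← mon_single, cf_mon]
      simp
    simp [AlgHom.id_apply, c1] at h2

end ADP
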