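import Mathlib

/-!
# ADP-NrA: coefficients of two polynomials over `ZMod p`, `p ≥ 5`

`l = αX + β`, `m = γX + δ` over `ZMod p`.  (Checked by computer for `p = 5, 7, 11`.)
`l^p = αX^p + β`, `m^p = γX^p + δ` (`add_pow_char`, `ZMod.pow_card`).  With `T = X^p`:
`FA = 3 l^(3p-1) m^p - l^(4p-2) m = l^(p-2) (αT+β)^2 (T (3γl - αm) + (3δl - βm))`, `3γl - αm = 2αγ X + (3βγ - αδ)`, `3δl - βm = (3αδ - βγ) X + 2βδ`;
`FB = l^(4p-2) m - l^(3p-1) m^p = l^(p-2) (αT+β)^2 (αδ-βγ) (T - X)`.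
So `F = ∑_(b ≤ 3) T^b g_b`, `g_b = l^(p-2) (a_b X + a_b')` of degree `≤ p - 1`; the coefficient at `a + p b`, `a ≤ p - 1`, is `g_b.coeff a` (`Polynomial.coeff_mul_X_pow'`).  `2 = 2 + 0 p`, `p + 1 = 1 + p`, `2p = 0 + 2p`, `3p-1 = (p-1) + 2p`,
`4p-2 = (p-2) + 3p`.  `FA`: `g_3 = α² l^(p-2) A1`, `g_2 = l^(p-2)(α² A2 + 2αβ A1)`, `g_1 = l^(p-2)(2αβ A2 + β² A1)`, `g_0 = β² l^(p-2) A2` (`A1 = 3γl - αm`, `A2 = 3δl - βm`); `FB`: `αδ-βγ` times `g_3 = α² l^(p-2)`,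
`g_2 = l^(p-2)(2αβ - α² X)`, `g_1 = l^(p-2)(β² - 2αβ X)`, `g_0 = -β² l^(p-2) X`.
`l^(p-2).coeff k = C(p-2,k) α^k β^(p-2-k)`: `k = p-2`: `α^(p-2)`; `k = p-3`: `(p-2) α^(p-3) β = -2 α^(p-3) β`; `k = 0`: `β^(p-2)`; `k = 1`: `-2 α β^(p-3)`; `k = 2`: `C(p-2,2) = (p-2)(p-3)/2`, which is `3` in `ZMod p`: `3 α² β^(p-4)`.
Use `α^p = α` (`ZMod.pow_card`) and `β^p = β`.
-/

namespace ADP

open Polynomial

private theorem nr_coeff {K : Type*} [CommRing K] (α β : K) (n k : ℕ) :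
    ((C α * X + C β : K[X]) ^ n).coeff k = β ^ (n - k) * (n.choose k : K) * α ^ k := by
  have e : (C α * X + C β : K[X]) = (X + C β).comp (C α * X) := by simp
  rw [e, ← pow_comp, comp_C_mul_X_coeff, coeff_X_add_C_pow]

private theorem nr_lin {K : Type*} [CommRing K] (L : K[X]) (u v : K) (k : ℕ) :
    (L * (C u * X + C v)).coeff (k + 1) = u * L.coeff k + v * L.coeff (k + 1) := by
  have e : L * (C u * X + C v) = C u * (L * X) + C v * L := by ring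
  rw [e, coeff_add, coeff_C_mul, coeff_C_mul, coeff_mul_X]

private theorem nr_lin0 {K : Type*} [CommRing K] (L : K[X]) (u v : K) :
    (L * (C u * X + C v)).coeff 0 = v * L.coeff 0 := by
  have e : L * (C u * X + C v) = C u * (L * X) + C v * L := by ring
  rw [e, coeff_add, coeff_C_mul, coeff_C_mul, coeff_mul_X_zero, mul_zero, zero_add]

private theorem nr_main {q : ℕ} {K : Type*} [CommRing K] (L : K[X]) (hL : ∀ k, q + 3 < k → L.coeff k = 0)
    {u0 v0 u1 v1 u2 v2 u3 v3 : K} {F : K[X]}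
    (hF : F = L * (C u0 * X + C v0) + X ^ (q + 5) * (L * (C u1 * X + C v1)) +
      X ^ (2 * (q + 5)) * (L * (C u2 * X + C v2)) + X ^ (3 * (q + 5)) * (L * (C u3 * X + C v3))) :
    F.coeff 2 = u0 * L.coeff 1 + v0 * L.coeff 2 ∧ F.coeff (q + 6) = u1 * L.coeff 0 + v1 * L.coeff 1 ∧
      F.coeff (2 * (q + 5)) = v2 * L.coeff 0 ∧ F.coeff (3 * q + 14) = u2 * L.coeff (q + 3) ∧
      F.coeff (4 * q + 18) = u3 * L.coeff (q + 2) + v3 * L.coeff (q + 3) := by
  have hG : ∀ (u v : K) (k : ℕ), q + 5 ≤ k → (L * (C u * X + C v)).coeff k = 0 := by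
    intro u v k hk
    obtain ⟨j, rfl⟩ : ∃ j, k = j + 1 := ⟨k - 1, by omega⟩
    rw [nr_lin, hL j (by omega), hL (j + 1) (by omega), mul_zero, mul_zero, add_zero]
  have hc : ∀ n, F.coeff n = (L * (C u0 * X + C v0)).coeff n +
      (if q + 5 ≤ n then (L * (C u1 * X + C v1)).coeff (n - (q + 5)) else 0) +
      (if 2 * (q + 5) ≤ n then (L * (C u2 * X + C v2)).coeff (n - 2 * (q + 5)) else 0) +
      (if 3 * (q + 5) ≤ n then (L * (C u3 * X + C v3)).coeff (n - 3 * (q + 5)) else 0) := by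
    intro n
    rw [hF, coeff_add, coeff_add, coeff_add, coeff_X_pow_mul', coeff_X_pow_mul', coeff_X_pow_mul']
  refine ⟨?_, ?_, ?_, ?_, ?_⟩
  · rw [hc, if_neg (by omega), if_neg (by omega), if_neg (by omega), nr_lin, add_zero, add_zero, add_zero]
  · rw [hc, hG _ _ _ (by omega), if_pos (by omega), if_neg (by omega), if_neg (by omega), zero_add, add_zero,
      add_zero, show q + 6 - (q + 5) = 0 + 1 by omega, nr_lin]
  · rw [hc, hG _ _ _ (by omega), if_pos (by omega), hG _ _ _ (by omega), if_pos le_rfl, if_neg (by omega),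
      zero_add, zero_add, add_zero, Nat.sub_self, nr_lin0]
  · rw [hc, hG _ _ _ (by omega), if_pos (by omega), hG _ _ _ (by omega), if_pos (by omega), if_neg (by omega),
      zero_add, zero_add, add_zero, show 3 * q + 14 - 2 * (q + 5) = (q + 3) + 1 by omega, nr_lin,
      hL (q + 3 + 1) (by omega), mul_zero, add_zero]
  · rw [hc, hG _ _ _ (by omega), if_pos (by omega), hG _ _ _ (by omega), if_pos (by omega),
      hG _ _ _ (by omega), if_pos (by omega), zero_add, zero_add, zero_add,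
      show 4 * q + 18 - 3 * (q + 5) = (q + 2) + 1 by omega, nr_lin]

/-- the values -/
private theorem nr_val {q : ℕ} (hp : (q + 5).Prime) (α β : ZMod (q + 5)) :
    let L : (ZMod (q + 5))[X] := (C α * X + C β) ^ (q + 3)
    (∀ k, q + 3 < k → L.coeff k = 0) ∧ L.coeff 0 = β ^ (q + 3) ∧ L.coeff 1 = -2 * α * β ^ (q + 2) ∧
      L.coeff 2 = 3 * α ^ 2 * β ^ (q + 1) ∧ L.coeff (q + 2) = -2 * α ^ (q + 2) * β ∧
      L.coeff (q + 3) = α ^ (q + 3) := by
  intro L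
  have : Fact (q + 5).Prime := ⟨hp⟩
  have hq : (q : ZMod (q + 5)) = -5 := by
    have h := ZMod.natCast_self (q + 5)
    push_cast at h
    linear_combination h
  have h2 : (2 : ZMod (q + 5)) ≠ 0 := by
    intro h
    have h4 : ((2 : ℕ) : ZMod (q + 5)) = 0 := by exact_mod_cast h
    rw [ZMod.natCast_eq_zero_iff] at h4
    have := Nat.le_of_dvd (by norm_num) h4
    omega
  have hc2 : (((q + 3).choose 2 : ℕ) : ZMod (q + 5)) = 3 := by
    have h : (q + 3) * (q + 2) = (q + 3).choose 2 * 2 := by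
      have h := Nat.add_one_mul_choose_eq (q + 2) 1
      rw [Nat.choose_one_right] at h
      exact h
    have h' : (((q + 3) * (q + 2) : ℕ) : ZMod (q + 5)) = (((q + 3).choose 2 * 2 : ℕ) : ZMod (q + 5)) := by rw [h]
    rw [Nat.cast_mul, Nat.cast_mul] at h'
    have e1 : ((q + 3 : ℕ) : ZMod (q + 5)) = -2 := by
      push_cast
      rw [hq]
      ring
    have e2 : ((q + 2 : ℕ) : ZMod (q + 5)) = -3 := by
      push_cast
      rw [hq]
      ring
    have e3 : ((2 : ℕ) : ZMod (q + 5)) = 2 := by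
      norm_num
    rw [e1, e2, e3] at h'
    have h5 : 2 * ((((q + 3).choose 2 : ℕ) : ZMod (q + 5)) - 3) = 0 := by
      linear_combination -h'
    rcases mul_eq_zero.1 h5 with h6 | h6
    · exact absurd h6 h2
    · exact sub_eq_zero.1 h6
  refine ⟨fun k hk => ?_, ?_, ?_, ?_, ?_, ?_⟩
  · show ((C α * X + C β) ^ (q + 3)).coeff k = 0
    rw [nr_coeff, Nat.choose_eq_zero_of_lt hk, Nat.cast_zero, mul_zero, zero_mul]
  · show ((C α * X + C β) ^ (q + 3)).coeff 0 = _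
    rw [nr_coeff, Nat.choose_zero_right, Nat.cast_one, mul_one, pow_zero, mul_one, Nat.sub_zero]
  · show ((C α * X + C β) ^ (q + 3)).coeff 1 = _
    rw [nr_coeff, Nat.choose_one_right, show q + 3 - 1 = q + 2 by omega]
    push_cast
    rw [hq]
    ring
  · show ((C α * X + C β) ^ (q + 3)).coeff 2 = _
    rw [nr_coeff, hc2, show q + 3 - 2 = q + 1 by omega]
    ring
  · show ((C α * X + C β) ^ (q + 3)).coeff (q + 2) = _
    rw [nr_coeff, show q + 3 - (q + 2) = 1 by omega, Nat.choose_succ_self_right]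
    push_cast
    rw [hq]
    ring
  · show ((C α * X + C β) ^ (q + 3)).coeff (q + 3) = _
    rw [nr_coeff, Nat.sub_self, Nat.choose_self, Nat.cast_one, pow_zero, mul_one, one_mul]

private theorem nr_pow {q : ℕ} (hp : (q + 5).Prime) (α β : ZMod (q + 5)) :
    (C α * X + C β : (ZMod (q + 5))[X]) ^ (q + 5) = C α * X ^ (q + 5) + C β := by
  have : Fact (q + 5).Prime := ⟨hp⟩
  rw [add_pow_char, mul_pow, ← C_pow, ← C_pow, ZMod.pow_card, ZMod.pow_card]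

theorem coA {p : ℕ} (hp : p.Prime) (h5 : 5 ≤ p) (α β γ δ : ZMod p) :
    let l : (ZMod p)[X] := C α * X + C β
    let m : (ZMod p)[X] := C γ * X + C δ
    let F := 3 * (l ^ (3 * p - 1) * m ^ p) - l ^ (4 * p - 2) * m
    F.coeff (2 + (p - 1) * 0) = 2 * (α * β * γ) ∧ F.coeff (2 + (p - 1) * 1) = -6 * (α * β * γ) ∧
      F.coeff (2 + (p - 1) * 2) = 6 * (α * β * γ) ∧ F.coeff (2 + (p - 1) * 3) = 3 * (α ^ 2 * δ + α * β * γ) ∧
      F.coeff (2 + (p - 1) * 4) = -(α ^ 2 * δ + α * β * γ) := by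
  obtain ⟨q, rfl⟩ : ∃ q, p = q + 5 := ⟨p - 5, by omega⟩
  intro l m F
  have : Fact (q + 5).Prime := ⟨hp⟩
  obtain ⟨hL, c0, c1, c2, cq2, cq3⟩ := nr_val hp α β
  obtain ⟨L, hLd⟩ : ∃ L : (ZMod (q + 5))[X], L = (C α * X + C β) ^ (q + 3) := ⟨_, rfl⟩
  rw [← hLd] at hL c0 c1 c2 cq2 cq3
  have hα : α ^ (q + 5) = α := ZMod.pow_card α
  have hβ : β ^ (q + 5) = β := ZMod.pow_card β
  have hF : F = L * (C (β ^ 2 * (3 * α * δ - β * γ)) * X + C (2 * β ^ 3 * δ)) +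
      X ^ (q + 5) * (L * (C (2 * α * β * (3 * α * δ - β * γ) + β ^ 2 * (2 * α * γ)) * X +
        C (2 * α * β * (2 * β * δ) + β ^ 2 * (3 * β * γ - α * δ)))) +
      X ^ (2 * (q + 5)) * (L * (C (α ^ 2 * (3 * α * δ - β * γ) + 2 * α * β * (2 * α * γ)) * X +
        C (α ^ 2 * (2 * β * δ) + 2 * α * β * (3 * β * γ - α * δ)))) +
      X ^ (3 * (q + 5)) * (L * (C (α ^ 2 * (2 * α * γ)) * X + C (α ^ 2 * (3 * β * γ - α * δ)))) := by
    show 3 * ((C α * X + C β) ^ (3 * (q + 5) - 1) * (C γ * X + C δ) ^ (q + 5)) -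
      (C α * X + C β) ^ (4 * (q + 5) - 2) * (C γ * X + C δ) = _
    rw [show 3 * (q + 5) - 1 = (q + 3) + 1 + (q + 5) * 2 by omega,
      show 4 * (q + 5) - 2 = (q + 3) + (q + 5) * 3 by omega, pow_add, pow_add, pow_add _ (q + 3) ((q + 5) * 3),
      pow_mul, pow_mul, nr_pow hp, nr_pow hp, ← hLd]
    simp only [C_mul, C_add, C_sub, C_pow, map_ofNat]
    ring
  obtain ⟨f0, f1, f2, f3, f4⟩ := nr_main L hL hF
  refine ⟨?_, ?_, ?_, ?_, ?_⟩
  · rw [show 2 + (q + 5 - 1) * 0 = 2 by omega, f0, c1, c2]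
    linear_combination (2 * α * γ) * hβ
  · rw [show 2 + (q + 5 - 1) * 1 = q + 6 by omega, f1, c0, c1]
    linear_combination (-6 * α * γ) * hβ
  · rw [show 2 + (q + 5 - 1) * 2 = 2 * (q + 5) by omega, f2, c0]
    linear_combination (6 * α * γ) * hβ
  · rw [show 2 + (q + 5 - 1) * 3 = 3 * q + 14 by omega, f3, cq3]
    linear_combination (3 * α * δ + 3 * β * γ) * hα
  · rw [show 2 + (q + 5 - 1) * 4 = 4 * q + 18 by omega, f4, cq2, cq3]
    linear_combination (-(β * γ + α * δ)) * hα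

theorem coB {p : ℕ} (hp : p.Prime) (h5 : 5 ≤ p) (α β γ δ : ZMod p) :
    let l : (ZMod p)[X] := C α * X + C β
    let m : (ZMod p)[X] := C γ * X + C δ
    let F := l ^ (4 * p - 2) * m - l ^ (3 * p - 1) * m ^ p
    F.coeff (2 + (p - 1) * 0) = (α * δ - β * γ) * (2 * α * β ^ (p - 1)) ∧
      F.coeff (2 + (p - 1) * 1) = (α * δ - β * γ) * (-4 * α * β ^ (p - 1)) ∧
      F.coeff (2 + (p - 1) * 2) = (α * δ - β * γ) * (2 * α * β ^ (p - 1)) ∧
      F.coeff (2 + (p - 1) * 3) = -((α * δ - β * γ) * α) ∧ F.coeff (2 + (p - 1) * 4) = (α * δ - β * γ) * α := by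
  obtain ⟨q, rfl⟩ : ∃ q, p = q + 5 := ⟨p - 5, by omega⟩
  intro l m F
  have : Fact (q + 5).Prime := ⟨hp⟩
  obtain ⟨hL, c0, c1, c2, cq2, cq3⟩ := nr_val hp α β
  obtain ⟨L, hLd⟩ : ∃ L : (ZMod (q + 5))[X], L = (C α * X + C β) ^ (q + 3) := ⟨_, rfl⟩
  rw [← hLd] at hL c0 c1 c2 cq2 cq3
  have hα : α ^ (q + 5) = α := ZMod.pow_card α
  obtain ⟨D, hD⟩ : ∃ D, D = α * δ - β * γ := ⟨_, rfl⟩
  have hF : F = L * (C (-(D * β ^ 2)) * X + C 0) +
      X ^ (q + 5) * (L * (C (-(2 * α * β * D)) * X + C (D * β ^ 2))) +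
      X ^ (2 * (q + 5)) * (L * (C (-(α ^ 2 * D)) * X + C (2 * α * β * D))) +
      X ^ (3 * (q + 5)) * (L * (C 0 * X + C (D * α ^ 2))) := by
    show (C α * X + C β) ^ (4 * (q + 5) - 2) * (C γ * X + C δ) -
      (C α * X + C β) ^ (3 * (q + 5) - 1) * (C γ * X + C δ) ^ (q + 5) = _
    rw [show 3 * (q + 5) - 1 = (q + 3) + 1 + (q + 5) * 2 by omega,
      show 4 * (q + 5) - 2 = (q + 3) + (q + 5) * 3 by omega, pow_add, pow_add _ (q + 3 + 1), pow_add _ (q + 3) 1,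
      pow_mul, pow_mul, nr_pow hp, nr_pow hp, ← hLd, hD]
    simp only [C_mul, C_add, C_sub, C_neg, C_pow, map_ofNat, C_0]
    ring
  rw [← hD]
  obtain ⟨f0, f1, f2, f3, f4⟩ := nr_main L hL hF
  rw [show q + 5 - 1 = q + 4 by omega]
  refine ⟨?_, ?_, ?_, ?_, ?_⟩
  · rw [show 2 + (q + 4) * 0 = 2 by omega, f0, c1]
    ring
  · rw [show 2 + (q + 4) * 1 = q + 6 by omega, f1, c0, c1]
    ring
  · rw [show 2 + (q + 4) * 2 = 2 * (q + 5) by omega, f2, c0]
    ring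
  · rw [show 2 + (q + 4) * 3 = 3 * q + 14 by omega, f3, cq3]
    linear_combination (-D) * hα
  · rw [show 2 + (q + 4) * 4 = 4 * q + 18 by omega, f4, cq2, cq3]
    linear_combination D * hα

end ADP
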