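import Pool.Agent.ADP.NrU
import Pool.Agent.ADP.NrA
import Pool.Agent.ADP.NrG
import Pool.Agent.ADP.Near

/-!
# ADP-NdC5: `CP p`, `p ≥ 5`, is not distributive

`NdG` (ADP.NrG) with `K = KC p`; with `λ1 = c_3 + 3c_4`, `λ2 = c_0 + c_1 + c_2 + c_4`, `λ3 = c_2 - c_0 + 2c_4`, `c_i = cc p i g`: `K1 = {p ∣ λ1, p ∣ λ3 - 2λ2}`, `K2 = {p ∣ λ1 - λ3, p ∣ λ1 - 2λ2}`, `K3 = {p ∣ λ2, p ∣ λ3}`; `K1 ∩ K2 = K1 ∩ K3 = KC p` (`p ≠ 2`).
`f1 = 3 • (X 0^(3p-1) * X 1^p) - X 0^(4p-2) * X 1`, `f2 = X 0^(4p-2) * X 1 - X 0^(3p-1) * X 1^p`; `com f1`, `com f2` are homogeneous of degree `D = 4p - 1 = (2 + (p-1)i) + (1 + (p-1)(4-i))`.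
`f ∈ LT K ↔ ..` (`LT_iff`); by `ctu` (ADP.NrU) `cc p i (u φ(f) v) ≡ ε * (un ..).coeff (2 + (p-1)i)`, `ε = aug u * aug v`, and `un` of `com f1` is the polynomial `F` of `coA` (ADP.NrA), `α = cf [0] (φ (X 0))`, `β = cf [1] (φ (X 0))`, `γ = cf [0] (φ (X 1))`, `δ = cf [1] (φ (X 1))`;
`t = αβγ`, `s = α²δ + αβγ`, `D = αδ - βγ`:  `f1`: `c = ε (2t, -6t, 6t, 3s, -s)`: `λ1 = 0`, `λ2 = ε (2t - s)`, `λ3 = ε (4t - 2s)`.  `f2`: `c = εD (2αβ', -4αβ', 2αβ', -α, α)`, `β' = β^(p-1)`: `λ = εD (2α, α, 2α)`.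
`f1 + f2`: sums: `λ2 = ε (2t - s + αD) = 0`, `λ3 = 2λ2 = 0`.  `f1 ∉ CP p`: `LT_sub`, `cc p i f1 = 0, 0, 0, 3, -1`, `λ2 = -1`.
-/

namespace ADP

open AD ADN ADC

private theorem nd5_ct_add (i j : ℕ) (f g : P) : ct i j (f + g) = ct i j f + ct i j g := by
  unfold ct
  rw [map_add, MvPolynomial.coeff_add]

private theorem nd5_ct_neg (i j : ℕ) (f : P) : ct i j (-f) = -ct i j f := by
  unfold ct
  rw [map_neg, MvPolynomial.coeff_neg]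

private theorem nd5_ct_zero (i j : ℕ) : ct i j 0 = 0 := by
  unfold ct
  rw [map_zero, MvPolynomial.coeff_zero]

/-- an integral combination of the functionals -/
private noncomputable def nL (p : ℕ) (a0 a1 a2 a3 a4 : ℤ) (g : P) : ℤ :=
  a0 * cc p 0 g + a1 * cc p 1 g + a2 * cc p 2 g + a3 * cc p 3 g + a4 * cc p 4 g

private theorem nL_add (p : ℕ) (a0 a1 a2 a3 a4 : ℤ) (f g : P) :
    nL p a0 a1 a2 a3 a4 (f + g) = nL p a0 a1 a2 a3 a4 f + nL p a0 a1 a2 a3 a4 g := by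
  unfold nL cc
  simp only [nd5_ct_add]
  ring

private theorem nL_neg (p : ℕ) (a0 a1 a2 a3 a4 : ℤ) (f : P) :
    nL p a0 a1 a2 a3 a4 (-f) = -nL p a0 a1 a2 a3 a4 f := by
  unfold nL cc
  simp only [nd5_ct_neg]
  ring

private theorem nL_zero (p : ℕ) (a0 a1 a2 a3 a4 : ℤ) : nL p a0 a1 a2 a3 a4 0 = 0 := by
  unfold nL cc
  simp only [nd5_ct_zero]
  ring

private theorem nL_addS (p : ℕ) (a0 a1 a2 a3 a4 : ℤ) : AddS {g | (p : ℤ) ∣ nL p a0 a1 a2 a3 a4 g} := by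
  refine ⟨?_, ?_, ?_⟩
  · show (p : ℤ) ∣ nL p a0 a1 a2 a3 a4 0
    rw [nL_zero]
    exact dvd_zero _
  · intro f hf g hg
    show (p : ℤ) ∣ nL p a0 a1 a2 a3 a4 (f + g)
    rw [nL_add]
    exact dvd_add hf hg
  · intro f hf
    show (p : ℤ) ∣ nL p a0 a1 a2 a3 a4 (-f)
    rw [nL_neg]
    exact (dvd_neg).2 hf

private theorem nd5_inter {K K' : Set P} (h : AddS K) (h' : AddS K') : AddS (K ∩ K') :=
  ⟨⟨h.1, h'.1⟩, fun f hf g hg => ⟨h.2.1 f hf.1 g hg.1, h'.2.1 f hf.2 g hg.2⟩,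
    fun f hf => ⟨h.2.2 f hf.1, h'.2.2 f hf.2⟩⟩

private theorem nL_val {p : ℕ} (h5 : 5 ≤ p) {f : P} (hf : (com f).IsHomogeneous (4 * p - 1))
    {φ : P →ₐ[ℤ] P} (hφ : IsSubst φ) (u v : P) (a0 a1 a2 a3 a4 : ℤ) :
    ((nL p a0 a1 a2 a3 a4 (u * φ f * v) : ℤ) : ZMod p) = ((aug u * aug v : ℤ) : ZMod p) *
      (a0 * (un p (fun j i => ((cf [i] (φ (X j)) : ℤ) : ZMod p)) (com f)).coeff (2 + (p - 1) * 0) +
        a1 * (un p (fun j i => ((cf [i] (φ (X j)) : ℤ) : ZMod p)) (com f)).coeff (2 + (p - 1) * 1) +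
        a2 * (un p (fun j i => ((cf [i] (φ (X j)) : ℤ) : ZMod p)) (com f)).coeff (2 + (p - 1) * 2) +
        a3 * (un p (fun j i => ((cf [i] (φ (X j)) : ℤ) : ZMod p)) (com f)).coeff (2 + (p - 1) * 3) +
        a4 * (un p (fun j i => ((cf [i] (φ (X j)) : ℤ) : ZMod p)) (com f)).coeff (2 + (p - 1) * 4)) := by
  have h3 : p ≠ 3 := by omega
  have hc : ∀ i ≤ 4, ((cc p i (u * φ f * v) : ℤ) : ZMod p) = ((aug u * aug v : ℤ) : ZMod p) *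
      (un p (fun j i => ((cf [i] (φ (X j)) : ℤ) : ZMod p)) (com f)).coeff (2 + (p - 1) * i) := by
    intro i hi
    unfold cc
    rw [if_neg h3]
    refine ctu p hf ?_ hφ u v
    obtain ⟨q, rfl⟩ : ∃ q, p = q + 1 := ⟨p - 1, by omega⟩
    have e1 : q + 1 - 1 = q := by omega
    rw [e1]
    have e2 : q * i + q * (4 - i) = q * 4 := by
      rw [← Nat.mul_add]
      congr 1
      omega
    omega
  unfold nL
  push_cast
  rw [hc 0 (by omega), hc 1 (by omega), hc 2 (by omega), hc 3 (by omega), hc 4 (by omega)]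
  push_cast
  ring

private noncomputable def fA (p : ℕ) : P := (3 : ℤ) • (X 0 ^ (3 * p - 1) * X 1 ^ p) - X 0 ^ (4 * p - 2) * X 1

private noncomputable def fB (p : ℕ) : P := X 0 ^ (4 * p - 2) * X 1 - X 0 ^ (3 * p - 1) * X 1 ^ p

private theorem com_X (i : ℕ) : com (X i) = MvPolynomial.X i := by simp [com]

private theorem com_fA (p : ℕ) : com (fA p) =
    MvPolynomial.C 3 * (MvPolynomial.X 0 ^ (3 * p - 1) * MvPolynomial.X 1 ^ p) -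
      MvPolynomial.X 0 ^ (4 * p - 2) * MvPolynomial.X 1 := by
  unfold fA
  rw [map_sub, map_zsmul, map_mul, map_mul, map_pow, map_pow, map_pow, com_X, com_X,
    ← MvPolynomial.C_mul']

private theorem com_fB (p : ℕ) : com (fB p) =
    MvPolynomial.X 0 ^ (4 * p - 2) * MvPolynomial.X 1 -
      MvPolynomial.X 0 ^ (3 * p - 1) * MvPolynomial.X 1 ^ p := by
  unfold fB
  rw [map_sub, map_mul, map_mul, map_pow, map_pow, map_pow, com_X, com_X]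

private theorem hom1 {p : ℕ} (h5 : 5 ≤ p) : (MvPolynomial.X 0 ^ (3 * p - 1) * MvPolynomial.X 1 ^ p :
    MvPolynomial ℕ ℤ).IsHomogeneous (4 * p - 1) := by
  have h := (MvPolynomial.isHomogeneous_X_pow (R := ℤ) (0 : ℕ) (3 * p - 1)).mul
    (MvPolynomial.isHomogeneous_X_pow (R := ℤ) (1 : ℕ) p)
  have e : 3 * p - 1 + p = 4 * p - 1 := by omega
  rwa [e] at h

private theorem hom2 {p : ℕ} (h5 : 5 ≤ p) : (MvPolynomial.X 0 ^ (4 * p - 2) * MvPolynomial.X 1 :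
    MvPolynomial ℕ ℤ).IsHomogeneous (4 * p - 1) := by
  have h := (MvPolynomial.isHomogeneous_X_pow (R := ℤ) (0 : ℕ) (4 * p - 2)).mul
    (MvPolynomial.isHomogeneous_X (R := ℤ) (1 : ℕ))
  have e : 4 * p - 2 + 1 = 4 * p - 1 := by omega
  rwa [e] at h

private theorem homA {p : ℕ} (h5 : 5 ≤ p) : (com (fA p)).IsHomogeneous (4 * p - 1) := by
  rw [com_fA]
  have h := (MvPolynomial.isHomogeneous_C (σ := ℕ) (3 : ℤ)).mul (hom1 h5)
  rw [zero_add] at h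
  exact h.sub (hom2 h5)

private theorem homB {p : ℕ} (h5 : 5 ≤ p) : (com (fB p)).IsHomogeneous (4 * p - 1) := by
  rw [com_fB]
  exact (hom2 h5).sub (hom1 h5)

private theorem un_fA (p : ℕ) (M : ℕ → ℕ → ZMod p) : un p M (com (fA p)) =
    3 * ((Polynomial.C (M 0 0) * Polynomial.X + Polynomial.C (M 0 1)) ^ (3 * p - 1) *
      (Polynomial.C (M 1 0) * Polynomial.X + Polynomial.C (M 1 1)) ^ p) -
      (Polynomial.C (M 0 0) * Polynomial.X + Polynomial.C (M 0 1)) ^ (4 * p - 2) *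
        (Polynomial.C (M 1 0) * Polynomial.X + Polynomial.C (M 1 1)) := by
  rw [com_fA]
  unfold un
  rw [MvPolynomial.eval₂_sub, MvPolynomial.eval₂_mul, MvPolynomial.eval₂_mul, MvPolynomial.eval₂_mul,
    MvPolynomial.eval₂_pow, MvPolynomial.eval₂_pow, MvPolynomial.eval₂_pow, MvPolynomial.eval₂_X,
    MvPolynomial.eval₂_X, MvPolynomial.eval₂_C]
  simp

private theorem un_fB (p : ℕ) (M : ℕ → ℕ → ZMod p) : un p M (com (fB p)) =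
    (Polynomial.C (M 0 0) * Polynomial.X + Polynomial.C (M 0 1)) ^ (4 * p - 2) *
        (Polynomial.C (M 1 0) * Polynomial.X + Polynomial.C (M 1 1)) -
      (Polynomial.C (M 0 0) * Polynomial.X + Polynomial.C (M 0 1)) ^ (3 * p - 1) *
      (Polynomial.C (M 1 0) * Polynomial.X + Polynomial.C (M 1 1)) ^ p := by
  rw [com_fB]
  unfold un
  rw [MvPolynomial.eval₂_sub, MvPolynomial.eval₂_mul, MvPolynomial.eval₂_mul,
    MvPolynomial.eval₂_pow, MvPolynomial.eval₂_pow, MvPolynomial.eval₂_pow, MvPolynomial.eval₂_X,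
    MvPolynomial.eval₂_X]

private theorem val_fA {p : ℕ} (hp : p.Prime) (h5 : 5 ≤ p) {φ : P →ₐ[ℤ] P} (hφ : IsSubst φ) (u v : P)
    (a0 a1 a2 a3 a4 : ℤ) : ∃ e t s : ZMod p, e = ((aug u * aug v : ℤ) : ZMod p) ∧
      t = ((cf [0] (φ (X 0)) : ℤ) : ZMod p) * ((cf [1] (φ (X 0)) : ℤ) : ZMod p) *
        ((cf [0] (φ (X 1)) : ℤ) : ZMod p) ∧
      s = ((cf [0] (φ (X 0)) : ℤ) : ZMod p) ^ 2 * ((cf [1] (φ (X 1)) : ℤ) : ZMod p) + t ∧
      ((nL p a0 a1 a2 a3 a4 (u * φ (fA p) * v) : ℤ) : ZMod p) =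
        e * (a0 * (2 * t) + a1 * (-6 * t) + a2 * (6 * t) + a3 * (3 * s) + a4 * (-s)) := by
  refine ⟨_, _, _, rfl, rfl, rfl, ?_⟩
  have h := coA hp h5 ((cf [0] (φ (X 0)) : ℤ) : ZMod p) ((cf [1] (φ (X 0)) : ℤ) : ZMod p)
    ((cf [0] (φ (X 1)) : ℤ) : ZMod p) ((cf [1] (φ (X 1)) : ℤ) : ZMod p)
  rw [nL_val h5 (homA h5) hφ, un_fA]
  obtain ⟨h0, h1, h2, h3, h4⟩ := h
  rw [h0, h1, h2, h3, h4]

private theorem val_fB {p : ℕ} (hp : p.Prime) (h5 : 5 ≤ p) {φ : P →ₐ[ℤ] P} (hφ : IsSubst φ) (u v : P)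
    (a0 a1 a2 a3 a4 : ℤ) : ∃ e α D b : ZMod p, e = ((aug u * aug v : ℤ) : ZMod p) ∧
      α = ((cf [0] (φ (X 0)) : ℤ) : ZMod p) ∧
      D = α * ((cf [1] (φ (X 1)) : ℤ) : ZMod p) - ((cf [1] (φ (X 0)) : ℤ) : ZMod p) *
        ((cf [0] (φ (X 1)) : ℤ) : ZMod p) ∧
      ((nL p a0 a1 a2 a3 a4 (u * φ (fB p) * v) : ℤ) : ZMod p) =
        e * (a0 * (D * (2 * α * b)) + a1 * (D * (-4 * α * b)) + a2 * (D * (2 * α * b)) +
          a3 * (-(D * α)) + a4 * (D * α)) := by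
  refine ⟨_, _, _, ((cf [1] (φ (X 0)) : ℤ) : ZMod p) ^ (p - 1), rfl, rfl, rfl, ?_⟩
  have h := coB hp h5 ((cf [0] (φ (X 0)) : ℤ) : ZMod p) ((cf [1] (φ (X 0)) : ℤ) : ZMod p)
    ((cf [0] (φ (X 1)) : ℤ) : ZMod p) ((cf [1] (φ (X 1)) : ℤ) : ZMod p)
  rw [nL_val h5 (homB h5) hφ, un_fB]
  obtain ⟨h0, h1, h2, h3, h4⟩ := h
  rw [h0, h1, h2, h3, h4]

private theorem nd5_dvd {p : ℕ} {a : ℤ} (h : ((a : ℤ) : ZMod p) = 0) : (p : ℤ) ∣ a :=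
  (ZMod.intCast_zmod_eq_zero_iff_dvd a p).1 h

private theorem X_mul_Pp {f : P} (h : aug f = 0) : f ∈ Pp := LinearMap.mem_ker.2 h

private theorem fA_Pp {p : ℕ} (h5 : 5 ≤ p) : fA p ∈ Pp := by
  apply X_mul_Pp
  have h1 : 3 * p - 1 ≠ 0 := by omega
  have h2 : 4 * p - 2 ≠ 0 := by omega
  have h3 : aug (X 0) = 0 := by simp [aug]
  have h4 : aug (X 1) = 0 := by simp [aug]
  unfold fA
  rw [map_sub, map_zsmul, map_mul, map_mul, map_pow, map_pow, map_pow, h3, h4, zero_pow h1, zero_mul,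
    smul_zero, mul_zero, sub_zero]

private theorem fB_Pp {p : ℕ} (h5 : 5 ≤ p) : fB p ∈ Pp := by
  apply X_mul_Pp
  have h1 : 3 * p - 1 ≠ 0 := by omega
  have h2 : 4 * p - 2 ≠ 0 := by omega
  have h3 : aug (X 0) = 0 := by simp [aug]
  have h4 : aug (X 1) = 0 := by simp [aug]
  unfold fB
  rw [map_sub, map_mul, map_mul, map_pow, map_pow, map_pow, h3, h4, zero_pow h1, zero_mul,
    mul_zero, sub_zero]

theorem NdC5 {p : ℕ} (hp : p.Prime) (h5 : 5 ≤ p) : ¬ DistOn TI (CP p) := by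
  have : Fact p.Prime := ⟨hp⟩
  have h3 : p ≠ 3 := by omega
  have hKC : KC p = {g | (p : ℤ) ∣ nL p 0 0 0 1 3 g} ∩ ({g | (p : ℤ) ∣ nL p 1 1 1 0 1 g} ∩
      {g | (p : ℤ) ∣ nL p (-1) 0 1 0 2 g}) := by
    ext g
    unfold KC
    rw [if_neg h3]
    show (_ ∧ _ ∧ _) ↔ (_ ∧ _ ∧ _)
    have e1 : nL p 0 0 0 1 3 g = cc p 3 g + 3 * cc p 4 g := by unfold nL; ring
    have e2 : nL p 1 1 1 0 1 g = cc p 0 g + cc p 1 g + cc p 2 g + cc p 4 g := by unfold nL; ring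
    have e3 : nL p (-1) 0 1 0 2 g = cc p 2 g - cc p 0 g + 2 * cc p 4 g := by unfold nL; ring
    show _ ↔ ((p : ℤ) ∣ nL p 0 0 0 1 3 g ∧ (p : ℤ) ∣ nL p 1 1 1 0 1 g ∧ (p : ℤ) ∣ nL p (-1) 0 1 0 2 g)
    rw [e1, e2, e3]
  have hodd : ∀ x : ℤ, (p : ℤ) ∣ 2 * x → (p : ℤ) ∣ x := by
    intro x hx
    have h2 : IsCoprime (p : ℤ) 2 := by
      rw [Int.isCoprime_iff_gcd_eq_one]
      have := (Nat.coprime_primes hp Nat.prime_two).2 (by omega)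
      exact_mod_cast this
    exact h2.dvd_of_dvd_mul_left hx
  have hK : AddS (KC p) := by
    rw [hKC]
    exact nd5_inter (nL_addS p _ _ _ _ _) (nd5_inter (nL_addS p _ _ _ _ _) (nL_addS p _ _ _ _ _))
  have a1 : AddS ({g | (p : ℤ) ∣ nL p 0 0 0 1 3 g} ∩ {g | (p : ℤ) ∣ nL p (-3) (-2) (-1) 0 0 g}) :=
    nd5_inter (nL_addS p _ _ _ _ _) (nL_addS p _ _ _ _ _)
  have a2 : AddS ({g | (p : ℤ) ∣ nL p 1 0 (-1) 1 1 g} ∩ {g | (p : ℤ) ∣ nL p (-2) (-2) (-2) 1 1 g}) :=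
    nd5_inter (nL_addS p _ _ _ _ _) (nL_addS p _ _ _ _ _)
  have a3 : AddS ({g | (p : ℤ) ∣ nL p 1 1 1 0 1 g} ∩ {g | (p : ℤ) ∣ nL p (-1) 0 1 0 2 g}) :=
    nd5_inter (nL_addS p _ _ _ _ _) (nL_addS p _ _ _ _ _)
  have hsp : ∀ g : P, ∀ {a : ℤ} {b : ℤ}, (p : ℤ) ∣ a → b = a → (p : ℤ) ∣ b := fun _ _ _ h h' => by rw [h']; exact h
  refine NdG (f1 := fA p) (f2 := fB p) hK a1 a2 a3 ?_ ?_ ?_ ?_ ?_ ?_ ?_ ?_ ?_
  · rw [hKC]
    rintro g ⟨h1, h2, h3'⟩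
    refine ⟨h1, hsp g (dvd_sub h3' (dvd_mul_of_dvd_right h2 2)) ?_⟩
    unfold nL; ring
  · rw [hKC]
    rintro g ⟨h1, h2, h3'⟩
    refine ⟨hsp g (dvd_sub h1 h3') ?_, hsp g (dvd_sub h1 (dvd_mul_of_dvd_right h2 2)) ?_⟩
    · unfold nL; ring
    · unfold nL; ring
  · rw [hKC]
    rintro g ⟨_, h2, h3'⟩
    exact ⟨h2, h3'⟩
  · rw [hKC]
    rintro g ⟨⟨h1, _⟩, h3', h4⟩
    have h5' : (p : ℤ) ∣ nL p (-1) 0 1 0 2 g := hsp g (dvd_sub h1 h3') (by unfold nL; ring)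
    have h6 : (p : ℤ) ∣ 2 * nL p 1 1 1 0 1 g := hsp g (dvd_sub h1 h4) (by unfold nL; ring)
    exact ⟨h1, hodd _ h6, h5'⟩
  · rw [hKC]
    rintro g ⟨⟨h1, _⟩, h3', h4⟩
    exact ⟨h1, h3', h4⟩
  · rw [LT_iff a1]
    refine ⟨fA_Pp h5, fun φ hφ u v => ⟨nd5_dvd ?_, nd5_dvd ?_⟩⟩
    · obtain ⟨e, t, s, _, _, _, h⟩ := val_fA hp h5 hφ u v 0 0 0 1 3
      rw [h]
      push_cast
      ring
    · obtain ⟨e, t, s, _, _, _, h⟩ := val_fA hp h5 hφ u v (-3) (-2) (-1) 0 0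
      rw [h]
      push_cast
      ring
  · rw [LT_iff a2]
    refine ⟨fB_Pp h5, fun φ hφ u v => ⟨nd5_dvd ?_, nd5_dvd ?_⟩⟩
    · obtain ⟨e, t, s, _, _, _, _, h⟩ := val_fB hp h5 hφ u v 1 0 (-1) 1 1
      rw [h]
      push_cast
      ring
    · obtain ⟨e, t, s, _, _, _, _, h⟩ := val_fB hp h5 hφ u v (-2) (-2) (-2) 1 1
      rw [h]
      push_cast
      ring
  · rw [LT_iff a3]
    refine ⟨add_mem (fA_Pp h5) (fB_Pp h5), fun φ hφ u v => ?_⟩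
    have e0 : u * φ (fA p + fB p) * v = u * φ (fA p) * v + u * φ (fB p) * v := by
      rw [map_add, mul_add, add_mul]
    rw [e0]
    refine ⟨nd5_dvd ?_, nd5_dvd ?_⟩
    · obtain ⟨e, t, s, he, ht, hs, h⟩ := val_fA hp h5 hφ u v 1 1 1 0 1
      obtain ⟨e', α, D, b, he', hα, hD, h'⟩ := val_fB hp h5 hφ u v 1 1 1 0 1
      rw [nL_add, Int.cast_add, h, h', he', ← he, hs, hD, ht, hα]
      push_cast
      ring
    · obtain ⟨e, t, s, he, ht, hs, h⟩ := val_fA hp h5 hφ u v (-1) 0 1 0 2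
      obtain ⟨e', α, D, b, he', hα, hD, h'⟩ := val_fB hp h5 hφ u v (-1) 0 1 0 2
      rw [nL_add, Int.cast_add, h, h', he', ← he, hs, hD, ht, hα]
      push_cast
      ring
  · intro h
    have h1 := LT_sub hK h
    rw [hKC] at h1
    have h2 : (p : ℤ) ∣ nL p 1 1 1 0 1 (fA p) := h1.2.1
    have hid : IsSubst (AlgHom.id ℤ P) := by
      intro i
      simp [aug]
    obtain ⟨e, t, s, he, ht, hs, h4⟩ := val_fA hp h5 hid 1 1 1 1 1 0 1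
    have e1 : cf [0] (X 0) = 1 := by
      have := cf_mon [0] [0]
      simpa [mon] using this
    have e2 : cf [1] (X 0) = 0 := by
      have := cf_mon [1] [0]
      simpa [mon] using this
    have e4 : cf [1] (X 1) = 1 := by
      have := cf_mon [1] [1]
      simpa [mon] using this
    rw [one_mul, mul_one, AlgHom.id_apply, (ZMod.intCast_zmod_eq_zero_iff_dvd _ p).2 h2] at h4
    have ht0 : t = 0 := by
      rw [ht, AlgHom.id_apply, e2]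
      simp
    have hs1 : s = 1 := by
      rw [hs, ht0, AlgHom.id_apply, AlgHom.id_apply, e1, e4]
      simp
    have he1 : e = 1 := by
      rw [he]
      simp
    rw [ht0, hs1, he1] at h4
    have h5' : (1 : ZMod p) = 0 := by
      have h6 : (0 : ZMod p) = -1 := by
        rw [h4]
        push_cast
        ring
      rw [← neg_eq_zero, ← h6]
    exact one_ne_zero h5'

end ADP
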