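import Pool.Agent.ADP.NrH
import Pool.Agent.ADP.NrG
import Pool.Agent.ADP.Near

/-!
# ADP-NdT4: `T4` is not distributive

`NdG` (ADP.NrG) with `K = KT4`; `d = cq 3 1 1 1 g`, `a = cq 2 2 1 1 g - cq 1 1 2 2 g`, `w = cq 2 2 1 1 g + cq 2 1 2 1 g + cq 2 1 1 2 g`; `K1 = {2 ∣ d, 2 ∣ a}`, `K2 = {2 ∣ d, 2 ∣ w}`, `K3 = {2 ∣ d, 2 ∣ w + a}`; `K1 ∩ K2 = K1 ∩ K3 = KT4`.
`x_0x_1x_2x_3 x_i x_j` for the edge `ij` of `{0,1,2,3}`: `fE i j = X 0 * X 1 * X 2 * X 3 * (X i * X j)`.  `f1 = ∑` over the six edges, `f2 = fE 0 1 + fE 0 2 + fE 1 2`.  `com f1`, `com f2` homogeneous of degree 6.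
`hl` (ADP.NrH, `r = 4`, `D = 6`): the coefficients of `com (u φ(f) v)` at monomials of degree 6 in `x_0, .., x_3` are `ε` times those of `F(L)`, `L_j = ∑_(i<4) M j i x_i`, `M j i = cf [i] (φ (X j))`.  Modulo 2 (work in `MvPolynomial ℕ (ZMod 2)`, or with integer coefficients modulo 2):
for the edge `ab` with complement `cd`: `L_a² L_b² L_c L_d ≡ (∑ M_ai x_i²)(∑ M_bi x_i²)(∑ M_ci x_i)(∑ M_di x_i)`; coefficient at content `x_i² x_j² x_k x_l` (`{i,j,k,l} = {0,1,2,3}`): `(M_ai M_bj + M_aj M_bi)(M_ck M_dl + M_cl M_dk)`; coefficient at `x_0³x_1x_2x_3`: 0 (four odd exponents,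
but only `x_k x_l` contributes odd ones).
* `f1`: at each content `x_i²x_j²x_kx_l` the coefficient is the permanent of `M` modulo 2 (Laplace expansion), the same for all: `a` even.
* `f2`: `w` even: `∑_(k=1,2,3) ∑_(c=0,1,2) P({a,b},{0,k}) P({c,3},{l,m})` (`{a,b,c} = {0,1,2}`, `{k,l,m} = {1,2,3}`): expanding, every product `M_a0 M_bk M_cl M_3m` occurs twice (interchange `(b,k)` and `(c,l)`).
* `f1 + f2`: `w + a ≡ w(f1) + a(f2)`: `w(f1) ≡ 3 perm ≡ perm`, and `a(f2) = P-coefficient at 01 plus at 23 of f2`; `w(f2) + a(f2) + w(f1) + a(f1)` even: check as a polynomial identity modulo 2 (`ring` plus `2 * _`, or `decide`-free: `f1 + f2 ≡ S = fE 0 3 + fE 1 3 + fE 2 3`, `w(S) + a(S)` even).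
* `f1 ∉ T4` (`LT_sub`): `w(f1) = 3`.
Suggestion: first a lemma giving the coefficients `cq` of the consequence of `fE a b` modulo 2 in terms of the 16 entries `M j i` in `ZMod 2`; the rest is `ring` / `linear_combination (_) * (two_eq_zero)`; the identities were checked by hand.
-/

namespace ADP

open AD ADN ADC

open Finset in
private def t4c (e0 e1 e2 e3 : ℕ) (x : ℕ × ℕ × ℕ × ℕ) : Bool :=
  (2 * (if x.1 = 0 then 1 else 0) + 2 * (if x.2.1 = 0 then 1 else 0) + (if x.2.2.1 = 0 then 1 else 0) +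
    (if x.2.2.2 = 0 then 1 else 0) == e0) &&
  (2 * (if x.1 = 1 then 1 else 0) + 2 * (if x.2.1 = 1 then 1 else 0) + (if x.2.2.1 = 1 then 1 else 0) +
    (if x.2.2.2 = 1 then 1 else 0) == e1) &&
  (2 * (if x.1 = 2 then 1 else 0) + 2 * (if x.2.1 = 2 then 1 else 0) + (if x.2.2.1 = 2 then 1 else 0) +
    (if x.2.2.2 = 2 then 1 else 0) == e2) &&
  (2 * (if x.1 = 3 then 1 else 0) + 2 * (if x.2.1 = 3 then 1 else 0) + (if x.2.2.1 = 3 then 1 else 0) +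
    (if x.2.2.2 = 3 then 1 else 0) == e3)

private abbrev t4R : Finset (ℕ × ℕ × ℕ × ℕ) :=
  Finset.range 4 ×ˢ Finset.range 4 ×ˢ Finset.range 4 ×ˢ Finset.range 4

private noncomputable def t4m (e0 e1 e2 e3 : ℕ) : ℕ →₀ ℕ :=
  Finsupp.single 0 e0 + Finsupp.single 1 e1 + Finsupp.single 2 e2 + Finsupp.single 3 e3

private theorem t4_iff {e0 e1 e2 e3 : ℕ} {x : ℕ × ℕ × ℕ × ℕ} (hx : x ∈ t4R) :
    Finsupp.single x.1 2 + Finsupp.single x.2.1 2 + Finsupp.single x.2.2.1 1 + Finsupp.single x.2.2.2 1 =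
      t4m e0 e1 e2 e3 ↔ t4c e0 e1 e2 e3 x = true := by
  obtain ⟨i, j, k, l⟩ := x
  simp only [t4R, Finset.mem_product, Finset.mem_range] at hx
  obtain ⟨hi, hj, hk, hl⟩ := hx
  have key : ∀ t, (Finsupp.single i 2 + Finsupp.single j 2 + Finsupp.single k 1 + Finsupp.single l 1 :
      ℕ →₀ ℕ) t = 2 * (if i = t then 1 else 0) + 2 * (if j = t then 1 else 0) + (if k = t then 1 else 0) +
      (if l = t then 1 else 0) := by
    intro t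
    simp only [Finsupp.add_apply, Finsupp.single_apply, mul_ite, mul_one, mul_zero]
  simp only [t4c, Bool.and_eq_true, beq_iff_eq]
  constructor
  · intro h
    have h' := fun t => DFunLike.congr_fun h t
    simp only [key] at h'
    refine ⟨⟨⟨?_, ?_⟩, ?_⟩, ?_⟩
    · rw [h' 0]; simp [t4m]
    · rw [h' 1]; simp [t4m]
    · rw [h' 2]; simp [t4m]
    · rw [h' 3]; simp [t4m]
  · rintro ⟨⟨⟨h0, h1⟩, h2⟩, h3⟩
    ext t
    rw [key]
    by_cases ht : t < 4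
    · interval_cases t
      · rw [h0]; simp [t4m]
      · rw [h1]; simp [t4m]
      · rw [h2]; simp [t4m]
      · rw [h3]; simp [t4m]
    · rw [if_neg (by omega), if_neg (by omega), if_neg (by omega), if_neg (by omega)]
      simp only [t4m, Finsupp.add_apply, Finsupp.single_apply]
      rw [if_neg (by omega), if_neg (by omega), if_neg (by omega), if_neg (by omega)]
      rfl

private theorem t4_val (A B C D : ℕ → ZMod 2) (e0 e1 e2 e3 : ℕ) :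
    MvPolynomial.coeff (t4m e0 e1 e2 e3)
      ((∑ i ∈ Finset.range 4, MvPolynomial.C (A i) * (MvPolynomial.X i : MvPolynomial ℕ (ZMod 2)) ^ 2) *
        (∑ i ∈ Finset.range 4, MvPolynomial.C (B i) * (MvPolynomial.X i : MvPolynomial ℕ (ZMod 2)) ^ 2) *
        (∑ i ∈ Finset.range 4, MvPolynomial.C (C i) * (MvPolynomial.X i : MvPolynomial ℕ (ZMod 2))) *
        (∑ i ∈ Finset.range 4, MvPolynomial.C (D i) * (MvPolynomial.X i : MvPolynomial ℕ (ZMod 2)))) =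
      ∑ x ∈ t4R.filter (fun x => t4c e0 e1 e2 e3 x = true), A x.1 * B x.2.1 * C x.2.2.1 * D x.2.2.2 := by
  classical
  have h1 : (∑ i ∈ Finset.range 4, MvPolynomial.C (A i) * (MvPolynomial.X i : MvPolynomial ℕ (ZMod 2)) ^ 2) *
        (∑ i ∈ Finset.range 4, MvPolynomial.C (B i) * (MvPolynomial.X i : MvPolynomial ℕ (ZMod 2)) ^ 2) *
        (∑ i ∈ Finset.range 4, MvPolynomial.C (C i) * (MvPolynomial.X i : MvPolynomial ℕ (ZMod 2))) *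
        (∑ i ∈ Finset.range 4, MvPolynomial.C (D i) * (MvPolynomial.X i : MvPolynomial ℕ (ZMod 2))) =
      ∑ x ∈ t4R, MvPolynomial.monomial (Finsupp.single x.1 2 + Finsupp.single x.2.1 2 +
        Finsupp.single x.2.2.1 1 + Finsupp.single x.2.2.2 1) (A x.1 * B x.2.1 * C x.2.2.1 * D x.2.2.2) := by
    rw [Finset.sum_product, mul_assoc, mul_assoc, Finset.sum_mul]
    refine Finset.sum_congr rfl fun i _ => ?_
    rw [Finset.sum_product, Finset.sum_mul, Finset.mul_sum]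
    refine Finset.sum_congr rfl fun j _ => ?_
    rw [Finset.sum_product, Finset.sum_mul, Finset.mul_sum, Finset.mul_sum]
    refine Finset.sum_congr rfl fun k _ => ?_
    rw [Finset.mul_sum, Finset.mul_sum, Finset.mul_sum]
    refine Finset.sum_congr rfl fun l _ => ?_
    simp only
    rw [MvPolynomial.C_mul_X_pow_eq_monomial, MvPolynomial.C_mul_X_pow_eq_monomial,
      MvPolynomial.C_mul_X_eq_monomial, MvPolynomial.C_mul_X_eq_monomial, MvPolynomial.monomial_mul,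
      MvPolynomial.monomial_mul, MvPolynomial.monomial_mul]
    congr 1
    · simp only [add_assoc]
    · ring
  rw [h1, MvPolynomial.coeff_sum, Finset.sum_filter]
  refine Finset.sum_congr rfl fun x hx => ?_
  rw [MvPolynomial.coeff_monomial]
  by_cases h : t4c e0 e1 e2 e3 x = true
  · rw [if_pos h, if_pos ((t4_iff hx).2 h)]
  · rw [if_neg h, if_neg fun h' => h ((t4_iff hx).1 h')]

private theorem t4_f31 : t4R.filter (fun x => t4c 3 1 1 1 x = true) = ∅ := by decide +kernel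

private theorem t4_f01 : t4R.filter (fun x => t4c 2 2 1 1 x = true) =
    {(0, 1, 2, 3), (0, 1, 3, 2), (1, 0, 2, 3), (1, 0, 3, 2)} := by decide +kernel

private theorem t4_f23 : t4R.filter (fun x => t4c 1 1 2 2 x = true) =
    {(2, 3, 0, 1), (2, 3, 1, 0), (3, 2, 0, 1), (3, 2, 1, 0)} := by decide +kernel

private theorem t4_f02 : t4R.filter (fun x => t4c 2 1 2 1 x = true) =
    {(0, 2, 1, 3), (0, 2, 3, 1), (2, 0, 1, 3), (2, 0, 3, 1)} := by decide +kernel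

private theorem t4_f03 : t4R.filter (fun x => t4c 2 1 1 2 x = true) =
    {(0, 3, 1, 2), (0, 3, 2, 1), (3, 0, 1, 2), (3, 0, 2, 1)} := by decide +kernel

private theorem t4_sum (A B C D : ℕ → ZMod 2) (a b c d : ℕ) (hab : a ≠ b) (hcd : c ≠ d) :
    ∑ x ∈ ({(a, b, c, d), (a, b, d, c), (b, a, c, d), (b, a, d, c)} : Finset (ℕ × ℕ × ℕ × ℕ)),
      A x.1 * B x.2.1 * C x.2.2.1 * D x.2.2.2 = (A a * B b + A b * B a) * (C c * D d + C d * D c) := by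
  rw [Finset.sum_insert, Finset.sum_insert, Finset.sum_insert, Finset.sum_singleton]
  · ring
  · simp [hcd]
  · simp [hab, hcd]
  · simp [hab, hcd]

/-- the linear forms modulo 2 -/
private noncomputable def t4L (M : ℕ → ℕ → ZMod 2) (j : ℕ) : MvPolynomial ℕ (ZMod 2) :=
  ∑ i ∈ Finset.range 4, MvPolynomial.C (M j i) * MvPolynomial.X i

private theorem t4L_sq (M : ℕ → ℕ → ZMod 2) (j : ℕ) : t4L M j ^ 2 =
    ∑ i ∈ Finset.range 4, MvPolynomial.C (M j i) * (MvPolynomial.X i : MvPolynomial ℕ (ZMod 2)) ^ 2 := by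
  have h1 : ∀ x : ZMod 2, x ^ 2 = x := by decide
  have h2 : ∀ x y : MvPolynomial ℕ (ZMod 2), (x + y) ^ 2 = x ^ 2 + y ^ 2 := by
    intro x y
    have h3 : (2 : MvPolynomial ℕ (ZMod 2)) = 0 := by
      have h4 : (2 : ZMod 2) = 0 := by decide
      have h5 := congrArg (MvPolynomial.C (σ := ℕ)) h4
      rwa [map_zero, map_ofNat] at h5
    linear_combination (x * y) * h3
  unfold t4L
  rw [Finset.sum_range_succ, Finset.sum_range_succ, Finset.sum_range_succ, Finset.sum_range_succ,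
    Finset.sum_range_zero, Finset.sum_range_succ, Finset.sum_range_succ, Finset.sum_range_succ,
    Finset.sum_range_succ, Finset.sum_range_zero, h2, h2, h2, h2, mul_pow, mul_pow, mul_pow, mul_pow,
    ← map_pow, ← map_pow, ← map_pow, ← map_pow, h1, h1, h1, h1, zero_pow two_ne_zero]

private def t4P (M : ℕ → ℕ → ZMod 2) (a b p q : ℕ) : ZMod 2 := M a p * M b q + M a q * M b p

/-- the monomials -/
private noncomputable def t4f (a b : ℕ) : P := X 0 * X 1 * X 2 * X 3 * (X a * X b)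

private noncomputable def t4q (m : ℕ →₀ ℕ) (g : P) : ZMod 2 := (((com g).coeff m : ℤ) : ZMod 2)

private theorem t4q_add (m : ℕ →₀ ℕ) (g g' : P) : t4q m (g + g') = t4q m g + t4q m g' := by
  unfold t4q
  rw [map_add, MvPolynomial.coeff_add, Int.cast_add]

private theorem t4_com (a b : ℕ) : com (t4f a b) = MvPolynomial.X 0 * MvPolynomial.X 1 * MvPolynomial.X 2 *
    MvPolynomial.X 3 * (MvPolynomial.X a * MvPolynomial.X b) := by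
  simp [t4f, com]

private theorem t4_hom (a b : ℕ) : (com (t4f a b)).IsHomogeneous 6 := by
  rw [t4_com]
  exact ((((MvPolynomial.isHomogeneous_X ℤ 0).mul (MvPolynomial.isHomogeneous_X ℤ 1)).mul
    (MvPolynomial.isHomogeneous_X ℤ 2)).mul (MvPolynomial.isHomogeneous_X ℤ 3)).mul
    ((MvPolynomial.isHomogeneous_X ℤ a).mul (MvPolynomial.isHomogeneous_X ℤ b))

private theorem t4_cq (a b : ℕ) {φ : P →ₐ[ℤ] P} (hφ : IsSubst φ) (u v : P) {e0 e1 e2 e3 : ℕ}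
    (he : e0 + e1 + e2 + e3 = 6) : t4q (t4m e0 e1 e2 e3) (u * φ (t4f a b) * v) =
      ((aug u * aug v : ℤ) : ZMod 2) * MvPolynomial.coeff (t4m e0 e1 e2 e3)
        (t4L (fun j i => ((cf [i] (φ (X j)) : ℤ) : ZMod 2)) 0 *
          t4L (fun j i => ((cf [i] (φ (X j)) : ℤ) : ZMod 2)) 1 *
          t4L (fun j i => ((cf [i] (φ (X j)) : ℤ) : ZMod 2)) 2 *
          t4L (fun j i => ((cf [i] (φ (X j)) : ℤ) : ZMod 2)) 3 *
          (t4L (fun j i => ((cf [i] (φ (X j)) : ℤ) : ZMod 2)) a *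
          t4L (fun j i => ((cf [i] (φ (X j)) : ℤ) : ZMod 2)) b)) := by
  have hd : (t4m e0 e1 e2 e3).degree = 6 := by
    unfold t4m
    rw [map_add, map_add, map_add, Finsupp.degree_single, Finsupp.degree_single, Finsupp.degree_single,
      Finsupp.degree_single, he]
  have hr : ∀ i, 4 ≤ i → (t4m e0 e1 e2 e3) i = 0 := by
    intro i hi
    simp only [t4m, Finsupp.add_apply, Finsupp.single_apply]
    rw [if_neg (by omega), if_neg (by omega), if_neg (by omega), if_neg (by omega)]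
    rfl
  have hL : ∀ j, MvPolynomial.map (Int.castRingHom (ZMod 2)) (∑ i ∈ Finset.range 4,
      MvPolynomial.C (cf [i] (φ (X j))) * (MvPolynomial.X i : MvPolynomial ℕ ℤ)) =
      t4L (fun j i => ((cf [i] (φ (X j)) : ℤ) : ZMod 2)) j := by
    intro j
    unfold t4L
    rw [map_sum]
    refine Finset.sum_congr rfl fun i _ => ?_
    rw [map_mul, MvPolynomial.map_C, MvPolynomial.map_X]
    rfl
  unfold t4q
  rw [hl (r := 4) (t4_hom a b) hφ u v _ hd hr, Int.cast_mul (aug u * aug v)]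
  congr 1
  have h1 : ∀ G : MvPolynomial ℕ ℤ, ((MvPolynomial.coeff (t4m e0 e1 e2 e3) G : ℤ) : ZMod 2) =
      MvPolynomial.coeff (t4m e0 e1 e2 e3) (MvPolynomial.map (Int.castRingHom (ZMod 2)) G) := by
    intro G
    rw [MvPolynomial.coeff_map]
    rfl
  rw [h1, t4_com]
  simp only [map_mul, MvPolynomial.aeval_X, hL]

/-- the coefficients of the consequences of `t4f a b` -/
private theorem t4_E {a b c d : ℕ} (h : ∀ L : ℕ → MvPolynomial ℕ (ZMod 2),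
    L 0 * L 1 * L 2 * L 3 * (L a * L b) = L a ^ 2 * L b ^ 2 * L c * L d) {φ : P →ₐ[ℤ] P}
    (hφ : IsSubst φ) (u v : P) {ε : ZMod 2} (hε : ((aug u * aug v : ℤ) : ZMod 2) = ε) {M : ℕ → ℕ → ZMod 2}
    (hM : (fun j i => ((cf [i] (φ (X j)) : ℤ) : ZMod 2)) = M) :
    t4q (t4m 3 1 1 1) (u * φ (t4f a b) * v) = 0 ∧
    t4q (t4m 2 2 1 1) (u * φ (t4f a b) * v) = ε * (t4P M a b 0 1 * t4P M c d 2 3) ∧
    t4q (t4m 1 1 2 2) (u * φ (t4f a b) * v) = ε * (t4P M a b 2 3 * t4P M c d 0 1) ∧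
    t4q (t4m 2 1 2 1) (u * φ (t4f a b) * v) = ε * (t4P M a b 0 2 * t4P M c d 1 3) ∧
    t4q (t4m 2 1 1 2) (u * φ (t4f a b) * v) = ε * (t4P M a b 0 3 * t4P M c d 1 2) := by
  have h1 : ∀ {e0 e1 e2 e3 : ℕ}, e0 + e1 + e2 + e3 = 6 → t4q (t4m e0 e1 e2 e3) (u * φ (t4f a b) * v) =
      ε * ∑ x ∈ t4R.filter (fun x => t4c e0 e1 e2 e3 x = true),
        M a x.1 * M b x.2.1 * M c x.2.2.1 * M d x.2.2.2 := by
    intro e0 e1 e2 e3 he
    rw [t4_cq a b hφ u v he, hM, hε, h, t4L_sq, t4L_sq, ← t4_val]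
    rfl
  refine ⟨?_, ?_, ?_, ?_, ?_⟩
  · rw [h1 rfl, t4_f31, Finset.sum_empty, mul_zero]
  · rw [h1 rfl, t4_f01, t4_sum (M a) (M b) (M c) (M d) 0 1 2 3 (by decide) (by decide)]
    rfl
  · rw [h1 rfl, t4_f23, t4_sum (M a) (M b) (M c) (M d) 2 3 0 1 (by decide) (by decide)]
    rfl
  · rw [h1 rfl, t4_f02, t4_sum (M a) (M b) (M c) (M d) 0 2 1 3 (by decide) (by decide)]
    rfl
  · rw [h1 rfl, t4_f03, t4_sum (M a) (M b) (M c) (M d) 0 3 1 2 (by decide) (by decide)]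
    rfl

private noncomputable def t4g2 : P := t4f 0 1 + t4f 0 2 + t4f 1 2

private noncomputable def t4g1 : P := t4g2 + (t4f 0 3 + t4f 1 3 + t4f 2 3)

private theorem t4_dvd {z : ℤ} : (2 : ℤ) ∣ z ↔ ((z : ℤ) : ZMod 2) = 0 :=
  (ZMod.intCast_zmod_eq_zero_iff_dvd z 2).symm

private theorem t4_lin (φ : P →ₐ[ℤ] P) (u v f g : P) :
    u * φ (f + g) * v = u * φ f * v + u * φ g * v := by
  rw [map_add, mul_add, add_mul]

/-- the five functionals, modulo 2 -/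
private theorem t4_g2 {φ : P →ₐ[ℤ] P} (hφ : IsSubst φ) (u v : P) {ε : ZMod 2}
    (hε : ((aug u * aug v : ℤ) : ZMod 2) = ε) {M : ℕ → ℕ → ZMod 2}
    (hM : (fun j i => ((cf [i] (φ (X j)) : ℤ) : ZMod 2)) = M) :
    t4q (t4m 3 1 1 1) (u * φ t4g2 * v) = 0 ∧
    t4q (t4m 2 2 1 1) (u * φ t4g2 * v) = ε * (t4P M 0 1 0 1 * t4P M 2 3 2 3 +
      t4P M 0 2 0 1 * t4P M 1 3 2 3 + t4P M 1 2 0 1 * t4P M 0 3 2 3) ∧
    t4q (t4m 1 1 2 2) (u * φ t4g2 * v) = ε * (t4P M 0 1 2 3 * t4P M 2 3 0 1 +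
      t4P M 0 2 2 3 * t4P M 1 3 0 1 + t4P M 1 2 2 3 * t4P M 0 3 0 1) ∧
    t4q (t4m 2 1 2 1) (u * φ t4g2 * v) = ε * (t4P M 0 1 0 2 * t4P M 2 3 1 3 +
      t4P M 0 2 0 2 * t4P M 1 3 1 3 + t4P M 1 2 0 2 * t4P M 0 3 1 3) ∧
    t4q (t4m 2 1 1 2) (u * φ t4g2 * v) = ε * (t4P M 0 1 0 3 * t4P M 2 3 1 2 +
      t4P M 0 2 0 3 * t4P M 1 3 1 2 + t4P M 1 2 0 3 * t4P M 0 3 1 2) := by
  obtain ⟨a0, a1, a2, a3, a4⟩ := t4_E (a := 0) (b := 1) (c := 2) (d := 3) (fun L => by ring) hφ u v hε hM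
  obtain ⟨b0, b1, b2, b3, b4⟩ := t4_E (a := 0) (b := 2) (c := 1) (d := 3) (fun L => by ring) hφ u v hε hM
  obtain ⟨c0, c1, c2, c3, c4⟩ := t4_E (a := 1) (b := 2) (c := 0) (d := 3) (fun L => by ring) hφ u v hε hM
  unfold t4g2
  rw [t4_lin, t4_lin]
  simp only [t4q_add]
  refine ⟨?_, ?_, ?_, ?_, ?_⟩
  · rw [a0, b0, c0]; ring
  · rw [a1, b1, c1]; ring
  · rw [a2, b2, c2]; ring
  · rw [a3, b3, c3]; ring
  · rw [a4, b4, c4]; ring

private theorem t4_g1 {φ : P →ₐ[ℤ] P} (hφ : IsSubst φ) (u v : P) {ε : ZMod 2}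
    (hε : ((aug u * aug v : ℤ) : ZMod 2) = ε) {M : ℕ → ℕ → ZMod 2}
    (hM : (fun j i => ((cf [i] (φ (X j)) : ℤ) : ZMod 2)) = M) :
    t4q (t4m 3 1 1 1) (u * φ t4g1 * v) = 0 ∧
    t4q (t4m 2 2 1 1) (u * φ t4g1 * v) = ε * (t4P M 0 1 0 1 * t4P M 2 3 2 3 +
      t4P M 0 2 0 1 * t4P M 1 3 2 3 + t4P M 1 2 0 1 * t4P M 0 3 2 3 + t4P M 0 3 0 1 * t4P M 1 2 2 3 +
      t4P M 1 3 0 1 * t4P M 0 2 2 3 + t4P M 2 3 0 1 * t4P M 0 1 2 3) ∧
    t4q (t4m 1 1 2 2) (u * φ t4g1 * v) = ε * (t4P M 0 1 2 3 * t4P M 2 3 0 1 +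
      t4P M 0 2 2 3 * t4P M 1 3 0 1 + t4P M 1 2 2 3 * t4P M 0 3 0 1 + t4P M 0 3 2 3 * t4P M 1 2 0 1 +
      t4P M 1 3 2 3 * t4P M 0 2 0 1 + t4P M 2 3 2 3 * t4P M 0 1 0 1) ∧
    t4q (t4m 2 1 2 1) (u * φ t4g1 * v) = ε * (t4P M 0 1 0 2 * t4P M 2 3 1 3 +
      t4P M 0 2 0 2 * t4P M 1 3 1 3 + t4P M 1 2 0 2 * t4P M 0 3 1 3 + t4P M 0 3 0 2 * t4P M 1 2 1 3 +
      t4P M 1 3 0 2 * t4P M 0 2 1 3 + t4P M 2 3 0 2 * t4P M 0 1 1 3) ∧
    t4q (t4m 2 1 1 2) (u * φ t4g1 * v) = ε * (t4P M 0 1 0 3 * t4P M 2 3 1 2 +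
      t4P M 0 2 0 3 * t4P M 1 3 1 2 + t4P M 1 2 0 3 * t4P M 0 3 1 2 + t4P M 0 3 0 3 * t4P M 1 2 1 2 +
      t4P M 1 3 0 3 * t4P M 0 2 1 2 + t4P M 2 3 0 3 * t4P M 0 1 1 2) := by
  obtain ⟨g0, g1, g2, g3, g4⟩ := t4_g2 hφ u v hε hM
  obtain ⟨a0, a1, a2, a3, a4⟩ := t4_E (a := 0) (b := 3) (c := 1) (d := 2) (fun L => by ring) hφ u v hε hM
  obtain ⟨b0, b1, b2, b3, b4⟩ := t4_E (a := 1) (b := 3) (c := 0) (d := 2) (fun L => by ring) hφ u v hε hM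
  obtain ⟨c0, c1, c2, c3, c4⟩ := t4_E (a := 2) (b := 3) (c := 0) (d := 1) (fun L => by ring) hφ u v hε hM
  unfold t4g1
  rw [t4_lin, t4_lin, t4_lin]
  simp only [t4q_add]
  refine ⟨?_, ?_, ?_, ?_, ?_⟩
  · rw [g0, a0, b0, c0]; ring
  · rw [g1, a1, b1, c1]; ring
  · rw [g2, a2, b2, c2]; ring
  · rw [g3, a3, b3, c3]; ring
  · rw [g4, a4, b4, c4]; ring

private def t4K1 : Set P := {g | (2 : ℤ) ∣ cq 3 1 1 1 g ∧ (2 : ℤ) ∣ cq 2 2 1 1 g - cq 1 1 2 2 g}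

private def t4K2 : Set P := {g | (2 : ℤ) ∣ cq 3 1 1 1 g ∧
  (2 : ℤ) ∣ cq 2 2 1 1 g + cq 2 1 2 1 g + cq 2 1 1 2 g}

private def t4K3 : Set P := {g | (2 : ℤ) ∣ cq 3 1 1 1 g ∧
  (2 : ℤ) ∣ cq 2 2 1 1 g + cq 2 1 2 1 g + cq 2 1 1 2 g + (cq 2 2 1 1 g - cq 1 1 2 2 g)}

private theorem cq_zero (i j k l : ℕ) : cq i j k l 0 = 0 := by
  unfold cq
  rw [map_zero, MvPolynomial.coeff_zero]

private theorem cq_add (i j k l : ℕ) (f g : P) : cq i j k l (f + g) = cq i j k l f + cq i j k l g := by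
  unfold cq
  rw [map_add, MvPolynomial.coeff_add]

private theorem cq_neg (i j k l : ℕ) (f : P) : cq i j k l (-f) = -cq i j k l f := by
  unfold cq
  rw [map_neg, MvPolynomial.coeff_neg]

private theorem t4_a1 : AddS t4K1 := by
  refine ⟨?_, ?_, ?_⟩
  · show _ ∧ _
    simp only [cq_zero]
    omega
  · rintro f ⟨h1, h2⟩ g ⟨h3, h4⟩
    show _ ∧ _
    simp only [cq_add]
    omega
  · rintro f ⟨h1, h2⟩
    show _ ∧ _
    simp only [cq_neg]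
    omega

private theorem t4_a2 : AddS t4K2 := by
  refine ⟨?_, ?_, ?_⟩
  · show _ ∧ _
    simp only [cq_zero]
    omega
  · rintro f ⟨h1, h2⟩ g ⟨h3, h4⟩
    show _ ∧ _
    simp only [cq_add]
    omega
  · rintro f ⟨h1, h2⟩
    show _ ∧ _
    simp only [cq_neg]
    omega

private theorem t4_a3 : AddS t4K3 := by
  refine ⟨?_, ?_, ?_⟩
  · show _ ∧ _
    simp only [cq_zero]
    omega
  · rintro f ⟨h1, h2⟩ g ⟨h3, h4⟩
    show _ ∧ _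
    simp only [cq_add]
    omega
  · rintro f ⟨h1, h2⟩
    show _ ∧ _
    simp only [cq_neg]
    omega

private theorem t4_a0 : AddS KT4 := by
  refine ⟨?_, ?_, ?_⟩
  · show _ ∧ _ ∧ _
    simp only [cq_zero]
    omega
  · rintro f ⟨h1, h2, h5⟩ g ⟨h3, h4, h6⟩
    show _ ∧ _ ∧ _
    simp only [cq_add]
    omega
  · rintro f ⟨h1, h2, h3⟩
    show _ ∧ _ ∧ _
    simp only [cq_neg]
    omega

private theorem t4_Pp (a b : ℕ) : t4f a b ∈ Pp := by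
  unfold t4f
  exact Pp_mul_right (Pp_mul_right (Pp_mul_right (Pp_mul_right (X_mem 0) _) _) _) _

private theorem t4_Pp2 : t4g2 ∈ Pp := by
  unfold t4g2
  exact Pp.add_mem (Pp.add_mem (t4_Pp _ _) (t4_Pp _ _)) (t4_Pp _ _)

private theorem t4_Pp1 : t4g1 ∈ Pp := by
  unfold t4g1
  exact Pp.add_mem t4_Pp2 (Pp.add_mem (Pp.add_mem (t4_Pp _ _) (t4_Pp _ _)) (t4_Pp _ _))

private theorem t4_m1 : t4g1 ∈ LT t4K1 := by
  rw [LT_iff t4_a1]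
  refine ⟨t4_Pp1, fun φ hφ u v => ?_⟩
  obtain ⟨g0, g1, g2, -, -⟩ := t4_g1 hφ u v rfl rfl
  refine ⟨t4_dvd.2 g0, t4_dvd.2 ?_⟩
  rw [Int.cast_sub]
  change t4q (t4m 2 2 1 1) _ - t4q (t4m 1 1 2 2) _ = 0
  rw [g1, g2]
  ring

private theorem t4_two : (2 : ZMod 2) = 0 := by decide

private theorem t4_m2 : t4g2 ∈ LT t4K2 := by
  rw [LT_iff t4_a2]
  refine ⟨t4_Pp2, fun φ hφ u v => ?_⟩
  obtain ⟨M, hM⟩ : ∃ M, (fun j i => ((cf [i] (φ (X j)) : ℤ) : ZMod 2)) = M := ⟨_, rfl⟩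
  obtain ⟨ε, hε⟩ : ∃ ε, ((aug u * aug v : ℤ) : ZMod 2) = ε := ⟨_, rfl⟩
  obtain ⟨g0, g1, -, g3, g4⟩ := t4_g2 hφ u v hε hM
  refine ⟨t4_dvd.2 g0, t4_dvd.2 ?_⟩
  rw [Int.cast_add, Int.cast_add]
  change t4q (t4m 2 2 1 1) _ + t4q (t4m 2 1 2 1) _ + t4q (t4m 2 1 1 2) _ = 0
  rw [g1, g3, g4]
  unfold t4P
  linear_combination (ε * (
        M 0 0 * M 1 1 * M 2 2 * M 3 3 + M 0 0 * M 1 1 * M 2 3 * M 3 2 + M 0 0 * M 1 2 * M 2 1 * M 3
        3 + M 0 0 * M 1 2 * M 2 3 * M 3 1 + M 0 0 * M 1 3 * M 2 1 * M 3 2 + M 0 0 * M 1 3 * M 2 2 *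
        M 3 1 + M 0 1 * M 1 0 * M 2 2 * M 3 3 + M 0 1 * M 1 0 * M 2 3 * M 3 2 + M 0 1 * M 1 2 * M 2
        0 * M 3 3 + M 0 1 * M 1 3 * M 2 0 * M 3 2 + M 0 2 * M 1 0 * M 2 1 * M 3 3 + M 0 2 * M 1 0 *
        M 2 3 * M 3 1 + M 0 2 * M 1 1 * M 2 0 * M 3 3 + M 0 2 * M 1 3 * M 2 0 * M 3 1 + M 0 3 * M 1
        0 * M 2 1 * M 3 2 + M 0 3 * M 1 0 * M 2 2 * M 3 1 + M 0 3 * M 1 1 * M 2 0 * M 3 2 + M 0 3 *
        M 1 2 * M 2 0 * M 3 1
      )) * t4_two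

private theorem t4_m3 : t4g1 + t4g2 ∈ LT t4K3 := by
  rw [LT_iff t4_a3]
  refine ⟨Pp.add_mem t4_Pp1 t4_Pp2, fun φ hφ u v => ?_⟩
  obtain ⟨M, hM⟩ : ∃ M, (fun j i => ((cf [i] (φ (X j)) : ℤ) : ZMod 2)) = M := ⟨_, rfl⟩
  obtain ⟨ε, hε⟩ : ∃ ε, ((aug u * aug v : ℤ) : ZMod 2) = ε := ⟨_, rfl⟩
  obtain ⟨g0, g1, g2, g3, g4⟩ := t4_g2 hφ u v hε hM
  obtain ⟨f0, f1, f2, f3, f4⟩ := t4_g1 hφ u v hε hM
  rw [t4_lin]
  refine ⟨t4_dvd.2 ?_, t4_dvd.2 ?_⟩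
  · change t4q (t4m 3 1 1 1) _ = 0
    rw [t4q_add, f0, g0, add_zero]
  rw [Int.cast_add, Int.cast_add, Int.cast_add, Int.cast_sub]
  change t4q (t4m 2 2 1 1) _ + t4q (t4m 2 1 2 1) _ + t4q (t4m 2 1 1 2) _ +
    (t4q (t4m 2 2 1 1) _ - t4q (t4m 1 1 2 2) _) = 0
  simp only [t4q_add]
  rw [g1, g2, g3, g4, f1, f2, f3, f4]
  unfold t4P
  linear_combination (ε * (
        3 * M 0 0 * M 1 1 * M 2 2 * M 3 3 + 3 * M 0 0 * M 1 1 * M 2 3 * M 3 2 + 3 * M 0 0 * M 1 2 *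
        M 2 1 * M 3 3 + 2 * M 0 0 * M 1 2 * M 2 3 * M 3 1 + 3 * M 0 0 * M 1 3 * M 2 1 * M 3 2 + 2 *
        M 0 0 * M 1 3 * M 2 2 * M 3 1 + 3 * M 0 1 * M 1 0 * M 2 2 * M 3 3 + 3 * M 0 1 * M 1 0 * M 2
        3 * M 3 2 + 3 * M 0 1 * M 1 2 * M 2 0 * M 3 3 + M 0 1 * M 1 2 * M 2 3 * M 3 0 + 3 * M 0 1 *
        M 1 3 * M 2 0 * M 3 2 + M 0 1 * M 1 3 * M 2 2 * M 3 0 + 3 * M 0 2 * M 1 0 * M 2 1 * M 3 3 +
        2 * M 0 2 * M 1 0 * M 2 3 * M 3 1 + 3 * M 0 2 * M 1 1 * M 2 0 * M 3 3 + M 0 2 * M 1 1 * M 2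
        3 * M 3 0 + 2 * M 0 2 * M 1 3 * M 2 0 * M 3 1 + M 0 2 * M 1 3 * M 2 1 * M 3 0 + 3 * M 0 3 *
        M 1 0 * M 2 1 * M 3 2 + 2 * M 0 3 * M 1 0 * M 2 2 * M 3 1 + 3 * M 0 3 * M 1 1 * M 2 0 * M 3
        2 + M 0 3 * M 1 1 * M 2 2 * M 3 0 + 2 * M 0 3 * M 1 2 * M 2 0 * M 3 1 + M 0 3 * M 1 2 * M 2
        1 * M 3 0
      )) * t4_two

private theorem t4_m0 : t4g1 ∉ LT KT4 := by
  intro h
  obtain ⟨-, -, h3⟩ := LT_sub t4_a0 h
  rw [t4_dvd, Int.cast_add, Int.cast_add] at h3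
  change t4q (t4m 2 2 1 1) _ + t4q (t4m 2 1 2 1) _ + t4q (t4m 2 1 1 2) _ = 0 at h3
  have hid : IsSubst (AlgHom.id ℤ P) := fun i => ADC.aug_X i
  obtain ⟨ε, hε⟩ : ∃ ε, ((aug 1 * aug 1 : ℤ) : ZMod 2) = ε := ⟨_, rfl⟩
  obtain ⟨M, hM⟩ : ∃ M, (fun j i => ((cf [i] (AlgHom.id ℤ P (X j)) : ℤ) : ZMod 2)) = M := ⟨_, rfl⟩
  obtain ⟨-, g1, -, g3, g4⟩ := t4_g1 hid 1 1 hε hM
  have e1 : (1 : P) * (AlgHom.id ℤ P) t4g1 * 1 = t4g1 := by
    rw [one_mul, mul_one]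
    rfl
  rw [e1] at g1 g3 g4
  rw [g1, g3, g4] at h3
  have e2 : ε = 1 := by
    rw [← hε]
    simp
  have e3 : ∀ j i, M j i = if j = i then 1 else 0 := by
    intro j i
    rw [← hM]
    show ((cf [i] (X j) : ℤ) : ZMod 2) = _
    rw [← mon_single, cf_mon]
    by_cases hji : j = i
    · rw [if_pos hji, if_pos (by rw [hji])]
      rfl
    · rw [if_neg hji, if_neg (by simpa using hji)]
      rfl
  unfold t4P at h3
  simp only [e2, e3] at h3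
  revert h3
  decide

theorem NdT4 : ¬ DistOn TI T4 := by
  refine NdG (K := KT4) (K1 := t4K1) (K2 := t4K2) (K3 := t4K3) t4_a0 t4_a1 t4_a2 t4_a3 ?_ ?_ ?_ ?_ ?_
    t4_m1 t4_m2 t4_m3 t4_m0
  · rintro g ⟨h1, h2, -⟩
    exact ⟨h1, h2⟩
  · rintro g ⟨h1, -, h3⟩
    exact ⟨h1, h3⟩
  · rintro g ⟨h1, h2, h3⟩
    exact ⟨h1, dvd_add h3 h2⟩
  · rintro g ⟨⟨h1, h2⟩, ⟨-, h3⟩⟩
    exact ⟨h1, h2, h3⟩
  · rintro g ⟨⟨h1, h2⟩, ⟨-, h3⟩⟩
    exact ⟨h1, h2, (dvd_add_left h2).1 h3⟩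

end ADP
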