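import Pool.Agent.ADP.Near

/-!
# ADP-NrT1: basic facts on the near-commutative T-ideals of the list
-/

namespace ADP

open AD ADN ADC

private def n1_lin (F : P → ℤ) : Prop := (∀ f g, F (f + g) = F f + F g) ∧ ∀ (k : ℤ) (f : P), F (k • f) = k * F f

private theorem n1_lin_add {F G : P → ℤ} (hF : n1_lin F) (hG : n1_lin G) : n1_lin fun g => F g + G g := by
  refine ⟨fun f g => ?_, fun k f => ?_⟩
  · change F (f + g) + G (f + g) = _
    rw [hF.1, hG.1]
    ring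
  · change F (k • f) + G (k • f) = _
    rw [hF.2, hG.2]
    ring

private theorem n1_lin_sub {F G : P → ℤ} (hF : n1_lin F) (hG : n1_lin G) : n1_lin fun g => F g - G g := by
  refine ⟨fun f g => ?_, fun k f => ?_⟩
  · change F (f + g) - G (f + g) = _
    rw [hF.1, hG.1]
    ring
  · change F (k • f) - G (k • f) = _
    rw [hF.2, hG.2]
    ring

private theorem n1_lin_mul {F : P → ℤ} (c : ℤ) (hF : n1_lin F) : n1_lin fun g => c * F g := by
  refine ⟨fun f g => ?_, fun k f => ?_⟩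
  · change c * F (f + g) = _
    rw [hF.1]
    ring
  · change c * F (k • f) = _
    rw [hF.2]
    ring

private theorem n1_lin_ct (i j : ℕ) : n1_lin (ct i j) := by
  refine ⟨fun f g => ?_, fun k f => ?_⟩
  · unfold ct
    rw [map_add, MvPolynomial.coeff_add]
  · unfold ct
    rw [map_smul, MvPolynomial.coeff_smul, smul_eq_mul]

private theorem n1_lin_cc (p i : ℕ) : n1_lin (cc p i) := n1_lin_ct _ _

private theorem n1_lin_cq (i j k l : ℕ) : n1_lin (cq i j k l) := by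
  refine ⟨fun f g => ?_, fun k f => ?_⟩
  · unfold cq
    rw [map_add, MvPolynomial.coeff_add]
  · unfold cq
    rw [map_smul, MvPolynomial.coeff_smul, smul_eq_mul]

private theorem n1_lin_cf (w : List ℕ) : n1_lin (cf w) := ⟨fun f g => cf_add w f g, fun k f => cf_smul w k f⟩

private theorem n1_lin_zero {F : P → ℤ} (hF : n1_lin F) : F 0 = 0 := by
  have h := hF.2 0 0
  rwa [zero_smul, zero_mul] at h

private theorem n1_add {n : ℤ} {F1 F2 F3 : P → ℤ} (h1 : n1_lin F1) (h2 : n1_lin F2) (h3 : n1_lin F3) :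
    AddS {g : P | n ∣ F1 g ∧ n ∣ F2 g ∧ n ∣ F3 g} := by
  refine ⟨⟨?_, ?_, ?_⟩, ?_, ?_⟩
  · rw [n1_lin_zero h1]
    exact dvd_zero _
  · rw [n1_lin_zero h2]
    exact dvd_zero _
  · rw [n1_lin_zero h3]
    exact dvd_zero _
  · rintro f ⟨a1, a2, a3⟩ g ⟨b1, b2, b3⟩
    refine ⟨?_, ?_, ?_⟩
    · rw [h1.1]
      exact dvd_add a1 b1
    · rw [h2.1]
      exact dvd_add a2 b2
    · rw [h3.1]
      exact dvd_add a3 b3
  · rintro f ⟨a1, a2, a3⟩
    have e : -f = (-1 : ℤ) • f := by rw [neg_one_smul]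
    rw [e]
    refine ⟨?_, ?_, ?_⟩
    · rw [h1.2]
      exact Dvd.dvd.mul_left a1 _
    · rw [h2.2]
      exact Dvd.dvd.mul_left a2 _
    · rw [h3.2]
      exact Dvd.dvd.mul_left a3 _

private theorem n1_mul {n : ℤ} {F1 F2 F3 : P → ℤ} (h1 : n1_lin F1) (h2 : n1_lin F2) (h3 : n1_lin F3) :
    Mul n (LT {g : P | n ∣ F1 g ∧ n ∣ F2 g ∧ n ∣ F3 g}) := by
  intro f hf
  rw [LT_iff (n1_add h1 h2 h3)]
  refine ⟨Pp.smul_mem _ hf, fun φ _ u v => ?_⟩
  have e : u * φ (n • f) * v = n • (u * φ f * v) := by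
    rw [map_smul, mul_smul_comm, smul_mul_assoc]
  rw [e]
  refine ⟨?_, ?_, ?_⟩
  · rw [h1.2]
    exact dvd_mul_right _ _
  · rw [h2.2]
    exact dvd_mul_right _ _
  · rw [h3.2]
    exact dvd_mul_right _ _

private theorem n1_KC3 : KC 3 = {g : P | (3 : ℤ) ∣ cc 3 3 g ∧ (3 : ℤ) ∣ cc 3 0 g - cc 3 1 g ∧
    (3 : ℤ) ∣ cc 3 1 g - cc 3 2 g} := by
  unfold KC
  rw [if_pos rfl]

private theorem n1_KC {p : ℕ} (hp : p ≠ 3) : KC p = {g : P | (p : ℤ) ∣ cc p 3 g + 3 * cc p 4 g ∧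
    (p : ℤ) ∣ cc p 0 g + cc p 1 g + cc p 2 g + cc p 4 g ∧ (p : ℤ) ∣ cc p 2 g - cc p 0 g + 2 * cc p 4 g} := by
  unfold KC
  rw [if_neg hp]

private theorem n1_KC2 (l m : ℤ) : KC2 l m = {g : P | (2 : ℤ) ∣ ct 1 4 g + ct 2 3 g + ct 3 2 g + ct 4 1 g + l * cf [1, 0] g ∧
    (2 : ℤ) ∣ ct 3 3 g + m * cf [1, 0] g ∧ (2 : ℤ) ∣ 0 * cf [1, 0] g} := by
  unfold KC2
  ext g
  constructor
  · rintro ⟨a1, a2⟩
    exact ⟨a1, a2, by rw [zero_mul]; exact dvd_zero _⟩
  · rintro ⟨a1, a2, _⟩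
    exact ⟨a1, a2⟩

private theorem n1_c3 {p : ℕ} : n1_lin fun g => cc p 3 g + 3 * cc p 4 g :=
  n1_lin_add (n1_lin_cc _ _) (n1_lin_mul _ (n1_lin_cc _ _))

private theorem n1_c4 {p : ℕ} : n1_lin fun g => cc p 0 g + cc p 1 g + cc p 2 g + cc p 4 g :=
  n1_lin_add (n1_lin_add (n1_lin_add (n1_lin_cc _ _) (n1_lin_cc _ _)) (n1_lin_cc _ _)) (n1_lin_cc _ _)

private theorem n1_c5 {p : ℕ} : n1_lin fun g => cc p 2 g - cc p 0 g + 2 * cc p 4 g :=
  n1_lin_add (n1_lin_sub (n1_lin_cc _ _) (n1_lin_cc _ _)) (n1_lin_mul _ (n1_lin_cc _ _))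

private theorem n1_d1 (l : ℤ) : n1_lin fun g => ct 1 4 g + ct 2 3 g + ct 3 2 g + ct 4 1 g + l * cf [1, 0] g :=
  n1_lin_add (n1_lin_add (n1_lin_add (n1_lin_add (n1_lin_ct _ _) (n1_lin_ct _ _)) (n1_lin_ct _ _)) (n1_lin_ct _ _))
    (n1_lin_mul _ (n1_lin_cf _))

private theorem n1_d2 (m : ℤ) : n1_lin fun g => ct 3 3 g + m * cf [1, 0] g :=
  n1_lin_add (n1_lin_ct _ _) (n1_lin_mul _ (n1_lin_cf _))

private theorem n1_q3 : n1_lin fun g => cq 2 2 1 1 g + cq 2 1 2 1 g + cq 2 1 1 2 g :=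
  n1_lin_add (n1_lin_add (n1_lin_cq _ _ _ _) (n1_lin_cq _ _ _ _)) (n1_lin_cq _ _ _ _)

private theorem n1_com_cm (φ : P →ₐ[ℤ] P) (u v : P) : com (u * φ (cm 0 1) * v) = 0 := by
  unfold cm
  rw [map_mul, map_mul, map_sub, map_sub, map_mul, map_mul, map_mul, map_mul, mul_comm (com (φ (X 1))), sub_self,
    mul_zero, zero_mul]

private theorem n1_ct_zero {g : P} (h : com g = 0) (i j : ℕ) : ct i j g = 0 := by
  unfold ct
  rw [h, MvPolynomial.coeff_zero]

private theorem n1_cq_zero {g : P} (h : com g = 0) (i j k l : ℕ) : cq i j k l g = 0 := by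
  unfold cq
  rw [h, MvPolynomial.coeff_zero]

/-- exponents of a word -/
private noncomputable def n1_D (w : List ℕ) : ℕ →₀ ℕ := Multiset.toFinsupp (w : Multiset ℕ)

private theorem n1_D_apply (w : List ℕ) (k : ℕ) : n1_D w k = w.count k := by
  unfold n1_D
  rw [Multiset.toFinsupp_apply, Multiset.coe_count]

private theorem n1_word (w : List ℕ) : com (mon w) = MvPolynomial.monomial (n1_D w) (1 : ℤ) := by
  rw [com_mon]
  induction w with
  | nil => simp [n1_D]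
  | cons a w ih =>
    have h : n1_D (a :: w) = Finsupp.single a 1 + n1_D w := by
      unfold n1_D
      rw [← Multiset.cons_coe, ← Multiset.singleton_add, map_add, Multiset.toFinsupp_singleton]
    rw [List.map_cons, List.prod_cons, ih, h]
    unfold MvPolynomial.X
    rw [MvPolynomial.monomial_mul, one_mul]

private theorem n1_coeff (w : List ℕ) (d : ℕ →₀ ℕ) : (com (mon w)).coeff d = if n1_D w = d then 1 else 0 := by
  classical
  rw [n1_word, MvPolynomial.coeff_monomial]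

/-- the word `x_0^m x_1` -/
private noncomputable def n1_w (m : ℕ) : List ℕ := List.replicate m 0 ++ [1]

private theorem n1_w_D (m : ℕ) : n1_D (n1_w m) = Finsupp.single 0 m + Finsupp.single 1 1 := by
  ext k
  rw [n1_D_apply]
  unfold n1_w
  rw [List.count_append, List.count_replicate, Finsupp.add_apply, Finsupp.single_apply, Finsupp.single_apply,
    List.count_singleton]
  simp only [beq_iff_eq]

private theorem n1_ct_w (m i j : ℕ) : ct i j (mon (n1_w m)) = if m = i ∧ 1 = j then 1 else 0 := by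
  unfold ct
  rw [n1_coeff, n1_w_D]
  congr 1
  rw [eq_iff_iff]
  constructor
  · intro h
    have h0 := DFunLike.congr_fun h 0
    have h1 := DFunLike.congr_fun h 1
    rw [Finsupp.add_apply, Finsupp.add_apply, Finsupp.single_eq_same, Finsupp.single_eq_same,
      Finsupp.single_eq_of_ne (by norm_num), Finsupp.single_eq_of_ne (by norm_num)] at h0
    rw [Finsupp.add_apply, Finsupp.add_apply, Finsupp.single_eq_same, Finsupp.single_eq_same,
      Finsupp.single_eq_of_ne (by norm_num), Finsupp.single_eq_of_ne (by norm_num)] at h1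
    omega
  · rintro ⟨rfl, rfl⟩
    rfl

private theorem n1_w_Fge {n m : ℕ} (h : n ≤ m + 1) : mon (n1_w m) ∈ Fge n := by
  refine Submodule.subset_span ⟨n1_w m, ?_, rfl⟩
  unfold n1_w
  rw [List.length_append, List.length_replicate, List.length_singleton]
  exact h

theorem KC_add (p : ℕ) : AddS (KC p) := by
  by_cases hp : p = 3
  · rw [hp, n1_KC3]
    exact n1_add (n1_lin_cc _ _) (n1_lin_sub (n1_lin_cc _ _) (n1_lin_cc _ _))
      (n1_lin_sub (n1_lin_cc _ _) (n1_lin_cc _ _))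
  · rw [n1_KC hp]
    exact n1_add n1_c3 n1_c4 n1_c5

theorem KC2_add (l m : ℤ) : AddS (KC2 l m) := by
  rw [n1_KC2]
  exact n1_add (n1_d1 l) (n1_d2 m) (n1_lin_mul 0 (n1_lin_cf _))

theorem KT4_add : AddS KT4 := by
  exact n1_add (n1_lin_cq _ _ _ _) (n1_lin_sub (n1_lin_cq _ _ _ _) (n1_lin_cq _ _ _ _)) n1_q3

theorem CP_isT (p : ℕ) : IsT (CP p) := LT_isT (KC_add p)

theorem C2_isT (l m : ℤ) : IsT (C2 l m) := LT_isT (KC2_add l m)

theorem T4_isT : IsT T4 := LT_isT KT4_add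

theorem CP_p (p : ℕ) : Mul p (CP p) := by
  unfold CP
  by_cases hp : p = 3
  · rw [hp, n1_KC3]
    exact n1_mul (n1_lin_cc _ _) (n1_lin_sub (n1_lin_cc _ _) (n1_lin_cc _ _))
      (n1_lin_sub (n1_lin_cc _ _) (n1_lin_cc _ _))
  · rw [n1_KC hp]
    exact n1_mul n1_c3 n1_c4 n1_c5

theorem C2_2 (l m : ℤ) : Mul 2 (C2 l m) := by
  unfold C2
  rw [n1_KC2]
  exact n1_mul (n1_d1 l) (n1_d2 m) (n1_lin_mul 0 (n1_lin_cf _))

theorem T4_2 : Mul 2 T4 := by
  exact n1_mul (n1_lin_cq _ _ _ _) (n1_lin_sub (n1_lin_cq _ _ _ _) (n1_lin_cq _ _ _ _)) n1_q3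

theorem CP_cm (p : ℕ) : cm 0 1 ∈ CP p := by
  unfold CP
  rw [LT_iff (KC_add p)]
  refine ⟨cm_mem 0 1, fun φ _ u v => ?_⟩
  have h : ∀ i, cc p i (u * φ (cm 0 1) * v) = 0 := fun i => n1_ct_zero (n1_com_cm φ u v) _ _
  by_cases hp : p = 3
  · subst hp
    rw [n1_KC3, Set.mem_ofPred_eq, h, h, h, h]
    simp
  · rw [n1_KC hp, Set.mem_ofPred_eq, h, h, h, h, h]
    simp

theorem T4_cm : cm 0 1 ∈ T4 := by
  unfold T4
  rw [LT_iff KT4_add]
  refine ⟨cm_mem 0 1, fun φ _ u v => ?_⟩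
  have h : ∀ i j k l, cq i j k l (u * φ (cm 0 1) * v) = 0 := fun i j k l => n1_cq_zero (n1_com_cm φ u v) _ _ _ _
  unfold KT4
  rw [Set.mem_ofPred_eq, h, h, h, h, h]
  simp

theorem CP_Fge {p : ℕ} (hp : p.Prime) (h3 : 3 ≤ p) : ¬ Fge (p + 2) ≤ CP p := by
  intro hle
  by_cases h : p = 3
  · subst h
    have h1 : mon (n1_w 8) ∈ KC 3 := LT_sub (KC_add 3) (hle (n1_w_Fge (by norm_num)))
    rw [n1_KC3] at h1
    have h2 := h1.1
    unfold cc at h2
    rw [n1_ct_w, if_pos (by norm_num)] at h2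
    norm_num at h2
  · have h1 : mon (n1_w (4 * p - 2)) ∈ KC p := LT_sub (KC_add p) (hle (n1_w_Fge (by omega)))
    rw [n1_KC h] at h1
    have h2 := h1.2.1
    have e0 : ∀ i, i < 4 → cc p i (mon (n1_w (4 * p - 2))) = 0 := by
      intro i hi
      unfold cc
      rw [n1_ct_w, if_neg]
      rintro ⟨_, h4⟩
      rw [if_neg h] at h4
      have h5 : (p - 1) * (4 - i) = 0 := by omega
      rcases Nat.mul_eq_zero.1 h5 with h6 | h6 <;> omega
    have e4 : cc p 4 (mon (n1_w (4 * p - 2))) = 1 := by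
      unfold cc
      rw [n1_ct_w, if_pos]
      rw [if_neg h]
      constructor
      · omega
      · simp
    rw [e0 0 (by norm_num), e0 1 (by norm_num), e0 2 (by norm_num), e4] at h2
    have h3 : (p : ℤ) ∣ 1 := by simpa using h2
    have h4 := Int.le_of_dvd one_pos h3
    omega

theorem C2_Fge (l m : ℤ) : ¬ Fge 4 ≤ C2 l m := by
  intro hle
  have h1 : mon (n1_w 4) ∈ KC2 l m := LT_sub (KC2_add l m) (hle (n1_w_Fge (by norm_num)))
  have h2 := h1.1
  have hc : cf [1, 0] (mon (n1_w 4)) = 0 := by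
    rw [cf_mon, if_neg]
    unfold n1_w
    intro h3
    have h4 := congrArg List.length h3
    simp at h4
  rw [n1_ct_w, n1_ct_w, n1_ct_w, n1_ct_w, hc] at h2
  norm_num at h2

theorem T4_Fge : ¬ Fge 4 ≤ T4 := by
  intro hle
  have h1 : mon [0, 0, 0, 1, 2, 3] ∈ KT4 :=
    LT_sub KT4_add (hle (Submodule.subset_span ⟨_, by norm_num, rfl⟩))
  have h2 := h1.1
  have h3 : cq 3 1 1 1 (mon [0, 0, 0, 1, 2, 3]) = 1 := by
    unfold cq
    rw [n1_coeff, if_pos]
    ext k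
    rw [n1_D_apply]
    simp only [Finsupp.add_apply, Finsupp.single_apply, List.count_cons, List.count_nil, beq_iff_eq]
    split_ifs <;> omega
  rw [h3] at h2
  norm_num at h2

end ADP
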