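import Pool.Agent.ADP.NrT1
import Pool.Agent.ADP.NdC2
import Pool.Agent.ADM.CfMul

/-!
# ADP-NrT2: the T-ideals `C2 l m` are different, and contain `[x, y]` up to words of length `≥ 3`

`fC l m = cm 0 1 + l • (X 0^4 * X 1) + m • (X 0^3 * X 1^3)`.
* `fC_mem`: `LT_iff`; `α, β, γ, δ, ε` as in ADP.NdC2 (`M j i = cf [i] (φ (X j))`).  The consequence of `cm 0 1`: commutative image 0, `cf [1,0] = -ε (αδ - βγ)` (the part of degree 2 in `x_0, x_1` of `u [φx, φy] v` is `ε (αδ - βγ) (xy - yx)`; cf. `TN` in ADP.Nd2).  Of `x^4 y`: `L5`: `ct 1 4 + .. + ct 4 1 ≡ ε (αδ + βγ)` modulo 2,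
  `ct 3 3` even (`p4_33`), `cf [1,0] = 0`; of `x^3 y^3`: `ct`'s of degree 5 are 0, `ct 3 3 ≡ ε (αδ + βγ)`, `cf [1,0] = 0` (computations in ADP.NdC2; repeat or factor them out).  So `L5 = l ε (αδ + βγ) - l ε (αδ - βγ)` is even, likewise `L6`.
* `C2_cm`: `cm 0 1 = fC l m - (l • .. + m • ..)`.
* `C2_C2`: `fC l m ∈ C2 l' m'`, `LT_sub`: `ct 4 1 + l' cf [1,0] = l - l'`, `ct 3 3 + m' cf [1,0] = m - m'`.
-/

namespace ADP

open AD ADN ADC

private theorem t2_ct_add (a b : ℕ) (f g : P) : ct a b (f + g) = ct a b f + ct a b g := by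
  unfold ct
  rw [map_add, MvPolynomial.coeff_add]

private theorem t2_ct_smul (a b : ℕ) (l : ℤ) (f : P) : ct a b (l • f) = l * ct a b f := by
  unfold ct
  rw [map_zsmul, MvPolynomial.coeff_smul, smul_eq_mul]

private theorem t2_com (a b : ℕ) : com (X 0 ^ a * X 1 ^ b) =
    MvPolynomial.monomial (Finsupp.single 0 a + Finsupp.single 1 b) 1 := by
  have h : ∀ i, com (X i) = MvPolynomial.X i := fun i => by simp [com]
  rw [map_mul, map_pow, map_pow, h, h, MvPolynomial.X_pow_eq_monomial, MvPolynomial.X_pow_eq_monomial,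
    MvPolynomial.monomial_mul, one_mul]

private theorem t2_co (a b c d : ℕ) : ct a b (X 0 ^ c * X 1 ^ d) = if c = a ∧ d = b then 1 else 0 := by
  classical
  unfold ct
  rw [t2_com, MvPolynomial.coeff_monomial]
  by_cases h : c = a ∧ d = b
  · rw [if_pos h, if_pos]
    rw [h.1, h.2]
  · rw [if_neg h, if_neg]
    intro h1
    apply h
    have h2 := DFunLike.congr_fun h1 0
    have h3 := DFunLike.congr_fun h1 1
    simp only [Finsupp.add_apply, Finsupp.single_apply] at h2 h3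
    norm_num at h2 h3
    exact ⟨h2, h3⟩

private theorem t2_hom (a b : ℕ) : (com (X 0 ^ a * X 1 ^ b)).IsHomogeneous (a + b) := by
  rw [t2_com]
  apply MvPolynomial.isHomogeneous_monomial
  rw [map_add, Finsupp.degree_single, Finsupp.degree_single]

private theorem t2_un (p : ℕ) (M : ℕ → ℕ → ZMod p) (a b : ℕ) : un p M (com (X 0 ^ a * X 1 ^ b)) =
    (Polynomial.C (M 0 0) * Polynomial.X + Polynomial.C (M 0 1)) ^ a *
      (Polynomial.C (M 1 0) * Polynomial.X + Polynomial.C (M 1 1)) ^ b := by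
  have h : ∀ i, com (X i) = MvPolynomial.X i := fun i => by simp [com]
  unfold un
  rw [map_mul, map_pow, map_pow, h, h, MvPolynomial.eval₂_mul, MvPolynomial.eval₂_pow, MvPolynomial.eval₂_pow,
    MvPolynomial.eval₂_X, MvPolynomial.eval₂_X]

private theorem t2_41 (a b c d : ZMod 2) : (Polynomial.C a * Polynomial.X + Polynomial.C b) ^ 4 *
    (Polynomial.C c * Polynomial.X + Polynomial.C d) ^ 1 =
    Polynomial.C (a ^ 4 * c) * Polynomial.X ^ 5 + Polynomial.C (a ^ 4 * d + 4 * a ^ 3 * b * c) * Polynomial.X ^ 4 +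
    Polynomial.C (4 * a ^ 3 * b * d + 6 * a ^ 2 * b ^ 2 * c) * Polynomial.X ^ 3 +
    Polynomial.C (6 * a ^ 2 * b ^ 2 * d + 4 * a * b ^ 3 * c) * Polynomial.X ^ 2 +
    Polynomial.C (4 * a * b ^ 3 * d + b ^ 4 * c) * Polynomial.X + Polynomial.C (b ^ 4 * d) := by
  simp only [Polynomial.C_mul, Polynomial.C_add, Polynomial.C_pow, map_ofNat]
  ring

private theorem t2_33 (a b c d : ZMod 2) : (Polynomial.C a * Polynomial.X + Polynomial.C b) ^ 3 *
    (Polynomial.C c * Polynomial.X + Polynomial.C d) ^ 3 =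
    Polynomial.C (a ^ 3 * c ^ 3) * Polynomial.X ^ 6 +
    Polynomial.C (3 * a ^ 3 * c ^ 2 * d + 3 * a ^ 2 * b * c ^ 3) * Polynomial.X ^ 5 +
    Polynomial.C (3 * a ^ 3 * c * d ^ 2 + 9 * a ^ 2 * b * c ^ 2 * d + 3 * a * b ^ 2 * c ^ 3) * Polynomial.X ^ 4 +
    Polynomial.C (a ^ 3 * d ^ 3 + 9 * a ^ 2 * b * c * d ^ 2 + 9 * a * b ^ 2 * c ^ 2 * d + b ^ 3 * c ^ 3) *
      Polynomial.X ^ 3 +
    Polynomial.C (3 * a ^ 2 * b * d ^ 3 + 9 * a * b ^ 2 * c * d ^ 2 + 3 * b ^ 3 * c ^ 2 * d) * Polynomial.X ^ 2 +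
    Polynomial.C (3 * a * b ^ 2 * d ^ 3 + 3 * b ^ 3 * c * d ^ 2) * Polynomial.X + Polynomial.C (b ^ 3 * d ^ 3) := by
  simp only [Polynomial.C_mul, Polynomial.C_add, Polynomial.C_pow, map_ofNat]
  ring

private theorem t2_s41 (a b c d e : ZMod 2) :
    e * ((Polynomial.C a * Polynomial.X + Polynomial.C b) ^ 4 *
      (Polynomial.C c * Polynomial.X + Polynomial.C d) ^ 1).coeff 1 +
    e * ((Polynomial.C a * Polynomial.X + Polynomial.C b) ^ 4 *
      (Polynomial.C c * Polynomial.X + Polynomial.C d) ^ 1).coeff 2 +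
    e * ((Polynomial.C a * Polynomial.X + Polynomial.C b) ^ 4 *
      (Polynomial.C c * Polynomial.X + Polynomial.C d) ^ 1).coeff 3 +
    e * ((Polynomial.C a * Polynomial.X + Polynomial.C b) ^ 4 *
      (Polynomial.C c * Polynomial.X + Polynomial.C d) ^ 1).coeff 4 = e * (b * c - d * a) := by
  rw [t2_41]
  simp only [Polynomial.coeff_add, Polynomial.coeff_C_mul, Polynomial.coeff_X_pow, Polynomial.coeff_X,
    Polynomial.coeff_C]
  norm_num
  revert a b c d e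
  decide

private theorem t2_s33 (a b c d e : ZMod 2) :
    e * ((Polynomial.C a * Polynomial.X + Polynomial.C b) ^ 3 *
      (Polynomial.C c * Polynomial.X + Polynomial.C d) ^ 3).coeff 3 = e * (b * c - d * a) := by
  rw [t2_33]
  simp only [Polynomial.coeff_add, Polynomial.coeff_C_mul, Polynomial.coeff_X_pow, Polynomial.coeff_X,
    Polynomial.coeff_C]
  norm_num
  revert a b c d e
  decide

private theorem t2_cf_sub (w : List ℕ) (f g : P) : cf w (f - g) = cf w f - cf w g := by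
  have h := cf_smul w (-1) g
  rw [sub_eq_add_neg, cf_add, ← neg_one_smul ℤ g, h]
  ring

private theorem t2_cmF : cm 0 1 ∈ Fge 2 := by
  have e : cm 0 1 = mon [0,1] - mon [1,0] := by
    unfold cm
    simp only [mon_cons, mon_nil, mul_one]
  rw [e]
  exact Submodule.sub_mem _ (Submodule.subset_span ⟨_, le_rfl, rfl⟩) (Submodule.subset_span ⟨_, le_rfl, rfl⟩)

private theorem t2_cm {φ : P →ₐ[ℤ] P} (hφ : IsSubst φ) (u v : P) :
    cf [1,0] (u * φ (cm 0 1) * v) = aug u * aug v * (cf [1] (φ (X 0)) * cf [0] (φ (X 1)) -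
      cf [1] (φ (X 1)) * cf [0] (φ (X 0))) ∧
    ∀ a b, ct a b (u * φ (cm 0 1) * v) = 0 := by
  have hF : φ (cm 0 1) ∈ Fge 2 := (isT_Fge 2 (by norm_num)).subst φ hφ _ t2_cmF
  have h0 : φ (X 0) ∈ Pp := mem_Pp.2 (hφ 0)
  have h1 : φ (X 1) ∈ Pp := mem_Pp.2 (hφ 1)
  have hp : φ (cm 0 1) = φ (X 0) * φ (X 1) - φ (X 1) * φ (X 0) := by
    unfold cm
    rw [map_sub, map_mul, map_mul]
  have hc : com (u * φ (cm 0 1) * v) = 0 := by
    rw [map_mul, map_mul, hp, map_sub, map_mul, map_mul, mul_comm (com (φ (X 1))), sub_self, mul_zero,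
      zero_mul]
  refine ⟨?_, fun a b => ?_⟩
  · rw [ADM.cf_sandwich (w := [1,0]) hF u v, hp, t2_cf_sub, ADM.cf_two h0 h1, ADM.cf_two h1 h0]
    ring
  · unfold ct
    rw [hc, MvPolynomial.coeff_zero]

private theorem t2_F (a b k : ℕ) (h : k ≤ a + b) : (X 0 ^ a * X 1 ^ b : P) ∈ Fge k := by
  have e : (X 0 ^ a * X 1 ^ b : P) = mon (List.replicate a 0 ++ List.replicate b 1) := by
    unfold mon
    rw [List.map_append, List.prod_append, List.map_replicate, List.map_replicate, List.prod_replicate,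
      List.prod_replicate]
  rw [e]
  refine Submodule.subset_span ⟨_, ?_, rfl⟩
  rw [List.length_append, List.length_replicate, List.length_replicate]
  exact h

private theorem t2_cf (a b : ℕ) (h : 3 ≤ a + b) {φ : P →ₐ[ℤ] P} (hφ : IsSubst φ) (u v : P) :
    cf [1,0] (u * φ (X 0 ^ a * X 1 ^ b) * v) = 0 :=
  ADM.cf_Fge (ADM.Fge_subst (by norm_num) (t2_F a b 3 h) hφ u v) (by norm_num)

private theorem t2_low {φ : P →ₐ[ℤ] P} (hφ : IsSubst φ) (u v : P) (a b : ℕ) (h : a + b = 5) :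
    ct a b (u * φ (X 0 ^ 3 * X 1 ^ 3) * v) = 0 := by
  unfold ct
  refine hl_low (D := 6) ?_ hφ u v _ ?_
  · intro m hm
    by_contra hc
    have := t2_hom 3 3 hc
    have h2 : m.degree = 3 + 3 := by
      rw [← this, Finsupp.degree_eq_weight_one]
      rfl
    omega
  · rw [map_add, Finsupp.degree_single, Finsupp.degree_single]
    omega

private theorem t2_e1 {φ : P →ₐ[ℤ] P} (hφ : IsSubst φ) (u v : P) :
    (2 : ℤ) ∣ ct 1 4 (u * φ (X 0 ^ 4 * X 1 ^ 1) * v) + ct 2 3 (u * φ (X 0 ^ 4 * X 1 ^ 1) * v) +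
      ct 3 2 (u * φ (X 0 ^ 4 * X 1 ^ 1) * v) + ct 4 1 (u * φ (X 0 ^ 4 * X 1 ^ 1) * v) +
      cf [1,0] (u * φ (cm 0 1) * v) := by
  rw [(t2_cm hφ u v).1]
  have h := (ZMod.intCast_zmod_eq_zero_iff_dvd (ct 1 4 (u * φ (X 0 ^ 4 * X 1 ^ 1) * v) +
    ct 2 3 (u * φ (X 0 ^ 4 * X 1 ^ 1) * v) +
    ct 3 2 (u * φ (X 0 ^ 4 * X 1 ^ 1) * v) + ct 4 1 (u * φ (X 0 ^ 4 * X 1 ^ 1) * v) +
    aug u * aug v * (cf [1] (φ (X 0)) * cf [0] (φ (X 1)) -
      cf [1] (φ (X 1)) * cf [0] (φ (X 0)))) 2).1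
  refine h ?_
  rw [Int.cast_add, Int.cast_add, Int.cast_add, Int.cast_add, ctu 2 (t2_hom 4 1) (by norm_num) hφ,
    ctu 2 (t2_hom 4 1) (by norm_num) hφ, ctu 2 (t2_hom 4 1) (by norm_num) hφ,
    ctu 2 (t2_hom 4 1) (by norm_num) hφ, t2_un, t2_s41, Int.cast_mul (aug u * aug v), Int.cast_sub,
    Int.cast_mul (cf [1] (φ (X 0))), Int.cast_mul (cf [1] (φ (X 1)))]
  exact CharTwo.add_self_eq_zero _

private theorem t2_e2 {φ : P →ₐ[ℤ] P} (hφ : IsSubst φ) (u v : P) :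
    (2 : ℤ) ∣ ct 3 3 (u * φ (X 0 ^ 3 * X 1 ^ 3) * v) + cf [1,0] (u * φ (cm 0 1) * v) := by
  rw [(t2_cm hφ u v).1]
  have h := (ZMod.intCast_zmod_eq_zero_iff_dvd (ct 3 3 (u * φ (X 0 ^ 3 * X 1 ^ 3) * v) +
    aug u * aug v * (cf [1] (φ (X 0)) * cf [0] (φ (X 1)) -
      cf [1] (φ (X 1)) * cf [0] (φ (X 0)))) 2).1
  refine h ?_
  rw [Int.cast_add, ctu 2 (t2_hom 3 3) (by norm_num) hφ, t2_un, t2_s33, Int.cast_mul (aug u * aug v),
    Int.cast_sub, Int.cast_mul (cf [1] (φ (X 0))), Int.cast_mul (cf [1] (φ (X 1)))]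
  exact CharTwo.add_self_eq_zero _

theorem fC_mem (l m : ℤ) : cm 0 1 + l • (X 0 ^ 4 * X 1) + m • (X 0 ^ 3 * X 1 ^ 3) ∈ C2 l m := by
  unfold C2
  rw [LT_iff (KC2_add l m)]
  refine ⟨Submodule.add_mem _ (Submodule.add_mem _ (cm_mem 0 1)
    (Submodule.smul_mem _ _ (Pp_mul_left _ (X_mem 1)))) (Submodule.smul_mem _ _ (Pp_mul_left _ ?_)),
    fun φ hφ u v => ?_⟩
  · rw [pow_succ]
    exact Pp_mul_left _ (X_mem 1)
  have e : u * φ (cm 0 1 + l • (X 0 ^ 4 * X 1) + m • (X 0 ^ 3 * X 1 ^ 3)) * v =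
      u * φ (cm 0 1) * v + l • (u * φ (X 0 ^ 4 * X 1 ^ 1) * v) + m • (u * φ (X 0 ^ 3 * X 1 ^ 3) * v) := by
    rw [pow_one, map_add, map_add, map_zsmul, map_zsmul, mul_add, add_mul, mul_add, add_mul,
      mul_smul_comm, smul_mul_assoc, mul_smul_comm, smul_mul_assoc]
  obtain ⟨-, h0⟩ := t2_cm hφ u v
  have h1 := t2_e1 hφ u v
  have h2 := t2_e2 hφ u v
  have h3 := p4_33 φ hφ u v
  rw [← pow_one (X 1 : P)] at h3
  rw [e]
  refine ⟨?_, ?_⟩
  · simp only [t2_ct_add, t2_ct_smul, h0, cf_add, cf_smul, t2_cf 4 1 (by norm_num) hφ,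
      t2_cf 3 3 (by norm_num) hφ, t2_low hφ u v 1 4 rfl, t2_low hφ u v 2 3 rfl, t2_low hφ u v 3 2 rfl,
      t2_low hφ u v 4 1 rfl]
    obtain ⟨k, hk⟩ := h1
    refine ⟨l * k, ?_⟩
    linear_combination l * hk
  · simp only [t2_ct_add, t2_ct_smul, h0, cf_add, cf_smul, t2_cf 4 1 (by norm_num) hφ,
      t2_cf 3 3 (by norm_num) hφ]
    obtain ⟨k, hk⟩ := h2
    obtain ⟨k', hk'⟩ := h3
    refine ⟨m * k + l * k', ?_⟩
    linear_combination m * hk + l * hk'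

theorem C2_cm (l m : ℤ) : cm 0 1 ∈ C2 l m ⊔ Fge 3 := by
  have e : cm 0 1 = (cm 0 1 + l • (X 0 ^ 4 * X 1) + m • (X 0 ^ 3 * X 1 ^ 3)) +
      -(l • (X 0 ^ 4 * X 1 ^ 1) + m • (X 0 ^ 3 * X 1 ^ 3)) := by
    rw [pow_one]
    abel
  rw [e]
  exact Submodule.add_mem_sup (fC_mem l m) (Submodule.neg_mem _ (Submodule.add_mem _
    (Submodule.smul_mem _ _ (t2_F 4 1 3 (by norm_num))) (Submodule.smul_mem _ _ (t2_F 3 3 3 (by norm_num)))))

theorem C2_C2 {l m l' m' : ℤ} (h : C2 l m ≤ C2 l' m') : (2 : ℤ) ∣ l - l' ∧ (2 : ℤ) ∣ m - m' := by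
  have h1 := h (fC_mem l m)
  have h2 := LT_sub (KC2_add l' m') h1
  have hid : IsSubst (AlgHom.id ℤ P) := fun i => ADC.aug_X i
  have hc := t2_cm hid 1 1
  obtain ⟨hc1, hc2⟩ := hc
  have c4 := t2_cf 4 1 (by norm_num) hid 1 1
  have c3 := t2_cf 3 3 (by norm_num) hid 1 1
  simp only [AlgHom.id_apply, one_mul, mul_one, map_one] at hc1 hc2 c4 c3
  have hX : ∀ i j : ℕ, cf [i] (X j : P) = if [j] = [i] then 1 else 0 := by
    intro i j
    rw [← cf_mon, mon_cons, mon_nil, mul_one]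
  rw [hX, hX, hX, hX] at hc1
  norm_num at hc1
  rw [← pow_one (X 1 : P)] at h2
  obtain ⟨g1, g2⟩ := h2
  have e : (cm 0 1 + l • (X 0 ^ 4 * X 1 ^ 1) + m • (X 0 ^ 3 * (X 1 ^ 1) ^ 3) : P) =
    cm 0 1 + l • (X 0 ^ 4 * X 1 ^ 1) + m • (X 0 ^ 3 * X 1 ^ 3) := by rw [pow_one]
  rw [e] at g1 g2
  simp only [t2_ct_add, t2_ct_smul, cf_add, cf_smul, hc1, hc2, c4, c3, t2_co] at g1 g2
  norm_num at g1 g2
  constructor
  · rwa [← sub_eq_add_neg] at g1
  · rwa [← sub_eq_add_neg] at g2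

end ADP
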