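import Pool.Agent.ADP.NrH

/-!
# ADP-NrU: consequences of a homogeneous polynomial, contents in two letters, modulo `p`

`x_0 ↦ X`, `x_1 ↦ 1`, the other variables to 0.
-/

namespace ADP

open AD ADN ADC

/-- the image of `F` under `x_j ↦ M j 0 * X + M j 1`, modulo `p` -/
noncomputable def un (p : ℕ) (M : ℕ → ℕ → ZMod p) (F : MvPolynomial ℕ ℤ) : Polynomial (ZMod p) :=
  MvPolynomial.eval₂ (Int.castRingHom (Polynomial (ZMod p)))
    (fun j => Polynomial.C (M j 0) * Polynomial.X + Polynomial.C (M j 1)) F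

private noncomputable def nruG (p : ℕ) (i : ℕ) : Polynomial (ZMod p) :=
  if i = 0 then Polynomial.X else if i = 1 then 1 else 0

private noncomputable def nruT (p : ℕ) : MvPolynomial ℕ ℤ →+* Polynomial (ZMod p) :=
  MvPolynomial.eval₂Hom (Int.castRingHom (Polynomial (ZMod p))) (nruG p)

private theorem nru_prod (p : ℕ) {d : ℕ →₀ ℕ} (h : ∀ i, 2 ≤ i → d i = 0) :
    (d.prod fun i k => nruG p i ^ k) = Polynomial.X ^ d 0 := by
  classical
  rw [Finsupp.prod_of_support_subset d (s := {0, 1}) _ _ (fun i _ => pow_zero _)]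
  · rw [Finset.prod_insert (by decide), Finset.prod_singleton]
    unfold nruG
    rw [if_pos rfl, if_neg (by decide), if_pos rfl, one_pow, mul_one]
  · intro i hi
    have h1 := Finsupp.mem_support_iff.1 hi
    have h2 : i < 2 := by
      by_contra hc
      exact h1 (h i (not_lt.1 hc))
    simp only [Finset.mem_insert, Finset.mem_singleton]
    omega

private theorem nru_prod0 (p : ℕ) {d : ℕ →₀ ℕ} {i : ℕ} (hi : 2 ≤ i) (h : d i ≠ 0) :
    (d.prod fun i k => nruG p i ^ k) = 0 := by
  refine Finset.prod_eq_zero (Finsupp.mem_support_iff.2 h) ?_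
  show nruG p i ^ d i = 0
  unfold nruG
  rw [if_neg (by omega), if_neg (by omega), zero_pow h]

private theorem nru_deg {d : ℕ →₀ ℕ} (h : ∀ i, 2 ≤ i → d i = 0) :
    d = Finsupp.single 0 (d 0) + Finsupp.single 1 (d 1) := by
  ext i
  rcases i with _ | i
  · simp
  · rcases i with _ | i
    · simp
    · rw [h _ (by omega), Finsupp.add_apply, Finsupp.single_eq_of_ne (by omega),
        Finsupp.single_eq_of_ne (by omega), add_zero]

private theorem nru_co (p : ℕ) {D a b : ℕ} {G : MvPolynomial ℕ ℤ} (hG : G.IsHomogeneous D) (hab : a + b = D) :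
    (nruT p G).coeff a = ((G.coeff (Finsupp.single 0 a + Finsupp.single 1 b) : ℤ) : ZMod p) := by
  classical
  have h1 : nruT p G = ∑ d ∈ G.support, ((G.coeff d : ℤ) : Polynomial (ZMod p)) *
      (d.prod fun i k => nruG p i ^ k) := by
    conv_lhs => rw [G.as_sum, map_sum]
    refine Finset.sum_congr rfl fun d _ => ?_
    unfold nruT
    rw [MvPolynomial.eval₂Hom_monomial]
    rfl
  have h2 : ∀ d ∈ G.support, (((G.coeff d : ℤ) : Polynomial (ZMod p)) *
      (d.prod fun i k => nruG p i ^ k)).coeff a =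
      if d = Finsupp.single 0 a + Finsupp.single 1 b then ((G.coeff d : ℤ) : ZMod p) else 0 := by
    intro d hd
    have hdeg : d.degree = D := by
      have h3 := hG (MvPolynomial.mem_support_iff.1 hd)
      rw [← h3, Finsupp.degree_eq_weight_one]
      rfl
    have hC : ((G.coeff d : ℤ) : Polynomial (ZMod p)) = Polynomial.C ((G.coeff d : ℤ) : ZMod p) := by
      simp
    by_cases h : ∀ i, 2 ≤ i → d i = 0
    · rw [nru_prod p h, hC, Polynomial.coeff_C_mul, Polynomial.coeff_X_pow]
      have e := nru_deg h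
      have h4 : d 0 + d 1 = D := by
        rw [e, map_add, Finsupp.degree_single, Finsupp.degree_single] at hdeg
        exact hdeg
      by_cases h5 : d = Finsupp.single 0 a + Finsupp.single 1 b
      · rw [if_pos h5, if_pos, mul_one]
        rw [h5]
        simp
      · rw [if_neg h5, if_neg, mul_zero]
        intro h6
        apply h5
        rw [e, ← h6]
        congr 2
        omega
    · push Not at h
      obtain ⟨i, hi, h0⟩ := h
      rw [nru_prod0 p hi h0, mul_zero, Polynomial.coeff_zero, if_neg]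
      intro h5
      apply h0
      rw [h5, Finsupp.add_apply, Finsupp.single_eq_of_ne (by omega), Finsupp.single_eq_of_ne (by omega),
        add_zero]
  rw [h1, Polynomial.finsetSum_coeff, Finset.sum_congr rfl h2, Finset.sum_ite_eq']
  by_cases h3 : (Finsupp.single 0 a + Finsupp.single 1 b) ∈ G.support
  · rw [if_pos h3]
  · rw [if_neg h3, MvPolynomial.notMem_support_iff.1 h3, Int.cast_zero]

private theorem nru_un (p : ℕ) (N : ℕ → ℕ → ℤ) (F : MvPolynomial ℕ ℤ) :
    nruT p (MvPolynomial.aeval (fun j => ∑ i ∈ Finset.range 2, MvPolynomial.C (N j i) *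
      (MvPolynomial.X i : MvPolynomial ℕ ℤ)) F) = un p (fun j i => ((N j i : ℤ) : ZMod p)) F := by
  have h : (nruT p).comp ((MvPolynomial.aeval (fun j => ∑ i ∈ Finset.range 2, MvPolynomial.C (N j i) *
      (MvPolynomial.X i : MvPolynomial ℕ ℤ)) : MvPolynomial ℕ ℤ →ₐ[ℤ] MvPolynomial ℕ ℤ) :
        MvPolynomial ℕ ℤ →+* MvPolynomial ℕ ℤ) =
      MvPolynomial.eval₂Hom (Int.castRingHom (Polynomial (ZMod p)))
        (fun j => Polynomial.C ((N j 0 : ℤ) : ZMod p) * Polynomial.X +
          Polynomial.C ((N j 1 : ℤ) : ZMod p)) := by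
    apply MvPolynomial.ringHom_ext
    · intro r
      simp
    · intro j
      simp only [RingHom.comp_apply, RingHom.coe_coe, MvPolynomial.aeval_X, MvPolynomial.eval₂Hom_X',
        Finset.sum_range_succ, Finset.sum_range_zero, zero_add, map_add, map_mul]
      unfold nruT
      simp only [MvPolynomial.eval₂Hom_X', MvPolynomial.eval₂Hom_C]
      unfold nruG
      simp
  have h2 := DFunLike.congr_fun h F
  exact h2

private theorem nru_L (N : ℕ → ℤ) : (∑ i ∈ Finset.range 2, MvPolynomial.C (N i) *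
    (MvPolynomial.X i : MvPolynomial ℕ ℤ)).IsHomogeneous 1 :=
  MvPolynomial.IsHomogeneous.sum _ _ _ fun _ _ => MvPolynomial.isHomogeneous_C_mul_X _ _

theorem ctu (p : ℕ) {D a b : ℕ} {f : P} (hf : (com f).IsHomogeneous D) (hab : a + b = D) {φ : P →ₐ[ℤ] P}
    (hφ : IsSubst φ) (u v : P) : ((ct a b (u * φ f * v) : ℤ) : ZMod p) = ((aug u * aug v : ℤ) : ZMod p) *
      (un p (fun j i => ((cf [i] (φ (X j)) : ℤ) : ZMod p)) (com f)).coeff a := by
  unfold ct
  have hm : (Finsupp.single 0 a + Finsupp.single 1 b : ℕ →₀ ℕ).degree = D := by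
    rw [map_add, Finsupp.degree_single, Finsupp.degree_single]
    exact hab
  have hr : ∀ i, 2 ≤ i → (Finsupp.single 0 a + Finsupp.single 1 b : ℕ →₀ ℕ) i = 0 := by
    intro i hi
    rw [Finsupp.add_apply, Finsupp.single_eq_of_ne (by omega), Finsupp.single_eq_of_ne (by omega),
      add_zero]
  rw [hl hf hφ u v _ hm hr, Int.cast_mul]
  congr 1
  have hG := MvPolynomial.IsHomogeneous.aeval hf
    (fun j => ∑ i ∈ Finset.range 2, MvPolynomial.C (cf [i] (φ (X j))) *
      (MvPolynomial.X i : MvPolynomial ℕ ℤ)) (fun j => nru_L fun i => cf [i] (φ (X j)))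
  rw [one_mul] at hG
  rw [← nru_co p hG hab, nru_un p (fun j i => cf [i] (φ (X j)))]

end ADP
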