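import Pool.Agent.ADP.NrT1
import Pool.Agent.ADP.NrU

/-!
# ADP-NrT3: `T4` and `C2 l m` are not comparable
-/

namespace ADP

open AD ADN ADC

private theorem t3_const (g : P) : (com g).coeff 0 = aug g := by
  have h1 : ((MvPolynomial.aeval (fun _ => (0 : ℤ)) : MvPolynomial ℕ ℤ →ₐ[ℤ] ℤ).comp com) =
      aug := by
    apply FreeAlgebra.hom_ext
    funext i
    simp [com, aug]
  have h2 := DFunLike.congr_fun h1 g
  rw [← h2, AlgHom.comp_apply]
  have h3 : ∀ G : MvPolynomial ℕ ℤ, MvPolynomial.aeval (fun _ => (0 : ℤ)) G = G.coeff 0 := by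
    intro G
    rw [MvPolynomial.aeval_zero']
    rfl
  rw [h3]

/-- the consequences of `x_0^4 x_1` have even coefficients at the contents with all exponents at most 3 -/
private theorem t3_p4 (φ : P →ₐ[ℤ] P) (hφ : IsSubst φ) (u v : P) (m : ℕ →₀ ℕ) (hm : ∀ i, m i ≤ 3) :
    (2 : ℤ) ∣ (com (u * φ (X 0 ^ 4 * X 1) * v)).coeff m := by
  classical
  have e0 : com (X 0 ^ 4 * X 1) = (MvPolynomial.X 0 ^ 4 * MvPolynomial.X 1 : MvPolynomial ℕ ℤ) := by
    simp [com]
  have key : (((com (u * φ (X 0 ^ 4 * X 1) * v)).coeff m : ℤ) : ZMod 2) = 0 := by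
    have e1 : ∀ G : MvPolynomial ℕ ℤ, ∀ m : ℕ →₀ ℕ, ((G.coeff m : ℤ) : ZMod 2) =
        (MvPolynomial.map (Int.castRingHom (ZMod 2)) G).coeff m := by
      intro G m
      rw [MvPolynomial.coeff_map]
      rfl
    rw [e1, com_conseq, e0, map_mul (MvPolynomial.aeval fun j => com (φ (X j))), map_pow, MvPolynomial.aeval_X,
      MvPolynomial.aeval_X, map_mul, map_mul, map_mul, map_pow]
    set a := MvPolynomial.map (Int.castRingHom (ZMod 2)) (com (φ (X 0))) with ha
    set b := MvPolynomial.map (Int.castRingHom (ZMod 2)) (com (φ (X 1))) with hb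
    set c := MvPolynomial.map (Int.castRingHom (ZMod 2)) (com u) with hc
    set d := MvPolynomial.map (Int.castRingHom (ZMod 2)) (com v) with hd
    have e2 : a ^ 4 = MvPolynomial.expand (2 * 2) a := by
      rw [MvPolynomial.expand_mul, MvPolynomial.expand_zmod, MvPolynomial.expand_zmod, ← pow_mul]
    have e3 : c * (a ^ 4 * b) * d = MvPolynomial.expand (2 * 2) a * (c * b * d) := by
      rw [e2]
      ring
    have h0 : a.coeff 0 = 0 := by
      rw [ha, ← e1, t3_const, hφ 0]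
      rfl
    rw [e3, MvPolynomial.coeff_mul]
    refine Finset.sum_eq_zero fun q hq => ?_
    have hq1 : q.1 + q.2 = m := Finset.HasAntidiagonal.mem_antidiagonal.1 hq
    by_cases hz : q.1 = 0
    · rw [hz, MvPolynomial.coeff_expand_zero _ (by norm_num), h0, zero_mul]
    · have h1 : ∃ i, q.1 i ≠ 0 := by
        by_contra hc'
        push Not at hc'
        exact hz (Finsupp.ext hc')
      obtain ⟨i, hi⟩ := h1
      have h2 : q.1 i ≤ 3 := by
        have h3 := congrArg (fun m : ℕ →₀ ℕ => m i) hq1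
        simp only [Finsupp.add_apply] at h3
        have h4 := hm i
        omega
      rw [MvPolynomial.coeff_expand_of_not_dvd (i := i), zero_mul]
      intro h
      have := Nat.le_of_dvd (Nat.pos_of_ne_zero hi) h
      omega
  exact (ZMod.intCast_zmod_eq_zero_iff_dvd _ 2).1 key

private noncomputable def t3m (i j k l : ℕ) : ℕ →₀ ℕ :=
  Finsupp.single 0 i + Finsupp.single 1 j + Finsupp.single 2 k + Finsupp.single 3 l

private theorem t3m_0 (i j k l : ℕ) : t3m i j k l 0 = i := by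
  simp [t3m]

private theorem t3m_1 (i j k l : ℕ) : t3m i j k l 1 = j := by
  simp [t3m]

private theorem t3m_2 (i j k l : ℕ) : t3m i j k l 2 = k := by
  simp [t3m]

private theorem t3m_3 (i j k l : ℕ) : t3m i j k l 3 = l := by
  simp [t3m]

private theorem t3m_ge (i j k l : ℕ) {n : ℕ} (hn : 4 ≤ n) : t3m i j k l n = 0 := by
  unfold t3m
  rw [Finsupp.add_apply, Finsupp.add_apply, Finsupp.add_apply, Finsupp.single_eq_of_ne (by omega),
    Finsupp.single_eq_of_ne (by omega), Finsupp.single_eq_of_ne (by omega), Finsupp.single_eq_of_ne (by omega),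
    add_zero, add_zero, add_zero]

private theorem t3m_le {i j k l : ℕ} (hi : i ≤ 3) (hj : j ≤ 3) (hk : k ≤ 3) (hl : l ≤ 3) (n : ℕ) :
    t3m i j k l n ≤ 3 := by
  rcases n with _ | _ | _ | _ | n
  · rw [t3m_0]
    exact hi
  · rw [t3m_1]
    exact hj
  · rw [t3m_2]
    exact hk
  · rw [t3m_3]
    exact hl
  · rw [t3m_ge _ _ _ _ (by omega)]
    omega

private theorem t3m_inj {i j k l i' j' k' l' : ℕ} :
    t3m i j k l = t3m i' j' k' l' ↔ (i = i' ∧ j = j' ∧ k = k' ∧ l = l') := by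
  constructor
  · intro h
    have h0 := congrArg (fun m : ℕ →₀ ℕ => m 0) h
    have h1 := congrArg (fun m : ℕ →₀ ℕ => m 1) h
    have h2 := congrArg (fun m : ℕ →₀ ℕ => m 2) h
    have h3 := congrArg (fun m : ℕ →₀ ℕ => m 3) h
    simp only [t3m_0, t3m_1, t3m_2, t3m_3] at h0 h1 h2 h3
    exact ⟨h0, h1, h2, h3⟩
  · rintro ⟨rfl, rfl, rfl, rfl⟩
    rfl

private theorem t3m_cq (i j k l : ℕ) (g : P) : cq i j k l g = (com g).coeff (t3m i j k l) := rfl

private theorem t3m_ct (i j : ℕ) (g : P) : ct i j g = (com g).coeff (t3m i j 0 0) := by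
  unfold ct t3m
  rw [Finsupp.single_zero, Finsupp.single_zero, add_zero, add_zero]

private theorem t3_com (i j k l : ℕ) : com (X 0 ^ i * X 1 ^ j * X 2 ^ k * X 3 ^ l) =
    MvPolynomial.monomial (t3m i j k l) 1 := by
  have h : ∀ i, com (X i) = MvPolynomial.X i := fun i => by simp [com]
  rw [map_mul, map_mul, map_mul, map_pow, map_pow, map_pow, map_pow, h, h, h, h, MvPolynomial.X_pow_eq_monomial,
    MvPolynomial.X_pow_eq_monomial, MvPolynomial.X_pow_eq_monomial, MvPolynomial.X_pow_eq_monomial,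
    MvPolynomial.monomial_mul, MvPolynomial.monomial_mul, MvPolynomial.monomial_mul, one_mul, one_mul, one_mul]
  rfl

private theorem t3_cf {g : P} (hg : g ∈ Fge 5) : cf [1, 0] g = 0 := by
  unfold Fge at hg
  induction hg using Submodule.span_induction with
  | mem f hf =>
    obtain ⟨w, hw, rfl⟩ := hf
    rw [cf_mon, if_neg]
    rintro rfl
    simp at hw
  | zero =>
    have h := cf_smul [1, 0] 0 0
    rw [zero_smul, zero_mul] at h
    exact h
  | add x y _ _ hx hy => rw [cf_add, hx, hy, add_zero]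
  | smul c x _ hx => rw [cf_smul, hx, mul_zero]

private theorem t3_F {i j k l : ℕ} (h : 5 ≤ i + j + k + l) : (X 0 ^ i * X 1 ^ j * X 2 ^ k * X 3 ^ l : P) ∈ Fge 5 := by
  have e : (X 0 ^ i * X 1 ^ j * X 2 ^ k * X 3 ^ l : P) =
      mon (List.replicate i 0 ++ List.replicate j 1 ++ List.replicate k 2 ++ List.replicate l 3) := by
    rw [mon_append, mon_append, mon_append]
    unfold mon
    rw [List.map_replicate, List.map_replicate, List.map_replicate, List.map_replicate, List.prod_replicate,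
      List.prod_replicate, List.prod_replicate, List.prod_replicate]
  rw [e]
  refine Submodule.subset_span ⟨_, ?_, rfl⟩
  simp
  omega

private theorem t3_f : (X 0 ^ 4 * X 1 : P) = X 0 ^ 4 * X 1 ^ 1 * X 2 ^ 0 * X 3 ^ 0 := by
  rw [pow_one, pow_zero, pow_zero, mul_one, mul_one]

theorem T4_C2 (l m : ℤ) : ¬ T4 ≤ C2 l m := by
  classical
  intro hle
  have hF : (X 0 ^ 4 * X 1 : P) ∈ Fge 5 := by
    rw [t3_f]
    exact t3_F (by omega)
  have hT : (X 0 ^ 4 * X 1 : P) ∈ T4 := by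
    refine (LT_iff KT4_add).2 ⟨(isT_Fge 5 (by omega)).le hF, fun φ hφ u v => ?_⟩
    have h : ∀ i j k l : ℕ, i ≤ 3 → j ≤ 3 → k ≤ 3 → l ≤ 3 → (2 : ℤ) ∣ cq i j k l (u * φ (X 0 ^ 4 * X 1) * v) := by
      intro i j k l hi hj hk hl
      rw [t3m_cq]
      exact t3_p4 φ hφ u v _ (t3m_le hi hj hk hl)
    refine ⟨?_, ?_, ?_⟩
    · exact h _ _ _ _ (by omega) (by omega) (by omega) (by omega)
    · exact dvd_sub (h _ _ _ _ (by omega) (by omega) (by omega) (by omega))
        (h _ _ _ _ (by omega) (by omega) (by omega) (by omega))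
    · exact dvd_add (dvd_add (h _ _ _ _ (by omega) (by omega) (by omega) (by omega))
        (h _ _ _ _ (by omega) (by omega) (by omega) (by omega)))
        (h _ _ _ _ (by omega) (by omega) (by omega) (by omega))
  have h1 : (2 : ℤ) ∣ ct 1 4 (X 0 ^ 4 * X 1) + ct 2 3 (X 0 ^ 4 * X 1) + ct 3 2 (X 0 ^ 4 * X 1) +
      ct 4 1 (X 0 ^ 4 * X 1) + l * cf [1, 0] (X 0 ^ 4 * X 1) := (LT_sub (KC2_add l m) (hle hT)).1
  have h2 : ∀ i j : ℕ, ct i j (X 0 ^ 4 * X 1) = if (4 = i ∧ 1 = j) then 1 else 0 := by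
    intro i j
    rw [t3m_ct, t3_f, t3_com, MvPolynomial.coeff_monomial]
    refine if_congr ?_ rfl rfl
    rw [t3m_inj]
    tauto
  rw [h2, h2, h2, h2, t3_cf hF] at h1
  norm_num at h1

private theorem t3_sq (a b : ZMod 2) : (Polynomial.C a * Polynomial.X + Polynomial.C b) ^ 2 =
    Polynomial.C a * Polynomial.X ^ 2 + Polynomial.C b := by
  have hs : ∀ x : ZMod 2, x ^ 2 = x := by decide
  have h2 : (2 : Polynomial (ZMod 2)) = 0 := by
    have : (2 : ZMod 2) = 0 := by decide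
    rw [← Polynomial.C_ofNat, this, Polynomial.C_0]
  have e : (Polynomial.C a * Polynomial.X + Polynomial.C b) ^ 2 = Polynomial.C (a ^ 2) * Polynomial.X ^ 2 +
      Polynomial.C (b ^ 2) + 2 * (Polynomial.C a * Polynomial.X * Polynomial.C b) := by
    rw [Polynomial.C_pow, Polynomial.C_pow]
    ring
  rw [e, h2, zero_mul, add_zero, hs, hs]

private theorem t3_c3 (a b c d e f g h : ZMod 2) :
    ((Polynomial.C a * Polynomial.X + Polynomial.C b) ^ 2 * (Polynomial.C c * Polynomial.X + Polynomial.C d) ^ 2 *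
      (Polynomial.C e * Polynomial.X + Polynomial.C f) * (Polynomial.C g * Polynomial.X + Polynomial.C h)).coeff 3 =
    (a * d + b * c) * (e * h + f * g) := by
  rw [t3_sq, t3_sq]
  have q : (Polynomial.C a * Polynomial.X ^ 2 + Polynomial.C b) * (Polynomial.C c * Polynomial.X ^ 2 + Polynomial.C d) *
      (Polynomial.C e * Polynomial.X + Polynomial.C f) * (Polynomial.C g * Polynomial.X + Polynomial.C h) =
      Polynomial.C (a * c * e * g) * Polynomial.X ^ 6 +
      Polynomial.C (a * c * (e * h + f * g)) * Polynomial.X ^ 5 +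
      Polynomial.C (a * c * (f * h) + (a * d + b * c) * (e * g)) * Polynomial.X ^ 4 +
      Polynomial.C ((a * d + b * c) * (e * h + f * g)) * Polynomial.X ^ 3 +
      Polynomial.C ((a * d + b * c) * (f * h) + b * d * (e * g)) * Polynomial.X ^ 2 +
      Polynomial.C (b * d * (e * h + f * g)) * Polynomial.X ^ 1 + Polynomial.C (b * d * (f * h)) * Polynomial.X ^ 0 := by
    simp only [Polynomial.C_add, Polynomial.C_mul]
    ring
  rw [q]
  simp only [Polynomial.coeff_add, Polynomial.coeff_C_mul_X_pow]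
  norm_num

private theorem t3_un (M : ℕ → ℕ → ZMod 2) : (un 2 M (com (X 0 ^ 2 * X 1 ^ 2 * X 2 ^ 1 * X 3 ^ 1 +
    X 0 ^ 1 * X 1 ^ 1 * X 2 ^ 2 * X 3 ^ 2))).coeff 3 = 0 := by
  have h : ∀ i, com (X i) = MvPolynomial.X i := fun i => by simp [com]
  have e : un 2 M (com (X 0 ^ 2 * X 1 ^ 2 * X 2 ^ 1 * X 3 ^ 1 + X 0 ^ 1 * X 1 ^ 1 * X 2 ^ 2 * X 3 ^ 2)) =
      (Polynomial.C (M 0 0) * Polynomial.X + Polynomial.C (M 0 1)) ^ 2 *
        (Polynomial.C (M 1 0) * Polynomial.X + Polynomial.C (M 1 1)) ^ 2 *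
        (Polynomial.C (M 2 0) * Polynomial.X + Polynomial.C (M 2 1)) *
        (Polynomial.C (M 3 0) * Polynomial.X + Polynomial.C (M 3 1)) +
      (Polynomial.C (M 2 0) * Polynomial.X + Polynomial.C (M 2 1)) ^ 2 *
        (Polynomial.C (M 3 0) * Polynomial.X + Polynomial.C (M 3 1)) ^ 2 *
        (Polynomial.C (M 0 0) * Polynomial.X + Polynomial.C (M 0 1)) *
        (Polynomial.C (M 1 0) * Polynomial.X + Polynomial.C (M 1 1)) := by
    rw [map_add, map_mul, map_mul, map_mul, map_mul, map_mul, map_mul, map_pow, map_pow, map_pow, map_pow,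
      map_pow, map_pow, map_pow, map_pow, h, h, h, h]
    unfold un
    simp only [MvPolynomial.eval₂_add, MvPolynomial.eval₂_mul, MvPolynomial.eval₂_pow, MvPolynomial.eval₂_X]
    ring
  rw [e, Polynomial.coeff_add, t3_c3, t3_c3, mul_comm (M 2 0 * M 3 1 + M 2 1 * M 3 0)]
  exact CharTwo.add_self_eq_zero _

private theorem t3_hom : (com (X 0 ^ 2 * X 1 ^ 2 * X 2 ^ 1 * X 3 ^ 1 +
    X 0 ^ 1 * X 1 ^ 1 * X 2 ^ 2 * X 3 ^ 2)).IsHomogeneous 6 := by
  have hd : ∀ i j k l : ℕ, (t3m i j k l).degree = i + j + k + l := by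
    intro i j k l
    unfold t3m
    rw [map_add, map_add, map_add, Finsupp.degree_single, Finsupp.degree_single, Finsupp.degree_single,
      Finsupp.degree_single]
  rw [map_add, t3_com, t3_com]
  refine MvPolynomial.IsHomogeneous.add ?_ ?_
  · exact MvPolynomial.isHomogeneous_monomial _ (hd _ _ _ _)
  · exact MvPolynomial.isHomogeneous_monomial _ (hd _ _ _ _)

theorem C2_T4 (l m : ℤ) : ¬ C2 l m ≤ T4 := by
  classical
  intro hle
  set g : P := X 0 ^ 2 * X 1 ^ 2 * X 2 ^ 1 * X 3 ^ 1 + X 0 ^ 1 * X 1 ^ 1 * X 2 ^ 2 * X 3 ^ 2 with hg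
  have hF : g ∈ Fge 5 := add_mem (t3_F (by omega)) (t3_F (by omega))
  have hC : g ∈ C2 l m := by
    refine (LT_iff (KC2_add l m)).2 ⟨(isT_Fge 5 (by omega)).le hF, fun φ hφ u v => ?_⟩
    have hcf : cf [1, 0] (u * φ g * v) = 0 :=
      t3_cf ((isT_Fge 5 (by omega)).mul_right _ ((isT_Fge 5 (by omega)).mul_left _
        ((isT_Fge 5 (by omega)).subst φ hφ g hF) u) v)
    have hlow : ∀ i j : ℕ, i + j = 5 → ct i j (u * φ g * v) = 0 := by
      intro i j hij
      unfold ct
      refine hl_low (D := 6) ?_ hφ u v _ ?_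
      · intro m hm
        exact t3_hom.coeff_eq_zero (by omega)
      · rw [map_add, Finsupp.degree_single, Finsupp.degree_single]
        omega
    refine ⟨?_, ?_⟩
    · rw [hcf, hlow 1 4 (by omega), hlow 2 3 (by omega), hlow 3 2 (by omega), hlow 4 1 (by omega)]
      norm_num
    · rw [hcf, mul_zero, add_zero]
      refine (ZMod.intCast_zmod_eq_zero_iff_dvd _ 2).1 ?_
      rw [ctu 2 t3_hom (show 3 + 3 = 6 by omega) hφ u v, t3_un, mul_zero]
  have h1 : (2 : ℤ) ∣ cq 2 2 1 1 g + cq 2 1 2 1 g + cq 2 1 1 2 g := (LT_sub KT4_add (hle hC)).2.2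
  have h2 : ∀ i j k l : ℕ, cq i j k l g = (if (2 = i ∧ 2 = j ∧ 1 = k ∧ 1 = l) then 1 else 0) +
      (if (1 = i ∧ 1 = j ∧ 2 = k ∧ 2 = l) then 1 else 0) := by
    intro i j k l
    rw [t3m_cq, hg, map_add, t3_com, t3_com, MvPolynomial.coeff_add, MvPolynomial.coeff_monomial,
      MvPolynomial.coeff_monomial]
    rw [if_congr t3m_inj rfl rfl, if_congr t3m_inj rfl rfl]
  rw [h2, h2, h2] at h1
  norm_num at h1

end ADP
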