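import Pool.Agent.ADP.K2
import Pool.Agent.ADC.IncU
import Pool.Agent.ADC.N6
import Pool.Agent.ADC.GenW
import Pool.Agent.ADA.ExpMain

/-!
# ADP-Tb2: the three T-ideals for `p = 2` form an antichain

`UP 2`, `WP 2`, `TN`.
-/

namespace ADP

open AD ADN ADC

/-- the three T-ideals -/
def M3 : Set (Submodule ℤ P) := {E | E = ADA.UP 2 ∨ E = WP 2 ∨ E = TN}

private theorem tb2_cf0 (w : List ℕ) : cf w (0 : P) = 0 := by
  have h := cf_smul w 0 (0 : P)
  rwa [zero_smul, zero_mul] at h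

private theorem tb2_cfsub (w : List ℕ) (f g : P) : cf w (f - g) = cf w f - cf w g := by
  have h : f - g = f + (-1 : ℤ) • g := by
    rw [neg_one_smul, sub_eq_add_neg]
  rw [h, cf_add, cf_smul]
  ring

private theorem tb2_Fge {n : ℕ} {w : List ℕ} (hw : w.length < n) {f : P} (hf : f ∈ Fge n) : cf w f = 0 := by
  induction hf using Submodule.span_induction with
  | mem x hx =>
    obtain ⟨u, hu, rfl⟩ := hx
    rw [cf_mon, if_neg]
    rintro rfl
    omega
  | zero => exact tb2_cf0 w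
  | add x y _ _ hx hy => rw [cf_add, hx, hy, add_zero]
  | smul c x _ hx => rw [cf_smul, hx, mul_zero]

private theorem tb2_pX : (2 : ℤ) • X 0 ∉ ADA.UP 2 := by
  intro h
  have h2 := (ADA.kp_coeff Nat.prime_two (ADA.mem_UP.1 h).2).1 0
  rw [map_zsmul, ADA.com_X, MvPolynomial.coeff_smul, MvPolynomial.coeff_X, if_pos rfl, smul_eq_mul,
    mul_one] at h2
  norm_num at h2

private theorem tb2_W2 {f : P} (hf : f ∈ Pp) : (2 : ℤ) • f ∈ WP 2 := by
  have h := WP_p 2 f hf
  exact_mod_cast h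

private theorem tb2_cm2 : cm 0 1 = mon [0, 1] - mon [1, 0] := by
  unfold cm
  simp only [mon_cons, mon_nil, mul_one]

private theorem tb2_cm3 : cm 0 1 * X 2 = mon [0, 1, 2] - mon [1, 0, 2] := by
  unfold cm
  simp only [mon_cons, mon_nil, mul_one]
  noncomm_ring

private theorem tb2_cfcm : cf [0, 1] (cm 0 1) = 1 := by
  rw [tb2_cm2, tb2_cfsub, cf_mon, cf_mon, if_pos rfl, if_neg (by decide), sub_zero]

private theorem tb2_g : cm 0 1 * X 2 ∈ TN := by
  unfold TN
  rw [LT_iff KN_add]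
  refine ⟨Pp_mul_left _ (X_mem 2), fun φ hφ u v => ?_⟩
  have h1 : com (u * φ (cm 0 1 * X 2) * v) = 0 := by
    have h0 : com (φ (cm 0 1)) = 0 := by
      unfold cm
      rw [map_sub, map_mul, map_mul, map_sub, map_mul, map_mul, mul_comm (com (φ (X 1))), sub_self]
    rw [map_mul, map_mul, map_mul, map_mul, h0, zero_mul, mul_zero, zero_mul]
  have h2 : u * φ (cm 0 1 * X 2) * v ∈ Fge 3 := by
    have hT := isT_Fge 3 (by norm_num)
    refine IsT.lm hT u v (hT.subst φ hφ _ ?_)
    rw [tb2_cm3]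
    exact Submodule.sub_mem _ (Submodule.subset_span ⟨_, by simp, rfl⟩)
      (Submodule.subset_span ⟨_, by simp, rfl⟩)
  refine ⟨?_, ?_, ?_⟩
  · rw [tb2_Fge (by simp) h2]
    exact dvd_zero _
  · rw [tb2_Fge (by simp) h2]
    exact dvd_zero _
  · unfold ct
    rw [h1, MvPolynomial.coeff_zero, MvPolynomial.coeff_zero, add_zero]
    exact dvd_zero _

private theorem tb2_gW : cm 0 1 * X 2 ∉ WP 2 := by
  intro h1
  have h2 : cm 0 1 * X 2 ∈ Ml 3 := by
    rw [tb2_cm3]
    exact Submodule.sub_mem _ (Ml_mon (by decide)) (Ml_mon (by decide))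
  have h3 := (TK_sub (by norm_num) (KW_add 2) h1 h2).1
  rw [tb2_cm3, tb2_cfsub, tb2_cfsub, cf_mon, cf_mon, cf_mon, cf_mon, if_pos rfl, if_neg (by decide),
    if_neg (by decide), if_neg (by decide)] at h3
  norm_num at h3

private theorem tb2_e : X 0 * X 1 * X 2 + X 1 * X 2 * X 0 + X 2 * X 0 * X 1 ∉ TN := by
  intro h
  have h1 := LT_sub KN_add (TN_isT.subst (sb (fun i => if i = 2 then X 0 else X i))
    (sb_isSubst fun i => by
      by_cases hi : i = 2
      · rw [if_pos hi]; exact X_mem 0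
      · rw [if_neg hi]; exact X_mem i) _ h)
  have h2 := h1.2.2
  unfold ct at h2
  have e0 : com (sb (fun i => if i = 2 then X 0 else X i)
      (X 0 * X 1 * X 2 + X 1 * X 2 * X 0 + X 2 * X 0 * X 1)) =
      MvPolynomial.monomial (Finsupp.single 0 2 + Finsupp.single 1 1) (3 : ℤ) := by
    simp only [map_add, map_mul, sb_X]
    rw [if_neg (by decide : ¬ (0 : ℕ) = 2), if_neg (by decide : ¬ (1 : ℕ) = 2)]
    simp only [if_true, ADA.com_X]
    have e1 : (MvPolynomial.X 0 * MvPolynomial.X 1 * MvPolynomial.X 0 +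
        MvPolynomial.X 1 * MvPolynomial.X 0 * MvPolynomial.X 0 +
        MvPolynomial.X 0 * MvPolynomial.X 0 * MvPolynomial.X 1 : MvPolynomial ℕ ℤ) =
        3 * (MvPolynomial.X 0 ^ 2 * MvPolynomial.X 1 ^ 1) := by ring
    have e3 : (3 : MvPolynomial ℕ ℤ) = MvPolynomial.C 3 := by simp
    rw [e1, e3, MvPolynomial.X_pow_eq_monomial, MvPolynomial.X_pow_eq_monomial,
      MvPolynomial.monomial_mul, mul_one, MvPolynomial.C_mul_monomial, mul_one]
  rw [e0, MvPolynomial.coeff_monomial, MvPolynomial.coeff_monomial, if_pos rfl, if_neg] at h2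
  · norm_num at h2
  · intro hc
    have := DFunLike.congr_fun hc 0
    simp at this

private theorem tb2_U2 {f : P} (hf : f ∈ Pp) : (4 : ℤ) • f ∈ ADA.UP 2 := by
  refine ADA.mem_UP.2 ⟨Pp.smul_mem _ hf, ?_⟩
  have h1 := ADA.com_sub f
  rw [mem_Pp.1 hf, MvPolynomial.C_0, sub_zero] at h1
  have h2 := ADA.kp_sq (p := 2) h1
  have e : com ((4 : ℤ) • f) = ((2 : ℕ) : MvPolynomial ℕ ℤ) ^ 2 * com f := by
    rw [map_zsmul, zsmul_eq_mul]
    norm_num
  rw [e]
  exact h2

private theorem tb2_com (w : List ℕ) : com (mon w) ∈ (AD.mm ℤ) ^ w.length := by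
  induction w with
  | nil =>
    rw [List.length_nil, pow_zero, Ideal.one_eq_top]
    exact Submodule.mem_top
  | cons a w ih =>
    rw [mon_cons, map_mul, ADA.com_X, List.length_cons, pow_succ']
    exact Ideal.mul_mem_mul (ADA.X_mem a) ih

private theorem tb2_sq {J : Submodule ℤ P} (h : ∀ f ∈ Pp, (2 : ℤ) • f ∈ J) : Mul 4 J := by
  intro f hf
  have h1 := J.smul_mem 2 (h f hf)
  rw [smul_smul] at h1
  norm_num at h1
  exact h1

/-- the substitution `x_0 ↦ x_0 x_1`, `x_1 ↦ x_2`, the others to 0 -/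
private noncomputable def tb2θ (i : ℕ) : P := if i = 0 then X 0 * X 1 else if i = 1 then X 2 else 0

private theorem tb2θ_mem (i : ℕ) : tb2θ i ∈ Pp := by
  unfold tb2θ
  by_cases h0 : i = 0
  · rw [if_pos h0]
    exact Pp_mul_left _ (X_mem 1)
  · rw [if_neg h0]
    by_cases h1 : i = 1
    · rw [if_pos h1]
      exact X_mem 2
    · rw [if_neg h1]
      exact Pp.zero_mem

private def tb2ψ (i : ℕ) : List ℕ := if i = 0 then [0, 1] else [2]

private theorem tb2_sb {w : List ℕ} (hw : ∀ i ∈ w, i < 2) : sb tb2θ (mon w) = mon (w.flatMap tb2ψ) := by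
  induction w with
  | nil => rw [List.flatMap_nil, mon_nil, map_one]
  | cons a w ih =>
    rw [mon_cons, map_mul, sb_X, ih (fun i hi => hw i (List.mem_cons_of_mem _ hi)), List.flatMap_cons,
      mon_append]
    have ha := hw a List.mem_cons_self
    have h1 : tb2θ a = mon (tb2ψ a) := by
      unfold tb2θ tb2ψ
      interval_cases a
      · rw [if_pos rfl, if_pos rfl, mon_cons, mon_single]
      · rw [if_neg (by decide), if_pos rfl, if_neg (by decide), mon_single]
    rw [h1]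

private theorem tb2_sb0 {w : List ℕ} {i : ℕ} (hi : i ∈ w) (h2 : 2 ≤ i) : sb tb2θ (mon w) = 0 := by
  rw [sb_mon]
  refine List.prod_eq_zero (List.mem_map.2 ⟨i, hi, ?_⟩)
  unfold tb2θ
  rw [if_neg (by omega), if_neg (by omega)]

private theorem tb2_fl {w : List ℕ} (hw : ∀ i ∈ w, i < 2) : w.flatMap tb2ψ = [0, 1, 2] ↔ w = [0, 1] := by
  constructor
  · intro h
    rcases w with _ | ⟨a, w⟩
    · simp at h
    · have ha := hw a (by simp)
      interval_cases a
      · rcases w with _ | ⟨b, w⟩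
        · simp [tb2ψ] at h
        · have hb := hw b (by simp)
          interval_cases b
          · simp [tb2ψ] at h
          · rcases w with _ | ⟨c, w⟩
            · rfl
            · have hc := hw c (by simp)
              interval_cases c
              · simp [tb2ψ] at h
              · simp [tb2ψ] at h
      · simp [tb2ψ] at h
  · rintro rfl
    rfl

private theorem tb2_fl2 {w : List ℕ} (hw : ∀ i ∈ w, i < 2) : w.flatMap tb2ψ ≠ [1, 2, 0] := by
  intro h
  rcases w with _ | ⟨a, w⟩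
  · simp at h
  · have ha := hw a (by simp)
    interval_cases a
    · simp [tb2ψ] at h
    · simp [tb2ψ] at h

private theorem tb2_key (f : P) : cf [0, 1, 2] (sb tb2θ f) - cf [1, 2, 0] (sb tb2θ f) = cf [0, 1] f := by
  refine ind_mon (C := fun f => cf [0, 1, 2] (sb tb2θ f) - cf [1, 2, 0] (sb tb2θ f) = cf [0, 1] f)
    ?_ ?_ ?_ ?_ f
  · rw [map_zero, tb2_cf0, tb2_cf0, tb2_cf0, sub_zero]
  · intro f g hf hg
    rw [map_add, cf_add, cf_add, cf_add, ← hf, ← hg]
    ring
  · intro c f hf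
    rw [map_zsmul, cf_smul, cf_smul, cf_smul, ← hf]
    ring
  · intro w
    by_cases hw : ∀ i ∈ w, i < 2
    · rw [tb2_sb hw, cf_mon, cf_mon, cf_mon, if_neg (tb2_fl2 hw), sub_zero]
      by_cases h : w = [0, 1]
      · rw [if_pos h, if_pos ((tb2_fl hw).2 h)]
      · rw [if_neg h, if_neg fun h' => h ((tb2_fl hw).1 h')]
    · push Not at hw
      obtain ⟨i, hi, h2⟩ := hw
      rw [tb2_sb0 hi h2, tb2_cf0, tb2_cf0, sub_zero, cf_mon, if_neg]
      rintro rfl
      simp at hi
      omega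

private theorem tb2_wp {u : List ℕ} (hu : u.Perm (List.range 3)) (f : P) :
    cf u (wp (fun w => w.Perm (List.range 3)) f) = cf u f := by
  refine ind_mon (C := fun f => cf u (wp (fun w => w.Perm (List.range 3)) f) = cf u f) ?_ ?_ ?_ ?_ f
  · rw [map_zero]
  · intro f g hf hg
    rw [map_add, cf_add, cf_add, hf, hg]
  · intro c f hf
    rw [map_smul, cf_smul, cf_smul, hf]
  · intro w
    by_cases h : w.Perm (List.range 3)
    · rw [wp_pos (φ := fun w => w.Perm (List.range 3)) h]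
    · rw [wp_neg (φ := fun w => w.Perm (List.range 3)) h, tb2_cf0, cf_mon, if_neg]
      rintro rfl
      exact h hu

private theorem tb2_W {f : P} (hf : f ∈ WP 2) : (2 : ℤ) ∣ cf [0, 1] f := by
  have h1 := ((TK_iff (by norm_num) (KW_add 2)).1 hf).2 (sb tb2θ) (sb_isSubst tb2θ_mem) 1 1
  rw [one_mul, mul_one] at h1
  have h2 := h1.1
  rw [tb2_wp (by decide), tb2_wp (by decide), tb2_key] at h2
  exact_mod_cast h2

theorem M3_anti {E E' : Submodule ℤ P} (hE : E ∈ M3) (hE' : E' ∈ M3) (h : E ≤ E') : E = E' := by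
  rcases hE with rfl | rfl | rfl
  · rcases hE' with rfl | rfl | rfl
    · rfl
    · exact absurd h (UP_WP Nat.prime_two)
    · exfalso
      have h1 := (LT_sub KN_add (h (cm_UP 2))).1
      rw [tb2_cfcm] at h1
      norm_num at h1
  · rcases hE' with rfl | rfl | rfl
    · exact absurd (h (tb2_W2 (X_mem 0))) tb2_pX
    · rfl
    · exact absurd (h WP_gmem.2.1) tb2_e
  · rcases hE' with rfl | rfl | rfl
    · exact absurd (h (TN_p _ (X_mem 0))) tb2_pX
    · exact absurd (h tb2_g) tb2_gW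
    · rfl

theorem M3_card : M3.ncard = 3 := by
  rw [Set.ncard_eq_three]
  refine ⟨ADA.UP 2, WP 2, TN, ?_, ?_, ?_, Set.ext fun E => Iff.rfl⟩
  · intro h
    exact UP_WP Nat.prime_two h.le
  · intro h
    have h1 := (LT_sub KN_add (h.le (cm_UP 2))).1
    rw [tb2_cfcm] at h1
    norm_num at h1
  · intro h
    exact tb2_e (h.le WP_gmem.2.1)

theorem M3_Fge {E : Submodule ℤ P} (hE : E ∈ M3) : Fge 4 ≤ E := by
  rcases hE with rfl | rfl | rfl
  · refine Submodule.span_le.2 ?_
    rintro f ⟨w, hw, rfl⟩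
    refine ADA.mem_UP.2 ⟨mon_mem ?_, ADA.kp_top ?_⟩
    · rintro rfl
      simp at hw
    · exact Ideal.pow_le_pow_right (by omega) (tb2_com w)
  · exact Fge_le_TK (by norm_num) (KW_add 2)
  · exact TN_Fge

theorem M3_near {C E : Submodule ℤ P} (hE : E ∈ M3) (hm : Mul 2 C) (hc : cm 0 1 ∈ C ⊔ Fge 3) : ¬ C ≤ E := by
  intro h
  rcases hE with rfl | rfl | rfl
  · exact tb2_pX (h (hm _ (X_mem 0)))
  · obtain ⟨c, hcC, g, hg, e⟩ := Submodule.mem_sup.1 hc
    have h1 := tb2_W (h hcC)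
    have h2 := tb2_cfcm
    rw [← e, cf_add, tb2_Fge (by simp) hg, add_zero] at h2
    rw [h2] at h1
    norm_num at h1
  · obtain ⟨c, hcC, g, hg, e⟩ := Submodule.mem_sup.1 hc
    have h1 := (LT_sub KN_add (h hcC)).1
    have h2 := tb2_cfcm
    rw [← e, cf_add, tb2_Fge (by simp) hg, add_zero] at h2
    rw [h2] at h1
    norm_num at h1

theorem M3_isT {E : Submodule ℤ P} (hE : E ∈ M3) : IsT E := by
  rcases hE with rfl | rfl | rfl
  · exact ADA.isT_UP
  · exact WP_isT 2
  · exact TN_isT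

theorem M3_sq {E : Submodule ℤ P} (hE : E ∈ M3) : Mul 4 E := by
  rcases hE with rfl | rfl | rfl
  · intro f hf
    exact tb2_U2 hf
  · exact tb2_sq fun f hf => tb2_W2 hf
  · exact tb2_sq fun f hf => TN_p f hf

end ADP
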