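import Pool.Agent.ADP.KG3
import Pool.Agent.ADP.NPs
import Pool.Agent.ADP.IncU
import Pool.Agent.ADP.IncN
import Pool.Agent.ADP.IncG
import Pool.Agent.ADC.N6
import Pool.Agent.ADA.ExpMain

/-!
# ADP-Tb3: the seven T-ideals for `p = 3` form an antichain

`L7`: `UP 3`, `NPt 3 0 0`, `TM`, `GP 3 1`, `GP 3 2`, `TE`, `TF`.
Elements (membership of multilinear elements of degree 3 in `TK 3 K`: `TK_sub`, `TK_mem` with the invariance of `K`; coordinates `e1, ..., o3` by `cf_mon`):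
* `g3 = cm 0 1 * X 2`: in `UP 3` (`cm_UP`), in `NPt 3 0 0` (`cmX_NPt`); not in `TM`, `GP 3 1`, `GP 3 2`, `TE`, `TF`.  `cm 0 1 ∉ NPt` (`UP_NPt`).
* `3 • X 0`: in `NPt 3 0 0`, `TM`, `GP 3 1` (`NPt_p`, `TM_p`, `GP_odd`); not in `UP 3` (see `pX_UP` in ADC.Fin: `kp_coeff`), `GP 3 2`, `TE`, `TF` (multiply: `3 • xyz` has `9 ∤ 3`).
* `mw 4`: in `TM`, `GP 3 1` (`Fge 4`); not in `NPt 3 0 0` (coefficient of the commutative monomial `x_0x_1x_2x_3`, see `NN`, as in `WP_NPt` of ADC.IncW).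
* `r = xyz - xzy + yxz - yzx`: in `TM`, not in `GP 3 1` (`e1 + o2 - e2 - o3 = 1`).  `r' = xyz + xzy - yxz - yzx`: in `GP 3 1`, not in `TM` (`e1 - o2 - e2 + o3 = 1`).
* `g1`: in `GP 3 2`; not in `NPt 3 0 0`, `UP 3` (commutative coefficient 2 in degree 3), `TM`, `GP 3 1`, `TE`, `TF`.
* `g4`: in `TE`; not in `NPt`, `UP`, `TM`, `GP 3 1`, `GP 3 2`, `TF`.    * `g4'`: in `TF`; not in `NPt`, `UP`, `TM`, `GP 3 1`, `GP 3 2`, `TE`.
These settle all 42 pairs.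
-/

namespace ADP

open AD ADN ADC

/-- the seven T-ideals -/
def L7 : Set (Submodule ℤ P) :=
  {E | E = ADA.UP 3 ∨ E = NPt 3 0 0 ∨ E = TM ∨ E = GP 3 1 ∨ E = GP 3 2 ∨ E = TE ∨ E = TF}

/-! ### elements given by six coefficients -/

private noncomputable def tb3_w (a b c d e f : ℤ) : P :=
  a • mon [0,1,2] + b • mon [1,2,0] + c • mon [2,0,1] + d • mon [1,0,2] + e • mon [0,2,1] + f • mon [2,1,0]

private theorem tb3_Ml (a b c d e f : ℤ) : tb3_w a b c d e f ∈ Ml 3 := by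
  unfold tb3_w
  refine Submodule.add_mem _ (Submodule.add_mem _ (Submodule.add_mem _ (Submodule.add_mem _
    (Submodule.add_mem _ (Submodule.smul_mem _ _ (Ml_mon (by decide))) (Submodule.smul_mem _ _ (Ml_mon (by decide))))
    (Submodule.smul_mem _ _ (Ml_mon (by decide)))) (Submodule.smul_mem _ _ (Ml_mon (by decide))))
    (Submodule.smul_mem _ _ (Ml_mon (by decide)))) (Submodule.smul_mem _ _ (Ml_mon (by decide)))

private theorem tb3_e1 (a b c d e f : ℤ) : e1 (tb3_w a b c d e f) = a := by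
  unfold e1 tb3_w; simp only [cf_add, cf_smul, cf_mon]; simp
private theorem tb3_e2 (a b c d e f : ℤ) : e2 (tb3_w a b c d e f) = b := by
  unfold e2 tb3_w; simp only [cf_add, cf_smul, cf_mon]; simp
private theorem tb3_e3 (a b c d e f : ℤ) : e3 (tb3_w a b c d e f) = c := by
  unfold e3 tb3_w; simp only [cf_add, cf_smul, cf_mon]; simp
private theorem tb3_o1 (a b c d e f : ℤ) : o1 (tb3_w a b c d e f) = d := by
  unfold o1 tb3_w; simp only [cf_add, cf_smul, cf_mon]; simp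
private theorem tb3_o2 (a b c d e f : ℤ) : o2 (tb3_w a b c d e f) = e := by
  unfold o2 tb3_w; simp only [cf_add, cf_smul, cf_mon]; simp
private theorem tb3_o3 (a b c d e f : ℤ) : o3 (tb3_w a b c d e f) = f := by
  unfold o3 tb3_w; simp only [cf_add, cf_smul, cf_mon]; simp

private theorem tb3_TM (a b c d e f : ℤ) : tb3_w a b c d e f ∈ TM ↔
    ((3 : ℤ) ∣ a + b + c - d - e - f ∧ (3 : ℤ) ∣ a - e - b + f ∧ (3 : ℤ) ∣ b - d - c + e ∧
      (3 : ℤ) ∣ c - f - a + d) := by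
  have key : tb3_w a b c d e f ∈ KM ↔ ((3 : ℤ) ∣ a + b + c - d - e - f ∧ (3 : ℤ) ∣ a - e - b + f ∧
      (3 : ℤ) ∣ b - d - c + e ∧ (3 : ℤ) ∣ c - f - a + d) := by
    show (_ ∧ _ ∧ _ ∧ _) ↔ _
    rw [tb3_e1, tb3_e2, tb3_e3, tb3_o1, tb3_o2, tb3_o3]
  rw [← key]
  exact ⟨fun h => TK_sub (by norm_num) KM_add h (tb3_Ml _ _ _ _ _ _),
    fun h => TK_mem (by norm_num) KM_add (tb3_Ml _ _ _ _ _ _) fun σ => KM_rn (tb3_Ml _ _ _ _ _ _) h σ⟩

private theorem tb3_TE (a b c d e f : ℤ) : tb3_w a b c d e f ∈ TE ↔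
    ((3 : ℤ) ∣ a - d ∧ (3 : ℤ) ∣ b - f ∧ (3 : ℤ) ∣ c - e ∧ (9 : ℤ) ∣ a + b + c - d - e - f) := by
  have key : tb3_w a b c d e f ∈ KE ↔ ((3 : ℤ) ∣ a - d ∧ (3 : ℤ) ∣ b - f ∧ (3 : ℤ) ∣ c - e ∧
      (9 : ℤ) ∣ a + b + c - d - e - f) := by
    show (_ ∧ _ ∧ _ ∧ _) ↔ _
    rw [tb3_e1, tb3_e2, tb3_e3, tb3_o1, tb3_o2, tb3_o3]
  rw [← key]
  exact ⟨fun h => TK_sub (by norm_num) KE_add h (tb3_Ml _ _ _ _ _ _),
    fun h => TK_mem (by norm_num) KE_add (tb3_Ml _ _ _ _ _ _) fun σ => KE_rn (tb3_Ml _ _ _ _ _ _) h σ⟩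

private theorem tb3_TF (a b c d e f : ℤ) : tb3_w a b c d e f ∈ TF ↔
    ((3 : ℤ) ∣ a - e ∧ (3 : ℤ) ∣ b - d ∧ (3 : ℤ) ∣ c - f ∧ (9 : ℤ) ∣ a + b + c - d - e - f) := by
  have key : tb3_w a b c d e f ∈ KF ↔ ((3 : ℤ) ∣ a - e ∧ (3 : ℤ) ∣ b - d ∧ (3 : ℤ) ∣ c - f ∧
      (9 : ℤ) ∣ a + b + c - d - e - f) := by
    show (_ ∧ _ ∧ _ ∧ _) ↔ _
    rw [tb3_e1, tb3_e2, tb3_e3, tb3_o1, tb3_o2, tb3_o3]
  rw [← key]
  exact ⟨fun h => TK_sub (by norm_num) KF_add h (tb3_Ml _ _ _ _ _ _),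
    fun h => TK_mem (by norm_num) KF_add (tb3_Ml _ _ _ _ _ _) fun σ => KF_rn (tb3_Ml _ _ _ _ _ _) h σ⟩

private theorem tb3_G1 (a b c d e f : ℤ) : tb3_w a b c d e f ∈ GP 3 1 ↔
    ((3 : ℤ) ∣ a + b + c + d + e + f ∧ (3 : ℤ) ∣ a + e - b - f ∧ (3 : ℤ) ∣ b + d - c - e ∧
      (3 : ℤ) ∣ c + f - a - d) := by
  have key := KG31_iff (tb3_Ml a b c d e f)
  rw [tb3_e1, tb3_e2, tb3_e3, tb3_o1, tb3_o2, tb3_o3] at key
  rw [← key]
  exact ⟨fun h => TK_sub (by norm_num) (KG_add 3 1) h (tb3_Ml _ _ _ _ _ _),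
    fun h => TK_mem (by norm_num) (KG_add 3 1) (tb3_Ml _ _ _ _ _ _) fun σ => KG_rn h σ⟩

private theorem tb3_G2 (a b c d e f : ℤ) : tb3_w a b c d e f ∈ GP 3 2 ↔
    ((3 : ℤ) ∣ a - f ∧ (3 : ℤ) ∣ b - e ∧ (3 : ℤ) ∣ c - d ∧ (9 : ℤ) ∣ a + b + c - d - e - f) := by
  have key := KG32_iff (tb3_Ml a b c d e f)
  rw [tb3_e1, tb3_e2, tb3_e3, tb3_o1, tb3_o2, tb3_o3] at key
  rw [← key]
  exact ⟨fun h => TK_sub (by norm_num) (KG_add 3 2) h (tb3_Ml _ _ _ _ _ _),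
    fun h => TK_mem (by norm_num) (KG_add 3 2) (tb3_Ml _ _ _ _ _ _) fun σ => KG_rn h σ⟩

private theorem tb3_com_X (a : ℕ) : com (X a) = MvPolynomial.X a := by simp [com]

private theorem tb3_com_mon (w : List ℕ) : com (mon w) = MvPolynomial.monomial (ADA.cnt w) 1 := by
  induction w with
  | nil => rw [mon_nil, map_one]; simp [ADA.cnt]
  | cons a w ih =>
    rw [mon_cons, map_mul, ih, ADA.cnt_cons, tb3_com_X, MvPolynomial.X, MvPolynomial.monomial_mul, one_mul]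

private theorem tb3_deg (w : List ℕ) : (ADA.cnt w).degree = w.length := by
  induction w with
  | nil => simp [ADA.cnt]
  | cons a w ih => rw [ADA.cnt_cons, map_add, ih, Finsupp.degree_single, List.length_cons, add_comm]

private theorem tb3_cnt {u v : List ℕ} (h : u.Perm v) : ADA.cnt u = ADA.cnt v := by
  unfold ADA.cnt
  exact (h.map _).sum_eq

private theorem tb3_com (a b c d e f : ℤ) : (com (tb3_w a b c d e f)).coeff (ADA.cnt [0,1,2]) =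
    a + b + c + d + e + f := by
  have c1 : ADA.cnt [1,2,0] = ADA.cnt [0,1,2] := tb3_cnt (by decide)
  have c2 : ADA.cnt [2,0,1] = ADA.cnt [0,1,2] := tb3_cnt (by decide)
  have c3 : ADA.cnt [1,0,2] = ADA.cnt [0,1,2] := tb3_cnt (by decide)
  have c4 : ADA.cnt [0,2,1] = ADA.cnt [0,1,2] := tb3_cnt (by decide)
  have c5 : ADA.cnt [2,1,0] = ADA.cnt [0,1,2] := tb3_cnt (by decide)
  unfold tb3_w
  simp only [map_add, map_zsmul, tb3_com_mon, c1, c2, c3, c4, c5, MvPolynomial.coeff_add,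
    MvPolynomial.coeff_smul, MvPolynomial.coeff_monomial, if_true, smul_eq_mul, mul_one]

private theorem tb3_UP {a b c d e f : ℤ} (h : tb3_w a b c d e f ∈ ADA.UP 3) :
    (3 : ℤ) ∣ a + b + c + d + e + f := by
  obtain ⟨x, -, y, -, z, hz, he⟩ := ADA.mem_KP.1 (ADA.mem_UP.1 h).2
  have h1 := congrArg (MvPolynomial.coeff (ADA.cnt [0,1,2])) he
  rw [tb3_com, MvPolynomial.coeff_add, MvPolynomial.coeff_add, ADA.coeff_psq_mul, ADA.coeff_p_mul,
    (ADA.mem_mm_pow (3 + 1) z).1 hz _ (by rw [tb3_deg]; simp), add_zero] at h1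
  rw [← h1]
  push_cast
  exact ⟨3 * MvPolynomial.coeff (ADA.cnt [0,1,2]) x + MvPolynomial.coeff (ADA.cnt [0,1,2]) y, by ring⟩

private theorem tb3_NP {a b c d e f : ℤ} (h : tb3_w a b c d e f ∈ NPt 3 0 0) :
    (3 : ℤ) ∣ a + b + c + d + e + f := by
  obtain ⟨-, -, m, -, -, h4, -⟩ := NPt_mem.1 h
  have h5 := h4 (ADA.cnt [0,1,2]) (by rw [tb3_deg]; simp) (by rw [tb3_deg]; simp)
  rw [tb3_com] at h5
  exact_mod_cast h5

private theorem tb3_g3 : cm 0 1 * X 2 = tb3_w 1 0 0 (-1) 0 0 := by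
  unfold cm tb3_w
  simp only [mon_cons, mon_nil, mul_one, zero_smul, add_zero, one_smul, neg_smul]
  noncomm_ring

/-- `3 X 0` is not in a T-ideal that does not contain `3 xyz` -/
private theorem tb3_three {E : Submodule ℤ P} (hT : IsT E) (h : (3 : ℤ) • X 0 ∈ E) : tb3_w 3 0 0 0 0 0 ∈ E := by
  have h1 := hT.mul_right _ h (X 1 * X 2)
  have e : tb3_w 3 0 0 0 0 0 = (3 : ℤ) • X 0 * (X 1 * X 2) := by
    unfold tb3_w
    simp only [mon_cons, mon_nil, mul_one, zero_smul, add_zero, smul_mul_assoc]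
  rw [e]
  exact h1

private theorem tb3_X_G2 : (3 : ℤ) • X 0 ∉ GP 3 2 := by
  intro h
  have h1 := (tb3_G2 _ _ _ _ _ _).1 (tb3_three (GP_isT (by norm_num)) h)
  revert h1
  decide

private theorem tb3_X_TE : (3 : ℤ) • X 0 ∉ TE := by
  intro h
  have h1 := (tb3_TE _ _ _ _ _ _).1 (tb3_three TE_isT h)
  revert h1
  decide

private theorem tb3_X_TF : (3 : ℤ) • X 0 ∉ TF := by
  intro h
  have h1 := (tb3_TF _ _ _ _ _ _).1 (tb3_three TF_isT h)
  revert h1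
  decide

private theorem tb3_X_UP : (3 : ℤ) • X 0 ∉ ADA.UP 3 := by
  intro h
  have h1 := (ADA.kp_coeff Nat.prime_three (ADA.mem_UP.1 h).2).1 0
  rw [map_zsmul, tb3_com_X, MvPolynomial.coeff_smul, MvPolynomial.coeff_X, if_pos rfl, smul_eq_mul, mul_one] at h1
  revert h1
  decide

private theorem tb3_X_G1 : (3 : ℤ) • X 0 ∈ GP 3 1 := by
  have h := GP_odd (p := 3) (k := 1) (by norm_num) (by norm_num) (X 0) (X_mem 0)
  exact_mod_cast h

private theorem tb3_X_NP : (3 : ℤ) • X 0 ∈ NPt 3 0 0 := by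
  have h := ADP.NPt_p (p := 3) 0 0 (X 0) (X_mem 0)
  exact_mod_cast h

private theorem tb3_X_TM : (3 : ℤ) • X 0 ∈ TM := TM_p (X 0) (X_mem 0)

private theorem tb3_Fge {n m : ℕ} (h : n ≤ m) {E : Submodule ℤ P} (hE : NilAt E n) : Fge m ≤ E := by
  refine Submodule.span_le.2 ?_
  rintro f ⟨w, hw, rfl⟩
  exact hE w (h.trans hw)

private theorem tb3_mw {E : Submodule ℤ P} (h : Fge 4 ≤ E) : ¬ E ≤ NPt 3 0 0 := by
  intro hE
  have h1 : mw 4 ∈ Fge 4 := Submodule.subset_span ⟨List.range 4, by rw [List.length_range], rfl⟩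
  obtain ⟨-, -, m, -, -, -, -, h6⟩ := NPt_mem.1 (hE (h h1))
  have h7 := h6 (ADA.cnt (List.range 4)) (by rw [tb3_deg, List.length_range]) (fun i => by
    have h8 : ADA.cnt (List.range 4) = Finsupp.single 0 1 + (Finsupp.single 1 1 + (Finsupp.single 2 1 +
        (Finsupp.single 3 1 + 0))) := by
      have h9 : List.range 4 = [0, 1, 2, 3] := by decide
      rw [h9]
      simp only [ADA.cnt_cons]
      rfl
    rw [h8]
    simp only [Finsupp.add_apply, Finsupp.single_apply, Finsupp.coe_zero, Pi.zero_apply]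
    split_ifs <;> omega)
  unfold mw at h7
  rw [tb3_com_mon, MvPolynomial.coeff_monomial, if_pos rfl] at h7
  revert h7
  decide

private theorem tb3_Fge_G (k : ℕ) : Fge 4 ≤ GP 3 k := Fge_le_TK (by norm_num) (KG_add 3 k)

private theorem tb3_F1 {E : Submodule ℤ P} (hM : ¬ tb3_w 1 0 0 (-1) 0 0 ∈ E) (h : ADA.UP 3 ≤ E) : False := by
  apply hM
  rw [← tb3_g3]
  exact h (ADA.isT_UP.mul_right _ (ADP.cm_UP 3) _)

private theorem tb3_F2 {E : Submodule ℤ P} (hM : ¬ tb3_w 1 0 0 (-1) 0 0 ∈ E) (h : NPt 3 0 0 ≤ E) : False := by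
  apply hM
  rw [← tb3_g3]
  exact h (ADP.cmX_NPt (le_refl 3)).1

theorem L7_anti {E E' : Submodule ℤ P} (hE : E ∈ L7) (hE' : E' ∈ L7) (h : E ≤ E') : E = E' := by
  rcases hE with rfl | rfl | rfl | rfl | rfl | rfl | rfl
  · -- `UP 3`
    rcases hE' with rfl | rfl | rfl | rfl | rfl | rfl | rfl
    · rfl
    · exact (ADP.UP_NPt Nat.prime_three h).elim
    · exact (tb3_F1 (by rw [tb3_TM]; decide) h).elim
    · exact (tb3_F1 (by rw [tb3_G1]; decide) h).elim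
    · exact (tb3_F1 (by rw [tb3_G2]; decide) h).elim
    · exact (tb3_F1 (by rw [tb3_TE]; decide) h).elim
    · exact (tb3_F1 (by rw [tb3_TF]; decide) h).elim
  · -- `NPt 3 0 0`
    rcases hE' with rfl | rfl | rfl | rfl | rfl | rfl | rfl
    · exact (tb3_X_UP (h tb3_X_NP)).elim
    · rfl
    · exact (tb3_F2 (by rw [tb3_TM]; decide) h).elim
    · exact (tb3_F2 (by rw [tb3_G1]; decide) h).elim
    · exact (tb3_F2 (by rw [tb3_G2]; decide) h).elim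
    · exact (tb3_F2 (by rw [tb3_TE]; decide) h).elim
    · exact (tb3_F2 (by rw [tb3_TF]; decide) h).elim
  · -- `TM`
    rcases hE' with rfl | rfl | rfl | rfl | rfl | rfl | rfl
    · exact (tb3_X_UP (h tb3_X_TM)).elim
    · exact (tb3_mw TM_Fge h).elim
    · rfl
    · have h1 : tb3_w 1 (-1) 0 1 (-1) 0 ∈ TM := by rw [tb3_TM]; decide
      have h2 : ¬ tb3_w 1 (-1) 0 1 (-1) 0 ∈ GP 3 1 := by rw [tb3_G1]; decide
      exact (h2 (h h1)).elim
    · exact (tb3_X_G2 (h tb3_X_TM)).elim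
    · exact (tb3_X_TE (h tb3_X_TM)).elim
    · exact (tb3_X_TF (h tb3_X_TM)).elim
  · -- `GP 3 1`
    rcases hE' with rfl | rfl | rfl | rfl | rfl | rfl | rfl
    · exact (tb3_X_UP (h tb3_X_G1)).elim
    · exact (tb3_mw (tb3_Fge_G 1) h).elim
    · have h1 : tb3_w 1 (-1) 0 (-1) 1 0 ∈ GP 3 1 := by rw [tb3_G1]; decide
      have h2 : ¬ tb3_w 1 (-1) 0 (-1) 1 0 ∈ TM := by rw [tb3_TM]; decide
      exact (h2 (h h1)).elim
    · rfl
    · exact (tb3_X_G2 (h tb3_X_G1)).elim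
    · exact (tb3_X_TE (h tb3_X_G1)).elim
    · exact (tb3_X_TF (h tb3_X_G1)).elim
  · -- `GP 3 2`
    have h1 : tb3_w 1 0 0 0 0 1 ∈ GP 3 2 := by rw [tb3_G2]; decide
    rcases hE' with rfl | rfl | rfl | rfl | rfl | rfl | rfl
    · exact (by decide : ¬ (3 : ℤ) ∣ 1 + 0 + 0 + 0 + 0 + 1) (tb3_UP (h h1)) |>.elim
    · exact (by decide : ¬ (3 : ℤ) ∣ 1 + 0 + 0 + 0 + 0 + 1) (tb3_NP (h h1)) |>.elim
    · have h2 : ¬ tb3_w 1 0 0 0 0 1 ∈ TM := by rw [tb3_TM]; decide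
      exact (h2 (h h1)).elim
    · have h2 : ¬ tb3_w 1 0 0 0 0 1 ∈ GP 3 1 := by rw [tb3_G1]; decide
      exact (h2 (h h1)).elim
    · rfl
    · have h2 : ¬ tb3_w 1 0 0 0 0 1 ∈ TE := by rw [tb3_TE]; decide
      exact (h2 (h h1)).elim
    · have h2 : ¬ tb3_w 1 0 0 0 0 1 ∈ TF := by rw [tb3_TF]; decide
      exact (h2 (h h1)).elim
  · -- `TE`
    have h1 : tb3_w 1 0 0 1 0 0 ∈ TE := by rw [tb3_TE]; decide
    rcases hE' with rfl | rfl | rfl | rfl | rfl | rfl | rfl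
    · exact (by decide : ¬ (3 : ℤ) ∣ 1 + 0 + 0 + 1 + 0 + 0) (tb3_UP (h h1)) |>.elim
    · exact (by decide : ¬ (3 : ℤ) ∣ 1 + 0 + 0 + 1 + 0 + 0) (tb3_NP (h h1)) |>.elim
    · have h2 : ¬ tb3_w 1 0 0 1 0 0 ∈ TM := by rw [tb3_TM]; decide
      exact (h2 (h h1)).elim
    · have h2 : ¬ tb3_w 1 0 0 1 0 0 ∈ GP 3 1 := by rw [tb3_G1]; decide
      exact (h2 (h h1)).elim
    · have h2 : ¬ tb3_w 1 0 0 1 0 0 ∈ GP 3 2 := by rw [tb3_G2]; decide
      exact (h2 (h h1)).elim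
    · rfl
    · have h2 : ¬ tb3_w 1 0 0 1 0 0 ∈ TF := by rw [tb3_TF]; decide
      exact (h2 (h h1)).elim
  · -- `TF`
    have h1 : tb3_w 1 0 0 0 1 0 ∈ TF := by rw [tb3_TF]; decide
    rcases hE' with rfl | rfl | rfl | rfl | rfl | rfl | rfl
    · exact (by decide : ¬ (3 : ℤ) ∣ 1 + 0 + 0 + 0 + 1 + 0) (tb3_UP (h h1)) |>.elim
    · exact (by decide : ¬ (3 : ℤ) ∣ 1 + 0 + 0 + 0 + 1 + 0) (tb3_NP (h h1)) |>.elim
    · have h2 : ¬ tb3_w 1 0 0 0 1 0 ∈ TM := by rw [tb3_TM]; decide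
      exact (h2 (h h1)).elim
    · have h2 : ¬ tb3_w 1 0 0 0 1 0 ∈ GP 3 1 := by rw [tb3_G1]; decide
      exact (h2 (h h1)).elim
    · have h2 : ¬ tb3_w 1 0 0 0 1 0 ∈ GP 3 2 := by rw [tb3_G2]; decide
      exact (h2 (h h1)).elim
    · have h2 : ¬ tb3_w 1 0 0 0 1 0 ∈ TE := by rw [tb3_TE]; decide
      exact (h2 (h h1)).elim
    · rfl

/-- the seven T-ideals are different -/
theorem L7_ne : (L7).ncard = 7 := by
  have u := ADA.isT_UP (p := 3)
  -- the ideals are pairwise different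
  have n12 : ADA.UP 3 ≠ NPt 3 0 0 := fun e => ADP.UP_NPt Nat.prime_three e.le
  have n13 : ADA.UP 3 ≠ TM := fun e => tb3_F1 (by rw [tb3_TM]; decide) e.le
  have n14 : ADA.UP 3 ≠ GP 3 1 := fun e => tb3_F1 (by rw [tb3_G1]; decide) e.le
  have n15 : ADA.UP 3 ≠ GP 3 2 := fun e => tb3_F1 (by rw [tb3_G2]; decide) e.le
  have n16 : ADA.UP 3 ≠ TE := fun e => tb3_F1 (by rw [tb3_TE]; decide) e.le
  have n17 : ADA.UP 3 ≠ TF := fun e => tb3_F1 (by rw [tb3_TF]; decide) e.le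
  have n23 : NPt 3 0 0 ≠ TM := fun e => tb3_F2 (by rw [tb3_TM]; decide) e.le
  have n24 : NPt 3 0 0 ≠ GP 3 1 := fun e => tb3_F2 (by rw [tb3_G1]; decide) e.le
  have n25 : NPt 3 0 0 ≠ GP 3 2 := fun e => tb3_F2 (by rw [tb3_G2]; decide) e.le
  have n26 : NPt 3 0 0 ≠ TE := fun e => tb3_F2 (by rw [tb3_TE]; decide) e.le
  have n27 : NPt 3 0 0 ≠ TF := fun e => tb3_F2 (by rw [tb3_TF]; decide) e.le
  have n34 : TM ≠ GP 3 1 := fun e => by
    have h1 : tb3_w 1 (-1) 0 1 (-1) 0 ∈ TM := by rw [tb3_TM]; decide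
    have h2 : ¬ tb3_w 1 (-1) 0 1 (-1) 0 ∈ GP 3 1 := by rw [tb3_G1]; decide
    exact h2 (e.le h1)
  have n35 : TM ≠ GP 3 2 := fun e => tb3_X_G2 (e.le tb3_X_TM)
  have n36 : TM ≠ TE := fun e => tb3_X_TE (e.le tb3_X_TM)
  have n37 : TM ≠ TF := fun e => tb3_X_TF (e.le tb3_X_TM)
  have n45 : GP 3 1 ≠ GP 3 2 := fun e => tb3_X_G2 (e.le tb3_X_G1)
  have n46 : GP 3 1 ≠ TE := fun e => tb3_X_TE (e.le tb3_X_G1)
  have n47 : GP 3 1 ≠ TF := fun e => tb3_X_TF (e.le tb3_X_G1)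
  have n56 : GP 3 2 ≠ TE := fun e => by
    have h1 : tb3_w 1 0 0 0 0 1 ∈ GP 3 2 := by rw [tb3_G2]; decide
    have h2 : ¬ tb3_w 1 0 0 0 0 1 ∈ TE := by rw [tb3_TE]; decide
    exact h2 (e.le h1)
  have n57 : GP 3 2 ≠ TF := fun e => by
    have h1 : tb3_w 1 0 0 0 0 1 ∈ GP 3 2 := by rw [tb3_G2]; decide
    have h2 : ¬ tb3_w 1 0 0 0 0 1 ∈ TF := by rw [tb3_TF]; decide
    exact h2 (e.le h1)
  have n67 : TE ≠ TF := fun e => by
    have h1 : tb3_w 1 0 0 1 0 0 ∈ TE := by rw [tb3_TE]; decide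
    have h2 : ¬ tb3_w 1 0 0 1 0 0 ∈ TF := by rw [tb3_TF]; decide
    exact h2 (e.le h1)
  have hL : L7 = insert (ADA.UP 3) (insert (NPt 3 0 0) (insert TM (insert (GP 3 1) (insert (GP 3 2)
      (insert TE {TF}))))) := rfl
  rw [hL]
  generalize ADA.UP 3 = A1 at *
  generalize NPt 3 0 0 = A2 at *
  generalize GP 3 1 = A4 at *
  generalize GP 3 2 = A5 at *
  generalize TM = A3 at *
  generalize TE = A6 at *
  generalize TF = A7 at *
  classical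
  have h7 : ({A1, A2, A3, A4, A5, A6, A7} : Set (Submodule ℤ P)) =
      (({A1, A2, A3, A4, A5, A6, A7} : Finset (Submodule ℤ P)) : Set (Submodule ℤ P)) := by
    simp
  rw [h7, Set.ncard_coe_finset]
  rw [Finset.card_insert_of_notMem (by simp [n12, n13, n14, n15, n16, n17]),
    Finset.card_insert_of_notMem (by simp [n23, n24, n25, n26, n27]),
    Finset.card_insert_of_notMem (by simp [n34, n35, n36, n37]),
    Finset.card_insert_of_notMem (by simp [n45, n46, n47]),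
    Finset.card_insert_of_notMem (by simp [n56, n57]),
    Finset.card_insert_of_notMem (by simp [n67]), Finset.card_singleton]

/-- they contain the words of length 5 -/
theorem L7_Fge {E : Submodule ℤ P} (hE : E ∈ L7) : Fge 5 ≤ E := by
  have h45 : Fge 5 ≤ Fge 4 := Fge_anti (by norm_num)
  rcases hE with rfl | rfl | rfl | rfl | rfl | rfl | rfl
  · exact tb3_Fge (by norm_num) (ADA.nil_UP 3)
  · exact tb3_Fge (by norm_num) (ADP.NPt_nil (le_refl 3) 0 0)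
  · exact h45.trans TM_Fge
  · exact h45.trans (tb3_Fge_G 1)
  · exact h45.trans (tb3_Fge_G 2)
  · exact h45.trans TE_Fge
  · exact h45.trans TF_Fge

private theorem tb3_cm {E : Submodule ℤ P} (hT : IsT E) (h : cm 0 1 ∈ E) : tb3_w 1 0 0 (-1) 0 0 ∈ E := by
  rw [← tb3_g3]
  exact hT.mul_right _ h _

private theorem tb3_cfF {h : P} (hh : h ∈ Fge 4) : cf [0, 1] h = 0 := by
  unfold Fge at hh
  induction hh using Submodule.span_induction with
  | mem x hx =>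
    obtain ⟨w, hw, rfl⟩ := hx
    rw [cf_mon, if_neg]
    rintro rfl
    simp at hw
  | zero =>
    have h := cf_smul [0, 1] 0 (0 : P)
    rwa [zero_smul, zero_mul] at h
  | add x y _ _ hx hy => rw [cf_add, hx, hy, add_zero]
  | smul c x _ hx => rw [cf_smul, hx, mul_zero]

/-- a T-ideal with `3 P⁺ ≤ C` and `[x,y] ∈ C ⊔ Fge 4` is not contained in one of them (`3 X 0 ∉ UP, GP 3 2, TE, TF`; `cm 0 1 ∉ E ⊔ Fge 4` for `E = NPt 3 0 0` (coefficient at `[0,1]`), `TM`, `GP 3 1` (contain `Fge 4`, `g3 ∉`)) -/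
theorem L7_near {C E : Submodule ℤ P} (hE : E ∈ L7) (hm : Mul 3 C) (hc : cm 0 1 ∈ C ⊔ Fge 4) : ¬ C ≤ E := by
  intro hCE
  have h3 : (3 : ℤ) • X 0 ∈ E := hCE (hm _ (X_mem 0))
  have h4 : Fge 4 ≤ E → cm 0 1 ∈ E := fun h => (sup_le hCE h) hc
  rcases hE with rfl | rfl | rfl | rfl | rfl | rfl | rfl
  · exact tb3_X_UP h3
  · obtain ⟨e, he, h, hh, heh⟩ := Submodule.mem_sup.1 hc
    obtain ⟨-, -, m, -, h5, -⟩ := NPt_mem.1 (hCE he)
    have h6 := h5 0 1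
    have h7 : cf [0, 1] e = 1 := by
      have h8 := congrArg (cf [0, 1]) heh
      rw [cf_add, tb3_cfF hh, add_zero] at h8
      rw [h8]
      have h9 : cm 0 1 = mon [0, 1] + (-1 : ℤ) • mon [1, 0] := by
        unfold cm
        simp only [mon_cons, mon_nil, mul_one, neg_smul, one_smul]
        rw [sub_eq_add_neg]
      rw [h9, cf_add, cf_smul, cf_mon, cf_mon, if_pos rfl, if_neg (by decide)]
      norm_num
    rw [h7, zero_mul, sub_zero] at h6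
    revert h6
    decide
  · have h5 := tb3_cm TM_isT (h4 TM_Fge)
    rw [tb3_TM] at h5
    revert h5
    decide
  · have h5 := tb3_cm (GP_isT (by norm_num)) (h4 (tb3_Fge_G 1))
    rw [tb3_G1] at h5
    revert h5
    decide
  · exact tb3_X_G2 h3
  · exact tb3_X_TE h3
  · exact tb3_X_TF h3

theorem L7_isT {E : Submodule ℤ P} (hE : E ∈ L7) : IsT E := by
  rcases hE with rfl | rfl | rfl | rfl | rfl | rfl | rfl
  · exact ADA.isT_UP
  · exact ADP.NPt_isT Nat.prime_three (le_refl 3) 0 0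
  · exact TM_isT
  · exact GP_isT (by norm_num)
  · exact GP_isT (by norm_num)
  · exact TE_isT
  · exact TF_isT

private theorem tb3_sq {E : Submodule ℤ P} (h : Mul 3 E) : Mul 9 E := by
  intro f hf
  have h1 := E.smul_mem (3 : ℤ) (h f hf)
  rwa [smul_smul, show (3 : ℤ) * 3 = 9 by norm_num] at h1

theorem L7_sq {E : Submodule ℤ P} (hE : E ∈ L7) : Mul 9 E := by
  rcases hE with rfl | rfl | rfl | rfl | rfl | rfl | rfl
  · intro f hf
    refine ADA.mem_UP.2 ⟨Submodule.smul_mem _ _ hf, ?_⟩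
    have h1 : com ((9 : ℤ) • f) = ((3 : ℕ) : ADA.Az) ^ 2 * com f := by
      rw [map_zsmul, zsmul_eq_mul]
      norm_num
    rw [h1]
    refine ADA.kp_sq ?_
    have h2 := ADA.com_sub f
    rw [ADA.pp_iff.1 hf, MvPolynomial.C_0, sub_zero] at h2
    exact h2
  · refine tb3_sq ?_
    have h := ADP.NPt_p (p := 3) 0 0
    exact_mod_cast h
  · exact tb3_sq TM_p
  · refine tb3_sq ?_
    have h := GP_odd (p := 3) (k := 1) (by norm_num) (by norm_num)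
    exact_mod_cast h
  · have h := GP_sq (p := 3) (k := 2) (by norm_num)
    have e : ((3 : ℕ) : ℤ) ^ 2 = 9 := by norm_num
    rwa [e] at h
  · exact TE_sq
  · exact TF_sq

end ADP
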