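import Pool.Agent.ADC.Main2
import Pool.Agent.ADP.Main3
import Pool.Agent.ADP.Main2
import Pool.Agent.ADP.Nd3
import Pool.Agent.ADP.NdN
import Pool.Agent.ADP.Tb3
import Pool.Agent.ADP.Nd2
import Pool.Agent.ADP.Tb2
import Pool.Agent.ADP.NdC5
import Pool.Agent.ADP.NdC3
import Pool.Agent.ADP.NdC2
import Pool.Agent.ADP.NdT4
import Pool.Agent.ADP.NrT1
import Pool.Agent.ADP.NrT2
import Pool.Agent.ADP.NrT3
import Pool.Agent.ADQ.Near3
import Pool.Agent.ADQ.Near2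

/-!
# ADP-FinL: the almost distributive T-ideals
-/

namespace ADP

open AD ADN ADC

theorem gen_alm {E : Submodule ℤ P} (hn : ¬ DistOn TI E) (h : ∀ E', AlmDist E' → E ≤ E' → E' ≤ E) : AlmDist E := by
  obtain ⟨E', -, hle, hA, -⟩ := ADA.exists_alm hn
  rwa [le_antisymm hle (h E' hA hle)]

theorem eq_of_le {I E : Submodule ℤ P} (hI : AlmDist I) (hE : IsT E) (hn : ¬ DistOn TI E) (hle : I ≤ E) : I = E := by
  rcases hle.eq_or_lt with h | h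
  · exact h
  · exact absurd (hI.2.2 E hE h) hn

/-! ### `p ≥ 3`: the T-ideal `CP p` -/

theorem CP_nd {p : ℕ} (hp : p.Prime) (h3 : 3 ≤ p) : ¬ DistOn TI (CP p) := by
  rcases eq_or_ne p 3 with rfl | hne
  · exact NdC3
  · refine NdC5 hp ?_
    have h4 : p ≠ 4 := by
      rintro rfl
      norm_num at hp
    omega

theorem CP_alm {p : ℕ} (hp : p.Prime) (h3 : 3 ≤ p) : AlmDist (CP p) :=
  gen_alm (CP_nd hp h3) fun E' hA hle =>
    ADQ.near3 hp h3 hA ((CP_p p).mono hle) (Submodule.mem_sup_left (hle (CP_cm p)))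

theorem near_iff {p : ℕ} (hp : p.Prime) (h3 : 3 ≤ p) {I : Submodule ℤ P} (hI : AlmDist I) (hm : Mul p I)
    (hc : cm 0 1 ∈ I ⊔ Fge (p + 1)) : I = CP p :=
  eq_of_le hI (CP_isT p) (CP_nd hp h3) (ADQ.near3 hp h3 hI hm hc)

/-! ### `p ≥ 5` -/

theorem alm5 {p : ℕ} (hp : p.Prime) (h5 : 5 ≤ p) {I : Submodule ℤ P} :
    (AlmDist I ∧ Mul ((p : ℤ) ^ 2) I) ↔ (I ∈ Lst p ∨ I = CP p) := by
  constructor
  · rintro ⟨hI, h2⟩
    rcases ADC.main2 hp h5 hI h2 with h | ⟨h, hc⟩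
    · exact Or.inl h
    · exact Or.inr (near_iff hp (by omega) hI h hc)
  · rintro (h | rfl)
    · exact ⟨Lst_alm hp h5 h, Lst_sq h5 h⟩
    · exact ⟨CP_alm hp (by omega), (CP_p p).sq⟩

/-! ### `p = 3` -/

theorem L7_nd {E : Submodule ℤ P} (hE : E ∈ L7) : ¬ DistOn TI E := by
  rcases hE with rfl | rfl | rfl | rfl | rfl | rfl | rfl
  · exact ADA.not_dist_UP Nat.prime_three
  · exact NdN Nat.prime_three le_rfl
  · exact NdM
  · exact NdG1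
  · exact NdG2
  · exact NdE3
  · exact NdF3

theorem main3' {I : Submodule ℤ P} (hI : AlmDist I) (h2 : Mul (((3 : ℕ) : ℤ) ^ 2) I) :
    (∃ E ∈ L7, I ≤ E) ∨ I ≤ CP 3 := by
  by_cases h : ∃ E ∈ L7, I ≤ E
  · exact Or.inl h
  · have h' : ∀ E ∈ L7, ¬ I ≤ E := fun E hE hle => h ⟨E, hE, hle⟩
    have h1 := main3 hI h2 (h' _ (Or.inl rfl)) (h' _ (Or.inr (Or.inr (Or.inr (Or.inl rfl)))))
      (h' _ (Or.inr (Or.inr (Or.inl rfl)))) (h' _ (Or.inr (Or.inl rfl)))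
      (h' _ (Or.inr (Or.inr (Or.inr (Or.inr (Or.inl rfl))))))
      (h' _ (Or.inr (Or.inr (Or.inr (Or.inr (Or.inr (Or.inl rfl)))))))
      (h' _ (Or.inr (Or.inr (Or.inr (Or.inr (Or.inr (Or.inr rfl)))))))
    exact Or.inr (ADQ.near3 Nat.prime_three le_rfl hI h1.1 h1.2)

theorem L7_sq' {E : Submodule ℤ P} (hE : E ∈ L7) : Mul (((3 : ℕ) : ℤ) ^ 2) E := by
  have h := L7_sq hE
  have e : (((3 : ℕ) : ℤ) ^ 2) = 9 := by norm_num
  rwa [e]

theorem L7_alm {E : Submodule ℤ P} (hE : E ∈ L7) : AlmDist E := by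
  refine gen_alm (L7_nd hE) fun E' hA hle => ?_
  rcases main3' hA ((L7_sq' hE).mono hle) with ⟨F, hF, hF2⟩ | h
  · rw [L7_anti hE hF (hle.trans hF2)]
    exact hF2
  · exact absurd (((L7_Fge hE).trans hle).trans h) (CP_Fge Nat.prime_three le_rfl)

theorem alm3 {I : Submodule ℤ P} : (AlmDist I ∧ Mul (((3 : ℕ) : ℤ) ^ 2) I) ↔ (I ∈ L7 ∨ I = CP 3) := by
  constructor
  · rintro ⟨hI, h2⟩
    rcases main3' hI h2 with ⟨E, hE, hle⟩ | h
    · left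
      rwa [eq_of_le hI (L7_isT hE) (L7_nd hE) hle]
    · exact Or.inr (eq_of_le hI (CP_isT 3) (CP_nd Nat.prime_three le_rfl) h)
  · rintro (h | rfl)
    · exact ⟨L7_alm h, L7_sq' h⟩
    · exact ⟨CP_alm Nat.prime_three le_rfl, (CP_p 3).sq⟩

/-! ### `p = 2` -/

/-- the near-commutative T-ideals for `p = 2` -/
def N5 : Set (Submodule ℤ P) := {E | E = T4 ∨ ∃ l m : ℤ, (l = 0 ∨ l = 1) ∧ (m = 0 ∨ m = 1) ∧ E = C2 l m}

theorem M3_nd {E : Submodule ℤ P} (hE : E ∈ M3) : ¬ DistOn TI E := by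
  rcases hE with rfl | rfl | rfl
  · exact ADA.not_dist_UP Nat.prime_two
  · exact NdW2
  · exact NdN2

theorem N5_nd {E : Submodule ℤ P} (hE : E ∈ N5) : ¬ DistOn TI E := by
  rcases hE with rfl | ⟨l, m, -, -, rfl⟩
  · exact NdT4
  · exact NdC2 l m

theorem N5_isT {E : Submodule ℤ P} (hE : E ∈ N5) : IsT E := by
  rcases hE with rfl | ⟨l, m, -, -, rfl⟩
  · exact T4_isT
  · exact C2_isT l m

theorem N5_2 {E : Submodule ℤ P} (hE : E ∈ N5) : Mul 2 E := by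
  rcases hE with rfl | ⟨l, m, -, -, rfl⟩
  · exact T4_2
  · exact C2_2 l m

theorem N5_cm {E : Submodule ℤ P} (hE : E ∈ N5) : cm 0 1 ∈ E ⊔ Fge 3 := by
  rcases hE with rfl | ⟨l, m, -, -, rfl⟩
  · exact Submodule.mem_sup_left T4_cm
  · exact C2_cm l m

theorem N5_Fge {E : Submodule ℤ P} (hE : E ∈ N5) : ¬ Fge 4 ≤ E := by
  rcases hE with rfl | ⟨l, m, -, -, rfl⟩
  · exact T4_Fge
  · exact C2_Fge l m

theorem N5_anti {E E' : Submodule ℤ P} (hE : E ∈ N5) (hE' : E' ∈ N5) (h : E ≤ E') : E = E' := by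
  rcases hE with rfl | ⟨l, m, hl, hm, rfl⟩
  · rcases hE' with rfl | ⟨l', m', hl', hm', rfl⟩
    · rfl
    · exact absurd h (T4_C2 l' m')
  · rcases hE' with rfl | ⟨l', m', hl', hm', rfl⟩
    · exact absurd h (C2_T4 l m)
    · obtain ⟨h1, h2⟩ := C2_C2 h
      have h3 : l = l' := by omega
      have h4 : m = m' := by omega
      rw [h3, h4]

theorem near2' {I : Submodule ℤ P} (hI : AlmDist I) (hm : Mul 2 I) (hc : cm 0 1 ∈ I ⊔ Fge 3) : ∃ E ∈ N5, I ≤ E := by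
  rcases ADQ.near2 hI hm hc with h | ⟨l, m, hl, hm, h⟩
  · exact ⟨T4, Or.inl rfl, h⟩
  · exact ⟨C2 l m, Or.inr ⟨l, m, hl, hm, rfl⟩, h⟩

theorem N5_alm {E : Submodule ℤ P} (hE : E ∈ N5) : AlmDist E := by
  refine gen_alm (N5_nd hE) fun E' hA hle => ?_
  obtain ⟨F, hF, hF2⟩ := near2' hA ((N5_2 hE).mono hle) (sup_le_sup_right hle _ (N5_cm hE))
  rw [N5_anti hE hF (hle.trans hF2)]
  exact hF2

theorem four_eq : (((2 : ℕ) : ℤ) ^ 2) = 4 := by norm_num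

theorem main2' {I : Submodule ℤ P} (hI : AlmDist I) (h2 : Mul (((2 : ℕ) : ℤ) ^ 2) I) :
    (∃ E ∈ M3, I ≤ E) ∨ ∃ E ∈ N5, I ≤ E := by
  by_cases h : ∃ E ∈ M3, I ≤ E
  · exact Or.inl h
  · have h' : ∀ E ∈ M3, ¬ I ≤ E := fun E hE hle => h ⟨E, hE, hle⟩
    rw [four_eq] at h2
    have h1 := main2 hI h2 (h' _ (Or.inl rfl)) (h' _ (Or.inr (Or.inl rfl))) (h' _ (Or.inr (Or.inr rfl)))
    exact Or.inr (near2' hI h1.1 h1.2)

theorem M3_alm {E : Submodule ℤ P} (hE : E ∈ M3) : AlmDist E := by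
  refine gen_alm (M3_nd hE) fun E' hA hle => ?_
  have h4 : Mul (((2 : ℕ) : ℤ) ^ 2) E' := by
    rw [four_eq]
    exact (M3_sq hE).mono hle
  rcases main2' hA h4 with ⟨F, hF, hF2⟩ | ⟨F, hF, hF2⟩
  · rw [M3_anti hE hF (hle.trans hF2)]
    exact hF2
  · exact absurd (((M3_Fge hE).trans hle).trans hF2) (N5_Fge hF)

theorem alm2 {I : Submodule ℤ P} : (AlmDist I ∧ Mul (((2 : ℕ) : ℤ) ^ 2) I) ↔ (I ∈ M3 ∨ I ∈ N5) := by
  constructor
  · rintro ⟨hI, h2⟩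
    rcases main2' hI h2 with ⟨E, hE, hle⟩ | ⟨E, hE, hle⟩
    · left
      rwa [eq_of_le hI (M3_isT hE) (M3_nd hE) hle]
    · right
      rwa [eq_of_le hI (N5_isT hE) (N5_nd hE) hle]
  · rintro (h | h)
    · refine ⟨M3_alm h, ?_⟩
      rw [four_eq]
      exact M3_sq h
    · exact ⟨N5_alm h, (N5_2 h).sq⟩

/-- the T-ideals of the list -/
def LA (p : ℕ) : Set (Submodule ℤ P) :=
  {E | (p = 2 ∧ (E ∈ M3 ∨ E ∈ N5)) ∨ (p = 3 ∧ (E ∈ L7 ∨ E = CP 3)) ∨ (5 ≤ p ∧ (E ∈ Lst p ∨ E = CP p))}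

theorem LA_iff {p : ℕ} (hp : p.Prime) {I : Submodule ℤ P} : (AlmDist I ∧ Mul ((p : ℤ) ^ 2) I) ↔ I ∈ LA p := by
  have h4 : p ≠ 4 := by
    rintro rfl
    norm_num at hp
  have h2 := hp.two_le
  rcases eq_or_ne p 2 with rfl | hne
  · rw [alm2]
    constructor
    · exact fun h => Or.inl ⟨rfl, h⟩
    · rintro (⟨-, h⟩ | ⟨h, -⟩ | ⟨h, -⟩)
      · exact h
      · omega
      · omega
  rcases eq_or_ne p 3 with rfl | hne3
  · rw [alm3]
    constructor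
    · exact fun h => Or.inr (Or.inl ⟨rfl, h⟩)
    · rintro (⟨h, -⟩ | ⟨-, h⟩ | ⟨h, -⟩)
      · omega
      · exact h
      · omega
  · rw [alm5 hp (by omega)]
    constructor
    · exact fun h => Or.inr (Or.inr ⟨by omega, h⟩)
    · rintro (⟨h, -⟩ | ⟨h, -⟩ | ⟨-, h⟩)
      · omega
      · omega
      · exact h

/-- every almost distributive T-ideal -/
theorem alm_iff {I : Submodule ℤ P} : AlmDist I ↔ ∃ p : ℕ, p.Prime ∧ I ∈ LA p := by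
  constructor
  · intro hI
    obtain ⟨p, hp, h⟩ := ADA.exp2 hI
    refine ⟨p, hp, (LA_iff hp).1 ⟨hI, fun f hf => h (expo_mem_mulI.2 ⟨f, hf, ?_⟩)⟩⟩
    push_cast
    rfl
  · rintro ⟨p, hp, h⟩
    exact ((LA_iff hp).2 h).1

end ADP
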