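import Pool.Agent.ADP.Base
import Pool.Agent.ADC.CSt
import Pool.Agent.ADP.NPs
import Pool.Agent.ADP.IncN

/-!
# ADP-GenN

`NPt p 0 0` is the T-ideal generated by `p x`, `x [y,z]`, `[x,y] z`, `x^p y + x y^p`, `x_0 ⋯ x_{p+1}`.
-/

namespace ADP

open AD ADN ADC

private theorem gn_com_X (a : ℕ) : com (X a) = MvPolynomial.X a := by simp [com]

private theorem gn_com_mon (w : List ℕ) : com (mon w) = MvPolynomial.monomial (ADA.cnt w) 1 := by
  induction w with
  | nil => rw [mon_nil, map_one]; simp [ADA.cnt]
  | cons a w ih =>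
    rw [mon_cons, map_mul, ih, ADA.cnt_cons, gn_com_X, MvPolynomial.X, MvPolynomial.monomial_mul, one_mul]

private theorem gn_cnt_deg (w : List ℕ) : (ADA.cnt w).degree = w.length := by
  induction w with
  | nil => simp [ADA.cnt]
  | cons a w ih => rw [ADA.cnt_cons, map_add, ih, Finsupp.degree_single, List.length_cons, add_comm]

private theorem gn_perm (w : List ℕ) : w.Perm (sw (ADA.cnt w)) := by
  rw [← Multiset.coe_eq_coe]
  unfold sw
  rw [Multiset.sort_eq]
  induction w with
  | nil => simp [ADA.cnt]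
  | cons a w ih =>
    rw [ADA.cnt_cons, map_add, ← ih, Finsupp.toMultiset_single, one_nsmul]
    rfl

private theorem gn_rep (i n : ℕ) : mon (List.replicate n i) = X i ^ n := by
  simp [mon]

private theorem gn_cnt_rep (i n : ℕ) (w : List ℕ) :
    ADA.cnt (List.replicate n i ++ w) = Finsupp.single i n + ADA.cnt w := by
  induction n with
  | zero => simp
  | succ n ih =>
    rw [List.replicate_succ, List.cons_append, ADA.cnt_cons, ih, ← add_assoc, ← Finsupp.single_add,
      add_comm 1 n]

private theorem gn_cnt_one (a : ℕ) : ADA.cnt [a] = Finsupp.single a 1 := by simp [ADA.cnt]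

private theorem gn_w1 (p i j : ℕ) : X i ^ p * X j = mon (List.replicate p i ++ [j]) := by
  rw [mon_append, gn_rep, mon_single]

private theorem gn_w2 (p i j : ℕ) : X i * X j ^ p = mon (i :: List.replicate p j) := by
  rw [mon_cons, gn_rep]

private theorem gn_shape {p : ℕ} {d : ℕ →₀ ℕ} (hd : d.degree = p + 1) {i : ℕ} (hi : p ≤ d i) :
    ∃ j, d = Finsupp.single i p + Finsupp.single j 1 := by
  have h1 : Finsupp.single i p ≤ d := Finsupp.single_le_iff.2 hi
  have h2 : d.degree = p + (d - Finsupp.single i p).degree := by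
    conv_lhs => rw [← add_tsub_cancel_of_le h1]
    rw [map_add, Finsupp.degree_single]
  have h3 : (d - Finsupp.single i p).degree = 1 := by omega
  have h0 : d - Finsupp.single i p ≠ 0 := by
    intro h
    rw [h] at h3
    simp at h3
  obtain ⟨j, hj⟩ := Finsupp.ne_iff.1 h0
  rw [Finsupp.zero_apply] at hj
  have h4 : Finsupp.single j 1 ≤ d - Finsupp.single i p := by
    rw [Finsupp.single_le_iff]
    omega
  have h5 : (d - Finsupp.single i p).degree = 1 + (d - Finsupp.single i p - Finsupp.single j 1).degree := by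
    conv_lhs => rw [← add_tsub_cancel_of_le h4]
    rw [map_add, Finsupp.degree_single]
  have h6 : d - Finsupp.single i p - Finsupp.single j 1 = 0 := by
    rw [← Finsupp.degree_eq_zero_iff]
    omega
  refine ⟨j, ?_⟩
  have h7 := add_tsub_cancel_of_le h4
  rw [h6, add_zero] at h7
  rw [h7, add_tsub_cancel_of_le h1]

/-! ### membership -/

theorem NPt_gmem {p : ℕ} (hp : p.Prime) (h5 : 3 ≤ p) : (p : ℤ) • X 0 ∈ NPt p 0 0 ∧ X 0 * cm 1 2 ∈ NPt p 0 0 ∧
    cm 0 1 * X 2 ∈ NPt p 0 0 ∧ X 0 ^ p * X 1 + X 0 * X 1 ^ p ∈ NPt p 0 0 ∧ mw (p + 2) ∈ NPt p 0 0 := by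
  classical
  refine ⟨NPt_p 0 0 _ (X_mem 0), (cmX_NPt h5).2, (cmX_NPt h5).1, ?_, ?_⟩
  · have hcom : com (X 0 ^ p * X 1 + X 0 * X 1 ^ p) =
        MvPolynomial.monomial (Finsupp.single 0 p + Finsupp.single 1 1) 1 +
        MvPolynomial.monomial (Finsupp.single 1 p + Finsupp.single 0 1) 1 := by
      rw [gn_w1, gn_w2, map_add, gn_com_mon, gn_com_mon, gn_cnt_rep, gn_cnt_one, ADA.cnt_cons]
      have h := gn_cnt_rep 1 p []
      rw [List.append_nil] at h
      have h0 : ADA.cnt [] = 0 := by simp [ADA.cnt]
      rw [h, h0, add_zero, add_comm (Finsupp.single 0 1) (Finsupp.single 1 p)]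
    rw [NPt_mem]
    refine ⟨?_, ?_, fun _ _ => 0, ?_, ?_, ?_, ?_, ?_⟩
    · exact Pp.add_mem (Pp_mul_left _ (X_mem 1)) (Pp_mul_right (X_mem 0) _)
    · intro i
      rw [gn_w1, gn_w2, cf_add, cf_mon, cf_mon, if_neg, if_neg]
      · simp
      · intro h
        have := congrArg List.length h
        simp at this
        omega
      · intro h
        have := congrArg List.length h
        simp at this
        omega
    · intro i j
      simp
    · intro i j
      rw [gn_w1, gn_w2, cf_add, cf_mon, cf_mon, if_neg, if_neg]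
      · simp
      · intro h
        have := congrArg List.length h
        simp at this
        omega
      · intro h
        have := congrArg List.length h
        simp at this
        omega
    · intro d _ hd
      rw [hcom, MvPolynomial.coeff_add, MvPolynomial.coeff_monomial, MvPolynomial.coeff_monomial, if_neg,
        if_neg]
      · simp
      · rintro rfl
        rw [map_add, Finsupp.degree_single, Finsupp.degree_single] at hd
        omega
      · rintro rfl
        rw [map_add, Finsupp.degree_single, Finsupp.degree_single] at hd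
        omega
    · intro i j
      have hinj : ∀ a b c d : ℕ, (Finsupp.single a p + Finsupp.single b 1 : ℕ →₀ ℕ) =
          Finsupp.single c p + Finsupp.single d 1 ↔ a = c ∧ b = d := by
        intro a b c d
        rw [Finsupp.single_add_single_eq_single_add_single hp.ne_zero one_ne_zero]
        constructor
        · rintro (h | ⟨h, -, -⟩ | ⟨h, -, -⟩)
          · exact h
          · omega
          · omega
        · intro h
          exact Or.inl h
      have e : (Finsupp.single i 1 + Finsupp.single j p : ℕ →₀ ℕ) =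
        Finsupp.single j p + Finsupp.single i 1 := add_comm _ _
      rw [hcom, e]
      simp only [MvPolynomial.coeff_add, MvPolynomial.coeff_monomial, hinj]
      rw [mul_zero, sub_zero]
      have : (((if 0 = i ∧ 1 = j then (1 : ℤ) else 0) + if 1 = i ∧ 0 = j then (1 : ℤ) else 0) -
          ((if 0 = j ∧ 1 = i then (1 : ℤ) else 0) + if 1 = j ∧ 0 = i then (1 : ℤ) else 0)) = 0 := by
        have e1 : (0 = j ∧ 1 = i) ↔ (1 = i ∧ 0 = j) := and_comm
        have e2 : (1 = j ∧ 0 = i) ↔ (0 = i ∧ 1 = j) := and_comm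
        simp only [e1, e2]
        ring
      rw [this]
      exact dvd_zero _
    · intro d _ hd
      rw [hcom, MvPolynomial.coeff_add, MvPolynomial.coeff_monomial, MvPolynomial.coeff_monomial, if_neg,
        if_neg]
      · simp
      · rintro rfl
        have := hd 1
        simp at this
      · rintro rfl
        have := hd 0
        simp at this
  · exact NPt_nil h5 0 0 _ (by rw [List.length_range])

/-! ### generation -/

/-- the monomials of degree `≥ 3` as sorted words -/
private noncomputable def gnT (m : ℕ →₀ ℕ) : P := if 3 ≤ m.degree then mon (sw m) else 0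

private noncomputable def gnB : MvPolynomial ℕ ℤ →ₗ[ℤ] P :=
  (MvPolynomial.basisMonomials ℕ ℤ).constr ℤ gnT

private theorem gnB_mono (m : ℕ →₀ ℕ) : gnB (MvPolynomial.monomial m 1) = gnT m := by
  unfold gnB
  have h : MvPolynomial.monomial m (1 : ℤ) = MvPolynomial.basisMonomials ℕ ℤ m := by
    rw [MvPolynomial.coe_basisMonomials]
  rw [h, Module.Basis.constr_basis]

private theorem gnB_apply (g : MvPolynomial ℕ ℤ) : gnB g = ∑ m ∈ g.support, g.coeff m • gnT m := by
  conv_lhs => rw [g.as_sum]
  rw [map_sum]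
  refine Finset.sum_congr rfl fun m _ => ?_
  have h : MvPolynomial.monomial m (g.coeff m) = g.coeff m • MvPolynomial.monomial m (1 : ℤ) := by
    rw [MvPolynomial.smul_monomial, smul_eq_mul, mul_one]
  rw [h, map_smul, gnB_mono]

private theorem gn_red {D : Submodule ℤ P} (hD : IsT D) (h2 : X 0 * cm 1 2 ∈ D) (h3 : cm 0 1 * X 2 ∈ D)
    (f : P) : f - wp (fun w => w.length ≤ 2) f - gnB (com f) ∈ D := by
  refine ind_mon (C := fun f => f - wp (fun w => w.length ≤ 2) f - gnB (com f) ∈ D) ?_ ?_ ?_ ?_ f
  · simp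
  · intro f g hf hg
    have : f + g - wp (fun w => w.length ≤ 2) (f + g) - gnB (com (f + g)) =
        (f - wp (fun w => w.length ≤ 2) f - gnB (com f)) +
        (g - wp (fun w => w.length ≤ 2) g - gnB (com g)) := by
      rw [map_add, map_add, map_add]
      abel
    rw [this]
    exact D.add_mem hf hg
  · intro c f hf
    have : c • f - wp (fun w => w.length ≤ 2) (c • f) - gnB (com (c • f)) =
        c • (f - wp (fun w => w.length ≤ 2) f - gnB (com f)) := by
      rw [map_smul, map_smul, map_smul, smul_sub, smul_sub]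
    rw [this]
    exact D.smul_mem _ hf
  · intro w
    rw [gn_com_mon, gnB_mono, gnT, gn_cnt_deg]
    by_cases h : w.length ≤ 2
    · rw [wp_pos (φ := fun w => w.length ≤ 2) h, if_neg (by omega)]
      simp
    · rw [wp_neg (φ := fun w => w.length ≤ 2) h, if_pos (by omega), sub_zero]
      exact CSt3 hD h2 h3 (gn_perm w) (by omega)

private theorem gn_short {p : ℕ} {D : Submodule ℤ P} (hm : Mul p D) {f : P} (h : NN p 0 0 f) :
    wp (fun w => w.length ≤ 2) f ∈ D := by
  obtain ⟨hP, h1, m, -, h2, -⟩ := h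
  obtain ⟨s, -, hf⟩ := eq_sum_cf f
  have hw : ∀ w : List ℕ, w.length ≤ 2 → cf w f • mon w ∈ D := by
    intro w hw
    by_cases hne : w = []
    · rw [hne, cf_nil, mem_Pp.1 hP, zero_smul]
      exact D.zero_mem
    · have hd : (p : ℤ) ∣ cf w f := by
        by_cases h1' : w.length = 1
        · obtain ⟨a, rfl⟩ := List.length_eq_one_iff.1 h1'
          exact h1 a
        · have h2' : w.length = 2 := by
            have := List.length_pos_of_ne_nil hne
            omega
          obtain ⟨a, b, rfl⟩ := List.length_eq_two.1 h2'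
          simpa using h2 a b
      obtain ⟨c, hc⟩ := hd
      rw [hc, mul_comm, mul_smul]
      exact D.smul_mem _ (hm _ (mon_mem hne))
  rw [hf, map_sum]
  refine D.sum_mem fun w _ => ?_
  rw [map_smul]
  by_cases h : w.length ≤ 2
  · rw [wp_pos (φ := fun w => w.length ≤ 2) h]
    exact hw w h
  · rw [wp_neg (φ := fun w => w.length ≤ 2) h, smul_zero]
    exact D.zero_mem

private theorem gn_T {D : Submodule ℤ P} (hD : IsT D) (h2 : X 0 * cm 1 2 ∈ D) (h3 : cm 0 1 * X 2 ∈ D)
    {w : List ℕ} (hw : 3 ≤ w.length) : gnT (ADA.cnt w) - mon w ∈ D := by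
  rw [gnT, gn_cnt_deg, if_pos hw]
  exact CSt3 hD h2 h3 (gn_perm w).symm (by rw [← (gn_perm w).length_eq]; exact hw)

private theorem gnT_mem (m : ℕ →₀ ℕ) : gnT m ∈ Pp := by
  unfold gnT
  split_ifs with h
  · refine mon_mem ?_
    intro h0
    have := sw_length m
    rw [h0] at this
    simp at this
    omega
  · exact Pp.zero_mem

theorem NPt_gen {p : ℕ} (hp : p.Prime) (h5 : 3 ≤ p) {D : Submodule ℤ P} (hD : IsT D) (h1 : (p : ℤ) • X 0 ∈ D)
    (h2 : X 0 * cm 1 2 ∈ D) (h3 : cm 0 1 * X 2 ∈ D) (h4 : X 0 ^ p * X 1 + X 0 * X 1 ^ p ∈ D)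
    (h5' : mw (p + 2) ∈ D) : NPt p 0 0 ≤ D := by
  classical
  -- `p P⁺ ≤ D`
  have hm : Mul p D := by
    intro f hf
    have h := sb_mem hD (φ := fun _ => f) (fun _ => hf) h1
    rwa [map_smul, sb_X] at h
  -- the words of length `≥ p + 2`
  have hlong : ∀ w : List ℕ, p + 2 ≤ w.length → mon w ∈ D := by
    intro w hw
    have hsplit : mon w = mon (w.take (p + 2)) * mon (w.drop (p + 2)) := by
      rw [← mon_append, List.take_append_drop]
    rw [hsplit]
    refine hD.mul_right _ ?_ _
    have hlen : (w.take (p + 2)).length = p + 2 := by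
      rw [List.length_take]
      omega
    have h := sb_mem hD (φ := fun i => X ((w.take (p + 2)).getD i 0)) (fun i => X_mem _) h5'
    unfold mw at h
    rw [sb_mon] at h
    have e : (List.range (p + 2)).map (fun i => X ((w.take (p + 2)).getD i 0)) =
        (w.take (p + 2)).map X := by
      apply List.ext_getElem
      · rw [List.length_map, List.length_map, List.length_range, hlen]
      · intro i hi1 hi2
        rw [List.length_map] at hi2
        rw [List.getElem_map, List.getElem_map, List.getElem_range, List.getD_eq_getElem _ _ hi2]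
    rw [e] at h
    exact h
  -- the words `x_i^p x_j`
  have hy : ∀ i j : ℕ, X i ^ p * X j + X j ^ p * X i ∈ D := by
    intro i j
    have ha := sb_mem hD (φ := fun k => if k = 0 then X i else X j)
      (fun k => by split_ifs <;> exact X_mem _) h4
    rw [map_add, map_mul, map_mul, map_pow, map_pow, sb_X, sb_X] at ha
    simp only [if_true, one_ne_zero, if_false] at ha
    have hb : X j ^ p * X i - X i * X j ^ p ∈ D := by
      rw [gn_w1, gn_w2]
      refine CSt3 hD h2 h3 ?_ ?_
      · exact List.perm_append_comm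
      · simp
        omega
    have : X i ^ p * X j + X j ^ p * X i =
        (X i ^ p * X j + X i * X j ^ p) + (X j ^ p * X i - X i * X j ^ p) := by abel
    rw [this]
    exact D.add_mem ha hb
  intro f hf
  rw [NPt_mem] at hf
  have hA := gn_short hm hf
  have hR := gn_red hD h2 h3 f
  obtain ⟨hP, -, m, -, -, n3, n4, n5⟩ := hf
  obtain ⟨G, hG⟩ : ∃ G, G = com f := ⟨_, rfl⟩
  rw [← hG] at n3 n4 n5 hR
  -- the terms with coefficients divisible by `p`
  have hdv : ∀ m : ℕ →₀ ℕ, (p : ℤ) ∣ G.coeff m → G.coeff m • gnT m ∈ D := by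
    rintro m ⟨c, hc⟩
    rw [hc, mul_comm, mul_smul]
    exact D.smul_mem _ (hm _ (gnT_mem m))
  have hcase : ∀ m : ℕ →₀ ℕ, G.coeff m • gnT m ∈ D ∨
      ∃ i j, m = Finsupp.single i p + Finsupp.single j 1 := by
    intro m
    by_cases d3 : 3 ≤ m.degree
    · by_cases dp : m.degree ≤ p
      · exact Or.inl (hdv m (n3 m d3 dp))
      · by_cases dp1 : m.degree = p + 1
        · by_cases hall : ∀ i, m i < p
          · exact Or.inl (hdv m (n5 m dp1 hall))
          · push Not at hall
            obtain ⟨i, hi⟩ := hall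
            obtain ⟨j, hj⟩ := gn_shape dp1 hi
            exact Or.inr ⟨i, j, hj⟩
        · left
          refine D.smul_mem _ ?_
          rw [gnT, if_pos d3]
          refine hlong _ ?_
          rw [sw_length]
          omega
    · left
      rw [gnT, if_neg d3, smul_zero]
      exact D.zero_mem
  have hinj : ∀ a b c d : ℕ, (Finsupp.single a p + Finsupp.single b 1 : ℕ →₀ ℕ) =
      Finsupp.single c p + Finsupp.single d 1 ↔ a = c ∧ b = d := by
    intro a b c d
    rw [Finsupp.single_add_single_eq_single_add_single hp.ne_zero one_ne_zero]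
    constructor
    · rintro (h | ⟨h, -, -⟩ | ⟨h, -, -⟩)
      · exact h
      · omega
      · omega
    · intro h
      exact Or.inl h
  obtain ⟨U, hU⟩ : ∃ U : Finset ℕ, U = G.support.biUnion Finsupp.support := ⟨_, rfl⟩
  obtain ⟨T, hT⟩ : ∃ T : Finset (ℕ →₀ ℕ), T = (U ×ˢ U).image
    (fun q => Finsupp.single q.1 p + Finsupp.single q.2 1) := ⟨_, rfl⟩
  obtain ⟨c, hc⟩ : ∃ c : ℕ → ℕ → ℤ, c = fun i j => G.coeff (Finsupp.single i p + Finsupp.single j 1) :=
    ⟨_, rfl⟩
  obtain ⟨t, ht⟩ : ∃ t : ℕ → ℕ → P, t = fun i j => gnT (Finsupp.single i p + Finsupp.single j 1) :=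
    ⟨_, rfl⟩
  have htm : ∀ i j, t i j ∈ Pp := by
    intro i j
    rw [ht]
    exact gnT_mem _
  have hty : ∀ i j, t i j - X i ^ p * X j ∈ D := by
    intro i j
    have h := gn_T hD h2 h3 (w := List.replicate p i ++ [j]) (by simp; omega)
    rw [gn_cnt_rep, gn_cnt_one, ← gn_w1] at h
    rw [ht]
    exact h
  have htt : ∀ i j, t i j + t j i ∈ D := by
    intro i j
    have : t i j + t j i = (t i j - X i ^ p * X j) + (t j i - X j ^ p * X i) +
        (X i ^ p * X j + X j ^ p * X i) := by abel
    rw [this]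
    exact D.add_mem (D.add_mem (hty i j) (hty j i)) (hy i j)
  have hcc : ∀ i j, (p : ℤ) ∣ c i j - c j i := by
    intro i j
    have h := n4 i j
    have e : (Finsupp.single i 1 + Finsupp.single j p : ℕ →₀ ℕ) =
      Finsupp.single j p + Finsupp.single i 1 := add_comm _ _
    rw [e, zero_mul, sub_zero] at h
    rw [hc]
    exact h
  have hsumT : ∑ m ∈ T, G.coeff m • gnT m = ∑ i ∈ U, ∑ j ∈ U, c i j • t i j := by
    rw [hT, Finset.sum_image, Finset.sum_product, hc, ht]
    rintro ⟨a, b⟩ - ⟨a', b'⟩ - h
    have h' := (hinj a b a' b').1 h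
    rw [h'.1, h'.2]
  have hT_mem : ∑ m ∈ T, G.coeff m • gnT m ∈ D := by
    have hPT : ∑ m ∈ T, G.coeff m • gnT m ∈ Pp := Pp.sum_mem fun m _ => Pp.smul_mem _ (gnT_mem m)
    have h2S : (2 : ℤ) • ∑ m ∈ T, G.coeff m • gnT m ∈ D := by
      have e : (2 : ℤ) • ∑ m ∈ T, G.coeff m • gnT m =
          ∑ i ∈ U, ∑ j ∈ U, (c i j • (t i j + t j i) + (c j i - c i j) • t j i) := by
        have e1 : ∑ i ∈ U, ∑ j ∈ U, c i j • t i j = ∑ i ∈ U, ∑ j ∈ U, c j i • t j i := Finset.sum_comm
        rw [two_smul, hsumT]
        conv_lhs => rw [e1]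
        conv_lhs => enter [1]; rw [← e1]
        rw [← Finset.sum_add_distrib]
        refine Finset.sum_congr rfl fun i _ => ?_
        rw [← Finset.sum_add_distrib]
        refine Finset.sum_congr rfl fun j _ => ?_
        rw [sub_smul, smul_add]
        abel
      rw [e]
      refine D.sum_mem fun i _ => D.sum_mem fun j _ => D.add_mem (D.smul_mem _ (htt i j)) ?_
      obtain ⟨k, hk⟩ := hcc j i
      rw [hk, mul_comm, mul_smul]
      exact D.smul_mem _ (hm _ (htm j i))
    have hnd : ¬ (p : ℤ) ∣ 2 := by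
      intro h
      have := Int.le_of_dvd (by norm_num) h
      omega
    exact cancel hp hm.sq hnd hPT h2S
  have hB : gnB G ∈ D := by
    rw [gnB_apply]
    have hsplit : ∑ m ∈ G.support, G.coeff m • gnT m =
        ∑ m ∈ G.support.filter (fun m => m ∈ T), G.coeff m • gnT m +
        ∑ m ∈ G.support.filter (fun m => m ∉ T), G.coeff m • gnT m :=
      (Finset.sum_filter_add_sum_filter_not _ _ _).symm
    rw [hsplit]
    refine D.add_mem ?_ (D.sum_mem fun m hm' => ?_)
    · have e : ∑ m ∈ G.support.filter (fun m => m ∈ T), G.coeff m • gnT m =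
          ∑ m ∈ T, G.coeff m • gnT m := by
        refine Finset.sum_subset (fun m hm' => (Finset.mem_filter.1 hm').2) fun m hmT hm' => ?_
        have : m ∉ G.support := fun h => hm' (Finset.mem_filter.2 ⟨h, hmT⟩)
        rw [MvPolynomial.notMem_support_iff.1 this, zero_smul]
      rw [e]
      exact hT_mem
    · rw [Finset.mem_filter] at hm'
      rcases hcase m with h | ⟨i, j, hij⟩
      · exact h
      · exfalso
        apply hm'.2
        rw [hT, Finset.mem_image]
        refine ⟨(i, j), ?_, hij.symm⟩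
        rw [Finset.mem_product, hU, Finset.mem_biUnion, Finset.mem_biUnion]
        refine ⟨⟨m, hm'.1, ?_⟩, ⟨m, hm'.1, ?_⟩⟩
        · rw [Finsupp.mem_support_iff, hij, Finsupp.add_apply, Finsupp.single_eq_same]
          have := hp.pos
          omega
        · rw [Finsupp.mem_support_iff, hij, Finsupp.add_apply, Finsupp.single_eq_same]
          omega
  have hfin : f = (f - wp (fun w => w.length ≤ 2) f - gnB G) + wp (fun w => w.length ≤ 2) f + gnB G := by
    abel
  rw [hfin]
  exact D.add_mem (D.add_mem hR hA) hB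

end ADP
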