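import Pool.Agent.ADP.K2
import Pool.Agent.ADP.K3b
import Pool.Agent.ADM.CfMul

/-!
# ADP-Gn2: generators of `WP 2` and `TN`

* `WP2_gen` (template `WP_gen` of ADC.GenW): `f ∈ WP 2 = TK 3 (KW 2)`: consequences have `Ml 3`-part in `KW 2` (`TK_iff`).  Degree 1, 2 coefficients are even (substitute `x_i ↦ xyz`; `x_i ↦ xy`, `x_j ↦ z`; `c_ii`: linearise).  Degree 3: content `xyz`: combination modulo 2 of `e = xyz + yzx + zxy`, `(01)e`.  Content `x^2y`:
  `α xxy + β xyx + γ yxx`, linearising gives `α ≡ β ≡ γ`: multiple of `e(x,x,y)`.  Content `x^3`: `3 x^3 = e(x,x,x) ∈ D`, so `x^3 ∈ D`.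
* `TN_gmem`: `LT_iff`: consequences of `2x`: even; of `x[y,z]`, `[x,y]z`: no part of degree 2, commutative image 0; of `x^3`: no part of degree 2; the part of degree 3 in `x, y` is `ε (αx + βy)^3`, `ct 2 1 + ct 1 2 = ε (3α²β + 3αβ²)` even; `mw 4`: degree `≥ 4`.
* `TN_gen`: `f ∈ TN`: degree 1: `cf [i] f` even (`x_i ↦ x_0x_1`).  Degree 2: `cf [i,j] f` even (`x_i ↦ x_0`, `x_j ↦ x_1`; `cf [i,i]`: `x_i ↦ x_0 + x_1`, others 0).  Degree 3, modulo `x[y,z]`, `[x,y]z ∈ D` (all letters of words of length 3 commute): the commutative coefficients `c_d`, `d.degree = 3`: restricting to two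
  letters (others to 0): `c_iij + c_ijj` even; three different letters: `x_k ↦ x_1`, `x_j ↦ x_1`, `x_i ↦ x_0`: `c_ijk + (c_iij + c_ijj) + (c_iik + c_ikk)` even (the terms `jjk`, `jkk` go to `x_1^3`), so `c_ijk` even.  And `x^2 y + x y^2 ∈ D`: from `(x+y)^3 - x^3 - y^3 ∈ D`, `≡ 3x²y + 3xy²`.  `Fge 4 ≤ D` (`mw 4`).
-/

namespace ADP

open AD ADN ADC

private theorem g2_cf_sub (w : List ℕ) (f g : P) : cf w (f - g) = cf w f - cf w g := by
  have h := cf_smul w (-1) g
  rw [sub_eq_add_neg, cf_add, ← neg_one_smul ℤ g, h]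
  ring

private theorem g2_cf_zero (w : List ℕ) : cf w (0 : P) = 0 := by
  have h := cf_smul w 0 (0 : P)
  rwa [zero_smul, zero_mul] at h

private theorem g2_cf_wp (φ : List ℕ → Prop) [DecidablePred φ] (u : List ℕ) (f : P) :
    cf u (wp φ f) = if φ u then cf u f else 0 := by
  refine ind_mon (C := fun f => cf u (wp φ f) = if φ u then cf u f else 0) ?_ ?_ ?_ ?_ f
  · rw [map_zero, g2_cf_zero, ite_self]
  · intro f g hf hg
    rw [map_add, cf_add, hf, hg, cf_add]
    by_cases h : φ u
    · rw [if_pos h, if_pos h, if_pos h]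
    · rw [if_neg h, if_neg h, if_neg h, add_zero]
  · intro c f hf
    rw [map_smul, cf_smul, hf, cf_smul]
    by_cases h : φ u
    · rw [if_pos h, if_pos h]
    · rw [if_neg h, if_neg h, mul_zero]
  · intro w
    rw [wp_mon]
    by_cases hw : φ w
    · rw [if_pos hw, cf_mon]
      by_cases hu : w = u
      · subst hu
        rw [if_pos rfl, if_pos hw]
      · rw [if_neg hu, ite_self]
    · rw [if_neg hw, g2_cf_zero, cf_mon]
      by_cases hu : w = u
      · subst hu
        rw [if_neg hw]
      · rw [if_neg hu, ite_self]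

private theorem g2_cf_cons (a b : ℕ) (u : List ℕ) (g : P) :
    cf (a :: u) (X b * g) = if b = a then cf u g else 0 := by
  refine ind_mon (C := fun g => cf (a :: u) (X b * g) = if b = a then cf u g else 0) ?_ ?_ ?_ ?_ g
  · rw [mul_zero, g2_cf_zero, g2_cf_zero, ite_self]
  · intro f g hf hg
    rw [mul_add, cf_add, hf, hg, cf_add]
    by_cases h : b = a
    · rw [if_pos h, if_pos h, if_pos h]
    · rw [if_neg h, if_neg h, if_neg h, add_zero]
  · intro c f hf
    rw [mul_smul_comm, cf_smul, hf, cf_smul]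
    by_cases h : b = a
    · rw [if_pos h, if_pos h]
    · rw [if_neg h, if_neg h, mul_zero]
  · intro w
    rw [← mon_cons, cf_mon, cf_mon]
    by_cases h : b = a
    · subst h
      rw [if_pos rfl]
      by_cases hw : w = u
      · rw [if_pos hw, if_pos (by rw [hw])]
      · rw [if_neg hw, if_neg (fun h' => hw (List.cons.inj h').2)]
    · rw [if_neg h, if_neg (fun h' => h (List.cons.inj h').1)]

private theorem g2_cf_snoc (m m' : ℕ) (u : List ℕ) (f : P) :
    cf (u ++ [m]) (f * X m') = if m' = m then cf u f else 0 := by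
  refine ind_mon (C := fun f => cf (u ++ [m]) (f * X m') = if m' = m then cf u f else 0) ?_ ?_ ?_ ?_ f
  · rw [zero_mul, g2_cf_zero, g2_cf_zero, ite_self]
  · intro f g hf hg
    rw [add_mul, cf_add, hf, hg, cf_add]
    by_cases h : m' = m
    · rw [if_pos h, if_pos h, if_pos h]
    · rw [if_neg h, if_neg h, if_neg h, add_zero]
  · intro c f hf
    rw [smul_mul_assoc, cf_smul, hf, cf_smul]
    by_cases h : m' = m
    · rw [if_pos h, if_pos h]
    · rw [if_neg h, if_neg h, mul_zero]
  · intro w
    rw [← mon_single m', ← mon_append, cf_mon, cf_mon]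
    by_cases h : m' = m
    · subst h
      rw [if_pos rfl]
      by_cases hw : w = u
      · rw [if_pos hw, if_pos (by rw [hw])]
      · rw [if_neg hw, if_neg (fun h' => hw (List.append_cancel_right h'))]
    · rw [if_neg h, if_neg]
      intro h'
      have h2 := List.append_inj_right' h' rfl
      exact h (List.cons.inj h2).1

/-- the substitution -/
private noncomputable def g2ψ (v : ℕ → ℕ) (m : ℕ) : P := ∑ t ∈ Finset.range 3, if v t = m then X t else 0

private theorem g2ψ_mem (v : ℕ → ℕ) (m : ℕ) : g2ψ v m ∈ Pp := by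
  unfold g2ψ
  refine Submodule.sum_mem _ fun t _ => ?_
  by_cases h : v t = m
  · rw [if_pos h]; exact X_mem t
  · rw [if_neg h]; exact Submodule.zero_mem _

private theorem g2_cf_sum (u : List ℕ) (s : Finset ℕ) (F : ℕ → P) : cf u (∑ t ∈ s, F t) = ∑ t ∈ s, cf u (F t) := by
  classical
  induction s using Finset.induction_on with
  | empty => rw [Finset.sum_empty, Finset.sum_empty, g2_cf_zero]
  | insert a s ha ih => rw [Finset.sum_insert ha, Finset.sum_insert ha, cf_add, ih]

private theorem g2_ψ (v : ℕ → ℕ) : ∀ (u w : List ℕ), (∀ a ∈ u, a < 3) →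
    cf u ((w.map (g2ψ v)).prod) = if w = u.map v then 1 else 0 := by
  intro u
  induction u with
  | nil =>
    intro w _
    rw [List.map_nil]
    cases w with
    | nil => rw [List.map_nil, List.prod_nil, if_pos rfl, ← mon_nil, cf_mon, if_pos rfl]
    | cons m w =>
      rw [if_neg (List.cons_ne_nil m w), cf_nil, List.map_cons, List.prod_cons, map_mul,
        mem_Pp.1 (g2ψ_mem v m), zero_mul]
  | cons a u ih =>
    intro w hu
    cases w with
    | nil =>
      rw [List.map_nil, List.prod_nil, ← mon_nil, cf_mon, if_neg (List.cons_ne_nil a u).symm,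
        List.map_cons, if_neg (List.cons_ne_nil _ _).symm]
    | cons m w =>
      rw [List.map_cons, List.prod_cons, List.map_cons]
      have h1 : g2ψ v m * (w.map (g2ψ v)).prod =
          ∑ t ∈ Finset.range 3, (if v t = m then X t * (w.map (g2ψ v)).prod else 0) := by
        conv_lhs => rw [g2ψ, Finset.sum_mul]
        refine Finset.sum_congr rfl fun t _ => ?_
        by_cases h : v t = m
        · rw [if_pos h, if_pos h]
        · rw [if_neg h, if_neg h, zero_mul]
      rw [h1, g2_cf_sum]
      have h2 : ∀ t ∈ Finset.range 3, cf (a :: u) (if v t = m then X t * (w.map (g2ψ v)).prod else 0) =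
          if t = a then (if v a = m then cf u ((w.map (g2ψ v)).prod) else 0) else 0 := by
        intro t _
        by_cases h : v t = m
        · rw [if_pos h, g2_cf_cons]
          by_cases h' : t = a
          · subst h'
            rw [if_pos rfl, if_pos rfl, if_pos h]
          · rw [if_neg h', if_neg h']
        · rw [if_neg h, g2_cf_zero]
          by_cases h' : t = a
          · subst h'
            rw [if_pos rfl, if_neg h]
          · rw [if_neg h']
      rw [Finset.sum_congr rfl h2, Finset.sum_ite_eq' (Finset.range 3) a,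
        if_pos (Finset.mem_range.2 (hu a (by simp))), ih w (fun b hb => hu b (List.mem_cons_of_mem _ hb))]
      by_cases h : v a = m
      · rw [if_pos h]
        by_cases h' : w = u.map v
        · rw [if_pos h', if_pos (by rw [h', h])]
        · rw [if_neg h', if_neg (fun h2 => h' (List.cons.inj h2).2)]
      · rw [if_neg h, if_neg (fun h2 => h (List.cons.inj h2).1.symm)]

private theorem g2_ψf (v : ℕ → ℕ) (u : List ℕ) (hu : ∀ a ∈ u, a < 3) (f : P) :
    cf u (sb (g2ψ v) f) = cf (u.map v) f := by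
  refine ind_mon (C := fun f => cf u (sb (g2ψ v) f) = cf (u.map v) f) ?_ ?_ ?_ ?_ f
  · rw [map_zero, g2_cf_zero, g2_cf_zero]
  · intro f g hf hg
    rw [map_add, cf_add, cf_add, hf, hg]
  · intro c f hf
    rw [map_zsmul, cf_smul, cf_smul, hf]
  · intro w
    rw [sb_mon, g2_ψ v u w hu, cf_mon]

private theorem g2_key {p : ℕ} {f : P} (hf : f ∈ WP p) (i j k : ℕ) :
    (p : ℤ) ∣ cf [i, j, k] f - cf [j, k, i] f := by
  classical
  set v : ℕ → ℕ := fun t => if t = 0 then i else if t = 1 then j else k with hv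
  have h0 := ((TK_iff (by norm_num) (KW_add p)).1 hf).2 (sb (g2ψ v)) (sb_isSubst (g2ψ_mem v)) 1 1
  rw [one_mul, mul_one] at h0
  have h1 := h0.1
  rw [g2_cf_wp, g2_cf_wp, if_pos (by decide), if_pos (by decide), g2_ψf v [0, 1, 2] (by decide),
    g2_ψf v [1, 2, 0] (by decide)] at h1
  exact h1

private theorem g2_key2 {p : ℕ} {f : P} (hf : f ∈ WP p) (i j : ℕ) :
    (p : ℤ) ∣ cf [i, j] f := by
  have h1 := g2_key ((WP_isT p).mul_right f hf (X (i + 1))) i j (i + 1)
  have h2 := g2_cf_snoc (i + 1) (i + 1) [i, j] f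
  have h3 := g2_cf_snoc i (i + 1) [j, i + 1] f
  rw [if_pos rfl] at h2
  rw [if_neg (by omega)] at h3
  have h4 : [i, j] ++ [i + 1] = [i, j, i + 1] := rfl
  have h5 : [j, i + 1] ++ [i] = [j, i + 1, i] := rfl
  rw [h4] at h2
  rw [h5] at h3
  rw [h2, h3, sub_zero] at h1
  exact h1

private theorem g2_key1 {p : ℕ} {f : P} (hf : f ∈ WP p) (i : ℕ) :
    (p : ℤ) ∣ cf [i] f := by
  have h1 := g2_key2 ((WP_isT p).mul_right f hf (X 0)) i 0
  have h2 := g2_cf_snoc 0 0 [i] f
  rw [if_pos rfl] at h2
  have h4 : [i] ++ [0] = [i, 0] := rfl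
  rw [h4] at h2
  rwa [h2] at h1

private theorem g2_div {p : ℕ} {D : Submodule ℤ P} (hm : Mul p D) {g : P} (h0 : cf [] g = 0)
    (h : ∀ w, (p : ℤ) ∣ cf w g) : g ∈ D := by
  obtain ⟨s, -, hg⟩ := eq_sum_cf g
  rw [hg]
  refine D.sum_mem fun w _ => ?_
  by_cases hw : w = []
  · rw [hw, h0, zero_smul]
    exact D.zero_mem
  · obtain ⟨c, hc⟩ := h w
    rw [hc, mul_comm, mul_smul]
    exact D.smul_mem _ (hm _ (mon_mem hw))

private noncomputable def g2C : P →ₗ[ℤ] P := lm (fun w => if w.length = 3 then mon (w.rotate 1) else 0)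

private theorem g2C_mon (w : List ℕ) : g2C (mon w) = if w.length = 3 then mon (w.rotate 1) else 0 := lm_mon _ w

private theorem g2_len3 {w : List ℕ} (h : w.length = 3) : ∃ a b c, w = [a, b, c] := List.length_eq_three.1 h

private theorem g2C_cf (x y z : ℕ) (f : P) : cf [x, y, z] (g2C f) = cf [z, x, y] f := by
  refine ind_mon (C := fun f => cf [x, y, z] (g2C f) = cf [z, x, y] f) ?_ ?_ ?_ ?_ f
  · rw [map_zero, g2_cf_zero, g2_cf_zero]
  · intro f g hf hg
    rw [map_add, cf_add, cf_add, hf, hg]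
  · intro c f hf
    rw [map_smul, cf_smul, cf_smul, hf]
  · intro w
    rw [g2C_mon, cf_mon]
    by_cases hl : w.length = 3
    · rw [if_pos hl]
      obtain ⟨a, b, c, rfl⟩ := g2_len3 hl
      have h1 : [a, b, c].rotate 1 = [b, c, a] := rfl
      rw [h1, cf_mon]
      have h2 : ([b, c, a] = [x, y, z]) ↔ ([a, b, c] = [z, x, y]) := by
        simp only [List.cons.injEq, and_true]
        tauto
      simp only [h2]
    · rw [if_neg hl, g2_cf_zero, if_neg]
      intro h'
      rw [h'] at hl
      exact hl rfl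

private theorem g2C_cf' {u : List ℕ} (hu : u.length ≠ 3) (f : P) : cf u (g2C f) = 0 := by
  refine ind_mon (C := fun f => cf u (g2C f) = 0) ?_ ?_ ?_ ?_ f
  · rw [map_zero, g2_cf_zero]
  · intro f g hf hg
    rw [map_add, cf_add, hf, hg, add_zero]
  · intro c f hf
    rw [map_smul, cf_smul, hf, mul_zero]
  · intro w
    rw [g2C_mon]
    by_cases hl : w.length = 3
    · rw [if_pos hl, cf_mon, if_neg]
      intro h'
      rw [← h', List.length_rotate] at hu
      exact hu hl
    · rw [if_neg hl, g2_cf_zero]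

private theorem g2_mul {p : ℕ} {D : Submodule ℤ P} (hD : IsT D) (h1 : (p : ℤ) • X 0 ∈ D) : Mul p D := by
  intro f hf
  have h := sb_mem hD (φ := fun _ => f) (fun _ => hf) h1
  rwa [map_zsmul, sb_X] at h

private theorem g2_four {D : Submodule ℤ P} (hD : IsT D) (h3 : mw 4 ∈ D) : Fge 4 ≤ D := by
  refine Submodule.span_le.2 ?_
  rintro f ⟨w, hw, rfl⟩
  obtain ⟨a, w, rfl⟩ : ∃ a t, w = a :: t := by
    cases w with
    | nil => simp at hw
    | cons a t => exact ⟨a, t, rfl⟩
  obtain ⟨b, w, rfl⟩ : ∃ a t, w = a :: t := by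
    cases w with
    | nil => simp at hw
    | cons a t => exact ⟨a, t, rfl⟩
  obtain ⟨c, w, rfl⟩ : ∃ a t, w = a :: t := by
    cases w with
    | nil => simp at hw
    | cons a t => exact ⟨a, t, rfl⟩
  obtain ⟨d, w, rfl⟩ : ∃ a t, w = a :: t := by
    cases w with
    | nil => simp at hw
    | cons a t => exact ⟨a, t, rfl⟩
  have h1 := sb_mem hD (φ := fun i => X (if i = 0 then a else if i = 1 then b else if i = 2 then c else d))
    (fun i => X_mem _) h3
  have h2 : List.range 4 = [0, 1, 2, 3] := rfl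
  rw [mw, h2, sb_mon] at h1
  have h4 := hD.mul_right _ h1 (mon w)
  have h5 : (([0, 1, 2, 3] : List ℕ).map
      (fun i => X (if i = 0 then a else if i = 1 then b else if i = 2 then c else d))).prod * mon w =
      mon (a :: b :: c :: d :: w) := by
    simp [mon_cons, mul_assoc]
  rw [h5] at h4
  exact h4

private theorem g2_three {D : Submodule ℤ P} (hD : IsT D)
    (h2 : X 0 * X 1 * X 2 + X 1 * X 2 * X 0 + X 2 * X 0 * X 1 ∈ D) (a b c : ℕ) :
    mon [a, b, c] + mon [b, c, a] + mon [c, a, b] ∈ D := by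
  have h1 := sb_mem hD (φ := fun i => X (if i = 0 then a else if i = 1 then b else c))
    (fun i => X_mem _) h2
  simp only [map_add, map_mul, sb_X] at h1
  have h3 : mon [a, b, c] + mon [b, c, a] + mon [c, a, b] =
      X a * X b * X c + X b * X c * X a + X c * X a * X b := by
    simp only [mon_cons, mon_nil, mul_one, mul_assoc]
  rw [h3]
  simpa using h1

private theorem g2_A {D : Submodule ℤ P} (hD : IsT D)
    (h2 : X 0 * X 1 * X 2 + X 1 * X 2 * X 0 + X 2 * X 0 * X 1 ∈ D) (x : P) :
    wp (fun w => w.length = 3) x + g2C x + g2C (g2C x) ∈ D := by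
  refine ind_mon (C := fun x => wp (fun w => w.length = 3) x + g2C x + g2C (g2C x) ∈ D) ?_ ?_ ?_ ?_ x
  · simp
  · intro f g hf hg
    have h : wp (fun w => w.length = 3) (f + g) + g2C (f + g) + g2C (g2C (f + g)) =
        (wp (fun w => w.length = 3) f + g2C f + g2C (g2C f)) +
        (wp (fun w => w.length = 3) g + g2C g + g2C (g2C g)) := by
      simp only [map_add]
      abel
    rw [h]
    exact D.add_mem hf hg
  · intro c f hf
    have h : wp (fun w => w.length = 3) (c • f) + g2C (c • f) + g2C (g2C (c • f)) =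
        c • (wp (fun w => w.length = 3) f + g2C f + g2C (g2C f)) := by
      simp only [map_smul, smul_add]
    rw [h]
    exact D.smul_mem _ hf
  · intro w
    by_cases hl : w.length = 3
    · obtain ⟨a, b, c, rfl⟩ := g2_len3 hl
      rw [wp_pos (φ := fun w => w.length = 3) hl, g2C_mon, if_pos hl]
      have h1 : [a, b, c].rotate 1 = [b, c, a] := rfl
      have h3 : [b, c, a].rotate 1 = [c, a, b] := rfl
      rw [h1, g2C_mon, if_pos (show [b, c, a].length = 3 from rfl), h3]
      exact g2_three hD h2 a b c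
    · rw [wp_neg (φ := fun w => w.length = 3) hl, g2C_mon, if_neg hl, map_zero, add_zero, add_zero]
      exact D.zero_mem

private theorem g2_split (f : P) : f = wp (fun w => 4 ≤ w.length) f + wp (fun w => w.length = 3) f +
    wp (fun w => w.length ≤ 2) f := by
  refine ind_mon (C := fun f => f = wp (fun w => 4 ≤ w.length) f + wp (fun w => w.length = 3) f +
    wp (fun w => w.length ≤ 2) f) ?_ ?_ ?_ ?_ f
  · simp
  · intro f g hf hg
    simp only [map_add]
    conv_lhs => rw [hf, hg]
    abel
  · intro c f hf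
    simp only [map_smul, ← smul_add]
    rw [← hf]
  · intro w
    rcases Nat.lt_or_ge w.length 3 with h | h
    · rw [wp_neg (φ := fun w => 4 ≤ w.length) (by omega), wp_neg (φ := fun w => w.length = 3) (by omega),
        wp_pos (φ := fun w => w.length ≤ 2) (by omega), zero_add, zero_add]
    · rcases Nat.eq_or_lt_of_le h with h | h
      · rw [wp_neg (φ := fun w => 4 ≤ w.length) (by omega), wp_pos (φ := fun w => w.length = 3) h.symm,
          wp_neg (φ := fun w => w.length ≤ 2) (by omega), zero_add, add_zero]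
      · rw [wp_pos (φ := fun w => 4 ≤ w.length) h, wp_neg (φ := fun w => w.length = 3) (by omega),
          wp_neg (φ := fun w => w.length ≤ 2) (by omega), add_zero, add_zero]

private theorem g2_gen {p : ℕ} (hp : p.Prime) (h5 : p ≠ 3) {D : Submodule ℤ P} (hD : IsT D) (h1 : (p : ℤ) • X 0 ∈ D)
    (h2 : X 0 * X 1 * X 2 + X 1 * X 2 * X 0 + X 2 * X 0 * X 1 ∈ D) (h3 : mw 4 ∈ D) : WP p ≤ D := by
  intro f hf
  have hm : Mul p D := g2_mul hD h1
  have hfP : f ∈ Pp := (WP_isT p).le hf
  have hf0 : cf [] f = 0 := by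
    rw [cf_nil]
    exact mem_Pp.1 hfP
  -- length at least 4
  have e4 : wp (fun w => 4 ≤ w.length) f ∈ D := g2_four hD h3 (wp_mem _ f)
  -- length at most 2
  have e2 : wp (fun w => w.length ≤ 2) f ∈ D := by
    refine g2_div hm ?_ ?_
    · rw [g2_cf_wp, hf0, ite_self]
    · intro w
      rw [g2_cf_wp]
      by_cases hw : w.length ≤ 2
      · rw [if_pos hw]
        match w, hw with
        | [], _ => rw [hf0]; exact dvd_zero _
        | [i], _ => exact g2_key1 hf i
        | [i, j], _ => exact g2_key2 hf i j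
        | _ :: _ :: _ :: _, hw => simp at hw
      · rw [if_neg hw]
        exact dvd_zero _
  -- length 3
  have c0 : ∀ g : P, cf [] (wp (fun w => w.length = 3) f - g2C g) = 0 := by
    intro g
    rw [g2_cf_sub, g2_cf_wp, if_neg (by simp), g2C_cf' (by simp), sub_zero]
  have e3a : wp (fun w => w.length = 3) f - g2C f ∈ D := by
    refine g2_div hm (c0 f) ?_
    intro w
    rw [g2_cf_sub, g2_cf_wp]
    by_cases hl : w.length = 3
    · rw [if_pos hl]
      obtain ⟨a, b, c, rfl⟩ := g2_len3 hl
      rw [g2C_cf]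
      have h := g2_key hf c a b
      rw [← dvd_neg, neg_sub] at h
      exact h
    · rw [if_neg hl, g2C_cf' hl, sub_zero]
      exact dvd_zero _
  have e3b : wp (fun w => w.length = 3) f - g2C (g2C f) ∈ D := by
    refine g2_div hm (c0 (g2C f)) ?_
    intro w
    rw [g2_cf_sub, g2_cf_wp]
    by_cases hl : w.length = 3
    · rw [if_pos hl]
      obtain ⟨a, b, c, rfl⟩ := g2_len3 hl
      rw [g2C_cf, g2C_cf]
      exact g2_key hf a b c
    · rw [if_neg hl, g2C_cf' hl, sub_zero]
      exact dvd_zero _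
  have e3 : wp (fun w => w.length = 3) f ∈ D := by
    refine cancel hp (Mul.sq hm) (c := 3) ?_ ?_ ?_
    · intro h
      have h6 : p ∣ 3 := by exact_mod_cast h
      exact h5 ((Nat.prime_dvd_prime_iff_eq hp Nat.prime_three).1 h6)
    · rw [mem_Pp, ← cf_nil, g2_cf_wp, if_neg (by simp)]
    · have h6 : (3 : ℤ) • wp (fun w => w.length = 3) f =
          (wp (fun w => w.length = 3) f + g2C f + g2C (g2C f)) +
          (wp (fun w => w.length = 3) f - g2C f) + (wp (fun w => w.length = 3) f - g2C (g2C f)) := by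
        have h7 : (3 : ℤ) • wp (fun w => w.length = 3) f = wp (fun w => w.length = 3) f +
            wp (fun w => w.length = 3) f + wp (fun w => w.length = 3) f := by
          rw [show (3 : ℤ) = 1 + 1 + 1 from rfl, add_smul, add_smul, one_smul]
        rw [h7]
        abel
      rw [h6]
      exact D.add_mem (D.add_mem (g2_A hD h2 f) e3a) e3b
  rw [g2_split f]
  exact D.add_mem (D.add_mem e4 e3) e2

theorem WP2_gen {D : Submodule ℤ P} (hD : IsT D) (h1 : (2 : ℤ) • X 0 ∈ D)
    (h2 : X 0 * X 1 * X 2 + X 1 * X 2 * X 0 + X 2 * X 0 * X 1 ∈ D) (h3 : mw 4 ∈ D) : WP 2 ≤ D :=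
  g2_gen Nat.prime_two (by norm_num) hD (by exact_mod_cast h1) h2 h3

private theorem g2_com_X (a : ℕ) : com (X a) = MvPolynomial.X a := FreeAlgebra.lift_ι_apply _ _

/-- exponents of a word -/
private noncomputable def g2D (w : List ℕ) : ℕ →₀ ℕ := Multiset.toFinsupp (w : Multiset ℕ)

private theorem g2D_apply (w : List ℕ) (k : ℕ) : g2D w k = w.count k := by
  unfold g2D
  rw [Multiset.toFinsupp_apply, Multiset.coe_count]

private theorem g2D_degree (w : List ℕ) : (g2D w).degree = w.length := by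
  induction w with
  | nil => simp [g2D]
  | cons a w ih =>
    have h : g2D (a :: w) = Finsupp.single a 1 + g2D w := by
      unfold g2D
      rw [← Multiset.cons_coe, ← Multiset.singleton_add, map_add, Multiset.toFinsupp_singleton]
    rw [h, map_add, ih, Finsupp.degree_single, List.length_cons, add_comm]

private theorem g2_com_word (w : List ℕ) : com (mon w) = MvPolynomial.monomial (g2D w) (1 : ℤ) := by
  induction w with
  | nil => rw [mon_nil, map_one]; simp [g2D]
  | cons a w ih =>
    have h : g2D (a :: w) = Finsupp.single a 1 + g2D w := by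
      unfold g2D
      rw [← Multiset.cons_coe, ← Multiset.singleton_add, map_add, Multiset.toFinsupp_singleton]
    rw [mon_cons, map_mul, ih, h, g2_com_X]
    unfold MvPolynomial.X
    rw [MvPolynomial.monomial_mul, one_mul]

private theorem g2_coeff_word (w : List ℕ) (d : ℕ →₀ ℕ) :
    (com (mon w)).coeff d = if g2D w = d then 1 else 0 := by
  classical
  rw [g2_com_word, MvPolynomial.coeff_monomial]

private theorem g2D_two {i j : ℕ} (hij : i ≠ j) (w : List ℕ) (a b : ℕ) :
    g2D w = Finsupp.single i a + Finsupp.single j b ↔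
      (∀ k ∈ w, k = i ∨ k = j) ∧ w.count i = a ∧ w.count j = b := by
  constructor
  · intro h
    have h1 : ∀ k, w.count k = (if i = k then a else 0) + (if j = k then b else 0) := by
      intro k
      rw [← g2D_apply, h, Finsupp.add_apply, Finsupp.single_apply, Finsupp.single_apply]
    refine ⟨fun k hk => ?_, ?_, ?_⟩
    · by_contra hcon
      push Not at hcon
      have h2 := h1 k
      rw [if_neg (Ne.symm hcon.1), if_neg (Ne.symm hcon.2)] at h2
      exact (List.count_pos_iff.2 hk).ne' h2
    · rw [h1, if_pos rfl, if_neg (Ne.symm hij), add_zero]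
    · rw [h1, if_neg hij, if_pos rfl, zero_add]
  · rintro ⟨h, h1, h2⟩
    ext k
    rw [g2D_apply, Finsupp.add_apply, Finsupp.single_apply, Finsupp.single_apply]
    by_cases hk1 : i = k
    · rw [if_pos hk1, if_neg (by rw [← hk1]; exact Ne.symm hij), add_zero, ← hk1, h1]
    · by_cases hk2 : j = k
      · rw [if_neg hk1, if_pos hk2, zero_add, ← hk2, h2]
      · rw [if_neg hk1, if_neg hk2, add_zero]
        refine List.count_eq_zero.2 fun h3 => ?_
        rcases h k h3 with h4 | h4
        · exact hk1 h4.symm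
        · exact hk2 h4.symm

private theorem g2_ct_mon (a b : ℕ) (w : List ℕ) : ct a b (mon w) =
    if (∀ k ∈ w, k = 0 ∨ k = 1) ∧ w.count 0 = a ∧ w.count 1 = b then 1 else 0 := by
  unfold ct
  rw [g2_coeff_word]
  by_cases h : g2D w = Finsupp.single 0 a + Finsupp.single 1 b
  · rw [if_pos h, if_pos ((g2D_two (by norm_num) w a b).1 h)]
  · rw [if_neg h, if_neg (fun h' => h ((g2D_two (by norm_num) w a b).2 h'))]

private theorem g2_ct_add (a b : ℕ) (f g : P) : ct a b (f + g) = ct a b f + ct a b g := by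
  unfold ct
  rw [map_add, MvPolynomial.coeff_add]

private theorem g2_ct_smul (a b : ℕ) (c : ℤ) (f : P) : ct a b (c • f) = c * ct a b f := by
  unfold ct
  rw [map_zsmul, MvPolynomial.coeff_smul, smul_eq_mul]

private theorem g2_ct_zero (a b : ℕ) : ct a b 0 = 0 := by
  unfold ct
  rw [map_zero, MvPolynomial.coeff_zero]

/-- the coefficients of the words of length three, by their sets of letters -/
private noncomputable def g2F : P →ₗ[ℤ] (Finset ℕ →₀ ℤ) :=
  lm (fun w => if w.length = 3 then Finsupp.single w.toFinset 1 else 0)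

private theorem g2F_mon' (w : List ℕ) : g2F (mon w) = if w.length = 3 then Finsupp.single w.toFinset 1 else 0 :=
  lm_mon _ w

private theorem g2F_mon (w : List ℕ) (S : Finset ℕ) :
    g2F (mon w) S = if w.length = 3 ∧ w.toFinset = S then 1 else 0 := by
  rw [g2F_mon']
  by_cases h : w.length = 3
  · rw [if_pos h, Finsupp.single_apply]
    by_cases h' : w.toFinset = S
    · rw [if_pos h', if_pos ⟨h, h'⟩]
    · rw [if_neg h', if_neg (fun h2 => h' h2.2)]
  · rw [if_neg h, if_neg (fun h2 => h h2.1), Finsupp.zero_apply]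

private theorem g2_tf2 (w : List ℕ) (i j : ℕ) : w.toFinset = {i, j} ↔
    (∀ m ∈ w, m = i ∨ m = j) ∧ i ∈ w ∧ j ∈ w := by
  constructor
  · intro h
    refine ⟨fun m hm => ?_, ?_, ?_⟩
    · have h1 : m ∈ w.toFinset := List.mem_toFinset.2 hm
      rw [h] at h1
      simpa using h1
    · rw [← List.mem_toFinset, h]; simp
    · rw [← List.mem_toFinset, h]; simp
  · rintro ⟨h1, h2, h3⟩
    ext m
    rw [List.mem_toFinset, Finset.mem_insert, Finset.mem_singleton]
    constructor
    · exact h1 m
    · rintro (rfl | rfl)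
      · exact h2
      · exact h3

private theorem g2_tf3 (w : List ℕ) (i j k : ℕ) : w.toFinset = {i, j, k} ↔
    (∀ m ∈ w, m = i ∨ m = j ∨ m = k) ∧ i ∈ w ∧ j ∈ w ∧ k ∈ w := by
  constructor
  · intro h
    refine ⟨fun m hm => ?_, ?_, ?_, ?_⟩
    · have h1 : m ∈ w.toFinset := List.mem_toFinset.2 hm
      rw [h] at h1
      simpa using h1
    · rw [← List.mem_toFinset, h]; simp
    · rw [← List.mem_toFinset, h]; simp
    · rw [← List.mem_toFinset, h]; simp
  · rintro ⟨h1, h2, h3, h4⟩
    ext m
    rw [List.mem_toFinset, Finset.mem_insert, Finset.mem_insert, Finset.mem_singleton]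
    constructor
    · exact h1 m
    · rintro (rfl | rfl | rfl)
      · exact h2
      · exact h3
      · exact h4

private theorem g2F2_mon (w : List ℕ) (i j : ℕ) : g2F (mon w) {i, j} =
    if w.length = 3 ∧ (∀ m ∈ w, m = i ∨ m = j) ∧ i ∈ w ∧ j ∈ w then 1 else 0 := by
  rw [g2F_mon]
  by_cases h : w.length = 3 ∧ w.toFinset = {i, j}
  · rw [if_pos h, if_pos ⟨h.1, (g2_tf2 w i j).1 h.2⟩]
  · rw [if_neg h, if_neg (fun h' => h ⟨h'.1, (g2_tf2 w i j).2 h'.2⟩)]

private theorem g2F3_mon (w : List ℕ) (i j k : ℕ) : g2F (mon w) {i, j, k} =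
    if w.length = 3 ∧ (∀ m ∈ w, m = i ∨ m = j ∨ m = k) ∧ i ∈ w ∧ j ∈ w ∧ k ∈ w then 1 else 0 := by
  rw [g2F_mon]
  by_cases h : w.length = 3 ∧ w.toFinset = {i, j, k}
  · rw [if_pos h, if_pos ⟨h.1, (g2_tf3 w i j k).1 h.2⟩]
  · rw [if_neg h, if_neg (fun h' => h ⟨h'.1, (g2_tf3 w i j k).2 h'.2⟩)]

private theorem g2_len {w : List ℕ} (h : ∀ k ∈ w, k = 0 ∨ k = 1) : w.length = w.count 0 + w.count 1 := by
  induction w with
  | nil => rfl
  | cons a w ih =>
    have h1 := ih fun k hk => h k (List.mem_cons_of_mem _ hk)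
    rcases h a (by simp) with rfl | rfl
    · rw [List.length_cons, List.count_cons_self, List.count_cons_of_ne (by norm_num), h1]
      omega
    · rw [List.length_cons, List.count_cons_self, List.count_cons_of_ne (by norm_num), h1]
      omega

private theorem g2F_ct (g : P) : g2F g {0, 1} = ct 2 1 g + ct 1 2 g := by
  refine ind_mon (C := fun g => g2F g {0, 1} = ct 2 1 g + ct 1 2 g) ?_ ?_ ?_ ?_ g
  · rw [map_zero, Finsupp.zero_apply, g2_ct_zero, g2_ct_zero, add_zero]
  · intro f g hf hg
    rw [map_add, Finsupp.add_apply, hf, hg, g2_ct_add, g2_ct_add]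
    ring
  · intro c f hf
    rw [map_smul, Finsupp.smul_apply, hf, g2_ct_smul, g2_ct_smul, smul_eq_mul]
    ring
  · intro w
    rw [g2F2_mon, g2_ct_mon, g2_ct_mon]
    by_cases h : ∀ k ∈ w, k = 0 ∨ k = 1
    · have hl := g2_len h
      have h0 : 0 ∈ w ↔ 0 < w.count 0 := List.count_pos_iff.symm
      have h1 : 1 ∈ w ↔ 0 < w.count 1 := List.count_pos_iff.symm
      by_cases c1 : w.count 0 = 2 ∧ w.count 1 = 1
      · rw [if_pos ⟨by omega, h, h0.2 (by omega), h1.2 (by omega)⟩, if_pos ⟨h, c1⟩, if_neg (fun h' => by omega),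
          add_zero]
      · by_cases c2 : w.count 0 = 1 ∧ w.count 1 = 2
        · rw [if_pos ⟨by omega, h, h0.2 (by omega), h1.2 (by omega)⟩, if_neg (fun h' => by omega), if_pos ⟨h, c2⟩,
            zero_add]
        · rw [if_neg, if_neg (fun h' => c1 h'.2), if_neg (fun h' => c2 h'.2), add_zero]
          rintro ⟨h2, -, h3, h4⟩
          have h5 := h0.1 h3
          have h6 := h1.1 h4
          omega
    · rw [if_neg (fun h' => h h'.2.1), if_neg (fun h' => h h'.1), if_neg (fun h' => h h'.1), add_zero]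

/-- renaming of the letters of `A`, the others become 0 -/
private noncomputable def g2s (A : ℕ → Prop) (τ : ℕ → ℕ) : ℕ → P := open Classical in fun m => if A m then X (τ m) else 0

private theorem g2s_mem (A : ℕ → Prop) (τ : ℕ → ℕ) (m : ℕ) : g2s A τ m ∈ Pp := by
  unfold g2s
  by_cases h : A m
  · rw [if_pos h]; exact X_mem _
  · rw [if_neg h]; exact Submodule.zero_mem _

private theorem g2s_pos {A : ℕ → Prop} (τ : ℕ → ℕ) {w : List ℕ} (h : ∀ m ∈ w, A m) :
    sb (g2s A τ) (mon w) = mon (w.map τ) := by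
  induction w with
  | nil => rw [mon_nil, List.map_nil, mon_nil, map_one]
  | cons a w ih =>
    rw [mon_cons, map_mul, ih (fun m hm => h m (List.mem_cons_of_mem _ hm)), List.map_cons, mon_cons, sb_X]
    unfold g2s
    rw [if_pos (h a (by simp))]

private theorem g2s_neg {A : ℕ → Prop} (τ : ℕ → ℕ) {w : List ℕ} (h : ¬ ∀ m ∈ w, A m) :
    sb (g2s A τ) (mon w) = 0 := by
  induction w with
  | nil => exact absurd (by simp) h
  | cons a w ih =>
    rw [mon_cons, map_mul, sb_X]
    by_cases ha : A a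
    · rw [ih, mul_zero]
      intro h'
      apply h
      intro m hm
      rcases List.mem_cons.1 hm with rfl | hm
      · exact ha
      · exact h' m hm
    · unfold g2s
      rw [if_neg ha, zero_mul]

private theorem g2F_two {i j : ℕ} (hij : i ≠ j) (g : P) :
    g2F (sb (g2s (fun m => m = i ∨ m = j) (fun m => if m = i then 0 else 1)) g) {0, 1} = g2F g {i, j} := by
  refine ind_mon (C := fun g => g2F (sb (g2s (fun m => m = i ∨ m = j) (fun m => if m = i then 0 else 1)) g)
    {0, 1} = g2F g {i, j}) ?_ ?_ ?_ ?_ g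
  · rw [map_zero, map_zero, Finsupp.zero_apply, Finsupp.zero_apply]
  · intro f g hf hg
    rw [map_add, map_add, map_add, Finsupp.add_apply, Finsupp.add_apply, hf, hg]
  · intro c f hf
    rw [map_zsmul, map_smul, map_smul, Finsupp.smul_apply, Finsupp.smul_apply, hf]
  · intro w
    by_cases h : ∀ m ∈ w, m = i ∨ m = j
    · rw [g2s_pos (A := fun m => m = i ∨ m = j) _ h, g2F2_mon, g2F2_mon, List.length_map]
      have e0 : 0 ∈ w.map (fun m => if m = i then 0 else 1) ↔ i ∈ w := by
        rw [List.mem_map]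
        constructor
        · rintro ⟨m, hm, h1⟩
          by_cases hmi : m = i
          · rwa [← hmi]
          · rw [if_neg hmi] at h1
            exact absurd h1 (by norm_num)
        · intro hi
          exact ⟨i, hi, if_pos rfl⟩
      have e1 : 1 ∈ w.map (fun m => if m = i then 0 else 1) ↔ j ∈ w := by
        rw [List.mem_map]
        constructor
        · rintro ⟨m, hm, h1⟩
          by_cases hmi : m = i
          · rw [if_pos hmi] at h1
            exact absurd h1 (by norm_num)
          · rcases h m hm with h2 | h2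
            · exact absurd h2 hmi
            · rwa [← h2]
        · intro hj
          exact ⟨j, hj, if_neg (Ne.symm hij)⟩
      have e2 : (∀ m ∈ w.map (fun m => if m = i then 0 else 1), m = 0 ∨ m = 1) := by
        intro m hm
        rw [List.mem_map] at hm
        obtain ⟨a, -, rfl⟩ := hm
        by_cases ha : a = i
        · rw [if_pos ha]; exact Or.inl rfl
        · rw [if_neg ha]; exact Or.inr rfl
      by_cases h1 : w.length = 3 ∧ i ∈ w ∧ j ∈ w
      · rw [if_pos ⟨h1.1, e2, e0.2 h1.2.1, e1.2 h1.2.2⟩, if_pos ⟨h1.1, h, h1.2⟩]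
      · rw [if_neg (fun h2 => h1 ⟨h2.1, e0.1 h2.2.2.1, e1.1 h2.2.2.2⟩), if_neg (fun h2 => h1 ⟨h2.1, h2.2.2⟩)]
    · rw [g2s_neg (A := fun m => m = i ∨ m = j) _ h, map_zero, Finsupp.zero_apply, g2F2_mon,
        if_neg (fun h' => h h'.2.1)]

private theorem g2F_three {i j k : ℕ} (hij : i ≠ j) (hik : i ≠ k) (hjk : j ≠ k) (g : P) :
    g2F (sb (g2s (fun m => m = i ∨ m = j ∨ m = k) (fun m => if m = i then 0 else 1)) g) {0, 1} =
      g2F g {i, j} + g2F g {i, k} + g2F g {i, j, k} := by
  refine ind_mon (C := fun g => g2F (sb (g2s (fun m => m = i ∨ m = j ∨ m = k)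
    (fun m => if m = i then 0 else 1)) g) {0, 1} = g2F g {i, j} + g2F g {i, k} + g2F g {i, j, k}) ?_ ?_ ?_ ?_ g
  · simp only [map_zero, Finsupp.zero_apply, add_zero]
  · intro f g hf hg
    rw [map_add, map_add, map_add, Finsupp.add_apply, Finsupp.add_apply, Finsupp.add_apply,
      Finsupp.add_apply, hf, hg]
    ring
  · intro c f hf
    rw [map_zsmul, map_smul, map_smul, Finsupp.smul_apply, Finsupp.smul_apply, Finsupp.smul_apply,
      Finsupp.smul_apply, hf]
    simp only [smul_eq_mul]
    ring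
  · intro w
    by_cases h : ∀ m ∈ w, m = i ∨ m = j ∨ m = k
    · rw [g2s_pos (A := fun m => m = i ∨ m = j ∨ m = k) _ h, g2F2_mon, g2F2_mon, g2F2_mon,
        g2F3_mon, List.length_map]
      have e0 : 0 ∈ w.map (fun m => if m = i then 0 else 1) ↔ i ∈ w := by
        rw [List.mem_map]
        constructor
        · rintro ⟨m, hm, h1⟩
          by_cases hmi : m = i
          · rwa [← hmi]
          · rw [if_neg hmi] at h1
            exact absurd h1 (by norm_num)
        · intro hi
          exact ⟨i, hi, if_pos rfl⟩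
      have e1 : 1 ∈ w.map (fun m => if m = i then 0 else 1) ↔ j ∈ w ∨ k ∈ w := by
        rw [List.mem_map]
        constructor
        · rintro ⟨m, hm, h1⟩
          by_cases hmi : m = i
          · rw [if_pos hmi] at h1
            exact absurd h1 (by norm_num)
          · rcases h m hm with h2 | h2 | h2
            · exact absurd h2 hmi
            · rw [← h2]; exact Or.inl hm
            · rw [← h2]; exact Or.inr hm
        · rintro (hj | hk)
          · exact ⟨j, hj, if_neg (Ne.symm hij)⟩
          · exact ⟨k, hk, if_neg (Ne.symm hik)⟩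
      have e2 : (∀ m ∈ w.map (fun m => if m = i then 0 else 1), m = 0 ∨ m = 1) := by
        intro m hm
        rw [List.mem_map] at hm
        obtain ⟨a, -, rfl⟩ := hm
        by_cases ha : a = i
        · rw [if_pos ha]; exact Or.inl rfl
        · rw [if_neg ha]; exact Or.inr rfl
      by_cases hl : w.length = 3
      · by_cases hi : i ∈ w
        · by_cases hj : j ∈ w
          · by_cases hk : k ∈ w
            · rw [if_pos ⟨hl, e2, e0.2 hi, e1.2 (Or.inl hj)⟩, if_neg, if_neg, if_pos ⟨hl, h, hi, hj, hk⟩, zero_add, zero_add]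
              · rintro ⟨-, h1, -⟩
                rcases h1 j hj with h2 | h2
                · exact hij h2.symm
                · exact hjk h2
              · rintro ⟨-, h1, -⟩
                rcases h1 k hk with h2 | h2
                · exact hik h2.symm
                · exact hjk h2.symm
            · have hA : ∀ m ∈ w, m = i ∨ m = j := by
                intro m hm
                rcases h m hm with h2 | h2 | h2
                · exact Or.inl h2
                · exact Or.inr h2
                · rw [h2] at hm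
                  exact absurd hm hk
              rw [if_pos ⟨hl, e2, e0.2 hi, e1.2 (Or.inl hj)⟩, if_pos ⟨hl, hA, hi, hj⟩,
                if_neg (fun h1 => hk h1.2.2.2), if_neg (fun h1 => hk h1.2.2.2.2), add_zero, add_zero]
          · by_cases hk : k ∈ w
            · have hA : ∀ m ∈ w, m = i ∨ m = k := by
                intro m hm
                rcases h m hm with h2 | h2 | h2
                · exact Or.inl h2
                · rw [h2] at hm
                  exact absurd hm hj
                · exact Or.inr h2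
              rw [if_pos ⟨hl, e2, e0.2 hi, e1.2 (Or.inr hk)⟩, if_neg (fun h1 => hj h1.2.2.2),
                if_pos ⟨hl, hA, hi, hk⟩, if_neg (fun h1 => hj h1.2.2.2.1), zero_add, add_zero]
            · rw [if_neg, if_neg (fun h1 => hj h1.2.2.2), if_neg (fun h1 => hk h1.2.2.2),
                if_neg (fun h1 => hj h1.2.2.2.1), add_zero, add_zero]
              rintro ⟨-, -, -, h1⟩
              rcases e1.1 h1 with h1 | h1
              · exact hj h1
              · exact hk h1
        · rw [if_neg (fun h1 => hi (e0.1 h1.2.2.1)), if_neg (fun h1 => hi h1.2.2.1), if_neg (fun h1 => hi h1.2.2.1),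
            if_neg (fun h1 => hi h1.2.2.1), add_zero, add_zero]
      · rw [if_neg (fun h1 => hl h1.1), if_neg (fun h1 => hl h1.1), if_neg (fun h1 => hl h1.1),
          if_neg (fun h1 => hl h1.1), add_zero, add_zero]
    · rw [g2s_neg (A := fun m => m = i ∨ m = j ∨ m = k) _ h, map_zero, Finsupp.zero_apply, g2F2_mon, g2F2_mon,
        g2F3_mon, if_neg, if_neg, if_neg (fun h' => h h'.2.1), add_zero, add_zero]
      · rintro ⟨-, h1, -⟩
        apply h
        intro m hm
        rcases h1 m hm with h2 | h2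
        · exact Or.inl h2
        · exact Or.inr (Or.inr h2)
      · rintro ⟨-, h1, -⟩
        apply h
        intro m hm
        rcases h1 m hm with h2 | h2
        · exact Or.inl h2
        · exact Or.inr (Or.inl h2)

private theorem g2T_two {f : P} (hf : f ∈ TN) {i j : ℕ} (hij : i ≠ j) : (2 : ℤ) ∣ g2F f {i, j} := by
  have h := LT_sub KN_add (sb_mem TN_isT (g2s_mem (fun m => m = i ∨ m = j) (fun m => if m = i then 0 else 1)) hf)
  have h1 := h.2.2
  rw [← g2F_ct, g2F_two hij] at h1
  exact h1

private theorem g2T_three {f : P} (hf : f ∈ TN) {i j k : ℕ} (hij : i ≠ j) (hik : i ≠ k) (hjk : j ≠ k) :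
    (2 : ℤ) ∣ g2F f {i, j, k} := by
  have h := LT_sub KN_add (sb_mem TN_isT (g2s_mem (fun m => m = i ∨ m = j ∨ m = k)
    (fun m => if m = i then 0 else 1)) hf)
  have h1 := h.2.2
  rw [← g2F_ct, g2F_three hij hik hjk] at h1
  exact (dvd_add_right (dvd_add (g2T_two hf hij) (g2T_two hf hik))).1 h1

private theorem g2T_key2 {f : P} (hf : f ∈ TN) (i j : ℕ) : (2 : ℤ) ∣ cf [i, j] f := by
  have h := LT_sub KN_add (sb_mem TN_isT (g2ψ_mem (fun t => if t = 0 then i else j)) hf)
  have h1 := h.1
  rw [g2_ψf _ [0, 1] (by decide)] at h1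
  exact h1

private theorem g2T_key1 {f : P} (hf : f ∈ TN) (i : ℕ) : (2 : ℤ) ∣ cf [i] f := by
  have h1 := g2T_key2 (TN_isT.mul_right f hf (X 0)) i 0
  have h2 := g2_cf_snoc 0 0 [i] f
  rw [if_pos rfl] at h2
  have h4 : [i] ++ [0] = [i, 0] := rfl
  rw [h4] at h2
  rwa [h2] at h1

private theorem g2_com_subst {f : P} (h : com f = 0) {φ : P →ₐ[ℤ] P} : com (φ f) = 0 := by
  have e : ∀ g : P, com (φ g) = MvPolynomial.aeval (fun i => com (φ (X i))) (com g) := by
    intro g
    have h1 : com.comp φ = (MvPolynomial.aeval (fun i => com (φ (X i)))).comp com := by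
      refine FreeAlgebra.hom_ext (funext fun i => ?_)
      show com (φ (X i)) = MvPolynomial.aeval (fun i => com (φ (X i))) (com (X i))
      rw [g2_com_X, MvPolynomial.aeval_X]
    exact DFunLike.congr_fun h1 g
  rw [e, h, map_zero]

private theorem g2_TN {f : P} (hf : f ∈ Fge 3) (hc : com f = 0) : f ∈ TN := by
  rw [TN, LT_iff KN_add]
  refine ⟨(isT_Fge 3 (by norm_num)).le hf, ?_⟩
  intro φ hφ u v
  have h1 := ADM.Fge_subst (by norm_num) hf hφ u v
  have h2 : com (u * φ f * v) = 0 := by
    rw [map_mul, map_mul, g2_com_subst hc, mul_zero, zero_mul]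
  refine ⟨?_, ?_, ?_⟩
  · rw [ADM.cf_Fge h1 (by simp)]; exact dvd_zero _
  · rw [ADM.cf_Fge h1 (by simp)]; exact dvd_zero _
  · unfold ct
    rw [h2, MvPolynomial.coeff_zero, MvPolynomial.coeff_zero, add_zero]
    exact dvd_zero _

private theorem g2_ct3 (g : P) : (ct 2 1 g = cf [0, 0, 1] g + cf [0, 1, 0] g + cf [1, 0, 0] g) ∧
    ct 1 2 g = cf [0, 1, 1] g + cf [1, 0, 1] g + cf [1, 1, 0] g := by
  refine ind_mon (C := fun g => (ct 2 1 g = cf [0, 0, 1] g + cf [0, 1, 0] g + cf [1, 0, 0] g) ∧
    ct 1 2 g = cf [0, 1, 1] g + cf [1, 0, 1] g + cf [1, 1, 0] g) ?_ ?_ ?_ ?_ g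
  · simp only [g2_ct_zero, g2_cf_zero, add_zero, and_self]
  · intro f g hf hg
    simp only [g2_ct_add, cf_add]
    rw [hf.1, hf.2, hg.1, hg.2]
    constructor <;> ring
  · intro c f hf
    simp only [g2_ct_smul, cf_smul]
    rw [hf.1, hf.2]
    constructor <;> ring
  · intro w
    rw [g2_ct_mon, g2_ct_mon]
    simp only [cf_mon]
    by_cases h : w.length = 3 ∧ ∀ k ∈ w, k = 0 ∨ k = 1
    · obtain ⟨hl, h⟩ := h
      obtain ⟨a, b, c, rfl⟩ := g2_len3 hl
      rcases h a (by simp) with rfl | rfl <;> rcases h b (by simp) with rfl | rfl <;>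
        rcases h c (by simp) with rfl | rfl <;> decide
    · have n : ∀ u : List ℕ, (u.length = 3 ∧ ∀ k ∈ u, k = 0 ∨ k = 1) → ¬ w = u := by
        intro u hu hw
        rw [← hw] at hu
        exact h hu
      have m : ∀ x y : ℕ, x + y = 3 → ¬ ((∀ k ∈ w, k = 0 ∨ k = 1) ∧ w.count 0 = x ∧ w.count 1 = y) := by
        rintro x y hxy ⟨h1, h2, h3⟩
        exact h ⟨by rw [g2_len h1]; omega, h1⟩
      rw [if_neg (m 2 1 rfl), if_neg (m 1 2 rfl), if_neg (n [0, 0, 1] (by decide)), if_neg (n [0, 1, 0] (by decide)),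
        if_neg (n [1, 0, 0] (by decide)), if_neg (n [0, 1, 1] (by decide)), if_neg (n [1, 0, 1] (by decide)),
        if_neg (n [1, 1, 0] (by decide))]
      simp

private theorem g2_cube {a : P} (ha : cf [] a = 0) (u v : P) (i j k : ℕ) :
    cf [i, j, k] (u * (a * (a * a)) * v) = cf [] u * (cf [i] a * (cf [j] a * cf [k] a)) * cf [] v := by
  have e0 : ∀ f g : P, cf [] (f * g) = cf [] f * cf [] g := by
    intro f g
    rw [ADM.cf_mul]
    simp
  have e1 : ∀ (f g : P) (x : ℕ), cf [x] (f * g) = cf [] f * cf [x] g + cf [x] f * cf [] g := by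
    intro f g x
    rw [ADM.cf_mul]
    simp [Finset.sum_range_succ]
  have e2 : ∀ (f g : P) (x y : ℕ), cf [x, y] (f * g) = cf [] f * cf [x, y] g + cf [x] f * cf [y] g +
      cf [x, y] f * cf [] g := by
    intro f g x y
    rw [ADM.cf_mul]
    simp [Finset.sum_range_succ]
  have e3 : ∀ (f g : P) (x y z : ℕ), cf [x, y, z] (f * g) = cf [] f * cf [x, y, z] g + cf [x] f * cf [y, z] g +
      cf [x, y] f * cf [z] g + cf [x, y, z] f * cf [] g := by
    intro f g x y z
    rw [ADM.cf_mul]
    simp [Finset.sum_range_succ]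
  simp only [e3, e2, e1, e0, ha]
  ring

theorem TN_gmem : (2 : ℤ) • X 0 ∈ TN ∧ X 0 * cm 1 2 ∈ TN ∧ cm 0 1 * X 2 ∈ TN ∧ X 0 ^ 3 ∈ TN ∧ mw 4 ∈ TN := by
  have hF : ∀ a b c : ℕ, X a * X b * X c ∈ Fge 3 := by
    intro a b c
    refine Submodule.subset_span ⟨[a, b, c], by simp, ?_⟩
    simp only [mon_cons, mon_nil, mul_one, mul_assoc]
  refine ⟨TN_p _ (X_mem 0), ?_, ?_, ?_, TN_Fge (Submodule.subset_span ⟨List.range 4, by simp, rfl⟩)⟩
  · refine g2_TN ?_ ?_
    · unfold cm
      rw [mul_sub, ← mul_assoc, ← mul_assoc]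
      exact Submodule.sub_mem _ (hF _ _ _) (hF _ _ _)
    · unfold cm
      simp only [map_mul, map_sub]
      ring
  · refine g2_TN ?_ ?_
    · unfold cm
      rw [sub_mul]
      exact Submodule.sub_mem _ (hF _ _ _) (hF _ _ _)
    · unfold cm
      simp only [map_mul, map_sub]
      ring
  · have h3 : (X 0 : P) ^ 3 ∈ Fge 3 := by
      have h := hF 0 0 0
      rwa [← pow_two, ← pow_succ] at h
    rw [TN, LT_iff KN_add]
    refine ⟨(isT_Fge 3 (by norm_num)).le h3, ?_⟩
    intro φ hφ u v
    have h1 := ADM.Fge_subst (by norm_num) h3 hφ u v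
    refine ⟨?_, ?_, ?_⟩
    · rw [ADM.cf_Fge h1 (by simp)]; exact dvd_zero _
    · rw [ADM.cf_Fge h1 (by simp)]; exact dvd_zero _
    · have ha : cf [] (φ (X 0)) = 0 := by
        rw [cf_nil]
        exact mem_Pp.1 (hφ 0)
      rw [(g2_ct3 _).1, (g2_ct3 _).2, map_pow, pow_succ, pow_two, mul_assoc (φ (X 0)), g2_cube ha, g2_cube ha,
        g2_cube ha, g2_cube ha, g2_cube ha, g2_cube ha]
      set α := cf [0] (φ (X 0))
      set β := cf [1] (φ (X 0))
      have e : (2 : ℤ) ∣ α * (β * (α + β)) := by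
        rcases Int.even_or_odd α with hα | hα
        · exact dvd_mul_of_dvd_left hα.two_dvd _
        · rcases Int.even_or_odd β with hβ | hβ
          · exact dvd_mul_of_dvd_right (dvd_mul_of_dvd_left hβ.two_dvd _) _
          · exact dvd_mul_of_dvd_right (dvd_mul_of_dvd_right (hα.add_odd hβ).two_dvd _) _
      have e' : cf [] u * (α * (α * β)) * cf [] v + cf [] u * (α * (β * α)) * cf [] v +
          cf [] u * (β * (α * α)) * cf [] v + (cf [] u * (α * (β * β)) * cf [] v +
          cf [] u * (β * (α * β)) * cf [] v + cf [] u * (β * (β * α)) * cf [] v) =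
          (3 * cf [] u * cf [] v) * (α * (β * (α + β))) := by ring
      rw [e']
      exact dvd_mul_of_dvd_right e _

private theorem g2_Cn {D : Submodule ℤ P} (hD : IsT D) (h2 : X 0 * cm 1 2 ∈ D)
    (h3 : cm 0 1 * X 2 ∈ D) : Cn 3 ≤ D := by
  refine Submodule.span_le.2 ?_
  rintro f ⟨u, v, i, j, hn, rfl⟩
  show mon u * cm i j * mon v ∈ D
  have k2 : ∀ a b c : ℕ, X a * cm b c ∈ D := by
    intro a b c
    have h := sb_mem hD (φ := fun m => X (if m = 0 then a else if m = 1 then b else c)) (fun m => X_mem _) h2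
    unfold cm at h ⊢
    simp only [map_mul, map_sub, sb_X] at h
    simpa using h
  have k3 : ∀ a b c : ℕ, cm a b * X c ∈ D := by
    intro a b c
    have h := sb_mem hD (φ := fun m => X (if m = 0 then a else if m = 1 then b else c)) (fun m => X_mem _) h3
    unfold cm at h ⊢
    simp only [map_mul, map_sub, sb_X] at h
    simpa using h
  cases v with
  | cons c v =>
    have h := IsT.lm hD (mon u) (mon v) (k3 i j c)
    have e : mon u * (cm i j * X c) * mon v = mon u * cm i j * mon (c :: v) := by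
      rw [mon_cons]; simp only [mul_assoc]
    rwa [e] at h
  | nil =>
    rcases List.eq_nil_or_concat u with rfl | ⟨u, a, rfl⟩
    · simp at hn
    · rw [List.concat_eq_append]
      have h := IsT.lm hD (mon u) (mon []) (k2 a i j)
      have e : mon u * (X a * cm i j) * mon [] = mon (u ++ [a]) * cm i j * mon [] := by
        rw [mon_append, mon_single]; simp only [mul_assoc]
      rw [e] at h
      exact h

private theorem g2_aab {D : Submodule ℤ P} (hD : IsT D) (h1 : (2 : ℤ) • X 0 ∈ D) (h4 : X 0 ^ 3 ∈ D) (hC : Cn 3 ≤ D)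
    (a b : ℕ) : mon [a, a, b] - mon [a, b, b] ∈ D := by
  have hm : Mul ((2 : ℕ) : ℤ) D := g2_mul hD (by exact_mod_cast h1)
  have hp : ∀ {u v : List ℕ}, u.length = 3 → u.Perm v → mon u - mon v ∈ D := by
    intro u v hu huv
    have h := perm_Cn huv
    rw [hu] at h
    exact hC h
  have k1 : mon [a, b, a] - mon [a, a, b] ∈ D := hp rfl (List.Perm.cons _ (List.Perm.swap _ _ _))
  have k2 : mon [b, a, a] - mon [a, a, b] ∈ D :=
    hp rfl ((List.Perm.swap a b [a]).trans (List.Perm.cons _ (List.Perm.swap _ _ _)))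
  have k3 : mon [b, a, b] - mon [a, b, b] ∈ D := hp rfl (List.Perm.swap _ _ _)
  have k4 : mon [b, b, a] - mon [a, b, b] ∈ D :=
    hp rfl ((List.Perm.cons _ (List.Perm.swap a b [])).trans (List.Perm.swap _ _ _))
  have s1 : (X a + X b) ^ 3 ∈ D := by
    have h := sb_mem hD (φ := fun _ => X a + X b) (fun _ => Submodule.add_mem _ (X_mem _) (X_mem _)) h4
    rwa [map_pow, sb_X] at h
  have s2 : ∀ c : ℕ, (X c : P) ^ 3 ∈ D := by
    intro c
    have h := sb_mem hD (φ := fun _ => X c) (fun _ => X_mem _) h4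
    rwa [map_pow, sb_X] at h
  have m1 : (2 : ℤ) • mon [a, a, b] ∈ D := hm _ (mon_mem (by simp))
  have m2 : (2 : ℤ) • mon [a, b, b] ∈ D := hm _ (mon_mem (by simp))
  have e : mon [a, a, b] - mon [a, b, b] = (X a + X b) ^ 3 - X a ^ 3 - X b ^ 3 -
      (mon [a, b, a] - mon [a, a, b]) - (mon [b, a, a] - mon [a, a, b]) - (mon [b, a, b] - mon [a, b, b]) -
      (mon [b, b, a] - mon [a, b, b]) - (2 : ℤ) • mon [a, a, b] - (2 : ℤ) • mon [a, b, b] -
      (2 : ℤ) • mon [a, b, b] := by
    simp only [mon_cons, mon_nil, mul_one, pow_succ, pow_zero, one_mul]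
    noncomm_ring
  rw [e]
  exact D.sub_mem (D.sub_mem (D.sub_mem (D.sub_mem (D.sub_mem (D.sub_mem (D.sub_mem (D.sub_mem
    (D.sub_mem s1 (s2 a)) (s2 b)) k1) k2) k3) k4) m1) m2) m2

private theorem g2_nd {w : List ℕ} (h : w.length = 3) : w.Nodup ∨ ∃ i j, w.toFinset = {i, j} := by
  obtain ⟨a, b, c, rfl⟩ := g2_len3 h
  by_cases h1 : a = b
  · right
    exact ⟨b, c, by rw [h1]; simp⟩
  · by_cases h2 : a = c
    · right
      refine ⟨c, b, ?_⟩
      rw [h2]
      ext m
      simp only [List.mem_toFinset, List.mem_cons, List.not_mem_nil, or_false, Finset.mem_insert,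
        Finset.mem_singleton]
      tauto
    · by_cases h3 : b = c
      · right
        exact ⟨a, c, by rw [h3]; simp⟩
      · left
        simp [h1, h2, h3]

private theorem g2_E2 {D : Submodule ℤ P} (hD : IsT D) (h1 : (2 : ℤ) • X 0 ∈ D) (h4 : X 0 ^ 3 ∈ D)
    (hC : Cn 3 ≤ D) {w : List ℕ} (h : w.length = 3) {i j : ℕ} (hw : w.toFinset = {i, j}) :
    mon w - mon [i, i, j] ∈ D := by
  have hp : ∀ {u v : List ℕ}, u.length = 3 → u.Perm v → mon u - mon v ∈ D := by
    intro u v hu huv
    have h := perm_Cn huv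
    rw [hu] at h
    exact hC h
  obtain ⟨k1, k2, k3⟩ := (g2_tf2 w i j).1 hw
  obtain ⟨a, b, c, rfl⟩ := g2_len3 h
  have hA := g2_aab hD h1 h4 hC i j
  have hA' : ∀ u : List ℕ, u.length = 3 → u.Perm [i, j, j] → mon u - mon [i, i, j] ∈ D := by
    intro u hu huv
    have h := D.sub_mem (hp hu huv) hA
    rwa [sub_sub_sub_cancel_right] at h
  by_cases hij : i = j
  · subst hij
    have ha : a = i := by rcases k1 a (by simp) with h | h <;> exact h
    have hb : b = i := by rcases k1 b (by simp) with h | h <;> exact h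
    have hc : c = i := by rcases k1 c (by simp) with h | h <;> exact h
    rw [ha, hb, hc, sub_self]
    exact D.zero_mem
  · have hji : ¬ j = i := fun h => hij h.symm
    rcases k1 a (by simp) with ha | ha <;> rcases k1 b (by simp) with hb | hb <;>
      rcases k1 c (by simp) with hc | hc <;> rw [ha, hb, hc] at k2 k3 ⊢
    · exact absurd k3 (by simp [hji])
    · rw [sub_self]; exact D.zero_mem
    · exact hp rfl (List.Perm.cons _ (List.Perm.swap _ _ _))
    · exact hA' _ rfl (List.Perm.refl _)
    · exact hp rfl ((List.Perm.swap i j [i]).trans (List.Perm.cons _ (List.Perm.swap _ _ _)))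
    · exact hA' _ rfl (List.Perm.swap _ _ _)
    · exact hA' _ rfl ((List.Perm.cons _ (List.Perm.swap i j [])).trans (List.Perm.swap _ _ _))
    · exact absurd k2 (by simp [hij])

private theorem g2_E {D : Submodule ℤ P} (hD : IsT D) (h1 : (2 : ℤ) • X 0 ∈ D) (h4 : X 0 ^ 3 ∈ D)
    (hC : Cn 3 ≤ D) {u w : List ℕ} (hu : u.length = 3) (hw : w.length = 3) (h : u.toFinset = w.toFinset) :
    mon u - mon w ∈ D := by
  by_cases hn : ∃ i j, u.toFinset = {i, j}
  · obtain ⟨i, j, hi⟩ := hn
    have k1 := g2_E2 hD h1 h4 hC hu hi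
    have k2 := g2_E2 hD h1 h4 hC hw (h ▸ hi)
    have h := D.sub_mem k1 k2
    rwa [sub_sub_sub_cancel_right] at h
  · have hn' : ¬ ∃ i j, w.toFinset = {i, j} := by rwa [h] at hn
    have n1 := (g2_nd hu).resolve_right hn
    have n2 := (g2_nd hw).resolve_right hn'
    have hp := perm_Cn (List.perm_of_nodup_nodup_toFinset_eq n1 n2 h)
    rw [hu] at hp
    exact hC hp

/-- representatives -/
private noncomputable def g2m (S : Finset ℕ) : P :=
  open Classical in if h : ∃ w : List ℕ, w.length = 3 ∧ w.toFinset = S then mon h.choose else 0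

private noncomputable def g2R : (Finset ℕ →₀ ℤ) →ₗ[ℤ] P := Finsupp.linearCombination ℤ g2m

private theorem g2_FR {D : Submodule ℤ P} (hD : IsT D) (h1 : (2 : ℤ) • X 0 ∈ D) (h4 : X 0 ^ 3 ∈ D)
    (hC : Cn 3 ≤ D) (f : P) : wp (fun w => w.length = 3) f - g2R (g2F f) ∈ D := by
  refine ind_mon (C := fun f => wp (fun w => w.length = 3) f - g2R (g2F f) ∈ D) ?_ ?_ ?_ ?_ f
  · rw [map_zero, map_zero, map_zero, sub_self]
    exact D.zero_mem
  · intro f g hf hg
    rw [map_add, map_add, map_add, add_sub_add_comm]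
    exact D.add_mem hf hg
  · intro c f hf
    rw [map_smul, map_smul, map_smul, ← smul_sub]
    exact D.smul_mem _ hf
  · intro w
    rw [g2F_mon']
    by_cases h : w.length = 3
    · have hex : ∃ u : List ℕ, u.length = 3 ∧ u.toFinset = w.toFinset := ⟨w, h, rfl⟩
      rw [if_pos h, wp_pos (φ := fun w => w.length = 3) h]
      unfold g2R g2m
      rw [Finsupp.linearCombination_single, one_smul, dif_pos hex]
      exact g2_E hD h1 h4 hC h hex.choose_spec.1 hex.choose_spec.2.symm
    · rw [if_neg h, wp_neg (φ := fun w => w.length = 3) h, map_zero, sub_self]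
      exact D.zero_mem

private theorem g2_R {D : Submodule ℤ P} (hD : IsT D) (h1 : (2 : ℤ) • X 0 ∈ D) (h4 : X 0 ^ 3 ∈ D)
    {f : P} (hf : f ∈ TN) : g2R (g2F f) ∈ D := by
  have hm : Mul ((2 : ℕ) : ℤ) D := g2_mul hD (by exact_mod_cast h1)
  unfold g2R
  rw [Finsupp.linearCombination_apply]
  refine Submodule.sum_mem _ fun S _ => ?_
  show g2F f S • g2m S ∈ D
  unfold g2m
  by_cases hex : ∃ w : List ℕ, w.length = 3 ∧ w.toFinset = S
  · rw [dif_pos hex]
    obtain ⟨q1, q2⟩ := hex.choose_spec
    set w := hex.choose with hw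
    have hev : ∀ T : Finset ℕ, S = T → (2 : ℤ) ∣ g2F f T → g2F f S • mon w ∈ D := by
      rintro T rfl ⟨c, hc⟩
      rw [hc, mul_comm, mul_smul]
      refine D.smul_mem _ (hm _ (mon_mem ?_))
      intro h0
      rw [h0] at q1
      simp at q1
    obtain ⟨a, b, c, habc⟩ := g2_len3 q1
    have hS : S = {a, b, c} := by
      rw [← q2, habc]
      ext m
      simp
    by_cases hab : a = b
    · by_cases hac : a = c
      · rw [habc, ← hab, ← hac]
        have h := sb_mem hD (φ := fun _ => X a) (fun _ => X_mem _) h4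
        rw [map_pow, sb_X] at h
        have e : (X a : P) ^ 3 = mon [a, a, a] := by
          simp only [mon_cons, mon_nil, mul_one, pow_succ, pow_zero, one_mul, mul_assoc]
        rw [e] at h
        exact D.smul_mem _ h
      · refine hev {a, c} ?_ (g2T_two hf hac)
        rw [hS, ← hab]
        simp
    · by_cases hac : a = c
      · refine hev {a, b} ?_ (g2T_two hf hab)
        rw [hS, ← hac]
        ext m
        simp only [Finset.mem_insert, Finset.mem_singleton]
        tauto
      · by_cases hbc : b = c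
        · refine hev {a, b} ?_ (g2T_two hf hab)
          rw [hS, ← hbc]
          simp
        · exact hev {a, b, c} hS (g2T_three hf hab hac hbc)
  · rw [dif_neg hex, smul_zero]
    exact D.zero_mem

theorem TN_gen {D : Submodule ℤ P} (hD : IsT D) (h1 : (2 : ℤ) • X 0 ∈ D) (h2 : X 0 * cm 1 2 ∈ D)
    (h3 : cm 0 1 * X 2 ∈ D) (h4 : X 0 ^ 3 ∈ D) (h5 : mw 4 ∈ D) : TN ≤ D := by
  intro f hf
  have hm : Mul ((2 : ℕ) : ℤ) D := g2_mul hD (by exact_mod_cast h1)
  have hfP : f ∈ Pp := TN_isT.le hf
  have hf0 : cf [] f = 0 := by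
    rw [cf_nil]
    exact mem_Pp.1 hfP
  have e4 : wp (fun w => 4 ≤ w.length) f ∈ D := g2_four hD h5 (wp_mem _ f)
  have e2 : wp (fun w => w.length ≤ 2) f ∈ D := by
    refine g2_div hm ?_ ?_
    · rw [g2_cf_wp, hf0, ite_self]
    · intro w
      rw [g2_cf_wp]
      by_cases hw : w.length ≤ 2
      · rw [if_pos hw]
        match w, hw with
        | [], _ => rw [hf0]; exact dvd_zero _
        | [i], _ => exact_mod_cast g2T_key1 hf i
        | [i, j], _ => exact_mod_cast g2T_key2 hf i j
        | _ :: _ :: _ :: _, hw => simp at hw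
      · rw [if_neg hw]
        exact dvd_zero _
  have e3 : wp (fun w => w.length = 3) f ∈ D := by
    have h := D.add_mem (g2_FR hD h1 h4 (g2_Cn hD h2 h3) f) (g2_R hD h1 h4 hf)
    rwa [sub_add_cancel] at h
  rw [g2_split f]
  exact D.add_mem (D.add_mem e4 e3) e2

end ADP
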