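import Pool.Agent.ADP.K3b
import Pool.Agent.ADM.CfMul

/-!
# ADP-Gn3: generators of `TM`, `TE`, `TF`

Template: `WP_gmem`, `WP_gen` (ADC.GenW).  `f ∈ TK 3 K`: all consequences have their `Ml 3`-part in `K` (`TK_iff`).  Write `f` = (degree 1) + (degree 2) + (degree 3) + (`Fge 4`).
* `TM` (generators `3x`, `x^3`, `e = xyz + yzx + zxy`, `r = x[y,z] + y[x,z]`, `mw 4`): coefficients in degree 1, 2 are divisible by 3 (substitute `x_i ↦ xyz`; `x_i ↦ xy`, `x_j ↦ z`, others `0`, and multiply; for `x_i^2` first linearise).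
  Degree 3: content `x_i^3`: nothing (`x^3 ∈ D`).  Content `x^2 y`: `α xxy + β xyx + γ yxx`: linearising `x` gives `e1 = o1 = α`, `o2 = e2 = β`, `e3 = o3 = γ`, so `3 ∣ α + β + γ`; and `r(x,x,y) = 2 (xxy - xyx)`, `e(x,x,y) = xxy + xyx + yxx` span
  this modulo 3.  Content `xyz`: `K = KM` is spanned modulo 3 by `e`, `o = yxz + xzy + zyx`, `r`, `(01)`-renamed etc.: from `KM`: solve (dimension 3).
* `TE` (generators `9x`, `g4`, `3 g4'`): degree 1: `9 ∣ c` (`x_i ↦ xyz`).  Degree 2: `c_ij xyz + c_ji zxy` and `c_ij xyz + c_ji yxz` are in `KE`, so `9 ∣ c_ij + c_ji`, `9 ∣ c_ij - c_ji`, `9 ∣ c_ij`; `c_ii`: linearise.  Degree 3: content `x^3`: `2 x^3 = g4(x,x,x) ∈ D`.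
  Content `x^2 y`: modulo `D`: `2 xxy ≡ 0`, `yxx ≡ - xyx`, `3 xyx ≡ 0` (`3 g4'(x,x,y)`), and `3 ∣ β - γ` from the linearisation.  Content `xyz`: modulo the renamed `g4`: `f ≡ ∑ c_k Yl_k`, `c_k = 3 d_k`, `3 ∣ ∑ d_k`, and `3 (Yl_i - Yl_j) ∈ D` from `3 g4'`.
  `Fge 4 ≤ D`: as in `ex4` (ADP.Ex1), exactly: `2 xyzt ∈ D`, `9 xyzt ∈ D`.
* `TF`: the opposite (same computation, or `op`).
-/

namespace ADP

open AD ADN ADC

/-! ### coefficients -/

private theorem gn3m_cf_sub (w : List ℕ) (f g : P) : cf w (f - g) = cf w f - cf w g := by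
  have h := cf_smul w (-1) g
  rw [sub_eq_add_neg, cf_add, ← neg_one_smul ℤ g, h]
  ring

private theorem gn3m_cf_zero (w : List ℕ) : cf w (0 : P) = 0 := by
  have h := cf_smul w 0 (0 : P)
  rwa [zero_smul, zero_mul] at h

private theorem gn3m_cf_wp (φ : List ℕ → Prop) [DecidablePred φ] (u : List ℕ) (f : P) :
    cf u (wp φ f) = if φ u then cf u f else 0 := by
  refine ind_mon (C := fun f => cf u (wp φ f) = if φ u then cf u f else 0) ?_ ?_ ?_ ?_ f
  · rw [map_zero, gn3m_cf_zero, ite_self]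
  · intro f g hf hg
    rw [map_add, cf_add, hf, hg, cf_add]
    by_cases h : φ u
    · rw [if_pos h, if_pos h, if_pos h]
    · rw [if_neg h, if_neg h, if_neg h, add_zero]
  · intro c f hf
    rw [map_smul, cf_smul, hf, cf_smul]
    by_cases h : φ u
    · rw [if_pos h, if_pos h]
    · rw [if_neg h, if_neg h, mul_zero]
  · intro w
    rw [wp_mon]
    by_cases hw : φ w
    · rw [if_pos hw, cf_mon]
      by_cases hu : w = u
      · subst hu
        rw [if_pos rfl, if_pos hw]
      · rw [if_neg hu, ite_self]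
    · rw [if_neg hw, gn3m_cf_zero, cf_mon]
      by_cases hu : w = u
      · subst hu
        rw [if_neg hw]
      · rw [if_neg hu, ite_self]

private theorem gn3m_cf_cons (a b : ℕ) (u : List ℕ) (g : P) :
    cf (a :: u) (X b * g) = if b = a then cf u g else 0 := by
  refine ind_mon (C := fun g => cf (a :: u) (X b * g) = if b = a then cf u g else 0) ?_ ?_ ?_ ?_ g
  · rw [mul_zero, gn3m_cf_zero, gn3m_cf_zero, ite_self]
  · intro f g hf hg
    rw [mul_add, cf_add, hf, hg, cf_add]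
    by_cases h : b = a
    · rw [if_pos h, if_pos h, if_pos h]
    · rw [if_neg h, if_neg h, if_neg h, add_zero]
  · intro c f hf
    rw [mul_smul_comm, cf_smul, hf, cf_smul]
    by_cases h : b = a
    · rw [if_pos h, if_pos h]
    · rw [if_neg h, if_neg h, mul_zero]
  · intro w
    rw [← mon_cons, cf_mon, cf_mon]
    by_cases h : b = a
    · subst h
      rw [if_pos rfl]
      by_cases hw : w = u
      · rw [if_pos hw, if_pos (by rw [hw])]
      · rw [if_neg hw, if_neg (fun h' => hw (List.cons.inj h').2)]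
    · rw [if_neg h, if_neg (fun h' => h (List.cons.inj h').1)]

private theorem gn3m_cf_eq (a : ℕ) (u : List ℕ) (g : P) : cf (a :: u) (X a * g) = cf u g := by
  rw [gn3m_cf_cons, if_pos rfl]

private theorem gn3m_cf_ne {a b : ℕ} (h : b ≠ a) (u : List ℕ) (g : P) : cf (a :: u) (X b * g) = 0 := by
  rw [gn3m_cf_cons, if_neg h]

private theorem gn3m_cf_snoc (m m' : ℕ) (u : List ℕ) (f : P) :
    cf (u ++ [m]) (f * X m') = if m' = m then cf u f else 0 := by
  refine ind_mon (C := fun f => cf (u ++ [m]) (f * X m') = if m' = m then cf u f else 0) ?_ ?_ ?_ ?_ f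
  · rw [zero_mul, gn3m_cf_zero, gn3m_cf_zero, ite_self]
  · intro f g hf hg
    rw [add_mul, cf_add, hf, hg, cf_add]
    by_cases h : m' = m
    · rw [if_pos h, if_pos h, if_pos h]
    · rw [if_neg h, if_neg h, if_neg h, add_zero]
  · intro c f hf
    rw [smul_mul_assoc, cf_smul, hf, cf_smul]
    by_cases h : m' = m
    · rw [if_pos h, if_pos h]
    · rw [if_neg h, if_neg h, mul_zero]
  · intro w
    rw [← mon_single m', ← mon_append, cf_mon, cf_mon]
    by_cases h : m' = m
    · subst h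
      rw [if_pos rfl]
      by_cases hw : w = u
      · rw [if_pos hw, if_pos (by rw [hw])]
      · rw [if_neg hw, if_neg (fun h' => hw (List.append_cancel_right h'))]
    · rw [if_neg h, if_neg]
      intro h'
      have h2 := List.append_inj_right' h' rfl
      exact h (List.cons.inj h2).1

private theorem gn3m_ext {f g : P} (h : ∀ w, cf w f = cf w g) : f = g := by
  obtain ⟨s, -, hs⟩ := eq_sum_cf (f - g)
  have h1 : f - g = 0 := by
    rw [hs]
    refine Finset.sum_eq_zero fun w _ => ?_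
    rw [gn3m_cf_sub, h w, sub_self, zero_smul]
  exact sub_eq_zero.1 h1

/-! ### substitutions -/

private noncomputable def gn3mψ (v : ℕ → ℕ) (m : ℕ) : P := ∑ t ∈ Finset.range 3, if v t = m then X t else 0

private theorem gn3mψ_mem (v : ℕ → ℕ) (m : ℕ) : gn3mψ v m ∈ Pp := by
  unfold gn3mψ
  refine Submodule.sum_mem _ fun t _ => ?_
  by_cases h : v t = m
  · rw [if_pos h]; exact X_mem t
  · rw [if_neg h]; exact Submodule.zero_mem _

private theorem gn3m_cf_sum (u : List ℕ) (s : Finset ℕ) (F : ℕ → P) :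
    cf u (∑ t ∈ s, F t) = ∑ t ∈ s, cf u (F t) := by
  classical
  induction s using Finset.induction_on with
  | empty => rw [Finset.sum_empty, Finset.sum_empty, gn3m_cf_zero]
  | insert a s ha ih => rw [Finset.sum_insert ha, Finset.sum_insert ha, cf_add, ih]

private theorem gn3m_ψ (v : ℕ → ℕ) : ∀ (u w : List ℕ), (∀ a ∈ u, a < 3) →
    cf u ((w.map (gn3mψ v)).prod) = if w = u.map v then 1 else 0 := by
  intro u
  induction u with
  | nil =>
    intro w _
    rw [List.map_nil]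
    cases w with
    | nil => rw [List.map_nil, List.prod_nil, if_pos rfl, ← mon_nil, cf_mon, if_pos rfl]
    | cons m w =>
      rw [if_neg (List.cons_ne_nil m w), cf_nil, List.map_cons, List.prod_cons, map_mul,
        mem_Pp.1 (gn3mψ_mem v m), zero_mul]
  | cons a u ih =>
    intro w hu
    cases w with
    | nil =>
      rw [List.map_nil, List.prod_nil, ← mon_nil, cf_mon, if_neg (List.cons_ne_nil a u).symm,
        List.map_cons, if_neg (List.cons_ne_nil _ _).symm]
    | cons m w =>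
      rw [List.map_cons, List.prod_cons, List.map_cons]
      have h1 : gn3mψ v m * (w.map (gn3mψ v)).prod =
          ∑ t ∈ Finset.range 3, (if v t = m then X t * (w.map (gn3mψ v)).prod else 0) := by
        conv_lhs => rw [gn3mψ, Finset.sum_mul]
        refine Finset.sum_congr rfl fun t _ => ?_
        by_cases h : v t = m
        · rw [if_pos h, if_pos h]
        · rw [if_neg h, if_neg h, zero_mul]
      rw [h1, gn3m_cf_sum]
      have h2 : ∀ t ∈ Finset.range 3, cf (a :: u) (if v t = m then X t * (w.map (gn3mψ v)).prod else 0) =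
          if t = a then (if v a = m then cf u ((w.map (gn3mψ v)).prod) else 0) else 0 := by
        intro t _
        by_cases h : v t = m
        · rw [if_pos h, gn3m_cf_cons]
          by_cases h' : t = a
          · subst h'
            rw [if_pos rfl, if_pos rfl, if_pos h]
          · rw [if_neg h', if_neg h']
        · rw [if_neg h, gn3m_cf_zero]
          by_cases h' : t = a
          · subst h'
            rw [if_pos rfl, if_neg h]
          · rw [if_neg h']
      rw [Finset.sum_congr rfl h2, Finset.sum_ite_eq' (Finset.range 3) a,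
        if_pos (Finset.mem_range.2 (hu a (by simp))), ih w (fun b hb => hu b (List.mem_cons_of_mem _ hb))]
      by_cases h : v a = m
      · rw [if_pos h]
        by_cases h' : w = u.map v
        · rw [if_pos h', if_pos (by rw [h', h])]
        · rw [if_neg h', if_neg (fun h2 => h' (List.cons.inj h2).2)]
      · rw [if_neg h, if_neg (fun h2 => h (List.cons.inj h2).1.symm)]

private theorem gn3m_ψf (v : ℕ → ℕ) (u : List ℕ) (hu : ∀ a ∈ u, a < 3) (f : P) :
    cf u (sb (gn3mψ v) f) = cf (u.map v) f := by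
  refine ind_mon (C := fun f => cf u (sb (gn3mψ v) f) = cf (u.map v) f) ?_ ?_ ?_ ?_ f
  · rw [map_zero, gn3m_cf_zero, gn3m_cf_zero]
  · intro f g hf hg
    rw [map_add, cf_add, cf_add, hf, hg]
  · intro c f hf
    rw [map_zsmul, cf_smul, cf_smul, hf]
  · intro w
    rw [sb_mon, gn3m_ψ v u w hu, cf_mon]

/-- `x_i ↦ x_0 x_1`, `x_j ↦ x_2` -/
private noncomputable def gn3mθ (i j m : ℕ) : P := (if i = m then X 0 * X 1 else 0) + (if j = m then X 2 else 0)

private theorem gn3mθ_mem (i j m : ℕ) : gn3mθ i j m ∈ Pp := by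
  unfold gn3mθ
  refine Submodule.add_mem _ ?_ ?_
  · by_cases h : i = m
    · rw [if_pos h, mem_Pp, map_mul, ADC.aug_X, zero_mul]
    · rw [if_neg h]; exact Submodule.zero_mem _
  · by_cases h : j = m
    · rw [if_pos h]; exact X_mem 2
    · rw [if_neg h]; exact Submodule.zero_mem _

private theorem gn3mθ_mul (i j m : ℕ) (g : P) (u : List ℕ) : cf u (gn3mθ i j m * g) =
    (if i = m then cf u (X 0 * (X 1 * g)) else 0) + (if j = m then cf u (X 2 * g) else 0) := by
  unfold gn3mθ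
  rw [add_mul, cf_add]
  congr 1
  · by_cases h : i = m
    · rw [if_pos h, if_pos h, mul_assoc]
    · rw [if_neg h, if_neg h, zero_mul, gn3m_cf_zero]
  · by_cases h : j = m
    · rw [if_pos h, if_pos h]
    · rw [if_neg h, if_neg h, zero_mul, gn3m_cf_zero]

private theorem gn3mθ_nil (i j : ℕ) (w : List ℕ) : cf [] ((w.map (gn3mθ i j)).prod) = if w = [] then 1 else 0 := by
  cases w with
  | nil => rw [List.map_nil, List.prod_nil, if_pos rfl, ← mon_nil, cf_mon, if_pos rfl]
  | cons m w =>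
    rw [if_neg (List.cons_ne_nil m w), cf_nil, List.map_cons, List.prod_cons, map_mul,
      mem_Pp.1 (gn3mθ_mem i j m), zero_mul]

private theorem gn3m_cf_one {a : ℕ} {u : List ℕ} : cf (a :: u) (1 : P) = 0 := by
  rw [← mon_nil, cf_mon, if_neg (List.cons_ne_nil a u).symm]

private theorem gn3mθ_2 (i j : ℕ) (u w : List ℕ) : cf (2 :: u) ((w.map (gn3mθ i j)).prod) =
    match w with
    | [] => 0
    | m :: w => if j = m then cf u ((w.map (gn3mθ i j)).prod) else 0 := by
  cases w with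
  | nil => rw [List.map_nil, List.prod_nil, gn3m_cf_one]
  | cons m w =>
    rw [List.map_cons, List.prod_cons, gn3mθ_mul, gn3m_cf_ne (by norm_num), ite_self, zero_add,
      gn3m_cf_eq]

private theorem gn3mθ_01 (i j : ℕ) (u w : List ℕ) : cf (0 :: 1 :: u) ((w.map (gn3mθ i j)).prod) =
    match w with
    | [] => 0
    | m :: w => if i = m then cf u ((w.map (gn3mθ i j)).prod) else 0 := by
  cases w with
  | nil => rw [List.map_nil, List.prod_nil, gn3m_cf_one]
  | cons m w =>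
    rw [List.map_cons, List.prod_cons, gn3mθ_mul, gn3m_cf_eq, gn3m_cf_eq,
      gn3m_cf_ne (show (2 : ℕ) ≠ 0 by norm_num), ite_self, add_zero]

private theorem gn3mθ_02 (i j : ℕ) (u w : List ℕ) : cf (0 :: 2 :: u) ((w.map (gn3mθ i j)).prod) = 0 := by
  cases w with
  | nil => rw [List.map_nil, List.prod_nil, gn3m_cf_one]
  | cons m w =>
    rw [List.map_cons, List.prod_cons, gn3mθ_mul, gn3m_cf_eq, gn3m_cf_ne (show (1 : ℕ) ≠ 2 by norm_num),
      ite_self, gn3m_cf_ne (show (2 : ℕ) ≠ 0 by norm_num), ite_self, add_zero]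

private theorem gn3mθ_1 (i j : ℕ) (u w : List ℕ) : cf (1 :: u) ((w.map (gn3mθ i j)).prod) = 0 := by
  cases w with
  | nil => rw [List.map_nil, List.prod_nil, gn3m_cf_one]
  | cons m w =>
    rw [List.map_cons, List.prod_cons, gn3mθ_mul, gn3m_cf_ne (show (0 : ℕ) ≠ 1 by norm_num), ite_self,
      gn3m_cf_ne (show (2 : ℕ) ≠ 1 by norm_num), ite_self, add_zero]

private theorem gn3mθ_012 (i j : ℕ) (f : P) : cf [0, 1, 2] (sb (gn3mθ i j) f) = cf [i, j] f := by
  refine ind_mon (C := fun f => cf [0, 1, 2] (sb (gn3mθ i j) f) = cf [i, j] f) ?_ ?_ ?_ ?_ f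
  · rw [map_zero, gn3m_cf_zero, gn3m_cf_zero]
  · intro f g hf hg
    rw [map_add, cf_add, cf_add, hf, hg]
  · intro c f hf
    rw [map_zsmul, cf_smul, cf_smul, hf]
  · intro w
    rw [sb_mon, gn3mθ_01, cf_mon]
    match w with
    | [] => simp
    | [m] =>
      show (if i = m then cf [2] (([] : List ℕ).map (gn3mθ i j)).prod else 0) = _
      rw [gn3mθ_2]
      simp
    | m :: m' :: w =>
      show (if i = m then cf [2] ((m' :: w).map (gn3mθ i j)).prod else 0) = _
      rw [gn3mθ_2]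
      show (if i = m then (if j = m' then cf [] (w.map (gn3mθ i j)).prod else 0) else 0) = _
      rw [gn3mθ_nil]
      by_cases h1 : i = m
      · by_cases h2 : j = m'
        · subst h1 h2
          by_cases h3 : w = []
          · subst h3; simp
          · simp [h3]
        · rw [if_pos h1, if_neg h2, if_neg]
          intro h
          exact h2 (List.cons.inj (List.cons.inj h).2).1.symm
      · rw [if_neg h1, if_neg]
        intro h
        exact h1 (List.cons.inj h).1.symm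

private theorem gn3mθ_201 (i j : ℕ) (f : P) : cf [2, 0, 1] (sb (gn3mθ i j) f) = cf [j, i] f := by
  refine ind_mon (C := fun f => cf [2, 0, 1] (sb (gn3mθ i j) f) = cf [j, i] f) ?_ ?_ ?_ ?_ f
  · rw [map_zero, gn3m_cf_zero, gn3m_cf_zero]
  · intro f g hf hg
    rw [map_add, cf_add, cf_add, hf, hg]
  · intro c f hf
    rw [map_zsmul, cf_smul, cf_smul, hf]
  · intro w
    rw [sb_mon, gn3mθ_2, cf_mon]
    match w with
    | [] => simp
    | [m] =>
      show (if j = m then cf [0, 1] (([] : List ℕ).map (gn3mθ i j)).prod else 0) = _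
      rw [gn3mθ_01]
      simp
    | m :: m' :: w =>
      show (if j = m then cf [0, 1] ((m' :: w).map (gn3mθ i j)).prod else 0) = _
      rw [gn3mθ_01]
      show (if j = m then (if i = m' then cf [] (w.map (gn3mθ i j)).prod else 0) else 0) = _
      rw [gn3mθ_nil]
      by_cases h1 : j = m
      · by_cases h2 : i = m'
        · subst h1 h2
          by_cases h3 : w = []
          · subst h3; simp
          · simp [h3]
        · rw [if_pos h1, if_neg h2, if_neg]
          intro h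
          exact h2 (List.cons.inj (List.cons.inj h).2).1.symm
      · rw [if_neg h1, if_neg]
        intro h
        exact h1 (List.cons.inj h).1.symm

private theorem gn3mθ_zero (i j : ℕ) {u : List ℕ} (hu : ∀ w : List ℕ, cf u ((w.map (gn3mθ i j)).prod) = 0)
    (f : P) : cf u (sb (gn3mθ i j) f) = 0 := by
  refine ind_mon (C := fun f => cf u (sb (gn3mθ i j) f) = 0) ?_ ?_ ?_ ?_ f
  · rw [map_zero, gn3m_cf_zero]
  · intro f g hf hg
    rw [map_add, cf_add, hf, hg, add_zero]
  · intro c f hf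
    rw [map_zsmul, cf_smul, hf, mul_zero]
  · intro w
    rw [sb_mon, hu w]

private theorem gn3mθ_210 (i j : ℕ) (w : List ℕ) : cf [2, 1, 0] ((w.map (gn3mθ i j)).prod) = 0 := by
  rw [gn3mθ_2]
  match w with
  | [] => rfl
  | m :: w =>
    show (if j = m then cf [1, 0] (w.map (gn3mθ i j)).prod else 0) = 0
    rw [gn3mθ_1, ite_self]

/-! ### divisibilities of the coefficients -/

private theorem gn3m_key {f : P} (hf : f ∈ TM) (i j k : ℕ) :
    (3 : ℤ) ∣ cf [i, j, k] f + cf [j, k, i] f + cf [k, i, j] f ∧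
    (3 : ℤ) ∣ cf [j, i, k] f + cf [i, k, j] f + cf [k, j, i] f ∧
    (3 : ℤ) ∣ cf [k, i, j] f - cf [k, j, i] f - cf [i, j, k] f + cf [j, i, k] f := by
  classical
  set v : ℕ → ℕ := fun t => if t = 0 then i else if t = 1 then j else k with hv
  have h := ((TK_iff (by norm_num) KM_add).1 hf).2 (sb (gn3mψ v)) (sb_isSubst (gn3mψ_mem v)) 1 1
  rw [one_mul, mul_one] at h
  obtain ⟨h1, h2, h3, h4⟩ := h
  simp only [e1, e2, e3, o1, o2, o3] at h1 h2 h3 h4
  have q1 : cf [0, 1, 2] (wp (fun w => w.Perm (List.range 3)) (sb (gn3mψ v) f)) = cf [i, j, k] f := by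
    rw [gn3m_cf_wp, if_pos (by decide), gn3m_ψf v [0, 1, 2] (by decide)]
    rfl
  have q2 : cf [1, 2, 0] (wp (fun w => w.Perm (List.range 3)) (sb (gn3mψ v) f)) = cf [j, k, i] f := by
    rw [gn3m_cf_wp, if_pos (by decide), gn3m_ψf v [1, 2, 0] (by decide)]
    rfl
  have q3 : cf [2, 0, 1] (wp (fun w => w.Perm (List.range 3)) (sb (gn3mψ v) f)) = cf [k, i, j] f := by
    rw [gn3m_cf_wp, if_pos (by decide), gn3m_ψf v [2, 0, 1] (by decide)]
    rfl
  have q4 : cf [1, 0, 2] (wp (fun w => w.Perm (List.range 3)) (sb (gn3mψ v) f)) = cf [j, i, k] f := by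
    rw [gn3m_cf_wp, if_pos (by decide), gn3m_ψf v [1, 0, 2] (by decide)]
    rfl
  have q5 : cf [0, 2, 1] (wp (fun w => w.Perm (List.range 3)) (sb (gn3mψ v) f)) = cf [i, k, j] f := by
    rw [gn3m_cf_wp, if_pos (by decide), gn3m_ψf v [0, 2, 1] (by decide)]
    rfl
  have q6 : cf [2, 1, 0] (wp (fun w => w.Perm (List.range 3)) (sb (gn3mψ v) f)) = cf [k, j, i] f := by
    rw [gn3m_cf_wp, if_pos (by decide), gn3m_ψf v [2, 1, 0] (by decide)]
    rfl
  rw [q1, q2, q3, q4, q5, q6] at h1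
  rw [q1, q2, q5, q6] at h2
  rw [q2, q3, q4, q5] at h3
  rw [q1, q3, q4, q6] at h4
  refine ⟨?_, ?_, ?_⟩ <;> omega

private theorem gn3m_key2 {f : P} (hf : f ∈ TM) (i j : ℕ) : (3 : ℤ) ∣ cf [i, j] f := by
  classical
  have h := ((TK_iff (by norm_num) KM_add).1 hf).2 (sb (gn3mθ i j)) (sb_isSubst (gn3mθ_mem i j)) 1 1
  rw [one_mul, mul_one] at h
  obtain ⟨-, h2, -, -⟩ := h
  simp only [e1, e2, o2, o3] at h2
  rw [gn3m_cf_wp, gn3m_cf_wp, gn3m_cf_wp, gn3m_cf_wp, if_pos (by decide),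
    if_pos (by decide), if_pos (by decide), if_pos (by decide),
    gn3mθ_012, gn3mθ_zero i j (gn3mθ_1 i j [2, 0]),
    gn3mθ_zero i j (gn3mθ_02 i j [1]), gn3mθ_zero i j (gn3mθ_210 i j)] at h2
  omega

private theorem gn3m_key1 {f : P} (hf : f ∈ TM) (i : ℕ) : (3 : ℤ) ∣ cf [i] f := by
  have h1 := gn3m_key2 (TM_isT.mul_right f hf (X 0)) i 0
  have h2 := gn3m_cf_snoc 0 0 [i] f
  rw [if_pos rfl] at h2
  simp only [List.cons_append, List.nil_append] at h2
  rwa [h2] at h1

private theorem gn3m_len3 {w : List ℕ} (h : w.length = 3) : ∃ a b c, w = [a, b, c] := List.length_eq_three.1 h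

/-! ### operators on the words of length 3 -/

private noncomputable def gn3mv (σ : ℕ → ℕ → ℕ → List ℕ) : List ℕ → P
  | [a, b, c] => mon (σ a b c)
  | _ => 0

private noncomputable def gn3mA (σ : ℕ → ℕ → ℕ → List ℕ) : P →ₗ[ℤ] P := lm (gn3mv σ)

private theorem gn3mA_mon (σ : ℕ → ℕ → ℕ → List ℕ) (a b c : ℕ) : gn3mA σ (mon [a, b, c]) = mon (σ a b c) :=
  lm_mon _ _

private theorem gn3mA_mon' (σ : ℕ → ℕ → ℕ → List ℕ) {w : List ℕ} (hw : w.length ≠ 3) : gn3mA σ (mon w) = 0 := by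
  rw [gn3mA, lm_mon]
  match w, hw with
  | [], _ => rfl
  | [_], _ => rfl
  | [_, _], _ => rfl
  | [_, _, _], hw => exact absurd rfl hw
  | _ :: _ :: _ :: _ :: _, _ => rfl

private theorem gn3mA_cf {σ τ : ℕ → ℕ → ℕ → List ℕ}
    (h : ∀ a b c x y z, σ a b c = [x, y, z] ↔ [a, b, c] = τ x y z) (x y z : ℕ) (hl : (τ x y z).length = 3) (f : P) :
    cf [x, y, z] (gn3mA σ f) = cf (τ x y z) f := by
  refine ind_mon (C := fun f => cf [x, y, z] (gn3mA σ f) = cf (τ x y z) f) ?_ ?_ ?_ ?_ f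
  · rw [map_zero, gn3m_cf_zero, gn3m_cf_zero]
  · intro f g hf hg
    rw [map_add, cf_add, cf_add, hf, hg]
  · intro c f hf
    rw [map_smul, cf_smul, cf_smul, hf]
  · intro w
    by_cases hw : w.length = 3
    · obtain ⟨a, b, c, rfl⟩ := gn3m_len3 hw
      rw [gn3mA_mon, cf_mon, cf_mon]
      simp only [h]
    · rw [gn3mA_mon' σ hw, gn3m_cf_zero, cf_mon, if_neg]
      intro h'
      rw [h'] at hw
      exact hw hl

private theorem gn3mA_cf' {σ : ℕ → ℕ → ℕ → List ℕ} (h : ∀ a b c, (σ a b c).length = 3) {u : List ℕ}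
    (hu : u.length ≠ 3) (f : P) : cf u (gn3mA σ f) = 0 := by
  refine ind_mon (C := fun f => cf u (gn3mA σ f) = 0) ?_ ?_ ?_ ?_ f
  · rw [map_zero, gn3m_cf_zero]
  · intro f g hf hg
    rw [map_add, cf_add, hf, hg, add_zero]
  · intro c f hf
    rw [map_smul, cf_smul, hf, mul_zero]
  · intro w
    by_cases hw : w.length = 3
    · obtain ⟨a, b, c, rfl⟩ := gn3m_len3 hw
      rw [gn3mA_mon, cf_mon, if_neg]
      intro h'
      rw [← h', h] at hu
      exact hu rfl
    · rw [gn3mA_mon' σ hw, gn3m_cf_zero]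

/-! ### membership in a T-ideal -/

private theorem gn3m_mul {D : Submodule ℤ P} (hD : IsT D) (h1 : (3 : ℤ) • X 0 ∈ D) : Mul 3 D := by
  intro f hf
  have h := sb_mem hD (φ := fun _ => f) (fun _ => hf) h1
  rwa [map_zsmul, sb_X] at h

private theorem gn3m_div {D : Submodule ℤ P} (hm : Mul 3 D) {g : P} (h0 : cf [] g = 0)
    (h : ∀ w, (3 : ℤ) ∣ cf w g) : g ∈ D := by
  obtain ⟨s, -, hg⟩ := eq_sum_cf g
  rw [hg]
  refine D.sum_mem fun w _ => ?_
  by_cases hw : w = []
  · rw [hw, h0, zero_smul]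
    exact D.zero_mem
  · obtain ⟨c, hc⟩ := h w
    rw [hc, mul_comm, mul_smul]
    exact D.smul_mem _ (hm _ (mon_mem hw))


/-! ### the combinatorial identity -/

private theorem gn3m_pure {G : ℕ → ℕ → ℕ → ℤ} (K1 : ∀ i j k, (3 : ℤ) ∣ G i j k + G j k i + G k i j)
    (K3 : ∀ i j k, (3 : ℤ) ∣ G k i j - G k j i - G i j k + G j i k) (x y z : ℕ) :
    (3 : ℤ) ∣ G x y z - (if x = y ∧ y = z then G x y z else 0) -
      ((if x = y ∧ x ≠ z then G z x y else 0) + (if z = x ∧ z ≠ y then G y z x else 0) + (if y = z ∧ y ≠ x then G x y z else 0)) -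
      (((if x = y ∧ x ≠ z then G x y z else 0) - (if x = y ∧ x ≠ z then G z x y else 0)) -
       ((if z = x ∧ z ≠ y then G z x y else 0) - (if z = x ∧ z ≠ y then G y z x else 0))) -
      ((if x < y ∧ y < z then G z x y else 0) + (if z < x ∧ x < y then G y z x else 0) + (if y < z ∧ z < x then G x y z else 0)) -
      ((if y < x ∧ x < z then G z x y else 0) + (if x < z ∧ z < y then G y z x else 0) + (if z < y ∧ y < x then G x y z else 0)) -
      (((if x < y ∧ y < z then G x y z else 0) - (if x < y ∧ y < z then G z x y else 0)) -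
       ((if x < z ∧ z < y then G x z y else 0) - (if x < z ∧ z < y then G y x z else 0)) +
       ((if y < x ∧ x < z then G y x z else 0) - (if y < x ∧ x < z then G z y x else 0)) -
       ((if z < x ∧ x < y then G z x y else 0) - (if z < x ∧ x < y then G y z x else 0))) := by
  have a1 := K1 x y z
  have a2 := K1 y x z
  have a3 := K3 x y z
  have a4 := K3 y z x
  have a5 := K3 z x y
  rcases lt_trichotomy x y with h1 | h1 | h1
  · rcases lt_trichotomy y z with h2 | h2 | h2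
    · omega
    · subst h2; omega
    · rcases lt_trichotomy x z with h3 | h3 | h3
      · omega
      · subst h3; omega
      · omega
  · subst h1
    omega
  · rcases lt_trichotomy y z with h2 | h2 | h2
    · rcases lt_trichotomy x z with h3 | h3 | h3
      · omega
      · subst h3; omega
      · omega
    · subst h2; omega
    · omega

/-! ### the operators with values in `D` -/

private def gs1 (a b c : ℕ) : List ℕ := [b, c, a]
private def gs2 (a b c : ℕ) : List ℕ := [c, a, b]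
private def gs3 (a b c : ℕ) : List ℕ := [b, a, c]
private def gs4 (a b c : ℕ) : List ℕ := [a, c, b]
private def gs5 (a b c : ℕ) : List ℕ := [c, b, a]

private theorem gs1_cf (x y z : ℕ) (f : P) : cf [x, y, z] (gn3mA gs1 f) = cf [z, x, y] f :=
  gn3mA_cf (σ := gs1) (τ := gs2) (fun a b c x y z => by
    simp only [gs1, gs2, List.cons.injEq, and_true]
    tauto) x y z rfl f

private theorem gs2_cf (x y z : ℕ) (f : P) : cf [x, y, z] (gn3mA gs2 f) = cf [y, z, x] f :=
  gn3mA_cf (σ := gs2) (τ := gs1) (fun a b c x y z => by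
    simp only [gs1, gs2, List.cons.injEq, and_true]
    tauto) x y z rfl f

private theorem gs3_cf (x y z : ℕ) (f : P) : cf [x, y, z] (gn3mA gs3 f) = cf [y, x, z] f :=
  gn3mA_cf (σ := gs3) (τ := gs3) (fun a b c x y z => by
    simp only [gs3, List.cons.injEq, and_true]
    tauto) x y z rfl f

private theorem gs4_cf (x y z : ℕ) (f : P) : cf [x, y, z] (gn3mA gs4 f) = cf [x, z, y] f :=
  gn3mA_cf (σ := gs4) (τ := gs4) (fun a b c x y z => by
    simp only [gs4, List.cons.injEq, and_true]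
    tauto) x y z rfl f

private theorem gs5_cf (x y z : ℕ) (f : P) : cf [x, y, z] (gn3mA gs5 f) = cf [z, y, x] f :=
  gn3mA_cf (σ := gs5) (τ := gs5) (fun a b c x y z => by
    simp only [gs5, List.cons.injEq, and_true]
    tauto) x y z rfl f

private noncomputable def gW : P →ₗ[ℤ] P := wp (fun w => w.length = 3)

private theorem gW_mon (a b c : ℕ) : gW (mon [a, b, c]) = mon [a, b, c] := wp_pos rfl

private theorem gW_mon' {w : List ℕ} (hw : w.length ≠ 3) : gW (mon w) = 0 := wp_neg hw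

private theorem gW_cf (x y z : ℕ) (f : P) : cf [x, y, z] (gW f) = cf [x, y, z] f := by
  rw [gW, gn3m_cf_wp, if_pos (show [x, y, z].length = 3 from rfl)]

private theorem gW_cf' {u : List ℕ} (hu : u.length ≠ 3) (f : P) : cf u (gW f) = 0 := by
  rw [gW, gn3m_cf_wp, if_neg hu]

/-- linear operators with values in `D` -/
private theorem gn3m_lin {D : Submodule ℤ P} {Φ : P →ₗ[ℤ] P} (h3 : ∀ a b c, Φ (mon [a, b, c]) ∈ D)
    (h0 : ∀ w : List ℕ, w.length ≠ 3 → Φ (mon w) = 0) (f : P) : Φ f ∈ D := by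
  refine ind_mon (C := fun f => Φ f ∈ D) ?_ ?_ ?_ ?_ f
  · rw [map_zero]; exact D.zero_mem
  · intro f g hf hg
    rw [map_add]
    exact D.add_mem hf hg
  · intro c f hf
    rw [map_smul]
    exact D.smul_mem _ hf
  · intro w
    by_cases hw : w.length = 3
    · obtain ⟨a, b, c, rfl⟩ := gn3m_len3 hw
      exact h3 a b c
    · rw [h0 w hw]
      exact D.zero_mem

private theorem gn3m_sub {D : Submodule ℤ P} (hD : IsT D) (a b c : ℕ) {f : P} (h : f ∈ D) :
    sb (fun i => X (if i = 0 then a else if i = 1 then b else c)) f ∈ D :=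
  sb_mem hD (fun _ => X_mem _) h

private theorem gn3m_e {D : Submodule ℤ P} (hD : IsT D)
    (h3 : X 0 * X 1 * X 2 + X 1 * X 2 * X 0 + X 2 * X 0 * X 1 ∈ D) (a b c : ℕ) :
    mon [a, b, c] + mon [b, c, a] + mon [c, a, b] ∈ D := by
  have h1 := gn3m_sub hD a b c h3
  simp only [map_add, map_mul, sb_X] at h1
  have h2 : mon [a, b, c] + mon [b, c, a] + mon [c, a, b] =
      X a * X b * X c + X b * X c * X a + X c * X a * X b := by
    simp only [mon_cons, mon_nil, mul_one, mul_assoc]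
  rw [h2]
  simpa using h1

private theorem gn3m_r {D : Submodule ℤ P} (hD : IsT D)
    (h4 : X 0 * (X 1 * X 2 - X 2 * X 1) + X 1 * (X 0 * X 2 - X 2 * X 0) ∈ D) (a b c : ℕ) :
    mon [a, b, c] - mon [a, c, b] + mon [b, a, c] - mon [b, c, a] ∈ D := by
  have h1 := gn3m_sub hD a b c h4
  simp only [map_add, map_sub, map_mul, sb_X] at h1
  have h2 : mon [a, b, c] - mon [a, c, b] + mon [b, a, c] - mon [b, c, a] =
      X a * (X b * X c - X c * X b) + X b * (X a * X c - X c * X a) := by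
    simp only [mon_cons, mon_nil, mul_one, mul_sub]
    abel
  rw [h2]
  simpa using h1

private noncomputable def gE : P →ₗ[ℤ] P := gW + gn3mA gs1 + gn3mA gs2
private noncomputable def gO : P →ₗ[ℤ] P := gn3mA gs3 + gn3mA gs4 + gn3mA gs5
private noncomputable def gR : P →ₗ[ℤ] P := gW - gn3mA gs4 + gn3mA gs3 - gn3mA gs1
private noncomputable def gQ : P →ₗ[ℤ] P := gW - gn3mA gs1

private theorem gE_mem {D : Submodule ℤ P} (hD : IsT D)
    (h3 : X 0 * X 1 * X 2 + X 1 * X 2 * X 0 + X 2 * X 0 * X 1 ∈ D) (f : P) : gE f ∈ D := by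
  refine gn3m_lin (Φ := gE) (fun a b c => ?_) (fun w hw => ?_) f
  · rw [gE, LinearMap.add_apply, LinearMap.add_apply, gW_mon, gn3mA_mon, gn3mA_mon]
    exact gn3m_e hD h3 a b c
  · rw [gE, LinearMap.add_apply, LinearMap.add_apply, gW_mon' hw, gn3mA_mon' _ hw, gn3mA_mon' _ hw,
      add_zero, add_zero]

private theorem gO_mem {D : Submodule ℤ P} (hD : IsT D)
    (h3 : X 0 * X 1 * X 2 + X 1 * X 2 * X 0 + X 2 * X 0 * X 1 ∈ D) (f : P) : gO f ∈ D := by
  refine gn3m_lin (Φ := gO) (fun a b c => ?_) (fun w hw => ?_) f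
  · rw [gO, LinearMap.add_apply, LinearMap.add_apply, gn3mA_mon, gn3mA_mon, gn3mA_mon]
    exact gn3m_e hD h3 b a c
  · rw [gO, LinearMap.add_apply, LinearMap.add_apply, gn3mA_mon' _ hw, gn3mA_mon' _ hw, gn3mA_mon' _ hw,
      add_zero, add_zero]

private theorem gR_mem {D : Submodule ℤ P} (hD : IsT D)
    (h4 : X 0 * (X 1 * X 2 - X 2 * X 1) + X 1 * (X 0 * X 2 - X 2 * X 0) ∈ D) (f : P) : gR f ∈ D := by
  refine gn3m_lin (Φ := gR) (fun a b c => ?_) (fun w hw => ?_) f
  · rw [gR, LinearMap.sub_apply, LinearMap.add_apply, LinearMap.sub_apply, gW_mon, gn3mA_mon, gn3mA_mon,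
      gn3mA_mon]
    exact gn3m_r hD h4 a b c
  · rw [gR, LinearMap.sub_apply, LinearMap.add_apply, LinearMap.sub_apply, gW_mon' hw, gn3mA_mon' _ hw,
      gn3mA_mon' _ hw, gn3mA_mon' _ hw, sub_zero, sub_zero, add_zero]

/-- words `a a b` with different `a`, `b` -/
private def g2w : List ℕ → Prop
  | [a, b, c] => a = b ∧ a ≠ c
  | _ => False

/-- words `a a a` -/
private def g1w : List ℕ → Prop
  | [a, b, c] => a = b ∧ b = c
  | _ => False

/-- words `a b c` with `a < b < c` -/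
private def g3w : List ℕ → Prop
  | [a, b, c] => a < b ∧ b < c
  | _ => False

private theorem g2w_ite (a b c : ℕ) (x : ℤ) [Decidable (g2w [a, b, c])] :
    (if g2w [a, b, c] then x else 0) = if a = b ∧ a ≠ c then x else 0 := by
  by_cases h : a = b ∧ a ≠ c
  · rw [if_pos h, if_pos (show g2w [a, b, c] from h)]
  · rw [if_neg h, if_neg (show ¬ g2w [a, b, c] from h)]

private theorem g1w_ite (a b c : ℕ) (x : ℤ) [Decidable (g1w [a, b, c])] :
    (if g1w [a, b, c] then x else 0) = if a = b ∧ b = c then x else 0 := by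
  by_cases h : a = b ∧ b = c
  · rw [if_pos h, if_pos (show g1w [a, b, c] from h)]
  · rw [if_neg h, if_neg (show ¬ g1w [a, b, c] from h)]

private theorem g3w_ite (a b c : ℕ) (x : ℤ) [Decidable (g3w [a, b, c])] :
    (if g3w [a, b, c] then x else 0) = if a < b ∧ b < c then x else 0 := by
  by_cases h : a < b ∧ b < c
  · rw [if_pos h, if_pos (show g3w [a, b, c] from h)]
  · rw [if_neg h, if_neg (show ¬ g3w [a, b, c] from h)]

private theorem g2w_cf (a b c : ℕ) (f : P) : cf [a, b, c] (wp g2w f) = if a = b ∧ a ≠ c then cf [a, b, c] f else 0 := by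
  classical
  rw [gn3m_cf_wp]
  exact g2w_ite a b c _

private theorem g1w_cf (a b c : ℕ) (f : P) : cf [a, b, c] (wp g1w f) = if a = b ∧ b = c then cf [a, b, c] f else 0 := by
  classical
  rw [gn3m_cf_wp]
  exact g1w_ite a b c _

private theorem g3w_cf (a b c : ℕ) (f : P) : cf [a, b, c] (wp g3w f) = if a < b ∧ b < c then cf [a, b, c] f else 0 := by
  classical
  rw [gn3m_cf_wp]
  exact g3w_ite a b c _

private theorem g1w_mem {D : Submodule ℤ P} (hD : IsT D) (h2 : X 0 ^ 3 ∈ D) (f : P) : wp g1w f ∈ D := by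
  refine (Submodule.span_le.2 ?_ : Submodule.span ℤ {f | ∃ w, g1w w ∧ f = mon w} ≤ D) (wp_mem g1w f)
  rintro x ⟨w, hw, rfl⟩
  match w, hw with
  | [a, b, c], hw =>
    obtain ⟨rfl, rfl⟩ : a = b ∧ b = c := hw
    have h1 := gn3m_sub hD a a a h2
    simp only [map_pow, sb_X] at h1
    have e : mon [a, a, a] = X (if 0 = 0 then a else if 0 = 1 then a else a) ^ 3 := by
      simp [mon_cons, mon_nil, pow_succ, mul_assoc]
    show mon [a, a, a] ∈ D
    rw [e]
    exact h1

private theorem gQ_mem {D : Submodule ℤ P} (hD : IsT D) (hm : Mul 3 D)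
    (h4 : X 0 * (X 1 * X 2 - X 2 * X 1) + X 1 * (X 0 * X 2 - X 2 * X 0) ∈ D) (f : P) : gQ (wp g2w f) ∈ D := by
  have h := wp_mem g2w f
  have h1 : Submodule.span ℤ {f | ∃ w, g2w w ∧ f = mon w} ≤ D.comap gQ := by
    refine Submodule.span_le.2 ?_
    rintro x ⟨w, hw, rfl⟩
    match w, hw with
    | [a, b, c], hw =>
      obtain ⟨rfl, -⟩ : a = b ∧ a ≠ c := hw
      show gQ (mon [a, a, c]) ∈ D
      rw [gQ, LinearMap.sub_apply, gW_mon, gn3mA_mon]
      have h5 := gn3m_r hD h4 a a c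
      have h6 : (3 : ℤ) • (mon [a, a, c] - mon [a, c, a]) ∈ D :=
        hm _ (Pp.sub_mem (mon_mem (by simp)) (mon_mem (by simp)))
      have e : mon [a, a, c] - mon (gs1 a a c) = (3 : ℤ) • (mon [a, a, c] - mon [a, c, a]) -
          (mon [a, a, c] - mon [a, c, a] + mon [a, a, c] - mon [a, c, a]) := by
        show mon [a, a, c] - mon [a, c, a] = _
        rw [show (3 : ℤ) = 1 + 1 + 1 from rfl, add_smul, add_smul, one_smul]
        abel
      rw [e]
      exact D.sub_mem h6 h5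
  exact h1 h

/-! ### the results -/

private theorem gn3m_cube0 {g : P} (hg : cf [] g = 0) (a b c : ℕ) : cf [] (g ^ 3) = 0 ∧ cf [a] (g ^ 3) = 0 ∧
    cf [a, b] (g ^ 3) = 0 ∧ cf [a, b, c] (g ^ 3) = cf [a] g * cf [b] g * cf [c] g := by
  have e : g ^ 3 = g * g * g := by rw [pow_succ, pow_two]
  rw [e]
  refine ⟨?_, ?_, ?_, ?_⟩ <;> simp [ADM.cf_mul, Finset.sum_range_succ, hg]

private theorem gn3m_uhv {u h v : P} {a b c : ℕ} (h0 : cf [] h = 0) (h1 : ∀ a, cf [a] h = 0)
    (h2 : ∀ a b, cf [a, b] h = 0) : cf [a, b, c] (u * h * v) = cf [] u * cf [a, b, c] h * cf [] v := by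
  simp [ADM.cf_mul, Finset.sum_range_succ, h0, h1, h2]

private theorem gn3m_cube : X 0 ^ 3 ∈ TM := by
  refine (TK_iff (by norm_num) KM_add).2 ⟨?_, fun φ hφ u v => ?_⟩
  · rw [mem_Pp, map_pow, ADC.aug_X]
    norm_num
  · have hg : cf [] (φ (X 0)) = 0 := by
      rw [cf_nil]
      exact mem_Pp.1 (hφ 0)
    rw [map_pow]
    have key : ∀ a b c : ℕ, [a, b, c].Perm (List.range 3) → cf [a, b, c] (wp (fun w => w.Perm (List.range 3))
        (u * φ (X 0) ^ 3 * v)) = cf [] u * (cf [a] (φ (X 0)) * cf [b] (φ (X 0)) * cf [c] (φ (X 0))) * cf [] v := by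
      intro a b c hp
      rw [gn3m_cf_wp, if_pos hp, gn3m_uhv (gn3m_cube0 hg 0 0 0).1 (fun a => (gn3m_cube0 hg a 0 0).2.1)
        (fun a b => (gn3m_cube0 hg a b 0).2.2.1), (gn3m_cube0 hg a b c).2.2.2]
    show _ ∧ _ ∧ _ ∧ _
    simp only [e1, e2, e3, o1, o2, o3]
    rw [key 0 1 2 (by decide), key 1 2 0 (by decide), key 2 0 1 (by decide), key 1 0 2 (by decide),
      key 0 2 1 (by decide), key 2 1 0 (by decide)]
    refine ⟨?_, ?_, ?_, ?_⟩ <;> refine ⟨0, ?_⟩ <;> ring

theorem TM_gmem : (3 : ℤ) • X 0 ∈ TM ∧ X 0 ^ 3 ∈ TM ∧ X 0 * X 1 * X 2 + X 1 * X 2 * X 0 + X 2 * X 0 * X 1 ∈ TM ∧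
    X 0 * (X 1 * X 2 - X 2 * X 1) + X 1 * (X 0 * X 2 - X 2 * X 0) ∈ TM ∧ mw 4 ∈ TM := by
  refine ⟨TM_p _ (X_mem 0), gn3m_cube, ?_, ?_, ?_⟩
  · have h1 : X 0 * X 1 * X 2 + X 1 * X 2 * X 0 + X 2 * X 0 * X 1 =
        mon [0, 1, 2] + mon [1, 2, 0] + mon [2, 0, 1] := by
      simp only [mon_cons, mon_nil, mul_one, mul_assoc]
    have h2 : mon [0, 1, 2] + mon [1, 2, 0] + mon [2, 0, 1] ∈ Ml 3 :=
      Submodule.add_mem _ (Submodule.add_mem _ (Ml_mon (by decide)) (Ml_mon (by decide))) (Ml_mon (by decide))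
    have h3 : mon [0, 1, 2] + mon [1, 2, 0] + mon [2, 0, 1] ∈ KM := by
      show _ ∧ _ ∧ _ ∧ _
      simp only [e1, e2, e3, o1, o2, o3, cf_add, cf_mon]
      refine ⟨?_, ?_, ?_, ?_⟩ <;> simp
    rw [h1]
    exact TK_mem (by norm_num) KM_add h2 fun σ => KM_rn h2 h3 σ
  · have h1 : X 0 * (X 1 * X 2 - X 2 * X 1) + X 1 * (X 0 * X 2 - X 2 * X 0) =
        mon [0, 1, 2] - mon [0, 2, 1] + (mon [1, 0, 2] - mon [1, 2, 0]) := by
      simp only [mon_cons, mon_nil, mul_one, mul_sub]
    have h2 : mon [0, 1, 2] - mon [0, 2, 1] + (mon [1, 0, 2] - mon [1, 2, 0]) ∈ Ml 3 :=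
      Submodule.add_mem _ (Submodule.sub_mem _ (Ml_mon (by decide)) (Ml_mon (by decide)))
        (Submodule.sub_mem _ (Ml_mon (by decide)) (Ml_mon (by decide)))
    have h3 : mon [0, 1, 2] - mon [0, 2, 1] + (mon [1, 0, 2] - mon [1, 2, 0]) ∈ KM := by
      show _ ∧ _ ∧ _ ∧ _
      simp only [e1, e2, e3, o1, o2, o3, cf_add, gn3m_cf_sub, cf_mon]
      refine ⟨?_, ?_, ?_, ?_⟩ <;> simp
    rw [h1]
    exact TK_mem (by norm_num) KM_add h2 fun σ => KM_rn h2 h3 σ
  · exact TM_Fge (Submodule.subset_span ⟨List.range 4, by simp, rfl⟩)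

private theorem gn3m_four {D : Submodule ℤ P} (hD : IsT D) (h3 : mw 4 ∈ D) : Fge 4 ≤ D := by
  refine Submodule.span_le.2 ?_
  rintro f ⟨w, hw, rfl⟩
  obtain ⟨a, w, rfl⟩ : ∃ a t, w = a :: t := by
    cases w with
    | nil => simp at hw
    | cons a t => exact ⟨a, t, rfl⟩
  obtain ⟨b, w, rfl⟩ : ∃ a t, w = a :: t := by
    cases w with
    | nil => simp at hw
    | cons a t => exact ⟨a, t, rfl⟩
  obtain ⟨c, w, rfl⟩ : ∃ a t, w = a :: t := by
    cases w with
    | nil => simp at hw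
    | cons a t => exact ⟨a, t, rfl⟩
  obtain ⟨d, w, rfl⟩ : ∃ a t, w = a :: t := by
    cases w with
    | nil => simp at hw
    | cons a t => exact ⟨a, t, rfl⟩
  have h1 := sb_mem hD (φ := fun i => X (if i = 0 then a else if i = 1 then b else if i = 2 then c else d))
    (fun i => X_mem _) h3
  have h2 : List.range 4 = [0, 1, 2, 3] := rfl
  rw [mw, h2, sb_mon] at h1
  have h4 := hD.mul_right _ h1 (mon w)
  have h5 : (([0, 1, 2, 3] : List ℕ).map
      (fun i => X (if i = 0 then a else if i = 1 then b else if i = 2 then c else d))).prod * mon w =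
      mon (a :: b :: c :: d :: w) := by
    simp [mon_cons, mul_assoc]
  rw [h5] at h4
  exact h4

private theorem gn3m_split (f : P) : f = wp (fun w => 4 ≤ w.length) f + gW f + wp (fun w => w.length ≤ 2) f := by
  refine ind_mon (C := fun f => f = wp (fun w => 4 ≤ w.length) f + gW f +
    wp (fun w => w.length ≤ 2) f) ?_ ?_ ?_ ?_ f
  · simp
  · intro f g hf hg
    simp only [map_add]
    conv_lhs => rw [hf, hg]
    abel
  · intro c f hf
    simp only [map_smul, ← smul_add]
    rw [← hf]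
  · intro w
    rcases Nat.lt_or_ge w.length 3 with h | h
    · rw [wp_neg (φ := fun w => 4 ≤ w.length) (by omega), gW_mon' (by omega),
        wp_pos (φ := fun w => w.length ≤ 2) (by omega), zero_add, zero_add]
    · rcases Nat.eq_or_lt_of_le h with h | h
      · rw [wp_neg (φ := fun w => 4 ≤ w.length) (by omega), gW, wp_pos (φ := fun w => w.length = 3) h.symm,
          wp_neg (φ := fun w => w.length ≤ 2) (by omega), zero_add, add_zero]
      · rw [wp_pos (φ := fun w => 4 ≤ w.length) h, gW_mon' (by omega),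
          wp_neg (φ := fun w => w.length ≤ 2) (by omega), add_zero, add_zero]

private theorem gn3m_three {D : Submodule ℤ P} (hD : IsT D) (hm : Mul 3 D) (h2 : X 0 ^ 3 ∈ D)
    (h3 : X 0 * X 1 * X 2 + X 1 * X 2 * X 0 + X 2 * X 0 * X 1 ∈ D)
    (h4 : X 0 * (X 1 * X 2 - X 2 * X 1) + X 1 * (X 0 * X 2 - X 2 * X 0) ∈ D) {f : P} (hf : f ∈ TM) :
    gW f ∈ D := by
  have k1 : ∀ i j k, (3 : ℤ) ∣ cf [i, j, k] f + cf [j, k, i] f + cf [k, i, j] f := fun i j k => (gn3m_key hf i j k).1
  have k3 : ∀ i j k, (3 : ℤ) ∣ cf [k, i, j] f - cf [k, j, i] f - cf [i, j, k] f + cf [j, i, k] f :=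
    fun i j k => (gn3m_key hf i j k).2.2
  have m1 : wp g1w f ∈ D := g1w_mem hD h2 f
  have m2 : gE (wp g2w (gn3mA gs1 f)) ∈ D := gE_mem hD h3 _
  have m3 : gQ (wp g2w (f - gn3mA gs1 f)) ∈ D := gQ_mem hD hm h4 _
  have m4 : gE (wp g3w (gn3mA gs1 f)) ∈ D := gE_mem hD h3 _
  have m5 : gO (wp g3w (gn3mA gs5 f)) ∈ D := gO_mem hD h3 _
  have m6 : gR (wp g3w (f - gn3mA gs1 f)) ∈ D := gR_mem hD h4 _
  have m7 : gW f - wp g1w f - gE (wp g2w (gn3mA gs1 f)) - gQ (wp g2w (f - gn3mA gs1 f)) -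
      gE (wp g3w (gn3mA gs1 f)) - gO (wp g3w (gn3mA gs5 f)) - gR (wp g3w (f - gn3mA gs1 f)) ∈ D := by
    have hz : ∀ w : List ℕ, w.length ≠ 3 → cf w (gW f - wp g1w f - gE (wp g2w (gn3mA gs1 f)) -
        gQ (wp g2w (f - gn3mA gs1 f)) - gE (wp g3w (gn3mA gs1 f)) - gO (wp g3w (gn3mA gs5 f)) -
        gR (wp g3w (f - gn3mA gs1 f))) = 0 := by
      intro w hw
      have z1 : ∀ g, cf w (gn3mA gs1 g) = 0 := gn3mA_cf' (fun _ _ _ => rfl) hw
      have z2 : ∀ g, cf w (gn3mA gs2 g) = 0 := gn3mA_cf' (fun _ _ _ => rfl) hw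
      have z3 : ∀ g, cf w (gn3mA gs3 g) = 0 := gn3mA_cf' (fun _ _ _ => rfl) hw
      have z4 : ∀ g, cf w (gn3mA gs4 g) = 0 := gn3mA_cf' (fun _ _ _ => rfl) hw
      have z5 : ∀ g, cf w (gn3mA gs5 g) = 0 := gn3mA_cf' (fun _ _ _ => rfl) hw
      have z6 : ∀ g, cf w (gW g) = 0 := gW_cf' hw
      have z7 : cf w (wp g1w f) = 0 := by
        classical
        rw [gn3m_cf_wp, if_neg]
        match w, hw with
        | [], _ => exact fun h => h
        | [_], _ => exact fun h => h
        | [_, _], _ => exact fun h => h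
        | [_, _, _], hw => exact absurd rfl hw
        | _ :: _ :: _ :: _ :: _, _ => exact fun h => h
      simp only [gE, gO, gR, gQ, LinearMap.add_apply, LinearMap.sub_apply, cf_add, gn3m_cf_sub, z1, z2, z3, z4, z5, z6, z7]
      norm_num
    refine gn3m_div hm (hz [] (by simp)) ?_
    intro w
    by_cases hw : w.length = 3
    · obtain ⟨x, y, z, rfl⟩ := gn3m_len3 hw
      have h := gn3m_pure (G := fun x y z => cf [x, y, z] f) k1 k3 x y z
      have e : cf [x, y, z] (gW f - wp g1w f - gE (wp g2w (gn3mA gs1 f)) -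
        gQ (wp g2w (f - gn3mA gs1 f)) - gE (wp g3w (gn3mA gs1 f)) - gO (wp g3w (gn3mA gs5 f)) -
        gR (wp g3w (f - gn3mA gs1 f))) = cf [x, y, z] f - (if x = y ∧ y = z then cf [x, y, z] f else 0) -
        ((if x = y ∧ x ≠ z then cf [z, x, y] f else 0) + (if z = x ∧ z ≠ y then cf [y, z, x] f else 0) +
          (if y = z ∧ y ≠ x then cf [x, y, z] f else 0)) -
        (((if x = y ∧ x ≠ z then cf [x, y, z] f else 0) - (if x = y ∧ x ≠ z then cf [z, x, y] f else 0)) -
         ((if z = x ∧ z ≠ y then cf [z, x, y] f else 0) - (if z = x ∧ z ≠ y then cf [y, z, x] f else 0))) -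
        ((if x < y ∧ y < z then cf [z, x, y] f else 0) + (if z < x ∧ x < y then cf [y, z, x] f else 0) +
          (if y < z ∧ z < x then cf [x, y, z] f else 0)) -
        ((if y < x ∧ x < z then cf [z, x, y] f else 0) + (if x < z ∧ z < y then cf [y, z, x] f else 0) +
          (if z < y ∧ y < x then cf [x, y, z] f else 0)) -
        (((if x < y ∧ y < z then cf [x, y, z] f else 0) - (if x < y ∧ y < z then cf [z, x, y] f else 0)) -
         ((if x < z ∧ z < y then cf [x, z, y] f else 0) - (if x < z ∧ z < y then cf [y, x, z] f else 0)) +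
         ((if y < x ∧ x < z then cf [y, x, z] f else 0) - (if y < x ∧ x < z then cf [z, y, x] f else 0)) -
         ((if z < x ∧ x < y then cf [z, x, y] f else 0) - (if z < x ∧ x < y then cf [y, z, x] f else 0))) := by
        simp only [gE, gO, gR, gQ, LinearMap.add_apply, LinearMap.sub_apply, map_sub, cf_add, gn3m_cf_sub, gs1_cf,
          gs2_cf, gs3_cf, gs4_cf, gs5_cf, gW_cf, g1w_cf, g2w_cf, g3w_cf]
        try ring
      rw [e]
      exact h
    · rw [hz w hw]
      exact dvd_zero _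
  have e : gW f = (gW f - wp g1w f - gE (wp g2w (gn3mA gs1 f)) - gQ (wp g2w (f - gn3mA gs1 f)) -
      gE (wp g3w (gn3mA gs1 f)) - gO (wp g3w (gn3mA gs5 f)) - gR (wp g3w (f - gn3mA gs1 f))) + wp g1w f +
      gE (wp g2w (gn3mA gs1 f)) + gQ (wp g2w (f - gn3mA gs1 f)) + gE (wp g3w (gn3mA gs1 f)) +
      gO (wp g3w (gn3mA gs5 f)) + gR (wp g3w (f - gn3mA gs1 f)) := by abel
  rw [e]
  exact D.add_mem (D.add_mem (D.add_mem (D.add_mem (D.add_mem (D.add_mem m7 m1) m2) m3) m4) m5) m6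

theorem TM_gen {D : Submodule ℤ P} (hD : IsT D) (h1 : (3 : ℤ) • X 0 ∈ D) (h2 : X 0 ^ 3 ∈ D)
    (h3 : X 0 * X 1 * X 2 + X 1 * X 2 * X 0 + X 2 * X 0 * X 1 ∈ D)
    (h4 : X 0 * (X 1 * X 2 - X 2 * X 1) + X 1 * (X 0 * X 2 - X 2 * X 0) ∈ D) (h5 : mw 4 ∈ D) : TM ≤ D := by
  intro f hf
  have hm : Mul 3 D := gn3m_mul hD h1
  have hfP : f ∈ Pp := TM_isT.le hf
  have hf0 : cf [] f = 0 := by
    rw [cf_nil]
    exact mem_Pp.1 hfP
  have e4 : wp (fun w => 4 ≤ w.length) f ∈ D := gn3m_four hD h5 (wp_mem _ f)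
  have e2 : wp (fun w => w.length ≤ 2) f ∈ D := by
    refine gn3m_div hm ?_ ?_
    · rw [gn3m_cf_wp, hf0, ite_self]
    · intro w
      rw [gn3m_cf_wp]
      by_cases hw : w.length ≤ 2
      · rw [if_pos hw]
        match w, hw with
        | [], _ => rw [hf0]; exact dvd_zero _
        | [i], _ => exact gn3m_key1 hf i
        | [i, j], _ => exact gn3m_key2 hf i j
        | _ :: _ :: _ :: _, hw => simp at hw
      · rw [if_neg hw]
        exact dvd_zero _
  rw [gn3m_split f]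
  exact D.add_mem (D.add_mem e4 (gn3m_three hD hm h2 h3 h4 hf)) e2

end ADP
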