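import Pool.Agent.ADP.K3b

/-!
# ADP-Gn3e: generators of `TE`
-/

namespace ADP

open AD ADN ADC

/-! ### coefficients -/

private theorem gn3e_cf_sub (w : List ℕ) (f g : P) : cf w (f - g) = cf w f - cf w g := by
  have h := cf_smul w (-1) g
  rw [sub_eq_add_neg, cf_add, ← neg_one_smul ℤ g, h]
  ring

private theorem gn3e_cf_zero (w : List ℕ) : cf w (0 : P) = 0 := by
  have h := cf_smul w 0 (0 : P)
  rwa [zero_smul, zero_mul] at h

private theorem gn3e_cf_wp (φ : List ℕ → Prop) [DecidablePred φ] (u : List ℕ) (f : P) :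
    cf u (wp φ f) = if φ u then cf u f else 0 := by
  refine ind_mon (C := fun f => cf u (wp φ f) = if φ u then cf u f else 0) ?_ ?_ ?_ ?_ f
  · rw [map_zero, gn3e_cf_zero, ite_self]
  · intro f g hf hg
    rw [map_add, cf_add, hf, hg, cf_add]
    by_cases h : φ u
    · rw [if_pos h, if_pos h, if_pos h]
    · rw [if_neg h, if_neg h, if_neg h, add_zero]
  · intro c f hf
    rw [map_smul, cf_smul, hf, cf_smul]
    by_cases h : φ u
    · rw [if_pos h, if_pos h]
    · rw [if_neg h, if_neg h, mul_zero]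
  · intro w
    rw [wp_mon]
    by_cases hw : φ w
    · rw [if_pos hw, cf_mon]
      by_cases hu : w = u
      · subst hu
        rw [if_pos rfl, if_pos hw]
      · rw [if_neg hu, ite_self]
    · rw [if_neg hw, gn3e_cf_zero, cf_mon]
      by_cases hu : w = u
      · subst hu
        rw [if_neg hw]
      · rw [if_neg hu, ite_self]

private theorem gn3e_cf_cons (a b : ℕ) (u : List ℕ) (g : P) :
    cf (a :: u) (X b * g) = if b = a then cf u g else 0 := by
  refine ind_mon (C := fun g => cf (a :: u) (X b * g) = if b = a then cf u g else 0) ?_ ?_ ?_ ?_ g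
  · rw [mul_zero, gn3e_cf_zero, gn3e_cf_zero, ite_self]
  · intro f g hf hg
    rw [mul_add, cf_add, hf, hg, cf_add]
    by_cases h : b = a
    · rw [if_pos h, if_pos h, if_pos h]
    · rw [if_neg h, if_neg h, if_neg h, add_zero]
  · intro c f hf
    rw [mul_smul_comm, cf_smul, hf, cf_smul]
    by_cases h : b = a
    · rw [if_pos h, if_pos h]
    · rw [if_neg h, if_neg h, mul_zero]
  · intro w
    rw [← mon_cons, cf_mon, cf_mon]
    by_cases h : b = a
    · subst h
      rw [if_pos rfl]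
      by_cases hw : w = u
      · rw [if_pos hw, if_pos (by rw [hw])]
      · rw [if_neg hw, if_neg (fun h' => hw (List.cons.inj h').2)]
    · rw [if_neg h, if_neg (fun h' => h (List.cons.inj h').1)]

private theorem gn3e_cf_eq (a : ℕ) (u : List ℕ) (g : P) : cf (a :: u) (X a * g) = cf u g := by
  rw [gn3e_cf_cons, if_pos rfl]

private theorem gn3e_cf_ne {a b : ℕ} (h : b ≠ a) (u : List ℕ) (g : P) : cf (a :: u) (X b * g) = 0 := by
  rw [gn3e_cf_cons, if_neg h]

private theorem gn3e_cf_snoc (m m' : ℕ) (u : List ℕ) (f : P) :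
    cf (u ++ [m]) (f * X m') = if m' = m then cf u f else 0 := by
  refine ind_mon (C := fun f => cf (u ++ [m]) (f * X m') = if m' = m then cf u f else 0) ?_ ?_ ?_ ?_ f
  · rw [zero_mul, gn3e_cf_zero, gn3e_cf_zero, ite_self]
  · intro f g hf hg
    rw [add_mul, cf_add, hf, hg, cf_add]
    by_cases h : m' = m
    · rw [if_pos h, if_pos h, if_pos h]
    · rw [if_neg h, if_neg h, if_neg h, add_zero]
  · intro c f hf
    rw [smul_mul_assoc, cf_smul, hf, cf_smul]
    by_cases h : m' = m
    · rw [if_pos h, if_pos h]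
    · rw [if_neg h, if_neg h, mul_zero]
  · intro w
    rw [← mon_single m', ← mon_append, cf_mon, cf_mon]
    by_cases h : m' = m
    · subst h
      rw [if_pos rfl]
      by_cases hw : w = u
      · rw [if_pos hw, if_pos (by rw [hw])]
      · rw [if_neg hw, if_neg (fun h' => hw (List.append_cancel_right h'))]
    · rw [if_neg h, if_neg]
      intro h'
      have h2 := List.append_inj_right' h' rfl
      exact h (List.cons.inj h2).1

private theorem gn3e_ext {f g : P} (h : ∀ w, cf w f = cf w g) : f = g := by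
  obtain ⟨s, -, hs⟩ := eq_sum_cf (f - g)
  have h1 : f - g = 0 := by
    rw [hs]
    refine Finset.sum_eq_zero fun w _ => ?_
    rw [gn3e_cf_sub, h w, sub_self, zero_smul]
  exact sub_eq_zero.1 h1

/-! ### substitutions -/

private noncomputable def gn3eψ (v : ℕ → ℕ) (m : ℕ) : P := ∑ t ∈ Finset.range 3, if v t = m then X t else 0

private theorem gn3eψ_mem (v : ℕ → ℕ) (m : ℕ) : gn3eψ v m ∈ Pp := by
  unfold gn3eψ
  refine Submodule.sum_mem _ fun t _ => ?_
  by_cases h : v t = m
  · rw [if_pos h]; exact X_mem t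
  · rw [if_neg h]; exact Submodule.zero_mem _

private theorem gn3e_cf_sum (u : List ℕ) (s : Finset ℕ) (F : ℕ → P) :
    cf u (∑ t ∈ s, F t) = ∑ t ∈ s, cf u (F t) := by
  classical
  induction s using Finset.induction_on with
  | empty => rw [Finset.sum_empty, Finset.sum_empty, gn3e_cf_zero]
  | insert a s ha ih => rw [Finset.sum_insert ha, Finset.sum_insert ha, cf_add, ih]

private theorem gn3e_ψ (v : ℕ → ℕ) : ∀ (u w : List ℕ), (∀ a ∈ u, a < 3) →
    cf u ((w.map (gn3eψ v)).prod) = if w = u.map v then 1 else 0 := by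
  intro u
  induction u with
  | nil =>
    intro w _
    rw [List.map_nil]
    cases w with
    | nil => rw [List.map_nil, List.prod_nil, if_pos rfl, ← mon_nil, cf_mon, if_pos rfl]
    | cons m w =>
      rw [if_neg (List.cons_ne_nil m w), cf_nil, List.map_cons, List.prod_cons, map_mul,
        mem_Pp.1 (gn3eψ_mem v m), zero_mul]
  | cons a u ih =>
    intro w hu
    cases w with
    | nil =>
      rw [List.map_nil, List.prod_nil, ← mon_nil, cf_mon, if_neg (List.cons_ne_nil a u).symm,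
        List.map_cons, if_neg (List.cons_ne_nil _ _).symm]
    | cons m w =>
      rw [List.map_cons, List.prod_cons, List.map_cons]
      have h1 : gn3eψ v m * (w.map (gn3eψ v)).prod =
          ∑ t ∈ Finset.range 3, (if v t = m then X t * (w.map (gn3eψ v)).prod else 0) := by
        conv_lhs => rw [gn3eψ, Finset.sum_mul]
        refine Finset.sum_congr rfl fun t _ => ?_
        by_cases h : v t = m
        · rw [if_pos h, if_pos h]
        · rw [if_neg h, if_neg h, zero_mul]
      rw [h1, gn3e_cf_sum]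
      have h2 : ∀ t ∈ Finset.range 3, cf (a :: u) (if v t = m then X t * (w.map (gn3eψ v)).prod else 0) =
          if t = a then (if v a = m then cf u ((w.map (gn3eψ v)).prod) else 0) else 0 := by
        intro t _
        by_cases h : v t = m
        · rw [if_pos h, gn3e_cf_cons]
          by_cases h' : t = a
          · subst h'
            rw [if_pos rfl, if_pos rfl, if_pos h]
          · rw [if_neg h', if_neg h']
        · rw [if_neg h, gn3e_cf_zero]
          by_cases h' : t = a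
          · subst h'
            rw [if_pos rfl, if_neg h]
          · rw [if_neg h']
      rw [Finset.sum_congr rfl h2, Finset.sum_ite_eq' (Finset.range 3) a,
        if_pos (Finset.mem_range.2 (hu a (by simp))), ih w (fun b hb => hu b (List.mem_cons_of_mem _ hb))]
      by_cases h : v a = m
      · rw [if_pos h]
        by_cases h' : w = u.map v
        · rw [if_pos h', if_pos (by rw [h', h])]
        · rw [if_neg h', if_neg (fun h2 => h' (List.cons.inj h2).2)]
      · rw [if_neg h, if_neg (fun h2 => h (List.cons.inj h2).1.symm)]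

private theorem gn3e_ψf (v : ℕ → ℕ) (u : List ℕ) (hu : ∀ a ∈ u, a < 3) (f : P) :
    cf u (sb (gn3eψ v) f) = cf (u.map v) f := by
  refine ind_mon (C := fun f => cf u (sb (gn3eψ v) f) = cf (u.map v) f) ?_ ?_ ?_ ?_ f
  · rw [map_zero, gn3e_cf_zero, gn3e_cf_zero]
  · intro f g hf hg
    rw [map_add, cf_add, cf_add, hf, hg]
  · intro c f hf
    rw [map_zsmul, cf_smul, cf_smul, hf]
  · intro w
    rw [sb_mon, gn3e_ψ v u w hu, cf_mon]

/-- `x_i ↦ x_0 x_1`, `x_j ↦ x_2` -/
private noncomputable def gn3eθ (i j m : ℕ) : P := (if i = m then X 0 * X 1 else 0) + (if j = m then X 2 else 0)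

private theorem gn3eθ_mem (i j m : ℕ) : gn3eθ i j m ∈ Pp := by
  unfold gn3eθ
  refine Submodule.add_mem _ ?_ ?_
  · by_cases h : i = m
    · rw [if_pos h, mem_Pp, map_mul, ADC.aug_X, zero_mul]
    · rw [if_neg h]; exact Submodule.zero_mem _
  · by_cases h : j = m
    · rw [if_pos h]; exact X_mem 2
    · rw [if_neg h]; exact Submodule.zero_mem _

private theorem gn3eθ_mul (i j m : ℕ) (g : P) (u : List ℕ) : cf u (gn3eθ i j m * g) =
    (if i = m then cf u (X 0 * (X 1 * g)) else 0) + (if j = m then cf u (X 2 * g) else 0) := by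
  unfold gn3eθ
  rw [add_mul, cf_add]
  congr 1
  · by_cases h : i = m
    · rw [if_pos h, if_pos h, mul_assoc]
    · rw [if_neg h, if_neg h, zero_mul, gn3e_cf_zero]
  · by_cases h : j = m
    · rw [if_pos h, if_pos h]
    · rw [if_neg h, if_neg h, zero_mul, gn3e_cf_zero]

private theorem gn3eθ_nil (i j : ℕ) (w : List ℕ) : cf [] ((w.map (gn3eθ i j)).prod) = if w = [] then 1 else 0 := by
  cases w with
  | nil => rw [List.map_nil, List.prod_nil, if_pos rfl, ← mon_nil, cf_mon, if_pos rfl]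
  | cons m w =>
    rw [if_neg (List.cons_ne_nil m w), cf_nil, List.map_cons, List.prod_cons, map_mul,
      mem_Pp.1 (gn3eθ_mem i j m), zero_mul]

private theorem gn3e_cf_one {a : ℕ} {u : List ℕ} : cf (a :: u) (1 : P) = 0 := by
  rw [← mon_nil, cf_mon, if_neg (List.cons_ne_nil a u).symm]

private theorem gn3eθ_2 (i j : ℕ) (u w : List ℕ) : cf (2 :: u) ((w.map (gn3eθ i j)).prod) =
    match w with
    | [] => 0
    | m :: w => if j = m then cf u ((w.map (gn3eθ i j)).prod) else 0 := by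
  cases w with
  | nil => rw [List.map_nil, List.prod_nil, gn3e_cf_one]
  | cons m w =>
    rw [List.map_cons, List.prod_cons, gn3eθ_mul, gn3e_cf_ne (by norm_num), ite_self, zero_add,
      gn3e_cf_eq]

private theorem gn3eθ_01 (i j : ℕ) (u w : List ℕ) : cf (0 :: 1 :: u) ((w.map (gn3eθ i j)).prod) =
    match w with
    | [] => 0
    | m :: w => if i = m then cf u ((w.map (gn3eθ i j)).prod) else 0 := by
  cases w with
  | nil => rw [List.map_nil, List.prod_nil, gn3e_cf_one]
  | cons m w =>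
    rw [List.map_cons, List.prod_cons, gn3eθ_mul, gn3e_cf_eq, gn3e_cf_eq,
      gn3e_cf_ne (show (2 : ℕ) ≠ 0 by norm_num), ite_self, add_zero]

private theorem gn3eθ_02 (i j : ℕ) (u w : List ℕ) : cf (0 :: 2 :: u) ((w.map (gn3eθ i j)).prod) = 0 := by
  cases w with
  | nil => rw [List.map_nil, List.prod_nil, gn3e_cf_one]
  | cons m w =>
    rw [List.map_cons, List.prod_cons, gn3eθ_mul, gn3e_cf_eq, gn3e_cf_ne (show (1 : ℕ) ≠ 2 by norm_num),
      ite_self, gn3e_cf_ne (show (2 : ℕ) ≠ 0 by norm_num), ite_self, add_zero]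

private theorem gn3eθ_1 (i j : ℕ) (u w : List ℕ) : cf (1 :: u) ((w.map (gn3eθ i j)).prod) = 0 := by
  cases w with
  | nil => rw [List.map_nil, List.prod_nil, gn3e_cf_one]
  | cons m w =>
    rw [List.map_cons, List.prod_cons, gn3eθ_mul, gn3e_cf_ne (show (0 : ℕ) ≠ 1 by norm_num), ite_self,
      gn3e_cf_ne (show (2 : ℕ) ≠ 1 by norm_num), ite_self, add_zero]

private theorem gn3eθ_012 (i j : ℕ) (f : P) : cf [0, 1, 2] (sb (gn3eθ i j) f) = cf [i, j] f := by
  refine ind_mon (C := fun f => cf [0, 1, 2] (sb (gn3eθ i j) f) = cf [i, j] f) ?_ ?_ ?_ ?_ f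
  · rw [map_zero, gn3e_cf_zero, gn3e_cf_zero]
  · intro f g hf hg
    rw [map_add, cf_add, cf_add, hf, hg]
  · intro c f hf
    rw [map_zsmul, cf_smul, cf_smul, hf]
  · intro w
    rw [sb_mon, gn3eθ_01, cf_mon]
    match w with
    | [] => simp
    | [m] =>
      show (if i = m then cf [2] (([] : List ℕ).map (gn3eθ i j)).prod else 0) = _
      rw [gn3eθ_2]
      simp
    | m :: m' :: w =>
      show (if i = m then cf [2] ((m' :: w).map (gn3eθ i j)).prod else 0) = _
      rw [gn3eθ_2]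
      show (if i = m then (if j = m' then cf [] (w.map (gn3eθ i j)).prod else 0) else 0) = _
      rw [gn3eθ_nil]
      by_cases h1 : i = m
      · by_cases h2 : j = m'
        · subst h1 h2
          by_cases h3 : w = []
          · subst h3; simp
          · simp [h3]
        · rw [if_pos h1, if_neg h2, if_neg]
          intro h
          exact h2 (List.cons.inj (List.cons.inj h).2).1.symm
      · rw [if_neg h1, if_neg]
        intro h
        exact h1 (List.cons.inj h).1.symm

private theorem gn3eθ_201 (i j : ℕ) (f : P) : cf [2, 0, 1] (sb (gn3eθ i j) f) = cf [j, i] f := by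
  refine ind_mon (C := fun f => cf [2, 0, 1] (sb (gn3eθ i j) f) = cf [j, i] f) ?_ ?_ ?_ ?_ f
  · rw [map_zero, gn3e_cf_zero, gn3e_cf_zero]
  · intro f g hf hg
    rw [map_add, cf_add, cf_add, hf, hg]
  · intro c f hf
    rw [map_zsmul, cf_smul, cf_smul, hf]
  · intro w
    rw [sb_mon, gn3eθ_2, cf_mon]
    match w with
    | [] => simp
    | [m] =>
      show (if j = m then cf [0, 1] (([] : List ℕ).map (gn3eθ i j)).prod else 0) = _
      rw [gn3eθ_01]
      simp
    | m :: m' :: w =>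
      show (if j = m then cf [0, 1] ((m' :: w).map (gn3eθ i j)).prod else 0) = _
      rw [gn3eθ_01]
      show (if j = m then (if i = m' then cf [] (w.map (gn3eθ i j)).prod else 0) else 0) = _
      rw [gn3eθ_nil]
      by_cases h1 : j = m
      · by_cases h2 : i = m'
        · subst h1 h2
          by_cases h3 : w = []
          · subst h3; simp
          · simp [h3]
        · rw [if_pos h1, if_neg h2, if_neg]
          intro h
          exact h2 (List.cons.inj (List.cons.inj h).2).1.symm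
      · rw [if_neg h1, if_neg]
        intro h
        exact h1 (List.cons.inj h).1.symm

private theorem gn3eθ_zero (i j : ℕ) {u : List ℕ} (hu : ∀ w : List ℕ, cf u ((w.map (gn3eθ i j)).prod) = 0)
    (f : P) : cf u (sb (gn3eθ i j) f) = 0 := by
  refine ind_mon (C := fun f => cf u (sb (gn3eθ i j) f) = 0) ?_ ?_ ?_ ?_ f
  · rw [map_zero, gn3e_cf_zero]
  · intro f g hf hg
    rw [map_add, cf_add, hf, hg, add_zero]
  · intro c f hf
    rw [map_zsmul, cf_smul, hf, mul_zero]
  · intro w
    rw [sb_mon, hu w]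

private theorem gn3eθ_210 (i j : ℕ) (w : List ℕ) : cf [2, 1, 0] ((w.map (gn3eθ i j)).prod) = 0 := by
  rw [gn3eθ_2]
  match w with
  | [] => rfl
  | m :: w =>
    show (if j = m then cf [1, 0] (w.map (gn3eθ i j)).prod else 0) = 0
    rw [gn3eθ_1, ite_self]

/-! ### divisibilities of the coefficients -/

private theorem gn3e_key {f : P} (hf : f ∈ TE) (i j k : ℕ) :
    (3 : ℤ) ∣ cf [i, j, k] f - cf [j, i, k] f ∧
    (9 : ℤ) ∣ cf [i, j, k] f + cf [j, k, i] f + cf [k, i, j] f - cf [j, i, k] f - cf [i, k, j] f -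
      cf [k, j, i] f := by
  classical
  set v : ℕ → ℕ := fun t => if t = 0 then i else if t = 1 then j else k with hv
  have h := ((TK_iff (by norm_num) KE_add).1 hf).2 (sb (gn3eψ v)) (sb_isSubst (gn3eψ_mem v)) 1 1
  rw [one_mul, mul_one] at h
  obtain ⟨h1, -, -, h4⟩ := h
  simp only [e1, e2, e3, o1, o2, o3] at h1 h4
  rw [gn3e_cf_wp, gn3e_cf_wp, if_pos (by decide), if_pos (by decide), gn3e_ψf v [0, 1, 2] (by decide),
    gn3e_ψf v [1, 0, 2] (by decide)] at h1
  rw [gn3e_cf_wp, gn3e_cf_wp, gn3e_cf_wp, gn3e_cf_wp, gn3e_cf_wp, gn3e_cf_wp, if_pos (by decide),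
    if_pos (by decide), if_pos (by decide), if_pos (by decide), if_pos (by decide), if_pos (by decide),
    gn3e_ψf v [0, 1, 2] (by decide), gn3e_ψf v [1, 0, 2] (by decide), gn3e_ψf v [1, 2, 0] (by decide),
    gn3e_ψf v [2, 0, 1] (by decide), gn3e_ψf v [0, 2, 1] (by decide), gn3e_ψf v [2, 1, 0] (by decide)] at h4
  exact ⟨h1, h4⟩

private theorem gn3e_key2 {f : P} (hf : f ∈ TE) (i j : ℕ) : (9 : ℤ) ∣ cf [i, j] f := by
  classical
  have h := ((TK_iff (by norm_num) KE_add).1 hf).2 (sb (gn3eθ i j)) (sb_isSubst (gn3eθ_mem i j)) 1 1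
  rw [one_mul, mul_one] at h
  obtain ⟨-, -, -, h4⟩ := h
  simp only [e1, e2, e3, o1, o2, o3] at h4
  rw [gn3e_cf_wp, gn3e_cf_wp, gn3e_cf_wp, gn3e_cf_wp, gn3e_cf_wp, gn3e_cf_wp, if_pos (by decide),
    if_pos (by decide), if_pos (by decide), if_pos (by decide), if_pos (by decide), if_pos (by decide),
    gn3eθ_012, gn3eθ_201, gn3eθ_zero i j (gn3eθ_1 i j [2, 0]), gn3eθ_zero i j (gn3eθ_1 i j [0, 2]),
    gn3eθ_zero i j (gn3eθ_02 i j [1]), gn3eθ_zero i j (gn3eθ_210 i j)] at h4
  have h5 := (gn3e_key (TE_isT.mul_right f hf (X (i + j + 1))) i j (i + j + 1)).2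
  have s1 := gn3e_cf_snoc (i + j + 1) (i + j + 1) [i, j] f
  have s2 := gn3e_cf_snoc (i + j + 1) (i + j + 1) [j, i] f
  have s3 := gn3e_cf_snoc i (i + j + 1) [j, i + j + 1] f
  have s4 := gn3e_cf_snoc j (i + j + 1) [i + j + 1, i] f
  have s5 := gn3e_cf_snoc j (i + j + 1) [i, i + j + 1] f
  have s6 := gn3e_cf_snoc i (i + j + 1) [i + j + 1, j] f
  rw [if_pos rfl] at s1 s2
  rw [if_neg (by omega)] at s3 s4 s5 s6
  simp only [List.cons_append, List.nil_append] at s1 s2 s3 s4 s5 s6
  rw [s1, s2, s3, s4, s5, s6] at h5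
  omega

private theorem gn3e_key1 {f : P} (hf : f ∈ TE) (i : ℕ) : (9 : ℤ) ∣ cf [i] f := by
  have h1 := gn3e_key2 (TE_isT.mul_right f hf (X 0)) i 0
  have h2 := gn3e_cf_snoc 0 0 [i] f
  rw [if_pos rfl] at h2
  simp only [List.cons_append, List.nil_append] at h2
  rwa [h2] at h1

/-! ### operators on the words of length 3 -/

private noncomputable def gn3eC : P →ₗ[ℤ] P := lm (fun w => if w.length = 3 then mon (w.rotate 1) else 0)

private theorem gn3eC_mon (w : List ℕ) : gn3eC (mon w) = if w.length = 3 then mon (w.rotate 1) else 0 :=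
  lm_mon _ w

private theorem gn3e_len3 {w : List ℕ} (h : w.length = 3) : ∃ a b c, w = [a, b, c] := List.length_eq_three.1 h

private theorem gn3eC_cf (x y z : ℕ) (f : P) : cf [x, y, z] (gn3eC f) = cf [z, x, y] f := by
  refine ind_mon (C := fun f => cf [x, y, z] (gn3eC f) = cf [z, x, y] f) ?_ ?_ ?_ ?_ f
  · rw [map_zero, gn3e_cf_zero, gn3e_cf_zero]
  · intro f g hf hg
    rw [map_add, cf_add, cf_add, hf, hg]
  · intro c f hf
    rw [map_smul, cf_smul, cf_smul, hf]
  · intro w
    rw [gn3eC_mon, cf_mon]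
    by_cases hl : w.length = 3
    · rw [if_pos hl]
      obtain ⟨a, b, c, rfl⟩ := gn3e_len3 hl
      have h1 : [a, b, c].rotate 1 = [b, c, a] := rfl
      rw [h1, cf_mon]
      have h2 : ([b, c, a] = [x, y, z]) ↔ ([a, b, c] = [z, x, y]) := by
        simp only [List.cons.injEq, and_true]
        tauto
      simp only [h2]
    · rw [if_neg hl, gn3e_cf_zero, if_neg]
      intro h'
      rw [h'] at hl
      exact hl rfl

private theorem gn3eC_cf' {u : List ℕ} (hu : u.length ≠ 3) (f : P) : cf u (gn3eC f) = 0 := by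
  refine ind_mon (C := fun f => cf u (gn3eC f) = 0) ?_ ?_ ?_ ?_ f
  · rw [map_zero, gn3e_cf_zero]
  · intro f g hf hg
    rw [map_add, cf_add, hf, hg, add_zero]
  · intro c f hf
    rw [map_smul, cf_smul, hf, mul_zero]
  · intro w
    rw [gn3eC_mon]
    by_cases hl : w.length = 3
    · rw [if_pos hl, cf_mon, if_neg]
      intro h'
      rw [← h', List.length_rotate] at hu
      exact hu hl
    · rw [if_neg hl, gn3e_cf_zero]

/-- exchange of the first two letters -/
private def gn3e_sw : List ℕ → List ℕ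
  | [a, b, c] => [b, a, c]
  | w => w

private noncomputable def gn3eS : P →ₗ[ℤ] P := lm (fun w => if w.length = 3 then mon (gn3e_sw w) else 0)

private theorem gn3eS_mon (w : List ℕ) : gn3eS (mon w) = if w.length = 3 then mon (gn3e_sw w) else 0 :=
  lm_mon _ w

private theorem gn3eS_cf (x y z : ℕ) (f : P) : cf [x, y, z] (gn3eS f) = cf [y, x, z] f := by
  refine ind_mon (C := fun f => cf [x, y, z] (gn3eS f) = cf [y, x, z] f) ?_ ?_ ?_ ?_ f
  · rw [map_zero, gn3e_cf_zero, gn3e_cf_zero]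
  · intro f g hf hg
    rw [map_add, cf_add, cf_add, hf, hg]
  · intro c f hf
    rw [map_smul, cf_smul, cf_smul, hf]
  · intro w
    rw [gn3eS_mon, cf_mon]
    by_cases hl : w.length = 3
    · rw [if_pos hl]
      obtain ⟨a, b, c, rfl⟩ := gn3e_len3 hl
      have h1 : gn3e_sw [a, b, c] = [b, a, c] := rfl
      rw [h1, cf_mon]
      have h2 : ([b, a, c] = [x, y, z]) ↔ ([a, b, c] = [y, x, z]) := by
        simp only [List.cons.injEq, and_true]
        tauto
      simp only [h2]
    · rw [if_neg hl, gn3e_cf_zero, if_neg]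
      intro h'
      rw [h'] at hl
      exact hl rfl

private theorem gn3eS_cf' {u : List ℕ} (hu : u.length ≠ 3) (f : P) : cf u (gn3eS f) = 0 := by
  refine ind_mon (C := fun f => cf u (gn3eS f) = 0) ?_ ?_ ?_ ?_ f
  · rw [map_zero, gn3e_cf_zero]
  · intro f g hf hg
    rw [map_add, cf_add, hf, hg, add_zero]
  · intro c f hf
    rw [map_smul, cf_smul, hf, mul_zero]
  · intro w
    rw [gn3eS_mon]
    by_cases hl : w.length = 3
    · rw [if_pos hl]
      obtain ⟨a, b, c, rfl⟩ := gn3e_len3 hl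
      rw [cf_mon, if_neg]
      intro h'
      rw [← h'] at hu
      exact hu rfl
    · rw [if_neg hl, gn3e_cf_zero]

/-- representatives of the non-constant cyclic words of length 3 -/
private def gn3eR : List ℕ → Prop
  | [a, b, c] => a ≤ b ∧ a < c
  | _ => False

private theorem gn3eR_ite (a b c : ℕ) (x : ℤ) [Decidable (gn3eR [a, b, c])] :
    (if gn3eR [a, b, c] then x else 0) = if a ≤ b ∧ a < c then x else 0 := by
  by_cases h : a ≤ b ∧ a < c
  · rw [if_pos h, if_pos (show gn3eR [a, b, c] from h)]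
  · rw [if_neg h, if_neg (show ¬ gn3eR [a, b, c] from h)]

/-! ### membership in a T-ideal -/

private theorem gn3e_mul {D : Submodule ℤ P} (hD : IsT D) (h1 : (9 : ℤ) • X 0 ∈ D) : Mul 9 D := by
  intro f hf
  have h := sb_mem hD (φ := fun _ => f) (fun _ => hf) h1
  rwa [map_zsmul, sb_X] at h

private theorem gn3e_div {D : Submodule ℤ P} (hm : Mul 9 D) {g : P} (h0 : cf [] g = 0)
    (h : ∀ w, (9 : ℤ) ∣ cf w g) : g ∈ D := by
  obtain ⟨s, -, hg⟩ := eq_sum_cf g
  rw [hg]
  refine D.sum_mem fun w _ => ?_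
  by_cases hw : w = []
  · rw [hw, h0, zero_smul]
    exact D.zero_mem
  · obtain ⟨c, hc⟩ := h w
    rw [hc, mul_comm, mul_smul]
    exact D.smul_mem _ (hm _ (mon_mem hw))

/-- `2 f ∈ D` implies `f ∈ D` -/
private theorem gn3e_half {D : Submodule ℤ P} (hm : Mul 9 D) {g : P} (h0 : g ∈ Pp) (h : (2 : ℤ) • g ∈ D) : g ∈ D := by
  have h1 : g = (9 : ℤ) • g - (4 : ℤ) • ((2 : ℤ) • g) := by
    rw [smul_smul, ← sub_smul]
    norm_num
  rw [h1]
  exact D.sub_mem (hm g h0) (D.smul_mem _ h)

/-- `(f g + g f) h ∈ D` -/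
private theorem gn3e_g4 {D : Submodule ℤ P} (hD : IsT D) (h2 : (X 0 * X 1 + X 1 * X 0) * X 2 ∈ D) {f g h : P}
    (hf : f ∈ Pp) (hg : g ∈ Pp) (hh : h ∈ Pp) : (f * g + g * f) * h ∈ D := by
  have h1 := sb_mem hD (φ := fun i => if i = 0 then f else if i = 1 then g else h)
    (fun i => by
      by_cases h0 : i = 0
      · rw [if_pos h0]; exact hf
      · by_cases h1 : i = 1
        · rw [if_neg h0, if_pos h1]; exact hg
        · rw [if_neg h0, if_neg h1]; exact hh) h2
  simp only [map_add, map_mul, sb_X] at h1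
  simpa using h1

private theorem gn3e_g4' {D : Submodule ℤ P} (hD : IsT D) (h3 : (3 : ℤ) • (X 0 * (X 1 * X 2 + X 2 * X 1)) ∈ D)
    {f g h : P} (hf : f ∈ Pp) (hg : g ∈ Pp) (hh : h ∈ Pp) : (3 : ℤ) • (f * (g * h + h * g)) ∈ D := by
  have h1 := sb_mem hD (φ := fun i => if i = 0 then f else if i = 1 then g else h)
    (fun i => by
      by_cases h0 : i = 0
      · rw [if_pos h0]; exact hf
      · by_cases h1 : i = 1
        · rw [if_neg h0, if_pos h1]; exact hg
        · rw [if_neg h0, if_neg h1]; exact hh) h3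
  simp only [map_zsmul, map_add, map_mul, sb_X] at h1
  simpa using h1

private theorem gn3e_four {D : Submodule ℤ P} (hD : IsT D) (hm : Mul 9 D)
    (h2 : (X 0 * X 1 + X 1 * X 0) * X 2 ∈ D) : Fge 4 ≤ D := by
  refine Submodule.span_le.2 ?_
  rintro f ⟨w, hw, rfl⟩
  obtain ⟨a, w, rfl⟩ : ∃ a t, w = a :: t := by
    cases w with
    | nil => simp at hw
    | cons a t => exact ⟨a, t, rfl⟩
  obtain ⟨b, w, rfl⟩ : ∃ a t, w = a :: t := by
    cases w with
    | nil => simp at hw
    | cons a t => exact ⟨a, t, rfl⟩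
  obtain ⟨c, w, rfl⟩ : ∃ a t, w = a :: t := by
    cases w with
    | nil => simp at hw
    | cons a t => exact ⟨a, t, rfl⟩
  obtain ⟨d, w, rfl⟩ : ∃ a t, w = a :: t := by
    cases w with
    | nil => simp at hw
    | cons a t => exact ⟨a, t, rfl⟩
  have hbc : X b * X c ∈ Pp := by rw [mem_Pp, map_mul, ADC.aug_X, zero_mul]
  have hcd : X c * X d ∈ Pp := by rw [mem_Pp, map_mul, ADC.aug_X, zero_mul]
  -- the relations
  have r1 := gn3e_g4 hD h2 (X_mem a) hbc (X_mem d)
  have r2 : (X b * X c + X c * X b) * X a * X d ∈ D := hD.mul_right _ (gn3e_g4 hD h2 (X_mem b) (X_mem c) (X_mem a)) _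
  have r3 : X c * ((X b * X a + X a * X b) * X d) ∈ D := hD.mul_left _ (gn3e_g4 hD h2 (X_mem b) (X_mem a) (X_mem d)) _
  have r4 : (X c * X a + X a * X c) * X b * X d ∈ D := hD.mul_right _ (gn3e_g4 hD h2 (X_mem c) (X_mem a) (X_mem b)) _
  have r5 : X a * ((X c * X b + X b * X c) * X d) ∈ D := hD.mul_left _ (gn3e_g4 hD h2 (X_mem c) (X_mem b) (X_mem d)) _
  have h4 : X a * X b * X c * X d ∈ D := by
    refine gn3e_half hm ?_ ?_
    · rw [mem_Pp, map_mul, map_mul, map_mul, ADC.aug_X, zero_mul, zero_mul, zero_mul]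
    · have e : (2 : ℤ) • (X a * X b * X c * X d) = (X a * (X b * X c) + X b * X c * X a) * X d -
          (X b * X c + X c * X b) * X a * X d + X c * ((X b * X a + X a * X b) * X d) -
          (X c * X a + X a * X c) * X b * X d + X a * ((X c * X b + X b * X c) * X d) := by
        rw [two_smul]
        noncomm_ring
      rw [e]
      exact D.add_mem (D.sub_mem (D.add_mem (D.sub_mem r1 r2) r3) r4) r5
  have h5 := hD.mul_right _ h4 (mon w)
  have h6 : X a * X b * X c * X d * mon w = mon (a :: b :: c :: d :: w) := by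
    simp [mon_cons, mul_assoc]
  rw [h6] at h5
  exact h5

private theorem gn3e_S {D : Submodule ℤ P} (hD : IsT D) (h2 : (X 0 * X 1 + X 1 * X 0) * X 2 ∈ D) (x : P) :
    wp (fun w => w.length = 3) x + gn3eS x ∈ D := by
  refine ind_mon (C := fun x => wp (fun w => w.length = 3) x + gn3eS x ∈ D) ?_ ?_ ?_ ?_ x
  · simp
  · intro f g hf hg
    have h : wp (fun w => w.length = 3) (f + g) + gn3eS (f + g) =
        (wp (fun w => w.length = 3) f + gn3eS f) + (wp (fun w => w.length = 3) g + gn3eS g) := by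
      simp only [map_add]
      abel
    rw [h]
    exact D.add_mem hf hg
  · intro c f hf
    have h : wp (fun w => w.length = 3) (c • f) + gn3eS (c • f) =
        c • (wp (fun w => w.length = 3) f + gn3eS f) := by
      simp only [map_smul, smul_add]
    rw [h]
    exact D.smul_mem _ hf
  · intro w
    by_cases hl : w.length = 3
    · obtain ⟨a, b, c, rfl⟩ := gn3e_len3 hl
      rw [wp_pos (φ := fun w => w.length = 3) hl, gn3eS_mon, if_pos hl]
      have h1 := gn3e_g4 hD h2 (X_mem a) (X_mem b) (X_mem c)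
      have h3 : mon [a, b, c] + mon (gn3e_sw [a, b, c]) = (X a * X b + X b * X a) * X c := by
        show mon [a, b, c] + mon [b, a, c] = _
        simp only [mon_cons, mon_nil, mul_one, add_mul, mul_assoc]
      rw [h3]
      exact h1
    · rw [wp_neg (φ := fun w => w.length = 3) hl, gn3eS_mon, if_neg hl, add_zero]
      exact D.zero_mem

private theorem gn3e_C {D : Submodule ℤ P} (hD : IsT D) (h2 : (X 0 * X 1 + X 1 * X 0) * X 2 ∈ D)
    (h3 : (3 : ℤ) • (X 0 * (X 1 * X 2 + X 2 * X 1)) ∈ D) {y : P} (h0 : ∀ w : List ℕ, w.length ≠ 3 → cf w y = 0)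
    (h : ∀ w : List ℕ, (3 : ℤ) ∣ cf w y) : y - gn3eC y ∈ D := by
  obtain ⟨s, -, hy⟩ := eq_sum_cf y
  have hC : gn3eC y = ∑ w ∈ s, cf w y • gn3eC (mon w) := by
    conv_lhs => rw [hy]
    rw [map_sum]
    refine Finset.sum_congr rfl fun w _ => ?_
    rw [map_smul]
  have e : y - gn3eC y = ∑ w ∈ s, cf w y • (mon w - gn3eC (mon w)) := by
    conv_lhs => rw [hC]
    conv_lhs => lhs; rw [hy]
    rw [← Finset.sum_sub_distrib]
    refine Finset.sum_congr rfl fun w _ => ?_
    rw [smul_sub]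
  rw [e]
  refine D.sum_mem fun w _ => ?_
  by_cases hl : w.length = 3
  · obtain ⟨c', hc⟩ := h w
    rw [hc, mul_comm, mul_smul]
    refine D.smul_mem _ ?_
    rw [gn3eC_mon, if_pos hl]
    obtain ⟨a, b, c, rfl⟩ := gn3e_len3 hl
    have h1 : [a, b, c].rotate 1 = [b, c, a] := rfl
    rw [h1]
    -- `3 (abc - bca)`
    have r1 := D.smul_mem (3 : ℤ) (gn3e_g4 hD h2 (X_mem a) (X_mem b) (X_mem c))
    have r2 := gn3e_g4' hD h3 (X_mem b) (X_mem a) (X_mem c)
    have e2 : (3 : ℤ) • (mon [a, b, c] - mon [b, c, a]) =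
        (3 : ℤ) • ((X a * X b + X b * X a) * X c) - (3 : ℤ) • (X b * (X a * X c + X c * X a)) := by
      rw [← smul_sub]
      congr 1
      simp only [mon_cons, mon_nil, mul_one]
      noncomm_ring
    rw [e2]
    exact D.sub_mem r1 r2
  · rw [h0 w hl, zero_smul]
    exact D.zero_mem

private theorem gn3e_split (f : P) : f = wp (fun w => 4 ≤ w.length) f + wp (fun w => w.length = 3) f +
    wp (fun w => w.length ≤ 2) f := by
  refine ind_mon (C := fun f => f = wp (fun w => 4 ≤ w.length) f + wp (fun w => w.length = 3) f +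
    wp (fun w => w.length ≤ 2) f) ?_ ?_ ?_ ?_ f
  · simp
  · intro f g hf hg
    simp only [map_add]
    conv_lhs => rw [hf, hg]
    abel
  · intro c f hf
    simp only [map_smul, ← smul_add]
    rw [← hf]
  · intro w
    rcases Nat.lt_or_ge w.length 3 with h | h
    · rw [wp_neg (φ := fun w => 4 ≤ w.length) (by omega), wp_neg (φ := fun w => w.length = 3) (by omega),
        wp_pos (φ := fun w => w.length ≤ 2) (by omega), zero_add, zero_add]
    · rcases Nat.eq_or_lt_of_le h with h | h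
      · rw [wp_neg (φ := fun w => 4 ≤ w.length) (by omega), wp_pos (φ := fun w => w.length = 3) h.symm,
          wp_neg (φ := fun w => w.length ≤ 2) (by omega), zero_add, add_zero]
      · rw [wp_pos (φ := fun w => 4 ≤ w.length) h, wp_neg (φ := fun w => w.length = 3) (by omega),
          wp_neg (φ := fun w => w.length ≤ 2) (by omega), add_zero, add_zero]

/-! ### the results -/

theorem TE_gmem : (9 : ℤ) • X 0 ∈ TE ∧ (X 0 * X 1 + X 1 * X 0) * X 2 ∈ TE ∧
    (3 : ℤ) • (X 0 * (X 1 * X 2 + X 2 * X 1)) ∈ TE := by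
  refine ⟨TE_sq _ (X_mem 0), ?_, ?_⟩
  · have h1 : (X 0 * X 1 + X 1 * X 0) * X 2 = mon [0, 1, 2] + mon [1, 0, 2] := by
      simp only [mon_cons, mon_nil, mul_one, mul_assoc, add_mul]
    have h2 : mon [0, 1, 2] + mon [1, 0, 2] ∈ Ml 3 :=
      Submodule.add_mem _ (Ml_mon (by decide)) (Ml_mon (by decide))
    have h3 : mon [0, 1, 2] + mon [1, 0, 2] ∈ KE := by
      show _ ∧ _ ∧ _ ∧ _
      simp only [e1, e2, e3, o1, o2, o3, cf_add, cf_mon]
      refine ⟨?_, ?_, ?_, ?_⟩ <;> simp
    rw [h1]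
    exact TK_mem (by norm_num) KE_add h2 fun σ => KE_rn h2 h3 σ
  · have h1 : (3 : ℤ) • (X 0 * (X 1 * X 2 + X 2 * X 1)) = (3 : ℤ) • (mon [0, 1, 2] + mon [0, 2, 1]) := by
      simp only [mon_cons, mon_nil, mul_one, mul_add]
    have h2 : (3 : ℤ) • (mon [0, 1, 2] + mon [0, 2, 1]) ∈ Ml 3 :=
      Submodule.smul_mem _ _ (Submodule.add_mem _ (Ml_mon (by decide)) (Ml_mon (by decide)))
    have h3 : (3 : ℤ) • (mon [0, 1, 2] + mon [0, 2, 1]) ∈ KE := by
      show _ ∧ _ ∧ _ ∧ _
      simp only [e1, e2, e3, o1, o2, o3, cf_smul, cf_add, cf_mon]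
      refine ⟨?_, ?_, ?_, ?_⟩ <;> simp
    rw [h1]
    exact TK_mem (by norm_num) KE_add h2 fun σ => KE_rn h2 h3 σ

private theorem gn3e_three {D : Submodule ℤ P} (hD : IsT D) (hm : Mul 9 D)
    (h2 : (X 0 * X 1 + X 1 * X 0) * X 2 ∈ D) (h3 : (3 : ℤ) • (X 0 * (X 1 * X 2 + X 2 * X 1)) ∈ D) {f : P}
    (hf : f ∈ TE) : wp (fun w => w.length = 3) f ∈ D := by
  classical
  set g : P := wp (fun w => w.length = 3) f - gn3eS f with hg
  have cg : ∀ a b c, cf [a, b, c] g = cf [a, b, c] f - cf [b, a, c] f := by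
    intro a b c
    rw [hg, gn3e_cf_sub, gn3e_cf_wp, if_pos (show [a, b, c].length = 3 from rfl), gn3eS_cf]
  have cg' : ∀ w : List ℕ, w.length ≠ 3 → cf w g = 0 := by
    intro w hw
    rw [hg, gn3e_cf_sub, gn3e_cf_wp, if_neg hw, gn3eS_cf' hw, sub_zero]
  -- the three pieces
  set y1 : P := wp gn3eR g with hy1
  set y2 : P := wp gn3eR (gn3eC (gn3eC g)) with hy2
  set y3 : P := wp gn3eR (gn3eC g) with hy3
  have c1 : ∀ a b c, cf [a, b, c] y1 = if a ≤ b ∧ a < c then cf [a, b, c] g else 0 := by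
    intro a b c
    rw [hy1, gn3e_cf_wp]
    exact gn3eR_ite a b c _
  have c2 : ∀ a b c, cf [a, b, c] y2 = if a ≤ b ∧ a < c then cf [b, c, a] g else 0 := by
    intro a b c
    rw [hy2, gn3e_cf_wp, gn3eC_cf, gn3eC_cf]
    exact gn3eR_ite a b c _
  have c3 : ∀ a b c, cf [a, b, c] y3 = if a ≤ b ∧ a < c then cf [c, a, b] g else 0 := by
    intro a b c
    rw [hy3, gn3e_cf_wp, gn3eC_cf]
    exact gn3eR_ite a b c _
  have n1 : ∀ w : List ℕ, w.length ≠ 3 → cf w y1 = 0 := by
    intro w hw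
    rw [hy1, gn3e_cf_wp, cg' w hw, ite_self]
  have n2 : ∀ w : List ℕ, w.length ≠ 3 → cf w y2 = 0 := by
    intro w hw
    rw [hy2, gn3e_cf_wp, gn3eC_cf' hw, ite_self]
  have n3 : ∀ w : List ℕ, w.length ≠ 3 → cf w y3 = 0 := by
    intro w hw
    rw [hy3, gn3e_cf_wp, gn3eC_cf' hw, ite_self]
  have d0 : ∀ a b c, (3 : ℤ) ∣ cf [a, b, c] g := by
    intro a b c
    rw [cg]
    exact (gn3e_key hf a b c).1
  have d2 : ∀ w : List ℕ, (3 : ℤ) ∣ cf w y2 := by
    intro w
    by_cases hw : w.length = 3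
    · obtain ⟨a, b, c, rfl⟩ := gn3e_len3 hw
      rw [c2]
      by_cases h : a ≤ b ∧ a < c
      · rw [if_pos h]; exact d0 _ _ _
      · rw [if_neg h]; exact dvd_zero _
    · rw [n2 w hw]; exact dvd_zero _
  have d3 : ∀ w : List ℕ, (3 : ℤ) ∣ cf w y3 := by
    intro w
    by_cases hw : w.length = 3
    · obtain ⟨a, b, c, rfl⟩ := gn3e_len3 hw
      rw [c3]
      by_cases h : a ≤ b ∧ a < c
      · rw [if_pos h]; exact d0 _ _ _
      · rw [if_neg h]; exact dvd_zero _
    · rw [n3 w hw]; exact dvd_zero _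
  have d3' : ∀ w : List ℕ, (3 : ℤ) ∣ cf w (gn3eC y3) := by
    intro w
    by_cases hw : w.length = 3
    · obtain ⟨a, b, c, rfl⟩ := gn3e_len3 hw
      rw [gn3eC_cf]
      exact d3 _
    · rw [gn3eC_cf' hw]; exact dvd_zero _
  have m2 : y2 - gn3eC y2 ∈ D := gn3e_C hD h2 h3 n2 d2
  have m3 : y3 - gn3eC y3 ∈ D := gn3e_C hD h2 h3 n3 d3
  have m3' : gn3eC y3 - gn3eC (gn3eC y3) ∈ D := gn3e_C hD h2 h3 (fun w hw => gn3eC_cf' hw _) d3'
  have hdec : g = y1 + gn3eC y2 + gn3eC (gn3eC y3) := by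
    refine gn3e_ext fun w => ?_
    rw [cf_add, cf_add]
    by_cases hw : w.length = 3
    · obtain ⟨a, b, c, rfl⟩ := gn3e_len3 hw
      rw [gn3eC_cf, gn3eC_cf, gn3eC_cf, c1, c2, c3]
      by_cases hab : a = b ∧ b = c
      · obtain ⟨rfl, rfl⟩ := hab
        rw [cg]
        simp
      · by_cases p1 : a ≤ b ∧ a < c
        · rw [if_pos p1, if_neg (by omega), if_neg (by omega), add_zero, add_zero]
        · rw [if_neg p1, zero_add]
          by_cases p2 : c ≤ a ∧ c < b
          · rw [if_pos p2, if_neg (by omega), add_zero]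
          · rw [if_neg p2, zero_add, if_pos (by omega)]
    · rw [cg' w hw, n1 w hw, gn3eC_cf' hw, gn3eC_cf' hw]
      norm_num
  have msum : y1 + y2 + y3 ∈ D := by
    refine gn3e_div hm ?_ ?_
    · rw [cf_add, cf_add, n1 _ (by simp), n2 _ (by simp), n3 _ (by simp)]
      norm_num
    · intro w
      rw [cf_add, cf_add]
      by_cases hw : w.length = 3
      · obtain ⟨a, b, c, rfl⟩ := gn3e_len3 hw
        rw [c1, c2, c3]
        by_cases h : a ≤ b ∧ a < c
        · rw [if_pos h, if_pos h, if_pos h, cg, cg, cg]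
          have h4 := (gn3e_key hf a b c).2
          have h5 : cf [a, b, c] f - cf [b, a, c] f + (cf [b, c, a] f - cf [c, b, a] f) +
              (cf [c, a, b] f - cf [a, c, b] f) = cf [a, b, c] f + cf [b, c, a] f + cf [c, a, b] f -
              cf [b, a, c] f - cf [a, c, b] f - cf [c, b, a] f := by ring
          rw [h5]
          exact h4
        · rw [if_neg h, if_neg h, if_neg h]
          exact dvd_zero _
      · rw [n1 w hw, n2 w hw, n3 w hw]
        exact dvd_zero _
  have hgD : g ∈ D := by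
    have e : g = (y1 + y2 + y3) - (y2 - gn3eC y2) - (y3 - gn3eC y3) - (gn3eC y3 - gn3eC (gn3eC y3)) := by
      conv_lhs => rw [hdec]
      abel
    rw [e]
    exact D.sub_mem (D.sub_mem (D.sub_mem msum m2) m3) m3'
  refine gn3e_half hm ?_ ?_
  · rw [mem_Pp, ← cf_nil, gn3e_cf_wp, if_neg (by simp)]
  · have e : (2 : ℤ) • wp (fun w => w.length = 3) f = (wp (fun w => w.length = 3) f + gn3eS f) + g := by
      rw [hg, two_smul]
      abel
    rw [e]
    exact D.add_mem (gn3e_S hD h2 f) hgD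

theorem TE_gen {D : Submodule ℤ P} (hD : IsT D) (h1 : (9 : ℤ) • X 0 ∈ D) (h2 : (X 0 * X 1 + X 1 * X 0) * X 2 ∈ D)
    (h3 : (3 : ℤ) • (X 0 * (X 1 * X 2 + X 2 * X 1)) ∈ D) : TE ≤ D := by
  intro f hf
  have hm : Mul 9 D := gn3e_mul hD h1
  have hfP : f ∈ Pp := TE_isT.le hf
  have hf0 : cf [] f = 0 := by
    rw [cf_nil]
    exact mem_Pp.1 hfP
  have e4 : wp (fun w => 4 ≤ w.length) f ∈ D := gn3e_four hD hm h2 (wp_mem _ f)
  have e2 : wp (fun w => w.length ≤ 2) f ∈ D := by
    refine gn3e_div hm ?_ ?_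
    · rw [gn3e_cf_wp, hf0, ite_self]
    · intro w
      rw [gn3e_cf_wp]
      by_cases hw : w.length ≤ 2
      · rw [if_pos hw]
        match w, hw with
        | [], _ => rw [hf0]; exact dvd_zero _
        | [i], _ => exact gn3e_key1 hf i
        | [i, j], _ => exact gn3e_key2 hf i j
        | _ :: _ :: _ :: _, hw => simp at hw
      · rw [if_neg hw]
        exact dvd_zero _
  rw [gn3e_split f]
  exact D.add_mem (D.add_mem e4 (gn3e_three hD hm h2 h3 hf)) e2

end ADP
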