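import Pool.Agent.ADP.Gn3e
import Pool.Agent.ADC.Opp

/-!
# ADP-Gn3f: generators of `TF`

`TF` is the opposite of `TE` (`Gn3e`).
-/

namespace ADP

open AD ADN ADC

private theorem gn3f_X (i : ℕ) : rv (X i) = X i := by
  rw [← mon_single, rv_mon, List.reverse_singleton]

private theorem gn3f_zero (w : List ℕ) : cf w (0 : P) = 0 := by
  have h := cf_smul w 0 (0 : P)
  rwa [zero_smul, zero_mul] at h

private theorem gn3f_cf (w : List ℕ) (g : P) : cf w (rv g) = cf w.reverse g := by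
  refine ind_mon (C := fun g => cf w (rv g) = cf w.reverse g) ?_ ?_ ?_ ?_ g
  · rw [map_zero, gn3f_zero, gn3f_zero]
  · intro f g hf hg
    rw [map_add, cf_add, cf_add, hf, hg]
  · intro c f hf
    rw [map_smul, cf_smul, cf_smul, hf]
  · intro u
    rw [rv_mon, cf_mon, cf_mon]
    by_cases h : u = w.reverse
    · rw [if_pos h, if_pos (by rw [h, List.reverse_reverse])]
    · rw [if_neg h, if_neg fun h' => h (by rw [← h', List.reverse_reverse])]

private theorem gn3f_Ml {g : P} (hg : g ∈ Ml 3) : rv g ∈ Ml 3 := by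
  refine Ml_ind (n := 3) (C := fun g => rv g ∈ Ml 3) ?_ ?_ ?_ ?_ hg
  · rw [map_zero]
    exact Submodule.zero_mem _
  · intro f g hf hg
    rw [map_add]
    exact Submodule.add_mem _ hf hg
  · intro c f hf
    rw [map_smul]
    exact Submodule.smul_mem _ _ hf
  · intro w hw
    rw [rv_mon]
    exact Ml_mon ((List.reverse_perm w).trans hw)

private theorem gn3f_EF {g : P} : rv g ∈ KE ↔ g ∈ KF := by
  show (_ ∧ _ ∧ _ ∧ _) ↔ (_ ∧ _ ∧ _ ∧ _)
  simp only [e1, e2, e3, o1, o2, o3, gn3f_cf, List.reverse_cons, List.reverse_nil, List.nil_append,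
    List.cons_append]
  constructor
  · rintro ⟨a1, a2, a3, a4⟩
    refine ⟨?_, ?_, ?_, ?_⟩ <;> omega
  · rintro ⟨a1, a2, a3, a4⟩
    refine ⟨?_, ?_, ?_, ?_⟩ <;> omega

private theorem gn3f_opE : op TE ≤ TF := by
  refine le_TK (isT_op TE_isT) ?_ ?_
  · rw [← op_Fge]
    exact fun f hf => TE_Fge hf
  · intro g hg hgM
    have h1 : rv g ∈ KE := TK_sub (by norm_num) KE_add hg (gn3f_Ml hgM)
    exact gn3f_EF.1 h1

private theorem gn3f_opF : op TF ≤ TE := by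
  refine le_TK (isT_op TF_isT) ?_ ?_
  · rw [← op_Fge]
    exact fun f hf => TF_Fge hf
  · intro g hg hgM
    have h1 : rv g ∈ KF := TK_sub (by norm_num) KF_add hg (gn3f_Ml hgM)
    have h2 := (gn3f_EF (g := rv g)).2 h1
    rwa [rv_rv] at h2

private theorem gn3f_sub {D : Submodule ℤ P} (hD : IsT D) {f : P} (h : f ∈ D) :
    sb (fun i => if i = 0 then X 2 else if i = 2 then X 0 else X 1) f ∈ D := by
  refine sb_mem hD (fun i => ?_) h
  by_cases h0 : i = 0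
  · rw [if_pos h0]; exact X_mem 2
  · by_cases h1 : i = 2
    · rw [if_neg h0, if_pos h1]; exact X_mem 0
    · rw [if_neg h0, if_neg h1]; exact X_mem 1

private theorem gn3f_a : sb (fun i => if i = 0 then X 2 else if i = 2 then X 0 else X 1)
    (rv ((X 0 * X 1 + X 1 * X 0) * X 2)) = X 0 * (X 1 * X 2 + X 2 * X 1) := by
  rw [rv_mul, map_add, rv_mul, rv_mul, gn3f_X, gn3f_X, gn3f_X]
  simp only [map_mul, map_add, sb_X]
  simp

private theorem gn3f_b : sb (fun i => if i = 0 then X 2 else if i = 2 then X 0 else X 1)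
    (rv (X 0 * (X 1 * X 2 + X 2 * X 1))) = (X 0 * X 1 + X 1 * X 0) * X 2 := by
  rw [rv_mul, map_add, rv_mul, rv_mul, gn3f_X, gn3f_X, gn3f_X]
  simp only [map_mul, map_add, sb_X]
  simp

theorem TF_gmem : (9 : ℤ) • X 0 ∈ TF ∧ X 0 * (X 1 * X 2 + X 2 * X 1) ∈ TF ∧
    (3 : ℤ) • ((X 0 * X 1 + X 1 * X 0) * X 2) ∈ TF := by
  obtain ⟨h1, h2, h3⟩ := TE_gmem
  refine ⟨TF_sq _ (X_mem 0), ?_, ?_⟩
  · have h4 : rv ((X 0 * X 1 + X 1 * X 0) * X 2) ∈ TF :=
      gn3f_opE (show rv (rv ((X 0 * X 1 + X 1 * X 0) * X 2)) ∈ TE by rw [rv_rv]; exact h2)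
    have h5 := gn3f_sub TF_isT h4
    rwa [gn3f_a] at h5
  · have h4 : rv ((3 : ℤ) • (X 0 * (X 1 * X 2 + X 2 * X 1))) ∈ TF :=
      gn3f_opE (show rv (rv ((3 : ℤ) • (X 0 * (X 1 * X 2 + X 2 * X 1)))) ∈ TE by rw [rv_rv]; exact h3)
    have h5 := gn3f_sub TF_isT h4
    rwa [map_smul, map_zsmul, gn3f_b] at h5

theorem TF_gen {D : Submodule ℤ P} (hD : IsT D) (h1 : (9 : ℤ) • X 0 ∈ D) (h2 : X 0 * (X 1 * X 2 + X 2 * X 1) ∈ D)
    (h3 : (3 : ℤ) • ((X 0 * X 1 + X 1 * X 0) * X 2) ∈ D) : TF ≤ D := by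
  have k1 : (9 : ℤ) • X 0 ∈ op D := by
    show rv _ ∈ D
    rw [map_smul, gn3f_X]
    exact h1
  have k2 : (X 0 * X 1 + X 1 * X 0) * X 2 ∈ op D := by
    have h4 := gn3f_sub (isT_op hD) (f := rv (X 0 * (X 1 * X 2 + X 2 * X 1)))
      (show rv (rv (X 0 * (X 1 * X 2 + X 2 * X 1))) ∈ D by rw [rv_rv]; exact h2)
    rwa [gn3f_b] at h4
  have k3 : (3 : ℤ) • (X 0 * (X 1 * X 2 + X 2 * X 1)) ∈ op D := by
    have h4 := gn3f_sub (isT_op hD) (f := rv ((3 : ℤ) • ((X 0 * X 1 + X 1 * X 0) * X 2)))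
      (show rv (rv ((3 : ℤ) • ((X 0 * X 1 + X 1 * X 0) * X 2))) ∈ D by rw [rv_rv]; exact h3)
    rwa [map_smul, map_zsmul, gn3f_a] at h4
  intro f hf
  have h5 : rv f ∈ TE := gn3f_opF (show rv (rv f) ∈ TF by rw [rv_rv]; exact hf)
  have h6 : rv (rv f) ∈ D := TE_gen (isT_op hD) k1 k2 k3 h5
  rwa [rv_rv] at h6

end ADP
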