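import Pool.Agent.ADP.GenN

/-!
# ADP-GnN: `N_p` with the identity `x^(p+1)` (`p` odd)
-/

namespace ADP

open AD ADN ADC

private theorem gq_com_X (a : ℕ) : com (X a) = MvPolynomial.X a := by simp [com]

private theorem gq_com_mon (w : List ℕ) : com (mon w) = MvPolynomial.monomial (ADA.cnt w) 1 := by
  induction w with
  | nil => rw [mon_nil, map_one]; simp [ADA.cnt]
  | cons a w ih =>
    rw [mon_cons, map_mul, ih, ADA.cnt_cons, gq_com_X, MvPolynomial.X, MvPolynomial.monomial_mul, one_mul]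

private theorem gq_cnt_deg (w : List ℕ) : (ADA.cnt w).degree = w.length := by
  induction w with
  | nil => simp [ADA.cnt]
  | cons a w ih => rw [ADA.cnt_cons, map_add, ih, Finsupp.degree_single, List.length_cons, add_comm]

private theorem gq_perm (w : List ℕ) : w.Perm (sw (ADA.cnt w)) := by
  rw [← Multiset.coe_eq_coe]
  unfold sw
  rw [Multiset.sort_eq]
  induction w with
  | nil => simp [ADA.cnt]
  | cons a w ih =>
    rw [ADA.cnt_cons, map_add, ← ih, Finsupp.toMultiset_single, one_nsmul]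
    rfl

/-- the monomials of degree `≥ 3` as sorted words -/
private noncomputable def gqT (m : ℕ →₀ ℕ) : P := if 3 ≤ m.degree then mon (sw m) else 0

private noncomputable def gqB : MvPolynomial ℕ ℤ →ₗ[ℤ] P :=
  (MvPolynomial.basisMonomials ℕ ℤ).constr ℤ gqT

private theorem gqB_mono (m : ℕ →₀ ℕ) : gqB (MvPolynomial.monomial m 1) = gqT m := by
  unfold gqB
  have h : MvPolynomial.monomial m (1 : ℤ) = MvPolynomial.basisMonomials ℕ ℤ m := by
    rw [MvPolynomial.coe_basisMonomials]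
  rw [h, Module.Basis.constr_basis]

private theorem gqB_apply (g : MvPolynomial ℕ ℤ) : gqB g = ∑ m ∈ g.support, g.coeff m • gqT m := by
  conv_lhs => rw [g.as_sum]
  rw [map_sum]
  refine Finset.sum_congr rfl fun m _ => ?_
  have h : MvPolynomial.monomial m (g.coeff m) = g.coeff m • MvPolynomial.monomial m (1 : ℤ) := by
    rw [MvPolynomial.smul_monomial, smul_eq_mul, mul_one]
  rw [h, map_smul, gqB_mono]

private theorem gq_red {D : Submodule ℤ P} (hD : IsT D) (h2 : X 0 * cm 1 2 ∈ D) (h3 : cm 0 1 * X 2 ∈ D)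
    (f : P) : f - wp (fun w => w.length ≤ 2) f - gqB (com f) ∈ D := by
  refine ind_mon (C := fun f => f - wp (fun w => w.length ≤ 2) f - gqB (com f) ∈ D) ?_ ?_ ?_ ?_ f
  · simp
  · intro f g hf hg
    have : f + g - wp (fun w => w.length ≤ 2) (f + g) - gqB (com (f + g)) =
        (f - wp (fun w => w.length ≤ 2) f - gqB (com f)) +
        (g - wp (fun w => w.length ≤ 2) g - gqB (com g)) := by
      rw [map_add, map_add, map_add]
      abel
    rw [this]
    exact D.add_mem hf hg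
  · intro c f hf
    have : c • f - wp (fun w => w.length ≤ 2) (c • f) - gqB (com (c • f)) =
        c • (f - wp (fun w => w.length ≤ 2) f - gqB (com f)) := by
      rw [map_smul, map_smul, map_smul, smul_sub, smul_sub]
    rw [this]
    exact D.smul_mem _ hf
  · intro w
    rw [gq_com_mon, gqB_mono, gqT, gq_cnt_deg]
    by_cases h : w.length ≤ 2
    · rw [wp_pos (φ := fun w => w.length ≤ 2) h, if_neg (by omega)]
      simp
    · rw [wp_neg (φ := fun w => w.length ≤ 2) h, if_pos (by omega), sub_zero]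
      exact CSt3 hD h2 h3 (gq_perm w) (by omega)

private theorem gqT_mem (m : ℕ →₀ ℕ) : gqT m ∈ Pp := by
  unfold gqT
  split_ifs with h
  · refine mon_mem ?_
    intro h0
    have := sw_length m
    rw [h0] at this
    simp at this
    omega
  · exact Pp.zero_mem

private theorem gq_pow (n : ℕ) : (X 0 + X 1) ^ n ∈ Submodule.span ℤ {f : P | ∃ w : List ℕ, w.length = n ∧ mon w = f} := by
  induction n with
  | zero =>
    rw [pow_zero]
    exact Submodule.subset_span ⟨[], rfl, mon_nil⟩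
  | succ n ih =>
    have key : ∀ i : ℕ, ∀ f ∈ Submodule.span ℤ {f : P | ∃ w : List ℕ, w.length = n ∧ mon w = f},
        f * X i ∈ Submodule.span ℤ {f : P | ∃ w : List ℕ, w.length = n + 1 ∧ mon w = f} := by
      intro i f hf
      refine Submodule.span_induction (p := fun f _ => f * X i ∈
        Submodule.span ℤ {f : P | ∃ w : List ℕ, w.length = n + 1 ∧ mon w = f}) ?_ ?_ ?_ ?_ hf
      · rintro _ ⟨w, hw, rfl⟩
        refine Submodule.subset_span ⟨w ++ [i], by simp [hw], ?_⟩
        rw [mon_append, mon_single]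
      · rw [zero_mul]
        exact Submodule.zero_mem _
      · intro x y _ _ hx hy
        rw [add_mul]
        exact Submodule.add_mem _ hx hy
      · intro c x _ hx
        rw [smul_mul_assoc]
        exact Submodule.smul_mem _ _ hx
    rw [pow_succ, mul_add]
    exact Submodule.add_mem _ (key 0 _ ih) (key 1 _ ih)

private theorem gq_ker {n : ℕ} (hn : 3 ≤ n) {f : P}
    (h : f ∈ Submodule.span ℤ {f : P | ∃ w : List ℕ, w.length = n ∧ mon w = f}) :
    wp (fun w => w.length ≤ 2) f = 0 := by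
  have h0 : Submodule.span ℤ {f : P | ∃ w : List ℕ, w.length = n ∧ mon w = f} ≤
      LinearMap.ker (wp (fun w => w.length ≤ 2)) := by
    refine Submodule.span_le.2 ?_
    rintro _ ⟨w, hw, rfl⟩
    exact LinearMap.mem_ker.2 (wp_neg (by show ¬ w.length ≤ 2; omega))
  exact LinearMap.mem_ker.1 (h0 h)

theorem NPt_pow {p : ℕ} (hp : p.Prime) (h3 : 3 ≤ p) : X 0 ^ (p + 1) ∈ NPt p 0 0 := by
  have h := (NPt_gmem hp h3).2.2.2.1
  have h1 := sb_mem (NPt_isT hp h3 0 0) (φ := fun _ => X 0) (fun _ => X_mem _) h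
  rw [map_add, map_mul, map_mul, map_pow, map_pow, sb_X, sb_X] at h1
  have h2 : X 0 ^ p * X 0 + X 0 * X 0 ^ p = (2 : ℤ) • X 0 ^ (p + 1) := by
    rw [← pow_succ, ← pow_succ', two_smul]
  rw [h2] at h1
  have hnd : ¬ (p : ℤ) ∣ 2 := by
    intro h
    have := Int.le_of_dvd (by norm_num) h
    omega
  refine cancel hp (NPt_p 0 0).sq hnd ?_ h1
  rw [pow_succ]
  exact Pp_mul_left _ (X_mem 0)

theorem pow_gen {p : ℕ} (hp : p.Prime) (h3 : 3 ≤ p) {D : Submodule ℤ P} (hD : IsT D) (h1 : (p : ℤ) • X 0 ∈ D)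
    (h2 : X 0 * cm 1 2 ∈ D) (h3' : cm 0 1 * X 2 ∈ D) (h4 : X 0 ^ (p + 1) ∈ D) :
    X 0 ^ p * X 1 + X 0 * X 1 ^ p ∈ D := by
  classical
  have hm : Mul p D := by
    intro f hf
    have h := sb_mem hD (φ := fun _ => f) (fun _ => hf) h1
    rwa [map_smul, sb_X] at h
  have e1 : (X 0 + X 1) ^ (p + 1) ∈ D := by
    have h := sb_mem hD (φ := fun _ => X 0 + X 1) (fun _ => Pp.add_mem (X_mem 0) (X_mem 1)) h4
    rwa [map_pow, sb_X] at h
  have e2 : X 1 ^ (p + 1) ∈ D := by
    have h := sb_mem hD (φ := fun _ => X 1) (fun _ => X_mem 1) h4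
    rwa [map_pow, sb_X] at h
  obtain ⟨f, hf⟩ : ∃ f : P, f = (X 0 + X 1) ^ (p + 1) - X 0 ^ (p + 1) - X 1 ^ (p + 1) -
    (X 0 ^ p * X 1 + X 0 * X 1 ^ p) := ⟨_, rfl⟩
  have hr : ∀ (i n : ℕ), X i ^ n = mon (List.replicate n i) := by
    intro i n
    simp [mon]
  have hwp : wp (fun w => w.length ≤ 2) f = 0 := by
    refine gq_ker (n := p + 1) (by omega) ?_
    rw [hf]
    refine Submodule.sub_mem _ (Submodule.sub_mem _ (Submodule.sub_mem _ (gq_pow _) ?_) ?_)
      (Submodule.add_mem _ ?_ ?_)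
    · exact Submodule.subset_span ⟨List.replicate (p + 1) 0, by simp, (hr 0 (p + 1)).symm⟩
    · exact Submodule.subset_span ⟨List.replicate (p + 1) 1, by simp, (hr 1 (p + 1)).symm⟩
    · refine Submodule.subset_span ⟨List.replicate p 0 ++ [1], by simp, ?_⟩
      rw [mon_append, mon_single, hr 0 p]
    · refine Submodule.subset_span ⟨0 :: List.replicate p 1, by simp, ?_⟩
      rw [mon_cons, hr 1 p]
  obtain ⟨G, hG⟩ : ∃ G : MvPolynomial ℕ ℤ, com f = (p : ℤ) • G := by
    obtain ⟨r, hr⟩ := exists_add_pow_prime_eq hp (MvPolynomial.X 0 : MvPolynomial ℕ ℤ) (MvPolynomial.X 1)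
    refine ⟨(MvPolynomial.X 0 + MvPolynomial.X 1) * (MvPolynomial.X 0 * MvPolynomial.X 1 * r), ?_⟩
    rw [hf, map_sub, map_sub, map_sub, map_add, map_mul, map_mul, map_pow, map_pow, map_pow, map_pow, map_pow,
      map_add, gq_com_X, gq_com_X, pow_succ (MvPolynomial.X 0 + MvPolynomial.X 1), hr, zsmul_eq_mul]
    push_cast
    ring
  have hGm : gqB G ∈ Pp := by
    rw [gqB_apply]
    exact Pp.sum_mem fun m _ => Pp.smul_mem _ (gqT_mem m)
  have hfD : f ∈ D := by
    have h := gq_red hD h2 h3' f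
    rw [hwp, sub_zero, hG, map_smul] at h
    have h' := D.add_mem h (hm _ hGm)
    rwa [sub_add_cancel] at h'
  have h5 : X 0 ^ p * X 1 + X 0 * X 1 ^ p = (X 0 + X 1) ^ (p + 1) - X 0 ^ (p + 1) - X 1 ^ (p + 1) - f := by
    rw [hf]
    abel
  rw [h5]
  exact D.sub_mem (D.sub_mem (D.sub_mem e1 h4) e2) hfD

end ADP
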