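import Pool.Agent.ADC.Fin
import Pool.Agent.ADP.FinL
import Pool.Agent.ADP.GenN
import Pool.Agent.ADP.GnN
import Pool.Agent.ADP.Gn2
import Pool.Agent.ADP.Gn3
import Pool.Agent.ADP.Gn3e
import Pool.Agent.ADP.Gn3f

/-!
# ADP-FinR: the almost distributive varieties of rings
-/

namespace ADP

open AD ADN ADA ADC

/-- `N_p` -/
def VNp (p : ℕ) : Set RingObj := AD.Mod {(p : ℤ) • X 0, X 0 * (X 1 * X 2 - X 2 * X 1), (X 0 * X 1 - X 1 * X 0) * X 2,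
  X 0 ^ (p + 1), mon (List.range (p + 2))}

/-- `W_3` -/
def VW3 : Set RingObj := AD.Mod {(3 : ℤ) • X 0, X 0 ^ 3, X 0 * X 1 * X 2 + X 1 * X 2 * X 0 + X 2 * X 0 * X 1,
  X 0 * (X 1 * X 2 - X 2 * X 1) + X 1 * (X 0 * X 2 - X 2 * X 0), mon (List.range 4)}

/-- `E` -/
def VE : Set RingObj := AD.Mod {(9 : ℤ) • X 0, (X 0 * X 1 + X 1 * X 0) * X 2, (3 : ℤ) • (X 0 * (X 1 * X 2 + X 2 * X 1))}

/-- `E'` -/
def VF : Set RingObj := AD.Mod {(9 : ℤ) • X 0, X 0 * (X 1 * X 2 + X 2 * X 1), (3 : ℤ) • ((X 0 * X 1 + X 1 * X 0) * X 2)}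

/-- the polynomials without constant term whose consequences are in `K` -/
def LId (K : Set P) : Set P := {f | aug f = 0 ∧ ∀ φ : P →ₐ[ℤ] P, IsSubst φ → ∀ u v : P, u * φ f * v ∈ K}

theorem LId_eq {K : Set P} (hK : AddS K) : LId K = (LT K : Set P) := by
  ext f
  rw [SetLike.mem_coe, LT_iff hK]
  exact Iff.rfl

/-- `C_p` -/
def VC (p : ℕ) : Set RingObj := AD.Mod (LId (KC p))

/-- `C_2^(l,m)` -/
def VC2 (l m : ℤ) : Set RingObj := AD.Mod (LId (KC2 l m))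

/-- `D` -/
def VT4 : Set RingObj := AD.Mod (LId KT4)

/-- the list -/
def VLA (p : ℕ) : Set (Set RingObj) := {V | V = VU p ∨ V = VNp p ∨ (p ≠ 3 ∧ V = VW p) ∨
  (3 ≤ p ∧ (V = VC p ∨ ∃ k, 1 ≤ k ∧ k < p ∧ V = VG p k)) ∨ (p = 3 ∧ (V = VW3 ∨ V = VE ∨ V = VF)) ∨
  (p = 2 ∧ (V = VT4 ∨ ∃ l m : ℤ, (l = 0 ∨ l = 1) ∧ (m = 0 ∨ m = 1) ∧ V = VC2 l m))}

theorem VNp_eq {p : ℕ} (hp : p.Prime) (h3 : 3 ≤ p) : VNp p = AD.Mod (NPt p 0 0 : Set P) := by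
  refine Mod_eq (NPt_isT hp h3 0 0) ?_ ?_
  · rintro f (rfl | rfl | rfl | rfl | rfl)
    · exact (NPt_gmem hp h3).1
    · exact (NPt_gmem hp h3).2.1
    · exact (NPt_gmem hp h3).2.2.1
    · exact NPt_pow hp h3
    · exact (NPt_gmem hp h3).2.2.2.2
  · intro D hD h
    have h1 := h (Or.inl rfl)
    have h2 := h (Or.inr (Or.inl rfl))
    have h4 := h (Or.inr (Or.inr (Or.inl rfl)))
    have h5 := h (Or.inr (Or.inr (Or.inr (Or.inl rfl))))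
    have h6 := h (Or.inr (Or.inr (Or.inr (Or.inr rfl))))
    exact NPt_gen hp h3 hD h1 h2 h4 (pow_gen hp h3 hD h1 h2 h4 h5) h6

theorem VNp_two : VNp 2 = AD.Mod (TN : Set P) := by
  refine Mod_eq TN_isT ?_ ?_
  · rintro f (rfl | rfl | rfl | rfl | rfl)
    · exact TN_gmem.1
    · exact TN_gmem.2.1
    · exact TN_gmem.2.2.1
    · exact TN_gmem.2.2.2.1
    · exact TN_gmem.2.2.2.2
  · intro D hD h
    exact TN_gen hD (h (Or.inl rfl)) (h (Or.inr (Or.inl rfl))) (h (Or.inr (Or.inr (Or.inl rfl))))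
      (h (Or.inr (Or.inr (Or.inr (Or.inl rfl))))) (h (Or.inr (Or.inr (Or.inr (Or.inr rfl)))))

theorem VW_two : VW 2 = AD.Mod (WP 2 : Set P) := by
  refine Mod_eq (WP_isT 2) ?_ ?_
  · rintro f (rfl | rfl | rfl)
    · exact WP_gmem.1
    · exact WP_gmem.2.1
    · exact WP_gmem.2.2
  · intro D hD h
    exact WP2_gen hD (h (Or.inl rfl)) (h (Or.inr (Or.inl rfl))) (h (Or.inr (Or.inr rfl)))

theorem VW3_eq : VW3 = AD.Mod (TM : Set P) := by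
  refine Mod_eq (L7_isT (Or.inr (Or.inr (Or.inl rfl)))) ?_ ?_
  · rintro f (rfl | rfl | rfl | rfl | rfl)
    · exact TM_gmem.1
    · exact TM_gmem.2.1
    · exact TM_gmem.2.2.1
    · exact TM_gmem.2.2.2.1
    · exact TM_gmem.2.2.2.2
  · intro D hD h
    exact TM_gen hD (h (Or.inl rfl)) (h (Or.inr (Or.inl rfl))) (h (Or.inr (Or.inr (Or.inl rfl))))
      (h (Or.inr (Or.inr (Or.inr (Or.inl rfl))))) (h (Or.inr (Or.inr (Or.inr (Or.inr rfl)))))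

theorem VE_eq : VE = AD.Mod (TE : Set P) := by
  refine Mod_eq (L7_isT (Or.inr (Or.inr (Or.inr (Or.inr (Or.inr (Or.inl rfl))))))) ?_ ?_
  · rintro f (rfl | rfl | rfl)
    · exact TE_gmem.1
    · exact TE_gmem.2.1
    · exact TE_gmem.2.2
  · intro D hD h
    exact TE_gen hD (h (Or.inl rfl)) (h (Or.inr (Or.inl rfl))) (h (Or.inr (Or.inr rfl)))

theorem VF_eq : VF = AD.Mod (TF : Set P) := by
  refine Mod_eq (L7_isT (Or.inr (Or.inr (Or.inr (Or.inr (Or.inr (Or.inr rfl))))))) ?_ ?_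
  · rintro f (rfl | rfl | rfl)
    · exact TF_gmem.1
    · exact TF_gmem.2.1
    · exact TF_gmem.2.2
  · intro D hD h
    exact TF_gen hD (h (Or.inl rfl)) (h (Or.inr (Or.inl rfl))) (h (Or.inr (Or.inr rfl)))

theorem VC_eq (p : ℕ) : VC p = AD.Mod (CP p : Set P) := by
  unfold VC
  rw [LId_eq (KC_add p)]
  rfl

theorem VC2_eq (l m : ℤ) : VC2 l m = AD.Mod (C2 l m : Set P) := by
  unfold VC2
  rw [LId_eq (KC2_add l m)]
  rfl

theorem VT4_eq : VT4 = AD.Mod (T4 : Set P) := by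
  unfold VT4
  rw [LId_eq KT4_add]
  rfl

theorem VLA_iff {p : ℕ} (hp : p.Prime) {V : Set RingObj} : V ∈ VLA p ↔ ∃ E ∈ LA p, V = AD.Mod (E : Set P) := by
  have h4 : p ≠ 4 := by
    rintro rfl
    norm_num at hp
  have h2 := hp.two_le
  rcases eq_or_ne p 2 with rfl | hne
  · constructor
    · rintro (rfl | rfl | ⟨-, rfl⟩ | ⟨h, -⟩ | ⟨h, -⟩ | ⟨-, rfl | ⟨l, m, hl, hm, rfl⟩⟩)
      · exact ⟨_, Or.inl ⟨rfl, Or.inl (Or.inl rfl)⟩, VU_eq hp⟩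
      · exact ⟨_, Or.inl ⟨rfl, Or.inl (Or.inr (Or.inr rfl))⟩, VNp_two⟩
      · exact ⟨_, Or.inl ⟨rfl, Or.inl (Or.inr (Or.inl rfl))⟩, VW_two⟩
      · omega
      · omega
      · exact ⟨_, Or.inl ⟨rfl, Or.inr (Or.inl rfl)⟩, VT4_eq⟩
      · exact ⟨_, Or.inl ⟨rfl, Or.inr (Or.inr ⟨l, m, hl, hm, rfl⟩)⟩, VC2_eq l m⟩
    · rintro ⟨E, ⟨-, (rfl | rfl | rfl) | rfl | ⟨l, m, hl, hm, rfl⟩⟩ | ⟨h, -⟩ | ⟨h, -⟩, rfl⟩
      · exact Or.inl (VU_eq hp).symm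
      · exact Or.inr (Or.inr (Or.inl ⟨by norm_num, VW_two.symm⟩))
      · exact Or.inr (Or.inl VNp_two.symm)
      · exact Or.inr (Or.inr (Or.inr (Or.inr (Or.inr ⟨rfl, Or.inl VT4_eq.symm⟩))))
      · exact Or.inr (Or.inr (Or.inr (Or.inr (Or.inr ⟨rfl, Or.inr ⟨l, m, hl, hm, (VC2_eq l m).symm⟩⟩))))
      · omega
      · omega
  rcases eq_or_ne p 3 with rfl | hne3
  · constructor
    · rintro (rfl | rfl | ⟨h, -⟩ | ⟨-, rfl | ⟨k, h1, h3, rfl⟩⟩ | ⟨-, rfl | rfl | rfl⟩ | ⟨h, -⟩)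
      · exact ⟨_, Or.inr (Or.inl ⟨rfl, Or.inl (Or.inl rfl)⟩), VU_eq hp⟩
      · exact ⟨_, Or.inr (Or.inl ⟨rfl, Or.inl (Or.inr (Or.inl rfl))⟩), VNp_eq hp le_rfl⟩
      · omega
      · exact ⟨_, Or.inr (Or.inl ⟨rfl, Or.inr rfl⟩), VC_eq 3⟩
      · have hk : k = 1 ∨ k = 2 := by omega
        rcases hk with rfl | rfl
        · exact ⟨_, Or.inr (Or.inl ⟨rfl, Or.inl (Or.inr (Or.inr (Or.inr (Or.inl rfl))))⟩), VG_eq (by norm_num)⟩
        · exact ⟨_, Or.inr (Or.inl ⟨rfl, Or.inl (Or.inr (Or.inr (Or.inr (Or.inr (Or.inl rfl)))))⟩), VG_eq (by norm_num)⟩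
      · exact ⟨_, Or.inr (Or.inl ⟨rfl, Or.inl (Or.inr (Or.inr (Or.inl rfl)))⟩), VW3_eq⟩
      · exact ⟨_, Or.inr (Or.inl ⟨rfl, Or.inl (Or.inr (Or.inr (Or.inr (Or.inr (Or.inr (Or.inl rfl))))))⟩), VE_eq⟩
      · exact ⟨_, Or.inr (Or.inl ⟨rfl, Or.inl (Or.inr (Or.inr (Or.inr (Or.inr (Or.inr (Or.inr rfl))))))⟩), VF_eq⟩
      · omega
    · rintro ⟨E, ⟨h, -⟩ | ⟨-, (rfl | rfl | rfl | rfl | rfl | rfl | rfl) | rfl⟩ | ⟨h, -⟩, rfl⟩
      · omega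
      · exact Or.inl (VU_eq hp).symm
      · exact Or.inr (Or.inl (VNp_eq hp le_rfl).symm)
      · exact Or.inr (Or.inr (Or.inr (Or.inr (Or.inl ⟨rfl, Or.inl VW3_eq.symm⟩))))
      · exact Or.inr (Or.inr (Or.inr (Or.inl ⟨le_rfl, Or.inr ⟨1, le_rfl, by norm_num, (VG_eq (by norm_num)).symm⟩⟩)))
      · exact Or.inr (Or.inr (Or.inr (Or.inl ⟨le_rfl, Or.inr ⟨2, by norm_num, by norm_num, (VG_eq (by norm_num)).symm⟩⟩)))
      · exact Or.inr (Or.inr (Or.inr (Or.inr (Or.inl ⟨rfl, Or.inr (Or.inl VE_eq.symm)⟩))))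
      · exact Or.inr (Or.inr (Or.inr (Or.inr (Or.inl ⟨rfl, Or.inr (Or.inr VF_eq.symm)⟩))))
      · exact Or.inr (Or.inr (Or.inr (Or.inl ⟨le_rfl, Or.inl (VC_eq 3).symm⟩)))
      · omega
  · have h5 : 5 ≤ p := by omega
    constructor
    · rintro (rfl | rfl | ⟨-, rfl⟩ | ⟨-, rfl | ⟨k, h1, h3, rfl⟩⟩ | ⟨h, -⟩ | ⟨h, -⟩)
      · exact ⟨_, Or.inr (Or.inr ⟨h5, Or.inl (Or.inl rfl)⟩), VU_eq hp⟩
      · exact ⟨_, Or.inr (Or.inr ⟨h5, Or.inl (Or.inr (Or.inr (Or.inl rfl)))⟩), VNp_eq hp (by omega)⟩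
      · exact ⟨_, Or.inr (Or.inr ⟨h5, Or.inl (Or.inr (Or.inl rfl))⟩), VW_eq hp h5⟩
      · exact ⟨_, Or.inr (Or.inr ⟨h5, Or.inr rfl⟩), VC_eq p⟩
      · exact ⟨_, Or.inr (Or.inr ⟨h5, Or.inl (Or.inr (Or.inr (Or.inr ⟨k, h1, h3, rfl⟩)))⟩), VG_eq (by omega)⟩
      · omega
      · omega
    · rintro ⟨E, ⟨h, -⟩ | ⟨h, -⟩ | ⟨-, (rfl | rfl | rfl | ⟨k, h1, h3, rfl⟩) | rfl⟩, rfl⟩
      · omega
      · omega
      · exact Or.inl (VU_eq hp).symm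
      · exact Or.inr (Or.inr (Or.inl ⟨by omega, (VW_eq hp h5).symm⟩))
      · exact Or.inr (Or.inl (VNp_eq hp (by omega)).symm)
      · exact Or.inr (Or.inr (Or.inr (Or.inl ⟨by omega, Or.inr ⟨k, h1, h3, (VG_eq (by omega)).symm⟩⟩)))
      · exact Or.inr (Or.inr (Or.inr (Or.inl ⟨by omega, Or.inl (VC_eq p).symm⟩)))

theorem VLA_alm {V : Set RingObj} : AlmostDistributive V ↔ ∃ p : ℕ, p.Prime ∧ V ∈ VLA p := by
  constructor
  · intro hV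
    obtain ⟨I, hI, rfl⟩ := almDist_of hV
    obtain ⟨p, hp, h⟩ := alm_iff.1 hI
    exact ⟨p, hp, (VLA_iff hp).2 ⟨I, h, rfl⟩⟩
  · rintro ⟨p, hp, h⟩
    obtain ⟨E, hE, rfl⟩ := (VLA_iff hp).1 h
    exact almDist_mod (alm_iff.2 ⟨p, hp, hE⟩)

/-! ### the number of varieties -/

theorem N5_card : N5.ncard = 5 := by
  have h0 : N5 = insert T4 ((fun x : ℤ × ℤ => C2 x.1 x.2) '' ((({0, 1} : Finset ℤ) ×ˢ ({0, 1} : Finset ℤ) : Finset (ℤ × ℤ)) : Set (ℤ × ℤ))) := by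
    ext E
    simp only [N5, Set.mem_setOf_eq, Set.mem_insert_iff, Set.mem_image, Finset.mem_coe, Finset.mem_product,
      Finset.mem_insert, Finset.mem_singleton, Prod.exists]
    constructor
    · rintro (h | ⟨l, m, hl, hm, h⟩)
      · exact Or.inl h
      · exact Or.inr ⟨l, m, ⟨hl, hm⟩, h.symm⟩
    · rintro (h | ⟨l, m, ⟨hl, hm⟩, h⟩)
      · exact Or.inl h
      · exact Or.inr ⟨l, m, hl, hm, h.symm⟩
  have hfin : ((fun x : ℤ × ℤ => C2 x.1 x.2) '' ((({0, 1} : Finset ℤ) ×ˢ ({0, 1} : Finset ℤ) : Finset (ℤ × ℤ)) : Set (ℤ × ℤ))).Finite :=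
    (Finset.finite_toSet _).image _
  rw [h0, Set.ncard_insert_of_notMem _ hfin, Set.ncard_image_of_injOn, Set.ncard_coe_finset]
  · rfl
  · rintro ⟨l, m⟩ hx ⟨l', m'⟩ hy h
    simp only [Finset.mem_coe, Finset.mem_product, Finset.mem_insert, Finset.mem_singleton] at hx hy
    obtain ⟨h1, h2⟩ := C2_C2 (le_of_eq h)
    ext
    · show l = l'
      omega
    · show m = m'
      omega
  · rintro ⟨⟨l, m⟩, -, h⟩
    exact T4_C2 l m h.ge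

theorem LA_card {p : ℕ} (hp : p.Prime) : (LA p).ncard = if p = 2 then 8 else p + (if p = 3 then 5 else 3) := by
  have h4 : p ≠ 4 := by
    rintro rfl
    norm_num at hp
  have h2 := hp.two_le
  rcases eq_or_ne p 2 with rfl | hne
  · have h0 : LA 2 = M3 ∪ N5 := by
      ext E
      constructor
      · rintro (⟨-, h⟩ | ⟨h, -⟩ | ⟨h, -⟩)
        · exact h
        · omega
        · omega
      · exact fun h => Or.inl ⟨rfl, h⟩
    have f1 : M3.Finite := Set.finite_of_ncard_ne_zero (by rw [M3_card]; norm_num)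
    have f2 : N5.Finite := Set.finite_of_ncard_ne_zero (by rw [N5_card]; norm_num)
    rw [if_pos rfl, h0, Set.ncard_union_eq ?_ f1 f2, M3_card, N5_card]
    rw [Set.disjoint_left]
    exact fun E h1 h2 => N5_Fge h2 (M3_Fge h1)
  rcases eq_or_ne p 3 with rfl | hne3
  · have h0 : LA 3 = insert (CP 3) L7 := by
      ext E
      constructor
      · rintro (⟨h, -⟩ | ⟨-, h⟩ | ⟨h, -⟩)
        · omega
        · exact h.symm
        · omega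
      · exact fun h => Or.inr (Or.inl ⟨rfl, h.symm⟩)
    have f1 : L7.Finite := Set.finite_of_ncard_ne_zero (by rw [L7_ne]; norm_num)
    rw [if_neg (by norm_num), if_pos rfl, h0, Set.ncard_insert_of_notMem _ f1, L7_ne]
    exact fun h => CP_Fge Nat.prime_three le_rfl (L7_Fge h)
  · have h5 : 5 ≤ p := by omega
    have h0 : LA p = insert (CP p) (Lst p) := by
      ext E
      constructor
      · rintro (⟨h, -⟩ | ⟨h, -⟩ | ⟨-, h⟩)
        · omega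
        · omega
        · exact h.symm
      · exact fun h => Or.inr (Or.inr ⟨h5, h.symm⟩)
    have f1 : (Lst p).Finite := Set.finite_of_ncard_ne_zero (by rw [Lst_card hp h5]; omega)
    rw [if_neg hne, if_neg hne3, h0, Set.ncard_insert_of_notMem _ f1, Lst_card hp h5]
    exact fun h => Lst_near hp h5 h (CP_alm hp (by omega)) le_rfl (CP_p p) (Submodule.mem_sup_left (CP_cm p))

theorem VLA_card {p : ℕ} (hp : p.Prime) : (VLA p).ncard = if p = 2 then 8 else p + (if p = 3 then 5 else 3) := by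
  have h : VLA p = (fun E : Submodule ℤ P => AD.Mod (E : Set P)) '' LA p := by
    ext V
    rw [VLA_iff hp]
    constructor
    · rintro ⟨E, hE, rfl⟩
      exact ⟨E, hE, rfl⟩
    · rintro ⟨E, hE, rfl⟩
      exact ⟨E, hE, rfl⟩
  rw [h, Set.ncard_image_of_injOn, LA_card hp]
  intro E hE E' hE' h
  exact mod_inj ((LA_iff hp).2 hE).1.1 ((LA_iff hp).2 hE').1.1 h

end ADP
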