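import Pool.Agent.AD.Trans
import Pool.Agent.ADP.FinR
import Pool.Agent.ADQ.Gen

/-!
# ADP-GR: the variety generated by the quotient of the free ring by the largest ideal in `K`
-/

namespace ADP

open AD ADN ADA ADC

/-- the free ring without identity element -/
def FR : NonUnitalSubring P where
  carrier := {f | aug f = 0}
  add_mem' := fun {a b} ha hb => by
    show aug (a + b) = 0
    rw [map_add, show aug a = 0 from ha, show aug b = 0 from hb, add_zero]
  zero_mem' := map_zero _
  neg_mem' := fun {a} ha => by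
    show aug (-a) = 0
    rw [map_neg, show aug a = 0 from ha, neg_zero]
  mul_mem' := fun {a b} ha _ => by
    show aug (a * b) = 0
    rw [map_mul, show aug a = 0 from ha, zero_mul]

/-- the largest ideal in `K` -/
noncomputable def LI (K : Set P) : TwoSidedIdeal FR := sSup {I | ∀ f ∈ I, (f : P) ∈ K}

/-- the quotient ring -/
noncomputable def QR (K : Set P) : RingObj := ⟨(LI K).ringCon.Quotient, inferInstance⟩

theorem mem_LI {K : Set P} (hK : AddS K) {f : FR} : f ∈ LI K ↔ ∀ u v : P, u * (f : P) * v ∈ K := by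
  let J : TwoSidedIdeal FR := .mk' {f | ∀ u v : P, u * (f : P) * v ∈ K}
    (fun u v => by
      show u * (0 : P) * v ∈ K
      rw [mul_zero, zero_mul]
      exact hK.1)
    (fun {a b} ha hb u v => by
      show u * ((a : P) + (b : P)) * v ∈ K
      rw [mul_add, add_mul]
      exact hK.2.1 _ (ha u v) _ (hb u v))
    (fun {a} ha u v => by
      show u * (-(a : P)) * v ∈ K
      rw [mul_neg, neg_mul]
      exact hK.2.2 _ (ha u v))
    (fun {a b} hb u v => by
      show u * ((a : P) * (b : P)) * v ∈ K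
      rw [← mul_assoc]
      exact hb (u * a) v)
    (fun {a b} ha u v => by
      show u * ((a : P) * (b : P)) * v ∈ K
      rw [← mul_assoc, mul_assoc]
      exact ha u (b * v))
  have hJ : ∀ f : FR, f ∈ J ↔ ∀ u v : P, u * (f : P) * v ∈ K := fun f => TwoSidedIdeal.mem_mk' ..
  have h1 : LI K ≤ J := by
    refine sSup_le fun I hI => ?_
    intro g hg
    refine (hJ g).2 fun u v => ?_
    -- decompose `u`, `v`
    have hu : u = (u - algebraMap ℤ P (aug u)) + algebraMap ℤ P (aug u) := by abel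
    have hv : v = (v - algebraMap ℤ P (aug v)) + algebraMap ℤ P (aug v) := by abel
    have hu0 : aug (u - algebraMap ℤ P (aug u)) = 0 := by simp
    have hv0 : aug (v - algebraMap ℤ P (aug v)) = 0 := by simp
    have hzs : ∀ (n : ℤ) (w : FR), w ∈ I → n • w ∈ I := fun n w hw => I.zsmul_mem n hw
    have key : ∀ w : FR, w ∈ I → ∃ w' : FR, w' ∈ I ∧ (w' : P) = (w : P) * v := by
      intro w hw
      refine ⟨w * ⟨_, hv0⟩ + aug v • w, I.add_mem (I.mul_mem_right _ _ hw) (hzs _ _ hw), ?_⟩
      conv_rhs => rw [hv]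
      show (w : P) * (v - algebraMap ℤ P (aug v)) + aug v • (w : P) = _
      rw [mul_add, eq_intCast, zsmul_eq_mul, (Int.cast_commute (aug v) (w : P)).eq]
    have key2 : ∀ w : FR, w ∈ I → ∃ w' : FR, w' ∈ I ∧ (w' : P) = u * (w : P) := by
      intro w hw
      refine ⟨⟨_, hu0⟩ * w + aug u • w, I.add_mem (I.mul_mem_left _ _ hw) (hzs _ _ hw), ?_⟩
      conv_rhs => rw [hu]
      show (u - algebraMap ℤ P (aug u)) * (w : P) + aug u • (w : P) = _
      rw [add_mul, eq_intCast, zsmul_eq_mul]
    obtain ⟨w1, hw1, e1⟩ := key2 g hg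
    obtain ⟨w2, hw2, e2⟩ := key w1 hw1
    rw [← e1, ← e2]
    exact hI w2 hw2
  have h2 : J ≤ LI K := by
    refine le_sSup ?_
    intro g hg
    have := (hJ g).1 hg 1 1
    rwa [one_mul, mul_one] at this
  rw [← hJ]
  exact ⟨fun h => h1 h, fun h => h2 h⟩

/-- identities of the quotient of the free ring by an ideal -/
theorem sat_quot (J : TwoSidedIdeal FR) {f : P} (hf : aug f = 0) :
    Sat J.ringCon.Quotient f ↔ ∀ φ : P →ₐ[ℤ] P, IsSubst φ → ∃ g : FR, (g : P) = φ f ∧ g ∈ J := by
  let c := J.ringCon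
  let q : FR → c.Quotient := fun s => (s : c.Quotient)
  have hq : ∀ s : FR, q s = 0 ↔ s ∈ J := by
    intro s
    have h1 : q s = 0 ↔ q s = q 0 := Iff.rfl
    rw [h1]
    show ((s : c.Quotient) = ((0 : FR) : c.Quotient)) ↔ _
    rw [RingCon.eq]
    exact (TwoSidedIdeal.mem_iff J s).symm
  have qs : Function.Surjective q := by
    intro x
    induction x using Quotient.inductionOn with
    | _ s => exact ⟨s, rfl⟩
  have key : ∀ (w : ℕ → FR) (f : P), ∃ u : FR,
      (u : P) = FreeAlgebra.lift ℤ (fun i => (w i : P)) f - algebraMap ℤ P (aug f) ∧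
      FreeAlgebra.lift ℤ (fun i => ((q (w i) : c.Quotient) : Unitization ℤ c.Quotient)) f =
        Unitization.inl (aug f) + ((q u : c.Quotient) : Unitization ℤ c.Quotient) := by
    intro w f
    induction f using FreeAlgebra.induction with
    | grade0 r =>
      refine ⟨0, ?_, ?_⟩
      · simp
      · have h0 : q 0 = 0 := rfl
        rw [h0]
        simp only [AlgHom.commutes]
        rw [Unitization.algebraMap_eq_inl]
        simp
    | grade1 i =>
      refine ⟨w i, ?_, ?_⟩
      · simp [aug]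
      · simp [aug]
    | mul f g hf hg =>
      obtain ⟨u, hu, hu'⟩ := hf
      obtain ⟨v, hv, hv'⟩ := hg
      refine ⟨u * v + aug f • v + aug g • u, ?_, ?_⟩
      · have hu2 : FreeAlgebra.lift ℤ (fun i => (w i : P)) f =
            (u : P) + algebraMap ℤ P (aug f) := by rw [hu]; abel
        have hv2 : FreeAlgebra.lift ℤ (fun i => (w i : P)) g =
            (v : P) + algebraMap ℤ P (aug g) := by rw [hv]; abel
        rw [map_mul, map_mul, hu2, hv2, map_mul]
        push_cast
        rw [eq_intCast, eq_intCast, zsmul_eq_mul, zsmul_eq_mul, add_mul, mul_add, mul_add,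
          (Int.cast_commute (aug g) (u : P)).eq]
        abel
      · have e : q (u * v + aug f • v + aug g • u) = q u * q v + aug f • q v + aug g • q u := by
          rfl
        rw [map_mul, hu', hv', e, map_mul]
        rw [add_mul, mul_add, mul_add, ← Unitization.inl_mul, Unitization.inl_mul_inr,
          Unitization.inr_mul_inl, ← Unitization.inr_mul, Unitization.inr_add,
          Unitization.inr_add]
        abel
    | add f g hf hg =>
      obtain ⟨u, hu, hu'⟩ := hf
      obtain ⟨v, hv, hv'⟩ := hg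
      refine ⟨u + v, ?_, ?_⟩
      · push_cast
        rw [hu, hv, map_add, map_add, map_add]
        abel
      · have e : q (u + v) = q u + q v := rfl
        rw [map_add, hu', hv', e, map_add]
        ext <;> simp
  constructor
  · intro h φ hφ
    obtain ⟨u, hu, hu'⟩ := key (fun i => ⟨φ (X i), hφ i⟩) f
    have h1 := h (fun i => q ⟨φ (X i), hφ i⟩)
    rw [h1, hf] at hu'
    have h2 : q u = 0 := by
      have := congrArg (fun x => x.snd) hu'
      simpa using this.symm
    have h3 : FreeAlgebra.lift ℤ (fun i => φ (X i)) = φ := by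
      ext i
      simp
    rw [hf, map_zero, sub_zero, h3] at hu
    exact ⟨u, hu, (hq u).1 h2⟩
  · intro h a
    choose w hw using fun i => qs (a i)
    obtain ⟨u, hu, hu'⟩ := key w f
    obtain ⟨g, hg, hgJ⟩ := h (FreeAlgebra.lift ℤ (fun i => (w i : P))) (fun i => by
      rw [FreeAlgebra.lift_ι_apply]; exact (w i).2)
    rw [hf, map_zero, sub_zero] at hu
    rw [← hu] at hg
    have hgu : g = u := Subtype.ext hg
    rw [hgu] at hgJ
    have h2 : q u = 0 := (hq u).2 hgJ
    rw [hf, h2] at hu'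
    have h3 : (fun i => ((a i : c.Quotient) : Unitization ℤ c.Quotient)) =
        fun i => ((q (w i) : c.Quotient) : Unitization ℤ c.Quotient) := by
      funext i; rw [hw]
    rw [h3, hu']
    simp

/-- the identities of `F/I`, `I` the largest ideal in `K` -/
theorem Th_QR {K : Set P} (hK : AddS K) : Th {QR K} = LId K := by
  ext f
  constructor
  · rintro ⟨h1, h2⟩
    have hf : aug f = 0 := h1
    refine ⟨hf, fun φ hφ u v => ?_⟩
    obtain ⟨g, hg, hgJ⟩ := (sat_quot (LI K) hf).1 (h2 _ rfl) φ hφ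
    rw [← hg]
    exact (mem_LI hK).1 hgJ u v
  · rintro ⟨h1, h2⟩
    refine ⟨h1, ?_⟩
    rintro R rfl
    refine (sat_quot (LI K) h1).2 fun φ hφ => ?_
    have h3 : aug (φ f) = 0 := by
      have e : aug.comp φ = aug := by
        ext i
        show aug (φ (X i)) = aug (X i)
        rw [hφ i]
        exact (X_mem i).symm
      have e2 := congrArg (fun ψ : P →ₐ[ℤ] ℤ => ψ f) e
      simpa [h1] using e2
    exact ⟨⟨φ f, h3⟩, rfl, (mem_LI hK).2 (h2 φ hφ)⟩

theorem Mod_QR {K : Set P} (hK : AddS K) : AD.Mod (Th {QR K}) = AD.Mod (LId K) := by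
  rw [Th_QR hK]

/-! ### the rings are finite -/

/-- the additive subgroup -/
private def gr_sub {K : Set P} (hK : AddS K) : AddSubgroup P where
  carrier := K
  zero_mem' := hK.1
  add_mem' := fun {a b} ha hb => hK.2.1 a ha b hb
  neg_mem' := fun {a} ha => hK.2.2 a ha

theorem finite_QR {K : Set P} (hK : AddS K) {n N M : ℕ} (hM : M ≠ 0) (hm : ∀ f : P, (M : ℤ) • f ∈ K)
    (hw : ∀ w : List ℕ, (N ≤ w.length ∨ ∃ i ∈ w, n ≤ i) → mon w ∈ K) : Finite (QR K).1 := by
  have h := ADQ.finite_Quo (K := gr_sub hK) hM hm hw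
  have e : (LI K).ringCon = ADQ.syn (gr_sub hK) := by
    ext a b
    show (LI K).ringCon a b ↔ ∀ u v : P, u * ((a : P) - (b : P)) * v ∈ K
    rw [TwoSidedIdeal.rel_iff, mem_LI hK]
    exact Iff.rfl
  show Finite (LI K).ringCon.Quotient
  rw [e]
  exact h

theorem com_coeff (w : List ℕ) (m : ℕ →₀ ℕ) (h : (m.degree < w.length) ∨ ∃ i ∈ w, m i = 0) :
    (com (mon w)).coeff m = 0 := by
  have e : ∀ w : List ℕ, com (mon w) = MvPolynomial.monomial (ADA.cnt w) 1 := by
    intro w
    induction w with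
    | nil => rw [mon_nil, map_one]; simp [ADA.cnt]
    | cons a w ih =>
      rw [mon_cons, map_mul, ih, ADA.cnt_cons]
      have hX : com (X a) = MvPolynomial.X a := by simp [com]
      rw [hX, MvPolynomial.X, MvPolynomial.monomial_mul, one_mul]
  have hd : ∀ w : List ℕ, (ADA.cnt w).degree = w.length := by
    intro w
    induction w with
    | nil => simp [ADA.cnt]
    | cons a w ih => rw [ADA.cnt_cons, map_add, ih, Finsupp.degree_single, List.length_cons, add_comm]
  have hc : ∀ (w : List ℕ) (i : ℕ), i ∈ w → ADA.cnt w i ≠ 0 := by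
    intro w i hi
    induction w with
    | nil => simp at hi
    | cons a w ih =>
      rw [ADA.cnt_cons]
      rcases List.mem_cons.1 hi with rfl | hi
      · rw [Finsupp.add_apply, Finsupp.single_eq_same]
        omega
      · rw [Finsupp.add_apply]
        have := ih hi
        omega
  rw [e, MvPolynomial.coeff_monomial, if_neg]
  rintro rfl
  rcases h with h | ⟨i, hi, h⟩
  · rw [hd] at h
    exact lt_irrefl _ h
  · exact hc w i hi h

theorem ct_mon {i j : ℕ} {w : List ℕ} (h : i + j < w.length ∨ ∃ a ∈ w, 2 ≤ a) : ct i j (mon w) = 0 := by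
  refine com_coeff w _ ?_
  rcases h with h | ⟨a, ha, h⟩
  · left
    rw [map_add, Finsupp.degree_single, Finsupp.degree_single]
    exact h
  · right
    refine ⟨a, ha, ?_⟩
    rw [Finsupp.add_apply, Finsupp.single_eq_of_ne (by omega), Finsupp.single_eq_of_ne (by omega), add_zero]

theorem cq_mon {i j k l : ℕ} {w : List ℕ} (h : i + j + k + l < w.length ∨ ∃ a ∈ w, 4 ≤ a) :
    cq i j k l (mon w) = 0 := by
  refine com_coeff w _ ?_
  rcases h with h | ⟨a, ha, h⟩
  · left
    rw [map_add, map_add, map_add, Finsupp.degree_single, Finsupp.degree_single, Finsupp.degree_single,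
      Finsupp.degree_single]
    exact h
  · right
    refine ⟨a, ha, ?_⟩
    rw [Finsupp.add_apply, Finsupp.add_apply, Finsupp.add_apply, Finsupp.single_eq_of_ne (by omega),
      Finsupp.single_eq_of_ne (by omega), Finsupp.single_eq_of_ne (by omega), Finsupp.single_eq_of_ne (by omega),
      add_zero, add_zero, add_zero]

theorem ct_smul (i j : ℕ) (m : ℤ) (g : P) : ct i j (m • g) = m * ct i j g := by
  unfold ct
  rw [map_zsmul, MvPolynomial.coeff_smul, smul_eq_mul]

theorem cq_smul (i j k l : ℕ) (m : ℤ) (g : P) : cq i j k l (m • g) = m * cq i j k l g := by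
  unfold cq
  rw [map_zsmul, MvPolynomial.coeff_smul, smul_eq_mul]

theorem cf10_mon {w : List ℕ} (h : 3 ≤ w.length ∨ ∃ a ∈ w, 2 ≤ a) : cf [1, 0] (mon w) = 0 := by
  rw [cf_mon, if_neg]
  rintro rfl
  rcases h with h | ⟨a, ha, h⟩
  · simp at h
  · simp at ha
    omega

theorem finite_C {p : ℕ} (hp : 0 < p) : Finite (QR (KC p)).1 := by
  refine finite_QR (KC_add p) (n := 2) (N := 4 * p + 10) (M := p) (by omega) (fun f => ?_) (fun w hw => ?_)
  · unfold KC
    split_ifs with h
    · subst h
      refine ⟨?_, ?_, ?_⟩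
      · unfold cc; rw [ct_smul]; exact dvd_mul_right _ _
      · unfold cc; rw [ct_smul, ct_smul]; exact dvd_sub (dvd_mul_right _ _) (dvd_mul_right _ _)
      · unfold cc; rw [ct_smul, ct_smul]; exact dvd_sub (dvd_mul_right _ _) (dvd_mul_right _ _)
    · refine ⟨?_, ?_, ?_⟩
      · unfold cc; rw [ct_smul, ct_smul]
        exact dvd_add (dvd_mul_right _ _) (Dvd.dvd.mul_left (dvd_mul_right _ _) _)
      · unfold cc; rw [ct_smul, ct_smul, ct_smul, ct_smul]
        exact dvd_add (dvd_add (dvd_add (dvd_mul_right _ _) (dvd_mul_right _ _)) (dvd_mul_right _ _)) (dvd_mul_right _ _)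
      · unfold cc; rw [ct_smul, ct_smul, ct_smul]
        exact dvd_add (dvd_sub (dvd_mul_right _ _) (dvd_mul_right _ _)) (Dvd.dvd.mul_left (dvd_mul_right _ _) _)
  · have h0 : ∀ i ≤ 4, cc p i (mon w) = 0 := by
      intro i hi
      refine ct_mon ?_
      rcases hw with hw | hw
      · left
        refine lt_of_lt_of_le ?_ hw
        have h1 : (p - 1) * i + (p - 1) * ((if p = 3 then 3 else 4) - i) ≤ 4 * p := by
          rw [← mul_add]
          have h2 : i + ((if p = 3 then 3 else 4) - i) ≤ 4 := by split_ifs <;> omega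
          calc (p - 1) * (i + ((if p = 3 then 3 else 4) - i)) ≤ p * 4 := Nat.mul_le_mul (by omega) h2
            _ = 4 * p := mul_comm _ _
        omega
      · exact Or.inr hw
    unfold KC
    split_ifs with h
    · subst h
      refine ⟨?_, ?_, ?_⟩
      · rw [h0 3 (by norm_num)]; exact dvd_zero _
      · rw [h0 0 (by norm_num), h0 1 (by norm_num)]; exact dvd_zero _
      · rw [h0 1 (by norm_num), h0 2 (by norm_num)]; exact dvd_zero _
    · refine ⟨?_, ?_, ?_⟩
      · rw [h0 3 (by norm_num), h0 4 (by norm_num)]; exact dvd_zero _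
      · rw [h0 0 (by norm_num), h0 1 (by norm_num), h0 2 (by norm_num), h0 4 (by norm_num)]; exact dvd_zero _
      · rw [h0 0 (by norm_num), h0 2 (by norm_num), h0 4 (by norm_num)]; exact dvd_zero _

theorem finite_C2 (l m : ℤ) : Finite (QR (KC2 l m)).1 := by
  refine finite_QR (KC2_add l m) (n := 2) (N := 7) (M := 2) (by norm_num) (fun f => ?_) (fun w hw => ?_)
  · refine ⟨?_, ?_⟩
    · rw [ct_smul, ct_smul, ct_smul, ct_smul, cf_smul]
      exact ⟨ct 1 4 f + ct 2 3 f + ct 3 2 f + ct 4 1 f + l * cf [1, 0] f, by push_cast; ring⟩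
    · rw [ct_smul, cf_smul]
      exact ⟨ct 3 3 f + m * cf [1, 0] f, by push_cast; ring⟩
  · have h0 : ∀ i j : ℕ, i + j ≤ 6 → ct i j (mon w) = 0 := fun i j h =>
      ct_mon (hw.imp (fun h' => by omega) id)
    have h1 : cf [1, 0] (mon w) = 0 := cf10_mon (hw.imp (fun h' => by omega) id)
    refine ⟨?_, ?_⟩
    · rw [h0 1 4 (by norm_num), h0 2 3 (by norm_num), h0 3 2 (by norm_num), h0 4 1 (by norm_num), h1]
      simp
    · rw [h0 3 3 (by norm_num), h1]
      simp

theorem finite_T4 : Finite (QR KT4).1 := by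
  refine finite_QR KT4_add (n := 4) (N := 7) (M := 2) (by norm_num) (fun f => ?_) (fun w hw => ?_)
  · refine ⟨?_, ?_, ?_⟩
    · rw [cq_smul]; exact dvd_mul_right _ _
    · rw [cq_smul, cq_smul]; exact dvd_sub (dvd_mul_right _ _) (dvd_mul_right _ _)
    · rw [cq_smul, cq_smul, cq_smul]
      exact dvd_add (dvd_add (dvd_mul_right _ _) (dvd_mul_right _ _)) (dvd_mul_right _ _)
  · have h0 : ∀ i j k l : ℕ, i + j + k + l = 6 → cq i j k l (mon w) = 0 := fun i j k l h =>
      cq_mon (hw.imp (fun h' => by omega) id)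
    refine ⟨?_, ?_, ?_⟩
    · rw [h0 3 1 1 1 rfl]; exact dvd_zero _
    · rw [h0 2 2 1 1 rfl, h0 1 1 2 2 rfl]; exact dvd_zero _
    · rw [h0 2 2 1 1 rfl, h0 2 1 2 1 rfl, h0 2 1 1 2 rfl]; exact dvd_zero _

/-- the functionals of `G_(p,k)` -/
def KGd (p k : ℕ) : Set P := {g | (p : ℤ) ∣ fA p k g ∧ (p : ℤ) ^ (2 - k % 2) ∣ fB p k g}

private theorem gr_sum (p : ℕ) (e : Equiv.Perm (Fin p) → ℤ) (c : ℤ) (f g : P) :
    ∑ τ : Equiv.Perm (Fin p), cf (arr p τ) (c • f + g) * e τ =
      c * (∑ τ : Equiv.Perm (Fin p), cf (arr p τ) f * e τ) + ∑ τ : Equiv.Perm (Fin p), cf (arr p τ) g * e τ := by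
  rw [Finset.mul_sum, ← Finset.sum_add_distrib]
  refine Finset.sum_congr rfl fun τ _ => ?_
  rw [cf_add, cf_smul]
  ring

theorem fA_lin (p k : ℕ) (c : ℤ) (f g : P) : fA p k (c • f + g) = c * fA p k f + fA p k g :=
  gr_sum p _ c f g

theorem fB_lin (p k : ℕ) (c : ℤ) (f g : P) : fB p k (c • f + g) = c * fB p k f + fB p k g :=
  gr_sum p _ c f g

theorem fA_zero (p k : ℕ) : fA p k 0 = 0 := by
  have h := fA_lin p k 1 0 0
  rw [smul_zero, zero_add, one_mul] at h
  omega

theorem fB_zero (p k : ℕ) : fB p k 0 = 0 := by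
  have h := fB_lin p k 1 0 0
  rw [smul_zero, zero_add, one_mul] at h
  omega

theorem KGd_add (p k : ℕ) : AddS (KGd p k) := by
  refine ⟨⟨?_, ?_⟩, fun f hf g hg => ⟨?_, ?_⟩, fun f hf => ⟨?_, ?_⟩⟩
  · rw [fA_zero]; exact dvd_zero _
  · rw [fB_zero]; exact dvd_zero _
  · have h := fA_lin p k 1 f g
    rw [one_smul, one_mul] at h
    rw [h]; exact dvd_add hf.1 hg.1
  · have h := fB_lin p k 1 f g
    rw [one_smul, one_mul] at h
    rw [h]; exact dvd_add hf.2 hg.2
  · have h := fA_lin p k (-1) f 0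
    rw [add_zero, neg_one_smul, fA_zero, add_zero, neg_one_mul] at h
    rw [h]; exact (dvd_neg).2 hf.1
  · have h := fB_lin p k (-1) f 0
    rw [add_zero, neg_one_smul, fB_zero, add_zero, neg_one_mul] at h
    rw [h]; exact (dvd_neg).2 hf.2

theorem finite_G {p k : ℕ} (hp : 0 < p) : Finite (QR (KGd p k)).1 := by
  refine finite_QR (KGd_add p k) (n := p) (N := p + 1) (M := p ^ 2) (by positivity) (fun f => ?_) (fun w hw => ?_)
  · have hA := fA_lin p k ((p ^ 2 : ℕ) : ℤ) f 0
    have hB := fB_lin p k ((p ^ 2 : ℕ) : ℤ) f 0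
    rw [add_zero, fA_zero, add_zero] at hA
    rw [add_zero, fB_zero, add_zero] at hB
    refine ⟨?_, ?_⟩
    · rw [hA]
      push_cast
      exact Dvd.dvd.mul_right (dvd_pow_self _ (by norm_num)) _
    · rw [hB]
      push_cast
      exact Dvd.dvd.mul_right (pow_dvd_pow _ (by omega)) _
  · have h0 : ∀ τ : Equiv.Perm (Fin p), cf (arr p τ) (mon w) = 0 := by
      intro τ
      rw [cf_mon, if_neg]
      rintro rfl
      rcases hw with h | ⟨i, hi, h⟩
      · unfold arr at h
        rw [List.length_ofFn] at h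
        omega
      · unfold arr at hi
        rw [List.mem_ofFn] at hi
        obtain ⟨j, rfl⟩ := hi
        have := (τ j).2
        omega
    refine ⟨?_, ?_⟩
    · have : fA p k (mon w) = 0 := Finset.sum_eq_zero fun τ _ => by rw [h0, zero_mul]
      rw [this]; exact dvd_zero _
    · have : fB p k (mon w) = 0 := Finset.sum_eq_zero fun τ _ => by rw [h0, zero_mul]
      rw [this]; exact dvd_zero _

end ADP
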