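import Pool.Agent.ADC.KGs
import Pool.Agent.ADC.TKc
import Pool.Agent.ADP.K3
import Pool.Agent.ADA.Acc

/-!
# ADP-K2: the T-ideals for `p = 2`

`LT K`: the largest T-ideal contained in `K`.  `KN` = the functionals of `N_2`: even coefficients at `x y`, `y x` and an even
sum of the coefficients of the words of content `x^2 y` and `x y^2`.
-/

namespace ADP

open AD ADN ADC

/-- the largest T-ideal contained in `K` -/
noncomputable def LT (K : Set P) : Submodule ℤ P := sSup {D | IsT D ∧ ∀ g ∈ D, g ∈ K}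

/-- the sum of the coefficients of the words with `i` letters `x_0`, `j` letters `x_1` (and no others) -/
noncomputable def ct (i j : ℕ) (g : P) : ℤ := (com g).coeff (Finsupp.single 0 i + Finsupp.single 1 j)

/-- the functionals of `N_2` -/
def KN : Set P := {g | (2 : ℤ) ∣ cf [0,1] g ∧ (2 : ℤ) ∣ cf [1,0] g ∧ (2 : ℤ) ∣ ct 2 1 g + ct 1 2 g}

/-- the T-ideal of `N_2` -/
noncomputable def TN : Submodule ℤ P := LT KN

private theorem smul_memK {K : Set P} (hK : AddS K) (c : ℤ) {f : P} (hf : f ∈ K) : c • f ∈ K := by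
  have h1 : ∀ m : ℕ, (m : ℤ) • f ∈ K := by
    intro m
    induction m with
    | zero => rw [Nat.cast_zero, zero_smul]; exact hK.1
    | succ m ih =>
      rw [Nat.cast_succ, add_smul, one_smul]
      exact hK.2.1 _ ih _ hf
  obtain ⟨m, rfl | rfl⟩ := Int.eq_nat_or_neg c
  · exact h1 m
  · rw [neg_smul]
    exact hK.2.2 _ (h1 m)

/-- the polynomials all of whose consequences lie in `K` -/
private theorem LT_ex {K : Set P} (hK : AddS K) : ∃ J : Submodule ℤ P, IsT J ∧ (∀ g ∈ J, g ∈ K) ∧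
    (∀ g, g ∈ J ↔ (g ∈ Pp ∧ ∀ φ : P →ₐ[ℤ] P, IsSubst φ → ∀ u v : P, u * φ g * v ∈ K)) := by
  obtain ⟨J, hJ⟩ : ∃ J : Submodule ℤ P, ∀ g, g ∈ J ↔ (g ∈ Pp ∧ ∀ φ : P →ₐ[ℤ] P, IsSubst φ →
      ∀ u v : P, u * φ g * v ∈ K) :=
    ⟨{ carrier := {g | g ∈ Pp ∧ ∀ φ : P →ₐ[ℤ] P, IsSubst φ → ∀ u v : P, u * φ g * v ∈ K}
       add_mem' := by
        intro g g' hg hg'
        refine ⟨Pp.add_mem hg.1 hg'.1, fun φ hφ u v => ?_⟩
        rw [map_add, mul_add, add_mul]
        exact hK.2.1 _ (hg.2 φ hφ u v) _ (hg'.2 φ hφ u v)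
       zero_mem' := by
        refine ⟨Pp.zero_mem, fun φ _ u v => ?_⟩
        rw [map_zero, mul_zero, zero_mul]
        exact hK.1
       smul_mem' := by
        intro c g hg
        refine ⟨Pp.smul_mem c hg.1, fun φ hφ u v => ?_⟩
        rw [map_zsmul, mul_smul_comm, smul_mul_assoc]
        exact smul_memK hK c (hg.2 φ hφ u v) }, fun g => Iff.rfl⟩
  refine ⟨J, ?_, ?_, hJ⟩
  · refine ⟨fun g hg => ((hJ g).1 hg).1, ?_, ?_, ?_⟩
    · intro g hg g'
      rw [hJ] at hg ⊢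
      refine ⟨isT_Pp.mul_right g hg.1 g', fun φ hφ u v => ?_⟩
      have e : u * φ (g * g') * v = u * φ g * (φ g' * v) := by
        rw [map_mul]
        simp only [mul_assoc]
      rw [e]
      exact hg.2 φ hφ _ _
    · intro g hg g'
      rw [hJ] at hg ⊢
      refine ⟨isT_Pp.mul_left g hg.1 g', fun φ hφ u v => ?_⟩
      have e : u * φ (g' * g) * v = (u * φ g') * φ g * v := by
        rw [map_mul]
        simp only [mul_assoc]
      rw [e]
      exact hg.2 φ hφ _ _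
    · intro ψ hψ g hg
      rw [hJ] at hg ⊢
      refine ⟨isT_Pp.subst ψ hψ g hg.1, fun φ hφ u v => ?_⟩
      exact hg.2 (φ.comp ψ) (fun i => isT_Pp.subst φ hφ _ (hψ i)) u v
  · intro g hg
    have h1 := ((hJ g).1 hg).2 (AlgHom.id ℤ P) (fun i => X_mem i) 1 1
    rw [one_mul, mul_one, AlgHom.id_apply] at h1
    exact h1

private theorem LT_eq {K : Set P} {J : Submodule ℤ P} (hT : IsT J) (hs : ∀ g ∈ J, g ∈ K)
    (hJ : ∀ g, g ∈ J ↔ (g ∈ Pp ∧ ∀ φ : P →ₐ[ℤ] P, IsSubst φ → ∀ u v : P, u * φ g * v ∈ K)) :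
    LT K = J := by
  refine le_antisymm (sSup_le ?_) (le_sSup ⟨hT, hs⟩)
  rintro D ⟨hD, hDK⟩ g hg
  rw [hJ]
  exact ⟨hD.le hg, fun φ hφ u v => hDK _ (IsT.lm hD u v (hD.subst φ hφ g hg))⟩

theorem LT_isT {K : Set P} (hK : AddS K) : IsT (LT K) := by
  obtain ⟨J, hT, hs, hJ⟩ := LT_ex hK
  rw [LT_eq hT hs hJ]
  exact hT

theorem LT_sub {K : Set P} (hK : AddS K) {g : P} (h : g ∈ LT K) : g ∈ K := by
  obtain ⟨J, hT, hs, hJ⟩ := LT_ex hK
  rw [LT_eq hT hs hJ] at h
  exact hs g h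

theorem le_LT {K : Set P} {J : Submodule ℤ P} (hJ : IsT J) (h : ∀ g ∈ J, g ∈ K) : J ≤ LT K :=
  le_sSup ⟨hJ, h⟩

theorem LT_iff {K : Set P} (hK : AddS K) {f : P} : f ∈ LT K ↔ f ∈ Pp ∧
    ∀ φ : P →ₐ[ℤ] P, IsSubst φ → ∀ u v : P, u * φ f * v ∈ K := by
  obtain ⟨J, hT, hs, hJ⟩ := LT_ex hK
  rw [LT_eq hT hs hJ]
  exact hJ f

private theorem ct_add (i j : ℕ) (f g : P) : ct i j (f + g) = ct i j f + ct i j g := by
  unfold ct
  rw [map_add, MvPolynomial.coeff_add]

private theorem ct_smul (i j : ℕ) (c : ℤ) (f : P) : ct i j (c • f) = c * ct i j f := by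
  unfold ct
  rw [map_zsmul]
  exact MvPolynomial.coeff_smul _ _ _

private theorem cf_zero' (w : List ℕ) : cf w (0 : P) = 0 := by
  have h := cf_smul w 0 (0 : P)
  rwa [zero_smul, zero_mul] at h

private theorem ct_zero' (i j : ℕ) : ct i j (0 : P) = 0 := by
  have h := ct_smul i j 0 (0 : P)
  rwa [zero_smul, zero_mul] at h

private theorem com_mon' (w : List ℕ) :
    com (mon w) = MvPolynomial.monomial ((w.map (fun a => Finsupp.single a 1)).sum) (1 : ℤ) := by
  induction w with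
  | nil =>
    rw [mon_nil, map_one]
    rfl
  | cons a w ih =>
    have hX : com (X a) = MvPolynomial.monomial (Finsupp.single a 1) (1 : ℤ) := by
      unfold com
      exact FreeAlgebra.lift_ι_apply _ _
    rw [mon_cons, map_mul, ih, hX, List.map_cons, List.sum_cons, MvPolynomial.monomial_mul, one_mul]

private theorem deg_mon (w : List ℕ) :
    Finsupp.degree ((w.map (fun a => Finsupp.single a 1)).sum : ℕ →₀ ℕ) = w.length := by
  induction w with
  | nil => simp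
  | cons a w ih =>
    rw [List.map_cons, List.sum_cons, map_add, ih, Finsupp.degree_single, List.length_cons, add_comm]

private theorem ct_Fge {i j n : ℕ} (h : i + j < n) {f : P} (hf : f ∈ Fge n) : ct i j f = 0 := by
  unfold Fge at hf
  induction hf using Submodule.span_induction with
  | mem x hx =>
    obtain ⟨w, hw, rfl⟩ := hx
    unfold ct
    rw [com_mon', MvPolynomial.coeff_monomial, if_neg]
    intro e
    have h1 := deg_mon w
    rw [e, map_add, Finsupp.degree_single, Finsupp.degree_single] at h1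
    omega
  | zero => exact ct_zero' i j
  | add x y _ _ hx hy => rw [ct_add, hx, hy, add_zero]
  | smul c x _ hx => rw [ct_smul, hx, mul_zero]

private theorem cf_Fge' {n : ℕ} {w : List ℕ} (h : w.length < n) {f : P} (hf : f ∈ Fge n) : cf w f = 0 := by
  unfold Fge at hf
  induction hf using Submodule.span_induction with
  | mem x hx =>
    obtain ⟨u, hu, rfl⟩ := hx
    rw [cf_mon, if_neg]
    rintro rfl
    omega
  | zero => exact cf_zero' w
  | add x y _ _ hx hy => rw [cf_add, hx, hy, add_zero]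
  | smul c x _ hx => rw [cf_smul, hx, mul_zero]

theorem KN_add : AddS KN := by
  have hs : ∀ c : ℤ, ∀ f ∈ KN, c • f ∈ KN := by
    intro c f hf
    obtain ⟨h1, h2, h3⟩ := hf
    show _ ∧ _ ∧ _
    rw [cf_smul, cf_smul, ct_smul, ct_smul, ← mul_add]
    exact ⟨Dvd.dvd.mul_left h1 _, Dvd.dvd.mul_left h2 _, Dvd.dvd.mul_left h3 _⟩
  refine ⟨?_, fun f hf g hg => ?_, fun f hf => ?_⟩
  · show _ ∧ _ ∧ _
    rw [cf_zero', cf_zero', ct_zero', ct_zero', add_zero]
    exact ⟨dvd_zero _, dvd_zero _, dvd_zero _⟩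
  · obtain ⟨a1, a2, a3⟩ := hf
    obtain ⟨b1, b2, b3⟩ := hg
    show _ ∧ _ ∧ _
    rw [cf_add, cf_add, ct_add, ct_add, add_add_add_comm]
    exact ⟨dvd_add a1 b1, dvd_add a2 b2, dvd_add a3 b3⟩
  · have h := hs (-1) f hf
    rwa [neg_one_smul] at h

theorem TN_isT : IsT TN := LT_isT KN_add

theorem TN_p : Mul 2 TN := by
  intro f hf
  unfold TN
  rw [LT_iff KN_add]
  refine ⟨Pp.smul_mem _ hf, fun φ _ u v => ?_⟩
  rw [map_zsmul, mul_smul_comm, smul_mul_assoc]
  show _ ∧ _ ∧ _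
  rw [cf_smul, cf_smul, ct_smul, ct_smul, ← mul_add]
  exact ⟨dvd_mul_right _ _, dvd_mul_right _ _, dvd_mul_right _ _⟩

theorem TN_Fge : Fge 4 ≤ TN := by
  refine le_LT (isT_Fge 4 (by norm_num)) fun g hg => ?_
  show _ ∧ _ ∧ _
  rw [cf_Fge' (by simp) hg, cf_Fge' (by simp) hg, ct_Fge (by norm_num) hg, ct_Fge (by norm_num) hg, add_zero]
  exact ⟨dvd_zero _, dvd_zero _, dvd_zero _⟩

end ADP
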