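import Pool.Agent.ADC.TOpW
import Pool.Agent.ADC.Lkb
import Pool.Agent.ADA.Acc
import Pool.Agent.ADP.Base

/-!
# ADP-Nf2: normal form of linked elements, any prime (used for `p = 2`)

`fw n w`: `w` is a word in exactly the letters `0, ..., n-1`.  This is the part of ADC.Nf before `nf_fin` (copy the private lemmas `nf_wp_zero`, ..., `Dl_full` and the proof of `nf` without the last step
`nf_fin`; there `nfw = fw`).  `TOp_fw` is `TOp_nfw` there.
* `Qf_rep`: a word `w` with `fw n w` which is not a permutation of `range n` has a repeated letter and `n < w.length`; conversely `fw n w`, `w.length ≤ n` implies `w.Perm (List.range n)`.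
* `lift`: `f ∈ Qf n`, `f ∈ J ⊔ Fge m` implies `f ∈ J ⊔ (span of the words w with fw n w, m ≤ w.length)`: apply `wp (fw n)`.
-/

namespace ADP

open AD ADN ADC ADA

/-- the words in exactly the letters `0, ..., n-1` -/
def fw (n : ℕ) (w : List ℕ) : Prop := (∀ i ∈ w, i < n) ∧ ∀ i < n, i ∈ w

/-- their span -/
noncomputable def Qf (n : ℕ) : Submodule ℤ P := Submodule.span ℤ {f | ∃ w, fw n w ∧ f = mon w}

private theorem nf_wp_zero {φ : List ℕ → Prop} (h : ∀ w, ¬ φ w) (f : P) : wp φ f = 0 := by
  refine ind_mon (C := fun f => wp φ f = 0) (by simp) ?_ ?_ ?_ f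
  · intro f g hf hg; rw [map_add, hf, hg, add_zero]
  · intro c f hf; rw [map_smul, hf, smul_zero]
  · intro w; exact wp_neg (h w)

private theorem nf_wp_id {φ : List ℕ → Prop} (h : ∀ w, φ w) (f : P) : wp φ f = f := by
  refine ind_mon (C := fun f => wp φ f = f) (by simp) ?_ ?_ ?_ f
  · intro f g hf hg; rw [map_add, hf, hg]
  · intro c f hf; rw [map_smul, hf]
  · intro w; exact wp_pos (h w)

private noncomputable def kp (n : ℕ) : P →ₐ[ℤ] P := sb (fun j => if n ≤ j then 0 else X j)

private theorem kp_lt {n j : ℕ} (h : j < n) : kp n (X j) = X j := by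
  unfold kp
  rw [sb_X, if_neg (by omega)]

private theorem kp_ge {n j : ℕ} (h : n ≤ j) : kp n (X j) = 0 := by
  unfold kp
  rw [sb_X, if_pos h]

private theorem kp_mon (n : ℕ) (w : List ℕ) :
    kp n (mon w) = wp (fun w => ∀ i ∈ w, i < n) (mon w) := by
  induction w with
  | nil => rw [wp_pos (by simp), mon_nil, map_one]
  | cons a w ih =>
    rw [mon_cons, map_mul, ih]
    by_cases h : a < n
    · rw [kp_lt h]
      by_cases h' : ∀ i ∈ w, i < n
      · have h1 : ∀ i ∈ a :: w, i < n := by
          intro i hi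
          rcases List.mem_cons.1 hi with e | e
          · rw [e]; exact h
          · exact h' i e
        rw [wp_pos (φ := fun w => ∀ i ∈ w, i < n) h', ← mon_cons,
          wp_pos (φ := fun w => ∀ i ∈ w, i < n) h1]
      · have h1 : ¬ ∀ i ∈ a :: w, i < n := fun e => h' fun i hi => e i (List.mem_cons_of_mem _ hi)
        rw [wp_neg (φ := fun w => ∀ i ∈ w, i < n) h', ← mon_cons,
          wp_neg (φ := fun w => ∀ i ∈ w, i < n) h1, mul_zero]
    · have h1 : ¬ ∀ i ∈ a :: w, i < n := fun e => h (e a (by simp))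
      rw [kp_ge (not_lt.1 h), zero_mul, ← mon_cons,
        wp_neg (φ := fun w => ∀ i ∈ w, i < n) h1]

private theorem kp_wp (n : ℕ) (f : P) : kp n f = wp (fun w => ∀ i ∈ w, i < n) f := by
  refine ind_mon (C := fun f => kp n f = wp (fun w => ∀ i ∈ w, i < n) f) (by simp) ?_ ?_ ?_ f
  · intro f g hf hg; rw [map_add, map_add, hf, hg]
  · intro c f hf; rw [map_zsmul, map_smul, hf]
  · exact kp_mon n

private theorem kil_wp (i : ℕ) (f : P) : kil i f = wp (fun w => i ∉ w) f := by
  refine ind_mon (C := fun f => kil i f = wp (fun w => i ∉ w) f) (by simp) ?_ ?_ ?_ f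
  · intro f g hf hg; rw [map_add, map_add, hf, hg]
  · intro c f hf; rw [map_zsmul, map_smul, hf]
  · intro w
    rw [kil_mon]
    by_cases h : i ∈ w
    · rw [if_pos h, wp_neg (φ := fun w => i ∉ w) (fun e => e h)]
    · rw [if_neg h, wp_pos (φ := fun w => i ∉ w) h]

private theorem kil_X (i j : ℕ) : kil i (X j) = if j = i then 0 else X j := by
  unfold kil
  exact FreeAlgebra.lift_ι_apply _ _

private theorem fw_iff {n : ℕ} {f : P} :
    wp (fw n) f = f ↔ kp n f = f ∧ ∀ i < n, kil i f = 0 := by
  constructor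
  · intro h
    constructor
    · rw [kp_wp]
      conv_lhs => rw [← h]
      rw [wp_wp]
      conv_rhs => rw [← h]
      congr 1
      exact wp_congr fun w => ⟨fun e => e.2, fun e => ⟨e.1, e⟩⟩
    · intro i hi
      rw [kil_wp, ← h, wp_wp]
      exact nf_wp_zero (fun w e => e.1 (e.2.2 i hi)) f
  · rintro ⟨h1, h2⟩
    have h3 : ∀ m ≤ n, wp (fun w => ∀ i < m, i ∈ w) f = f := by
      intro m
      induction m with
      | zero => intro _; exact nf_wp_id (fun w i hi => absurd hi (Nat.not_lt_zero i)) f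
      | succ m ih =>
        intro hm
        have h4 : wp (fun w => m ∈ w) f = f := by
          have h5 := wp_add_not (fun w => m ∈ w) f
          rw [← kil_wp, h2 m (by omega), add_zero] at h5
          exact h5
        have h6 := ih (by omega)
        rw [← h4, wp_wp] at h6
        rw [h4] at h6
        have h8 : ∀ w : List ℕ, (∀ i < m + 1, i ∈ w) ↔ (∀ i < m, i ∈ w) ∧ m ∈ w := fun w =>
          ⟨fun e => ⟨fun i hi => e i (by omega), e m (by omega)⟩, fun e i hi => by
            rcases Nat.lt_succ_iff_lt_or_eq.1 hi with h | h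
            · exact e.1 i h
            · rw [h]; exact e.2⟩
        rw [wp_congr h8]
        exact h6
    have h7 : wp (fw n) f = wp (fun w => ∀ i ∈ w, i < n) (wp (fun w => ∀ i < n, i ∈ w) f) := by
      rw [wp_wp]
      rfl
    rw [h7, h3 n le_rfl, ← kp_wp, h1]

/-- homomorphisms are determined by their values at the letters that occur -/
private theorem hom_eq_on {φ ψ : P →ₐ[ℤ] P} {n : ℕ} (h : ∀ j < n, φ (X j) = ψ (X j)) {f : P}
    (hf : kp n f = f) : φ f = ψ f := by
  have h1 : φ.comp (kp n) = ψ.comp (kp n) := by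
    apply hom_ext_X
    intro j
    rw [AlgHom.comp_apply, AlgHom.comp_apply]
    by_cases hj : j < n
    · rw [kp_lt hj, h j hj]
    · rw [kp_ge (not_lt.1 hj), map_zero, map_zero]
  have h2 := DFunLike.congr_fun h1 f
  rw [AlgHom.comp_apply, AlgHom.comp_apply, hf] at h2
  exact h2

/-! ### step 1 -/

private theorem nf1 {p : ℕ} {I A B C : Submodule ℤ P} (h : Lk p I A B C) :
    ∃ n, 1 ≤ n ∧ ∃ a ∈ Full n n, a ∈ A ∧ a ∉ I := by
  classical
  obtain ⟨a0, ha0, hI0⟩ := SetLike.not_le_iff_exists.1 h.neA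
  have hex : ∃ m, ∃ a ∈ Pn m, a ∈ A ∧ a ∉ I := by
    obtain ⟨m, hm⟩ := exists_mem_Pn (h.hA.le ha0)
    exact ⟨m, a0, hm, ha0, hI0⟩
  obtain ⟨f, hf, hfA, hfI⟩ := Nat.find_spec hex
  have hmin : ∀ k < Nat.find hex, ∀ g ∈ Pn k, g ∈ A → g ∈ I := fun k hk g hg hgA => by
    by_contra hgI
    exact Nat.find_min hex hk ⟨g, hg, hgA, hgI⟩
  generalize Nat.find hex = m at hf hmin
  cases m with
  | zero =>
    exfalso
    apply hfI
    have h0 : Pn 0 ≤ I := by
      refine Submodule.span_le.2 ?_
      rintro x ⟨w, hw, h1, rfl⟩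
      obtain ⟨b, t, rfl⟩ := List.exists_cons_of_ne_nil hw
      exact absurd (h1 b (by simp)) (Nat.not_lt_zero b)
    exact h0 hf
  | succ k =>
    have step : ∀ i, i ≤ k + 1 → ∃ g ∈ Full i (k + 1), g ∈ A ∧ f - g ∈ I := by
      intro i
      induction i with
      | zero =>
        intro _
        exact ⟨f, pn_full _ hf, hfA, by rw [sub_self]; exact I.zero_mem⟩
      | succ i ihi =>
        intro hi
        obtain ⟨g, hg, hgA, hfg⟩ := ihi (by omega)
        have h1 : kil i g ∈ A := h.hA.subst _ (kil_isSubst i) g hgA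
        have h2 : kil i g ∈ I := by
          have h3 := hmin k (by omega) _ (full_ren (by omega) hg)
            (h.hA.subst _ (ren_isSubst i k) _ h1)
          have h4 := h.hI.subst _ (ren_isSubst i k) _ h3
          rwa [ren_ren] at h4
        refine ⟨g - kil i g, full_sub hg, A.sub_mem hgA h1, ?_⟩
        have : f - (g - kil i g) = (f - g) + kil i g := by abel
        rw [this]
        exact I.add_mem hfg h2
    obtain ⟨g, hg, hgA, hfg⟩ := step (k + 1) le_rfl
    refine ⟨k + 1, by omega, g, hg, hgA, fun hgI => hfI ?_⟩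
    have : f = (f - g) + g := by abel
    rw [this]
    exact I.add_mem hfg hgI

private theorem fw_len {n : ℕ} {w : List ℕ} (h : fw n w) : n ≤ w.length := by
  have h3 : Finset.range n ⊆ w.toFinset := fun i hi =>
    List.mem_toFinset.2 (h.2 i (Finset.mem_range.1 hi))
  have h4 := Finset.card_le_card h3
  rw [Finset.card_range] at h4
  exact h4.trans (List.toFinset_card_le w)

private theorem fw_Fge {n : ℕ} {f : P} (h : wp (fw n) f = f) : f ∈ Fge n := by
  rw [← h]
  refine (Submodule.span_le.2 ?_ : Submodule.span ℤ {f | ∃ w, fw n w ∧ f = mon w} ≤ Fge n)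
    (wp_mem _ _)
  rintro x ⟨w, hw, rfl⟩
  exact nilAt_of_le le_rfl w (fw_len hw)


theorem TOp_fw (p n : ℕ) : TOp p (wp (fw n)) := by
  have h1 : wp (fw n) = (wp (fun w => ∀ i ∈ w, i < n)).comp (wp (fun w => ∀ i < n, i ∈ w)) := by
    ext f
    rw [LinearMap.comp_apply, wp_wp]
    rfl
  rw [h1]
  exact (TOp_lt p n).comp (TOp_full p n)

theorem Qf_iff {n : ℕ} {f : P} : f ∈ Qf n ↔ wp (fw n) f = f :=
  ⟨fun h => wp_id h, fun h => h ▸ wp_mem _ _⟩

theorem fw_perm {n : ℕ} {w : List ℕ} (h : fw n w) (hl : w.length ≤ n) : w.Perm (List.range n) := by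
  have h3 : (List.range n) ⊆ w := fun i hi => h.2 i (List.mem_range.1 hi)
  have h4 : List.Subperm (List.range n) w := List.subperm_of_subset List.nodup_range h3
  exact (h4.perm_of_length_le (by rw [List.length_range]; exact hl)).symm

theorem fw_of_perm {n : ℕ} {w : List ℕ} (h : w.Perm (List.range n)) : fw n w :=
  ⟨fun i hi => List.mem_range.1 (h.mem_iff.1 hi), fun i hi => h.mem_iff.2 (List.mem_range.2 hi)⟩

theorem fw_rep {n : ℕ} {w : List ℕ} (h : fw n w) (hl : n < w.length) : ∃ i, 2 ≤ w.count i := by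
  by_contra hcon
  push Not at hcon
  have h1 : w.Nodup := List.nodup_iff_count_le_one.2 fun i => by
    have := hcon i
    omega
  have h2 : w ⊆ List.range n := fun i hi => List.mem_range.2 (h.1 i hi)
  have h3 := (List.subperm_of_subset h1 h2).length_le
  rw [List.length_range] at h3
  omega

theorem lift {p : ℕ} {J : Submodule ℤ P} (hJ : IsT J) (h2 : Mul ((p : ℤ) ^ 2) J) {n m : ℕ} {f : P} (hf : f ∈ Qf n)
    (h : f ∈ J ⊔ Fge m) : f ∈ J ⊔ Submodule.span ℤ {g | ∃ w, fw n w ∧ m ≤ w.length ∧ g = mon w} := by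
  obtain ⟨j, hj, g, hg, rfl⟩ := Submodule.mem_sup.1 h
  rw [← Qf_iff.1 hf, map_add]
  refine Submodule.add_mem_sup (TOp_fw p n J hJ h2 j hj) ?_
  have hle : Fge m ≤ (Submodule.span ℤ {g | ∃ w, fw n w ∧ m ≤ w.length ∧ g = mon w}).comap (wp (fw n)) := by
    refine Submodule.span_le.2 ?_
    rintro x ⟨w, hw, rfl⟩
    show wp (fw n) (mon w) ∈ Submodule.span ℤ {g | ∃ w, fw n w ∧ m ≤ w.length ∧ g = mon w}
    by_cases hc : fw n w
    · rw [wp_pos hc]
      exact Submodule.subset_span ⟨w, hc, hw, rfl⟩
    · rw [wp_neg hc]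
      exact Submodule.zero_mem _
  exact hle hg

/-! ### the difference operator -/

private noncomputable def aa (i n : ℕ) : P →ₐ[ℤ] P :=
  sb (fun j => if j = i then X i + X n else X j)

private noncomputable def bb (i n : ℕ) : P →ₐ[ℤ] P := sb (fun j => if j = i then X n else X j)

private noncomputable def Dl (i n : ℕ) : P →ₗ[ℤ] P := tl (aa i n) - LinearMap.id - tl (bb i n)

private theorem Dl_apply (i n : ℕ) (f : P) : Dl i n f = aa i n f - f - bb i n f := rfl

private theorem aa_X (i n j : ℕ) : aa i n (X j) = if j = i then X i + X n else X j := by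
  unfold aa
  rw [sb_X]

private theorem bb_X (i n j : ℕ) : bb i n (X j) = if j = i then X n else X j := by
  unfold bb
  rw [sb_X]

private theorem TOp_Dl (p i n : ℕ) : TOp p (Dl i n) := by
  refine ((TOp.subst p (sb_isSubst fun j => ?_)).sub (TOp.id' p)).sub
    (TOp.subst p (sb_isSubst fun j => ?_))
  · by_cases h : j = i
    · rw [if_pos h]; exact Submodule.add_mem _ (X_mem i) (X_mem n)
    · rw [if_neg h]; exact X_mem j
  · by_cases h : j = i
    · rw [if_pos h]; exact X_mem n
    · rw [if_neg h]; exact X_mem j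

private theorem Ad_iff {I : Submodule ℤ P} {n : ℕ} {a : P} :
    Ad I n a ↔ ∀ i < n, Dl i n a ∈ I := Iff.rfl

private theorem Dl_mem {I : Submodule ℤ P} (hI : IsT I) (i n : ℕ) {a : P} (ha : a ∈ I) :
    Dl i n a ∈ I := by
  rw [Dl_apply]
  refine I.sub_mem (I.sub_mem (sb_mem hI (fun j => ?_) ha) ha) (sb_mem hI (fun j => ?_) ha)
  · by_cases h : j = i
    · rw [if_pos h]; exact Submodule.add_mem _ (X_mem i) (X_mem n)
    · rw [if_neg h]; exact X_mem j
  · by_cases h : j = i
    · rw [if_pos h]; exact X_mem n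
    · rw [if_neg h]; exact X_mem j

private theorem Ad_congr {I : Submodule ℤ P} (hI : IsT I) {n : ℕ} {a a' : P} (ha : Ad I n a)
    (h : a' - a ∈ I) : Ad I n a' := by
  rw [Ad_iff] at ha ⊢
  intro i hi
  have h1 : Dl i n a' = Dl i n a + Dl i n (a' - a) := by rw [map_sub]; abel
  rw [h1]
  exact I.add_mem (ha i hi) (Dl_mem hI i n h)

private theorem Dl_full {n i : ℕ} (hi : i < n) {f : P} (hf : wp (fw n) f = f) :
    wp (fw (n + 1)) (Dl i n f) = Dl i n f := by
  obtain ⟨hk, h0⟩ := fw_iff.1 hf
  have hin : n ≠ i := by omega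
  rw [fw_iff]
  refine ⟨?_, ?_⟩
  · rw [Dl_apply, map_sub, map_sub]
    congr 1
    · congr 1
      · refine hom_eq_on (φ := (kp (n + 1)).comp (aa i n)) (ψ := aa i n) (fun j hj => ?_) hk
        rw [AlgHom.comp_apply, aa_X]
        by_cases h : j = i
        · rw [if_pos h, map_add, kp_lt (by omega), kp_lt (by omega)]
        · rw [if_neg h, kp_lt (by omega)]
      · refine hom_eq_on (φ := kp (n + 1)) (ψ := AlgHom.id ℤ P) (fun j hj => ?_) hk
        rw [kp_lt (by omega)]
        rfl
    · refine hom_eq_on (φ := (kp (n + 1)).comp (bb i n)) (ψ := bb i n) (fun j hj => ?_) hk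
      rw [AlgHom.comp_apply, bb_X]
      by_cases h : j = i
      · rw [if_pos h, kp_lt (by omega)]
      · rw [if_neg h, kp_lt (by omega)]
  · intro j hj
    rw [Dl_apply, map_sub, map_sub]
    by_cases hjn : j = n
    · subst hjn
      have e1 : kil j (aa i j f) = f := by
        refine hom_eq_on (φ := (kil j).comp (aa i j)) (ψ := AlgHom.id ℤ P) (fun k hk' => ?_) hk
        rw [AlgHom.comp_apply, aa_X]
        by_cases h : k = i
        · rw [if_pos h, map_add, kil_X, kil_X, if_neg (by omega), if_pos rfl, add_zero, h]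
          rfl
        · rw [if_neg h, kil_X, if_neg (by omega)]
          rfl
      have e2 : kil j f = f := by
        refine hom_eq_on (φ := kil j) (ψ := AlgHom.id ℤ P) (fun k hk' => ?_) hk
        rw [kil_X, if_neg (by omega)]
        rfl
      have e3 : kil j (bb i j f) = kil i f := by
        refine hom_eq_on (φ := (kil j).comp (bb i j)) (ψ := kil i) (fun k hk' => ?_) hk
        rw [AlgHom.comp_apply, bb_X]
        by_cases h : k = i
        · rw [if_pos h, kil_X, if_pos rfl, kil_X, if_pos h]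
        · rw [if_neg h, kil_X, if_neg (by omega), kil_X, if_neg h]
      rw [e1, e2, e3, h0 i hi]
      abel
    · have hjn' : j < n := by omega
      by_cases hji : j = i
      · subst hji
        have e1 : kil j (aa j n f) = bb j n f := by
          refine hom_eq_on (φ := (kil j).comp (aa j n)) (ψ := bb j n) (fun k hk' => ?_) hk
          rw [AlgHom.comp_apply, aa_X, bb_X]
          by_cases h : k = j
          · rw [if_pos h, if_pos h, map_add, kil_X, kil_X, if_pos rfl, if_neg hin, zero_add]
          · rw [if_neg h, if_neg h, kil_X, if_neg h]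
        have e3 : kil j (bb j n f) = bb j n f := by
          refine hom_eq_on (φ := (kil j).comp (bb j n)) (ψ := bb j n) (fun k hk' => ?_) hk
          rw [AlgHom.comp_apply, bb_X]
          by_cases h : k = j
          · rw [if_pos h, kil_X, if_neg hin]
          · rw [if_neg h, kil_X, if_neg h]
        rw [e1, e3, h0 j hi]
        abel
      · have e1 : kil j (aa i n f) = aa i n (kil j f) := by
          refine hom_eq_on (φ := (kil j).comp (aa i n)) (ψ := (aa i n).comp (kil j))
            (fun k hk' => ?_) hk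
          rw [AlgHom.comp_apply, AlgHom.comp_apply, aa_X, kil_X]
          by_cases h : k = i
          · have h' : k ≠ j := by omega
            rw [if_pos h, if_neg h', map_add, kil_X, kil_X, if_neg (by omega), if_neg (by omega),
              aa_X, if_pos h]
          · rw [if_neg h, kil_X]
            by_cases h' : k = j
            · rw [if_pos h', map_zero]
            · rw [if_neg h', aa_X, if_neg h]
        have e3 : kil j (bb i n f) = bb i n (kil j f) := by
          refine hom_eq_on (φ := (kil j).comp (bb i n)) (ψ := (bb i n).comp (kil j))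
            (fun k hk' => ?_) hk
          rw [AlgHom.comp_apply, AlgHom.comp_apply, bb_X, kil_X]
          by_cases h : k = i
          · have h' : k ≠ j := by omega
            rw [if_pos h, if_neg h', kil_X, if_neg (by omega), bb_X, if_pos h]
          · rw [if_neg h, kil_X]
            by_cases h' : k = j
            · rw [if_pos h', map_zero]
            · rw [if_neg h', bb_X, if_neg h]
        rw [e1, e3, h0 j hjn', map_zero, map_zero]
        abel

theorem nf2 {p : ℕ} {I A B C : Submodule ℤ P} (h : Lk p I A B C) :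
    ∃ (n : ℕ) (a b : P), 1 ≤ n ∧ a ∈ Qf n ∧ b ∈ Qf n ∧ Lnk A B C a b ∧ a ∉ I ∧ Ad I n a ∧ Ad I n b := by
  classical
  obtain ⟨N, hN⟩ := h.nil
  obtain ⟨n0, hn0, a0, ha0, haA0, haI0⟩ := nf1 h
  have hfull : wp (fw n0) a0 = a0 := by
    apply wp_id
    refine Submodule.span_mono ?_ ha0
    rintro x ⟨w, hw, h1, h2, rfl⟩
    exact ⟨w, ⟨h1, h2⟩, rfl⟩
  set R : ℕ → Prop := fun n => ∃ a, wp (fw n) a = a ∧ a ∈ A ∧ a ∉ I with hR
  have hRlt : ∀ n, R n → n < N := by
    rintro n ⟨a, ha, haA, haI⟩
    by_contra hcon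
    exact haI (Fge_le hN (Fge_anti (not_lt.1 hcon) (fw_Fge ha)))
  have hR0 : R n0 := ⟨a0, hfull, haA0, haI0⟩
  have hn0N : n0 ≤ N := (hRlt n0 hR0).le
  set n := Nat.findGreatest R N with hn
  have hRn : R n := Nat.findGreatest_spec hn0N hR0
  have hnn : n0 ≤ n := Nat.le_findGreatest hn0N hR0
  have hmax : ¬ R (n + 1) := by
    intro h1
    have h2 := Nat.le_findGreatest (hRlt _ h1).le h1
    omega
  obtain ⟨a, haF, haA, haI⟩ := hRn
  obtain ⟨b0, hb0⟩ := h.ex haA
  have hl : Lnk A B C a (wp (fw n) b0) := by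
    have := hb0.map h (TOp_fw p n)
    rwa [haF] at this
  set b := wp (fw n) b0 with hb
  have hbF : wp (fw n) b = b := by
    rw [hb, wp_wp]
    congr 1
    exact wp_congr fun w => and_self_iff
  have hAda : Ad I n a := by
    rw [Ad_iff]
    intro i hi
    by_contra hcon
    exact hmax ⟨Dl i n a, Dl_full hi haF, (hl.map h (TOp_Dl p i n)).1, hcon⟩
  have hAdb : Ad I n b := by
    rw [Ad_iff]
    intro i hi
    exact (h.iff (hl.map h (TOp_Dl p i n))).1 (hAda i hi)
  exact ⟨n, a, b, by omega, Qf_iff.2 haF, Qf_iff.2 hbF, hl, haI, hAda, hAdb⟩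

end ADP
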