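import Pool.Agent.ADP.Pair1

/-!
# ADP-Pair2: linked polynomials in two variables

From ADC-NoP: `a`, `b` combinations of `xy`, `yx`, `x^p y` with `x^p y ≡ y^p x` modulo `I`.
-/

namespace ADP

open AD ADN ADC

/-! ### `n = 2` -/

private noncomputable def np_E (p : ℕ) (m g : ℤ) : P :=
  m • (X 0 * X 1 + X 1 * X 0) + g • (X 0 ^ p * X 1 + X 1 ^ p * X 0)

private theorem np_E_mem {p : ℕ} (h5 : 3 ≤ p) {A : Submodule ℤ P} (hA : IsT A) (h : X 0 ^ 2 ∈ A) (m g : ℤ) :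
    np_E p m g ∈ A := by
  have hs : ∀ f ∈ Pp, f ^ 2 ∈ A := by
    intro f hf
    have h1 := sb_mem hA (φ := fun _ => f) (fun _ => hf) h
    rw [map_pow, sb_X] at h1
    exact h1
  have h1 : X 0 * X 1 + X 1 * X 0 ∈ A := by
    have h2 := A.sub_mem (A.sub_mem (hs _ (Pp.add_mem (X_mem 0) (X_mem 1))) (hs _ (X_mem 0))) (hs _ (X_mem 1))
    refine (congrArg (fun f => f ∈ A) ?_).mp h2
    noncomm_ring
  have h3 : ∀ i j, X i ^ p * X j ∈ A := by
    intro i j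
    have h4 : X i ^ p = X i ^ 2 * X i ^ (p - 2) := by
      rw [← pow_add]
      congr 1
      omega
    rw [h4]
    exact hA.mul_right _ (hA.mul_right _ (hs _ (X_mem i)) _) _
  exact A.add_mem (A.smul_mem _ h1) (A.smul_mem _ (A.add_mem (h3 0 1) (h3 1 0)))

private theorem np_sq {p : ℕ} {I A : Submodule ℤ P} (hb : Bt p I) (hA : IsT A) (hIA : I ≤ A) {m g : ℤ}
    (hm : ¬ (p : ℤ) ∣ m) (h : np_E p m g ∈ A) : X 0 ^ 2 ∈ A := by
  by_cases h0 : X 0 ∈ A
  · rw [pow_two]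
    exact hA.mul_right _ h0 _
  · have hB : Bt p A :=
      { pp := hb.pp
        three := hb.three
        isT := hA
        mul := hb.mul.mono hIA
        nil := by
          obtain ⟨N, hN⟩ := hb.nil
          exact ⟨N, fun w hw => hIA (hN w hw)⟩
        ne := h0 }
    have h5 := hb.three
    have h1 := sb_mem hA (φ := fun _ => X 0) (fun _ => X_mem 0) h
    have h2 : sb (fun _ => X 0) (np_E p m g) = (2 * m) • X 0 ^ 2 + (2 * g) • X 0 ^ (p + 1) := by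
      unfold np_E
      rw [map_add, map_zsmul, map_zsmul]
      simp only [map_add, map_mul, map_pow, sb_X]
      rw [← pow_two, ← pow_succ, mul_comm (2 : ℤ) m, mul_comm (2 : ℤ) g, mul_smul, mul_smul, two_smul, two_smul]
    rw [h2] at h1
    refine one_low hB (c := 2 * m) ?_ (by norm_num) (Submodule.smul_mem _ _ (Submodule.subset_span ⟨p + 1, by omega, rfl⟩)) h1
    intro h3
    rcases (Nat.prime_iff_prime_int.1 hb.pp).dvd_or_dvd h3 with h4 | h4
    · have := Int.le_of_dvd (by norm_num) h4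
      omega
    · exact hm h4

private theorem np_tau : rn 2 (Equiv.swap 0 1) (X 0) = X 1 ∧ rn 2 (Equiv.swap 0 1) (X 1) = X 0 := by
  constructor
  · rw [rn_X, dif_pos (by norm_num)]
    rfl
  · rw [rn_X, dif_pos (by norm_num)]
    rfl

/-- what is needed about a polynomial -/
private theorem np_two {p : ℕ} {I : Submodule ℤ P} (hb : Bt p I) (hR : X 0 ^ p * X 1 - X 1 ^ p * X 0 ∈ I) {a : P}
    (ha : a ∈ I ⊔ Submodule.span ℤ {X 0 * X 1, X 1 * X 0, X 0 ^ p * X 1}) :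
    a - tl (rn 2 (Equiv.swap 0 1)) a ∈ I ⊔ Submodule.span ℤ {cm 0 1} ∧
      ∃ m g : ℤ, (a + tl (rn 2 (Equiv.swap 0 1)) a) - np_E p m g ∈ I := by
  have hT : TOp p (tl (rn 2 (Equiv.swap 0 1))) := TOp_rn p 2 _
  obtain ⟨i, hi, s, hs, rfl⟩ := Submodule.mem_sup.1 ha
  rw [Submodule.mem_span_triple] at hs
  obtain ⟨α, β, γ, rfl⟩ := hs
  have hti : tl (rn 2 (Equiv.swap 0 1)) i ∈ I := hT I hb.isT hb.mul.sq i hi
  have e1 : tl (rn 2 (Equiv.swap 0 1)) (α • (X 0 * X 1) + β • (X 1 * X 0) + γ • (X 0 ^ p * X 1)) =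
      α • (X 1 * X 0) + β • (X 0 * X 1) + γ • (X 1 ^ p * X 0) := by
    rw [map_add, map_add, map_smul, map_smul, map_smul]
    simp only [tl_apply, map_mul, map_pow, np_tau.1, np_tau.2]
  rw [map_add, e1]
  constructor
  · have e2 : (i + (α • (X 0 * X 1) + β • (X 1 * X 0) + γ • (X 0 ^ p * X 1))) -
        (tl (rn 2 (Equiv.swap 0 1)) i + (α • (X 1 * X 0) + β • (X 0 * X 1) + γ • (X 1 ^ p * X 0))) =
        ((i - tl (rn 2 (Equiv.swap 0 1)) i) + γ • (X 0 ^ p * X 1 - X 1 ^ p * X 0)) + (α - β) • cm 0 1 := by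
      unfold cm
      module
    rw [e2]
    exact Submodule.add_mem _ (Submodule.mem_sup_left (I.add_mem (I.sub_mem hi hti) (I.smul_mem _ hR)))
      (Submodule.mem_sup_right (Submodule.smul_mem _ _ (Submodule.mem_span_singleton_self _)))
  · refine ⟨α + β, γ, ?_⟩
    have e2 : ((i + (α • (X 0 * X 1) + β • (X 1 * X 0) + γ • (X 0 ^ p * X 1))) +
        (tl (rn 2 (Equiv.swap 0 1)) i + (α • (X 1 * X 0) + β • (X 0 * X 1) + γ • (X 1 ^ p * X 0)))) - np_E p (α + β) γ =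
        i + tl (rn 2 (Equiv.swap 0 1)) i := by
      unfold np_E
      module
    rw [e2]
    exact I.add_mem hi hti

private theorem np_E_span {p : ℕ} {I : Submodule ℤ P} (hb : Bt p I) (hR : X 0 ^ p * X 1 - X 1 ^ p * X 0 ∈ I) {m g : ℤ} (hm : (p : ℤ) ∣ m)
    {a : P} (ha : a - np_E p m g ∈ I) : a ∈ I ⊔ Submodule.span ℤ {X 0 ^ p * X 1} := by
  obtain ⟨k, rfl⟩ := hm
  have e : a = (((a - np_E p (p * k) g) + (p : ℤ) • (k • (X 0 * X 1 + X 1 * X 0))) -
      g • (X 0 ^ p * X 1 - X 1 ^ p * X 0)) + (2 * g) • (X 0 ^ p * X 1) := by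
    unfold np_E
    module
  rw [e]
  refine Submodule.add_mem _ (Submodule.mem_sup_left (I.sub_mem (I.add_mem ha ?_) (I.smul_mem _ hR)))
    (Submodule.mem_sup_right (Submodule.smul_mem _ _ (Submodule.mem_span_singleton_self _)))
  exact hb.mul _ (Pp.smul_mem _ (Pp.add_mem (Pp_mul_left _ (X_mem 1)) (Pp_mul_left _ (X_mem 0))))

private theorem np_fin {p : ℕ} {I A B C : Submodule ℤ P} (h : Lk p I A B C) (hb : Bt p I)
    {a b : P} (hl : Lnk A B C a b) {m g m' g' : ℤ} (hm : ¬ (p : ℤ) ∣ m) (ha : a - np_E p m g ∈ I)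
    (hb' : b - np_E p m' g' ∈ I) : b ∈ I := by
  have h1 : np_E p m g ∈ A := by
    have e : np_E p m g = a - (a - np_E p m g) := by abel
    rw [e]
    exact A.sub_mem hl.1 (h.IA ha)
  have h2 := np_sq hb h.hA h.IA hm h1
  have h3 : b ∈ A := by
    have e : b = (b - np_E p m' g') + np_E p m' g' := by abel
    rw [e]
    exact A.add_mem (h.IA hb') (np_E_mem hb.three h.hA h2 _ _)
  exact h.AB ⟨h3, hl.2.1⟩

theorem Pair2 {p : ℕ} {I A B C : Submodule ℤ P} (h : Lk p I A B C) (hb : Bt p I)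
    (hR : X 0 ^ p * X 1 - X 1 ^ p * X 0 ∈ I) {a b : P}
    (ha : a ∈ I ⊔ Submodule.span ℤ {X 0 * X 1, X 1 * X 0, X 0 ^ p * X 1})
    (hbQ : b ∈ I ⊔ Submodule.span ℤ {X 0 * X 1, X 1 * X 0, X 0 ^ p * X 1}) (hl : Lnk A B C a b) : a ∈ I := by
  by_contra haI
  have h5 := hb.three
  obtain ⟨a1, m, g, a2⟩ := np_two hb hR ha
  obtain ⟨b1, m', g', b2⟩ := np_two hb hR hbQ
  have hTτ : TOp p (tl (rn 2 (Equiv.swap 0 1))) := TOp_rn p 2 _
  have l1 := hl.map h ((TOp.id' p).sub hTτ)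
  have l2 := hl.map h ((TOp.id' p).add hTτ)
  have e1 : ∀ f : P, (LinearMap.id - tl (rn 2 (Equiv.swap 0 1)) : P →ₗ[ℤ] P) f =
    f - tl (rn 2 (Equiv.swap 0 1)) f := fun f => rfl
  have e2 : ∀ f : P, (LinearMap.id + tl (rn 2 (Equiv.swap 0 1)) : P →ₗ[ℤ] P) f =
    f + tl (rn 2 (Equiv.swap 0 1)) f := fun f => rfl
  rw [e1, e1] at l1
  rw [e2, e2] at l2
  have c1 := h.np hb.pp l1 (cm_mem 0 1) a1 b1
  have haP : a ∈ Pp := h.hA.le hl.1
  have c2 : a + tl (rn 2 (Equiv.swap 0 1)) a ∉ I := by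
    intro c3
    refine haI (cancel hb.pp hb.mul.sq (c := 2) ?_ haP ?_)
    · intro c4
      have := Int.le_of_dvd (by norm_num) c4
      omega
    · have c4 := I.add_mem c3 c1
      refine (congrArg (fun f => f ∈ I) ?_).mp c4
      rw [two_smul]
      abel
  have c3 : b + tl (rn 2 (Equiv.swap 0 1)) b ∉ I := fun c4 => c2 ((h.iff l2).2 c4)
  by_cases hm : (p : ℤ) ∣ m
  · by_cases hm' : (p : ℤ) ∣ m'
    · refine c2 (h.np hb.pp l2 (Y := X 0 ^ p * X 1) (Pp_mul_left _ (X_mem 1)) ?_ ?_)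
      · exact np_E_span hb hR hm a2
      · exact np_E_span hb hR hm' b2
    · exact c2 (np_fin h.symm hb l2.symm hm' b2 a2)
  · exact c3 (np_fin h hb l2 hm a2 b2)

end ADP
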