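import Pool.Agent.ADP.Rd

/-!
# ADP-Rd3: additive polynomials are multilinear modulo `J`: the type `[x,y] z`

`g3 ∈ J`, so `Dn 3 ≤ J`, so modulo `J` a word of length `≥ 2` is determined by its content and its
last letter (`perm_Dn`).  `hx`: `mon ([s,s,s] ++ r ++ [t]) ∈ J` for `r ≠ []`.  With
`Om_i = i i (range n \ i) i` an additive `g` is `≡ b + ∑ ω_i Om_i`; full linearisation in `x_i`
(`li_Ad`) gives `3 ∣ ω_i` or `Om_i ≡ i i i (range n \ i)`.
-/

namespace ADP

open AD ADN ADC

theorem Dn_of_g3 {J : Submodule ℤ P} (hJ : IsT J) (h3 : g3 ∈ J) : Dn 3 ≤ J := by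
  refine Submodule.span_le.2 ?_
  rintro f ⟨u, v, i, j, hv, -, rfl⟩
  obtain ⟨a, v', rfl⟩ := List.exists_cons_of_ne_nil hv
  have h := sb_mem hJ (φ := fun k => if k = 0 then X i else if k = 1 then X j else X a) (fun k => by
    by_cases h : k = 0
    · rw [if_pos h]; exact X_mem _
    · rw [if_neg h]
      by_cases h' : k = 1
      · rw [if_pos h']; exact X_mem _
      · rw [if_neg h']; exact X_mem _) h3
  have e1 : sb (fun k => if k = 0 then X i else if k = 1 then X j else X a) g3 =
      (X i * X j - X j * X i) * X a := by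
    unfold g3
    simp only [map_sub, map_mul, sb_X]
    simp
  rw [e1] at h
  have h2 := IsT.lm hJ (mon u) (mon v') h
  have e2 : mon u * (X i * X j - X j * X i) * mon (a :: v') =
      mon u * ((X i * X j - X j * X i) * X a) * mon v' := by
    rw [mon_cons]
    simp only [mul_assoc]
  rw [SetLike.mem_coe, e2]
  exact h2

private theorem r3_sum {n : ℕ} {w : List ℕ} (hw : ∀ i ∈ w, i < n) :
    ∑ i ∈ Finset.range n, w.count i = w.length := by
  have := Multiset.sum_count_eq_card (s := Finset.range n) (m := (w : Multiset ℕ))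
    (fun a ha => Finset.mem_range.2 (hw a (by simpa using ha)))
  simpa using this

private theorem r3_odd {n : ℕ} {w : List ℕ} (hw : qw 3 n w) {i : ℕ} (hi : i < n) :
    w.count i % 2 = 1 := hw.2 i hi

private theorem r3_qw {n : ℕ} {w : List ℕ} (hw : qw 3 n w) :
    w.Perm (List.range n) ∨ (n + 2 ≤ w.length ∧ ∃ i < n, 3 ≤ w.count i) := by
  have hs := r3_sum hw.1
  by_cases h : ∃ i < n, 3 ≤ w.count i
  · obtain ⟨i, hi, h3⟩ := h
    right
    refine ⟨?_, i, hi, h3⟩
    have h4 : ∀ j ∈ (Finset.range n).erase i, 1 ≤ w.count j := by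
      intro j hj
      have := r3_odd hw (Finset.mem_range.1 (Finset.mem_of_mem_erase hj))
      omega
    have h5 := Finset.sum_le_sum h4
    rw [Finset.sum_const, Finset.card_erase_of_mem (Finset.mem_range.2 hi), Finset.card_range,
      smul_eq_mul, mul_one] at h5
    rw [← Finset.add_sum_erase _ _ (Finset.mem_range.2 hi)] at hs
    omega
  · left
    push Not at h
    have h1 : ∀ i < n, w.count i = 1 := fun i hi => by
      have h2 := h i hi
      have h3 := r3_odd hw hi
      omega
    rw [List.perm_iff_count]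
    intro x
    by_cases hx : x < n
    · rw [h1 x hx, List.count_eq_one_of_mem List.nodup_range (List.mem_range.2 hx)]
    · rw [List.count_eq_zero.2 (fun hm => hx (hw.1 x hm)),
        List.count_eq_zero.2 (fun hm => hx (List.mem_range.1 hm))]

private theorem r3_two {w : List ℕ} (h : w.Perm (List.range 2)) : w = [0, 1] ∨ w = [1, 0] := by
  have hl := h.length_eq
  rw [List.length_range] at hl
  obtain ⟨a, b, rfl⟩ := List.length_eq_two.1 hl
  have ha : a < 2 := List.mem_range.1 (h.subset (by simp))
  have hb : b < 2 := List.mem_range.1 (h.subset (by simp))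
  have hn : [a, b].Nodup := h.nodup_iff.2 List.nodup_range
  have hab : a ≠ b := by simpa using hn
  have h0 : a = 0 ∨ a = 1 := by omega
  rcases h0 with rfl | rfl
  · left
    have : b = 1 := by omega
    rw [this]
  · right
    have : b = 0 := by omega
    rw [this]

private theorem r3_ind {n : ℕ} {N : Submodule ℤ P} (h : ∀ w, qw 3 n w → mon w ∈ N) {g : P}
    (hg : g ∈ Q 3 n) : g ∈ N := by
  unfold Q at hg
  have h1 : Submodule.span ℤ {f | ∃ w, qw 3 n w ∧ f = mon w} ≤ N := by
    refine Submodule.span_le.2 ?_
    rintro f ⟨w, hw, rfl⟩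
    exact h w hw
  exact h1 hg

private theorem r3_31 (i j : ℕ) : mon [i, i, i, j] = X i ^ 3 * X j := by
  rw [mon_cons, mon_cons, mon_cons, mon_single, pow_succ, pow_succ, pow_one]
  simp only [mul_assoc]

/-- `w ~ i i i r` -/
private theorem r3_cube {w : List ℕ} {i : ℕ} (h : 3 ≤ w.count i) :
    ∃ r, w.Perm (i :: i :: i :: r) := by
  have m1 : i ∈ w := List.count_pos_iff.1 (by omega)
  have c1 : (w.erase i).count i = w.count i - 1 := List.count_erase_self
  have m2 : i ∈ w.erase i := List.count_pos_iff.1 (by omega)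
  have c2 : ((w.erase i).erase i).count i = (w.erase i).count i - 1 := List.count_erase_self
  have m3 : i ∈ (w.erase i).erase i := List.count_pos_iff.1 (by omega)
  refine ⟨((w.erase i).erase i).erase i, ?_⟩
  exact (List.perm_cons_erase m1).trans
    (((List.perm_cons_erase m2).trans ((List.perm_cons_erase m3).cons i)).cons i)

private theorem r3_C2 {J : Submodule ℤ P} (hT : IsT J) (hx : X 0 ^ 3 * X 1 * X 2 ∈ J)
    (i a b : ℕ) (r : List ℕ) : mon (i :: i :: i :: a :: b :: r) ∈ J := by
  have h3 := sb_mem hT (φ := fun j => if j = 0 then X i else if j = 1 then X a else X b) (fun j => by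
    by_cases h : j = 0
    · rw [if_pos h]; exact X_mem _
    · rw [if_neg h]
      by_cases h' : j = 1
      · rw [if_pos h']; exact X_mem _
      · rw [if_neg h']; exact X_mem _) hx
  have e1 : sb (fun j => if j = 0 then X i else if j = 1 then X a else X b)
      (X 0 ^ 3 * X 1 * X 2) = X i ^ 3 * X a * X b := by
    simp only [map_mul, map_pow, sb_X]
    simp
  rw [e1] at h3
  have h4 := hT.mul_right _ h3 (mon r)
  have e2 : mon (i :: i :: i :: a :: b :: r) = X i ^ 3 * X a * X b * mon r := by
    rw [mon_cons, mon_cons, mon_cons, mon_cons, mon_cons, pow_succ, pow_succ, pow_one]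
    simp only [mul_assoc]
  rwa [e2]

/-- modulo `J` the order of all but the last letter does not matter -/
private theorem r3_perm {J : Submodule ℤ P} (hD : Dn 3 ≤ J) {u v : List ℕ} (h : u.Perm v) (t : ℕ)
    (hu : 2 ≤ u.length) : mon (u ++ [t]) - mon (v ++ [t]) ∈ J := by
  refine hD (Dn_anti ?_ (perm_Dn h (by simp)))
  rw [List.length_singleton]
  omega

private theorem r3_good {J : Submodule ℤ P} (hT : IsT J) (hD : Dn 3 ≤ J)
    (hx : X 0 ^ 3 * X 1 * X 2 ∈ J) {w : List ℕ} {s t : ℕ} (hs : 3 ≤ w.count s)
    (hl : 4 ≤ w.length) : mon (w ++ [t]) ∈ J := by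
  obtain ⟨r, hr⟩ := r3_cube hs
  have hd := r3_perm hD hr t (by omega)
  have hl' := hr.length_eq
  simp only [List.length_cons] at hl'
  rcases r with _ | ⟨a, r⟩
  · simp at hl'
    omega
  · have e0 : mon (w ++ [t]) = (mon (w ++ [t]) - mon ((s :: s :: s :: a :: r) ++ [t])) +
        mon ((s :: s :: s :: a :: r) ++ [t]) := by abel
    rw [e0]
    refine J.add_mem hd ?_
    rcases r with _ | ⟨b, r⟩
    · exact r3_C2 hT hx s a t []
    · exact r3_C2 hT hx s a b (r ++ [t])

/-- `i i (range n \ i) i` -/
private noncomputable def Om (n i : ℕ) : P := mon (i :: i :: ((List.range n).erase i ++ [i]))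

private theorem r3_ec {n i x : ℕ} : ((List.range n).erase i).count x =
    if x < n ∧ x ≠ i then 1 else 0 := by
  by_cases h : x < n ∧ x ≠ i
  · rw [if_pos h, List.count_erase_of_ne (Ne.symm h.2).symm,
      List.count_eq_one_of_mem List.nodup_range (List.mem_range.2 h.1)]
  · rw [if_neg h, List.count_eq_zero]
    intro hm
    rw [List.nodup_range.mem_erase_iff, List.mem_range] at hm
    exact h ⟨hm.2, hm.1⟩

private theorem r3_cls {n : ℕ} (hn : 2 ≤ n) {w : List ℕ} (hw : qw 3 n w) :
    w.Perm (List.range n) ∨ (∃ w' s t, w = w' ++ [t] ∧ 3 ≤ w'.count s ∧ 4 ≤ w'.length) ∨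
      (∃ w' t, t < n ∧ w = w' ++ [t] ∧ w'.Perm (t :: t :: (List.range n).erase t)) ∨
      (n = 2 ∧ ∃ s t, w = [s, s, s, t]) := by
  rcases r3_qw hw with h | ⟨hl, i, hi, h3⟩
  · exact Or.inl h
  right
  have hne : w ≠ [] := by
    rintro rfl
    simp at hl
  obtain ⟨w', t, rfl⟩ : ∃ w' t, w = w' ++ [t] :=
    ⟨w.dropLast, w.getLast hne, (List.dropLast_append_getLast hne).symm⟩
  rw [List.length_append, List.length_singleton] at hl
  have hcnt : ∀ s, (w' ++ [t]).count s = w'.count s + if t = s then 1 else 0 := by
    intro s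
    rw [List.count_append, List.count_cons, List.count_nil]
    simp
  have ht : t < n := hw.1 t (by simp)
  by_cases hB : ∃ s, 3 ≤ w'.count s
  · obtain ⟨s, hs⟩ := hB
    by_cases h4 : 4 ≤ w'.length
    · exact Or.inl ⟨w', s, t, rfl, hs, h4⟩
    · right; right
      have hl3 : w'.length = 3 := by omega
      refine ⟨by omega, s, t, ?_⟩
      have hc : w'.count s = w'.length := by
        have := List.count_le_length (a := s) (l := w')
        omega
      have h5 := List.count_eq_length.1 hc
      have h6 : w' = List.replicate 3 s := by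
        rw [List.eq_replicate_iff]
        exact ⟨hl3, fun b hb => (h5 b hb).symm⟩
      rw [h6]
      rfl
  · right; left
    push Not at hB
    refine ⟨w', t, ht, rfl, ?_⟩
    have h1 : ∀ s < n, s ≠ t → w'.count s = 1 := by
      intro s hs hst
      have h2 := r3_odd hw hs
      have h4 := hB s
      rw [hcnt, if_neg (Ne.symm hst)] at h2
      omega
    have h2 : w'.count t = 2 := by
      have h5 := r3_odd hw ht
      rw [hcnt, if_pos rfl] at h5
      have h6 := hB t
      by_cases hit : i = t
      · subst hit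
        rw [hcnt, if_pos rfl] at h3
        omega
      · rw [hcnt, if_neg (fun h => hit h.symm), h1 i hi hit] at h3
        omega
    rw [List.perm_iff_count]
    intro x
    rw [List.count_cons, List.count_cons, r3_ec]
    by_cases hxt : x = t
    · subst hxt
      simp [h2]
    · have hxt' : (t == x) = false := by
        rw [beq_eq_false_iff_ne]
        exact Ne.symm hxt
      rw [hxt']
      by_cases hxn : x < n
      · rw [h1 x hxn hxt, if_pos ⟨hxn, hxt⟩]
        simp
      · rw [if_neg (fun h => hxn h.1), List.count_eq_zero.2 (fun hm => hxn (hw.1 x (by simp [hm])))]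
        simp

private theorem r3_map : ∀ (s R : List ℕ), s.Nodup → s.length = R.length →
    ∃ ψ : ℕ → ℕ, s.map ψ = R := by
  intro s
  induction s with
  | nil =>
    intro R _ h
    refine ⟨id, ?_⟩
    rw [List.length_nil] at h
    rw [List.map_nil, List.eq_nil_of_length_eq_zero h.symm]
  | cons a s ih =>
    intro R hs h
    rcases R with _ | ⟨b, R⟩
    · simp at h
    · obtain ⟨ψ, hψ⟩ := ih R (List.nodup_cons.1 hs).2 (by simpa using h)
      refine ⟨Function.update ψ a b, ?_⟩
      rw [List.map_cons, Function.update_self]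
      congr 1
      rw [← hψ]
      refine List.map_congr_left fun x hx => ?_
      rw [Function.update_of_ne]
      rintro rfl
      exact (List.nodup_cons.1 hs).1 hx

private theorem r3_sbm (ψ : ℕ → ℕ) (w : List ℕ) : sb (fun x => X (ψ x)) (mon w) = mon (w.map ψ) := by
  rw [sb_mon]
  unfold mon
  rw [List.map_map]
  rfl

private theorem r3_F {J : Submodule ℤ P} (hT : IsT J) {n i : ℕ} (hi : i < n)
    (h : mon (n :: (n + 1) :: ((List.range n).erase i ++ [i])) +
      mon (i :: (n + 1) :: ((List.range n).erase i ++ [n])) +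
      mon (i :: n :: ((List.range n).erase i ++ [n + 1])) ∈ J) (e p q : ℕ) (R : List ℕ)
    (hR : R.length = n - 1) :
    mon (p :: q :: (R ++ [e])) + mon (e :: q :: (R ++ [p])) + mon (e :: p :: (R ++ [q])) ∈ J := by
  have hl : ((List.range n).erase i).length = n - 1 := by
    rw [List.length_erase_of_mem (List.mem_range.2 hi), List.length_range]
  have hnm : ∀ x ∈ (List.range n).erase i, x < n ∧ x ≠ i := by
    intro x hx
    rw [List.nodup_range.mem_erase_iff, List.mem_range] at hx
    exact ⟨hx.2, hx.1⟩
  obtain ⟨ψ, hψ⟩ := r3_map (i :: n :: (n + 1) :: (List.range n).erase i) (e :: p :: q :: R) (by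
    rw [List.nodup_cons, List.nodup_cons, List.nodup_cons]
    refine ⟨?_, ?_, ?_, List.nodup_range.erase _⟩
    · intro hm
      rw [List.mem_cons, List.mem_cons] at hm
      rcases hm with hm | hm | hm
      · omega
      · omega
      · exact (hnm _ hm).2 rfl
    · intro hm
      rw [List.mem_cons] at hm
      rcases hm with hm | hm
      · omega
      · have := (hnm _ hm).1
        omega
    · intro hm
      have := (hnm _ hm).1
      omega) (by simp only [List.length_cons, hl, hR])
  simp only [List.map_cons, List.cons.injEq] at hψ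
  obtain ⟨h1, h2, h3, h4⟩ := hψ
  have h5 := sb_mem hT (φ := fun x => X (ψ x)) (fun x => X_mem _) h
  rw [map_add, map_add, r3_sbm, r3_sbm, r3_sbm] at h5
  simpa only [List.map_cons, List.map_append, List.map_nil, h1, h2, h3, h4] using h5

private theorem r3_C {J : Submodule ℤ P} (hD : Dn 3 ≤ J) {n : ℕ}
    (h : ∀ (e p q : ℕ) (R : List ℕ), R.length = n + 1 →
    mon (p :: q :: (R ++ [e])) + mon (e :: q :: (R ++ [p])) + mon (e :: p :: (R ++ [q])) ∈ J)
    (p q d e : ℕ) (R : List ℕ) (hR : R.length = n) :
    mon (p :: q :: d :: (R ++ [e])) - mon (p :: q :: e :: (R ++ [d])) ∈ J := by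
  have h1 := h e p q (d :: R) (by simp [hR])
  have h2 := h d p q (e :: R) (by simp [hR])
  have h3 : mon ((e :: q :: d :: R) ++ [p]) - mon ((d :: q :: e :: R) ++ [p]) ∈ J := by
    refine r3_perm hD ?_ _ (by simp)
    exact ((List.Perm.swap q e _).trans (((List.Perm.swap d e _).cons q).trans
      (List.Perm.swap d q _)))
  have h4 : mon ((e :: p :: d :: R) ++ [q]) - mon ((d :: p :: e :: R) ++ [q]) ∈ J := by
    refine r3_perm hD ?_ _ (by simp)
    exact ((List.Perm.swap p e _).trans (((List.Perm.swap d e _).cons p).trans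
      (List.Perm.swap d p _)))
  simp only [List.cons_append] at h1 h2 h3 h4
  have e0 : mon (p :: q :: d :: (R ++ [e])) - mon (p :: q :: e :: (R ++ [d])) =
      (mon (p :: q :: d :: (R ++ [e])) + mon (e :: q :: d :: (R ++ [p])) +
        mon (e :: p :: d :: (R ++ [q]))) -
      (mon (p :: q :: e :: (R ++ [d])) + mon (d :: q :: e :: (R ++ [p])) +
        mon (d :: p :: e :: (R ++ [q]))) -
      (mon (e :: q :: d :: (R ++ [p])) - mon (d :: q :: e :: (R ++ [p]))) -
      (mon (e :: p :: d :: (R ++ [q])) - mon (d :: p :: e :: (R ++ [q]))) := by abel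
  rw [e0]
  exact J.sub_mem (J.sub_mem (J.sub_mem h1 h2) h3) h4

private theorem r3_key {J : Submodule ℤ P} (hJ : Bt 3 J) (hD : Dn 3 ≤ J) {n i : ℕ} (hn : 2 ≤ n)
    (hi : i < n) {ω : ℤ} (h : ω • li i i n (n + 1) (Om n i) ∈ J) :
    ω • Om n i ∈ J ∨ ∃ c R, (List.range n).erase i = c :: R ∧ R.length = n - 2 ∧
      Om n i - mon (i :: i :: i :: (R ++ [c])) ∈ J := by
  have hT := hJ.isT
  by_cases h3 : (3 : ℤ) ∣ ω
  · left
    obtain ⟨k, rfl⟩ := h3
    rw [mul_comm, mul_smul]
    exact J.smul_mem _ (hJ.mul _ (mon_mem (by simp)))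
  right
  have hl : ((List.range n).erase i).length = n - 1 := by
    rw [List.length_erase_of_mem (List.mem_range.2 hi), List.length_range]
  have hni : i ∉ (List.range n).erase i := by
    intro hm
    rw [List.nodup_range.mem_erase_iff] at hm
    exact hm.1 rfl
  have e1 : li i i n (n + 1) (Om n i) =
      mon (i :: n :: ((List.range n).erase i ++ [n + 1])) +
      mon (i :: (n + 1) :: ((List.range n).erase i ++ [n])) +
      mon (n :: i :: ((List.range n).erase i ++ [n + 1])) +
      mon (n :: (n + 1) :: ((List.range n).erase i ++ [i])) +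
      mon ((n + 1) :: i :: ((List.range n).erase i ++ [n])) +
      mon ((n + 1) :: n :: ((List.range n).erase i ++ [i])) := by
    have := li_three i n (n + 1) (i := i) (u := []) (v := []) (s := (List.range n).erase i)
      (t := []) (by simp) (by simp) hni (by simp)
    unfold Om
    simpa only [List.nil_append] using this
  have hsw : ∀ a b t : ℕ, mon (a :: b :: ((List.range n).erase i ++ [t])) -
      mon (b :: a :: ((List.range n).erase i ++ [t])) ∈ J := by
    intro a b t
    have := r3_perm hD (List.Perm.swap b a ((List.range n).erase i)) t (by simp)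
    simpa only [List.cons_append] using this
  have h4 : mon (n :: (n + 1) :: ((List.range n).erase i ++ [i])) +
      mon (i :: (n + 1) :: ((List.range n).erase i ++ [n])) +
      mon (i :: n :: ((List.range n).erase i ++ [n + 1])) ∈ J := by
    have h5 : ¬ ((3 : ℕ) : ℤ) ∣ ω * 2 := by
      intro hd
      have hp : Prime (3 : ℤ) := Int.prime_three
      rcases hp.dvd_or_dvd hd with h6 | h6
      · exact h3 h6
      · omega
    refine cancel Nat.prime_three hJ.mul.sq h5 ?_ ?_
    · exact Pp.add_mem (Pp.add_mem (mon_mem (by simp)) (mon_mem (by simp))) (mon_mem (by simp))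
    · have e2 : (ω * 2) • (mon (n :: (n + 1) :: ((List.range n).erase i ++ [i])) +
          mon (i :: (n + 1) :: ((List.range n).erase i ++ [n])) +
          mon (i :: n :: ((List.range n).erase i ++ [n + 1]))) =
          ω • li i i n (n + 1) (Om n i) -
          ω • (mon (n :: i :: ((List.range n).erase i ++ [n + 1])) -
            mon (i :: n :: ((List.range n).erase i ++ [n + 1]))) -
          ω • (mon ((n + 1) :: i :: ((List.range n).erase i ++ [n])) -
            mon (i :: (n + 1) :: ((List.range n).erase i ++ [n]))) -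
          ω • (mon ((n + 1) :: n :: ((List.range n).erase i ++ [i])) -
            mon (n :: (n + 1) :: ((List.range n).erase i ++ [i]))) := by
        rw [e1, mul_smul, two_smul, ← smul_sub, ← smul_sub, ← smul_sub]
        congr 1
        abel
      rw [e2]
      exact J.sub_mem (J.sub_mem (J.sub_mem h (J.smul_mem _ (hsw _ _ _))) (J.smul_mem _ (hsw _ _ _)))
        (J.smul_mem _ (hsw _ _ _))
  have h5 := r3_F hT hi h4
  obtain ⟨m, rfl⟩ : ∃ m, n = m + 2 := ⟨n - 2, by omega⟩
  rcases hs : (List.range (m + 2)).erase i with _ | ⟨c, R⟩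
  · rw [hs] at hl
    simp at hl
  · refine ⟨c, R, rfl, ?_, ?_⟩
    · rw [hs, List.length_cons] at hl
      omega
    · have h6 := r3_C hD (n := m) (fun e p q R hR => h5 e p q R (by omega)) i i c i R (by
        rw [hs, List.length_cons] at hl
        omega)
      unfold Om
      rw [hs]
      exact h6

private theorem r3_li0 {n i k : ℕ} (hi : i < n) (hk : k ≠ i) : li i i n (n + 1) (Om n k) = 0 := by
  have hc : (k :: k :: ((List.range n).erase k ++ [k])).count i = 1 := by
    have hki : (k == i) = false := by
      rw [beq_eq_false_iff_ne]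
      exact hk
    rw [List.count_cons, List.count_cons, List.count_append, r3_ec, List.count_cons,
      List.count_nil, hki, if_pos ⟨hi, Ne.symm hk⟩]
    simp
  unfold Om
  exact li_zero _ _ _ (by omega) (by omega)

private theorem r3_main {J : Submodule ℤ P} (hJ : Bt 3 J) (hD : Dn 3 ≤ J) {n : ℕ}
    {N0 : Submodule ℤ P} (h0 : ∀ b ∈ N0, ∀ i < n, li i i n (n + 1) b ∈ J)
    (hmem : ∀ w, qw 3 n w → mon w ∈ J ⊔ (N0 ⊔ Submodule.span ℤ (Om n '' (Finset.range n))))
    {g : P} (hg : g ∈ Q 3 n) (hA : Ad J n g)
    (hkey : ∀ i < n, ∀ ω : ℤ, ω • li i i n (n + 1) (Om n i) ∈ J → ω • Om n i ∈ J ⊔ N0) :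
    g ∈ J ⊔ N0 := by
  have hT := hJ.isT
  obtain ⟨j, hj, y, hy, hjy⟩ := Submodule.mem_sup.1 (r3_ind hmem hg)
  obtain ⟨b, hb, o, ho, hbo⟩ := Submodule.mem_sup.1 hy
  obtain ⟨ω, hω⟩ := (Submodule.mem_span_image_finset_iff_exists_fun' ℤ).1 ho
  have h1 : ∀ i ∈ Finset.range n, ω i • Om n i ∈ J ⊔ N0 := by
    intro i hi
    have hi' := Finset.mem_range.1 hi
    refine hkey i hi' _ ?_
    have h2 := li_Ad hT hg hA hi'
    rw [← hjy, ← hbo, ← hω, map_add, map_add, map_sum] at h2
    have h3 : ∑ x ∈ Finset.range n, li i i n (n + 1) (ω x • Om n x) =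
        ω i • li i i n (n + 1) (Om n i) := by
      rw [Finset.sum_eq_single i]
      · rw [map_smul]
      · intro k _ hk
        rw [map_smul, r3_li0 hi' hk, smul_zero]
      · intro h
        exact absurd hi h
    rw [h3] at h2
    have h4 : li i i n (n + 1) j ∈ J := TOp_li 3 i i n (n + 1) J hT hJ.mul.sq j hj
    have e : ω i • li i i n (n + 1) (Om n i) =
        (li i i n (n + 1) j + (li i i n (n + 1) b + ω i • li i i n (n + 1) (Om n i))) -
          li i i n (n + 1) j - li i i n (n + 1) b := by abel
    rw [e]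
    exact J.sub_mem (J.sub_mem h2 h4) (h0 b hb i hi')
  rw [← hjy, ← hbo, ← hω]
  exact Submodule.add_mem _ (Submodule.mem_sup_left hj) (Submodule.add_mem _
    (Submodule.mem_sup_right hb) (Submodule.sum_mem _ h1))

theorem Rd_3 {J : Submodule ℤ P} (hJ : Bt 3 J) (h3 : g3 ∈ J) (hx : X 0 ^ 3 * X 1 * X 2 ∈ J)
    (hs : X 0 ^ 3 * X 1 - X 1 ^ 3 * X 0 ∈ J) : Rd J := by
  have hT := hJ.isT
  have hD := Dn_of_g3 hT h3
  have hcls : ∀ n, 2 ≤ n → ∀ N0 : Submodule ℤ P,
      (∀ w : List ℕ, w.Perm (List.range n) → mon w ∈ N0) →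
      (n = 2 → ∀ s t, qw 3 n [s, s, s, t] → mon [s, s, s, t] ∈ J ⊔ N0) →
      ∀ w, qw 3 n w → mon w ∈ J ⊔ (N0 ⊔ Submodule.span ℤ (Om n '' (Finset.range n))) := by
    intro n hn N0 hb h4 w hw
    rcases r3_cls hn hw with h | ⟨w', s, t, rfl, h1, h2⟩ | ⟨w', t, ht, rfl, hp⟩ | ⟨h2, s, t, rfl⟩
    · exact Submodule.mem_sup_right (Submodule.mem_sup_left (hb w h))
    · exact Submodule.mem_sup_left (r3_good hT hD hx h1 h2)
    · have hd := r3_perm hD hp t (by rw [hp.length_eq]; simp)
      have e0 : mon (w' ++ [t]) = (mon (w' ++ [t]) - mon ((t :: t :: (List.range n).erase t) ++ [t])) +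
          mon ((t :: t :: (List.range n).erase t) ++ [t]) := by abel
      rw [e0]
      refine Submodule.add_mem _ (Submodule.mem_sup_left hd) (Submodule.mem_sup_right
        (Submodule.mem_sup_right (Submodule.subset_span ⟨t, ?_, rfl⟩)))
      exact Finset.mem_coe.2 (Finset.mem_range.2 ht)
    · exact sup_le_sup_left le_sup_left J (h4 h2 s t hw)
  have hX1 : X 1 ^ 3 * X 0 ∈ J ⊔ Submodule.span ℤ {X 0 * X 1, X 1 * X 0, X 0 ^ 3 * X 1} := by
    have e1 : X 1 ^ 3 * X 0 = X 0 ^ 3 * X 1 - (X 0 ^ 3 * X 1 - X 1 ^ 3 * X 0) := by abel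
    rw [e1]
    exact Submodule.sub_mem _
      (Submodule.mem_sup_right (Submodule.subset_span (Or.inr (Or.inr rfl))))
      (Submodule.mem_sup_left hs)
  have hX0 : X 0 ^ 3 * X 1 ∈ J ⊔ Submodule.span ℤ {X 0 * X 1, X 1 * X 0, X 0 ^ 3 * X 1} :=
    Submodule.mem_sup_right (Submodule.subset_span (Or.inr (Or.inr rfl)))
  refine ⟨?_, hs, ?_⟩
  · intro g hg hA
    refine r3_main hJ hD ?_ (hcls 2 le_rfl _ ?_ ?_) hg hA ?_
    · intro b hb i hi
      have hsp : Submodule.span ℤ {X 0 * X 1, X 1 * X 0, X 0 ^ 3 * X 1} ≤
          J.comap (li i i 2 (2 + 1)) := by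
        have hi' : i = 0 ∨ i = 1 := by omega
        refine Submodule.span_le.2 ?_
        rintro f (rfl | rfl | rfl)
        · have e : X 0 * X 1 = mon [0, 1] := by rw [mon_cons, mon_single]
          show li i i 2 (2 + 1) (X 0 * X 1) ∈ J
          rw [e, li_zero]
          · exact J.zero_mem
          · rcases hi' with rfl | rfl <;> decide
          · rcases hi' with rfl | rfl <;> decide
        · have e : X 1 * X 0 = mon [1, 0] := by rw [mon_cons, mon_single]
          show li i i 2 (2 + 1) (X 1 * X 0) ∈ J
          rw [e, li_zero]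
          · exact J.zero_mem
          · rcases hi' with rfl | rfl <;> decide
          · rcases hi' with rfl | rfl <;> decide
        · show li i i 2 (2 + 1) (X 0 ^ 3 * X 1) ∈ J
          rw [← r3_31]
          rcases hi' with rfl | rfl
          · have e := li_three 0 2 (2 + 1) (i := 0) (u := []) (v := []) (s := []) (t := [1])
              (by simp) (by simp) (by simp) (by simp)
            simp only [List.nil_append] at e
            rw [e]
            have hp : ∀ a b c : ℕ, [a, b, c].Perm [0, 2, 2 + 1] →
                mon [a, b, c, 1] - mon [0, 2, 2 + 1, 1] ∈ J := by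
              intro a b c h
              exact r3_perm hD h 1 (by simp)
            have p1 := hp 0 (2 + 1) 2 (by decide)
            have p2 := hp 2 0 (2 + 1) (by decide)
            have p3 := hp 2 (2 + 1) 0 (by decide)
            have p4 := hp (2 + 1) 0 2 (by decide)
            have p5 := hp (2 + 1) 2 0 (by decide)
            have p6 : (3 : ℤ) • mon [0, 2, 2 + 1, 1] ∈ J := hJ.mul _ (mon_mem (by simp))
            have e2 : mon [0, 2, 2 + 1, 1] + mon [0, 2 + 1, 2, 1] + mon [2, 0, 2 + 1, 1] +
                mon [2, 2 + 1, 0, 1] + mon [2 + 1, 0, 2, 1] + mon [2 + 1, 2, 0, 1] =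
                (mon [0, 2 + 1, 2, 1] - mon [0, 2, 2 + 1, 1]) +
                (mon [2, 0, 2 + 1, 1] - mon [0, 2, 2 + 1, 1]) +
                (mon [2, 2 + 1, 0, 1] - mon [0, 2, 2 + 1, 1]) +
                (mon [2 + 1, 0, 2, 1] - mon [0, 2, 2 + 1, 1]) +
                (mon [2 + 1, 2, 0, 1] - mon [0, 2, 2 + 1, 1]) +
                (2 : ℤ) • ((3 : ℤ) • mon [0, 2, 2 + 1, 1]) := by
              rw [show (2 : ℤ) = 1 + 1 by norm_num, show (3 : ℤ) = 1 + 1 + 1 by norm_num]
              simp only [add_smul, one_smul]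
              abel
            rw [e2]
            exact J.add_mem (J.add_mem (J.add_mem (J.add_mem (J.add_mem p1 p2) p3) p4) p5)
              (J.smul_mem _ p6)
          · rw [li_zero]
            · exact J.zero_mem
            · decide
            · decide
      exact hsp hb
    · intro w hw
      refine Submodule.subset_span ?_
      rcases r3_two hw with rfl | rfl
      · left
        rw [mon_cons, mon_single]
      · right; left
        rw [mon_cons, mon_single]
    · intro _ s t hst
      rw [r3_31]
      have hs2 : s < 2 := hst.1 s (by simp)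
      have ht2 : t < 2 := hst.1 t (by simp)
      have hne : s ≠ t := by
        rintro rfl
        have := r3_odd hst hs2
        simp at this
      have h5 : s = 0 ∨ s = 1 := by omega
      rcases h5 with rfl | rfl
      · have : t = 1 := by omega
        subst this
        exact hX0
      · have : t = 0 := by omega
        subst this
        exact hX1
    · intro i hi ω hω
      rcases r3_key hJ hD le_rfl hi hω with h | ⟨c, R, h1, h2, h3⟩
      · exact Submodule.mem_sup_left h
      · have hR : R = [] := List.eq_nil_of_length_eq_zero (by omega)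
        subst hR
        have e0 : Om 2 i = (Om 2 i - mon (i :: i :: i :: ([] ++ [c]))) + X i ^ 3 * X c := by
          rw [← r3_31]
          simp only [List.nil_append]
          abel
        rw [e0]
        refine Submodule.smul_mem _ _ (Submodule.add_mem _ (Submodule.mem_sup_left h3) ?_)
        have hc : c < 2 ∧ c ≠ i := by
          have hm : c ∈ (List.range 2).erase i := by rw [h1]; simp
          rw [List.nodup_range.mem_erase_iff, List.mem_range] at hm
          exact ⟨hm.2, hm.1⟩
        have h5 : i = 0 ∨ i = 1 := by omega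
        rcases h5 with rfl | rfl
        · have : c = 1 := by omega
          subst this
          exact hX0
        · have : c = 0 := by omega
          subst this
          exact hX1
  · intro n hn g hg hA
    refine r3_main hJ hD ?_ (hcls n (by omega) _ ?_ ?_) hg hA ?_
    · intro b hb i hi
      have : li i i n (n + 1) b = 0 := by
        refine Ml_ind (C := fun b => li i i n (n + 1) b = 0) (map_zero _) ?_ ?_ ?_ hb
        · intro f g hf hg
          rw [map_add, hf, hg, add_zero]
        · intro c f hf
          rw [map_smul, hf, smul_zero]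
        · intro w hw
          have hc : w.count i = 1 := by
            rw [hw.count_eq, List.count_eq_one_of_mem List.nodup_range (List.mem_range.2 hi)]
          exact li_zero _ _ _ (by omega) (by omega)
      rw [this]
      exact J.zero_mem
    · intro w hw
      exact Ml_mon hw
    · intro h
      omega
    · intro i hi ω hω
      rcases r3_key hJ hD (by omega) hi hω with h | ⟨c, R, h1, h2, h3⟩
      · exact Submodule.mem_sup_left h
      · refine Submodule.smul_mem _ _ (Submodule.mem_sup_left ?_)
        rcases R with _ | ⟨a, R⟩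
        · simp at h2
          omega
        · have h4 : mon (i :: i :: i :: ((a :: R) ++ [c])) ∈ J := by
            rcases R with _ | ⟨b, R⟩
            · exact r3_C2 hT hx i a c []
            · exact r3_C2 hT hx i a b (R ++ [c])
          have e0 : Om n i = (Om n i - mon (i :: i :: i :: ((a :: R) ++ [c]))) +
              mon (i :: i :: i :: ((a :: R) ++ [c])) := by abel
          rw [e0]
          exact J.add_mem h3 h4

end ADP
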