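import Pool.Agent.ADP.Rd
import Pool.Agent.ADP.Rd3
import Pool.Agent.ADP.Mod3
import Pool.Agent.ADP.Pair2
import Pool.Agent.ADC.Nf

/-!
# ADP-NoP3: exponent 3: no linked pair
-/

namespace ADP

open AD ADN ADC

theorem Ty.Rd {J : Submodule ℤ P} (hJ : Bt 3 J) (h : Ty J) : Rd J := by
  rcases h with h | h | h | h | h
  · exact Rd_1 hJ h.1 h.2
  · exact Rd_C hJ h.2.1 h.2.2.1 h.2.2.2
  · exact Rd_3 hJ h.1 h.2.1 h.2.2
  · exact Rd_4 hJ h.2
  · exact Rd_C hJ h.2.1 h.2.2.1 h.2.2.2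

private theorem np3_Fge (n : ℕ) : Ml n ≤ Fge n := by
  refine Submodule.span_mono ?_
  rintro f ⟨w, hw, rfl⟩
  refine ⟨w, ?_, rfl⟩
  rw [hw.length_eq, List.length_range]

private theorem np3_mw {n : ℕ} (hn : 1 ≤ n) : mw n ∈ Pp :=
  Ml_Pp hn (Submodule.subset_span ⟨_, List.Perm.refl _, rfl⟩)

private theorem np3_Yw (n k : ℕ) : Yw n k ∈ Pp := mon_mem (by simp)

private theorem np3_rn : rn 3 (Equiv.swap 0 1) (X 0) = X 1 ∧ rn 3 (Equiv.swap 0 1) (X 1) = X 0 ∧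
    rn 3 (Equiv.swap 0 1) (X 2) = X 2 := by
  refine ⟨?_, ?_, ?_⟩
  · rw [rn_X, dif_pos (by norm_num)]
    rfl
  · rw [rn_X, dif_pos (by norm_num)]
    rfl
  · rw [rn_X, dif_pos (by norm_num)]
    rfl

private theorem np3_two {I : Submodule ℤ P} (hb : Bt 3 I) (h5 : g5 ∈ I) {a : P} (ha : a ∈ Ml 3) :
    a - tl (rn 3 (Equiv.swap 0 1)) a ∈ I ⊔ Submodule.span ℤ {X 0 * X 1 * X 2 - X 1 * X 0 * X 2} ∧
    a + tl (rn 3 (Equiv.swap 0 1)) a ∈ I ⊔ Submodule.span ℤ {X 0 * X 1 * X 2 + X 1 * X 0 * X 2} := by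
  have hT : TOp 3 (tl (rn 3 (Equiv.swap 0 1))) := TOp_rn 3 3 _
  obtain ⟨i, hi, s, hs, rfl⟩ := Submodule.mem_sup.1 (two_cl hb.isT h5 ha)
  obtain ⟨α, β, rfl⟩ := Submodule.mem_span_pair.1 hs
  have hti : tl (rn 3 (Equiv.swap 0 1)) i ∈ I := hT I hb.isT hb.mul.sq i hi
  have e1 : tl (rn 3 (Equiv.swap 0 1)) (α • (X 0 * X 1 * X 2) + β • (X 1 * X 0 * X 2)) =
      α • (X 1 * X 0 * X 2) + β • (X 0 * X 1 * X 2) := by
    rw [map_add, map_smul, map_smul]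
    simp only [tl_apply, map_mul, np3_rn.1, np3_rn.2.1, np3_rn.2.2]
  rw [map_add, e1]
  constructor
  · have e2 : (i + (α • (X 0 * X 1 * X 2) + β • (X 1 * X 0 * X 2))) -
        (tl (rn 3 (Equiv.swap 0 1)) i + (α • (X 1 * X 0 * X 2) + β • (X 0 * X 1 * X 2))) =
        (i - tl (rn 3 (Equiv.swap 0 1)) i) + (α - β) • (X 0 * X 1 * X 2 - X 1 * X 0 * X 2) := by
      module
    rw [e2]
    exact Submodule.add_mem _ (Submodule.mem_sup_left (I.sub_mem hi hti))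
      (Submodule.mem_sup_right (Submodule.smul_mem _ _ (Submodule.mem_span_singleton_self _)))
  · have e2 : (i + (α • (X 0 * X 1 * X 2) + β • (X 1 * X 0 * X 2))) +
        (tl (rn 3 (Equiv.swap 0 1)) i + (α • (X 1 * X 0 * X 2) + β • (X 0 * X 1 * X 2))) =
        (i + tl (rn 3 (Equiv.swap 0 1)) i) + (α + β) • (X 0 * X 1 * X 2 + X 1 * X 0 * X 2) := by
      module
    rw [e2]
    exact Submodule.add_mem _ (Submodule.mem_sup_left (I.add_mem hi hti))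
      (Submodule.mem_sup_right (Submodule.smul_mem _ _ (Submodule.mem_span_singleton_self _)))

private theorem np3_five {I A B C : Submodule ℤ P} (h : Lk 3 I A B C) (hb : Bt 3 I) (h5 : g5 ∈ I) {a b : P}
    (ha : a ∈ Ml 3) (hb' : b ∈ Ml 3) (hl : Lnk A B C a b) : a ∈ I := by
  obtain ⟨a1, a2⟩ := np3_two hb h5 ha
  obtain ⟨b1, b2⟩ := np3_two hb h5 hb'
  have hTτ : TOp 3 (tl (rn 3 (Equiv.swap 0 1))) := TOp_rn 3 3 _
  have l1 := hl.map h ((TOp.id' 3).sub hTτ)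
  have l2 := hl.map h ((TOp.id' 3).add hTτ)
  have e1 : ∀ f : P, (LinearMap.id - tl (rn 3 (Equiv.swap 0 1)) : P →ₗ[ℤ] P) f =
    f - tl (rn 3 (Equiv.swap 0 1)) f := fun f => rfl
  have e2 : ∀ f : P, (LinearMap.id + tl (rn 3 (Equiv.swap 0 1)) : P →ₗ[ℤ] P) f =
    f + tl (rn 3 (Equiv.swap 0 1)) f := fun f => rfl
  rw [e1, e1] at l1
  rw [e2, e2] at l2
  have m1 : (X 0 * X 1 * X 2 : P) ∈ Pp := Pp_mul_left _ (X_mem 2)
  have m2 : (X 1 * X 0 * X 2 : P) ∈ Pp := Pp_mul_left _ (X_mem 2)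
  have c1 := h.np hb.pp l1 (Pp.sub_mem m1 m2) a1 b1
  have c2 := h.np hb.pp l2 (Pp.add_mem m1 m2) a2 b2
  refine cancel hb.pp hb.mul.sq (c := 2) ?_ (h.hA.le hl.1) ?_
  · intro c4
    have := Int.le_of_dvd (by norm_num) c4
    omega
  · have c4 := I.add_mem c2 c1
    refine (congrArg (fun f => f ∈ I) ?_).mp c4
    rw [two_smul]
    abel

private theorem np3_C {I A B C : Submodule ℤ P} (h : Lk 3 I A B C) (hb : Bt 3 I) (h4 : Cn 4 ≤ I) {n : ℕ}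
    (hn : 4 ≤ n) {a b : P} (ha : a ∈ Ml n) (hb' : b ∈ Ml n) (hl : Lnk A B C a b) : a ∈ I := by
  have h1 := one_n ((Cn_anti hn).trans h4)
  exact h.np hb.pp hl (np3_mw (by omega)) (h1 ha) (h1 hb')

theorem pM {I A B C : Submodule ℤ P} (h : Lk 3 I A B C) (hb : Bt 3 I) (hT : Ty I) {n : ℕ} (hn : 3 ≤ n) {a b : P}
    (ha : a ∈ Ml n) (hb' : b ∈ Ml n) (hl : Lnk A B C a b) : a ∈ I := by
  have hYm : ∀ k < 3, Ym k ∈ Pp := fun k _ => Ml_Pp (by norm_num) (Ym_Ml k)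
  have hYl : ∀ k < 3, Yl k ∈ Pp := fun k _ => Ml_Pp (by norm_num) (Yl_Ml k)
  rcases hT with ⟨h1, h5⟩ | ⟨h2, h4, _, _⟩ | ⟨h3, _, _⟩ | ⟨h4, h4'⟩ | ⟨h5, h4, _, _⟩
  · rcases (show n = 3 ∨ n = 4 ∨ 5 ≤ n by omega) with rfl | rfl | h6
    · obtain ⟨m1, m2⟩ := mid (ε := -1) hb.isT (Or.inr rfl) (by
        have e : X 0 * X 1 * X 2 - (-1 : ℤ) • (X 2 * X 1 * X 0) = g1 := by
          unfold g1
          module
        rw [e]
        exact h1)
      exact P1 hb.pp h hb.mul (Or.inr rfl) hYm m2 (m1 ha) (m1 hb') hl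
    · have m1 := alt4 hb.isT h1
      exact h.np hb.pp hl (np3_mw (by norm_num)) (m1 ha) (m1 hb')
    · exact h5 (Fge_anti h6 (np3_Fge n ha))
  · rcases (show n = 3 ∨ 4 ≤ n by omega) with rfl | h6
    · obtain ⟨m1, m2⟩ := mid (ε := 1) hb.isT (Or.inl rfl) (by
        have e : X 0 * X 1 * X 2 - (1 : ℤ) • (X 2 * X 1 * X 0) = g2 := by
          unfold g2
          module
        rw [e]
        exact h2)
      exact P1 hb.pp h hb.mul (Or.inl rfl) hYm m2 (m1 ha) (m1 hb') hl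
    · exact np3_C h hb h4 h6 ha hb' hl
  · obtain ⟨m1, m2⟩ := last_n hb.isT h3 (n := n) (by omega)
    exact P1 hb.pp h hb.mul (Or.inl rfl) (fun k _ => np3_Yw n k) m2 (m1 ha) (m1 hb') hl
  · rcases (show n = 3 ∨ 4 ≤ n by omega) with rfl | h6
    · obtain ⟨m1, m2⟩ := last (ε := -1) hb.isT (Or.inr rfl) (by
        have e : X 0 * X 1 * X 2 - (-1 : ℤ) • (X 1 * X 0 * X 2) = g4 := by
          unfold g4
          rw [add_mul]
          module
        rw [e]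
        exact h4)
      exact P1 hb.pp h hb.mul (Or.inr rfl) hYl m2 (m1 ha) (m1 hb') hl
    · exact h4' (Fge_anti h6 (np3_Fge n ha))
  · rcases (show n = 3 ∨ 4 ≤ n by omega) with rfl | h6
    · exact np3_five h hb h5 ha hb' hl
    · exact np3_C h hb h4 h6 ha hb' hl

theorem noP3 {I A B C : Submodule ℤ P} (h : Lk 3 I A B C) (hb : Bt 3 I) (hT : Ty I) : False := by
  have hR : Rd I := hT.Rd hb
  obtain ⟨n, a, b, hn, ha, hbQ, hl, haI, hAa, hAb⟩ := nf hb.pp le_rfl h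
  rcases (show n = 1 ∨ n = 2 ∨ 3 ≤ n by omega) with rfl | rfl | hn3
  · exact haI (Pair1 h hb ha hbQ hl)
  · exact haI (Pair2 h hb hR.sym (hR.two a ha hAa) (hR.two b hbQ hAb) hl)
  · obtain ⟨i, hi, a', ha', e1⟩ := Submodule.mem_sup.1 (hR.three n hn3 a ha hAa)
    obtain ⟨i', hi', b', hb', e2⟩ := Submodule.mem_sup.1 (hR.three n hn3 b hbQ hAb)
    have f1 : a - a' ∈ I := by
      rw [← e1, add_sub_cancel_right]
      exact hi
    have f2 : b - b' ∈ I := by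
      rw [← e2, add_sub_cancel_right]
      exact hi'
    have h1 := pM h hb hT hn3 ha' hb' (hl.congr h f1 f2)
    exact haI (by rw [← e1]; exact I.add_mem hi h1)

end ADP
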