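import Pool.Agent.ADP.Tam

/-!
# ADP-Ty: the possible types for `p = 3`
-/

namespace ADP

open AD ADN ADC

/-- the five types (up to the opposite ones); everything exactly modulo `J` -/
def Ty (J : Submodule ℤ P) : Prop :=
  (g1 ∈ J ∧ Fge 5 ≤ J) ∨
  (g2 ∈ J ∧ Cn 4 ≤ J ∧ X 0 ^ 3 * X 1 * X 2 ∈ J ∧ X 0 ^ 3 * X 1 - X 1 ^ 3 * X 0 ∈ J) ∨
  (g3 ∈ J ∧ X 0 ^ 3 * X 1 * X 2 ∈ J ∧ X 0 ^ 3 * X 1 - X 1 ^ 3 * X 0 ∈ J) ∨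
  (g4 ∈ J ∧ Fge 4 ≤ J) ∨
  (g5 ∈ J ∧ Cn 4 ≤ J ∧ X 0 ^ 3 * X 1 * X 2 ∈ J ∧ X 0 ^ 3 * X 1 - X 1 ^ 3 * X 0 ∈ J)

end ADP
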