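import Pool.Agent.ADP.Npn
import Pool.Agent.ADP.Core1
import Pool.Agent.ADP.Qred
import Pool.Agent.ADP.Mod3
import Pool.Agent.ADP.Ty
import Pool.Agent.ADC.Nf

/-!
# ADP-NqP: exponent 9, the linked pair of multilinear polynomials

* `nq_word`: the words of `Q 3 n` which are not multilinear are in `J`, if `X 0 ^ 3 ∈ J` and `Ty J`: `qw 3 n w`, `n < w.length`: some letter `s` has count `≥ 3`, `w.length ≥ n + 2 ≥ 3`.  `n = 1`: `w = sss..`: in `J`.
  `n ≥ 2`: length `≥ 4`.  Types with `Cn 4 ≤ J`: `w ≡ sss r` (`perm_Cn`), in `J`.  `g4`: `Fge 4 ≤ J`.  `g1`: length `≥ 5`: `Fge 5 ≤ J`; length 4: `n = 2`, three equal letters: as in `Rd_1` (two equal letters in positions (13), (14) or (24),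
  exchanging them changes the sign: `2 w ∈ J`).  `g3`: modulo `J` the word depends only on content and last letter (`perm_Dn`, `Dn_of_g3` style): `w = w' ++ [t]`: if some letter has 3 occurrences in `w'`: move them to the front: in `J`.
  Otherwise `t` has count 3 (exactly 2 in `w'`) and all others 1: `w ≡ r t t t`, `r` nonempty: `mon r * X t ^ 3 ∈ J`.
* `nq_pr`: exactly as `nq_pr` in ADC.NoQ1 (`nf`, `Qred`).
-/

namespace ADP

open AD ADN ADC

/-- words with a cube -/
private theorem nq_cube {J : Submodule ℤ P} (hJ : IsT J) (hx : X 0 ^ 3 ∈ J) (s : ℕ) (u v : List ℕ) :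
    mon (u ++ (s :: s :: s :: v)) ∈ J := by
  have h1 : X s ^ 3 ∈ J := by
    have h := sb_mem hJ (φ := fun _ => X s) (fun _ => X_mem s) hx
    rwa [map_pow, sb_X] at h
  have h2 := IsT.lm hJ (mon u) (mon v) h1
  have h3 : mon (u ++ (s :: s :: s :: v)) = mon u * X s ^ 3 * mon v := by
    rw [mon_append, mon_cons, mon_cons, mon_cons, pow_three']
    simp only [mul_assoc]
  rw [h3]
  exact h2

private theorem nq_cnt {w : List ℕ} {s k : ℕ} (h : k ≤ w.count s) :
    ∃ r, w.Perm (List.replicate k s ++ r) :=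
  (List.replicate_sublist_iff.2 h).exists_perm_append

private theorem nq_ex {n : ℕ} {w : List ℕ} (h : qw 3 n w) (hl : n < w.length) :
    ∃ s < n, 3 ≤ w.count s := by
  by_contra hc
  push Not at hc
  have h1 : w.Nodup := by
    rw [List.nodup_iff_count_le_one]
    intro a
    by_cases ha : a ∈ w
    · have h2 := h.1 a ha
      have h3 := hc a h2
      have h4 := h.2 a h2
      omega
    · rw [List.count_eq_zero_of_not_mem ha]
      omega
  have h2 : w ⊆ List.range n := fun i hi => List.mem_range.2 (h.1 i hi)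
  have h3 := (List.subperm_of_subset h1 h2).length_le
  rw [List.length_range] at h3
  omega

private theorem nq_len {n : ℕ} (hn : 2 ≤ n) {w : List ℕ} (h : qw 3 n w) {s : ℕ} (hs : s < n)
    (h3 : 3 ≤ w.count s) : 4 ≤ w.length := by
  obtain ⟨t, ht, hts⟩ : ∃ t < n, t ≠ s := by
    by_cases h0 : s = 0
    · exact ⟨1, by omega, by omega⟩
    · exact ⟨0, by omega, by omega⟩
  obtain ⟨r, hr⟩ := nq_cnt h3
  have h4 := h.2 t ht
  have h5 : t ∈ w := by
    by_contra h6
    rw [List.count_eq_zero_of_not_mem h6] at h4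
    simp at h4
  have h6 : t ∈ List.replicate 3 s ++ r := hr.mem_iff.1 h5
  have h7 : t ∈ r := by
    rcases List.mem_append.1 h6 with h8 | h8
    · exact absurd (List.eq_of_mem_replicate h8) hts
    · exact h8
  have h8 := hr.length_eq
  rw [List.length_append, List.length_replicate] at h8
  have h9 := List.length_pos_of_mem h7
  omega

private theorem nq_Dn {J : Submodule ℤ P} (hJ : IsT J) (h3 : g3 ∈ J) : Dn 3 ≤ J := by
  refine Submodule.span_le.2 ?_
  rintro f ⟨u, v, i, j, hv, -, rfl⟩
  obtain ⟨a, t, rfl⟩ := List.exists_cons_of_ne_nil hv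
  have h1 := sb_mem hJ (φ := fun k => if k = 0 then X i else if k = 1 then X j else X a) (by
    intro k
    split_ifs
    · exact X_mem i
    · exact X_mem j
    · exact X_mem a) h3
  have h2 : sb (fun k => if k = 0 then X i else if k = 1 then X j else X a) g3 =
      (X i * X j - X j * X i) * X a := by
    unfold g3
    rw [map_mul, map_sub, map_mul, map_mul, sb_X, sb_X, sb_X]
    simp
  rw [h2] at h1
  have h4 := IsT.lm hJ (mon u) (mon t) h1
  have h5 : mon u * (X i * X j - X j * X i) * mon (a :: t) =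
      mon u * ((X i * X j - X j * X i) * X a) * mon t := by
    rw [mon_cons]
    simp only [mul_assoc]
  show mon u * (X i * X j - X j * X i) * mon (a :: t) ∈ J
  rw [h5]
  exact h4

private theorem nq_g1 {J : Submodule ℤ P} (hb : Bt 3 J) (h1 : g1 ∈ J) (s b : ℕ) :
    X s * X b * X s ∈ J := by
  have h2 := sb_mem hb.isT (φ := fun k => if k = 1 then X b else X s) (by
    intro k
    split_ifs
    · exact X_mem b
    · exact X_mem s) h1
  have h3 : sb (fun k => if k = 1 then X b else X s) g1 = (2 : ℤ) • (X s * X b * X s) := by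
    unfold g1
    rw [map_add, map_mul, map_mul, map_mul, map_mul, sb_X, sb_X, sb_X]
    simp [two_smul]
  rw [h3] at h2
  exact cancel hb.pp (Mul.sq hb.mul) (c := 2) (by norm_num) (Pp_mul_left _ (X_mem s)) h2

private theorem nq_C4 {J : Submodule ℤ P} (hJ : IsT J) (hx : X 0 ^ 3 ∈ J) (hC : Cn 4 ≤ J) {w : List ℕ}
    (h4 : 4 ≤ w.length) {s : ℕ} (hs : 3 ≤ w.count s) : mon w ∈ J := by
  obtain ⟨r, hr⟩ := nq_cnt hs
  have h1 := hC (Cn_anti h4 (perm_Cn hr))
  have h2 : mon (List.replicate 3 s ++ r) ∈ J := nq_cube hJ hx s [] r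
  have h3 : mon w = (mon w - mon (List.replicate 3 s ++ r)) + mon (List.replicate 3 s ++ r) := by abel
  rw [h3]
  exact J.add_mem h1 h2

private theorem nq_D3 {J : Submodule ℤ P} (hJ : IsT J) (hx : X 0 ^ 3 ∈ J) (hD : Dn 3 ≤ J) {w : List ℕ}
    (h4 : 4 ≤ w.length) {s : ℕ} (hs : 3 ≤ w.count s) : mon w ∈ J := by
  rcases List.eq_nil_or_concat w with rfl | ⟨w', t, rfl⟩
  · simp at h4
  · rw [List.concat_eq_append] at *
    rw [List.length_append, List.length_singleton] at h4
    by_cases hc : 3 ≤ w'.count s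
    · obtain ⟨r, hr⟩ := nq_cnt hc
      have h1 := hD (Dn_anti (by rw [List.length_singleton]; omega)
        (perm_Dn hr (w := [t]) (List.cons_ne_nil _ _)))
      have h2 : mon ((List.replicate 3 s ++ r) ++ [t]) ∈ J := nq_cube hJ hx s [] (r ++ [t])
      have h3 : mon (w' ++ [t]) = (mon (w' ++ [t]) - mon ((List.replicate 3 s ++ r) ++ [t])) +
          mon ((List.replicate 3 s ++ r) ++ [t]) := by abel
      rw [h3]
      exact J.add_mem h1 h2
    · have ht : t = s := by
        by_contra hts
        rw [List.count_append, List.count_singleton] at hs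
        have h5 : (t == s) = false := by simpa using hts
        rw [h5] at hs
        simp at hs
        omega
      subst ht
      have hc2 : 2 ≤ w'.count t := by
        rw [List.count_append, List.count_singleton] at hs
        simp at hs
        omega
      obtain ⟨r, hr⟩ := nq_cnt hc2
      have hr' : w'.Perm (r ++ List.replicate 2 t) := hr.trans List.perm_append_comm
      have h1 := hD (Dn_anti (by rw [List.length_singleton]; omega)
        (perm_Dn hr' (w := [t]) (List.cons_ne_nil _ _)))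
      have h2 : mon ((r ++ List.replicate 2 t) ++ [t]) ∈ J := by
        have h6 := nq_cube hJ hx t r []
        rw [List.append_assoc]
        exact h6
      have h3 : mon (w' ++ [t]) = (mon (w' ++ [t]) - mon ((r ++ List.replicate 2 t) ++ [t])) +
          mon ((r ++ List.replicate 2 t) ++ [t]) := by abel
      rw [h3]
      exact J.add_mem h1 h2

theorem nq_word {J : Submodule ℤ P} (hb : Bt 3 J) (hx : X 0 ^ 3 ∈ J) (hT : Ty J) :
    ∀ n w, 1 ≤ n → qw 3 n w → n < w.length → mon w ∈ J := by
  intro n w hn hw hl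
  obtain ⟨s, hs, hs3⟩ := nq_ex hw hl
  rcases Nat.lt_or_ge n 2 with h2 | h2
  · have hn1 : n = 1 := by omega
    subst hn1
    have h3 : 3 ≤ w.length := le_trans hs3 List.count_le_length
    rcases w with _ | ⟨a, _ | ⟨b, _ | ⟨c, v⟩⟩⟩
    · simp at h3
    · simp at h3
    · simp at h3
    · have ha := hw.1 a (by simp)
      have hb' := hw.1 b (by simp)
      have hc := hw.1 c (by simp)
      have ha0 : a = 0 := by omega
      have hb0 : b = 0 := by omega
      have hc0 : c = 0 := by omega
      subst ha0 hb0 hc0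
      exact nq_cube hb.isT hx 0 [] v
  · have h4 : 4 ≤ w.length := nq_len h2 hw hs hs3
    rcases hT with h | h | h | h | h
    · by_cases h5 : 5 ≤ w.length
      · exact h.2 (Submodule.subset_span ⟨w, h5, rfl⟩)
      · have h6 : w.length = 4 := by omega
        obtain ⟨a, b, c, d, rfl⟩ := List.length_eq_four.1 h6
        have h7 : (a = s ∧ c = s) ∨ (b = s ∧ d = s) := by
          by_cases ha : a = s <;> by_cases hb : b = s <;> by_cases hc : c = s <;>
            by_cases hd : d = s <;> simp_all [List.count_cons]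
        rcases h7 with ⟨e1, e2⟩ | ⟨e1, e2⟩
        · rw [e1, e2]
          have h8 := hb.isT.mul_right _ (nq_g1 hb h.1 s b) (X d)
          have h9 : mon [s, b, s, d] = X s * X b * X s * X d := by
            rw [mon_cons, mon_cons, mon_cons, mon_single]
            simp only [mul_assoc]
          rw [h9]
          exact h8
        · rw [e1, e2]
          have h8 := hb.isT.mul_left _ (nq_g1 hb h.1 s c) (X a)
          have h9 : mon [a, s, c, s] = X a * (X s * X c * X s) := by
            rw [mon_cons, mon_cons, mon_cons, mon_single]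
            simp only [mul_assoc]
          rw [h9]
          exact h8
    · exact nq_C4 hb.isT hx h.2.1 h4 hs3
    · exact nq_D3 hb.isT hx (nq_Dn hb.isT h.1) h4 hs3
    · exact h.2 (Submodule.subset_span ⟨w, h4, rfl⟩)
    · exact nq_C4 hb.isT hx h.2.1 h4 hs3

theorem nq_pr {I A B C : Submodule ℤ P} (h : Lk 3 I A B C) (hb : Bt 3 (I ⊔ mulI (3 : ℕ) Pp))
    (hA : A ≤ I ⊔ mulI (3 : ℕ) Pp)
    (hN : ∀ n w, 1 ≤ n → qw 3 n w → n < w.length → mon w ∈ I ⊔ mulI (3 : ℕ) Pp) :
    ∃ n a b t, 1 ≤ n ∧ Pr 3 I (I ⊔ mulI (3 : ℕ) Pp) A B C n (3 : ℕ) a b t := by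
  obtain ⟨n, a, b, hn, ha, hb', hl, hna, -, -⟩ := nf hb.pp hb.three h
  obtain ⟨h1, h2⟩ := ADP.Qred hb.pp hb.three h.hI h.p2 hN hn
  obtain ⟨i, hi, a', ha', rfl⟩ := Submodule.mem_sup.1 (h1 ha)
  obtain ⟨k, hk, b', hb'', rfl⟩ := Submodule.mem_sup.1 (h1 hb')
  have hl' : Lnk A B C a' b' := hl.congr h (by rwa [add_sub_cancel_right]) (by rwa [add_sub_cancel_right])
  have hna' : a' ∉ I := fun e => hna (I.add_mem hi e)
  obtain ⟨t, ht, ht'⟩ := h2 a' ha' (hA hl'.1)
  exact ⟨n, a', b', t, hn, { h with
    bJ := hb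
    IJ := le_sup_left
    pJ := ADP.pJ_le h.p2
    qJ := ADP.pJ_le h.p2
    ex := h2
    ha := ha'
    hb := hb''
    hh := ht
    lk := hl'
    aq := ht'
    na := hna' }⟩

/-- all multilinear polynomials congruent to multiples of one -/
theorem q_one {I J A B C : Submodule ℤ P} {n : ℕ} {q : ℤ} {a b t : P} (h : Pr 3 I J A B C n q a b t) {Y : P} (hY : Y ∈ Ml n)
    (hc : Ml n ≤ J ⊔ Submodule.span ℤ {Y}) : False := by
  apply h.na
  have h1 := h.npn (Φ := LinearMap.id) (TOp.id' 3) (fun f hf => hf) (u := 1) (by norm_num)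
    (fun f _ => by rw [one_smul, LinearMap.id_apply]) hY (fun f hf => by
      rw [LinearMap.id_apply]
      exact hc hf)
  rwa [LinearMap.id_apply] at h1

end ADP
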