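import Pool.Agent.ADP.Near
import Pool.Agent.ADC.Cnc

/-!
# ADP-NrH: consequences of a homogeneous polynomial

`com` is a ring homomorphism; `com (u * φ f * v) = com u * (aeval (fun j => com (φ (X j))) (com f)) * com v` (`FreeAlgebra.hom_ext` / `hom_ext_X`-type argument).  `com (φ (X j)) = ∑_i cf [i] (φ (X j)) x_i + (terms of degree ≥ 2)`, no constant term (`IsSubst`).
* `hl`: `F = com f` homogeneous of degree `D`, letters `< r`: the coefficients of degree `D` of `com (u φ(f) v)` are those of `ε F(L)`, `ε = aug u * aug v`, `L_j` the linear part of `com (φ (X j))`; for a monomial `m` in `x_0, ..., x_{r-1}` the variables `x_i`, `i ≥ r`, can be set to 0.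
  `M j i = cf [i] (φ (X j))`.  Proof: it suffices to treat `F` = monomial of degree `D` (linearity; `F` homogeneous = sum of monomials of degree `D`): product of `D` factors `com (φ (X j))` without constant term: degree-`D` part = product of the linear parts; the factors `com u`, `com v` contribute their constant terms.
* `hl_low`: if `com f ∈ mm^D` (all coefficients of degree `< D` vanish) then the same for `com (u φ(f) v)`.
-/

namespace ADP

open AD ADN ADC

private def nOd (a : ℕ) (G : MvPolynomial ℕ ℤ) : Prop := ∀ m : ℕ →₀ ℕ, m.degree < a → G.coeff m = 0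

private theorem nOd_mul {a b : ℕ} {G H : MvPolynomial ℕ ℤ} (h : nOd a G) (h' : nOd b H) :
    nOd (a + b) (G * H) := by
  intro m hm
  rw [MvPolynomial.coeff_mul]
  refine Finset.sum_eq_zero fun p hp => ?_
  have h1 : p.1 + p.2 = m := Finset.HasAntidiagonal.mem_antidiagonal.1 hp
  have h2 : p.1.degree + p.2.degree = m.degree := by rw [← h1, map_add]
  by_cases h3 : p.1.degree < a
  · rw [h _ h3, zero_mul]
  · rw [h' _ (by omega), mul_zero]

private theorem nOd_zero (G : MvPolynomial ℕ ℤ) : nOd 0 G := fun _ hm => absurd hm (Nat.not_lt_zero _)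

private theorem nOd_mono {a b : ℕ} (hab : a ≤ b) {G : MvPolynomial ℕ ℤ} (h : nOd b G) : nOd a G :=
  fun m hm => h m (lt_of_lt_of_le hm hab)

private theorem nOd_pow {a : ℕ} {G : MvPolynomial ℕ ℤ} (h : nOd a G) (k : ℕ) : nOd (k * a) (G ^ k) := by
  induction k with
  | zero => rw [zero_mul]; exact nOd_zero _
  | succ k ih =>
    rw [pow_succ, Nat.succ_mul]
    exact nOd_mul ih h

private theorem nOd_prod {G : ℕ → MvPolynomial ℕ ℤ} (h : ∀ j, nOd 1 (G j)) (d : ℕ → ℕ) (s : Finset ℕ) :
    nOd (∑ j ∈ s, d j) (∏ j ∈ s, G j ^ d j) := by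
  classical
  induction s using Finset.induction_on with
  | empty => exact nOd_zero _
  | insert a s ha ih =>
    rw [Finset.sum_insert ha, Finset.prod_insert ha]
    have h1 := nOd_pow (h a) (d a)
    rw [mul_one] at h1
    exact nOd_mul h1 ih

private theorem nOd_X (j : ℕ) : nOd 1 (MvPolynomial.X j : MvPolynomial ℕ ℤ) := by
  intro m hm
  have h1 : m = 0 := by
    rw [← Finsupp.degree_eq_zero_iff]
    omega
  rw [h1]
  exact MvPolynomial.constantCoeff_X (R := ℤ) j

private theorem nrh_const (g : P) : (com g).coeff 0 = aug g := by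
  have h1 : ((MvPolynomial.aeval (fun _ => (0 : ℤ)) : MvPolynomial ℕ ℤ →ₐ[ℤ] ℤ).comp com) =
      aug := by
    apply FreeAlgebra.hom_ext
    funext i
    simp [com, aug]
  have h2 := DFunLike.congr_fun h1 g
  rw [← h2, AlgHom.comp_apply]
  have h3 : ∀ G : MvPolynomial ℕ ℤ, MvPolynomial.aeval (fun _ => (0 : ℤ)) G = G.coeff 0 := by
    intro G
    rw [MvPolynomial.aeval_zero']
    rfl
  rw [h3]

private theorem nrh_word (w : List ℕ) : nOd w.length (com (mon w)) := by
  induction w with
  | nil => exact nOd_zero _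
  | cons a w ih =>
    have h1 : com (X a) = MvPolynomial.X a := by simp [com]
    rw [mon_cons, map_mul, h1, List.length_cons, add_comm]
    exact nOd_mul (nOd_X a) ih

private theorem nrh_cf (g : P) (i : ℕ) : cf [i] g = (com g).coeff (Finsupp.single i 1) := by
  refine ind_mon (C := fun g => cf [i] g = (com g).coeff (Finsupp.single i 1)) ?_ ?_ ?_ ?_ g
  · have h := cf_smul [i] 0 0
    rw [zero_smul, zero_mul] at h
    rw [h, map_zero, MvPolynomial.coeff_zero]
  · intro f g hf hg
    rw [cf_add, map_add, MvPolynomial.coeff_add, hf, hg]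
  · intro c f hf
    rw [cf_smul, map_zsmul, MvPolynomial.coeff_smul, hf, smul_eq_mul]
  · intro w
    rw [cf_mon]
    rcases w with _ | ⟨a, w⟩
    · rw [if_neg (by simp), mon_nil, map_one, MvPolynomial.coeff_one, if_neg]
      intro h
      have := congrArg (fun m : ℕ →₀ ℕ => m i) h
      simp at this
    · rcases w with _ | ⟨b, w⟩
      · have h1 : com (mon [a]) = MvPolynomial.X a := by simp [com, mon]
        rw [h1, MvPolynomial.coeff_X]
        by_cases h : a = i
        · rw [h]
          simp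
        · rw [if_neg (by simpa using h), if_neg]
          intro h2
          exact h (Finsupp.single_left_injective one_ne_zero h2)
      · rw [if_neg (by simp), nrh_word (a :: b :: w)]
        rw [Finsupp.degree_single]
        simp

/-- lowest forms, compared at the monomials in the first `r` variables -/
private structure nLo (r a : ℕ) (G G' : MvPolynomial ℕ ℤ) : Prop where
  z : nOd a G
  e : ∀ m : ℕ →₀ ℕ, m.degree = a → (∀ i, r ≤ i → m i = 0) → G.coeff m = G'.coeff m
  h : ∀ m : ℕ →₀ ℕ, m.degree ≠ a → G'.coeff m = 0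

private theorem nLo_mul {r a b : ℕ} {G G' H H' : MvPolynomial ℕ ℤ} (h : nLo r a G G')
    (h' : nLo r b H H') : nLo r (a + b) (G * H) (G' * H') := by
  refine ⟨nOd_mul h.z h'.z, ?_, ?_⟩
  · intro m hm hr
    rw [MvPolynomial.coeff_mul, MvPolynomial.coeff_mul]
    refine Finset.sum_congr rfl fun p hp => ?_
    have h1 : p.1 + p.2 = m := Finset.HasAntidiagonal.mem_antidiagonal.1 hp
    have h2 : p.1.degree + p.2.degree = m.degree := by rw [← h1, map_add]
    have h3 : ∀ i, r ≤ i → p.1 i = 0 ∧ p.2 i = 0 := by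
      intro i hi
      have h4 := hr i hi
      rw [← h1, Finsupp.add_apply] at h4
      omega
    rcases lt_trichotomy p.1.degree a with h4 | h4 | h4
    · rw [h.z _ h4, h.h _ h4.ne, zero_mul, zero_mul]
    · rw [h.e _ h4 fun i hi => (h3 i hi).1, h'.e _ (by omega) fun i hi => (h3 i hi).2]
    · rw [h'.z _ (by omega), h.h _ h4.ne', mul_zero, zero_mul]
  · intro m hm
    rw [MvPolynomial.coeff_mul]
    refine Finset.sum_eq_zero fun p hp => ?_
    have h1 : p.1 + p.2 = m := Finset.HasAntidiagonal.mem_antidiagonal.1 hp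
    have h2 : p.1.degree + p.2.degree = m.degree := by rw [← h1, map_add]
    by_cases h3 : p.1.degree = a
    · rw [h'.h _ (by omega), mul_zero]
    · rw [h.h _ h3, zero_mul]

private theorem nLo_C (r : ℕ) (g : P) : nLo r 0 (com g) (MvPolynomial.C (aug g)) := by
  refine ⟨nOd_zero _, ?_, ?_⟩
  · intro m hm _
    have h1 : m = 0 := by
      rw [← Finsupp.degree_eq_zero_iff]
      exact hm
    rw [h1, nrh_const, MvPolynomial.coeff_zero_C]
  · intro m hm
    rw [MvPolynomial.coeff_C, if_neg]
    rintro rfl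
    exact hm (map_zero _)

private theorem nLo_one (r : ℕ) : nLo r 0 1 1 := by
  refine ⟨nOd_zero _, fun m _ _ => rfl, ?_⟩
  intro m hm
  rw [MvPolynomial.coeff_one, if_neg]
  rintro rfl
  exact hm (map_zero _)

private theorem nLo_pow {r a : ℕ} {G G' : MvPolynomial ℕ ℤ} (h : nLo r a G G') (k : ℕ) :
    nLo r (k * a) (G ^ k) (G' ^ k) := by
  induction k with
  | zero => rw [zero_mul, pow_zero, pow_zero]; exact nLo_one r
  | succ k ih =>
    rw [pow_succ, pow_succ, Nat.succ_mul]
    exact nLo_mul ih h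

private theorem nLo_prod {r : ℕ} {G G' : ℕ → MvPolynomial ℕ ℤ} (h : ∀ j, nLo r 1 (G j) (G' j))
    (d : ℕ → ℕ) (s : Finset ℕ) :
    nLo r (∑ j ∈ s, d j) (∏ j ∈ s, G j ^ d j) (∏ j ∈ s, G' j ^ d j) := by
  classical
  induction s using Finset.induction_on with
  | empty => exact nLo_one r
  | insert a s ha ih =>
    rw [Finset.sum_insert ha, Finset.prod_insert ha, Finset.prod_insert ha]
    have h1 := nLo_pow (h a) (d a)
    rw [mul_one] at h1
    exact nLo_mul h1 ih

private theorem nrh_deg (d : ℕ →₀ ℕ) : d.degree = ∑ j ∈ d.support, d j := rfl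

private theorem nrh_degree_one {m : ℕ →₀ ℕ} (h : m.degree = 1) : ∃ i, m = Finsupp.single i 1 := by
  classical
  have h0 : m ≠ 0 := by
    rintro rfl
    rw [map_zero] at h
    omega
  obtain ⟨i, hi⟩ : ∃ i, m i ≠ 0 := by
    by_contra hc
    push Not at hc
    exact h0 (Finsupp.ext hc)
  have h1 : m = Finsupp.single i 1 + (m - Finsupp.single i 1) := by
    rw [add_tsub_cancel_of_le]
    rw [Finsupp.single_le_iff]
    omega
  have h2 : (m - Finsupp.single i 1).degree = 0 := by
    have h3 := congrArg Finsupp.degree h1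
    rw [map_add, Finsupp.degree_single, h] at h3
    omega
  rw [Finsupp.degree_eq_zero_iff] at h2
  exact ⟨i, by rw [h1, h2, add_zero]⟩

private theorem nLo_lin {r : ℕ} {g : P} (hg : aug g = 0) : nLo r 1 (com g)
    (∑ i ∈ Finset.range r, MvPolynomial.C (cf [i] g) * (MvPolynomial.X i : MvPolynomial ℕ ℤ)) := by
  classical
  refine ⟨?_, ?_, ?_⟩
  · intro m hm
    have h1 : m = 0 := by
      rw [← Finsupp.degree_eq_zero_iff]
      omega
    rw [h1, nrh_const, hg]
  · intro m hm hr
    obtain ⟨i, rfl⟩ := nrh_degree_one hm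
    have hi : i < r := by
      by_contra hc
      have := hr i (not_lt.1 hc)
      simp at this
    rw [← nrh_cf, MvPolynomial.coeff_sum, Finset.sum_eq_single i]
    · rw [MvPolynomial.coeff_C_mul, MvPolynomial.coeff_X, if_pos rfl, mul_one]
    · intro j _ hj
      rw [MvPolynomial.coeff_C_mul, MvPolynomial.coeff_X, if_neg, mul_zero]
      intro h2
      exact hj (Finsupp.single_left_injective one_ne_zero h2)
    · intro h
      exact absurd (Finset.mem_range.2 hi) h
  · intro m hm
    rw [MvPolynomial.coeff_sum]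
    refine Finset.sum_eq_zero fun j _ => ?_
    rw [MvPolynomial.coeff_C_mul, MvPolynomial.coeff_X, if_neg, mul_zero]
    rintro rfl
    exact hm (Finsupp.degree_single _ _)

theorem com_conseq (u v f : P) (φ : P →ₐ[ℤ] P) :
    com (u * φ f * v) = com u * MvPolynomial.aeval (fun j => com (φ (X j))) (com f) * com v := by
  have h1 : com.comp φ = (MvPolynomial.aeval (fun j => com (φ (X j)))).comp com := by
    apply FreeAlgebra.hom_ext
    funext j
    simp [com]
  have h2 := DFunLike.congr_fun h1 f
  rw [map_mul, map_mul]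
  congr 2

private theorem nrh_aeval (G : ℕ → MvPolynomial ℕ ℤ) (F : MvPolynomial ℕ ℤ) :
    MvPolynomial.aeval G F = ∑ d ∈ F.support, MvPolynomial.C (F.coeff d) * ∏ j ∈ d.support, G j ^ d j := by
  conv_lhs => rw [F.as_sum]
  rw [map_sum]
  refine Finset.sum_congr rfl fun d _ => ?_
  rw [MvPolynomial.aeval_monomial]
  rfl

theorem hl {D r : ℕ} {f : P} (hf : (com f).IsHomogeneous D) {φ : P →ₐ[ℤ] P} (hφ : IsSubst φ) (u v : P) :
    ∀ m : ℕ →₀ ℕ, m.degree = D → (∀ i, r ≤ i → m i = 0) →
      (com (u * φ f * v)).coeff m = aug u * aug v *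
        (MvPolynomial.aeval (fun j => ∑ i ∈ Finset.range r, MvPolynomial.C (cf [i] (φ (X j))) *
          (MvPolynomial.X i : MvPolynomial ℕ ℤ)) (com f)).coeff m := by
  intro m hm hr
  have hlin : ∀ j, nLo r 1 (com (φ (X j))) (∑ i ∈ Finset.range r,
      MvPolynomial.C (cf [i] (φ (X j))) * (MvPolynomial.X i : MvPolynomial ℕ ℤ)) :=
    fun j => nLo_lin (hφ j)
  have hF : nLo r D (MvPolynomial.aeval (fun j => com (φ (X j))) (com f))
      (MvPolynomial.aeval (fun j => ∑ i ∈ Finset.range r, MvPolynomial.C (cf [i] (φ (X j))) *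
          (MvPolynomial.X i : MvPolynomial ℕ ℤ)) (com f)) := by
    rw [nrh_aeval, nrh_aeval]
    have hd : ∀ d ∈ (com f).support, nLo r D (∏ j ∈ d.support, com (φ (X j)) ^ d j)
        (∏ j ∈ d.support, (∑ i ∈ Finset.range r,
          MvPolynomial.C (cf [i] (φ (X j))) * (MvPolynomial.X i : MvPolynomial ℕ ℤ)) ^ d j) := by
      intro d hd
      have h1 := nLo_prod hlin d d.support
      have h2 : ∑ j ∈ d.support, d j = D := by
        rw [← nrh_deg]
        have h3 := hf (MvPolynomial.mem_support_iff.1 hd)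
        rw [← h3, Finsupp.degree_eq_weight_one]
        rfl
      rwa [h2] at h1
    refine ⟨?_, ?_, ?_⟩
    · intro m hm
      rw [MvPolynomial.coeff_sum]
      exact Finset.sum_eq_zero fun d hd' => by
        rw [MvPolynomial.coeff_C_mul, (hd d hd').z m hm, mul_zero]
    · intro m hm hr
      rw [MvPolynomial.coeff_sum, MvPolynomial.coeff_sum]
      exact Finset.sum_congr rfl fun d hd' => by
        rw [MvPolynomial.coeff_C_mul, MvPolynomial.coeff_C_mul, (hd d hd').e m hm hr]
    · intro m hm
      rw [MvPolynomial.coeff_sum]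
      exact Finset.sum_eq_zero fun d hd' => by
        rw [MvPolynomial.coeff_C_mul, (hd d hd').h m hm, mul_zero]
  have h1 := nLo_mul (nLo_mul (nLo_C r u) hF) (nLo_C r v)
  rw [com_conseq, h1.e m (by omega) hr, mul_right_comm, ← map_mul, MvPolynomial.coeff_C_mul]

theorem hl_low {D : ℕ} {f : P} (hf : ∀ m : ℕ →₀ ℕ, m.degree < D → (com f).coeff m = 0) {φ : P →ₐ[ℤ] P}
    (hφ : IsSubst φ) (u v : P) : ∀ m : ℕ →₀ ℕ, m.degree < D → (com (u * φ f * v)).coeff m = 0 := by
  have hlin : ∀ j, nOd 1 (com (φ (X j))) := fun j => (nLo_lin (r := 0) (hφ j)).z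
  have hF : nOd D (MvPolynomial.aeval (fun j => com (φ (X j))) (com f)) := by
    rw [nrh_aeval]
    intro m hm
    rw [MvPolynomial.coeff_sum]
    refine Finset.sum_eq_zero fun d hd => ?_
    have h1 := nOd_prod hlin d d.support
    rw [← nrh_deg] at h1
    have h2 : D ≤ d.degree := by
      by_contra hc
      exact MvPolynomial.mem_support_iff.1 hd (hf d (not_le.1 hc))
    rw [MvPolynomial.coeff_C_mul, h1 m (lt_of_lt_of_le hm h2), mul_zero]
  rw [com_conseq]
  have h1 := nOd_mul (nOd_mul (nOd_zero (com u)) hF) (nOd_zero (com v))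
  rw [zero_add, add_zero] at h1
  exact h1

end ADP
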