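import Pool.Agent.ADP.NqP

/-! # ADP-Q3m: exponent 9, `n = 3`, twisted types -/

namespace ADP

open AD ADN ADC

private theorem coef {J : Submodule ℤ P} {Y : ℕ → P} {f : P}
    (hf : f ∈ J ⊔ Submodule.span ℤ {f | ∃ k < 3, f = Y k}) :
    ∃ c : ℕ → ℤ, f - (c 0 • Y 0 + c 1 • Y 1 + c 2 • Y 2) ∈ J := by
  obtain ⟨j, hj, y, hy, rfl⟩ := Submodule.mem_sup.1 hf
  have key : ∃ c : ℕ → ℤ, y = c 0 • Y 0 + c 1 • Y 1 + c 2 • Y 2 := by
    clear hf
    induction hy using Submodule.span_induction with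
    | mem x hx =>
      obtain ⟨k, hk, rfl⟩ := hx
      interval_cases k
      · exact ⟨fun i => if i = 0 then 1 else 0, by simp⟩
      · exact ⟨fun i => if i = 1 then 1 else 0, by simp⟩
      · exact ⟨fun i => if i = 2 then 1 else 0, by simp⟩
    | zero => exact ⟨fun _ => 0, by simp⟩
    | add x y _ _ hx hy =>
      obtain ⟨c, hc⟩ := hx
      obtain ⟨d, hd⟩ := hy
      refine ⟨fun i => c i + d i, ?_⟩
      rw [hc, hd]
      module
    | smul a x _ hx =>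
      obtain ⟨c, hc⟩ := hx
      refine ⟨fun i => a * c i, ?_⟩
      rw [hc]
      module
  obtain ⟨c, hc⟩ := key
  refine ⟨c, ?_⟩
  rw [← hc, add_sub_cancel_right]
  exact hj

private theorem rnJ {J : Submodule ℤ P} (hJ : IsT J) (hm : Mul ((3 : ℕ) : ℤ) J) (σ : Equiv.Perm (Fin 3)) {f : P} (hf : f ∈ J) :
    rn 3 σ f ∈ J := by
  have h := TOp_rn 3 3 σ J hJ (fun f hf => by
    rw [pow_two, mul_smul]
    exact J.smul_mem _ (hm f hf)) f hf
  rwa [tl_apply] at h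

private theorem phi {J : Submodule ℤ P} (hJ : IsT J) (hm : Mul ((3 : ℕ) : ℤ) J) {Y : ℕ → P} (hact : Act J 3 (-1) Y)
    {i j : Fin 3} (hij : i ≠ j) {f : P} {c : ℕ → ℤ} (hf : f - (c 0 • Y 0 + c 1 • Y 1 + c 2 • Y 2) ∈ J) :
    f + rn 3 (Equiv.swap i j) f - (c i - c j) • (Y i - Y j) ∈ J := by
  have h0 := hact i j 0 (by norm_num) hij
  have h1 := hact i j 1 (by norm_num) hij
  have h2 := hact i j 2 (by norm_num) hij
  have h3 := rnJ hJ hm (Equiv.swap i j) hf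
  rw [map_sub, map_add, map_add, map_zsmul, map_zsmul, map_zsmul] at h3
  have h4 := J.add_mem (J.add_mem (J.add_mem (J.add_mem hf h3) (J.smul_mem (c 0) h0)) (J.smul_mem (c 1) h1))
    (J.smul_mem (c 2) h2)
  have e : f + rn 3 (Equiv.swap i j) f - (c i - c j) • (Y i - Y j) =
      (f - (c 0 • Y 0 + c 1 • Y 1 + c 2 • Y 2) +
        (rn 3 (Equiv.swap i j) f - (c 0 • rn 3 (Equiv.swap i j) (Y 0) + c 1 • rn 3 (Equiv.swap i j) (Y 1) +
          c 2 • rn 3 (Equiv.swap i j) (Y 2))) +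
        c 0 • (rn 3 (Equiv.swap i j) (Y 0) - (-1 : ℤ) • Y (Equiv.swap (i : ℕ) (j : ℕ) 0)) +
        c 1 • (rn 3 (Equiv.swap i j) (Y 1) - (-1 : ℤ) • Y (Equiv.swap (i : ℕ) (j : ℕ) 1)) +
        c 2 • (rn 3 (Equiv.swap i j) (Y 2) - (-1 : ℤ) • Y (Equiv.swap (i : ℕ) (j : ℕ) 2))) := by
    have key : ∀ a b d : ℕ, Equiv.swap (i : ℕ) (j : ℕ) 0 = a → Equiv.swap (i : ℕ) (j : ℕ) 1 = b →
        Equiv.swap (i : ℕ) (j : ℕ) 2 = d →
        (c i - c j) • (Y i - Y j) = c 0 • Y 0 + c 1 • Y 1 + c 2 • Y 2 - (c 0 • Y a + c 1 • Y b + c 2 • Y d) →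
        f + rn 3 (Equiv.swap i j) f - (c i - c j) • (Y i - Y j) =
      (f - (c 0 • Y 0 + c 1 • Y 1 + c 2 • Y 2) +
        (rn 3 (Equiv.swap i j) f - (c 0 • rn 3 (Equiv.swap i j) (Y 0) + c 1 • rn 3 (Equiv.swap i j) (Y 1) +
          c 2 • rn 3 (Equiv.swap i j) (Y 2))) +
        c 0 • (rn 3 (Equiv.swap i j) (Y 0) - (-1 : ℤ) • Y (Equiv.swap (i : ℕ) (j : ℕ) 0)) +
        c 1 • (rn 3 (Equiv.swap i j) (Y 1) - (-1 : ℤ) • Y (Equiv.swap (i : ℕ) (j : ℕ) 1)) +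
        c 2 • (rn 3 (Equiv.swap i j) (Y 2) - (-1 : ℤ) • Y (Equiv.swap (i : ℕ) (j : ℕ) 2))) := by
      intro a b d ha hb hd hk
      rw [ha, hb, hd, hk]
      module
    fin_cases i <;> fin_cases j
    · exact absurd rfl hij
    · exact key 1 0 2 (by decide) (by decide) (by decide) (by simp only [Fin.zero_eta, Fin.mk_one, Fin.val_zero, Fin.val_one]; module)
    · exact key 2 1 0 (by decide) (by decide) (by decide) (by simp only [Fin.zero_eta, Fin.reduceFinMk, Fin.val_zero, Fin.val_two]; module)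
    · exact key 1 0 2 (by decide) (by decide) (by decide) (by simp only [Fin.zero_eta, Fin.mk_one, Fin.val_zero, Fin.val_one]; module)
    · exact absurd rfl hij
    · exact key 0 2 1 (by decide) (by decide) (by decide) (by simp only [Fin.mk_one, Fin.reduceFinMk, Fin.val_one, Fin.val_two]; module)
    · exact key 2 1 0 (by decide) (by decide) (by decide) (by simp only [Fin.zero_eta, Fin.reduceFinMk, Fin.val_zero, Fin.val_two]; module)
    · exact key 0 2 1 (by decide) (by decide) (by decide) (by simp only [Fin.mk_one, Fin.reduceFinMk, Fin.val_one, Fin.val_two]; module)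
    · exact absurd rfl hij
  rw [e]
  exact h4

/-- `K` is `J` or `{f | 3 f ∈ I}`: from one difference to all -/
private theorem allD {K : P → Prop} {Y : ℕ → P} (hneg : ∀ f, K f → K (-f))
    (hrn : ∀ i j k : Fin 3, j ≠ k → i ≠ j → i ≠ k → K (Y i - Y j) → K (Y i - Y k)) (h0 : K 0) {i j : Fin 3} (hij : i ≠ j)
    (h : K (Y i - Y j)) (k l : Fin 3) : K (Y k - Y l) := by
  have sym : ∀ a b : Fin 3, K (Y a - Y b) → K (Y b - Y a) := fun a b h => by
    have := hneg _ h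
    rwa [neg_sub] at this
  have r1 : ∀ a b c : Fin 3, a ≠ b → a ≠ c → K (Y a - Y b) → K (Y a - Y c) := by
    intro a b c hab hac h1
    by_cases hbc : b = c
    · rwa [← hbc]
    · exact hrn a b c hbc hab hac h1
  by_cases hkl : k = l
  · rw [hkl, sub_self]
    exact h0
  by_cases hik : i = k
  · rw [← hik] at hkl ⊢
    exact r1 i j l hij hkl h
  · -- i ≠ k : K (Y i - Y k), then K (Y k - Y i), then K (Y k - Y l)
    have h1 := sym _ _ (r1 i j k hij hik h)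
    exact r1 k i l (Ne.symm hik) hkl h1

theorem q3m {I J A B C : Submodule ℤ P} {a b t : P} (h : Pr 3 I J A B C 3 3 a b t) (hB : B ⊓ J ≤ I) {Y : ℕ → P}
    (hY : ∀ k < 3, Y k ∈ Ml 3) (hM : Ml 3 ≤ J ⊔ Submodule.span ℤ {f | ∃ k < 3, f = Y k}) (hact : Act J 3 (-1) Y) :
    (∀ i j, i < 3 → j < 3 → (3 : ℤ) • (Y i - Y j) ∈ I) ∧ (3 : ℤ) • Y 0 ∉ I ∧ Y 0 + Y 1 + Y 2 ∉ J := by
  have hJT := h.bJ.isT
  have hJm : Mul ((3 : ℕ) : ℤ) J := h.bJ.mul
  have hJ9 : Mul (((3 : ℕ) : ℤ) ^ 2) J := fun f hf => by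
    rw [pow_two, mul_smul]
    exact J.smul_mem _ (hJm f hf)
  have h3J : ∀ f ∈ Pp, (3 : ℤ) • f ∈ J := fun f hf => hJm f hf
  have h3I : ∀ f ∈ J, (3 : ℤ) • f ∈ I := fun f hf => h.pJ f hf
  have hPp : Ml 3 ≤ Pp := Ml_Pp (by norm_num)
  have hYP : ∀ k < 3, Y k ∈ Pp := fun k hk => hPp (hY k hk)
  have hYF : ∀ k : Fin 3, Y k ∈ Pp := fun k => hYP k k.2
  have cJ : ∀ {c : ℤ} {f : P}, ¬ (3 : ℤ) ∣ c → f ∈ Pp → c • f ∈ J → f ∈ J := fun hc hf h1 =>
    cancel h.bJ.pp hJ9 hc hf h1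
  have cI : ∀ {c : ℤ} {f : P}, ¬ (3 : ℤ) ∣ c → f ∈ Pp → c • f ∈ I → f ∈ I := fun hc hf h1 =>
    cancel h.bJ.pp h.p2 hc hf h1
  have hiff : ∀ {Φ : P →ₗ[ℤ] P}, TOp 3 Φ → (Φ a ∈ I ↔ Φ b ∈ I) := fun hΦ => h.snd hΦ
  have hbJ : b ∉ J := by
    intro hb
    apply h.na
    have := (hiff (TOp.id' 3)).2 (by
      rw [LinearMap.id_apply]
      exact hB ⟨h.lk.2.1, hb⟩)
    rwa [LinearMap.id_apply] at this
  have h3b : (3 : ℤ) • b ∈ I := hB ⟨B.smul_mem _ h.lk.2.1, h3J b (hPp h.hb)⟩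
  -- the differences
  have hrnJ : ∀ i j k : Fin 3, j ≠ k → i ≠ j → i ≠ k → ∀ f, f = Y i - Y j →
      rn 3 (Equiv.swap j k) f + (Y i - Y k) ∈ J := by
    rintro i j k hjk hij hik f rfl
    have h1 := hact j k i i.2 hjk
    have h2 := hact j k j j.2 hjk
    rw [Equiv.swap_apply_of_ne_of_ne (fun e => hij (Fin.ext e)) (fun e => hik (Fin.ext e))] at h1
    rw [Equiv.swap_apply_left] at h2
    have h3 := J.sub_mem h1 h2
    have e : rn 3 (Equiv.swap j k) (Y i - Y j) + (Y i - Y k) =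
        rn 3 (Equiv.swap j k) (Y i) - (-1 : ℤ) • Y i - (rn 3 (Equiv.swap j k) (Y j) - (-1 : ℤ) • Y k) := by
      rw [map_sub]
      module
    rw [e]
    exact h3
  have hd : ∀ i j : Fin 3, i ≠ j → Y i - Y j ∉ J := by
    intro i j hij hh
    have hall := allD (K := fun f => f ∈ J) (Y := Y) (fun f hf => J.neg_mem hf) (fun i j k hjk hij hik hf => by
      have h1 := rnJ hJT hJm (Equiv.swap j k) hf
      have h2 := hrnJ i j k hjk hij hik _ rfl
      have h3 := J.sub_mem h2 h1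
      rwa [add_sub_cancel_left] at h3) J.zero_mem hij hh
    refine q_one h (hY 0 (by norm_num)) (hM.trans (sup_le le_sup_left (Submodule.span_le.2 ?_)))
    rintro f ⟨k, hk, rfl⟩
    have h1 := hall ⟨k, hk⟩ 0
    have e : Y k = (Y k - Y 0) + Y 0 := by abel
    rw [SetLike.mem_coe, e]
    exact Submodule.add_mem_sup h1 (Submodule.mem_span_singleton_self _)
  obtain ⟨β, hβ⟩ := coef (hM h.hb)
  obtain ⟨α, hα⟩ := coef (hM h.hh)
  -- the operators
  let Φ : Fin 3 → Fin 3 → (P →ₗ[ℤ] P) := fun i j => LinearMap.id + tl (rn 3 (Equiv.swap i j))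
  have hΦT : ∀ i j, TOp 3 (Φ i j) := fun i j => (TOp.id' 3).add (TOp_rn 3 3 _)
  have hΦa : ∀ i j f, Φ i j f = f + rn 3 (Equiv.swap i j) f := fun i j f => by
    have h1 : Φ i j f = (LinearMap.id + tl (rn 3 (Equiv.swap i j)) : P →ₗ[ℤ] P) f := rfl
    rw [h1, LinearMap.add_apply, LinearMap.id_apply, tl_apply]
  have hΦb : ∀ i j : Fin 3, i ≠ j → Φ i j b - (β i - β j) • (Y i - Y j) ∈ J := fun i j hij => by
    rw [hΦa]
    exact phi hJT hJm hact hij hβ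
  have hΦt : ∀ i j : Fin 3, i ≠ j → Φ i j t - (α i - α j) • (Y i - Y j) ∈ J := fun i j hij => by
    rw [hΦa]
    exact phi hJT hJm hact hij hα
  have haI : a - (3 : ℤ) • t ∈ I := h.aq
  have hΦaI : ∀ i j : Fin 3, i ≠ j → Φ i j a - (3 : ℤ) • ((α i - α j) • (Y i - Y j)) ∈ I := fun i j hij => by
    have h1 := hΦT i j I h.hI h.p2 _ haI
    rw [map_sub, map_smul] at h1
    have h2 := I.add_mem h1 (h3I _ (hΦt i j hij))
    have e : Φ i j a - (3 : ℤ) • ((α i - α j) • (Y i - Y j)) = Φ i j a - (3 : ℤ) • Φ i j t +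
        (3 : ℤ) • (Φ i j t - (α i - α j) • (Y i - Y j)) := by
      module
    rw [e]
    exact h2
  -- (2)
  have hβ3 : ∀ i j : Fin 3, (3 : ℤ) ∣ β i - β j := by
    intro i j
    by_cases hij : i = j
    · rw [hij, sub_self]
      exact dvd_zero _
    by_contra hn
    have h1 : Φ i j b ∉ J := by
      intro h2
      refine hd i j hij (cJ hn (Pp.sub_mem (hYF i) (hYF j)) ?_)
      have h3 := J.sub_mem h2 (hΦb i j hij)
      rwa [sub_sub_cancel] at h3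
    have h2 : (3 : ℤ) • Φ i j b ∈ I := by
      have := hΦT i j I h.hI h.p2 _ h3b
      rwa [map_smul] at this
    have h3 : (3 : ℤ) • (Y i - Y j) ∈ I := by
      refine cI hn (Pp.smul_mem _ (Pp.sub_mem (hYF i) (hYF j))) ?_
      have h4 := I.sub_mem h2 (h3I _ (hΦb i j hij))
      have e : (β i - β j) • (3 : ℤ) • (Y i - Y j) = (3 : ℤ) • Φ i j b -
          (3 : ℤ) • (Φ i j b - (β i - β j) • (Y i - Y j)) := by
        module
      rw [e]
      exact h4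
    have h4 : Φ i j a ∈ I := by
      have h5 := I.add_mem (hΦaI i j hij) (I.smul_mem (α i - α j) h3)
      have e : Φ i j a = Φ i j a - (3 : ℤ) • ((α i - α j) • (Y i - Y j)) + (α i - α j) • (3 : ℤ) • (Y i - Y j) := by
        module
      rw [e]
      exact h5
    exact h1 (h.IJ ((hiff (hΦT i j)).1 h4))
  -- b = β 0 S modulo J
  have hbS : b - β 0 • (Y 0 + Y 1 + Y 2) ∈ J := by
    obtain ⟨u, hu⟩ := hβ3 1 0
    obtain ⟨v, hv⟩ := hβ3 2 0
    have hu' : β 1 = β 0 + 3 * u := by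
      have : β ((1 : Fin 3) : ℕ) - β ((0 : Fin 3) : ℕ) = β 1 - β 0 := rfl
      rw [this] at hu
      omega
    have hv' : β 2 = β 0 + 3 * v := by
      have : β ((2 : Fin 3) : ℕ) - β ((0 : Fin 3) : ℕ) = β 2 - β 0 := rfl
      rw [this] at hv
      omega
    have h1 := J.add_mem (J.add_mem hβ (J.smul_mem u (h3J _ (hYP 1 (by norm_num)))))
      (J.smul_mem v (h3J _ (hYP 2 (by norm_num))))
    have e : b - β 0 • (Y 0 + Y 1 + Y 2) = b - (β 0 • Y 0 + β 1 • Y 1 + β 2 • Y 2) + u • (3 : ℤ) • Y 1 +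
        v • (3 : ℤ) • Y 2 := by
      rw [hu', hv']
      module
    rw [e]
    exact h1
  have hSP : Y 0 + Y 1 + Y 2 ∈ Pp := Pp.add_mem (Pp.add_mem (hYP 0 (by norm_num)) (hYP 1 (by norm_num)))
    (hYP 2 (by norm_num))
  have hSJ : Y 0 + Y 1 + Y 2 ∉ J := by
    intro hS
    apply hbJ
    have h1 := J.add_mem hbS (J.smul_mem (β 0) hS)
    rwa [sub_add_cancel] at h1
  have hβ0 : ¬ (3 : ℤ) ∣ β 0 := by
    rintro ⟨u, hu⟩
    apply hbJ
    have h1 := J.add_mem hbS (J.smul_mem u (h3J _ hSP))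
    have e : b = b - β 0 • (Y 0 + Y 1 + Y 2) + u • (3 : ℤ) • (Y 0 + Y 1 + Y 2) := by
      rw [hu]
      module
    rw [e]
    exact h1
  -- (3)
  have h3S : (3 : ℤ) • (Y 0 + Y 1 + Y 2) ∈ I := by
    refine cI hβ0 (Pp.smul_mem _ hSP) ?_
    have h1 := I.sub_mem h3b (h3I _ hbS)
    have e : β 0 • (3 : ℤ) • (Y 0 + Y 1 + Y 2) = (3 : ℤ) • b - (3 : ℤ) • (b - β 0 • (Y 0 + Y 1 + Y 2)) := by
      module
    rw [e]
    exact h1
  have hΦbJ : ∀ i j : Fin 3, i ≠ j → Φ i j b ∈ J := fun i j hij => by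
    obtain ⟨u, hu⟩ := hβ3 i j
    have h1 := J.add_mem (hΦb i j hij) (J.smul_mem u (h3J _ (Pp.sub_mem (hYF i) (hYF j))))
    have e : Φ i j b = Φ i j b - (β i - β j) • (Y i - Y j) + u • (3 : ℤ) • (Y i - Y j) := by
      rw [hu]
      module
    rw [e]
    exact h1
  have hΦaI' : ∀ i j : Fin 3, i ≠ j → (3 : ℤ) • ((α i - α j) • (Y i - Y j)) ∈ I := fun i j hij => by
    have h1 : Φ i j b ∈ I := hB ⟨hΦT i j B h.hB (h.p2.mono h.IB) b h.lk.2.1, hΦbJ i j hij⟩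
    have h2 := (hiff (hΦT i j)).2 h1
    have h3 := I.sub_mem h2 (hΦaI i j hij)
    rwa [sub_sub_cancel] at h3
  -- (4)
  have hex : ∃ i j : Fin 3, ¬ (3 : ℤ) ∣ α i - α j := by
    by_contra hno
    push Not at hno
    apply h.na
    obtain ⟨u, hu⟩ := hno 1 0
    obtain ⟨v, hv⟩ := hno 2 0
    have hu' : α 1 = α 0 + 3 * u := by
      have : α ((1 : Fin 3) : ℕ) - α ((0 : Fin 3) : ℕ) = α 1 - α 0 := rfl
      rw [this] at hu
      omega
    have hv' : α 2 = α 0 + 3 * v := by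
      have : α ((2 : Fin 3) : ℕ) - α ((0 : Fin 3) : ℕ) = α 2 - α 0 := rfl
      rw [this] at hv
      omega
    have h1 := I.add_mem (I.add_mem (I.add_mem (I.add_mem haI (h3I _ hα)) (I.smul_mem (α 0) h3S))
      (I.smul_mem u (h3I _ (h3J _ (hYP 1 (by norm_num)))))) (I.smul_mem v (h3I _ (h3J _ (hYP 2 (by norm_num)))))
    have e : a = a - (3 : ℤ) • t + (3 : ℤ) • (t - (α 0 • Y 0 + α 1 • Y 1 + α 2 • Y 2)) +
        α 0 • (3 : ℤ) • (Y 0 + Y 1 + Y 2) + u • (3 : ℤ) • (3 : ℤ) • Y 1 + v • (3 : ℤ) • (3 : ℤ) • Y 2 := by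
      rw [hu', hv']
      module
    rw [e]
    exact h1
  obtain ⟨i, j, hn⟩ := hex
  have hij : i ≠ j := by
    rintro rfl
    exact hn (by rw [sub_self]; exact dvd_zero _)
  have h3d : (3 : ℤ) • (Y i - Y j) ∈ I := by
    refine cI hn (Pp.smul_mem _ (Pp.sub_mem (hYF i) (hYF j))) ?_
    have h1 := hΦaI' i j hij
    rwa [smul_comm] at h1
  have hall := allD (K := fun f => (3 : ℤ) • f ∈ I) (Y := Y) (fun f hf => by
      rw [smul_neg]
      exact I.neg_mem hf) (fun i j k hjk hij hik hf => by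
    have h1 := TOp_rn 3 3 (Equiv.swap j k) I h.hI h.p2 _ hf
    rw [tl_apply, map_zsmul] at h1
    have h2 := h3I _ (hrnJ i j k hjk hij hik _ rfl)
    have h3 := I.sub_mem h2 h1
    rwa [smul_add, add_sub_cancel_left] at h3) (by rw [smul_zero]; exact I.zero_mem) hij h3d
  refine ⟨fun i j hi hj => hall ⟨i, hi⟩ ⟨j, hj⟩, fun h0 => h.na ?_, hSJ⟩
  have h3Y : ∀ k < 3, (3 : ℤ) • Y k ∈ I := fun k hk => by
    have h1 := I.add_mem (hall ⟨k, hk⟩ 0) h0
    have e : (3 : ℤ) • Y k = (3 : ℤ) • (Y k - Y 0) + (3 : ℤ) • Y 0 := by module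
    rw [e]
    exact h1
  have h1 := I.add_mem (I.add_mem (I.add_mem (I.add_mem haI (h3I _ hα))
    (I.smul_mem (α 0) (h3Y 0 (by norm_num)))) (I.smul_mem (α 1) (h3Y 1 (by norm_num))))
    (I.smul_mem (α 2) (h3Y 2 (by norm_num)))
  have e : a = a - (3 : ℤ) • t + (3 : ℤ) • (t - (α 0 • Y 0 + α 1 • Y 1 + α 2 • Y 2)) +
      α 0 • (3 : ℤ) • Y 0 + α 1 • (3 : ℤ) • Y 1 + α 2 • (3 : ℤ) • Y 2 := by
    module
  rw [e]
  exact h1

end ADP
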