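import Pool.Agent.ADP.NqP

/-!
# ADP-Q3p: exponent 9, `n = 3`, untwisted and cyclic types

`h : Pr 3 I J A B C 3 3 a b t`: `a, b, t ∈ Ml 3` linked, `a - 3 t ∈ I`, `a ∉ I`; `3 J ≤ I` (`pJ`); `B ⊓ J ≤ I`.  So `b ∉ J` (otherwise `b ∈ B ⊓ J ≤ I`, `a ∈ I` by `Lk.iff`), and `3 b ∈ B ⊓ J ≤ I` (`3 P⁺ ≤ J`).
* `q3p`: `Y k ∈ Ml 3` (`k < 3`), `Ml 3 ≤ J ⊔ ⟨Y k⟩`, `Act J 3 1 Y`, `Y 0 + Y 1 + Y 2 ∈ J`.
  `b ≡ ∑ β_k Y_k`, `t ≡ ∑ α_k Y_k` modulo `J`, so `a ≡ 3 ∑ α_k Y_k` modulo `I`.  For `i ≠ j`, `Φ = id - tl (rn 3 (swap i j))`: `Φ b ≡ (β_i - β_j)(Y_i - Y_j)` modulo `J`, `Φ a ≡ 3 (α_i - α_j)(Y_i - Y_j)` modulo `I`.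
  (1) `Y_i - Y_j ∉ J` for all `i ≠ j`: otherwise all `Y_k` are congruent modulo `J` (rename), `Ml 3 ≤ J ⊔ ℤ Y_0`: `q_one`.
  (2) if `3 ∤ β_i - β_j`: `Φ b ∉ J` by (1) (`cancel`), so `Φ b ∉ I`; `3 Φ b ∈ I` (`Φ` applied to `3 b ∈ I`), so `3 (β_i - β_j)(Y_i - Y_j) ∈ I`, `3 (Y_i - Y_j) ∈ I` (`cancel`), so `Φ a ∈ I`, so `Φ b ∈ I` (`Lk.iff`): contradiction.
  (3) So all `β_k` are congruent modulo 3: `b ≡ β_0 (Y_0 + Y_1 + Y_2) ∈ J` modulo `J`: contradiction.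
* `q3v` (`g5 ∈ J`): `e = xyz`, `o = yxz` (`two_cl`): `b ≡ β e + γ o` modulo `J`, `a ≡ 3 (α e + α' o)` modulo `I`.  `Φ_± = id ± tl (rn 3 (swap 0 1))`, `Φ_± b ≡ (β ± γ)(e ± o)` modulo `J` and `Φ_± a ≡ 3 (α ± α')(e ± o)` modulo `I`.  If `Φ_± b ∉ J`: `3 ∤ β ± γ`;
  `3 Φ_± b ∈ I` gives `3 (e ± o) ∈ I`, so `Φ_± a ∈ I`, so `Φ_± b ∈ I`, contradiction.  So `Φ_+ b, Φ_- b ∈ J`, `2 b ∈ J`, `b ∈ J` (`cancel`): contradiction.
-/

namespace ADP

open AD ADN ADC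


private theorem q3_mul {J : Submodule ℤ P} (h : Bt 3 J) : ∀ f ∈ Pp, (3 : ℤ) • f ∈ J := fun f hf => by
  have := h.mul f hf
  simpa using this

private theorem q3_b {I J A B C : Submodule ℤ P} {a b t : P} (h : Pr 3 I J A B C 3 3 a b t) (hB : B ⊓ J ≤ I) :
    b ∉ J := by
  intro hb
  exact h.na ((Lk.iff h.toLk h.lk).2 (hB ⟨h.lk.2.1, hb⟩))

private theorem q3_key {I J A B C : Submodule ℤ P} {a b t : P} (h : Pr 3 I J A B C 3 3 a b t) (hB : B ⊓ J ≤ I)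
    {Φ : P →ₗ[ℤ] P} (hΦ : TOp 3 Φ) {Z : P} (hZ : Z ∈ Pp) {α β : ℤ}
    (hb : Φ b - β • Z ∈ J) (ht : Φ t - α • Z ∈ J) : Φ b ∈ J := by
  have pJ : ∀ f ∈ J, (3 : ℤ) • f ∈ I := fun f hf => by
    have := h.pJ f hf
    simpa using this
  have mJ := q3_mul h.bJ
  by_contra hn
  have hβ : ¬ ((3 : ℕ) : ℤ) ∣ β := by
    rintro ⟨c, hc⟩
    apply hn
    have e : Φ b = (Φ b - β • Z) + c • ((3 : ℤ) • Z) := by
      rw [hc, smul_smul]
      push_cast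
      rw [mul_comm c 3]
      abel
    rw [e]
    exact J.add_mem hb (J.smul_mem _ (mJ Z hZ))
  -- 3 b ∈ I
  have h3b : (3 : ℤ) • b ∈ I :=
    hB ⟨B.smul_mem _ h.lk.2.1, mJ b (Ml_Pp (by norm_num) h.hb)⟩
  have h3Φ : (3 : ℤ) • Φ b ∈ I := by
    have := hΦ I h.hI h.p2 _ h3b
    rwa [map_smul] at this
  have h3Z : (3 : ℤ) • Z ∈ I := by
    refine cancel (p := 3) Nat.prime_three h.p2 hβ (Submodule.smul_mem _ _ hZ) ?_
    have h1 := pJ _ hb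
    have e : β • (3 : ℤ) • Z = (3 : ℤ) • Φ b - (3 : ℤ) • (Φ b - β • Z) := by
      rw [smul_sub, smul_comm]
      abel
    rw [e]
    exact I.sub_mem h3Φ h1
  have hΦa : Φ a ∈ I := by
    have h1 := hΦ I h.hI h.p2 _ h.aq
    rw [map_sub, map_smul] at h1
    have h2 := pJ _ ht
    have e : Φ a = (Φ a - (3 : ℤ) • Φ t) + (3 : ℤ) • (Φ t - α • Z) + α • (3 : ℤ) • Z := by
      rw [smul_sub, smul_comm α]
      abel
    rw [e]
    exact I.add_mem (I.add_mem h1 h2) (I.smul_mem _ h3Z)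
  exact hn (h.IJ ((Lk.iff h.toLk (Lnk.map h.toLk h.lk hΦ)).1 hΦa))

private theorem q3_cf {J : Submodule ℤ P} {Y : ℕ → P} {f : P}
    (hf : f ∈ J ⊔ Submodule.span ℤ {f | ∃ k < 3, f = Y k}) :
    ∃ c : ℕ → ℤ, f - (c 0 • Y 0 + c 1 • Y 1 + c 2 • Y 2) ∈ J := by
  obtain ⟨j, hj, s, hs, rfl⟩ := Submodule.mem_sup.1 hf
  suffices h : ∃ c : ℕ → ℤ, s - (c 0 • Y 0 + c 1 • Y 1 + c 2 • Y 2) ∈ J by
    obtain ⟨c, hc⟩ := h
    refine ⟨c, ?_⟩
    rw [add_sub_assoc]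
    exact J.add_mem hj hc
  refine Submodule.span_induction (p := fun s _ => ∃ c : ℕ → ℤ, s - (c 0 • Y 0 + c 1 • Y 1 + c 2 • Y 2) ∈ J)
    ?_ ?_ ?_ ?_ hs
  · rintro x ⟨k, hk, rfl⟩
    refine ⟨fun i => if i = k then 1 else 0, ?_⟩
    interval_cases k <;> simp
  · exact ⟨fun _ => 0, by simp⟩
  · rintro x y _ _ ⟨c, hc⟩ ⟨d, hd⟩
    refine ⟨fun i => c i + d i, ?_⟩
    have e : x + y - ((c 0 + d 0) • Y 0 + (c 1 + d 1) • Y 1 + (c 2 + d 2) • Y 2) =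
        (x - (c 0 • Y 0 + c 1 • Y 1 + c 2 • Y 2)) + (y - (d 0 • Y 0 + d 1 • Y 1 + d 2 • Y 2)) := by
      rw [add_smul, add_smul, add_smul]
      abel
    show x + y - ((c 0 + d 0) • Y 0 + (c 1 + d 1) • Y 1 + (c 2 + d 2) • Y 2) ∈ J
    rw [e]
    exact J.add_mem hc hd
  · rintro r x _ ⟨c, hc⟩
    refine ⟨fun i => r * c i, ?_⟩
    have e : r • x - ((r * c 0) • Y 0 + (r * c 1) • Y 1 + (r * c 2) • Y 2) =
        r • (x - (c 0 • Y 0 + c 1 • Y 1 + c 2 • Y 2)) := by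
      rw [smul_sub, smul_add, smul_add, smul_smul, smul_smul, smul_smul]
    show r • x - ((r * c 0) • Y 0 + (r * c 1) • Y 1 + (r * c 2) • Y 2) ∈ J
    rw [e]
    exact J.smul_mem _ hc

/-- the action of a transposition -/
private theorem q3_act {J : Submodule ℤ P} (hJ : IsT J) {Y : ℕ → P} (hact : Act J 3 1 Y) {f : P} {c : ℕ → ℤ}
    (hf : f - (c 0 • Y 0 + c 1 • Y 1 + c 2 • Y 2) ∈ J) (i j : Fin 3) (hij : i ≠ j) :
    f - rn 3 (Equiv.swap i j) f - (c i - c j) • (Y i - Y j) ∈ J := by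
  have h1 := hJ.subst _ (rn_isSubst 3 (Equiv.swap i j)) _ hf
  have e0 := hact i j 0 (by norm_num) hij
  have e1 := hact i j 1 (by norm_num) hij
  have e2 := hact i j 2 (by norm_num) hij
  rw [map_sub, map_add, map_add, map_zsmul, map_zsmul, map_zsmul] at h1
  rw [one_smul] at e0 e1 e2
  have h2 := J.add_mem (J.add_mem (J.smul_mem (c 0) e0) (J.smul_mem (c 1) e1)) (J.smul_mem (c 2) e2)
  have h3 := J.sub_mem (J.sub_mem hf h1) h2
  have e : f - rn 3 (Equiv.swap i j) f - (c i - c j) • (Y i - Y j) =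
      f - (c 0 • Y 0 + c 1 • Y 1 + c 2 • Y 2) - (rn 3 (Equiv.swap i j) f - (c 0 • rn 3 (Equiv.swap i j) (Y 0) +
        c 1 • rn 3 (Equiv.swap i j) (Y 1) + c 2 • rn 3 (Equiv.swap i j) (Y 2))) -
      (c 0 • (rn 3 (Equiv.swap i j) (Y 0) - Y (Equiv.swap (i : ℕ) (j : ℕ) 0)) +
        c 1 • (rn 3 (Equiv.swap i j) (Y 1) - Y (Equiv.swap (i : ℕ) (j : ℕ) 1)) +
        c 2 • (rn 3 (Equiv.swap i j) (Y 2) - Y (Equiv.swap (i : ℕ) (j : ℕ) 2))) := by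
    have s : (c 0 • Y 0 + c 1 • Y 1 + c 2 • Y 2) - (c 0 • Y (Equiv.swap (i : ℕ) (j : ℕ) 0) +
        c 1 • Y (Equiv.swap (i : ℕ) (j : ℕ) 1) + c 2 • Y (Equiv.swap (i : ℕ) (j : ℕ) 2)) =
        (c i - c j) • (Y i - Y j) := by
      fin_cases i <;> fin_cases j
      · exact absurd rfl hij
      · have a0 : Equiv.swap (0 : ℕ) 1 0 = 1 := by decide
        have a1 : Equiv.swap (0 : ℕ) 1 1 = 0 := by decide
        have a2 : Equiv.swap (0 : ℕ) 1 2 = 2 := by decide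
        simp only [a0, a1, a2]
        module
      · have a0 : Equiv.swap (0 : ℕ) 2 0 = 2 := by decide
        have a1 : Equiv.swap (0 : ℕ) 2 1 = 1 := by decide
        have a2 : Equiv.swap (0 : ℕ) 2 2 = 0 := by decide
        simp only [a0, a1, a2]
        module
      · have a0 : Equiv.swap (1 : ℕ) 0 0 = 1 := by decide
        have a1 : Equiv.swap (1 : ℕ) 0 1 = 0 := by decide
        have a2 : Equiv.swap (1 : ℕ) 0 2 = 2 := by decide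
        simp only [a0, a1, a2]
        module
      · exact absurd rfl hij
      · have a0 : Equiv.swap (1 : ℕ) 2 0 = 0 := by decide
        have a1 : Equiv.swap (1 : ℕ) 2 1 = 2 := by decide
        have a2 : Equiv.swap (1 : ℕ) 2 2 = 1 := by decide
        simp only [a0, a1, a2]
        module
      · have a0 : Equiv.swap (2 : ℕ) 0 0 = 2 := by decide
        have a1 : Equiv.swap (2 : ℕ) 0 1 = 1 := by decide
        have a2 : Equiv.swap (2 : ℕ) 0 2 = 0 := by decide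
        simp only [a0, a1, a2]
        module
      · have a0 : Equiv.swap (2 : ℕ) 1 0 = 0 := by decide
        have a1 : Equiv.swap (2 : ℕ) 1 1 = 2 := by decide
        have a2 : Equiv.swap (2 : ℕ) 1 2 = 1 := by decide
        simp only [a0, a1, a2]
        module
      · exact absurd rfl hij
    rw [← s]
    module
  rw [e]
  exact h3

private theorem q3_Phi (ε : ℤ) (σ : Equiv.Perm (Fin 3)) (f : P) :
    ((LinearMap.id : P →ₗ[ℤ] P) + ε • tl (rn 3 σ)) f = f + ε • rn 3 σ f := by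
  rw [LinearMap.add_apply, LinearMap.smul_apply, LinearMap.id_apply, tl_apply]

private theorem q3_TOp (ε : ℤ) (σ : Equiv.Perm (Fin 3)) :
    TOp 3 ((LinearMap.id : P →ₗ[ℤ] P) + ε • tl (rn 3 σ)) := (TOp.id' 3).add ((TOp_rn 3 3 σ).smul ε)

theorem q3p {I J A B C : Submodule ℤ P} {a b t : P} (h : Pr 3 I J A B C 3 3 a b t) (hB : B ⊓ J ≤ I) {Y : ℕ → P}
    (hY : ∀ k < 3, Y k ∈ Ml 3) (hM : Ml 3 ≤ J ⊔ Submodule.span ℤ {f | ∃ k < 3, f = Y k}) (hact : Act J 3 1 Y)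
    (hs : Y 0 + Y 1 + Y 2 ∈ J) : False := by
  have hJ := h.bJ.isT
  have mJ := q3_mul h.bJ
  have m9 : Mul (((3 : ℕ) : ℤ) ^ 2) J := h.bJ.mul.sq
  have yP : ∀ k < 3, Y k ∈ Pp := fun k hk => Ml_Pp (by norm_num) (hY k hk)
  -- (1)
  have c0 : ∀ k < 3, ∃ c : ℕ → ℤ, c = Pi.single k 1 ∧ Y k - (c 0 • Y 0 + c 1 • Y 1 + c 2 • Y 2) ∈ J := by
    intro k hk
    refine ⟨_, rfl, ?_⟩
    interval_cases k <;> simp
  have ren : ∀ (i j : Fin 3), i ≠ j → ∀ k l, k < 3 → l < 3 → Y k - Y l ∈ J →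
      Y (Equiv.swap (i : ℕ) (j : ℕ) k) - Y (Equiv.swap (i : ℕ) (j : ℕ) l) ∈ J := by
    intro i j hij k l hk hl hkl
    have h1 := hJ.subst _ (rn_isSubst 3 (Equiv.swap i j)) _ hkl
    have e1 := hact i j k hk hij
    have e2 := hact i j l hl hij
    rw [one_smul] at e1 e2
    rw [map_sub] at h1
    have e : Y (Equiv.swap (i : ℕ) (j : ℕ) k) - Y (Equiv.swap (i : ℕ) (j : ℕ) l) =
        (rn 3 (Equiv.swap i j) (Y k) - rn 3 (Equiv.swap i j) (Y l)) -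
        (rn 3 (Equiv.swap i j) (Y k) - Y (Equiv.swap (i : ℕ) (j : ℕ) k)) +
        (rn 3 (Equiv.swap i j) (Y l) - Y (Equiv.swap (i : ℕ) (j : ℕ) l)) := by abel
    rw [e]
    exact J.add_mem (J.sub_mem h1 e1) e2
  have noall : Y 0 - Y 1 ∈ J → Y 0 - Y 2 ∈ J → False := by
    intro h1 h2
    refine q_one h (hY 0 (by norm_num)) (hM.trans (sup_le le_sup_left (Submodule.span_le.2 ?_)))
    rintro f ⟨k, hk, rfl⟩
    have hz : Y 0 ∈ J ⊔ Submodule.span ℤ {Y 0} := Submodule.mem_sup_right (Submodule.mem_span_singleton_self _)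
    have h3 : Y 0 - Y k ∈ J := by
      interval_cases k
      · rw [sub_self]; exact J.zero_mem
      · exact h1
      · exact h2
    have e : Y k = Y 0 - (Y 0 - Y k) := by abel
    show Y k ∈ J ⊔ Submodule.span ℤ {Y 0}
    rw [e]
    exact Submodule.sub_mem _ hz (Submodule.mem_sup_left h3)
  have n01 : Y 0 - Y 1 ∉ J := by
    intro h1
    have h2 := ren 1 2 (by decide) 0 1 (by norm_num) (by norm_num) h1
    have a0 : Equiv.swap (((1 : Fin 3)) : ℕ) (((2 : Fin 3)) : ℕ) 0 = 0 := by decide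
    have a1 : Equiv.swap (((1 : Fin 3)) : ℕ) (((2 : Fin 3)) : ℕ) 1 = 2 := by decide
    rw [a0, a1] at h2
    exact noall h1 h2
  have n02 : Y 0 - Y 2 ∉ J := by
    intro h1
    have h2 := ren 1 2 (by decide) 0 2 (by norm_num) (by norm_num) h1
    have a0 : Equiv.swap (((1 : Fin 3)) : ℕ) (((2 : Fin 3)) : ℕ) 0 = 0 := by decide
    have a1 : Equiv.swap (((1 : Fin 3)) : ℕ) (((2 : Fin 3)) : ℕ) 2 = 1 := by decide
    rw [a0, a1] at h2
    exact noall h2 h1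
  obtain ⟨β, hβ⟩ := q3_cf (hM h.hb)
  obtain ⟨α, hα⟩ := q3_cf (hM h.hh)
  have main : ∀ (i j : Fin 3), i ≠ j → (β i - β j) • (Y i - Y j) ∈ J := by
    intro i j hij
    have hb1 := q3_act hJ hact hβ i j hij
    have ht1 := q3_act hJ hact hα i j hij
    have hZ : Y i - Y j ∈ Pp := Pp.sub_mem (yP i i.2) (yP j j.2)
    have e : ∀ f : P, f - rn 3 (Equiv.swap i j) f =
        ((LinearMap.id : P →ₗ[ℤ] P) + (-1 : ℤ) • tl (rn 3 (Equiv.swap i j))) f := by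
      intro f
      rw [q3_Phi, neg_smul, one_smul]
      abel
    rw [e b] at hb1
    rw [e t] at ht1
    have h1 := q3_key h hB (q3_TOp (-1) (Equiv.swap i j)) hZ hb1 ht1
    have h2 := J.sub_mem h1 hb1
    rwa [sub_sub_cancel] at h2
  have d01 : ((3 : ℕ) : ℤ) ∣ β 0 - β 1 := by
    by_contra hd
    exact n01 (cancel (p := 3) Nat.prime_three m9 hd (Pp.sub_mem (yP 0 (by norm_num)) (yP 1 (by norm_num)))
      (main 0 1 (by decide)))
  have d02 : ((3 : ℕ) : ℤ) ∣ β 0 - β 2 := by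
    by_contra hd
    exact n02 (cancel (p := 3) Nat.prime_three m9 hd (Pp.sub_mem (yP 0 (by norm_num)) (yP 2 (by norm_num)))
      (main 0 2 (by decide)))
  obtain ⟨u, hu⟩ := d01
  obtain ⟨v, hv⟩ := d02
  apply q3_b h hB
  have e : b = (b - (β 0 • Y 0 + β 1 • Y 1 + β 2 • Y 2)) + β 0 • (Y 0 + Y 1 + Y 2) - u • (3 : ℤ) • Y 1 -
      v • (3 : ℤ) • Y 2 := by
    have e1 : β 1 = β 0 - 3 * u := by push_cast at hu; linarith
    have e2 : β 2 = β 0 - 3 * v := by push_cast at hv; linarith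
    rw [e1, e2]
    module
  rw [e]
  exact J.sub_mem (J.sub_mem (J.add_mem hβ (J.smul_mem _ hs)) (J.smul_mem _ (mJ _ (yP 1 (by norm_num)))))
    (J.smul_mem _ (mJ _ (yP 2 (by norm_num))))

theorem q3v {I J A B C : Submodule ℤ P} {a b t : P} (h : Pr 3 I J A B C 3 3 a b t) (hB : B ⊓ J ≤ I) (h5 : g5 ∈ J) :
    False := by
  have hJ := h.bJ.isT
  have mJ := q3_mul h.bJ
  have m9 : Mul (((3 : ℕ) : ℤ) ^ 2) J := h.bJ.mul.sq
  have hcl := two_cl hJ h5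
  have r1 : rn 3 (Equiv.swap 0 1) (X 0 * X 1 * X 2) = X 1 * X 0 * X 2 := by
    have a0 : Equiv.swap (0 : Fin 3) 1 0 = 1 := by decide
    have a1 : Equiv.swap (0 : Fin 3) 1 1 = 0 := by decide
    have a2 : Equiv.swap (0 : Fin 3) 1 2 = 2 := by decide
    rw [map_mul, map_mul, rn_X, rn_X, rn_X, dif_pos (by norm_num), dif_pos (by norm_num), dif_pos (by norm_num)]
    have b0 : (⟨0, by norm_num⟩ : Fin 3) = 0 := rfl
    have b1 : (⟨1, by norm_num⟩ : Fin 3) = 1 := rfl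
    have b2 : (⟨2, by norm_num⟩ : Fin 3) = 2 := rfl
    rw [b0, b1, b2, a0, a1, a2]
    rfl
  have r2 : rn 3 (Equiv.swap 0 1) (X 1 * X 0 * X 2) = X 0 * X 1 * X 2 := by
    rw [← r1, rn_rn, Equiv.swap_mul_self, rn_one]
  have cf : ∀ f ∈ Ml 3, ∃ c d : ℤ, f - (c • (X 0 * X 1 * X 2) + d • (X 1 * X 0 * X 2)) ∈ J := by
    intro f hf
    obtain ⟨j, hj, s, hs, rfl⟩ := Submodule.mem_sup.1 (hcl hf)
    obtain ⟨c, d, rfl⟩ := Submodule.mem_span_pair.1 hs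
    refine ⟨c, d, ?_⟩
    rw [add_sub_cancel_right]
    exact hj
  have hX : ∀ i j k : ℕ, X i * X j * X k ∈ Pp := fun i j k => Pp_mul_left _ (X_mem k)
  obtain ⟨β, γ, hβ⟩ := cf b h.hb
  obtain ⟨α, α', hα⟩ := cf t h.hh
  have main : ∀ ε : ℤ, ε * ε = 1 → b + ε • rn 3 (Equiv.swap 0 1) b ∈ J := by
    intro ε hε
    have hZ : X 0 * X 1 * X 2 + ε • (X 1 * X 0 * X 2) ∈ Pp := Pp.add_mem (hX _ _ _) (Pp.smul_mem _ (hX _ _ _))
    have key : ∀ (f : P) (c d : ℤ), f - (c • (X 0 * X 1 * X 2) + d • (X 1 * X 0 * X 2)) ∈ J →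
        ((LinearMap.id : P →ₗ[ℤ] P) + ε • tl (rn 3 (Equiv.swap 0 1))) f -
        (c + ε * d) • (X 0 * X 1 * X 2 + ε • (X 1 * X 0 * X 2)) ∈ J := by
      intro f c d hf
      have h1 := hJ.subst _ (rn_isSubst 3 (Equiv.swap 0 1)) _ hf
      rw [map_sub, map_add, map_zsmul, map_zsmul, r1, r2] at h1
      rw [q3_Phi]
      have h2 := J.add_mem hf (J.smul_mem ε h1)
      have e : f + ε • rn 3 (Equiv.swap 0 1) f - (c + ε * d) • (X 0 * X 1 * X 2 + ε • (X 1 * X 0 * X 2)) =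
          f - (c • (X 0 * X 1 * X 2) + d • (X 1 * X 0 * X 2)) +
          ε • (rn 3 (Equiv.swap 0 1) f - (c • (X 1 * X 0 * X 2) + d • (X 0 * X 1 * X 2))) := by
        have e2 : (ε * d) • ε • (X 1 * X 0 * X 2) = d • (X 1 * X 0 * X 2) := by
          rw [smul_smul, mul_right_comm, hε, one_mul]
        rw [smul_add, add_smul, add_smul, e2]
        module
      rw [e]
      exact h2
    have h1 := q3_key h hB (q3_TOp ε (Equiv.swap 0 1)) hZ (key b β γ hβ) (key t α α' hα)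
    rwa [q3_Phi] at h1
  apply q3_b h hB
  have h1 := main 1 (by norm_num)
  have h2 := main (-1) (by norm_num)
  refine cancel (p := 3) Nat.prime_three m9 (c := 2) (by norm_num) (Ml_Pp (by norm_num) h.hb) ?_
  have e : (2 : ℤ) • b = (b + (1 : ℤ) • rn 3 (Equiv.swap 0 1) b) + (b + (-1 : ℤ) • rn 3 (Equiv.swap 0 1) b) := by
    module
  rw [e]
  exact J.add_mem h1 h2

end ADP
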