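import Pool.Agent.ADP.Ty
import Pool.Agent.ADP.Lin3

/-!
# ADP-Rd: additive polynomials are multilinear modulo `J` (`p = 3`)
-/

namespace ADP

open AD ADN ADC

/-- additive polynomials of `Q 3 n` are multilinear modulo `J` -/
structure Rd (J : Submodule ℤ P) : Prop where
  two : ∀ g ∈ Q 3 2, Ad J 2 g → g ∈ J ⊔ Submodule.span ℤ {X 0 * X 1, X 1 * X 0, X 0 ^ 3 * X 1}
  sym : X 0 ^ 3 * X 1 - X 1 ^ 3 * X 0 ∈ J
  three : ∀ n, 3 ≤ n → ∀ g ∈ Q 3 n, Ad J n g → g ∈ J ⊔ Ml n

private theorem rd_sum {n : ℕ} {w : List ℕ} (hw : ∀ i ∈ w, i < n) :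
    ∑ i ∈ Finset.range n, w.count i = w.length := by
  have := Multiset.sum_count_eq_card (s := Finset.range n) (m := (w : Multiset ℕ))
    (fun a ha => Finset.mem_range.2 (hw a (by simpa using ha)))
  simpa using this

private theorem rd_odd {n : ℕ} {w : List ℕ} (hw : qw 3 n w) {i : ℕ} (hi : i < n) :
    w.count i % 2 = 1 := hw.2 i hi

private theorem rd_qw {n : ℕ} {w : List ℕ} (hw : qw 3 n w) :
    w.Perm (List.range n) ∨ (n + 2 ≤ w.length ∧ ∃ i < n, 3 ≤ w.count i) := by
  have hs := rd_sum hw.1
  by_cases h : ∃ i < n, 3 ≤ w.count i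
  · obtain ⟨i, hi, h3⟩ := h
    right
    refine ⟨?_, i, hi, h3⟩
    have h4 : ∀ j ∈ (Finset.range n).erase i, 1 ≤ w.count j := by
      intro j hj
      have := rd_odd hw (Finset.mem_range.1 (Finset.mem_of_mem_erase hj))
      omega
    have h5 := Finset.sum_le_sum h4
    rw [Finset.sum_const, Finset.card_erase_of_mem (Finset.mem_range.2 hi), Finset.card_range,
      smul_eq_mul, mul_one] at h5
    rw [← Finset.add_sum_erase _ _ (Finset.mem_range.2 hi)] at hs
    omega
  · left
    push Not at h
    have h1 : ∀ i < n, w.count i = 1 := fun i hi => by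
      have h2 := h i hi
      have h3 := rd_odd hw hi
      omega
    rw [List.perm_iff_count]
    intro x
    by_cases hx : x < n
    · rw [h1 x hx, List.count_eq_one_of_mem List.nodup_range (List.mem_range.2 hx)]
    · rw [List.count_eq_zero.2 (fun hm => hx (hw.1 x hm)),
        List.count_eq_zero.2 (fun hm => hx (List.mem_range.1 hm))]

private theorem rd_two {w : List ℕ} (h : w.Perm (List.range 2)) : w = [0, 1] ∨ w = [1, 0] := by
  have hl := h.length_eq
  rw [List.length_range] at hl
  obtain ⟨a, b, rfl⟩ := List.length_eq_two.1 hl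
  have ha : a < 2 := List.mem_range.1 (h.subset (by simp))
  have hb : b < 2 := List.mem_range.1 (h.subset (by simp))
  have hn : [a, b].Nodup := h.nodup_iff.2 List.nodup_range
  have hab : a ≠ b := by simpa using hn
  have h0 : a = 0 ∨ a = 1 := by omega
  rcases h0 with rfl | rfl
  · left
    have : b = 1 := by omega
    rw [this]
  · right
    have : b = 0 := by omega
    rw [this]

private theorem rd_base (J : Submodule ℤ P) {w : List ℕ} (h : w.Perm (List.range 2)) :
    mon w ∈ J ⊔ Submodule.span ℤ {X 0 * X 1, X 1 * X 0, X 0 ^ 3 * X 1} := by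
  refine Submodule.mem_sup_right (Submodule.subset_span ?_)
  rcases rd_two h with rfl | rfl
  · left
    rw [mon_cons, mon_single]
  · right; left
    rw [mon_cons, mon_single]

private theorem rd_ind {n : ℕ} {N : Submodule ℤ P} (h : ∀ w, qw 3 n w → mon w ∈ N) {g : P}
    (hg : g ∈ Q 3 n) : g ∈ N := by
  unfold Q at hg
  have h1 : Submodule.span ℤ {f | ∃ w, qw 3 n w ∧ f = mon w} ≤ N := by
    refine Submodule.span_le.2 ?_
    rintro f ⟨w, hw, rfl⟩
    exact h w hw
  exact h1 hg

private theorem rd_long {J : Submodule ℤ P} {n : ℕ} (h : Fge n ≤ J) {w : List ℕ}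
    (hw : n ≤ w.length) : mon w ∈ J := h (Submodule.subset_span ⟨w, hw, rfl⟩)

private theorem rd_31 (i j : ℕ) : mon [i, i, i, j] = X i ^ 3 * X j := by
  rw [mon_cons, mon_cons, mon_cons, mon_single, pow_succ, pow_succ, pow_one]
  simp only [mul_assoc]

private theorem rd_g1 {J : Submodule ℤ P} (hT : IsT J) (h1 : g1 ∈ J) {a b c : P} (ha : a ∈ Pp)
    (hb : b ∈ Pp) (hc : c ∈ Pp) : a * b * c + c * b * a ∈ J := by
  have h3 := sb_mem hT (φ := fun j => if j = 0 then a else if j = 1 then b else c) (fun j => by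
    by_cases h : j = 0
    · rw [if_pos h]; exact ha
    · rw [if_neg h]
      by_cases h' : j = 1
      · rw [if_pos h']; exact hb
      · rw [if_neg h']; exact hc) h1
  have e1 : sb (fun j => if j = 0 then a else if j = 1 then b else c) g1 =
      a * b * c + c * b * a := by
    unfold g1
    simp only [map_add, map_mul, sb_X]
    simp
  rwa [e1] at h3

private theorem rd_half {J : Submodule ℤ P} (hJ : Bt 3 J) {f : P} (hf : f ∈ Pp) (h : f + f ∈ J) :
    f ∈ J := by
  have h1 := hJ.mul f hf
  have e : f = ((3 : ℕ) : ℤ) • f - (f + f) := by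
    have : ((3 : ℕ) : ℤ) • f = f + f + f := by
      rw [Nat.cast_ofNat, show (3 : ℤ) = 1 + 1 + 1 by norm_num, add_smul, add_smul, one_smul]
    rw [this]
    abel
  rw [e]
  exact J.sub_mem h1 h

private theorem rd_w4 {J : Submodule ℤ P} (hJ : Bt 3 J) (h1 : g1 ∈ J) {a b c d : ℕ}
    (h : a = c ∨ b = d ∨ a = d) : mon [a, b, c, d] ∈ J := by
  have hT := hJ.isT
  refine rd_half hJ (mon_mem (by simp)) ?_
  have e : mon [a, b, c, d] = X a * X b * X c * X d := by
    rw [mon_cons, mon_cons, mon_cons, mon_single]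
    simp only [mul_assoc]
  rw [e]
  rcases h with rfl | rfl | rfl
  · have h2 := hT.mul_right _ (rd_g1 hT h1 (X_mem a) (X_mem b) (X_mem a)) (X d)
    rwa [add_mul] at h2
  · have h2 := hT.mul_left _ (rd_g1 hT h1 (X_mem b) (X_mem c) (X_mem b)) (X a)
    have e2 : X a * (X b * X c * X b + X b * X c * X b) =
        X a * X b * X c * X b + X a * X b * X c * X b := by
      rw [mul_add]
      simp only [mul_assoc]
    rwa [e2] at h2
  · have h2 := rd_g1 hT h1 (X_mem a) (Pp_mul_right (X_mem b) (X c)) (X_mem a)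
    have e2 : X a * (X b * X c) * X a + X a * (X b * X c) * X a =
        X a * X b * X c * X a + X a * X b * X c * X a := by
      simp only [mul_assoc]
    rwa [e2] at h2

private theorem rd_three5 {J : Submodule ℤ P} (h5 : Fge 5 ≤ J) :
    ∀ n, 3 ≤ n → ∀ g ∈ Q 3 n, Ad J n g → g ∈ J ⊔ Ml n := by
  intro n hn g hg _
  refine rd_ind (fun w hw => ?_) hg
  rcases rd_qw hw with h | ⟨h, _⟩
  · exact Submodule.mem_sup_right (Ml_mon h)
  · exact Submodule.mem_sup_left (rd_long h5 (by omega))

/-- `w ~ i i i r` -/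
private theorem rd_cube {w : List ℕ} {i : ℕ} (h : 3 ≤ w.count i) :
    ∃ r, w.Perm (i :: i :: i :: r) := by
  have m1 : i ∈ w := List.count_pos_iff.1 (by omega)
  have c1 : (w.erase i).count i = w.count i - 1 := List.count_erase_self
  have m2 : i ∈ w.erase i := List.count_pos_iff.1 (by omega)
  have c2 : ((w.erase i).erase i).count i = (w.erase i).count i - 1 := List.count_erase_self
  have m3 : i ∈ (w.erase i).erase i := List.count_pos_iff.1 (by omega)
  refine ⟨((w.erase i).erase i).erase i, ?_⟩
  exact (List.perm_cons_erase m1).trans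
    (((List.perm_cons_erase m2).trans ((List.perm_cons_erase m3).cons i)).cons i)

private theorem rd_C2 {J : Submodule ℤ P} (hT : IsT J) (hx : X 0 ^ 3 * X 1 * X 2 ∈ J)
    (i a b : ℕ) (r : List ℕ) : mon (i :: i :: i :: a :: b :: r) ∈ J := by
  have h3 := sb_mem hT (φ := fun j => if j = 0 then X i else if j = 1 then X a else X b) (fun j => by
    by_cases h : j = 0
    · rw [if_pos h]; exact X_mem _
    · rw [if_neg h]
      by_cases h' : j = 1
      · rw [if_pos h']; exact X_mem _
      · rw [if_neg h']; exact X_mem _) hx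
  have e1 : sb (fun j => if j = 0 then X i else if j = 1 then X a else X b)
      (X 0 ^ 3 * X 1 * X 2) = X i ^ 3 * X a * X b := by
    simp only [map_mul, map_pow, sb_X]
    simp
  rw [e1] at h3
  have h4 := hT.mul_right _ h3 (mon r)
  have e2 : mon (i :: i :: i :: a :: b :: r) = X i ^ 3 * X a * X b * mon r := by
    rw [mon_cons, mon_cons, mon_cons, mon_cons, mon_cons, pow_succ, pow_succ, pow_one]
    simp only [mul_assoc]
  rwa [e2]

private theorem rd_Cw {J : Submodule ℤ P} (h4 : Cn 4 ≤ J) {u v : List ℕ} (h : u.Perm v)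
    (hu : 4 ≤ u.length) : mon u - mon v ∈ J := h4 (Cn_anti hu (perm_Cn h))

theorem Rd_4 {J : Submodule ℤ P} (hJ : Bt 3 J) (h4 : Fge 4 ≤ J) : Rd J := by
  have _ := hJ
  refine ⟨?_, ?_, rd_three5 fun x hx => h4 ?_⟩
  · intro g hg _
    refine rd_ind (fun w hw => ?_) hg
    rcases rd_qw hw with h | ⟨h, _⟩
    · exact rd_base J h
    · exact Submodule.mem_sup_left (rd_long h4 (by omega))
  · rw [← rd_31, ← rd_31]
    exact J.sub_mem (rd_long h4 (by simp)) (rd_long h4 (by simp))
  · have h5 : Fge 5 ≤ Fge 4 := by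
      refine Submodule.span_le.2 ?_
      rintro f ⟨w, hw, rfl⟩
      exact Submodule.subset_span ⟨w, by omega, rfl⟩
    exact h5 hx

theorem Rd_1 {J : Submodule ℤ P} (hJ : Bt 3 J) (h1 : g1 ∈ J) (h5 : Fge 5 ≤ J) : Rd J := by
  refine ⟨?_, ?_, rd_three5 h5⟩
  · intro g hg _
    refine rd_ind (fun w hw => ?_) hg
    rcases rd_qw hw with h | ⟨h, i, hi, h3⟩
    · exact rd_base J h
    · refine Submodule.mem_sup_left ?_
      rcases Nat.lt_or_ge w.length 5 with hl | hl
      · have hl4 : w.length = 4 := by omega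
        obtain ⟨a, b, c, d, rfl⟩ : ∃ a b c d, w = [a, b, c, d] := by
          rcases w with _ | ⟨a, _ | ⟨b, _ | ⟨c, _ | ⟨d, _ | ⟨e, w⟩⟩⟩⟩⟩
          · simp at hl4
          · simp at hl4
          · simp at hl4
          · simp at hl4
          · exact ⟨a, b, c, d, rfl⟩
          · simp at hl4
        refine rd_w4 hJ h1 ?_
        by_contra hcon
        rw [not_or, not_or] at hcon
        obtain ⟨hac, hbd, had⟩ := hcon
        have hcnt : [a, b, c, d].count i = (if a = i then 1 else 0) + (if b = i then 1 else 0) +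
            (if c = i then 1 else 0) + (if d = i then 1 else 0) := by
          rw [List.count_cons, List.count_cons, List.count_cons, List.count_cons, List.count_nil]
          simp only [beq_iff_eq]
          omega
        rw [hcnt] at h3
        split_ifs at h3 <;> omega
      · exact rd_long h5 hl
  · rw [← rd_31, ← rd_31]
    exact J.sub_mem (rd_w4 hJ h1 (Or.inl rfl)) (rd_w4 hJ h1 (Or.inl rfl))

theorem Rd_C {J : Submodule ℤ P} (hJ : Bt 3 J) (h4 : Cn 4 ≤ J) (hx : X 0 ^ 3 * X 1 * X 2 ∈ J)
    (hs : X 0 ^ 3 * X 1 - X 1 ^ 3 * X 0 ∈ J) : Rd J := by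
  have hT := hJ.isT
  refine ⟨?_, hs, ?_⟩
  · intro g hg _
    refine rd_ind (fun w hw => ?_) hg
    rcases rd_qw hw with h | ⟨h, i, hi, h3⟩
    · exact rd_base J h
    · obtain ⟨r, hr⟩ := rd_cube h3
      have hd := rd_Cw h4 hr (by omega)
      rcases r with _ | ⟨a, _ | ⟨b, r⟩⟩
      · have := hr.length_eq
        simp at this
        omega
      · have hl := hr.length_eq
        have ha : a < 2 := hw.1 a (hr.symm.subset (by simp))
        have hai : a ≠ i := by
          rintro rfl
          have h5 := rd_odd hw hi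
          rw [hr.count_eq] at h5
          simp at h5
        rw [rd_31] at hd
        have e0 : mon w = (mon w - X i ^ 3 * X a) + X i ^ 3 * X a := by abel
        rw [e0]
        refine Submodule.add_mem _ (Submodule.mem_sup_left hd) ?_
        have hi' : i = 0 ∨ i = 1 := by omega
        rcases hi' with rfl | rfl
        · have : a = 1 := by omega
          subst this
          exact Submodule.mem_sup_right (Submodule.subset_span (Or.inr (Or.inr rfl)))
        · have : a = 0 := by omega
          subst this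
          have e1 : X 1 ^ 3 * X 0 = X 0 ^ 3 * X 1 - (X 0 ^ 3 * X 1 - X 1 ^ 3 * X 0) := by abel
          rw [e1]
          exact Submodule.sub_mem _
            (Submodule.mem_sup_right (Submodule.subset_span (Or.inr (Or.inr rfl))))
            (Submodule.mem_sup_left hs)
      · refine Submodule.mem_sup_left ?_
        have e0 : mon w = (mon w - mon (i :: i :: i :: a :: b :: r)) +
            mon (i :: i :: i :: a :: b :: r) := by abel
        rw [e0]
        exact J.add_mem hd (rd_C2 hT hx i a b r)
  · intro n hn g hg _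
    refine rd_ind (fun w hw => ?_) hg
    rcases rd_qw hw with h | ⟨h, i, hi, h3⟩
    · exact Submodule.mem_sup_right (Ml_mon h)
    · refine Submodule.mem_sup_left ?_
      obtain ⟨r, hr⟩ := rd_cube h3
      have hd := rd_Cw h4 hr (by omega)
      have hl := hr.length_eq
      simp only [List.length_cons] at hl
      rcases r with _ | ⟨a, _ | ⟨b, r⟩⟩
      · simp at hl
        omega
      · simp at hl
        omega
      · have e0 : mon w = (mon w - mon (i :: i :: i :: a :: b :: r)) +
            mon (i :: i :: i :: a :: b :: r) := by abel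
        rw [e0]
        exact J.add_mem hd (rd_C2 hT hx i a b r)

end ADP
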