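import Pool.Agent.ADP.NonM
import Pool.Agent.ADP.NEx
import Pool.Agent.ADP.Tm1
import Pool.Agent.ADP.TrC
import Pool.Agent.ADP.K3

/-!
# ADP-Tam: the tame situation for `p = 3`
-/

namespace ADP

open AD ADN ADC

/-- the tame situation -/
structure Tam (J : Submodule ℤ P) : Prop extends Bt 3 J where
  t1 : X 0 ^ 3 * X 1 * X 2 ∈ J ⊔ Cn 5
  t2 : X 0 ^ 3 * X 1 - X 0 * X 1 ^ 3 ∈ J ⊔ Cn 4

private theorem tm_len {w : List ℕ} (h : ∀ i ∈ w, i < 2) : w.length = w.count 0 + w.count 1 := by
  induction w with
  | nil => rfl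
  | cons a w ih =>
    have h1 := ih fun i hi => h i (List.mem_cons_of_mem a hi)
    have h2 := h a List.mem_cons_self
    rw [List.length_cons, h1]
    have h3 : a = 0 ∨ a = 1 := by omega
    rcases h3 with rfl | rfl
    · rw [List.count_cons_self, List.count_cons_of_ne (by norm_num)]
      omega
    · rw [List.count_cons_self, List.count_cons_of_ne (by norm_num)]
      omega

private theorem tm_rep (n i : ℕ) : mon (List.replicate n i) = X i ^ n := by
  unfold mon
  rw [List.map_replicate, List.prod_replicate]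

/-- a span of words, mapped by a projection -/
private theorem tm_Fge {φ : List ℕ → Prop} {n : ℕ} {T : Submodule ℤ P}
    (h : ∀ w, φ w → n ≤ w.length → mon w ∈ T) {r : P} (hr : r ∈ Fge n) : wp φ r ∈ T := by
  unfold Fge at hr
  induction hr using Submodule.span_induction with
  | mem x hx =>
    obtain ⟨w, hw, rfl⟩ := hx
    by_cases h1 : φ w
    · rw [wp_pos h1]
      exact h w h1 hw
    · rw [wp_neg h1]
      exact T.zero_mem
  | zero => rw [map_zero]; exact T.zero_mem
  | add x y _ _ hx hy => rw [map_add]; exact T.add_mem hx hy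
  | smul c x _ hx => rw [map_smul]; exact T.smul_mem _ hx

theorem tam_of {J : Submodule ℤ P} (hJ : Bt 3 J)
    (h : X 0 ^ 3 ∈ J ∨ X 0 ^ 3 * X 1 - X 0 * X 1 ^ 3 ∈ J ⊔ Cn (3 + 1) ⊔ Fge (3 + 2)) : Tam J := by
  have t1 : X 0 ^ 3 * X 1 * X 2 ∈ J ⊔ Cn 5 := Tm1 hJ h
  have key : ∀ w : List ℕ, 5 ≤ w.length → ∀ i, 3 ≤ w.count i → mon w ∈ J ⊔ Cn 5 := by
    intro w h1 i h2
    exact (sup_le_sup_left (Cn_anti h1) J) (nonm hJ t1 h1 h2)
  refine { toBt := hJ, t1 := t1, t2 := ?_ }
  rcases h with h | h
  · have h1 : X 1 ^ 3 ∈ J := by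
      have h2 := sb_mem hJ.isT (φ := fun _ => X 1) (fun _ => X_mem 1) h
      rw [map_pow, sb_X] at h2
      exact h2
    exact Submodule.mem_sup_left (J.sub_mem (hJ.isT.mul_right _ h _) (hJ.isT.mul_left _ h1 _))
  · have hq : wp (qw 3 2) (X 0 ^ 3 * X 1 - X 0 * X 1 ^ 3) = X 0 ^ 3 * X 1 - X 0 * X 1 ^ 3 := by
      have q1 : qw 3 2 (List.replicate 3 0 ++ [1]) := by
        refine ⟨fun i hi => ?_, fun i hi => ?_⟩
        · rcases List.mem_append.1 hi with hi | hi
          · rw [List.eq_of_mem_replicate hi]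
            norm_num
          · rw [List.mem_singleton.1 hi]
            norm_num
        · have h6 : i = 0 ∨ i = 1 := by omega
          rcases h6 with rfl | rfl
          · rw [List.count_append, List.count_replicate_self, List.count_singleton]
            rfl
          · rw [List.count_append, List.count_replicate, List.count_singleton_self]
            rfl
      have q2 : qw 3 2 (0 :: List.replicate 3 1) := by
        refine ⟨fun i hi => ?_, fun i hi => ?_⟩
        · rcases List.mem_cons.1 hi with hi | hi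
          · rw [hi]
            norm_num
          · rw [List.eq_of_mem_replicate hi]
            norm_num
        · have h6 : i = 0 ∨ i = 1 := by omega
          rcases h6 with rfl | rfl
          · rw [List.count_cons_self, List.count_replicate]
            rfl
          · rw [List.count_cons_of_ne (by norm_num), List.count_replicate_self]
      have h7 := wp_pos q1
      have h8 := wp_pos q2
      rw [mon_append, tm_rep, mon_single] at h7
      rw [mon_cons, tm_rep] at h8
      rw [map_sub, h7, h8]
    rw [← hq]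
    obtain ⟨s, hs, r, hr, hsr⟩ := Submodule.mem_sup.1 h
    obtain ⟨j, hj, c, hc, hjc⟩ := Submodule.mem_sup.1 hs
    rw [← hsr, ← hjc, map_add, map_add]
    refine Submodule.add_mem _ (Submodule.add_mem _ (Submodule.mem_sup_left
      (TOp_qw hJ.pp (le_refl 3) 2 J hJ.isT hJ.mul.sq j hj)) (Submodule.mem_sup_right ?_))
      (tm_Fge ?_ hr)
    · have h9 := wp_Cn (φ := qw 3 2) (fun u v huv => qw_perm huv) hc
      refine (Submodule.span_le.2 ?_) h9
      rintro f ⟨u, v, i, k, h10, -, rfl⟩
      exact Submodule.subset_span ⟨u, v, i, k, h10, rfl⟩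
    · rintro w ⟨h1, h2⟩ h4
      have hlen := tm_len h1
      have e0 := h2 0 (by norm_num)
      have e1 := h2 1 (by norm_num)
      refine (sup_le_sup_left (Cn_anti (Nat.le_succ 4)) J) ?_
      by_cases hc : 3 ≤ w.count 0
      · exact key w h4 0 hc
      · exact key w h4 1 (by omega)

theorem Tam_op {J : Submodule ℤ P} (h : Tam J) : Tam (op J) := by
  have hop : ∀ n, op (J ⊔ Cn n) = op J ⊔ Cn n := fun n => by rw [op_sup, op_Cn]
  exact
  { toBt := Bt_op h.toBt
    t1 := by
      rw [← hop]
      show rv (X 0 ^ 3 * X 1 * X 2) ∈ J ⊔ Cn 5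
      have h1 : X 0 ^ 3 * X 1 * X 2 = mon (List.replicate 3 0 ++ [1, 2]) := by
        rw [mon_append, tm_rep, mon_cons, mon_single, mul_assoc]
      have h2 : rv (X 0 ^ 3 * X 1 * X 2) = mon (List.replicate 3 0 ++ [1, 2]).reverse := by
        rw [h1, rv_mon]
      have h3 := perm_Cn (List.reverse_perm (List.replicate 3 0 ++ [1, 2]))
      rw [List.length_reverse, List.length_append, List.length_replicate] at h3
      have h5 : mon (List.replicate 3 0 ++ [1, 2]).reverse =
          (mon (List.replicate 3 0 ++ [1, 2]).reverse - mon (List.replicate 3 0 ++ [1, 2])) +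
          mon (List.replicate 3 0 ++ [1, 2]) := (sub_add_cancel _ _).symm
      rw [h2, h5]
      refine Submodule.add_mem _ (Submodule.mem_sup_right h3) ?_
      rw [← h1]
      exact h.t1
    t2 := by
      rw [← hop]
      show rv (X 0 ^ 3 * X 1 - X 0 * X 1 ^ 3) ∈ J ⊔ Cn 4
      have h1 : X 0 ^ 3 * X 1 = mon (List.replicate 3 0 ++ [1]) := by
        rw [mon_append, tm_rep, mon_single]
      have h1' : X 0 * X 1 ^ 3 = mon ([0] ++ List.replicate 3 1) := by
        rw [mon_append, tm_rep, mon_single]
      have h2 : rv (X 0 ^ 3 * X 1 - X 0 * X 1 ^ 3) =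
          (mon (List.replicate 3 0 ++ [1]).reverse - mon (List.replicate 3 0 ++ [1])) -
          (mon ([0] ++ List.replicate 3 1).reverse - mon ([0] ++ List.replicate 3 1)) +
          (X 0 ^ 3 * X 1 - X 0 * X 1 ^ 3) := by
        rw [map_sub, h1, h1', rv_mon, rv_mon]
        abel
      have h3 := perm_Cn (List.reverse_perm (List.replicate 3 0 ++ [1]))
      have h3' := perm_Cn (List.reverse_perm ([0] ++ List.replicate 3 1))
      rw [List.length_reverse, List.length_append, List.length_replicate] at h3 h3'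
      rw [h2]
      exact Submodule.add_mem _ (Submodule.mem_sup_right (Submodule.sub_mem _ h3 h3')) h.t2 }

/-- multilinear polynomials -/
theorem Tam.up {J : Submodule ℤ P} (h : Tam J) {n : ℕ} (hn : 3 ≤ n) {f : P} (hf : f ∈ Ml n) (h1 : f ∈ J ⊔ Fge (n + 1)) :
    f ∈ J ⊔ Cn (n + 2) := by
  have h2 := ml_up h.toBt h.t1 hn hf h1
  have e : n + 3 - 1 = n + 2 := by omega
  rwa [e] at h2

end ADP
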